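import Pool.Agent.Y583.MG3

set_option autoImplicit false

/-!
Galois types over a member of the class.
-/

namespace Pool.Agent.Y583.MC

open Cardinal

variable {R : Type} [Ring R]

theorem exists_perm {J : Type} {n : ℕ} (α β : Fin n → J) (hα : Function.Injective α)
    (hβ : Function.Injective β) (hαβ : ∀ i j, α i ≠ β j) :
    ∃ π : Equiv.Perm J, ∀ j, π (α j) = β j := by
  classical
  let f : J → J := fun x => if h : ∃ j, α j = x then β h.choose else
    if h : ∃ j, β j = x then α h.choose else x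
  have h1 : ∀ j, f (α j) = β j := by
    intro j
    have h : ∃ i, α i = α j := ⟨j, rfl⟩
    show (if h : ∃ i, α i = α j then β h.choose else _) = β j
    rw [dif_pos h, hα h.choose_spec]
  have h2 : ∀ j, f (β j) = α j := by
    intro j
    have h : ¬ ∃ i, α i = β j := fun ⟨i, hi⟩ => hαβ i j hi
    have h' : ∃ i, β i = β j := ⟨j, rfl⟩
    show (if h : ∃ i, α i = β j then β h.choose else
      if h : ∃ i, β i = β j then α h.choose else β j) = α j
    rw [dif_neg h, dif_pos h', hβ h'.choose_spec]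
  have h3 : ∀ x, (¬ ∃ j, α j = x) → (¬ ∃ j, β j = x) → f x = x := by
    intro x h h'
    show (if h : ∃ i, α i = x then β h.choose else
      if h : ∃ i, β i = x then α h.choose else x) = x
    rw [dif_neg h, dif_neg h']
  have hf : Function.Involutive f := by
    intro x
    by_cases h : ∃ j, α j = x
    · obtain ⟨j, rfl⟩ := h
      rw [h1, h2]
    · by_cases h' : ∃ j, β j = x
      · obtain ⟨j, rfl⟩ := h'
        rw [h2, h1]
      · rw [h3 x h h', h3 x h h']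
  exact ⟨hf.toPerm, h1⟩

section
variable {K : KK R} {M N N' D : Type} [AddCommGroup M] [Module R M] [AddCommGroup N] [Module R N]
  [AddCommGroup N'] [Module R N'] [AddCommGroup D] [Module R D]

/-- the extension of `N` by the complement of `M` in `N'` -/
theorem emb_join {ι ι' : Type} (h : M ≃ₗ[R] N) (k : N ≃ₗ[R] (M × (ι →₀ D)))
    (f' : M →ₗ[R] N') (hf' : K.emb f') (k' : N' ≃ₗ[R] (M × (ι' →₀ D)))
    (hk' : ∀ x, k' (f' x) = (x, 0)) :
    ∃ g : N →ₗ[R] (M × (ι ⊕ ι' →₀ D)), K.emb g ∧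
      ∀ y, g y = ((k y).1, Finsupp.mapDomain Sum.inl (k y).2) := by
  classical
  let τ : ((M × (ι →₀ D)) × (ι' →₀ D)) ≃ₗ[R] (M × (ι ⊕ ι' →₀ D)) :=
    LinearEquiv.trans
      { toFun := fun x => (x.1.1, (x.1.2, x.2))
        invFun := fun x => ((x.1, x.2.1), x.2.2)
        left_inv := fun x => rfl
        right_inv := fun x => rfl
        map_add' := fun x y => rfl
        map_smul' := fun r x => rfl }
      (LinearEquiv.prodCongr (LinearEquiv.refl R M) (Finsupp.sumFinsuppLEquivProdFinsupp R).symm)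
  have hτ : ∀ x : M × (ι →₀ D), τ (x, 0) = (x.1, Finsupp.mapDomain Sum.inl x.2) := by
    rintro ⟨a, w⟩
    refine Prod.ext rfl (Finsupp.ext fun i => ?_)
    show ((Finsupp.sumFinsuppLEquivProdFinsupp R).symm (w, 0)) i = (Finsupp.mapDomain Sum.inl w) i
    rcases i with i | i
    · rw [Finsupp.sumFinsuppLEquivProdFinsupp_symm_inl, Finsupp.mapDomain_apply Sum.inl_injective]
    · rw [Finsupp.sumFinsuppLEquivProdFinsupp_symm_inr,
        Finsupp.mapDomain_notin_range _ _ (by simp)]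
      rfl
  let g : N →ₗ[R] (M × (ι ⊕ ι' →₀ D)) :=
    (τ : ((M × (ι →₀ D)) × (ι' →₀ D)) →ₗ[R] (M × (ι ⊕ ι' →₀ D))) ∘ₗ LinearMap.inl R _ _ ∘ₗ
      (k : N →ₗ[R] (M × (ι →₀ D)))
  have hg : ∀ y, g y = τ (k y, 0) := fun y => rfl
  refine ⟨g, ?_, fun y => by rw [hg, hτ]⟩
  refine K.emb_congr h ((k'.trans (LinearEquiv.prodCongr (h.trans k) (LinearEquiv.refl R _))).trans
    τ) f' g (fun x => ?_) hf'
  rw [hg]
  show τ (k (h x), 0) = τ (k (h (k' (f' x)).1), (k' (f' x)).2)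
  rw [hk']

theorem same_of_code {χ : Cardinal.{0}} (huniq : UniqK K χ) (hM : #M = χ) (hN : #N = χ)
    (hN' : #N' = χ) (f : M →ₗ[R] N) (f' : M →ₗ[R] N') (hf : K.emb f) (hf' : K.emb f')
    {ι ι' : Type} (k : N ≃ₗ[R] (M × (ι →₀ D))) (k' : N' ≃ₗ[R] (M × (ι' →₀ D)))
    (hk : ∀ x, k (f x) = (x, 0)) (hk' : ∀ x, k' (f' x) = (x, 0)) {n : ℕ} (m : M)
    (v : Fin n →₀ D) (e : Fin n ↪ ι) (e' : Fin n ↪ ι') (a : N) (a' : N')
    (ha : k a = (m, Finsupp.mapDomain e v)) (ha' : k' a' = (m, Finsupp.mapDomain e' v)) :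
    ∃ (P : Type) (_ : AddCommGroup P) (_ : Module R P) (g : N →ₗ[R] P) (g' : N' →ₗ[R] P),
      K.emb g ∧ K.emb g' ∧ (∀ x, g (f x) = g' (f' x)) ∧ g a = g' a' := by
  classical
  obtain ⟨h⟩ := huniq M N hM hN (K.emb_mem _ hf).1 (K.emb_mem _ hf).2
  obtain ⟨h'⟩ := huniq M N' hM hN' (K.emb_mem _ hf').1 (K.emb_mem _ hf').2
  obtain ⟨g, hg1, hg2⟩ := emb_join h k f' hf' k' hk'
  obtain ⟨g', hg1', hg2'⟩ := emb_join h' k' f hf k hk
  obtain ⟨π, hπ⟩ := exists_perm (J := ι ⊕ ι') (fun j => Sum.inr (e' j)) (fun j => Sum.inl (e j))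
    (Sum.inr_injective.comp e'.injective) (Sum.inl_injective.comp e.injective)
    (fun i j h => by cases h)
  let θ : ι' ⊕ ι ≃ ι ⊕ ι' := (Equiv.sumComm ι' ι).trans π
  let Θ : (M × (ι' ⊕ ι →₀ D)) ≃ₗ[R] (M × (ι ⊕ ι' →₀ D)) :=
    LinearEquiv.prodCongr (LinearEquiv.refl R M) (Finsupp.domLCongr θ)
  have hΘ : ∀ x, Θ x = (x.1, Finsupp.mapDomain θ x.2) := fun x =>
    Prod.ext rfl (Finsupp.equivMapDomain_eq_mapDomain θ x.2)
  refine ⟨M × (ι ⊕ ι' →₀ D), inferInstance, inferInstance, g,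
    (Θ : (M × (ι' ⊕ ι →₀ D)) →ₗ[R] (M × (ι ⊕ ι' →₀ D))) ∘ₗ g', hg1,
    K.comp _ _ (K.emb_equiv Θ (K.emb_mem _ hg1').2) hg1', fun x => ?_, ?_⟩
  · show g (f x) = Θ (g' (f' x))
    rw [hΘ, hg2, hg2', hk, hk', Finsupp.mapDomain_zero, Finsupp.mapDomain_zero,
      Finsupp.mapDomain_zero]
  · show g a = Θ (g' a')
    rw [hΘ, hg2, hg2', ha, ha', ← Finsupp.mapDomain_comp, ← Finsupp.mapDomain_comp,
      ← Finsupp.mapDomain_comp]
    refine Prod.ext rfl ?_
    show Finsupp.mapDomain _ v = Finsupp.mapDomain _ v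
    congr 1
    funext j
    exact (hπ j).symm

theorem exists_code {ι : Type} (w : ι →₀ D) :
    ∃ (n : ℕ) (v : Fin n →₀ D) (e : Fin n ↪ ι), w = Finsupp.mapDomain e v := by
  classical
  let q := w.support.equivFin
  let e : Fin w.support.card ↪ ι := q.symm.toEmbedding.trans (Function.Embedding.subtype _)
  refine ⟨w.support.card, Finsupp.equivFunOnFinite.symm fun j => w (e j), e, ?_⟩
  ext i
  by_cases hi : i ∈ w.support
  · have h1 : e (q ⟨i, hi⟩) = i := by
      show ((q.symm (q ⟨i, hi⟩) : w.support) : ι) = i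
      rw [Equiv.symm_apply_apply]
    conv_rhs => rw [← h1]
    rw [Finsupp.mapDomain_apply e.injective]
    show w i = w (e (q ⟨i, hi⟩))
    rw [h1]
  · rw [Finsupp.mapDomain_notin_range, Finsupp.notMem_support_iff.1 hi]
    rintro ⟨j, rfl⟩
    exact hi (q.symm j).2

theorem small_ext (f : M →ₗ[R] N) (hf : K.emb f) (a : N) (hM : ℵ₀ ≤ #M) [Countable R] :
    ∃ (S : Submodule R N) (f' : M →ₗ[R] S), #S = #M ∧ a ∈ S ∧ (∀ x, (f' x : N) = f x) ∧
      K.emb f' ∧ K.emb S.subtype := by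
  classical
  obtain ⟨c, hc1, hc2⟩ := KK.exists_strong (K.emb_mem _ hf).2
  obtain ⟨S, h1, h2, h3, -⟩ := lowenheim (R := R) (N := N) (.lin fun _ => 0) (by
    show (∑ i : Fin 0, _) = _
    simp) c hc1 #M hM (insert a (Set.range f)) (by
      refine mk_insert_le.trans ?_
      exact add_le_of_le hM mk_range_le (one_le_aleph0.trans hM))
  have hS := KK.subtype_iff.2 (hc2 S h3)
  let f' : M →ₗ[R] S := LinearMap.codRestrict S f fun x => h1 (Or.inr ⟨x, rfl⟩)
  have hinj : Function.Injective f' := fun x y h => K.inj _ hf (congrArg Subtype.val h)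
  exact ⟨S, f', le_antisymm h2 (mk_le_of_injective hinj), h1 (Or.inl rfl), fun x => rfl,
    K.coh S.subtype f' hS hf, hS⟩

end

end Pool.Agent.Y583.MC
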