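import Pool.Agent.Y583.MC7

set_option autoImplicit false

/-!
Closure arguments for direct summands of `D^(I)`, cardinalities, and the structure of the models.
-/

namespace Pool.Agent.Y583.MC

open Cardinal

variable {R : Type} [Ring R]

theorem cl_retract {D : Type} [AddCommGroup D] [Module R D] [Countable D] {N I : Type}
    [AddCommGroup N] [Module R N] (i : N →ₗ[R] (I →₀ D)) (p : (I →₀ D) →ₗ[R] N)
    (hp : ∀ x, p (i x) = x) : Cl R D N := by
  classical
  intro c hc A hA
  have hi : Function.Injective i := fun a b h => by rw [← hp a, h, hp]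
  let c' : Finset I → Set I := fun F =>
    (⋃ x ∈ {x : N | i x ∈ Finsupp.supported D R (↑F : Set I)}, ⋃ y ∈ c x,
      (↑(i y).support : Set I)) ∪
    ⋃ k ∈ F, ⋃ d : D, (↑(i (p (Finsupp.single k d))).support : Set I)
  have hc' : ∀ F, (c' F).Countable := by
    intro F
    refine Set.Countable.union ?_ ?_
    · refine Set.Countable.biUnion ?_ fun x _ => Set.Countable.biUnion (hc x) fun y _ =>
        (i y).support.countable_toSet
      have h1 : (Finsupp.supported D R (↑F : Set I) : Set (I →₀ D)).Countable := by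
        haveI : Countable (Finsupp.supported D R (↑F : Set I)) :=
          (Finsupp.supportedEquivFinsupp (R := R) (M := D) (↑F : Set I)).injective.countable
        exact Set.to_countable _
      exact h1.preimage hi
    · exact Set.Countable.biUnion F.countable_toSet fun k _ => Set.countable_iUnion fun d =>
        (i (p (Finsupp.single k d))).support.countable_toSet
  obtain ⟨C, h1, h2, h3⟩ := exists_closed_countable c' hc'
    (⋃ a ∈ A, (↑(i a).support : Set I))
    (Set.Countable.biUnion hA fun a _ => (i a).support.countable_toSet)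
  let S : Submodule R N := (Finsupp.supported D R C).comap i
  have hS : ∀ x, x ∈ S ↔ (↑(i x).support : Set I) ⊆ C := fun x => Iff.rfl
  have hpS : ∀ w ∈ Finsupp.supported D R C, p w ∈ S := by
    intro w hw
    have hw' : w = ∑ k ∈ w.support, Finsupp.single k (w k) := (Finsupp.sum_single w).symm
    rw [hw', map_sum]
    refine Submodule.sum_mem _ fun k hk => ?_
    rw [hS]
    have hkC : k ∈ C := (Finsupp.mem_supported R _).1 hw hk
    refine Set.Subset.trans ?_ (h3 {k} (by simpa using hkC))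
    intro j hj
    exact Or.inr (Set.mem_biUnion (Finset.mem_coe.2 (Finset.mem_singleton_self k))
      (Set.mem_iUnion.2 ⟨w k, hj⟩))
  refine ⟨S, fun a ha => ?_, fun x hx y hy => ?_, ?_⟩
  · rw [SetLike.mem_coe, hS]
    exact Set.Subset.trans (Set.subset_biUnion_of_mem (u := fun a => (↑(i a).support : Set I)) ha) h1
  · rw [SetLike.mem_coe, hS]
    refine Set.Subset.trans ?_ (h3 (i x).support hx)
    intro j hj
    refine Or.inl (Set.mem_biUnion (x := x) ?_ (Set.mem_biUnion hy hj))
    exact (Finsupp.mem_supported R _).2 subset_rfl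
  · -- `S` is a retract of `C →₀ D`, hence of `ℕ →₀ D`
    haveI : Countable C := h2.to_subtype
    obtain ⟨g, hg⟩ := exists_injective_nat C
    let s := Finsupp.supportedEquivFinsupp (R := R) (M := D) C
    let i₁ : S →ₗ[R] Finsupp.supported D R C :=
      LinearMap.codRestrict _ (i ∘ₗ S.subtype) fun x => x.2
    let p₁ : Finsupp.supported D R C →ₗ[R] S :=
      LinearMap.codRestrict _ (p ∘ₗ (Finsupp.supported D R C).subtype) fun w => hpS w.1 w.2
    refine ⟨Finsupp.lmapDomain D R g ∘ₗ (s : Finsupp.supported D R C →ₗ[R] (C →₀ D)) ∘ₗ i₁,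
      p₁ ∘ₗ (s.symm : (C →₀ D) →ₗ[R] Finsupp.supported D R C) ∘ₗ Finsupp.lcomapDomain g hg,
      fun x => ?_⟩
    show p₁ (s.symm (Finsupp.comapDomain g (Finsupp.mapDomain g (s (i₁ x))) hg.injOn)) = x
    rw [Finsupp.comapDomain_mapDomain _ hg, LinearEquiv.symm_apply_apply]
    exact Subtype.ext (hp x)

theorem mk_pow (I E : Type) [Infinite I] [AddCommGroup E] [Nontrivial E] (h : #E ≤ #I) :
    #(I →₀ E) = #I := by
  rw [mk_finsupp_of_infinite]
  exact max_eq_left h

theorem mk_pow_unc (I E : Type) [AddCommGroup E] [Nontrivial E] [Countable E]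
    (h : ℵ₀ < #(I →₀ E)) : #(I →₀ E) = #I := by
  have hI : Infinite I := by
    by_contra hfin
    rw [not_infinite_iff_finite] at hfin
    haveI := hfin
    have : Countable (I →₀ E) := inferInstance
    exact absurd h (not_lt.2 (mk_le_aleph0))
  rw [mk_finsupp_of_infinite]
  exact max_eq_left ((mk_le_aleph0 (α := E)).trans (infinite_iff.1 hI))

theorem mk_TM_le {E : Type} [AddCommGroup E] [Module R E] [Countable E] (e : E ≃ₗ[R] (ℕ →₀ E))
    (Y : Set (ℕ → Bool)) [Infinite Y] (f : ℕ → (E →ₗ[R] E)) : #(TM Y f) ≤ #Y := by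
  have h1 : (Set.univ : Set (TM Y f)) ⊆ ⋃ q : Finset Y × ℕ, (SG f q.1 q.2 : Set (TM Y f)) := by
    intro g _
    obtain ⟨G, n, h⟩ := TM_cov f g
    exact Set.mem_iUnion.2 ⟨(G, n), h⟩
  rw [← mk_univ]
  refine (mk_le_mk_of_subset h1).trans ((mk_iUnion_le _).trans ?_)
  have h2 : (⨆ q : Finset Y × ℕ, #(SG f q.1 q.2 : Set (TM Y f))) ≤ ℵ₀ :=
    ciSup_le' fun q => le_aleph0_iff_set_countable.2 (SG_countable e f q.1 q.2)
  have h3 : #(Finset Y × ℕ) ≤ #Y := by
    rw [mk_prod, lift_id, lift_id, mk_finset_of_infinite, mk_nat]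
    exact (mul_eq_left (infinite_iff.1 ‹_›) (infinite_iff.1 ‹_›) aleph0_ne_zero).le
  refine (mul_le_mul' h3 h2).trans ?_
  exact (mul_eq_left (infinite_iff.1 ‹_›) (infinite_iff.1 ‹_›) aleph0_ne_zero).le

/-- powers of powers -/
theorem pow_pow (N : Type) [AddCommGroup N] [Module R N] :
    Nonempty ((ℕ →₀ N) ≃ₗ[R] (ℕ →₀ (ℕ →₀ N))) := by
  obtain ⟨f⟩ : Nonempty (ℕ ≃ ℕ × ℕ) := nonempty_equiv_of_countable
  exact ⟨(Finsupp.domLCongr f).trans (Finsupp.finsuppProdLEquiv R)⟩

/-- `f n ∘ ⋯ ∘ f 0` kills `d` for some `n` -/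
theorem nilp {D : Type} [AddCommGroup D] [Module R D] {z : D} (hz : Loc R D z) (hT : TP R D)
    (f : ℕ → (D →ₗ[R] D)) (hf : ∀ n, f n z = 0) (d : D) : ∃ n, it f 0 n d = 0 := by
  obtain ⟨h, hh⟩ := hT f
  obtain ⟨i, hi⟩ := Infinite.exists_notMem_finset (h 0 d).support
  refine ⟨i, ?_⟩
  have h1 : (h 0 d) i = 0 := Finsupp.notMem_support_iff.1 hi
  rw [tele hh 0 (i + 1) d, Finset.sum_range_succ, Finsupp.add_apply, Finsupp.add_apply,
    Finsupp.finset_sum_apply] at h1
  have h2 : ∑ k ∈ Finset.range i, (Finsupp.single (0 + k) (it f 0 k d) : ℕ →₀ D) i = 0 := by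
    refine Finset.sum_eq_zero fun k hk => ?_
    rw [Finset.mem_range] at hk
    rw [Finsupp.single_apply, if_neg (by omega)]
  rw [h2, zero_add, zero_add, zero_add, Finsupp.single_eq_same] at h1
  let φ : D →ₗ[R] D := LinearMap.id + Finsupp.lapply i ∘ₗ h (i + 1) ∘ₗ f i
  have hφ : φ (it f 0 i d) = 0 := by
    have : it f 0 (i + 1) d = f i (it f 0 i d) := by
      show f (0 + i) (it f 0 i d) = _
      rw [zero_add]
    rw [this] at h1
    exact h1
  have hφz : φ z ≠ 0 := by
    show z + (h (i + 1) (f i z)) i ≠ 0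
    rw [hf, map_zero, Finsupp.zero_apply, add_zero]
    exact hz.1
  obtain ⟨ψ, h3, -⟩ := hz.2 φ hφz
  rw [← h3 (it f 0 i d), hφ, map_zero]

end Pool.Agent.Y583.MC
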