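import Pool.Agent.Y583.MC0

set_option autoImplicit false

/-!
Infinitary formulas about modules over a countable ring; preservation under isomorphism and under
directed unions; closure arguments and the downward Löwenheim–Skolem theorem.
-/

namespace Pool.Agent.Y583.MC

variable {R : Type} [Ring R]

theorem cons_comp {A B : Type} (g : A → B) {n : ℕ} (a : A) (v : Fin n → A) :
    (fun i => g ((Fin.cons a v : Fin (n + 1) → A) i)) =
      (Fin.cons (g a) (fun i => g (v i)) : Fin (n + 1) → B) := by
  funext i
  refine Fin.cases ?_ (fun j => ?_) i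
  · rfl
  · rfl

theorem sat_iso {M N : Type} [AddCommGroup M] [Module R M] [AddCommGroup N] [Module R N]
    (e : M ≃ₗ[R] N) {n : ℕ} (φ : Fml R n) :
    ∀ v : Fin n → M, Sat M φ v ↔ Sat N φ (fun i => e (v i)) := by
  induction φ with
  | lin r =>
      intro v
      show (∑ i, r i • v i = 0) ↔ (∑ i, r i • e (v i) = 0)
      have : ∑ i, r i • e (v i) = e (∑ i, r i • v i) := by simp
      rw [this, LinearEquiv.map_eq_zero_iff]
  | neg φ ih => intro v; exact not_congr (ih v)
  | conj φ ih => intro v; exact forall_congr' fun k => ih k v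
  | ex φ ih =>
      intro v
      constructor
      · rintro ⟨a, ha⟩
        refine ⟨e a, ?_⟩
        have := (ih _).1 ha
        rw [cons_comp e a v] at this
        exact this
      · rintro ⟨b, hb⟩
        refine ⟨e.symm b, (ih _).2 ?_⟩
        rw [cons_comp e _ v, LinearEquiv.apply_symm_apply]
        exact hb

/-- A directed union of submodules such that finitely many elements of a member can be fixed by an
isomorphism between this member and a larger one. -/
theorem sat_dir {N : Type} [AddCommGroup N] [Module R N] (𝒮 : Set (Submodule R N))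
    (hdir : ∀ S ∈ 𝒮, ∀ T ∈ 𝒮, ∃ W ∈ 𝒮, S ≤ W ∧ T ≤ W) (hcov : ∀ x : N, ∃ S ∈ 𝒮, x ∈ S)
    (hiso : ∀ S ∈ 𝒮, ∀ T ∈ 𝒮, S ≤ T → ∀ F : Finset N, (∀ x ∈ F, x ∈ S) →
      ∃ e : T ≃ₗ[R] S, ∀ x : T, (x : N) ∈ F → (e x : N) = x) {n : ℕ} (φ : Fml R n) :
    ∀ S ∈ 𝒮, ∀ v : Fin n → S, Sat S φ v ↔ Sat N φ (fun i => (v i : N)) := by
  classical
  induction φ with
  | lin r =>
      intro S _ v
      show (∑ i, r i • v i = 0) ↔ (∑ i, r i • (v i : N) = 0)
      rw [← Subtype.coe_inj]
      simp
  | neg φ ih => intro S hS v; exact not_congr (ih S hS v)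
  | conj φ ih => intro S hS v; exact forall_congr' fun k => ih k S hS v
  | @ex n φ ih =>
      intro S hS v
      constructor
      · rintro ⟨a, ha⟩
        refine ⟨a, ?_⟩
        have := (ih S hS _).1 ha
        rw [cons_comp (fun x : S => (x : N)) a v] at this
        exact this
      · rintro ⟨b, hb⟩
        obtain ⟨T₀, hT₀, hb₀⟩ := hcov b
        obtain ⟨T, hT, hST, hTT⟩ := hdir S hS T₀ hT₀
        obtain ⟨e, he⟩ := hiso S hS T hT hST (Finset.univ.image fun i => (v i : N))
          (fun x hx => by
            simp only [Finset.mem_image, Finset.mem_univ, true_and] at hx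
            obtain ⟨i, rfl⟩ := hx
            exact (v i).2)
        let w : Fin n → T := fun i => ⟨v i, hST (v i).2⟩
        have h1 : Sat T φ (Fin.cons ⟨b, hTT hb₀⟩ w) := by
          refine (ih T hT _).2 ?_
          rw [cons_comp (fun x : T => (x : N)) _ w]
          exact hb
        refine ⟨e ⟨b, hTT hb₀⟩, ?_⟩
        have h2 := (sat_iso e φ _).1 h1
        rw [cons_comp e _ w] at h2
        have h3 : (fun i => e (w i)) = v := by
          funext j
          apply Subtype.ext
          rw [he (w j) (Finset.mem_image.2 ⟨j, Finset.mem_univ _, rfl⟩)]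
        rw [h3] at h2
        exact h2

/-! ### closure -/

/-- the sets closed under a function on finite sets -/
def Closed {X : Type} (c : Finset X → Set X) (W : Set X) : Prop :=
  ∀ F : Finset X, (↑F : Set X) ⊆ W → c F ⊆ W

open Cardinal in
theorem exists_closed {X : Type} (c : Finset X → Set X) (hc : ∀ F, (c F).Countable)
    (κ : Cardinal.{0}) (hκ : ℵ₀ ≤ κ) (A : Set X) (hA : #A ≤ κ) :
    ∃ W : Set X, A ⊆ W ∧ #W ≤ κ ∧ Closed c W := by
  classical
  let nxt : Set X → Set X := fun W => W ∪ ⋃ F : {F : Finset X // (↑F : Set X) ⊆ W}, c F.1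
  let W : ℕ → Set X := fun n => nxt^[n] A
  have hW : ∀ n, #(W n) ≤ κ := by
    intro n
    induction n with
    | zero => exact hA
    | succ n ih =>
        show #(nxt^[n + 1] A : Set X) ≤ κ
        rw [Function.iterate_succ_apply']
        refine (mk_union_le _ _).trans ?_
        refine add_le_of_le hκ ih ?_
        refine (mk_iUnion_le _).trans ?_
        have h1 : #{F : Finset X // (↑F : Set X) ⊆ W n} ≤ κ := by
          have : #{F : Finset X // (↑F : Set X) ⊆ W n} ≤ #(Finset (W n)) := by
            refine mk_le_of_injective (f := fun F => F.1.subtype (· ∈ W n)) ?_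
            rintro ⟨F, hF⟩ ⟨G, hG⟩ h
            apply Subtype.ext
            ext x
            constructor
            · intro hx
              have hx' : (⟨x, hF hx⟩ : W n) ∈ F.subtype (· ∈ W n) := by simpa using hx
              have h' : F.subtype (· ∈ W n) = G.subtype (· ∈ W n) := h
              rw [h'] at hx'
              simpa using hx'
            · intro hx
              have hx' : (⟨x, hG hx⟩ : W n) ∈ G.subtype (· ∈ W n) := by simpa using hx
              have h' : F.subtype (· ∈ W n) = G.subtype (· ∈ W n) := h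
              rw [← h'] at hx'
              simpa using hx'
          refine this.trans ?_
          rcases finite_or_infinite (W n) with hf | hi
          · exact (Cardinal.lt_aleph0_of_finite _).le.trans hκ
          · rw [mk_finset_of_infinite]; exact ih
        have h2 : (⨆ F : {F : Finset X // (↑F : Set X) ⊆ W n}, #(c F.1)) ≤ κ := by
          refine ciSup_le' fun F => ?_
          exact (le_aleph0_iff_set_countable.2 (hc F.1)).trans hκ
        exact (mul_le_mul' h1 h2).trans (mul_eq_self hκ).le
  have hmono : ∀ n, W n ⊆ W (n + 1) := by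
    intro n
    show W n ⊆ nxt^[n + 1] A
    rw [Function.iterate_succ_apply']
    exact Set.subset_union_left
  have hmono' : Monotone W := monotone_nat_of_le_succ hmono
  refine ⟨⋃ n, W n, fun x hx => Set.mem_iUnion.2 ⟨0, hx⟩, ?_, ?_⟩
  · refine (mk_iUnion_le _).trans ?_
    have h2 : (⨆ n, #(W n)) ≤ κ := ciSup_le' fun n => hW n
    refine (mul_le_mul' (mk_le_aleph0 (α := ℕ)) h2).trans ?_
    exact (mul_le_mul' hκ le_rfl).trans (mul_eq_self hκ).le
  · intro F hF x hx
    have : ∃ n, (↑F : Set X) ⊆ W n := by
      induction F using Finset.induction_on with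
      | empty => exact ⟨0, by simp⟩
      | insert a F _ _ =>
          have key : ∀ G : Finset X, (↑G : Set X) ⊆ ⋃ n, W n → ∃ n, (↑G : Set X) ⊆ W n := by
            intro G
            induction G using Finset.induction_on with
            | empty => intro _; exact ⟨0, by simp⟩
            | insert b G _ ih =>
                intro hG
                rw [Finset.coe_insert, Set.insert_subset_iff] at hG
                obtain ⟨n, hn⟩ := ih hG.2
                obtain ⟨m, hm⟩ := Set.mem_iUnion.1 hG.1
                refine ⟨max n m, ?_⟩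
                rw [Finset.coe_insert, Set.insert_subset_iff]
                exact ⟨hmono' (le_max_right _ _) hm, hn.trans (hmono' (le_max_left _ _))⟩
          exact key _ hF
    obtain ⟨n, hn⟩ := this
    refine Set.mem_iUnion.2 ⟨n + 1, ?_⟩
    show x ∈ nxt^[n + 1] A
    rw [Function.iterate_succ_apply']
    exact Or.inr (Set.mem_iUnion.2 ⟨⟨F, hn⟩, hx⟩)

theorem exists_closed_countable {X : Type} (c : Finset X → Set X) (hc : ∀ F, (c F).Countable)
    (A : Set X) (hA : A.Countable) : ∃ W : Set X, A ⊆ W ∧ W.Countable ∧ Closed c W := by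
  obtain ⟨W, h1, h2, h3⟩ := exists_closed c hc Cardinal.aleph0 le_rfl A
    (Cardinal.le_aleph0_iff_set_countable.2 hA)
  exact ⟨W, h1, Cardinal.le_aleph0_iff_set_countable.1 h2, h3⟩

/-- Skolem functions. -/
theorem skolem {N : Type} [AddCommGroup N] [Module R N] {n : ℕ} (φ : Fml R n) :
    ∃ c : Finset N → Set N, (∀ F, (c F).Countable) ∧ ∀ S : Submodule R N, Closed c (S : Set N) →
      ∀ v : Fin n → S, Sat S φ v ↔ Sat N φ (fun i => (v i : N)) := by
  classical
  induction φ with
  | lin r =>
      refine ⟨fun _ => ∅, fun _ => Set.countable_empty, fun S _ v => ?_⟩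
      show (∑ i, r i • v i = 0) ↔ (∑ i, r i • (v i : N) = 0)
      rw [← Subtype.coe_inj]
      simp
  | neg φ ih =>
      obtain ⟨c, hc, h⟩ := ih
      exact ⟨c, hc, fun S hS v => not_congr (h S hS v)⟩
  | conj φ ih =>
      choose c hc h using ih
      refine ⟨fun F => ⋃ k, c k F, fun F => Set.countable_iUnion fun k => hc k F,
        fun S hS v => forall_congr' fun k => h k S (fun F hF => ?_) v⟩
      exact (Set.subset_iUnion (fun k => c k F) k).trans (hS F hF)
  | @ex n φ ih =>
      obtain ⟨c, hc, h⟩ := ih
      let g : (Fin n → N) → N := fun v =>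
        if hv : ∃ a, Sat N φ (Fin.cons a v) then hv.choose else 0
      have hg : ∀ v, (∃ a, Sat N φ (Fin.cons a v)) → Sat N φ (Fin.cons (g v) v) := by
        intro v hv
        simp only [g, dif_pos hv]
        exact hv.choose_spec
      refine ⟨fun F => c F ∪ g '' {v | ∀ i, v i ∈ F}, fun F => ?_, fun S hS v => ?_⟩
      · refine (hc F).union (Set.Countable.image ?_ _)
        have : {v : Fin n → N | ∀ i, v i ∈ F} = Set.pi Set.univ fun _ => (↑F : Set N) := by
          ext v; simp
        rw [this]
        exact (Set.Finite.pi fun _ => F.finite_toSet).countable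
      · have hc' : Closed c (S : Set N) := fun F hF => Set.subset_union_left.trans (hS F hF)
        constructor
        · rintro ⟨a, ha⟩
          refine ⟨a, ?_⟩
          have := (h S hc' _).1 ha
          rw [cons_comp (fun x : S => (x : N)) a v] at this
          exact this
        · intro hex
          have hb := hg _ hex
          have hmem : g (fun i => (v i : N)) ∈ S := by
            refine hS (Finset.univ.image fun i => (v i : N)) ?_ (Or.inr ⟨_, ?_, rfl⟩)
            · intro x hx
              simp only [Finset.coe_image, Finset.coe_univ, Set.image_univ, Set.mem_range] at hx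
              obtain ⟨i, rfl⟩ := hx
              exact (v i).2
            · intro i
              exact Finset.mem_image.2 ⟨i, Finset.mem_univ _, rfl⟩
          refine ⟨⟨_, hmem⟩, (h S hc' _).2 ?_⟩
          rw [cons_comp (fun x : S => (x : N)) _ v]
          exact hb

open Cardinal in
/-- The downward Löwenheim–Skolem theorem, with closure under a prescribed function. -/
theorem lowenheim [Countable R] {N : Type} [AddCommGroup N] [Module R N] (ψ : Fml R 0)
    (hN : Sat N ψ Fin.elim0) (c : Finset N → Set N) (hc : ∀ F, (c F).Countable)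
    (κ : Cardinal.{0}) (hκ : ℵ₀ ≤ κ) (A : Set N) (hA : #A ≤ κ) :
    ∃ S : Submodule R N, A ⊆ S ∧ #S ≤ κ ∧ Closed c (S : Set N) ∧ Sat S ψ Fin.elim0 := by
  classical
  obtain ⟨c₁, hc₁, h₁⟩ := skolem (N := N) ψ
  let c₂ : Finset N → Set N := fun F =>
    (c F ∪ c₁ F) ∪ ({0} ∪ (fun p : R × N × N => p.1 • p.2.1 + p.2.2) ''
      (Set.univ ×ˢ ((↑F : Set N) ×ˢ (↑F : Set N))))
  obtain ⟨W, hW1, hW2, hW3⟩ := exists_closed c₂ (fun F => by
    refine ((hc F).union (hc₁ F)).union ((Set.countable_singleton _).union
      (Set.Countable.image ?_ _))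
    exact (Set.countable_univ).prod ((F.finite_toSet.prod F.finite_toSet).countable)) κ hκ A hA
  have h0 : (0 : N) ∈ W := hW3 ∅ (by simp) (Or.inr (Or.inl rfl))
  have hlin : ∀ (r : R) (x y : N), x ∈ W → y ∈ W → r • x + y ∈ W := by
    intro r x y hx hy
    refine hW3 {x, y} ?_ (Or.inr (Or.inr ⟨(r, x, y), ?_, rfl⟩))
    · intro z hz
      simp only [Finset.coe_insert, Finset.coe_singleton, Set.mem_insert_iff,
        Set.mem_singleton_iff] at hz
      rcases hz with rfl | rfl
      · exact hx
      · exact hy
    · simp
  let S : Submodule R N :=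
    { carrier := W
      add_mem' := fun {x y} hx hy => by simpa using hlin 1 x y hx hy
      zero_mem' := h0
      smul_mem' := fun r x hx => by simpa using hlin r x 0 hx h0 }
  have hS : Closed c₂ (S : Set N) := hW3
  refine ⟨S, hW1, hW2, fun F hF => ?_, ?_⟩
  · exact (Set.subset_union_left.trans Set.subset_union_left).trans (hS F hF)
  · refine (h₁ S (fun F hF => ?_) _).2 ?_
    · exact (Set.subset_union_right.trans Set.subset_union_left).trans (hS F hF)
    · have h0 : (fun i : Fin 0 => ((Fin.elim0 i : S) : N)) = (Fin.elim0 : Fin 0 → N) :=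
        funext fun i => i.elim0
      rw [h0]
      exact hN

end Pool.Agent.Y583.MC
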