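import Pool.Agent.Y583.FknNeg

/-!
The sharp negative relation `ω^n ↛ (ω^k, 2^⌊(n-1)/(k-1)⌋ + 1)²` for `k ≥ 5`.
-/

namespace Pool.Agent.Y583.Fkn

open Ordinal

/-- U-edges of a level `[o, o')`. -/
def GU (n o o' : ℕ) (x y : ℕ → ℕ) : Prop :=
  ∃ i e, o ≤ i ∧ i < o' ∧ o' ≤ e ∧ e < n ∧ Agree i x y ∧
    x (e - 1) < y i ∧ y i < x e ∧ (i = o → y (o + 2) < x e) ∧
    x e < y (e - 1) ∧ y (e - 1) < x (n - 1) ∧ x (n - 1) < y e

/-- W-edges of a level `[o, o')`. -/
def GW (n o o' : ℕ) (x y : ℕ → ℕ) : Prop :=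
  ∃ v, o' ≤ v ∧ v < n ∧ Agree o x y ∧ x o < y o ∧ y o < x (o + 1) ∧
    x (o + 2) < y (o + 1) ∧ y (o + 1) < x (o + 3) ∧ x (v - 1) < y (o + 2) ∧
    y (v - 1) < x v ∧ x (n - 1) < y v

/-- the level graph -/
def GLev (n o o' : ℕ) (x y : ℕ → ℕ) : Prop := GU n o o' x y ∨ GW n o o' x y

theorem GU_toEU {n o o' : ℕ} {x y : ℕ → ℕ} (h : GU n o o' x y) : EU n o o' x y := by
  obtain ⟨i, e, h1, h2, h3, h4, h5, h6, h7, -, h8, h9, h10⟩ := h
  exact ⟨i, e, h1, h2, h3, h4, h5, h6, h7, h8, h9, h10⟩

theorem GLev_split {n o o' : ℕ} {x y : ℕ → ℕ} (hx : StrictMono x) (hy : StrictMono y)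
    (ho : o < o') (h : GLev n o o' x y) :
    ∃ i, o ≤ i ∧ i < o' ∧ i < n ∧ Agree i x y ∧ x i < y i := by
  rcases h with h | h
  · exact EU_split hx hy (GU_toEU h)
  · obtain ⟨v, h1, h2, h3, h4, -⟩ := h
    exact ⟨o, le_rfl, ho, by omega, h3, h4⟩

theorem tri_UUW {n o o' : ℕ} (ho : o + 4 ≤ o') {x y z : ℕ → ℕ} (hx : StrictMono x)
    (hy : StrictMono y) (h1 : GU n o o' x y) (h2 : GU n o o' y z)
    (h3 : GW n o o' x z) : False := by
  obtain ⟨i, e, a1, a2, a3, a4, a5, a6, a7, a8, a9, a10, a11⟩ := h1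
  obtain ⟨j, f, b1, b2, b3, b4, b5, b6, b7, b8, b9, b10, b11⟩ := h2
  obtain ⟨v, c1, c2, c3, c4, c5, c6, c7, c8, c9, c10⟩ := h3
  rcases Nat.lt_or_eq_of_le b1 with hj | hj
  · have e1 := b5 o hj
    rcases Nat.lt_or_eq_of_le a1 with hi | hi
    · have e2 := a5 o hi
      omega
    · subst hi
      have : x (e - 1) < x (o + 1) := by omega
      have := hx.lt_iff_lt.mp this
      omega
  · subst hj
    have : x (e - 1) < x (o + 1) := by
      calc x (e - 1) < y i := a6
        _ ≤ y (f - 1) := hy.monotone (by omega)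
        _ < z o := b6
        _ < x (o + 1) := c5
    have := hx.lt_iff_lt.mp this
    omega

theorem tri_WUU {n o o' : ℕ} (ho : o + 4 ≤ o') {x y z : ℕ → ℕ} (hx : StrictMono x)
    (hy : StrictMono y) (hz : StrictMono z) (h1 : GW n o o' x y) (h2 : GU n o o' y z)
    (h3 : GU n o o' x z) : False := by
  obtain ⟨v, a1, a2, a3, a4, a5, a6, a7, a8, a9, a10⟩ := h1
  obtain ⟨j, f, b1, b2, b3, b4, b5, b6, b7, b8, b9, b10, b11⟩ := h2
  obtain ⟨l, g, c1, c2, c3, c4, c5, c6, c7, c8, c9, c10, c11⟩ := h3
  rcases Nat.lt_or_eq_of_le b1 with hj | hj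
  · have e1 := b5 o hj
    have hl : l = o := by
      by_contra hne
      have := c5 o (by omega)
      omega
    subst hl
    have : x (g - 1) < x (l + 1) := by omega
    have := hx.lt_iff_lt.mp this
    omega
  · subst hj
    have hyz : y o < z o := lt_of_le_of_lt (hy.monotone (by omega)) b6
    have hl : l = o := by
      by_contra hne
      have := c5 o (by omega)
      omega
    subst hl
    have hgf : g ≤ f := by
      have : z (g - 1) < z f :=
        calc z (g - 1) < x (n - 1) := c10
          _ < y v := a10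
          _ ≤ y (n - 1) := hy.monotone (by omega)
          _ < z f := b11
      have := hz.lt_iff_lt.mp this
      omega
    have hfv : f ≤ v := by
      by_contra hcon
      have : z (g - 1) < z l :=
        calc z (g - 1) < x (n - 1) := c10
          _ < y v := a10
          _ ≤ y (f - 1) := hy.monotone (by omega)
          _ < z l := b6
      have := hz.lt_iff_lt.mp this
      omega
    have hvg : v ≤ g := by
      have : x (v - 1) < x g :=
        calc x (v - 1) < y (l + 2) := a8
          _ ≤ y (f - 1) := hy.monotone (by omega)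
          _ < z l := b6
          _ < x g := c7
      have := hx.lt_iff_lt.mp this
      omega
    have e1 : f = v := by omega
    have e2 : g = v := by omega
    subst e1
    subst e2
    omega

theorem tri_UWU {n o o' : ℕ} (ho : o + 4 ≤ o') {x y z : ℕ → ℕ} (hx : StrictMono x)
    (hy : StrictMono y) (hz : StrictMono z) (h1 : GU n o o' x y) (h2 : GW n o o' y z)
    (h3 : GU n o o' x z) : False := by
  obtain ⟨i, e, a1, a2, a3, a4, a5, a6, a7, a8, a9, a10, a11⟩ := h1
  obtain ⟨v, b1, b2, b3, b4, b5, b6, b7, b8, b9, b10⟩ := h2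
  obtain ⟨l, g, c1, c2, c3, c4, c5, c6, c7, c8, c9, c10, c11⟩ := h3
  have hxy : x i < y i := lt_of_le_of_lt (hx.monotone (by omega : i ≤ e - 1)) a6
  have hxo : x o ≤ y o := by
    rcases Nat.lt_or_eq_of_le a1 with hi | hi
    · exact le_of_eq (a5 o hi)
    · subst hi; exact le_of_lt hxy
  have hl : l = o := by
    by_contra hne
    have := c5 o (by omega)
    omega
  subst hl
  have hzx := c8 rfl
  have hgv : g ≤ v := by
    have : z (g - 1) < z v :=
      calc z (g - 1) < x (n - 1) := c10
        _ < y e := a11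
        _ ≤ y (n - 1) := hy.monotone (by omega)
        _ < z v := b10
    have := hz.lt_iff_lt.mp this
    omega
  have hve : v ≤ e := by
    have : y (v - 1) < y e :=
      calc y (v - 1) < z (l + 2) := b8
        _ ≤ z (g - 1) := hz.monotone (by omega)
        _ < x (n - 1) := c10
        _ < y e := a11
    have := hy.lt_iff_lt.mp this
    omega
  have heg : e ≤ g := by
    rcases Nat.lt_or_ge (l + 1) i with hi | hi
    · exfalso
      have e1 := a5 (l + 1) hi
      have : x (g - 1) < x (l + 1) := by omega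
      have := hx.lt_iff_lt.mp this
      omega
    · have : x (e - 1) < x g := by
        calc x (e - 1) < y i := a6
          _ ≤ y (l + 2) := hy.monotone (by omega)
          _ < z (l + 1) := b6
          _ ≤ z (l + 2) := hz.monotone (by omega)
          _ < x g := hzx
      have := hx.lt_iff_lt.mp this
      omega
  have e1 : g = v := by omega
  have e2 : e = v := by omega
  subst e1
  subst e2
  omega

theorem tri_WWU {n o o' : ℕ} (ho : o + 4 ≤ o') {x y z : ℕ → ℕ} (hx : StrictMono x)
    (h1 : GW n o o' x y) (h2 : GW n o o' y z) (h3 : GU n o o' x z) : False := by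
  obtain ⟨v, a1, a2, a3, a4, a5, a6, a7, a8, a9, a10⟩ := h1
  obtain ⟨v', b1, b2, b3, b4, b5, b6, b7, b8, b9, b10⟩ := h2
  obtain ⟨l, g, c1, c2, c3, c4, c5, c6, c7, c8, c9, c10, c11⟩ := h3
  have hl : l = o := by
    by_contra hne
    have := c5 o (by omega)
    omega
  subst hl
  have : x (g - 1) < x (l + 3) := by omega
  have := hx.lt_iff_lt.mp this
  omega

theorem tri_WUW {n o o' : ℕ} (ho : o + 4 ≤ o') {x y z : ℕ → ℕ} (hx : StrictMono x)
    (hy : StrictMono y) (hz : StrictMono z) (h1 : GW n o o' x y) (h2 : GU n o o' y z)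
    (h3 : GW n o o' x z) : False := by
  obtain ⟨v, a1, a2, a3, a4, a5, a6, a7, a8, a9, a10⟩ := h1
  obtain ⟨j, f, b1, b2, b3, b4, b5, b6, b7, b8, b9, b10, b11⟩ := h2
  obtain ⟨w, c1, c2, c3, c4, c5, c6, c7, c8, c9, c10⟩ := h3
  rcases Nat.lt_or_ge j (o + 2) with hj | hj
  · have hyf : y (o + 2) ≤ y (f - 1) := hy.monotone (by omega)
    have hzj : z j ≤ z (o + 1) := hz.monotone (by omega)
    have : x (v - 1) < x (o + 3) := by omega
    have := hx.lt_iff_lt.mp this
    omega
  · have hwf : w ≤ f := by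
      have : z (w - 1) < z f :=
        calc z (w - 1) < x w := c9
          _ ≤ x (n - 1) := hx.monotone (by omega)
          _ < y v := a10
          _ ≤ y (n - 1) := hy.monotone (by omega)
          _ < z f := b11
      have := hz.lt_iff_lt.mp this
      omega
    have hfv : f ≤ v := by
      by_contra hcon
      have : z (w - 1) < z j :=
        calc z (w - 1) < x w := c9
          _ ≤ x (n - 1) := hx.monotone (by omega)
          _ < y v := a10
          _ ≤ y (f - 1) := hy.monotone (by omega)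
          _ < z j := b6
      have := hz.lt_iff_lt.mp this
      omega
    have hyz2 : y (o + 2) ≤ z (o + 2) := by
      rcases Nat.lt_or_eq_of_le hj with h | h
      · exact le_of_eq (b5 (o + 2) h)
      · subst h
        exact le_of_lt (lt_of_le_of_lt (hy.monotone (by omega)) b6)
    have hvw : v ≤ w := by
      have : x (v - 1) < x w :=
        calc x (v - 1) < y (o + 2) := a8
          _ ≤ z (o + 2) := hyz2
          _ ≤ z (w - 1) := hz.monotone (by omega)
          _ < x w := c9
      have := hx.lt_iff_lt.mp this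
      omega
    have e1 : f = v := by omega
    have e2 : w = v := by omega
    subst e1
    subst e2
    have : x w ≤ x (n - 1) := hx.monotone (by omega)
    omega

theorem tri_UWW {n o o' : ℕ} (ho : o + 4 ≤ o') {x y z : ℕ → ℕ} (hx : StrictMono x)
    (hy : StrictMono y) (hz : StrictMono z) (h1 : GU n o o' x y) (h2 : GW n o o' y z)
    (h3 : GW n o o' x z) : False := by
  obtain ⟨i, e, a1, a2, a3, a4, a5, a6, a7, a8, a9, a10, a11⟩ := h1
  obtain ⟨v, b1, b2, b3, b4, b5, b6, b7, b8, b9, b10⟩ := h2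
  obtain ⟨w, c1, c2, c3, c4, c5, c6, c7, c8, c9, c10⟩ := h3
  rcases Nat.lt_or_ge i (o + 3) with hi | hi
  · have hyi : y i ≤ y (o + 2) := hy.monotone (by omega)
    have : x (e - 1) < x (o + 3) := by omega
    have := hx.lt_iff_lt.mp this
    omega
  · have hwv : w ≤ v := by
      have : z (w - 1) < z v :=
        calc z (w - 1) < x w := c9
          _ ≤ x (n - 1) := hx.monotone (by omega)
          _ < y e := a11
          _ ≤ y (n - 1) := hy.monotone (by omega)
          _ < z v := b10
      have := hz.lt_iff_lt.mp this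
      omega
    have hyx : y (v - 1) < x w :=
      calc y (v - 1) < z (o + 2) := b8
        _ ≤ z (w - 1) := hz.monotone (by omega)
        _ < x w := c9
    have hew : e ≤ w := by
      have : x (e - 1) < x w :=
        calc x (e - 1) < y i := a6
          _ ≤ y (v - 1) := hy.monotone (by omega)
          _ < x w := hyx
      have := hx.lt_iff_lt.mp this
      omega
    have hve : v ≤ e := by
      by_contra hcon
      have : y e < x w := lt_of_le_of_lt (hy.monotone (by omega)) hyx
      have : x w ≤ x (n - 1) := hx.monotone (by omega)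
      omega
    have e1 : v = e := by omega
    have e2 : w = e := by omega
    subst e1
    subst e2
    omega

theorem tri_WWW {n o o' : ℕ} (ho : o + 4 ≤ o') {x y z : ℕ → ℕ} (hx : StrictMono x)
    (h1 : GW n o o' x y) (h2 : GW n o o' y z) (h3 : GW n o o' x z) : False := by
  obtain ⟨v, a1, a2, a3, a4, a5, a6, a7, a8, a9, a10⟩ := h1
  obtain ⟨v', b1, b2, b3, b4, b5, b6, b7, b8, b9, b10⟩ := h2
  obtain ⟨w, c1, c2, c3, c4, c5, c6, c7, c8, c9, c10⟩ := h3
  have : x (v - 1) < x (o + 3) := by omega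
  have := hx.lt_iff_lt.mp this
  omega

theorem GLev_tri {n o o' : ℕ} (ho : o + 4 ≤ o') {x y z : ℕ → ℕ} (hx : StrictMono x)
    (hy : StrictMono y) (hz : StrictMono z) (h1 : GLev n o o' x y) (h2 : GLev n o o' y z)
    (h3 : GLev n o o' x z) : False := by
  rcases h1 with h1 | h1 <;> rcases h2 with h2 | h2 <;> rcases h3 with h3 | h3
  · exact EU_tri hx hy hz (GU_toEU h1) (GU_toEU h2) (GU_toEU h3)
  · exact tri_UUW ho hx hy h1 h2 h3
  · exact tri_UWU ho hx hy hz h1 h2 h3
  · exact tri_UWW ho hx hy hz h1 h2 h3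
  · exact tri_WUU ho hx hy hz h1 h2 h3
  · exact tri_WUW ho hx hy hz h1 h2 h3
  · exact tri_WWU ho hx h1 h2 h3
  · exact tri_WWW ho hx h1 h2 h3

end Pool.Agent.Y583.Fkn
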