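import Pool.Agent.Y583.Fkn5

/-!
The sharp negative relation `ω^n ↛ (ω^k, 2^⌊(n-1)/(k-1)⌋ + 1)²` for `k ≥ 5`: assembly.
-/

namespace Pool.Agent.Y583.Fkn

open Ordinal

/-- Realisation of the U pattern. -/
theorem realize_GU {B : Finset ℕ} {Z : Set (ℕ → ℕ)} (hZ : Full B Z)
    (hmono : ∀ x ∈ Z, StrictMono x) {n o o' i b₁ e b₃ : ℕ}
    (hi : i ∈ B) (hb₁ : b₁ ∈ B) (he : e ∈ B) (hb₃ : b₃ ∈ B)
    (h1 : i < b₁) (h2 : b₁ < e) (h3 : e < b₃) (h4 : b₃ < n) (h5 : o ≤ i) (h6 : i < o')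
    (h7 : o' ≤ e) (h8 : i = o → o + 3 ≤ b₁) : ∃ x ∈ Z, ∃ y ∈ Z, GU n o o' x y := by
  obtain ⟨⟨x0, hx0⟩, hB⟩ := hZ
  obtain ⟨y1, hy1, ay1, ly1⟩ := hB x0 hx0 i hi (x0 (e - 1))
  obtain ⟨x1, hx1, ax1, lx1⟩ := hB x0 hx0 e he (y1 (b₁ - 1))
  obtain ⟨y2, hy2, ay2, ly2⟩ := hB y1 hy1 b₁ hb₁ (x1 (b₃ - 1))
  obtain ⟨x2, hx2, ax2, lx2⟩ := hB x1 hx1 b₃ hb₃ (y2 (e - 1))
  obtain ⟨y3, hy3, ay3, ly3⟩ := hB y2 hy2 e he (x2 (n - 1))
  have key : ∀ c, c < b₁ → y3 c < x2 e := by
    intro c hc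
    calc y3 c = y2 c := (ay3 _ (by omega)).symm
      _ = y1 c := (ay2 _ (by omega)).symm
      _ ≤ y1 (b₁ - 1) := (hmono y1 hy1).monotone (by omega)
      _ < x1 e := lx1
      _ = x2 e := ax2 _ (by omega)
  refine ⟨x2, hx2, y3, hy3, i, e, h5, h6, h7, by omega, ?_, ?_, ?_, ?_, ?_, ?_, ly3⟩
  · -- agree
    intro j hj
    calc x2 j = x1 j := (ax2 j (by omega)).symm
      _ = x0 j := (ax1 j (by omega)).symm
      _ = y1 j := ay1 j hj
      _ = y2 j := ay2 j (by omega)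
      _ = y3 j := ay3 j (by omega)
  · calc x2 (e - 1) = x1 (e - 1) := (ax2 _ (by omega)).symm
      _ = x0 (e - 1) := (ax1 _ (by omega)).symm
      _ < y1 i := ly1
      _ = y2 i := ay2 _ (by omega)
      _ = y3 i := ay3 _ (by omega)
  · exact key i h1
  · intro hio
    exact key (o + 2) (by have := h8 hio; omega)
  · calc x2 e = x1 e := (ax2 _ (by omega)).symm
      _ ≤ x1 (b₃ - 1) := (hmono x1 hx1).monotone (by omega)
      _ < y2 b₁ := ly2
      _ ≤ y2 (e - 1) := (hmono y2 hy2).monotone (by omega)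
      _ = y3 (e - 1) := ay3 _ (by omega)
  · calc y3 (e - 1) = y2 (e - 1) := (ay3 _ (by omega)).symm
      _ < x2 b₃ := lx2
      _ ≤ x2 (n - 1) := (hmono x2 hx2).monotone (by omega)

/-- Realisation of the W pattern. -/
theorem realize_GW {B : Finset ℕ} {Z : Set (ℕ → ℕ)} (hZ : Full B Z)
    {n o o' v : ℕ} (ho : o + 4 ≤ o') (h0 : o ∈ B) (h1 : o + 1 ∈ B) (h2 : o + 2 ∈ B)
    (h3 : o + 3 ∈ B) (hv : v ∈ B) (hov : o' ≤ v) (hvn : v < n) :
    ∃ x ∈ Z, ∃ y ∈ Z, GW n o o' x y := by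
  obtain ⟨⟨x0, hx0⟩, hB⟩ := hZ
  -- X(..o+1], Y(o..o+1], X(o+1..o+3], Y(o+1..o+2], X(o+3..v], Y(o+2..v], X(v..n], Y(v..n]
  obtain ⟨y1, hy1, ay1, ly1⟩ := hB x0 hx0 o h0 (x0 o)
  obtain ⟨x1, hx1, ax1, lx1⟩ := hB x0 hx0 (o + 1) h1 (y1 o)
  obtain ⟨y2, hy2, ay2, ly2⟩ := hB y1 hy1 (o + 1) h1 (x1 (o + 2))
  obtain ⟨x2, hx2, ax2, lx2⟩ := hB x1 hx1 (o + 3) h3 (y2 (o + 1))
  obtain ⟨y3, hy3, ay3, ly3⟩ := hB y2 hy2 (o + 2) h2 (x2 (v - 1))
  obtain ⟨x3, hx3, ax3, lx3⟩ := hB x2 hx2 v hv (y3 (v - 1))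
  obtain ⟨y4, hy4, ay4, ly4⟩ := hB y3 hy3 v hv (x3 (n - 1))
  have ex : ∀ j, j < o + 1 → x3 j = x0 j := fun j hj => by
    rw [← ax3 j (by omega), ← ax2 j (by omega), ← ax1 j hj]
  have ey : ∀ j, j < o + 1 → y4 j = y1 j := fun j hj => by
    rw [← ay4 j (by omega), ← ay3 j (by omega), ← ay2 j hj]
  refine ⟨x3, hx3, y4, hy4, v, hov, hvn, ?_, ?_, ?_, ?_, ?_, ?_, ?_, ly4⟩
  · intro j hj
    rw [ex j (by omega), ey j (by omega)]
    exact ay1 j hj
  · rw [ex o (by omega), ey o (by omega)]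
    exact ly1
  · rw [ey o (by omega), ← ax3 (o + 1) (by omega), ← ax2 (o + 1) (by omega)]
    exact lx1
  · rw [← ax3 (o + 2) (by omega), ← ax2 (o + 2) (by omega), ← ay4 (o + 1) (by omega),
      ← ay3 (o + 1) (by omega)]
    exact ly2
  · rw [← ay4 (o + 1) (by omega), ← ay3 (o + 1) (by omega), ← ax3 (o + 3) (by omega)]
    exact lx2
  · rw [← ax3 (v - 1) (by omega), ← ay4 (o + 2) (by omega)]
    exact ly3
  · rw [← ay4 (v - 1) (by omega)]
    exact lx3

/-- the full graph with `L` levels of length `μ` -/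
def GG (n μ L : ℕ) (x y : ℕ → ℕ) : Prop :=
  ∃ r, r < L ∧ GLev n (r * μ) ((r + 1) * μ) x y

theorem GG_split {n μ L : ℕ} (hμ : 4 ≤ μ) {x y : ℕ → ℕ} (hx : StrictMono x)
    (hy : StrictMono y) (h : GG n μ L x y) : LexLt n x y := by
  obtain ⟨r, hr, h⟩ := h
  obtain ⟨i, -, -, h3, h4, h5⟩ := GLev_split hx hy (by rw [Nat.add_mul]; omega) h
  exact ⟨i, h3, h4, h5⟩

theorem clique_bound5 {n μ L : ℕ} (hμ : 4 ≤ μ) :
    ∀ (c : ℕ), c ≤ L → ∀ K : Finset (ℕ → ℕ), (∀ x ∈ K, StrictMono x) →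
      (∀ x ∈ K, ∀ y ∈ K, x ≠ y → GG n μ L x y ∨ GG n μ L y x) →
      (∀ x ∈ K, ∀ y ∈ K, Agree ((L - c) * μ) x y) → K.card ≤ 2 ^ c := by
  have hlev : ∀ r, r * μ + 4 ≤ (r + 1) * μ := by
    intro r; rw [Nat.add_mul]; omega
  intro c
  induction c with
  | zero =>
    intro _ K hmono hadj hag
    rw [pow_zero, Finset.card_le_one]
    intro x hx y hy
    by_contra hxy
    have key : ∀ x ∈ K, ∀ y ∈ K, GG n μ L x y → False := by
      intro x hx y hy h
      obtain ⟨r, hr, h⟩ := h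
      obtain ⟨i, h1, h2, h3, h4, h5⟩ := GLev_split (hmono x hx) (hmono y hy)
        (by have := hlev r; omega) h
      have h6 := hag x hx y hy i (lt_of_lt_of_le h2
        (Nat.mul_le_mul_right μ (by omega)))
      omega
    rcases hadj x hx y hy hxy with h | h
    · exact key x hx y hy h
    · exact key y hy x hx h
  | succ c ih =>
    intro hc K hmono hadj hag
    classical
    set r := L - (c + 1) with hr
    have hr1 : L - c = r + 1 := by omega
    let f : (ℕ → ℕ) → (Fin ((r + 1) * μ) → ℕ) := fun x i => x i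
    have hfag : ∀ x y, f x = f y → Agree ((r + 1) * μ) x y := by
      intro x y h j hj
      exact congrFun h ⟨j, hj⟩
    have hfib : ∀ w ∈ K.image f, (K.filter (fun x => f x = w)).card ≤ 2 ^ c := by
      intro w _
      apply ih (by omega)
      · intro x hx; exact hmono x (Finset.mem_filter.mp hx).1
      · intro x hx y hy hxy
        exact hadj x (Finset.mem_filter.mp hx).1 y (Finset.mem_filter.mp hy).1 hxy
      · intro x hx y hy
        rw [hr1]
        apply hfag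
        rw [(Finset.mem_filter.mp hx).2, (Finset.mem_filter.mp hy).2]
    have hEU : ∀ x ∈ K, ∀ y ∈ K, f x ≠ f y → GG n μ L x y →
        GLev n (r * μ) ((r + 1) * μ) x y := by
      intro x hx y hy hf h
      have hsplit : ∀ i, Agree i x y → x i < y i → r * μ ≤ i ∧ i < (r + 1) * μ := by
        intro i hi hlt
        constructor
        · by_contra hcon
          have := hag x hx y hy i (by omega)
          omega
        · by_contra hcon
          apply hf
          funext j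
          exact hi j (lt_of_lt_of_le j.2 (by omega))
      obtain ⟨r', hr', h⟩ := h
      obtain ⟨i, h1, h2, h3, h4, h5⟩ := GLev_split (hmono x hx) (hmono y hy)
        (by have := hlev r'; omega) h
      obtain ⟨h6, h7⟩ := hsplit i h4 h5
      have hrr : r' = r := by
        have e1 : r' * μ < (r + 1) * μ := lt_of_le_of_lt h1 h7
        have e2 : r * μ < (r' + 1) * μ := lt_of_le_of_lt h6 h2
        have e3 := lt_of_mul_lt_mul_right e1 (Nat.zero_le μ)
        have e4 := lt_of_mul_lt_mul_right e2 (Nat.zero_le μ)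
        omega
      rw [← hrr]; exact h
    have himg : (K.image f).card ≤ 2 := by
      by_contra hcon
      have h3 : 2 < (K.image f).card := by omega
      obtain ⟨u, v, w, hu, hv, hw, huv, huw, hvw⟩ := Finset.two_lt_card_iff.mp h3
      obtain ⟨x, hx, rfl⟩ := Finset.mem_image.mp hu
      obtain ⟨y, hy, rfl⟩ := Finset.mem_image.mp hv
      obtain ⟨z, hz, rfl⟩ := Finset.mem_image.mp hw
      have mem : ∀ w ∈ ({x, y, z} : Set (ℕ → ℕ)), w ∈ K := by
        intro w hw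
        rcases hw with h | h | h
        · rw [h]; exact hx
        · rw [h]; exact hy
        · rw [h]; exact hz
      refine tri_sym (n := n) (E := GLev n (r * μ) ((r + 1) * μ)) (x := x) (y := y) (z := z)
        ?_ ?_ ?_ ?_ ?_
      · intro p q hp hq h
        obtain ⟨i, -, -, h3, h4, h5⟩ := GLev_split (hmono p (mem p hp)) (hmono q (mem q hq))
          (by have := hlev r; omega) h
        exact ⟨i, h3, h4, h5⟩
      · intro p q w hp hq hw h1 h2 h3
        exact GLev_tri (hlev r) (hmono p (mem p hp)) (hmono q (mem q hq)) (hmono w (mem w hw))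
          h1 h2 h3
      · exact (hadj x hx y hy (fun h => huv (by rw [h]))).imp (hEU x hx y hy huv)
          (hEU y hy x hx huv.symm)
      · exact (hadj y hy z hz (fun h => hvw (by rw [h]))).imp (hEU y hy z hz hvw)
          (hEU z hz y hy hvw.symm)
      · exact (hadj x hx z hz (fun h => huw (by rw [h]))).imp (hEU x hx z hz huw)
          (hEU z hz x hx huw.symm)
    calc K.card ≤ 2 ^ c * (K.image f).card := Finset.card_le_mul_card_image K _ hfib
      _ ≤ 2 ^ c * 2 := Nat.mul_le_mul_left _ himg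
      _ = 2 ^ (c + 1) := by rw [pow_succ 2 c]

/-- `μ + 1` branching positions, smallest one in `[o, o + μ)`: an edge of the level graph. -/
theorem level_hit {n o μ : ℕ} (hμ : 4 ≤ μ) {B : Finset ℕ} {Z : Set (ℕ → ℕ)}
    (hZ : Full B Z) (hmono : ∀ x ∈ Z, StrictMono x) (hcard : B.card = μ + 1)
    (hB : ∀ b ∈ B, o ≤ b ∧ b < n) (hmin : ∃ b ∈ B, b < o + μ) :
    ∃ x ∈ Z, ∃ y ∈ Z, GLev n o (o + μ) x y := by
  let f := B.orderEmbOfFin hcard
  have hf : ∀ a b : Fin (μ + 1), a < b → f a < f b := fun a b h => f.strictMono h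
  have hfm : ∀ a, f a ∈ B := fun a => B.orderEmbOfFin_mem hcard a
  have hfB : ∀ b ∈ B, ∃ a, f a = b := by
    intro b hb
    have : b ∈ Set.range f := by
      rw [Finset.range_orderEmbOfFin]; exact hb
    exact this
  have h0min : f ⟨0, by omega⟩ < o + μ := by
    obtain ⟨b, hb, hlt⟩ := hmin
    obtain ⟨a, ha⟩ := hfB b hb
    have : f ⟨0, by omega⟩ ≤ f a := f.monotone (by simp [Fin.le_def])
    omega
  have h0ge := (hB _ (hfm ⟨0, by omega⟩)).1
  have h01 : f ⟨0, by omega⟩ < f ⟨1, by omega⟩ := hf _ _ (by simp [Fin.lt_def])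
  have h12 : f ⟨1, by omega⟩ < f ⟨2, by omega⟩ := hf _ _ (by simp [Fin.lt_def])
  have hee : f ⟨μ - 1, by omega⟩ < f ⟨μ, by omega⟩ :=
    hf _ _ (by simp only [Fin.lt_def]; omega)
  have h2e : f ⟨2, by omega⟩ < f ⟨μ - 1, by omega⟩ :=
    hf _ _ (by simp only [Fin.lt_def]; omega)
  rcases Nat.lt_or_ge (f ⟨μ - 1, by omega⟩) (o + μ) with hcase | hcase
  · -- B = {o, ..., o + μ - 1, v}
    have hgrow : ∀ (d : ℕ) (hd : d < μ + 1), f ⟨0, by omega⟩ + d ≤ f ⟨d, hd⟩ := by
      intro d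
      induction d with
      | zero => intro hd; simp
      | succ d ih =>
        intro hd
        have h1 := ih (by omega)
        have h2 := hf ⟨d, by omega⟩ ⟨d + 1, hd⟩ (by simp [Fin.lt_def])
        omega
    have hgrow2 : ∀ (d : ℕ) (hd : d < μ), f ⟨μ - 1 - d, by omega⟩ + d ≤ f ⟨μ - 1, by omega⟩ := by
      intro d
      induction d with
      | zero => intro hd; simp
      | succ d ih =>
        intro hd
        have h1 := ih (by omega)
        have h2 := hf ⟨μ - 1 - (d + 1), by omega⟩ ⟨μ - 1 - d, by omega⟩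
          (by simp only [Fin.lt_def]; omega)
        omega
    have heq : ∀ (d : ℕ) (hd : d < μ), f ⟨d, by omega⟩ = o + d := by
      intro d hd
      have h1 := hgrow d (by omega)
      have h2 := hgrow2 (μ - 1 - d) (by omega)
      have h3 : (⟨μ - 1 - (μ - 1 - d), by omega⟩ : Fin (μ + 1)) = ⟨d, by omega⟩ := by
        ext; simp only; omega
      rw [h3] at h2
      omega
    have hmem : ∀ d, d < μ → o + d ∈ B := by
      intro d hd
      rw [← heq d hd]; exact hfm _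
    have hv := heq (μ - 1) (by omega)
    obtain ⟨x, hx, y, hy, hxy⟩ := realize_GW (n := n) (o := o) (o' := o + μ) hZ (by omega)
      (hmem 0 (by omega)) (hmem 1 (by omega)) (hmem 2 (by omega)) (hmem 3 (by omega))
      (hfm ⟨μ, by omega⟩) (by omega) (hB _ (hfm _)).2
    exact ⟨x, hx, y, hy, Or.inr hxy⟩
  · -- e = f (μ-1) ≥ o + μ
    rcases Nat.lt_or_eq_of_le h0ge with h | h
    · obtain ⟨x, hx, y, hy, hxy⟩ := realize_GU (n := n) (o := o) (o' := o + μ) hZ hmono
        (hfm ⟨0, by omega⟩) (hfm ⟨1, by omega⟩) (hfm ⟨μ - 1, by omega⟩) (hfm ⟨μ, by omega⟩)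
        h01 (by omega) hee (hB _ (hfm _)).2 h0ge h0min hcase (by omega)
      exact ⟨x, hx, y, hy, Or.inl hxy⟩
    · rcases Nat.lt_or_ge (f ⟨2, by omega⟩) (o + 3) with h' | h'
      · -- use i = o + 1, b₁ = o + 2
        have e1 : f ⟨1, by omega⟩ = o + 1 := by omega
        obtain ⟨x, hx, y, hy, hxy⟩ := realize_GU (n := n) (o := o) (o' := o + μ) hZ hmono
          (hfm ⟨1, by omega⟩) (hfm ⟨2, by omega⟩) (hfm ⟨μ - 1, by omega⟩) (hfm ⟨μ, by omega⟩)
          h12 h2e hee (hB _ (hfm _)).2 (by omega) (by omega) hcase (by omega)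
        exact ⟨x, hx, y, hy, Or.inl hxy⟩
      · obtain ⟨x, hx, y, hy, hxy⟩ := realize_GU (n := n) (o := o) (o' := o + μ) hZ hmono
          (hfm ⟨0, by omega⟩) (hfm ⟨2, by omega⟩) (hfm ⟨μ - 1, by omega⟩) (hfm ⟨μ, by omega⟩)
          (by omega) h2e hee (hB _ (hfm _)).2 h0ge h0min hcase (fun _ => h')
        exact ⟨x, hx, y, hy, Or.inl hxy⟩

theorem GG_hit {n μ : ℕ} (hμ : 4 ≤ μ) {B : Finset ℕ} {Z : Set (ℕ → ℕ)}
    (hZ : Full B Z) (hmono : ∀ x ∈ Z, StrictMono x) (hcard : B.card = μ + 1)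
    (hB : ∀ b ∈ B, b < n) : ∃ x ∈ Z, ∃ y ∈ Z, GG n μ ((n - 1) / μ) x y := by
  have hne : B.Nonempty := by
    rw [← Finset.card_pos]; omega
  set m := B.min' hne with hm
  have hmB : m ∈ B := Finset.min'_mem B hne
  have hmle : ∀ b ∈ B, m ≤ b := fun b hb => Finset.min'_le B b hb
  have hμ0 : 0 < μ := by omega
  have hmn : m + μ < n := by
    by_contra hcon
    have hsub : B ⊆ Finset.Ico m n := by
      intro b hb
      rw [Finset.mem_Ico]
      exact ⟨hmle b hb, hB b hb⟩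
    have := Finset.card_le_card hsub
    rw [Nat.card_Ico] at this
    omega
  have h1 := Nat.div_mul_le_self m μ
  have h2 := Nat.lt_div_mul_add (a := m) hμ0
  obtain ⟨x, hx, y, hy, hxy⟩ := level_hit (n := n) (o := m / μ * μ) hμ hZ hmono hcard
    (fun b hb => ⟨by have := hmle b hb; omega, hB b hb⟩) ⟨m, hmB, h2⟩
  refine ⟨x, hx, y, hy, m / μ, ?_, ?_⟩
  · rw [Nat.lt_div_iff_mul_lt hμ0]
    omega
  · rw [Nat.add_mul, Nat.one_mul]; exact hxy

/-- **Sharp negative relation** for `k ≥ 5`. -/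
theorem not_arrow5 {k n : ℕ} (hk : 5 ≤ k) :
    ¬ Arrow ((Ordinal.omega0 : Ordinal.{0}) ^ n) (Ordinal.omega0 ^ k)
      (2 ^ ((n - 1) / (k - 1)) + 1) := by
  intro harr
  obtain ⟨μ, rfl⟩ : ∃ μ, k = μ + 1 := ⟨k - 1, by omega⟩
  have hμ : 4 ≤ μ := by omega
  rw [Nat.add_sub_cancel] at harr
  set L := (n - 1) / μ with hL
  -- order isomorphism
  obtain ⟨e⟩ : Nonempty (R n ≃r (fun x y : ((Ordinal.omega0 : Ordinal.{0}) ^ n).ToType => x < y)) := by
    apply Ordinal.type_eq.mp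
    rw [type_R]
    exact (Ordinal.type_toType _).symm
  let S : ((Ordinal.omega0 : Ordinal.{0}) ^ n).ToType → ℕ → ℕ := fun x => seq n (e.symm x)
  have hSmono : ∀ x, StrictMono (S x) := fun x => seq_mono n _
  have hSlex : ∀ x y, x < y → LexLt n (S x) (S y) := by
    intro x y h
    apply seq_lex
    rw [← e.map_rel_iff]
    simpa using h
  have hSinj : Function.Injective S := fun x y h => e.symm.injective (seq_inj h)
  let G : SimpleGraph ((Ordinal.omega0 : Ordinal.{0}) ^ n).ToType :=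
    { Adj := fun x y => GG n μ L (S x) (S y) ∨ GG n μ L (S y) (S x)
      symm := ⟨fun x y h => Or.symm h⟩
      loopless := ⟨fun x h => by
        have h' : GG n μ L (S x) (S x) := by
          rcases h with h | h <;> exact h
        exact (GG_split hμ (hSmono x) (hSmono x) h').irrefl⟩ }
  rcases harr G with ⟨H, hH, hind⟩ | ⟨s, hs⟩
  · -- independent set
    obtain ⟨g⟩ : Nonempty (R (μ + 1) ≃r (fun x y : H => x < y)) := by
      apply Ordinal.type_eq.mp
      rw [type_R, hH]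
    obtain ⟨B, hBc, hBn, Z, hZ, hfull⟩ := exists_full (n := n) (k := μ + 1)
      (fun r => S (g r).1) (fun r r' h => hSlex _ _ (g.map_rel_iff.mpr h))
    have hZmono : ∀ x ∈ Z, StrictMono x := by
      intro x hx
      obtain ⟨r, rfl⟩ := hZ hx
      exact hSmono _
    obtain ⟨x, hx, y, hy, hxy⟩ := GG_hit hμ hfull hZmono hBc hBn
    obtain ⟨r, rfl⟩ := hZ hx
    obtain ⟨r', rfl⟩ := hZ hy
    refine hind (g r).2 (g r').2 ?_ (Or.inl hxy)
    intro heq
    have hxy' : GG n μ L (S (g r').1) (S (g r').1) := by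
      have := hxy
      simp only [heq] at this
      exact this
    exact (GG_split hμ (hSmono _) (hSmono _) hxy').irrefl
  · -- clique
    classical
    have hcard : (s.image S).card = 2 ^ L + 1 := by
      rw [Finset.card_image_of_injective s hSinj, hs.card_eq]
    have := clique_bound5 (n := n) (L := L) hμ L le_rfl (s.image S) ?_ ?_ ?_
    · omega
    · intro x hx
      obtain ⟨p, -, rfl⟩ := Finset.mem_image.mp hx
      exact hSmono p
    · intro x hx y hy hxy
      obtain ⟨p, hp, rfl⟩ := Finset.mem_image.mp hx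
      obtain ⟨q, hq, rfl⟩ := Finset.mem_image.mp hy
      have hpq : p ≠ q := fun h => hxy (by rw [h])
      exact hs.isClique hp hq hpq
    · intro x _ y _ i hi
      simp at hi

end Pool.Agent.Y583.Fkn
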