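import Pool.Agent.Y583.FknPos

/-!
Modules and their combination (towards a better lower bound for `f(4,n)`).
-/

namespace Pool.Agent.Y583.Fkn

/-- a relation on sequences depending only on the pattern -/
structure Can (n : ℕ) (A : (ℕ → ℕ) → (ℕ → ℕ) → Prop) : Prop where
  symm : ∀ x y, A x y → A y x
  pat : ∀ x y x' y', Inc n x → Inc n y → Inc n x' → Inc n y' → Pat n x y x' y' →
    (A x y ↔ A x' y')

/-- a clique of size at least `m` of sequences which agree before `p` and which are
synchronised at `v` -/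
def Md (n : ℕ) (A : (ℕ → ℕ) → (ℕ → ℕ) → Prop) (p v m : ℕ) : Prop :=
  ∃ (ι : Type) (_ : Fintype ι) (f : ι → ℕ → ℕ), m ≤ Fintype.card ι ∧ (∀ i, Inc n (f i)) ∧
    (∀ i j, j < p → f i j = j) ∧
    (∀ i i' j j', j < v → v ≤ j' → j' < n → f i j < f i' j') ∧
    (∀ i i', i ≠ i' → A (f i) (f i'))

/-- the standard sequence with block values `V` -/
def sg (n : ℕ) (V : ℕ → ℕ) (j : ℕ) : ℕ := n * V j + j

theorem Inc.le {n : ℕ} {x : ℕ → ℕ} (h : Inc n x) : ∀ j, j < n → j ≤ x j := by
  intro j
  induction j with
  | zero => intro _; exact Nat.zero_le _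
  | succ j ih =>
    intro hj
    have h1 := ih (by omega)
    have h2 := h j (j + 1) (by omega) hj
    omega

theorem mul_gap {Λ a b : ℕ} (h : a < b) : Λ * a + Λ ≤ Λ * b := by
  calc Λ * a + Λ = Λ * (a + 1) := by ring
    _ ≤ Λ * b := Nat.mul_le_mul_left Λ h

theorem sg_inc {n : ℕ} {V : ℕ → ℕ} (h : ∀ i j, i ≤ j → j < n → V i ≤ V j) : Inc n (sg n V) := by
  intro i j hij hj
  have h1 := Nat.mul_le_mul_left n (h i j (le_of_lt hij) hj)
  simp only [sg]
  omega

theorem combine {n : ℕ} {A : (ℕ → ℕ) → (ℕ → ℕ) → Prop} (hA : Can n A) {κ : Type} [Fintype κ]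
    (V : κ → ℕ → ℕ) (p v m : κ → ℕ) (p₀ v₀ : ℕ)
    (hmono : ∀ a i j, i ≤ j → j < n → V a i ≤ V a j)
    (hMd : ∀ a, Md n A (p a) (v a) (m a))
    (hp : ∀ a, p₀ ≤ p a)
    (h0 : ∀ a j, j < p₀ → V a j = 0)
    (hs : ∀ a b j j', j < v₀ → v₀ ≤ j' → j' < n → V a j < V b j')
    (hblk : ∀ a j j', j < j' → j' < n → V a j < V a j' → j < p a ∨ (j < v a ∧ v a ≤ j'))
    (htie : ∀ a b, a ≠ b → ∀ j j', j < n → j' < n → V a j = V b j' →
      min j j' < p a ∧ min j j' < p b)
    (hadj : ∀ a b, a ≠ b → A (sg n (V a)) (sg n (V b))) :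
    Md n A p₀ v₀ (∑ a, m a) := by
  classical
  choose ι hfin f hcard hinc hpre hsync hcl using hMd
  obtain ⟨Λ, hΛ⟩ : ∃ Λ, ∀ a (i : ι a) j, j < n → f a i j < Λ := by
    refine ⟨1 + ∑ a, ∑ i, ∑ j ∈ Finset.range n, f a i j, ?_⟩
    intro a i j hj
    have h1 : f a i j ≤ ∑ j ∈ Finset.range n, f a i j :=
      Finset.single_le_sum (f := fun j => f a i j) (fun _ _ => Nat.zero_le _)
        (Finset.mem_range.mpr hj)
    have h2 : ∑ j ∈ Finset.range n, f a i j ≤ ∑ i, ∑ j ∈ Finset.range n, f a i j :=
      Finset.single_le_sum (f := fun i => ∑ j ∈ Finset.range n, f a i j)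
        (fun _ _ => Nat.zero_le _) (Finset.mem_univ i)
    have h3 : ∑ i, ∑ j ∈ Finset.range n, f a i j ≤ ∑ a, ∑ i, ∑ j ∈ Finset.range n, f a i j :=
      Finset.single_le_sum (f := fun a => ∑ i, ∑ j ∈ Finset.range n, f a i j)
        (fun _ _ => Nat.zero_le _) (Finset.mem_univ a)
    omega
  have hlt : ∀ a (i : ι a) b (i' : ι b) j j', j < n → V a j < V b j' →
      Λ * V a j + f a i j < Λ * V b j' + f b i' j' := by
    intro a i b i' j j' hj hV
    have h1 := mul_gap (Λ := Λ) hV
    have h2 := hΛ a i j hj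
    omega
  have hvlt : ∀ a b j j', j < n → V a j < V b j' → sg n (V a) j < sg n (V b) j' := by
    intro a b j j' hj hV
    have h1 := mul_gap (Λ := n) hV
    simp only [sg]
    omega
  have hginc : ∀ a (i : ι a), Inc n (fun j => Λ * V a j + f a i j) := by
    intro a i j j' hjj hj'
    have h1 := Nat.mul_le_mul_left Λ (hmono a j j' (le_of_lt hjj) hj')
    have h2 := hinc a i j j' hjj hj'
    show Λ * V a j + f a i j < Λ * V a j' + f a i j'
    omega
  -- ties between different vertices
  have htie' : ∀ a (i : ι a) b (i' : ι b) j j', j ≤ j' → j' < n → j < p a → j < p b →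
      (j < j' ↔ f a i j < f b i' j') ∧ (¬ f b i' j' < f a i j) := by
    intro a i b i' j j' hjj hj' ha hb
    have h1 := hpre a i j ha
    have h2 := (hinc b i').le j' hj'
    constructor
    · constructor
      · intro h; omega
      · intro h
        by_contra hcon
        have h3 : j = j' := by omega
        subst h3
        have h4 := hpre b i' j hb
        omega
    · omega
  refine ⟨(a : κ) × ι a, inferInstance, fun z j => Λ * V z.1 j + f z.1 z.2 j, ?_, ?_, ?_, ?_, ?_⟩
  · rw [Fintype.card_sigma]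
    exact Finset.sum_le_sum fun a _ => hcard a
  · rintro ⟨a, i⟩
    exact hginc a i
  · rintro ⟨a, i⟩ j hj
    show Λ * V a j + f a i j = j
    rw [h0 a j hj, hpre a i j (lt_of_lt_of_le hj (hp a))]
    omega
  · rintro ⟨a, i⟩ ⟨b, i'⟩ j j' hj hj' hjn
    exact hlt a i b i' j j' (by omega) (hs a b j j' hj hj' hjn)
  · rintro ⟨a, i⟩ ⟨b, i'⟩ hne
    show A (fun j => Λ * V a j + f a i j) (fun j => Λ * V b j + f b i' j)
    by_cases hab : a = b
    · subst hab
      have hii : i ≠ i' := fun h => hne (by rw [h])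
      refine (hA.pat _ _ _ _ (hinc a i) (hinc a i') (hginc a i) (hginc a i') ?_).mp
        (hcl a i i' hii)
      intro j j' hj hj'
      have key : ∀ (i i' : ι a) j j', j < n → j' < n → V a j < V a j' → f a i j < f a i' j' := by
        intro i i' j j' hj hj' hV
        have hjj : j < j' := by
          by_contra hcon
          have := hmono a j' j (by omega) hj
          omega
        rcases hblk a j j' hjj hj' hV with h | ⟨h1, h2⟩
        · have h1 := hpre a i j h
          have h2 := (hinc a i').le j' hj'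
          omega
        · exact hsync a i i' j j' h1 h2 hj'
      rcases lt_trichotomy (V a j) (V a j') with h | h | h
      · have h1 := key i i' j j' hj hj' h
        have h2 := hlt a i a i' j j' hj h
        constructor
        · exact ⟨fun _ => h2, fun _ => h1⟩
        · constructor <;> intro h3 <;> beta_reduce at h3 <;> omega
      · simp only [h]
        constructor <;> constructor <;> intro h3 <;> beta_reduce at h3 <;> omega
      · have h1 := key i' i j' j hj' hj h
        have h2 := hlt a i' a i j' j hj' h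
        constructor
        · constructor <;> intro h3 <;> beta_reduce at h3 <;> omega
        · exact ⟨fun _ => h2, fun _ => h1⟩
    · refine (hA.pat _ _ _ _ (sg_inc (hmono a)) (sg_inc (hmono b)) (hginc a i) (hginc b i')
        ?_).mp (hadj a b hab)
      intro j j' hj hj'
      rcases lt_trichotomy (V a j) (V b j') with h | h | h
      · have h1 := hvlt a b j j' hj h
        have h2 := hlt a i b i' j j' hj h
        constructor
        · exact ⟨fun _ => h2, fun _ => h1⟩
        · constructor <;> intro h3 <;> beta_reduce at h3 <;> omega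
      · obtain ⟨h1, h2⟩ := htie a b hab j j' hj hj' h
        simp only [sg, h]
        rcases le_total j j' with hjj | hjj
        · rw [min_eq_left hjj] at h1 h2
          obtain ⟨h3, h4⟩ := htie' a i b i' j j' hjj hj' h1 h2
          constructor
          · constructor
            · intro h5
              have := h3.mp (by omega)
              omega
            · intro h5
              have := h3.mpr (by omega)
              omega
          · constructor <;> intro h5 <;> omega
        · rw [min_eq_right hjj] at h1 h2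
          obtain ⟨h3, h4⟩ := htie' b i' a i j' j hjj hj h2 h1
          constructor
          · constructor <;> intro h5 <;> omega
          · constructor
            · intro h5
              have := h3.mp (by omega)
              omega
            · intro h5
              have := h3.mpr (by omega)
              omega
      · have h1 := hvlt b a j' j hj' h
        have h2 := hlt b i' a i j' j hj' h
        constructor
        · constructor <;> intro h3 <;> beta_reduce at h3 <;> omega
        · exact ⟨fun _ => h2, fun _ => h1⟩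

theorem Md.mono_p {n : ℕ} {A : (ℕ → ℕ) → (ℕ → ℕ) → Prop} {p p' v m : ℕ} (h : Md n A p v m)
    (hp : p' ≤ p) : Md n A p' v m := by
  obtain ⟨ι, hι, f, h1, h2, h3, h4, h5⟩ := h
  exact ⟨ι, hι, f, h1, h2, fun i j hj => h3 i j (by omega), h4, h5⟩

theorem Md.mono_m {n : ℕ} {A : (ℕ → ℕ) → (ℕ → ℕ) → Prop} {p v m m' : ℕ} (h : Md n A p v m)
    (hm : m' ≤ m) : Md n A p v m' := by
  obtain ⟨ι, hι, f, h1, h2, h3, h4, h5⟩ := h
  exact ⟨ι, hι, f, by omega, h2, h3, h4, h5⟩

/-- forget synchronisation -/
theorem Md.forget {n : ℕ} {A : (ℕ → ℕ) → (ℕ → ℕ) → Prop} {p v m : ℕ} (h : Md n A p v m) :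
    Md n A p n m := by
  obtain ⟨ι, hι, f, h1, h2, h3, h4, h5⟩ := h
  exact ⟨ι, hι, f, h1, h2, h3, fun i i' j j' _ hj hj' => absurd hj' (by omega), h5⟩

/-- synchronisation inside the common part -/
theorem Md.sync {n : ℕ} {A : (ℕ → ℕ) → (ℕ → ℕ) → Prop} {p v m v' : ℕ} (h : Md n A p v m)
    (hv : v' ≤ p) : Md n A p v' m := by
  obtain ⟨ι, hι, f, h1, h2, h3, h4, h5⟩ := h
  refine ⟨ι, hι, f, h1, h2, h3, ?_, h5⟩
  intro i i' j j' hj hj' hjn
  have e1 := h3 i j (by omega)
  have e2 := (h2 i').le j' hjn
  omega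

theorem Md.one (n : ℕ) (A : (ℕ → ℕ) → (ℕ → ℕ) → Prop) (p v : ℕ) : Md n A p v 1 := by
  refine ⟨Unit, inferInstance, fun _ j => j, by simp, ?_, ?_, ?_, ?_⟩
  · intro _ i j hij _; exact hij
  · intro _ j _; rfl
  · intro _ _ j j' h1 h2 _
    show j < j'
    omega
  · intro i i' h; exact absurd (Subsingleton.elim i i') h

end Pool.Agent.Y583.Fkn
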