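import Pool.Agent.Y583.FknA9

/-!
The exponential lower bound in terms of `f(4,n)`.
-/

namespace Pool.Agent.Y583.Fkn

open Ordinal Filter Topology

theorem growth_exp : ∃ c : ℝ, (2 : ℝ) ^ ((1 : ℝ) / 3) < c ∧ ∃ n₀ : ℕ, ∀ n ≥ n₀,
    c ^ n ≤ ((sInf {m : ℕ | ¬ Arrow ((Ordinal.omega0 : Ordinal.{0}) ^ n)
      (Ordinal.omega0 ^ 4) m} : ℕ) : ℝ) := by
  obtain ⟨L, hL1, hL2⟩ := growth
  have hL := growth_gt hL2
  set M := (Real.log 2 / 3 + L) / 2 with hM
  have hML : M < L := by rw [hM]; linarith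
  have hM2 : Real.log 2 / 3 < M := by rw [hM]; linarith
  have hlog2 : 0 < Real.log 2 := Real.log_pos (by norm_num)
  have hM0 : 0 < M := by linarith
  refine ⟨Real.exp M, ?_, ?_⟩
  · rw [Real.rpow_def_of_pos (by norm_num : (0 : ℝ) < 2)]
    apply Real.exp_lt_exp.mpr
    linarith
  · set M' := (M + L) / 2 with hM'
    have h1 : M' < L := by rw [hM']; linarith
    have h2 : M < M' := by rw [hM']; linarith
    have h3 : ∀ᶠ n : ℕ in atTop, M' < Real.log (Fm (n + 1)) / n := hL1.eventually_const_lt h1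
    obtain ⟨n1, hn1⟩ := eventually_atTop.mp h3
    obtain ⟨n2, hn2⟩ := exists_nat_ge (M / (M' - M))
    refine ⟨max n1 n2 + 2, ?_⟩
    intro n hn
    obtain ⟨n', rfl⟩ : ∃ n', n = n' + 1 := ⟨n - 1, by omega⟩
    have h4 := hn1 n' (by omega)
    have hn'pos : (0 : ℝ) < n' := by
      have : 0 < n' := by omega
      exact_mod_cast this
    rw [lt_div_iff₀ hn'pos] at h4
    have h5 : M / (M' - M) ≤ n' := by
      refine le_trans hn2 ?_
      have : n2 ≤ n' := by omega
      exact_mod_cast this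
    have h6 : M ≤ n' * (M' - M) := by
      rwa [div_le_iff₀ (by linarith)] at h5
    have h7 : M * (n' + 1) ≤ Real.log (Fm (n' + 1)) := by nlinarith
    have h8 : (0 : ℝ) < Fm (n' + 1) := by
      exact_mod_cast Fm_pos (n := n' + 1) (by omega)
    have h9 : Real.exp (M * (n' + 1)) ≤ Fm (n' + 1) := by
      rw [← Real.log_le_log_iff (Real.exp_pos _) h8, Real.log_exp]
      exact h7
    have h10 : Real.exp M ^ (n' + 1) = Real.exp (M * (n' + 1)) := by
      rw [← Real.exp_nat_mul]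
      congr 1
      push_cast
      ring
    have h11 : {m : ℕ | ¬ Arrow ((Ordinal.omega0 : Ordinal.{0}) ^ (n' + 1))
        (Ordinal.omega0 ^ 4) m} = {m : ℕ | ¬ PArr (n' + 1) 4 m} := by
      ext m
      rw [Set.mem_ofPred_eq, Set.mem_ofPred_eq, arrow_iff]
    rw [h10, h11, sInf_eq]
    push_cast
    linarith

end Pool.Agent.Y583.Fkn
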