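import Pool.Agent.Y583.FknA1

/-!
Finite combinatorics of pieces.
-/

namespace Pool.Agent.Y583.Fkn

/-- number of the piece containing `j` -/
def pc {t : ℕ} (c : Fin t → ℕ) (j : ℕ) : ℕ := (Finset.univ.filter (fun r => c r ≤ j)).card

theorem pc_lt_iff {t : ℕ} {c : Fin t → ℕ} (hc : StrictMono c) (r : Fin t) (j : ℕ) :
    c r ≤ j ↔ (r : ℕ) < pc c j := by
  constructor
  · intro h
    have h1 : Finset.Iic r ⊆ Finset.univ.filter (fun r => c r ≤ j) := by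
      intro r' hr'
      rw [Finset.mem_Iic] at hr'
      rw [Finset.mem_filter]
      exact ⟨Finset.mem_univ _, le_trans (hc.monotone hr') h⟩
    have h2 := Finset.card_le_card h1
    rw [Fin.card_Iic] at h2
    unfold pc
    omega
  · intro h
    by_contra hcon
    have h1 : Finset.univ.filter (fun r => c r ≤ j) ⊆ Finset.Iio r := by
      intro r' hr'
      rw [Finset.mem_filter] at hr'
      rw [Finset.mem_Iio]
      by_contra hcon2
      have := hc.monotone (not_lt.mp hcon2)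
      omega
    have h2 := Finset.card_le_card h1
    rw [Fin.card_Iio] at h2
    unfold pc at h
    omega

theorem pc_le {t : ℕ} (c : Fin t → ℕ) (j : ℕ) : pc c j < t + 1 := by
  have h := Finset.card_filter_le (Finset.univ : Finset (Fin t)) (fun r => c r ≤ j)
  rw [Finset.card_univ, Fintype.card_fin] at h
  unfold pc
  omega

theorem pc_mono {t : ℕ} (c : Fin t → ℕ) {j j' : ℕ} (h : j ≤ j') : pc c j ≤ pc c j' := by
  apply Finset.card_le_card
  intro r hr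
  rw [Finset.mem_filter] at hr ⊢
  exact ⟨hr.1, by omega⟩

/-- block values from a vector -/
def vv {t : ℕ} (c : Fin t → ℕ) (X : List ℕ) (j : ℕ) : ℕ := X.getD (pc c j) 0

/-- renumbering of pieces -/
def gs {t' t : ℕ} (ι : Fin t' → Fin t) (k : ℕ) : ℕ :=
  (Finset.univ.filter (fun r => (ι r : ℕ) < k)).card

theorem pc_sub {t' t : ℕ} {c : Fin t → ℕ} (hc : StrictMono c) (ι : Fin t' → Fin t)
    (c' : Fin t' → ℕ) (hcc : ∀ r, c' r = c (ι r)) (j : ℕ) : pc c' j = gs ι (pc c j) := by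
  unfold pc gs
  congr 1
  apply Finset.filter_congr
  intro r _
  rw [hcc, pc_lt_iff hc]
  rfl

/-- cut, extended by `n` -/
def cx {t : ℕ} (c : Fin t → ℕ) (n r : ℕ) : ℕ := if h : r < t then c ⟨r, h⟩ else n

theorem cx_mono {t : ℕ} {c : Fin t → ℕ} {n : ℕ} (hc : StrictMono c) (hcn : ∀ r, c r < n)
    {r r' : ℕ} (h : r ≤ r') : cx c n r ≤ cx c n r' := by
  unfold cx
  by_cases h1 : r' < t
  · rw [dif_pos h1, dif_pos (by omega)]
    exact hc.monotone h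
  · rw [dif_neg h1]
    by_cases h2 : r < t
    · rw [dif_pos h2]; exact le_of_lt (hcn _)
    · rw [dif_neg h2]

theorem lt_cx {t : ℕ} {c : Fin t → ℕ} {n : ℕ} (hc : StrictMono c) {j : ℕ} (hj : j < n) :
    j < cx c n (pc c j) := by
  unfold cx
  by_cases h1 : pc c j < t
  · rw [dif_pos h1]
    by_contra hcon
    have := (pc_lt_iff hc ⟨pc c j, h1⟩ j).mp (not_lt.mp hcon)
    exact absurd this (lt_irrefl _)
  · rw [dif_neg h1]; exact hj

theorem cx_le {t : ℕ} {c : Fin t → ℕ} {n : ℕ} (hc : StrictMono c) {j r : ℕ}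
    (h : r < pc c j) : cx c n r ≤ j := by
  have h1 := pc_le c j
  unfold cx
  rw [dif_pos (by omega)]
  exact (pc_lt_iff hc ⟨r, by omega⟩ j).mpr h

theorem pc_le_of_lt_cx {t : ℕ} {c : Fin t → ℕ} {n : ℕ} (hc : StrictMono c) {j r : ℕ}
    (h : j < cx c n r) : pc c j ≤ r := by
  by_contra hcon
  have := cx_le (n := n) hc (not_le.mp hcon)
  omega

theorem lt_pc_of_cx_le {t : ℕ} {c : Fin t → ℕ} {n : ℕ} (hc : StrictMono c) {j r : ℕ}
    (hj : j < n) (h : cx c n r ≤ j) : r < pc c j := by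
  unfold cx at h
  by_cases h1 : r < t
  · rw [dif_pos h1] at h
    exact (pc_lt_iff hc ⟨r, h1⟩ j).mp h
  · rw [dif_neg h1] at h
    omega

/-- the finite conditions for a combination -/
def Chk (t a : ℕ) (X : Fin a → List ℕ) (ρ τ : Fin a → ℕ) (τ₀ : ℕ) : Prop :=
  (∀ i, ∀ k < t + 1, ∀ k' < t + 1, k ≤ k' → (X i).getD k 0 ≤ (X i).getD k' 0) ∧
  (∀ i, (X i).getD 0 0 = 0) ∧
  (∀ i, ∀ k < t + 1, ∀ k' < t + 1, (X i).getD k 0 < (X i).getD k' 0 →
    k' ≤ k ∨ k ≤ ρ i ∨ (k ≤ τ i ∧ τ i < k')) ∧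
  (∀ i j, i ≠ j → ∀ k < t + 1, ∀ k' < t + 1, (X i).getD k 0 = (X j).getD k' 0 →
    min k k' ≤ ρ i ∧ min k k' ≤ ρ j) ∧
  (∀ i j, ∀ k < t + 1, ∀ k' < t + 1, k ≤ τ₀ → τ₀ < k' → (X i).getD k 0 < (X j).getD k' 0)

instance (t a : ℕ) (X : Fin a → List ℕ) (ρ τ : Fin a → ℕ) (τ₀ : ℕ) :
    Decidable (Chk t a X ρ τ τ₀) := by
  unfold Chk
  exact @instDecidableAnd _ _ (by infer_instance) (@instDecidableAnd _ _ (by infer_instance)
    (@instDecidableAnd _ _ (by infer_instance) (@instDecidableAnd _ _ (by infer_instance)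
      (by infer_instance))))

theorem comb {n : ℕ} {A : (ℕ → ℕ) → (ℕ → ℕ) → Prop} (hA : Can n A) {t a : ℕ}
    {c : Fin t → ℕ} (hc : StrictMono c) (hcn : ∀ r, c r < n)
    {X : Fin a → List ℕ} {ρ τ : Fin a → ℕ} {τ₀ : ℕ} (hk : Chk t a X ρ τ τ₀)
    (p v m : Fin a → ℕ) (hρ : ∀ i, cx c n (ρ i) ≤ p i) (hv : ∀ i, v i = cx c n (τ i))
    (hMd : ∀ i, Md n A (p i) (v i) (m i))
    (hadj : ∀ i j, i ≠ j → A (sg n (vv c (X i))) (sg n (vv c (X j)))) :
    Md n A (cx c n 0) (cx c n τ₀) (∑ i, m i) := by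
  obtain ⟨k1, k2, k3, k4, k5⟩ := hk
  refine combine hA (fun i => vv c (X i)) p v m _ _ ?_ hMd ?_ ?_ ?_ ?_ ?_ hadj
  · intro i j j' hjj _
    exact k1 i _ (pc_le c j) _ (pc_le c j') (pc_mono c hjj)
  · intro i
    exact le_trans (cx_mono hc hcn (Nat.zero_le _)) (hρ i)
  · intro i j hj
    have h1 := pc_le_of_lt_cx hc hj
    have h2 : pc c j = 0 := by omega
    show (X i).getD (pc c j) 0 = 0
    rw [h2]
    exact k2 i
  · intro i i' j j' hj hj' hjn
    exact k5 i i' _ (pc_le c j) _ (pc_le c j') (pc_le_of_lt_cx hc hj)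
      (lt_pc_of_cx_le hc hjn hj')
  · intro i j j' hjj hjn hlt
    have hpp : pc c j < pc c j' := by
      rcases Nat.lt_or_eq_of_le (pc_mono c (le_of_lt hjj)) with h | h
      · exact h
      · exfalso
        have hlt' : (X i).getD (pc c j) 0 < (X i).getD (pc c j') 0 := hlt
        rw [h] at hlt'
        exact lt_irrefl _ hlt'
    have hj1 := lt_cx (n := n) hc (show j < n by omega)
    rcases k3 i _ (pc_le c j) _ (pc_le c j') hlt with h | h | ⟨h1, h2⟩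
    · omega
    · left
      exact lt_of_lt_of_le hj1 (le_trans (cx_mono hc hcn h) (hρ i))
    · right
      rw [hv]
      exact ⟨lt_of_lt_of_le hj1 (cx_mono hc hcn h1), cx_le hc h2⟩
  · intro i i' hii j j' hj hj' heq
    obtain ⟨h1, h2⟩ := k4 i i' hii _ (pc_le c j) _ (pc_le c j') heq
    have h3 : min j j' < cx c n (min (pc c j) (pc c j')) := by
      rcases le_total j j' with h | h
      · rw [min_eq_left h, min_eq_left (pc_mono c h)]
        exact lt_cx hc hj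
      · rw [min_eq_right h, min_eq_right (pc_mono c h)]
        exact lt_cx hc hj'
    exact ⟨lt_of_lt_of_le h3 (le_trans (cx_mono hc hcn h1) (hρ i)),
      lt_of_lt_of_le h3 (le_trans (cx_mono hc hcn h2) (hρ i'))⟩

theorem comb2 {n : ℕ} {A : (ℕ → ℕ) → (ℕ → ℕ) → Prop} (hA : Can n A) {t : ℕ}
    {c : Fin t → ℕ} (hc : StrictMono c) (hcn : ∀ r, c r < n)
    {X Y : List ℕ} {ρ₁ ρ₂ τ₁ τ₂ τ₀ : ℕ} (hk : Chk t 2 ![X, Y] ![ρ₁, ρ₂] ![τ₁, τ₂] τ₀)
    {p₁ p₂ v₁ v₂ m₁ m₂ : ℕ} (hρ₁ : cx c n ρ₁ ≤ p₁) (hρ₂ : cx c n ρ₂ ≤ p₂)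
    (hv₁ : v₁ = cx c n τ₁) (hv₂ : v₂ = cx c n τ₂)
    (hM₁ : Md n A p₁ v₁ m₁) (hM₂ : Md n A p₂ v₂ m₂)
    (hadj : A (sg n (vv c X)) (sg n (vv c Y))) :
    Md n A (cx c n 0) (cx c n τ₀) (m₁ + m₂) := by
  have := comb hA hc hcn hk ![p₁, p₂] ![v₁, v₂] ![m₁, m₂]
    (by intro i; fin_cases i <;> assumption) (by intro i; fin_cases i <;> assumption)
    (by intro i; fin_cases i <;> assumption) (by
      intro i j hij
      fin_cases i <;> fin_cases j
      · exact absurd rfl hij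
      · exact hadj
      · exact hA.symm _ _ hadj
      · exact absurd rfl hij)
  simpa using this

theorem comb3 {n : ℕ} {A : (ℕ → ℕ) → (ℕ → ℕ) → Prop} (hA : Can n A) {t : ℕ}
    {c : Fin t → ℕ} (hc : StrictMono c) (hcn : ∀ r, c r < n)
    {X Y Z : List ℕ} {ρ₁ ρ₂ ρ₃ τ₁ τ₂ τ₃ τ₀ : ℕ}
    (hk : Chk t 3 ![X, Y, Z] ![ρ₁, ρ₂, ρ₃] ![τ₁, τ₂, τ₃] τ₀)
    {p₁ p₂ p₃ v₁ v₂ v₃ m₁ m₂ m₃ : ℕ} (hρ₁ : cx c n ρ₁ ≤ p₁) (hρ₂ : cx c n ρ₂ ≤ p₂)
    (hρ₃ : cx c n ρ₃ ≤ p₃)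
    (hv₁ : v₁ = cx c n τ₁) (hv₂ : v₂ = cx c n τ₂) (hv₃ : v₃ = cx c n τ₃)
    (hM₁ : Md n A p₁ v₁ m₁) (hM₂ : Md n A p₂ v₂ m₂) (hM₃ : Md n A p₃ v₃ m₃)
    (h12 : A (sg n (vv c X)) (sg n (vv c Y))) (h13 : A (sg n (vv c X)) (sg n (vv c Z)))
    (h23 : A (sg n (vv c Y)) (sg n (vv c Z))) :
    Md n A (cx c n 0) (cx c n τ₀) (m₁ + m₂ + m₃) := by
  have := comb hA hc hcn hk ![p₁, p₂, p₃] ![v₁, v₂, v₃] ![m₁, m₂, m₃]
    (by intro i; fin_cases i <;> assumption) (by intro i; fin_cases i <;> assumption)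
    (by intro i; fin_cases i <;> assumption) (by
      intro i j hij
      fin_cases i <;> fin_cases j
      · exact absurd rfl hij
      · exact h12
      · exact h13
      · exact hA.symm _ _ h12
      · exact absurd rfl hij
      · exact h23
      · exact hA.symm _ _ h13
      · exact hA.symm _ _ h23
      · exact absurd rfl hij)
  simpa [Fin.sum_univ_three] using this

/-- the finite condition for a transfer of an edge -/
def ChkE (t t' : ℕ) (ι : Fin t' → Fin t) (X Y X' Y' : List ℕ) : Prop :=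
  (∀ k < t + 1, ∀ k' < t + 1, k ≤ k' → X.getD (gs ι k) 0 ≤ X.getD (gs ι k') 0) ∧
  (∀ k < t + 1, ∀ k' < t + 1, k ≤ k' → Y.getD (gs ι k) 0 ≤ Y.getD (gs ι k') 0) ∧
  (∀ k < t + 1, ∀ k' < t + 1, k ≤ k' → X'.getD k 0 ≤ X'.getD k' 0) ∧
  (∀ k < t + 1, ∀ k' < t + 1, k ≤ k' → Y'.getD k 0 ≤ Y'.getD k' 0) ∧
  (∀ k < t + 1, ∀ k' < t + 1,
    (X.getD (gs ι k) 0 < Y.getD (gs ι k') 0 ↔ X'.getD k 0 < Y'.getD k' 0) ∧
    (Y.getD (gs ι k') 0 < X.getD (gs ι k) 0 ↔ Y'.getD k' 0 < X'.getD k 0))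

instance (t t' : ℕ) (ι : Fin t' → Fin t) (X Y X' Y' : List ℕ) :
    Decidable (ChkE t t' ι X Y X' Y') := by
  unfold ChkE
  exact @instDecidableAnd _ _ (by infer_instance) (@instDecidableAnd _ _ (by infer_instance)
    (@instDecidableAnd _ _ (by infer_instance) (@instDecidableAnd _ _ (by infer_instance)
      (by infer_instance))))

/-- two pairs of block value functions with the same comparisons -/
theorem edge_table {n : ℕ} {A : (ℕ → ℕ) → (ℕ → ℕ) → Prop} (hA : Can n A)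
    {V W V' W' : ℕ → ℕ} (hV : ∀ i j, i ≤ j → j < n → V i ≤ V j)
    (hW : ∀ i j, i ≤ j → j < n → W i ≤ W j) (hV' : ∀ i j, i ≤ j → j < n → V' i ≤ V' j)
    (hW' : ∀ i j, i ≤ j → j < n → W' i ≤ W' j)
    (h : ∀ i j, i < n → j < n → (V i < W j ↔ V' i < W' j) ∧ (W j < V i ↔ W' j < V' i))
    (hE : A (sg n V) (sg n W)) : A (sg n V') (sg n W') := by
  refine (hA.pat _ _ _ _ (sg_inc hV) (sg_inc hW) (sg_inc hV') (sg_inc hW') ?_).mp hE
  have hlt : ∀ (V W : ℕ → ℕ) i j, i < n → V i < W j → sg n V i < sg n W j := by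
    intro V W i j hi hV
    have h1 := mul_gap (Λ := n) hV
    simp only [sg]
    omega
  intro i j hi hj
  obtain ⟨h1, h2⟩ := h i j hi hj
  rcases lt_trichotomy (V i) (W j) with h3 | h3 | h3
  · have e1 := hlt V W i j hi h3
    have e2 := hlt V' W' i j hi (h1.mp h3)
    constructor
    · exact ⟨fun _ => e2, fun _ => e1⟩
    · constructor <;> intro h4 <;> omega
  · have h4 : V' i = W' j := by
      rcases lt_trichotomy (V' i) (W' j) with h5 | h5 | h5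
      · have := h1.mpr h5; omega
      · exact h5
      · have := h2.mpr h5; omega
    simp only [sg, h3, h4]
    constructor <;> constructor <;> intro h5 <;> omega
  · have e1 := hlt W V j i hj h3
    have e2 := hlt W' V' j i hj (h2.mp h3)
    constructor
    · constructor <;> intro h4 <;> omega
    · exact ⟨fun _ => e2, fun _ => e1⟩

theorem edge_sub {n : ℕ} {A : (ℕ → ℕ) → (ℕ → ℕ) → Prop} (hA : Can n A) {t t' : ℕ}
    {c : Fin t → ℕ} (hc : StrictMono c) (ι : Fin t' → Fin t) {c' : Fin t' → ℕ}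
    (hcc : ∀ r, c' r = c (ι r)) {X Y : List ℕ} (X' Y' : List ℕ) (hk : ChkE t t' ι X Y X' Y')
    (h : A (sg n (vv c' X)) (sg n (vv c' Y))) : A (sg n (vv c X')) (sg n (vv c Y')) := by
  obtain ⟨k1, k2, k3, k4, k5⟩ := hk
  have e : ∀ Z : List ℕ, ∀ j, vv c' Z j = Z.getD (gs ι (pc c j)) 0 := by
    intro Z j
    unfold vv
    rw [pc_sub hc ι c' hcc]
  refine edge_table hA ?_ ?_ ?_ ?_ ?_ h
  · intro i j hij _
    rw [e, e]
    exact k1 _ (pc_le c i) _ (pc_le c j) (pc_mono c hij)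
  · intro i j hij _
    rw [e, e]
    exact k2 _ (pc_le c i) _ (pc_le c j) (pc_mono c hij)
  · intro i j hij _
    exact k3 _ (pc_le c i) _ (pc_le c j) (pc_mono c hij)
  · intro i j hij _
    exact k4 _ (pc_le c i) _ (pc_le c j) (pc_mono c hij)
  · intro i j _ _
    rw [e, e]
    exact k5 _ (pc_le c i) _ (pc_le c j)

end Pool.Agent.Y583.Fkn
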