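import Pool.Agent.Y583.FknA2

/-!
The hitting lemma: every four cuts carry an edge of one of nine types.
-/

namespace Pool.Agent.Y583.Fkn

/-- the vector of codes -/
def cv (s : ℕ → ℕ) : List ℕ := [0, 1 + code s 0, 1 + code s 1, 1 + code s 2, 1 + code s 3]

theorem cv_succ (s : ℕ → ℕ) (r : ℕ) (hr : r < 4) : (cv s).getD (r + 1) 0 = 1 + code s r := by
  interval_cases r <;> rfl

theorem cv_zero (s : ℕ → ℕ) : (cv s).getD 0 0 = 0 := rfl

theorem cv_mono {s : ℕ → ℕ} (hs : StrictMono s) (k k' : ℕ) (hk' : k' < 5) (h : k ≤ k') :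
    (cv s).getD k 0 ≤ (cv s).getD k' 0 := by
  rcases Nat.eq_zero_or_pos k with h0 | h0
  · subst h0; rw [cv_zero]; exact Nat.zero_le _
  · obtain ⟨r, rfl⟩ : ∃ r, k = r + 1 := ⟨k - 1, by omega⟩
    obtain ⟨r', rfl⟩ : ∃ r', k' = r' + 1 := ⟨k' - 1, by omega⟩
    rw [cv_succ s r (by omega), cv_succ s r' (by omega)]
    rcases Nat.lt_or_eq_of_le (show r ≤ r' by omega) with h1 | h1
    · have := code_lt hs h1; omega
    · rw [h1]

/-- the nine types -/
def NI : List (List ℕ × List ℕ) :=
  [([0,1,1,1,3], [0,2,4,4,4]), ([0,1,1,1,3], [0,2,2,4,4]), ([0,1,1,3,3], [0,2,4,4,4]),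
   ([0,1,1,3,5], [0,2,4,6,6]), ([0,1,1,3,5], [0,2,4,4,6]), ([0,1,1,3,5], [0,2,4,4,4]),
   ([0,1,3,3,5], [0,2,4,6,6]), ([0,1,3,5,5], [0,2,2,2,4]), ([0,1,2,2,4], [0,1,3,5,5])]

/-- group of a block -/
def gr (i : ℕ) (a : ℕ → ℕ) : ℕ → ℕ
  | 0 => 0
  | (r + 1) => if r + 1 ≤ i then 0 else
      if r + 1 < a r ∨ a (r + 1) ≤ r then gr i a r else gr i a r + 1

def GSc (i : ℕ) (a : ℕ → ℕ) (r q : ℕ) : Prop :=
    (¬ q < a r ↔ (gr i a r < gr i a q ∨ (gr i a r = gr i a q ∧ a r ≤ r))) ∧
    (gr i a r = gr i a q → (a r ≤ r ↔ a q ≤ q))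

instance (i : ℕ) (a : ℕ → ℕ) (r q : ℕ) : Decidable (GSc i a r q) := by
  unfold GSc
  infer_instance

/-- group-sign form -/
def GS (i : ℕ) (a : ℕ → ℕ) : Prop :=
  ∀ r < 4, ∀ q < 4, (i ≤ r ∧ i ≤ q) → GSc i a r q

instance (i : ℕ) (a : ℕ → ℕ) : Decidable (GS i a) := by
  unfold GS
  infer_instance

def valid (i : ℕ) (a : ℕ → ℕ) : Prop :=
  (a 0 ≤ a 1 ∧ a 1 ≤ a 2 ∧ a 2 ≤ a 3) ∧ (∀ r < 4, r ≤ i → a r = r)

instance (i : ℕ) (a : ℕ → ℕ) : Decidable (valid i a) := by
  unfold valid
  infer_instance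

def NIw (i : ℕ) (a : ℕ → ℕ) (w : List ℕ × List ℕ) : Prop :=
  ∀ r < 4, ∀ q < 4, (q < a r ↔ w.2.getD (q + 1) 0 < w.1.getD (r + 1) 0) ∧
    ((r = q ∧ r < i) ↔ w.1.getD (r + 1) 0 = w.2.getD (q + 1) 0)

instance (i : ℕ) (a : ℕ → ℕ) (w : List ℕ × List ℕ) : Decidable (NIw i a w) := by
  unfold NIw
  infer_instance

theorem classify : ∀ i : Fin 4, ∀ a0 a1 a2 a3 : Fin 5,
    valid i (fun r => [(a0 : ℕ), a1, a2, a3].getD r 0) →
    GS i (fun r => [(a0 : ℕ), a1, a2, a3].getD r 0) ∨
    ∃ w ∈ NI, NIw i (fun r => [(a0 : ℕ), a1, a2, a3].getD r 0) w := by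
  decide +kernel

theorem NI_pos : ∀ w ∈ NI, w.1.getD 0 0 = 0 ∧ w.2.getD 0 0 = 0 ∧
    (∀ r < 4, 0 < w.1.getD (r + 1) 0 ∧ 0 < w.2.getD (r + 1) 0) ∧
    (∀ k < 5, ∀ k' < 5, k ≤ k' → w.1.getD k 0 ≤ w.1.getD k' 0) ∧
    (∀ k < 5, ∀ k' < 5, k ≤ k' → w.2.getD k 0 ≤ w.2.getD k' 0) := by
  decide +kernel

theorem threshold (P : ℕ → Prop) (hP : ∀ q, P (q + 1) → P q) :
    ∃ a : Fin 5, ∀ q < 4, (q < (a : ℕ) ↔ P q) := by
  have h0 := hP 0
  have h1 := hP 1
  have h2 := hP 2
  by_cases p0 : P 0
  · by_cases p1 : P 1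
    · by_cases p2 : P 2
      · by_cases p3 : P 3
        · refine ⟨4, fun q hq => ?_⟩
          interval_cases q <;> simp [p0, p1, p2, p3]
        · refine ⟨3, fun q hq => ?_⟩
          interval_cases q <;> simp [p0, p1, p2, p3]
      · have p3 : ¬ P 3 := fun h => p2 (h2 h)
        refine ⟨2, fun q hq => ?_⟩
        interval_cases q <;> simp [p0, p1, p2, p3]
    · have p2 : ¬ P 2 := fun h => p1 (h1 h)
      have p3 : ¬ P 3 := fun h => p2 (h2 h)
      refine ⟨1, fun q hq => ?_⟩
      interval_cases q <;> simp [p0, p1, p2, p3]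
  · have p1 : ¬ P 1 := fun h => p0 (h0 h)
    have p2 : ¬ P 2 := fun h => p1 (h1 h)
    have p3 : ¬ P 3 := fun h => p2 (h2 h)
    refine ⟨0, fun q hq => ?_⟩
    interval_cases q <;> simp [p0, p1, p2, p3]

/-- the block values of the members of an infinite clique -/
def xT (i : ℕ) (a : ℕ → ℕ) (M T : ℕ) : List ℕ :=
  0 :: (List.range 4).map (fun r => if r < i then r + 1 else
    (gr i a r + 1) * (4 * M + 8) + (if a r ≤ r then T else M - T) * 4 + r)

theorem xT_succ (i : ℕ) (a : ℕ → ℕ) (M T r : ℕ) (hr : r < 4) :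
    (xT i a M T).getD (r + 1) 0 = if r < i then r + 1 else
      (gr i a r + 1) * (4 * M + 8) + (if a r ≤ r then T else M - T) * 4 + r := by
  unfold xT
  interval_cases r <;> rfl

theorem gr_mono (i : ℕ) (a : ℕ → ℕ) (r q : ℕ) (hi : i ≤ r) (h : r ≤ q) :
    gr i a r ≤ gr i a q := by
  induction h with
  | refl => exact le_rfl
  | @step m hm ih =>
    refine le_trans ih ?_
    have hm' : r ≤ m := hm
    rw [gr, if_neg (by omega)]
    split_ifs <;> omega

theorem table_of_NIw {s s' : ℕ → ℕ} (hs : StrictMono s) (hs' : StrictMono s') {i : ℕ}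
    (hag : ∀ j < i, s j = s' j) (hne : s i < s' i) {a : ℕ → ℕ}
    (ha : ∀ r < 4, ∀ q < 4, (q < a r ↔ code s' q < code s r)) {X Y : List ℕ}
    (h0 : X.getD 0 0 = 0) (h0' : Y.getD 0 0 = 0)
    (hpos : ∀ r < 4, 0 < X.getD (r + 1) 0 ∧ 0 < Y.getD (r + 1) 0)
    (h1 : ∀ r < 4, ∀ q < 4, (q < a r ↔ Y.getD (q + 1) 0 < X.getD (r + 1) 0))
    (h2 : ∀ r < 4, ∀ q < 4, ((r = q ∧ r < i) ↔ X.getD (r + 1) 0 = Y.getD (q + 1) 0)) :
    ∀ k < 5, ∀ k' < 5, ((cv s).getD k 0 < (cv s').getD k' 0 ↔ X.getD k 0 < Y.getD k' 0) ∧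
      ((cv s').getD k' 0 < (cv s).getD k 0 ↔ Y.getD k' 0 < X.getD k 0) := by
  have htie : ∀ r < 4, ∀ q < 4, (code s r = code s' q ↔ (r = q ∧ r < i)) := by
    intro r hr q hq
    constructor
    · intro h
      obtain ⟨e1, e2⟩ := code_inj hs hs' h
      refine ⟨e1, ?_⟩
      by_contra hcon
      have := e2 i (by omega)
      omega
    · rintro ⟨rfl, h⟩
      exact code_congr fun j hj => hag j (by omega)
  intro k hk k' hk'
  rcases Nat.eq_zero_or_pos k with hk0 | hk0
  · subst hk0
    rw [cv_zero, h0]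
    rcases Nat.eq_zero_or_pos k' with hk0' | hk0'
    · subst hk0'
      rw [cv_zero, h0']
      exact ⟨Iff.rfl, Iff.rfl⟩
    · obtain ⟨r', rfl⟩ : ∃ r', k' = r' + 1 := ⟨k' - 1, by omega⟩
      rw [cv_succ s' r' (by omega)]
      have := (hpos r' (by omega)).2
      constructor <;> constructor <;> intro <;> omega
  · obtain ⟨r, rfl⟩ : ∃ r, k = r + 1 := ⟨k - 1, by omega⟩
    rw [cv_succ s r (by omega)]
    have hp := (hpos r (by omega)).1
    rcases Nat.eq_zero_or_pos k' with hk0' | hk0'
    · subst hk0'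
      rw [cv_zero, h0']
      constructor <;> constructor <;> intro <;> omega
    · obtain ⟨q, rfl⟩ : ∃ q, k' = q + 1 := ⟨k' - 1, by omega⟩
      rw [cv_succ s' q (by omega)]
      have e1 := ha r (by omega) q (by omega)
      have e2 := h1 r (by omega) q (by omega)
      have e3 := h2 r (by omega) q (by omega)
      have e4 := htie r (by omega) q (by omega)
      have e5 : (code s' q < code s r ↔ Y.getD (q + 1) 0 < X.getD (r + 1) 0) := e1.symm.trans e2
      have e6 : (code s r = code s' q ↔ X.getD (r + 1) 0 = Y.getD (q + 1) 0) := e4.trans e3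
      constructor
      · constructor
        · intro h
          have g1 : ¬ Y.getD (q + 1) 0 < X.getD (r + 1) 0 := fun g => by
            have := e5.mpr g; omega
          have g2 : ¬ X.getD (r + 1) 0 = Y.getD (q + 1) 0 := fun g => by
            have := e6.mpr g; omega
          omega
        · intro h
          have g1 : ¬ code s' q < code s r := fun g => by
            have := e5.mp g; omega
          have g2 : ¬ code s r = code s' q := fun g => by
            have := e6.mp g; omega
          omega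
      · constructor
        · intro h; exact e5.mp (by omega)
        · intro h; have := e5.mpr h; omega

/-- a system: a canonical relation with bounded cliques for which every quadruple of cuts is hit -/
structure Sys (n : ℕ) (A : (ℕ → ℕ) → (ℕ → ℕ) → Prop) (B : ℕ) : Prop where
  can : Can n A
  bound : ∀ m, Md n A 0 n m → m ≤ B
  hitc : ∀ b : Fin 4 → ℕ, StrictMono b → (∀ r, b r < n) → ∃ s s' : ℕ → ℕ, StrictMono s ∧
    StrictMono s' ∧ ∃ i < 4, (∀ j < i, s j = s' j) ∧ s i < s' i ∧
      A (sg n (vv b (cv s))) (sg n (vv b (cv s')))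

theorem idem_clique {n : ℕ} {A : (ℕ → ℕ) → (ℕ → ℕ) → Prop} (hA : Can n A)
    {b : Fin 4 → ℕ} {s s' : ℕ → ℕ} (hs : StrictMono s) (hs' : StrictMono s') {i : ℕ}
    (hag : ∀ j < i, s j = s' j) (hne : s i < s' i) {a : ℕ → ℕ}
    (ha : ∀ r < 4, ∀ q < 4, (q < a r ↔ code s' q < code s r)) (hGS : GS i a)
    (hE : A (sg n (vv b (cv s))) (sg n (vv b (cv s')))) (M : ℕ) : Md n A 0 n M := by
  have hK : ∀ g g' : ℕ, g < g' → g * (4 * M + 8) + (4 * M + 8) ≤ g' * (4 * M + 8) := by
    intro g g' h
    calc g * (4 * M + 8) + (4 * M + 8) = (g + 1) * (4 * M + 8) := by ring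
      _ ≤ g' * (4 * M + 8) := Nat.mul_le_mul_right _ h
  have hmonoT : ∀ T, T ≤ M → ∀ k k', k' < 5 → k ≤ k' →
      (xT i a M T).getD k 0 ≤ (xT i a M T).getD k' 0 := by
    intro T hT k k' hk' hkk
    rcases Nat.eq_zero_or_pos k with h0 | h0
    · subst h0
      show 0 ≤ _
      exact Nat.zero_le _
    · obtain ⟨r, rfl⟩ : ∃ r, k = r + 1 := ⟨k - 1, by omega⟩
      obtain ⟨q, rfl⟩ : ∃ q, k' = q + 1 := ⟨k' - 1, by omega⟩
      rw [xT_succ _ _ _ _ r (by omega), xT_succ _ _ _ _ q (by omega)]
      rcases Nat.lt_or_eq_of_le (show r ≤ q by omega) with h1 | h1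
      · by_cases hr : r < i
        · rw [if_pos hr]
          by_cases hq : q < i
          · rw [if_pos hq]; omega
          · rw [if_neg hq]
            have := hK 0 (gr i a q + 1) (by omega)
            omega
        · rw [if_neg hr, if_neg (show ¬ q < i by omega)]
          have hg := gr_mono i a r q (by omega) (by omega)
          have hT1 : (if a r ≤ r then T else M - T) ≤ M := by split_ifs <;> omega
          rcases Nat.lt_or_eq_of_le hg with h2 | h2
          · have := hK _ _ (Nat.add_lt_add_right h2 1)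
            omega
          · obtain ⟨-, h3⟩ := hGS r (by omega) q (by omega) ⟨by omega, by omega⟩
            have h4 := h3 h2
            rw [h2]
            by_cases h5 : a r ≤ r
            · rw [if_pos h5, if_pos (h4.mp h5)]; omega
            · rw [if_neg h5, if_neg (fun h => h5 (h4.mpr h))]; omega
      · rw [h1]
  have hadj : ∀ T T', T < T' → T' < M →
      A (sg n (vv b (xT i a M T))) (sg n (vv b (xT i a M T'))) := by
    intro T T' hTT hT'
    have hlow : ∀ r q : ℕ, ∀ U : ℕ, r < 4 → r + 1 < (gr i a q + 1) * (4 * M + 8) + U := by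
      intro r q U hr
      have := hK 0 (gr i a q + 1) (by omega)
      omega
    -- main comparison
    have hcmp : ∀ r < 4, ∀ q < 4, i ≤ r → i ≤ q →
        ((q < a r ∧ (xT i a M T').getD (q + 1) 0 < (xT i a M T).getD (r + 1) 0) ∨
         (¬ q < a r ∧ (xT i a M T).getD (r + 1) 0 < (xT i a M T').getD (q + 1) 0)) := by
      intro r hr q hq hir hiq
      rw [xT_succ _ _ _ _ r hr, xT_succ _ _ _ _ q hq, if_neg (show ¬ r < i by omega),
        if_neg (show ¬ q < i by omega)]
      obtain ⟨h1, h2⟩ := hGS r hr q hq ⟨hir, hiq⟩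
      have hU1 : (if a r ≤ r then T else M - T) ≤ M := by split_ifs <;> omega
      have hU2 : (if a q ≤ q then T' else M - T') ≤ M := by split_ifs <;> omega
      rcases lt_trichotomy (gr i a r) (gr i a q) with h | h | h
      · right
        refine ⟨h1.mpr (Or.inl h), ?_⟩
        have := hK _ _ (Nat.add_lt_add_right h 1)
        omega
      · have h3 := h2 h
        rw [h]
        by_cases h4 : a r ≤ r
        · right
          refine ⟨h1.mpr (Or.inr ⟨h, h4⟩), ?_⟩
          rw [if_pos h4, if_pos (h3.mp h4)]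
          omega
        · left
          refine ⟨?_, ?_⟩
          · by_contra hcon
            rcases h1.mp hcon with h5 | ⟨_, h5⟩
            · omega
            · exact h4 h5
          · rw [if_neg h4, if_neg (fun h => h4 (h3.mpr h))]
            omega
      · left
        refine ⟨?_, ?_⟩
        · by_contra hcon
          rcases h1.mp hcon with h5 | ⟨h5, _⟩ <;> omega
        · have := hK _ _ (Nat.add_lt_add_right h 1)
          omega
    have hav : ∀ r < 4, r < i → ∀ q < 4, (q < a r ↔ q < r) := by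
      intro r hr hri q hq
      rw [ha r hr q hq]
      rw [show code s r = code s' r from code_congr fun j hj => hag j (by omega)]
      constructor
      · intro h
        by_contra hcon
        rcases Nat.lt_or_eq_of_le (not_lt.mp hcon) with h1 | h1
        · have := code_lt hs' h1; omega
        · subst h1; omega
      · intro h; exact code_lt hs' h
    have hav' : ∀ q < 4, q < i → ∀ r < 4, i ≤ r → q < a r := by
      intro q hq hqi r hr hir
      rw [ha r hr q hq]
      rw [show code s' q = code s q from code_congr fun j hj => (hag j (by omega)).symm]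
      exact code_lt hs (by omega)
    refine edge_table hA (V := vv b (cv s)) (W := vv b (cv s')) ?_ ?_ ?_ ?_ ?_ hE
    · intro j j' hjj _
      exact cv_mono hs _ _ (pc_le b j') (pc_mono b hjj)
    · intro j j' hjj _
      exact cv_mono hs' _ _ (pc_le b j') (pc_mono b hjj)
    · intro j j' hjj _
      exact hmonoT T (by omega) _ _ (pc_le b j') (pc_mono b hjj)
    · intro j j' hjj _
      exact hmonoT T' (by omega) _ _ (pc_le b j') (pc_mono b hjj)
    · intro j j' _ _
      refine table_of_NIw hs hs' hag hne ha (X := xT i a M T) (Y := xT i a M T') rfl rfl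
        ?_ ?_ ?_ _ (pc_le b j) _ (pc_le b j')
      · intro r hr
        rw [xT_succ _ _ _ _ r hr, xT_succ _ _ _ _ r hr]
        by_cases h : r < i
        · rw [if_pos h, if_pos h]; omega
        · rw [if_neg h, if_neg h]
          have := hK 0 (gr i a r + 1) (by omega)
          omega
      · intro r hr q hq
        by_cases h1 : r < i
        · by_cases h2 : q < i
          · rw [xT_succ _ _ _ _ r hr, xT_succ _ _ _ _ q hq, if_pos h1, if_pos h2,
              hav r hr h1 q hq]
            omega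
          · rw [xT_succ _ _ _ _ r hr, xT_succ _ _ _ _ q hq, if_pos h1, if_neg h2,
              hav r hr h1 q hq]
            have := hlow r q ((if a q ≤ q then T' else M - T') * 4 + q) hr
            omega
        · by_cases h2 : q < i
          · rw [xT_succ _ _ _ _ r hr, xT_succ _ _ _ _ q hq, if_neg h1, if_pos h2]
            have := hlow q r ((if a r ≤ r then T else M - T) * 4 + r) hq
            have h3 := hav' q hq h2 r hr (by omega)
            constructor
            · intro _; omega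
            · intro _; exact h3
          · rcases hcmp r hr q hq (by omega) (by omega) with ⟨h3, h4⟩ | ⟨h3, h4⟩
            · exact ⟨fun _ => h4, fun _ => h3⟩
            · exact ⟨fun h => absurd h h3, fun h => by omega⟩
      · intro r hr q hq
        by_cases h1 : r < i
        · by_cases h2 : q < i
          · rw [xT_succ _ _ _ _ r hr, xT_succ _ _ _ _ q hq, if_pos h1, if_pos h2]
            omega
          · rw [xT_succ _ _ _ _ r hr, xT_succ _ _ _ _ q hq, if_pos h1, if_neg h2]
            have := hlow r q ((if a q ≤ q then T' else M - T') * 4 + q) hr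
            omega
        · by_cases h2 : q < i
          · rw [xT_succ _ _ _ _ r hr, xT_succ _ _ _ _ q hq, if_neg h1, if_pos h2]
            have := hlow q r ((if a r ≤ r then T else M - T) * 4 + r) hq
            omega
          · rcases hcmp r hr q hq (by omega) (by omega) with ⟨h3, h4⟩ | ⟨h3, h4⟩ <;> omega
  refine ⟨Fin M, inferInstance, fun T => sg n (vv b (xT i a M T)), by simp, ?_, ?_, ?_, ?_⟩
  · intro T
    apply sg_inc
    intro j j' hjj _
    exact hmonoT T (le_of_lt T.2) _ _ (pc_le b j') (pc_mono b hjj)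
  · intro T j hj; omega
  · intro T T' j j' _ h1 h2; omega
  · intro T T' hTT
    rcases lt_or_gt_of_ne hTT with h | h
    · exact hadj T T' h T'.2
    · exact hA.symm _ _ (hadj T' T h T.2)

/-- **Hitting lemma.** -/
theorem Sys.hit {n : ℕ} {A : (ℕ → ℕ) → (ℕ → ℕ) → Prop} {B : ℕ} (hS : Sys n A B)
    (b : Fin 4 → ℕ) (hb : StrictMono b) (hbn : ∀ r, b r < n) :
    ∃ w ∈ NI, A (sg n (vv b w.1)) (sg n (vv b w.2)) := by
  obtain ⟨s, s', hs, hs', i, hi, hag, hne, hE⟩ := hS.hitc b hb hbn
  have hth : ∀ r, ∃ a : Fin 5, ∀ q < 4, (q < (a : ℕ) ↔ code s' q < code s r) := by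
    intro r
    apply threshold
    intro q hq
    have := code_lt hs' (show q < q + 1 by omega)
    omega
  obtain ⟨a0, ha0⟩ := hth 0
  obtain ⟨a1, ha1⟩ := hth 1
  obtain ⟨a2, ha2⟩ := hth 2
  obtain ⟨a3, ha3⟩ := hth 3
  have ha : ∀ r < 4, ∀ q < 4, (q < (fun r => [(a0 : ℕ), a1, a2, a3].getD r 0) r ↔
      code s' q < code s r) := by
    intro r hr
    interval_cases r
    · exact ha0
    · exact ha1
    · exact ha2
    · exact ha3
  set a : ℕ → ℕ := fun r => [(a0 : ℕ), a1, a2, a3].getD r 0 with hadef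
  have ha4 : ∀ r < 4, a r ≤ 4 := by
    intro r hr
    interval_cases r
    · show (a0 : ℕ) ≤ 4; omega
    · show (a1 : ℕ) ≤ 4; omega
    · show (a2 : ℕ) ≤ 4; omega
    · show (a3 : ℕ) ≤ 4; omega
  have hmono : ∀ r r', r < r' → r' < 4 → a r ≤ a r' := by
    intro r r' hrr hr'
    by_contra hcon
    have h1 := ha4 r (by omega)
    have h2 := (ha r (by omega) (a r') (by omega)).mp (by omega)
    have h3 := code_lt hs hrr
    have h4 := (ha r' hr' (a r') (by omega)).mpr (by omega)
    omega
  have hval : valid i a := by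
    refine ⟨⟨hmono 0 1 (by omega) (by omega), hmono 1 2 (by omega) (by omega),
      hmono 2 3 (by omega) (by omega)⟩, ?_⟩
    intro r hr hri
    have h1 : ¬ r < a r := by
      rw [ha r hr r hr]
      rcases Nat.lt_or_eq_of_le hri with h | h
      · rw [show code s r = code s' r from code_congr fun j hj => hag j (by omega)]
        omega
      · subst h
        have := code_lex hs hs' hag hne
        omega
    have h2 : ∀ q < r, q < a r := by
      intro q hq
      rw [ha r hr q (by omega)]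
      rw [show code s' q = code s q from code_congr fun j hj => (hag j (by omega)).symm]
      exact code_lt hs hq
    rcases Nat.eq_zero_or_pos r with h | h
    · omega
    · have := h2 (r - 1) (by omega)
      omega
  rcases classify ⟨i, hi⟩ a0 a1 a2 a3 hval with hGS | ⟨w, hw, hNIw⟩
  · exfalso
    have := hS.bound _ (idem_clique hS.can hs hs' hag hne ha hGS hE (B + 1))
    omega
  · refine ⟨w, hw, ?_⟩
    obtain ⟨h0, h0', hpos, hm1, hm2⟩ := NI_pos w hw
    refine edge_table hS.can (V := vv b (cv s)) (W := vv b (cv s')) ?_ ?_ ?_ ?_ ?_ hE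
    · intro j j' hjj _
      exact cv_mono hs _ _ (pc_le b j') (pc_mono b hjj)
    · intro j j' hjj _
      exact cv_mono hs' _ _ (pc_le b j') (pc_mono b hjj)
    · intro j j' hjj _
      exact hm1 _ (pc_le b j) _ (pc_le b j') (pc_mono b hjj)
    · intro j j' hjj _
      exact hm2 _ (pc_le b j) _ (pc_le b j') (pc_mono b hjj)
    · intro j j' _ _
      exact table_of_NIw hs hs' hag hne ha h0 h0' hpos
        (fun r hr q hq => (hNIw r hr q hq).1) (fun r hr q hq => (hNIw r hr q hq).2)
        _ (pc_le b j) _ (pc_le b j')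

end Pool.Agent.Y583.Fkn
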