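import Pool.Agent.Y583.FknA3

/-!
Maximal sizes of tail modules.
-/

namespace Pool.Agent.Y583.Fkn

variable {n : ℕ} {A : (ℕ → ℕ) → (ℕ → ℕ) → Prop} {B : ℕ}

open Classical in
/-- maximal size of a module at `c` -/
noncomputable def om (n : ℕ) (A : (ℕ → ℕ) → (ℕ → ℕ) → Prop) (B c : ℕ) : ℕ :=
  Nat.findGreatest (fun m => Md n A c n m) B

theorem Sys.le_om (hS : Sys n A B) {c v m : ℕ} (h : Md n A c v m) : m ≤ om n A B c := by
  classical
  exact Nat.le_findGreatest (hS.bound m (h.forget.mono_p (Nat.zero_le c))) h.forget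

theorem Sys.one_le_om (hS : Sys n A B) (c : ℕ) : 1 ≤ om n A B c := hS.le_om (Md.one n A c n)

theorem Sys.om_spec (hS : Sys n A B) (c : ℕ) : Md n A c n (om n A B c) := by
  have h1 : Md n A c n 1 := Md.one n A c n
  classical
  exact Nat.findGreatest_spec (P := fun m => Md n A c n m)
    (hS.bound 1 (h1.mono_p (Nat.zero_le c))) h1

theorem Sys.om_anti (hS : Sys n A B) {c c' : ℕ} (h : c ≤ c') : om n A B c' ≤ om n A B c :=
  hS.le_om ((hS.om_spec c').mono_p h)

theorem om_zero (n : ℕ) (A : (ℕ → ℕ) → (ℕ → ℕ) → Prop) (B : ℕ) : om n A B 0 ≤ B := by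
  classical
  exact Nat.findGreatest_le _

theorem smono4 {a b c d : ℕ} (h1 : a < b) (h2 : b < c) (h3 : c < d) :
    StrictMono ![a, b, c, d] := by
  rw [Fin.strictMono_iff_lt_succ]
  intro i
  fin_cases i
  · exact h1
  · exact h2
  · exact h3

theorem smono5 {a b c d e : ℕ} (h1 : a < b) (h2 : b < c) (h3 : c < d) (h4 : d < e) :
    StrictMono ![a, b, c, d, e] := by
  rw [Fin.strictMono_iff_lt_succ]
  intro i
  fin_cases i
  · exact h1
  · exact h2
  · exact h3
  · exact h4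

theorem lt4 {a b c d : ℕ} (h1 : a < b) (h2 : b < c) (h3 : c < d) (h4 : d < n) :
    ∀ r, (![a, b, c, d] : Fin 4 → ℕ) r < n := by
  intro i
  fin_cases i
  · show a < n; omega
  · show b < n; omega
  · show c < n; omega
  · exact h4

theorem lt5 {a b c d e : ℕ} (h1 : a < b) (h2 : b < c) (h3 : c < d) (h4 : d < e) (h5 : e < n) :
    ∀ r, (![a, b, c, d, e] : Fin 5 → ℕ) r < n := by
  intro i
  fin_cases i
  · show a < n; omega
  · show b < n; omega
  · show c < n; omega
  · show d < n; omega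
  · exact h5

theorem chk_F2 : ∀ w ∈ NI, Chk 4 2 ![w.1, w.2] ![3, 3] ![4, 4] 4 := by decide +kernel

theorem Sys.F2 (hS : Sys n A B) {c : ℕ} (hc : c + 3 < n) :
    2 * om n A B (c + 3) ≤ om n A B c := by
  have hb := smono4 (show c < c + 1 by omega) (show c + 1 < c + 2 by omega)
    (show c + 2 < c + 3 by omega)
  have hbn := lt4 (show c < c + 1 by omega) (show c + 1 < c + 2 by omega)
    (show c + 2 < c + 3 by omega) hc
  obtain ⟨w, hw, hE⟩ := hS.hit _ hb hbn
  have h := comb2 hS.can hb hbn (chk_F2 w hw) (p₁ := c + 3) (p₂ := c + 3) (v₁ := n) (v₂ := n)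
    le_rfl le_rfl rfl rfl (hS.om_spec (c + 3)) (hS.om_spec (c + 3)) hE
  have := hS.le_om (c := c) h
  omega

theorem Sys.F2_iter (hS : Sys n A B) (c : ℕ) : ∀ m, c + 3 * m < n →
    2 ^ m * om n A B (c + 3 * m) ≤ om n A B c := by
  intro m
  induction m with
  | zero => intro _; simp
  | succ m ih =>
    intro hm
    have h1 := ih (by omega)
    have h2 := hS.F2 (c := c + 3 * m) (by omega)
    rw [show c + 3 * m + 3 = c + 3 * (m + 1) by ring] at h2
    calc 2 ^ (m + 1) * om n A B (c + 3 * (m + 1)) = 2 ^ m * (2 * om n A B (c + 3 * (m + 1))) := by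
          ring
      _ ≤ 2 ^ m * om n A B (c + 3 * m) := Nat.mul_le_mul_left _ h2
      _ ≤ om n A B c := h1

/-- the word `T` -/
def WT : List ℕ × List ℕ := ([0,1,1,3,5], [0,2,4,4,6])

theorem chk_force : ∀ w ∈ NI, w ≠ WT → Chk 4 2 ![w.1, w.2] ![2, 2] ![3, 4] 4 ∨
    Chk 4 2 ![w.1, w.2] ![2, 2] ![4, 3] 4 := by decide +kernel

theorem Sys.force (hS : Sys n A B) {p v m : ℕ} (hv : p + 2 < v) (hvn : v < n)
    (hM : Md n A (p + 3) v m) (h : om n A B p < om n A B (p + 2) + m) :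
    A (sg n (vv ![p, p + 1, p + 2, v] [0,1,1,3,5])) (sg n (vv ![p, p + 1, p + 2, v] [0,2,4,4,6]))
    := by
  have hb := smono4 (show p < p + 1 by omega) (show p + 1 < p + 2 by omega) hv
  have hbn := lt4 (show p < p + 1 by omega) (show p + 1 < p + 2 by omega) hv hvn
  obtain ⟨w, hw, hE⟩ := hS.hit _ hb hbn
  by_cases hwT : w = WT
  · rw [hwT] at hE
    exact hE
  · exfalso
    rcases chk_force w hw hwT with hk | hk
    · have h1 := comb2 hS.can hb hbn hk (p₁ := p + 3) (p₂ := p + 2) (v₁ := v) (v₂ := n)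
        (show p + 2 ≤ p + 3 by omega) le_rfl rfl rfl hM (hS.om_spec (p + 2)) hE
      have := hS.le_om (c := p) h1
      omega
    · have h1 := comb2 hS.can hb hbn hk (p₁ := p + 2) (p₂ := p + 3) (v₁ := n) (v₂ := v)
        le_rfl (show p + 2 ≤ p + 3 by omega) rfl rfl (hS.om_spec (p + 2)) hM hE
      have := hS.le_om (c := p) h1
      omega

theorem chk_sync : Chk 4 2 ![[0,1,1,3,5], [0,2,4,4,6]] ![2, 2] ![3, 3] 3 := by decide +kernel

theorem Sys.sync_step (hS : Sys n A B) {p v m : ℕ} (hv : p + 2 < v) (hvn : v < n)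
    (hM : Md n A (p + 3) v m) (h : om n A B p < om n A B (p + 2) + m) :
    Md n A p v (m + m) := by
  have hb := smono4 (show p < p + 1 by omega) (show p + 1 < p + 2 by omega) hv
  have hbn := lt4 (show p < p + 1 by omega) (show p + 1 < p + 2 by omega) hv hvn
  exact comb2 hS.can hb hbn chk_sync (p₁ := p + 3) (p₂ := p + 3) (v₁ := v) (v₂ := v)
    (show p + 2 ≤ p + 3 by omega) (show p + 2 ≤ p + 3 by omega) rfl rfl hM hM
    (hS.force hv hvn hM h)

theorem chk_Y : ∀ w ∈ NI, Chk 4 2 ![w.1, w.2] ![2, 2] ![3, 3] 4 := by decide +kernel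

/-- Lemma Y -/
theorem Sys.lemY (hS : Sys n A B) {c : ℕ} (hc : c + 5 < n)
    (h : om n A B (c + 2) < om n A B (c + 4) + om n A B (c + 5)) :
    4 * om n A B (c + 5) ≤ om n A B c := by
  have h1 : Md n A (c + 2) (c + 5) (om n A B (c + 5) + om n A B (c + 5)) :=
    hS.sync_step (p := c + 2) (v := c + 5) (by omega) hc ((hS.om_spec (c + 5)).sync le_rfl) h
  have hb := smono4 (show c < c + 1 by omega) (show c + 1 < c + 2 by omega)
    (show c + 2 < c + 5 by omega)
  have hbn := lt4 (show c < c + 1 by omega) (show c + 1 < c + 2 by omega)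
    (show c + 2 < c + 5 by omega) hc
  obtain ⟨w, hw, hE⟩ := hS.hit _ hb hbn
  have h2 := comb2 hS.can hb hbn (chk_Y w hw) (p₁ := c + 2) (p₂ := c + 2) (v₁ := c + 5)
    (v₂ := c + 5) le_rfl le_rfl rfl rfl h1 h1 hE
  have := hS.le_om (c := c) h2
  omega

end Pool.Agent.Y583.Fkn
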