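import Pool.Agent.Y583.FknA4

/-!
Lemma X: a block of nearly exact levels is impossible.
-/

namespace Pool.Agent.Y583.Fkn

variable {n : ℕ} {A : (ℕ → ℕ) → (ℕ → ℕ) → Prop} {B : ℕ}

/-- edge with the cuts `a b c d` -/
def Ed (n : ℕ) (A : (ℕ → ℕ) → (ℕ → ℕ) → Prop) (a b c d : ℕ) (X Y : List ℕ) : Prop :=
  A (sg n (vv ![a, b, c, d] X)) (sg n (vv ![a, b, c, d] Y))

theorem hcc4 {t : ℕ} {c : Fin t → ℕ} {ι : Fin 4 → Fin t} {a b d e : ℕ}
    (h0 : a = c (ι 0)) (h1 : b = c (ι 1)) (h2 : d = c (ι 2)) (h3 : e = c (ι 3)) :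
    ∀ r, (![a, b, d, e] : Fin 4 → ℕ) r = c (ι r) := by
  intro r
  fin_cases r
  · exact h0
  · exact h1
  · exact h2
  · exact h3

/-- triangle on the cuts `s, s+1, s+2, a, b` -/
theorem Sys.kill (hS : Sys n A B) {s a b Q u : ℕ} (hsa : s + 2 < a) (hab : a < b) (hbn : b < n)
    (hom : om n A B s < Q + Q + u) {X Y Z : List ℕ} {ρ₁ ρ₂ ρ₃ τ₁ τ₂ τ₃ : ℕ}
    (hk : Chk 5 3 ![X, Y, Z] ![ρ₁, ρ₂, ρ₃] ![τ₁, τ₂, τ₃] 5)
    {p₁ p₂ p₃ v₁ v₂ v₃ m₁ m₂ m₃ : ℕ}
    (hρ₁ : cx ![s, s + 1, s + 2, a, b] n ρ₁ ≤ p₁) (hρ₂ : cx ![s, s + 1, s + 2, a, b] n ρ₂ ≤ p₂)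
    (hρ₃ : cx ![s, s + 1, s + 2, a, b] n ρ₃ ≤ p₃)
    (hv₁ : v₁ = cx ![s, s + 1, s + 2, a, b] n τ₁) (hv₂ : v₂ = cx ![s, s + 1, s + 2, a, b] n τ₂)
    (hv₃ : v₃ = cx ![s, s + 1, s + 2, a, b] n τ₃)
    (hM₁ : Md n A p₁ v₁ m₁) (hM₂ : Md n A p₂ v₂ m₂) (hM₃ : Md n A p₃ v₃ m₃)
    (hm : Q + Q + u ≤ m₁ + m₂ + m₃)
    (h12 : A (sg n (vv ![s, s + 1, s + 2, a, b] X)) (sg n (vv ![s, s + 1, s + 2, a, b] Y)))
    (h13 : A (sg n (vv ![s, s + 1, s + 2, a, b] X)) (sg n (vv ![s, s + 1, s + 2, a, b] Z)))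
    (h23 : A (sg n (vv ![s, s + 1, s + 2, a, b] Y)) (sg n (vv ![s, s + 1, s + 2, a, b] Z))) :
    False := by
  have hc := smono5 (show s < s + 1 by omega) (show s + 1 < s + 2 by omega) hsa hab
  have hcn := lt5 (show s < s + 1 by omega) (show s + 1 < s + 2 by omega) hsa hab hbn
  have h := comb3 hS.can hc hcn hk hρ₁ hρ₂ hρ₃ hv₁ hv₂ hv₃ hM₁ hM₂ hM₃ h12 h13 h23
  have := hS.le_om (c := s) h
  omega

theorem Sys.e5 (hS : Sys n A B) {s a b : ℕ} (hsa : s + 2 < a) (hab : a < b)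
    (ι : Fin 4 → Fin 5) {c0 c1 c2 c3 : ℕ} {X Y : List ℕ} (h : Ed n A c0 c1 c2 c3 X Y)
    (X' Y' : List ℕ) (hk : ChkE 5 4 ι X Y X' Y')
    (h0 : c0 = (![s, s + 1, s + 2, a, b] : Fin 5 → ℕ) (ι 0))
    (h1 : c1 = (![s, s + 1, s + 2, a, b] : Fin 5 → ℕ) (ι 1))
    (h2 : c2 = (![s, s + 1, s + 2, a, b] : Fin 5 → ℕ) (ι 2))
    (h3 : c3 = (![s, s + 1, s + 2, a, b] : Fin 5 → ℕ) (ι 3)) :
    A (sg n (vv ![s, s + 1, s + 2, a, b] X')) (sg n (vv ![s, s + 1, s + 2, a, b] Y')) := by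
  have hc := smono5 (show s < s + 1 by omega) (show s + 1 < s + 2 by omega) hsa hab
  exact edge_sub hS.can hc ι (hcc4 h0 h1 h2 h3) X' Y' hk h

theorem NI_cases (P : List ℕ × List ℕ → Prop) (h : ∃ w ∈ NI, P w) :
    P ([0,1,1,1,3], [0,2,4,4,4]) ∨ P ([0,1,1,1,3], [0,2,2,4,4]) ∨ P ([0,1,1,3,3], [0,2,4,4,4]) ∨
    P ([0,1,1,3,5], [0,2,4,6,6]) ∨ P ([0,1,1,3,5], [0,2,4,4,6]) ∨ P ([0,1,1,3,5], [0,2,4,4,4]) ∨
    P ([0,1,3,3,5], [0,2,4,6,6]) ∨ P ([0,1,3,5,5], [0,2,2,2,4]) ∨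
    P ([0,1,2,2,4], [0,1,3,5,5]) := by
  obtain ⟨w, hw, hP⟩ := h
  simp only [NI, List.mem_cons, List.not_mem_nil, or_false] at hw
  rcases hw with rfl | rfl | rfl | rfl | rfl | rfl | rfl | rfl | rfl
  · exact Or.inl hP
  · exact Or.inr (Or.inl hP)
  · exact Or.inr (Or.inr (Or.inl hP))
  · exact Or.inr (Or.inr (Or.inr (Or.inl hP)))
  · exact Or.inr (Or.inr (Or.inr (Or.inr (Or.inl hP))))
  · exact Or.inr (Or.inr (Or.inr (Or.inr (Or.inr (Or.inl hP)))))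
  · exact Or.inr (Or.inr (Or.inr (Or.inr (Or.inr (Or.inr (Or.inl hP))))))
  · exact Or.inr (Or.inr (Or.inr (Or.inr (Or.inr (Or.inr (Or.inr (Or.inl hP)))))))
  · exact Or.inr (Or.inr (Or.inr (Or.inr (Or.inr (Or.inr (Or.inr (Or.inr hP)))))))

/-- the colour of a pair -/
def PN (n : ℕ) (A : (ℕ → ℕ) → (ℕ → ℕ) → Prop) (s a b : ℕ) (k : Fin 4) : Prop :=
  (k = 0 ∧ Ed n A s (s + 1) a b [0,1,3,3,5] [0,2,4,6,6]) ∨
  (k = 1 ∧ Ed n A s (s + 1) a b [0,1,2,2,4] [0,1,3,5,5]) ∨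
  (k = 2 ∧ Ed n A s (s + 2) a b [0,1,3,3,5] [0,2,4,6,6]) ∨
  (k = 3 ∧ Ed n A s (s + 2) a b [0,1,2,2,4] [0,1,3,5,5])

theorem Sys.pairX (hS : Sys n A B) {s a b Q u : ℕ} (hsa : s + 2 < a) (hab : a < b) (hbn : b < n)
    (hQa : Md n A (s + 3) a Q) (hQb : Md n A (s + 3) b Q) (hu : Md n A b n u)
    (hTa : Ed n A s (s + 1) (s + 2) a [0,1,1,3,5] [0,2,4,4,6])
    (hTb : Ed n A s (s + 1) (s + 2) b [0,1,1,3,5] [0,2,4,4,6])
    (H1 : om n A B s < Q + Q + u) (H2 : om n A B s < om n A B (s + 2) + Q)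
    (H3 : om n A B s < om n A B (s + 1) + u) : ∃ k, PN n A s a b k := by
  have hs1 : (cx ![s, s + 1, s + 2, a, b] n 2) ≤ s + 3 := by
    show s + 2 ≤ s + 3; omega
  -- the pair `s, s+1`
  have hb01 := smono4 (show s < s + 1 by omega) (show s + 1 < a by omega) hab
  have hn01 := lt4 (show s < s + 1 by omega) (show s + 1 < a by omega) hab hbn
  have hb02 := smono4 (show s < s + 2 by omega) (show s + 2 < a by omega) hab
  have hn02 := lt4 (show s < s + 2 by omega) (show s + 2 < a by omega) hab hbn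
  have K1 : ∀ {X Y : List ℕ}, Chk 4 2 ![X, Y] ![3, 1] ![4, 4] 4 →
      Ed n A s (s + 1) a b X Y → False := by
    intro X Y hk hE
    have h := comb2 hS.can hb01 hn01 hk (p₁ := b) (p₂ := s + 1) (v₁ := n) (v₂ := n)
      le_rfl le_rfl rfl rfl hu (hS.om_spec (s + 1)) hE
    have := hS.le_om (c := s) h
    omega
  have h01 := NI_cases (fun w => Ed n A s (s + 1) a b w.1 w.2) (hS.hit _ hb01 hn01)
  have h02 := NI_cases (fun w => Ed n A s (s + 2) a b w.1 w.2) (hS.hit _ hb02 hn02)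
  -- the type `2` is the same for both
  have N0 : ∀ e, s < e → e < a → Ed n A s e a b [0,1,1,1,3] [0,2,2,4,4] →
      Ed n A s (s + 1) a b [0,1,1,1,3] [0,2,2,4,4] := by
    intro e he hea hE
    have h1 := smono4 (show s < e by omega) hea hab
    -- reduce to three cuts
    have h3 : StrictMono ![s, a, b] := by
      rw [Fin.strictMono_iff_lt_succ]
      intro i
      fin_cases i
      · show s < a; omega
      · exact hab
    refine edge_table hS.can (V := vv ![s, e, a, b] [0,1,1,1,3])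
      (W := vv ![s, e, a, b] [0,2,2,4,4]) ?_ ?_ ?_ ?_ ?_ hE
    · intro j j' hjj _
      exact (NI_pos ([0,1,1,1,3], [0,2,2,4,4]) (by decide)).2.2.2.1 _ (pc_le _ j) _ (pc_le _ j')
        (pc_mono _ hjj)
    · intro j j' hjj _
      exact (NI_pos ([0,1,1,1,3], [0,2,2,4,4]) (by decide)).2.2.2.2 _ (pc_le _ j) _ (pc_le _ j')
        (pc_mono _ hjj)
    · intro j j' hjj _
      exact (NI_pos ([0,1,1,1,3], [0,2,2,4,4]) (by decide)).2.2.2.1 _ (pc_le _ j) _ (pc_le _ j')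
        (pc_mono _ hjj)
    · intro j j' hjj _
      exact (NI_pos ([0,1,1,1,3], [0,2,2,4,4]) (by decide)).2.2.2.2 _ (pc_le _ j) _ (pc_le _ j')
        (pc_mono _ hjj)
    · intro j j' _ _
      have key : ∀ e, s < e → e < a → ∀ j,
          (vv ![s, e, a, b] [0,1,1,1,3] j = ([0,1,1,3] : List ℕ).getD (pc ![s, a, b] j) 0) ∧
          (vv ![s, e, a, b] [0,2,2,4,4] j = ([0,2,4,4] : List ℕ).getD (pc ![s, a, b] j) 0) := by
        intro e he hea j
        have h1 := smono4 (show s < e by omega) hea hab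
        have e1 := pc_sub h1 (![0, 2, 3] : Fin 3 → Fin 4) ![s, a, b]
          (by intro r; fin_cases r <;> rfl) j
        rw [e1]
        unfold vv
        have h5 := pc_le ![s, e, a, b] j
        generalize pc ![s, e, a, b] j = k at h5
        interval_cases k <;> decide
      rw [(key e he hea j).1, (key e he hea j').2, (key (s + 1) (by omega) (by omega) j).1,
        (key (s + 1) (by omega) (by omega) j').2]
      exact ⟨Iff.rfl, Iff.rfl⟩
  have K2 : Ed n A s (s + 1) a b [0,1,1,1,3] [0,2,2,4,4] → False := by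
    intro hE
    refine hS.kill hsa hab hbn H1 (X := [0,1,1,1,1,6]) (Y := [0,2,2,4,7,7])
      (Z := [0,3,5,5,8,8]) (ρ₁ := 4) (ρ₂ := 2) (ρ₃ := 2) (τ₁ := 5) (τ₂ := 3) (τ₃ := 3)
      (by decide +kernel) (p₁ := b) le_rfl hs1 hs1 rfl rfl rfl hu hQa hQa (by omega)
      (hS.e5 hsa hab ![0, 1, 3, 4] hE _ _ (by decide +kernel) rfl rfl rfl rfl)
      (hS.e5 hsa hab ![0, 1, 3, 4] hE _ _ (by decide +kernel) rfl rfl rfl rfl)
      (hS.e5 hsa hab ![0, 1, 2, 3] hTa _ _ (by decide +kernel) rfl rfl rfl rfl)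
  have K3 : Ed n A s (s + 1) a b [0,1,1,3,5] [0,2,4,6,6] → False := by
    intro hE
    refine hS.kill hsa hab hbn H1 (X := [0,1,1,3,7,9]) (Y := [0,2,4,6,10,10])
      (Z := [0,5,8,8,11,11]) (ρ₁ := 4) (ρ₂ := 2) (ρ₃ := 2) (τ₁ := 5) (τ₂ := 3) (τ₃ := 3)
      (by decide +kernel) (p₁ := b) le_rfl hs1 hs1 rfl rfl rfl hu hQa hQa (by omega)
      (hS.e5 hsa hab ![0, 1, 2, 3] hTa _ _ (by decide +kernel) rfl rfl rfl rfl)
      (hS.e5 hsa hab ![0, 1, 3, 4] hE _ _ (by decide +kernel) rfl rfl rfl rfl)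
      (hS.e5 hsa hab ![0, 1, 2, 3] hTa _ _ (by decide +kernel) rfl rfl rfl rfl)
  have K4 : Ed n A s (s + 1) a b [0,1,3,5,5] [0,2,2,2,4] → False := by
    intro hE
    refine hS.kill hsa hab hbn H1 (X := [0,1,6,6,9,9]) (Y := [0,2,2,4,4,7])
      (Z := [0,3,5,5,5,8]) (ρ₁ := 4) (ρ₂ := 2) (ρ₃ := 2) (τ₁ := 5) (τ₂ := 4) (τ₃ := 4)
      (by decide +kernel) (p₁ := b) le_rfl hs1 hs1 rfl rfl rfl hu hQb hQb (by omega)
      (hS.e5 hsa hab ![0, 1, 3, 4] hE _ _ (by decide +kernel) rfl rfl rfl rfl)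
      (hS.e5 hsa hab ![0, 1, 3, 4] hE _ _ (by decide +kernel) rfl rfl rfl rfl)
      (hS.e5 hsa hab ![0, 1, 2, 4] hTb _ _ (by decide +kernel) rfl rfl rfl rfl)
  have K5 : Ed n A s (s + 2) a b [0,1,1,3,5] [0,2,4,6,6] → False := by
    intro hE
    refine hS.kill hsa hab hbn H1 (X := [0,1,1,3,8,10]) (Y := [0,2,4,6,11,11])
      (Z := [0,5,7,9,12,12]) (ρ₁ := 4) (ρ₂ := 2) (ρ₃ := 2) (τ₁ := 5) (τ₂ := 3) (τ₃ := 3)
      (by decide +kernel) (p₁ := b) le_rfl hs1 hs1 rfl rfl rfl hu hQa hQa (by omega)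
      (hS.e5 hsa hab ![0, 1, 2, 3] hTa _ _ (by decide +kernel) rfl rfl rfl rfl)
      (hS.e5 hsa hab ![0, 2, 3, 4] hE _ _ (by decide +kernel) rfl rfl rfl rfl)
      (hS.e5 hsa hab ![0, 1, 2, 3] hTa _ _ (by decide +kernel) rfl rfl rfl rfl)
  have K6 : Ed n A s (s + 2) a b [0,1,3,5,5] [0,2,2,2,4] → False := by
    intro hE
    refine hS.kill hsa hab hbn H1 (X := [0,1,1,6,9,9]) (Y := [0,2,2,4,4,7])
      (Z := [0,3,5,5,5,8]) (ρ₁ := 4) (ρ₂ := 2) (ρ₃ := 2) (τ₁ := 5) (τ₂ := 4) (τ₃ := 4)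
      (by decide +kernel) (p₁ := b) le_rfl hs1 hs1 rfl rfl rfl hu hQb hQb (by omega)
      (hS.e5 hsa hab ![0, 2, 3, 4] hE _ _ (by decide +kernel) rfl rfl rfl rfl)
      (hS.e5 hsa hab ![0, 2, 3, 4] hE _ _ (by decide +kernel) rfl rfl rfl rfl)
      (hS.e5 hsa hab ![0, 1, 2, 4] hTb _ _ (by decide +kernel) rfl rfl rfl rfl)
  have K7 : Ed n A s (s + 1) a b [0,1,1,3,5] [0,2,4,4,6] →
      Ed n A s (s + 2) a b [0,1,1,3,5] [0,2,4,4,6] → False := by
    intro hE hE'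
    refine hS.kill hsa hab hbn H1 (X := [0,1,1,1,4,7]) (Y := [0,2,2,5,5,8])
      (Z := [0,3,6,6,6,9]) (ρ₁ := 4) (ρ₂ := 2) (ρ₃ := 2) (τ₁ := 5) (τ₂ := 4) (τ₃ := 4)
      (by decide +kernel) (p₁ := b) le_rfl hs1 hs1 rfl rfl rfl hu hQb hQb (by omega)
      (hS.e5 hsa hab ![0, 2, 3, 4] hE' _ _ (by decide +kernel) rfl rfl rfl rfl)
      (hS.e5 hsa hab ![0, 1, 3, 4] hE _ _ (by decide +kernel) rfl rfl rfl rfl)
      (hS.e5 hsa hab ![0, 1, 2, 4] hTb _ _ (by decide +kernel) rfl rfl rfl rfl)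
  have K8 : Ed n A s (s + 1) a b [0,1,1,3,5] [0,2,4,4,6] →
      Ed n A s (s + 2) a b [0,1,1,3,5] [0,2,4,4,4] → False := by
    intro hE hE'
    refine hS.kill hsa hab hbn H1 (X := [0,1,1,1,4,8]) (Y := [0,2,2,5,5,7])
      (Z := [0,3,6,6,6,9]) (ρ₁ := 4) (ρ₂ := 2) (ρ₃ := 2) (τ₁ := 5) (τ₂ := 4) (τ₃ := 4)
      (by decide +kernel) (p₁ := b) le_rfl hs1 hs1 rfl rfl rfl hu hQb hQb (by omega)
      (hS.e5 hsa hab ![0, 2, 3, 4] hE' _ _ (by decide +kernel) rfl rfl rfl rfl)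
      (hS.e5 hsa hab ![0, 1, 3, 4] hE _ _ (by decide +kernel) rfl rfl rfl rfl)
      (hS.e5 hsa hab ![0, 1, 2, 4] hTb _ _ (by decide +kernel) rfl rfl rfl rfl)
  rcases h01 with h | h | h | h | h | h | h | h | h
  · exact (K1 (by decide +kernel) h).elim
  · exact (K2 h).elim
  · exact (K1 (by decide +kernel) h).elim
  · exact (K3 h).elim
  · rcases h02 with h' | h' | h' | h' | h' | h' | h' | h' | h'
    · exfalso
      have h1 := comb2 hS.can hb02 hn02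
        (show Chk 4 2 ![[0,1,1,1,3], [0,2,4,4,4]] ![1, 1] ![3, 4] 4 by decide +kernel)
        (p₁ := s + 3) (p₂ := s + 2) (v₁ := b) (v₂ := n)
        (show s + 2 ≤ s + 3 by omega) le_rfl rfl rfl hQb (hS.om_spec (s + 2)) h'
      have := hS.le_om (c := s) h1
      omega
    · exact (K2 (N0 (s + 2) (by omega) (by omega) h')).elim
    · exfalso
      have h1 := comb2 hS.can hb02 hn02
        (show Chk 4 2 ![[0,1,1,3,3], [0,2,4,4,4]] ![1, 1] ![2, 4] 4 by decide +kernel)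
        (p₁ := s + 3) (p₂ := s + 2) (v₁ := a) (v₂ := n)
        (show s + 2 ≤ s + 3 by omega) le_rfl rfl rfl hQa (hS.om_spec (s + 2)) h'
      have := hS.le_om (c := s) h1
      omega
    · exact (K5 h').elim
    · exact (K7 h h').elim
    · exact (K8 h h').elim
    · exact ⟨2, Or.inr (Or.inr (Or.inl ⟨rfl, h'⟩))⟩
    · exact (K6 h').elim
    · exact ⟨3, Or.inr (Or.inr (Or.inr ⟨rfl, h'⟩))⟩
  · exact (K1 (by decide +kernel) h).elim
  · exact ⟨0, Or.inl ⟨rfl, h⟩⟩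
  · exact (K4 h).elim
  · exact ⟨1, Or.inr (Or.inl ⟨rfl, h⟩)⟩

/-- homogeneous triples -/
theorem Sys.tripX (hS : Sys n A B) {s e a₁ a b Q : ℕ} (hse : s < e) (hes : e ≤ s + 2)
    (hsa : s + 2 < a₁) (haa : a₁ < a) (hab : a < b) (hbn : b < n)
    (hQa₁ : Md n A (s + 3) a₁ Q) (hQa : Md n A (s + 3) a Q) (hQb : Md n A (s + 3) b Q)
    (H1 : om n A B s < Q + Q + Q) {w : List ℕ × List ℕ}
    (hw : w = ([0,1,3,3,5], [0,2,4,6,6]) ∨ w = ([0,1,2,2,4], [0,1,3,5,5]))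
    (h1 : Ed n A s e a b w.1 w.2) (h2 : Ed n A s e a₁ b w.1 w.2)
    (h3 : Ed n A s e a₁ a w.1 w.2) : False := by
  have hc := smono5 hse (show e < a₁ by omega) haa hab
  have hcn := lt5 hse (show e < a₁ by omega) haa hab hbn
  have hp : cx ![s, e, a₁, a, b] n 1 ≤ s + 3 := by
    show e ≤ s + 3; omega
  rcases hw with rfl | rfl
  · have e12 := edge_sub hS.can hc ![0, 1, 3, 4] (hcc4 rfl rfl rfl rfl) [0,1,4,4,4,7]
      [0,2,5,5,8,8] (by decide +kernel) h1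
    have e13 := edge_sub hS.can hc ![0, 1, 2, 4] (hcc4 rfl rfl rfl rfl) [0,1,4,4,4,7]
      [0,3,6,9,9,9] (by decide +kernel) h2
    have e23 := edge_sub hS.can hc ![0, 1, 2, 3] (hcc4 rfl rfl rfl rfl) [0,2,5,5,8,8]
      [0,3,6,9,9,9] (by decide +kernel) h3
    have h := comb3 hS.can hc hcn (show Chk 5 3 ![[0,1,4,4,4,7], [0,2,5,5,8,8], [0,3,6,9,9,9]]
      ![1, 1, 1] ![4, 3, 2] 5 by decide +kernel) hp hp hp rfl rfl rfl hQb hQa hQa₁ e12 e13 e23
    have := hS.le_om (c := s) h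
    omega
  · have e12 := edge_sub hS.can hc ![0, 1, 3, 4] (hcc4 rfl rfl rfl rfl) [0,1,2,2,2,5]
      [0,1,3,3,6,6] (by decide +kernel) h1
    have e13 := edge_sub hS.can hc ![0, 1, 2, 4] (hcc4 rfl rfl rfl rfl) [0,1,2,2,2,5]
      [0,1,4,7,7,7] (by decide +kernel) h2
    have e23 := edge_sub hS.can hc ![0, 1, 2, 3] (hcc4 rfl rfl rfl rfl) [0,1,3,3,6,6]
      [0,1,4,7,7,7] (by decide +kernel) h3
    have h := comb3 hS.can hc hcn (show Chk 5 3 ![[0,1,2,2,2,5], [0,1,3,3,6,6], [0,1,4,7,7,7]]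
      ![1, 1, 1] ![4, 3, 2] 5 by decide +kernel) hp hp hp rfl rfl rfl hQb hQa hQa₁ e12 e13 e23
    have := hS.le_om (c := s) h
    omega

/-- Ramsey property for triangles and four colours -/
def RP (D : ℕ) : Prop := ∀ col : ℕ → ℕ → Fin 4, ∃ a b c, 1 ≤ a ∧ a < b ∧ b < c ∧ c ≤ D ∧
  col a b = col a c ∧ col a b = col b c

/-- Lemma X -/
theorem Sys.lemX (hS : Sys n A B) {s D : ℕ} (hR : RP D) (hn : s + 3 * D < n)
    (H1 : om n A B s < (2 ^ D + 1) * om n A B (s + 3 * D))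
    (H2 : ∀ l < D, om n A B (s + 3 * l) <
      om n A B (s + 3 * l + 2) + 2 ^ (D - l - 1) * om n A B (s + 3 * D))
    (H3 : om n A B s < om n A B (s + 1) + om n A B (s + 3 * D)) : False := by
  have hD : 3 ≤ D := by
    obtain ⟨a, b, c, h1, h2, h3, h4, -⟩ := hR (fun _ _ => 0)
    omega
  set u := om n A B (s + 3 * D) with hu
  have hu1 : 1 ≤ u := hS.one_le_om _
  -- lower bounds
  have hlow : ∀ m ≤ D, 2 ^ (D - m) * u ≤ om n A B (s + 3 * m) := by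
    intro m hm
    have h := hS.F2_iter (s + 3 * m) (D - m) (by omega)
    rw [show s + 3 * m + 3 * (D - m) = s + 3 * D by omega] at h
    exact h
  -- synchronised modules
  have hsync : ∀ m ≤ D, ∀ d ≤ m, Md n A (s + 3 * (m - d)) (s + 3 * m)
      (2 ^ d * om n A B (s + 3 * m)) := by
    intro m hm d
    induction d with
    | zero =>
      intro _
      rw [pow_zero, one_mul, Nat.sub_zero]
      exact (hS.om_spec _).sync le_rfl
    | succ d ih =>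
      intro hd
      have h1 := ih (by omega)
      rw [show s + 3 * (m - d) = s + 3 * (m - (d + 1)) + 3 by omega] at h1
      have h2 := H2 (m - (d + 1)) (by omega)
      have h3 : 2 ^ (D - (m - (d + 1)) - 1) * u ≤ 2 ^ d * om n A B (s + 3 * m) := by
        rw [show D - (m - (d + 1)) - 1 = d + (D - m) by omega, pow_add, mul_assoc]
        exact Nat.mul_le_mul_left _ (hlow m hm)
      have h4 := hS.sync_step (p := s + 3 * (m - (d + 1))) (v := s + 3 * m) (by omega) (by omega)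
        h1 (by omega)
      rw [pow_succ, mul_assoc]
      have h5 : 2 ^ d * (2 * om n A B (s + 3 * m)) =
          2 ^ d * om n A B (s + 3 * m) + 2 ^ d * om n A B (s + 3 * m) := by ring
      rw [h5]
      exact h4
  set Q := 2 ^ (D - 1) * u with hQ
  have hQu : u ≤ Q := Nat.le_mul_of_pos_left _ (by positivity)
  have h2Q : (2 ^ D + 1) * u = Q + Q + u := by
    have h : 2 ^ D = 2 ^ (D - 1) * 2 := by
      rw [← pow_succ]
      congr 1
      omega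
    rw [h, hQ]
    ring
  rw [h2Q] at H1
  have hQm : ∀ m, 1 ≤ m → m ≤ D → Md n A (s + 3) (s + 3 * m) Q := by
    intro m hm1 hm
    have h1 := hsync m hm (m - 1) (by omega)
    rw [show s + 3 * (m - (m - 1)) = s + 3 by omega] at h1
    refine h1.mono_m ?_
    have h2 : 2 ^ (D - 1) * u = 2 ^ (m - 1) * (2 ^ (D - m) * u) := by
      rw [← mul_assoc, ← pow_add]
      congr 2
      omega
    rw [hQ, h2]
    exact Nat.mul_le_mul_left _ (hlow m hm)
  have hum : ∀ m ≤ D, Md n A (s + 3 * m) n u := fun m hm =>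
    (hS.om_spec (s + 3 * m)).mono_m (hS.om_anti (by omega))
  have H2' : om n A B s < om n A B (s + 2) + Q := by
    have := H2 0 (by omega)
    simpa [hQ] using this
  have hT : ∀ m, 1 ≤ m → m ≤ D →
      Ed n A s (s + 1) (s + 2) (s + 3 * m) [0,1,1,3,5] [0,2,4,4,6] := fun m hm1 hm =>
    hS.force (p := s) (v := s + 3 * m) (by omega) (by omega) (hQm m hm1 hm) H2'
  have hcol : ∀ a b, ∃ k : Fin 4, 1 ≤ a → a < b → b ≤ D → PN n A s (s + 3 * a) (s + 3 * b) k := by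
    intro a b
    by_cases h : 1 ≤ a ∧ a < b ∧ b ≤ D
    · obtain ⟨h1, h2, h3⟩ := h
      obtain ⟨k, hk⟩ := hS.pairX (s := s) (a := s + 3 * a) (b := s + 3 * b) (by omega) (by omega)
        (by omega) (hQm a h1 (by omega)) (hQm b (by omega) h3) (hum b h3) (hT a h1 (by omega))
        (hT b (by omega) h3) H1 H2' H3
      exact ⟨k, fun _ _ _ => hk⟩
    · exact ⟨0, fun h1 h2 h3 => absurd ⟨h1, h2, h3⟩ h⟩
  choose col hcol using hcol
  obtain ⟨a, b, c, h1, h2, h3, h4, h5, h6⟩ := hR col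
  have pab := hcol a b h1 h2 (by omega)
  have pac := hcol a c h1 (by omega) h4
  have pbc := hcol b c (by omega) h3 h4
  rw [← h5] at pac
  rw [← h6] at pbc
  generalize col a b = k at pab pac pbc
  have hQ1 : om n A B s < Q + Q + Q := by omega
  unfold PN at pab pac pbc
  have hq1 := hQm a h1 (by omega)
  have hq2 := hQm b (by omega) (by omega)
  have hq3 := hQm c (by omega) (by omega)
  fin_cases k
  · simp only [Fin.zero_eta, true_and, Fin.isValue] at pab pac pbc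
    have x1 := pab.resolve_right (by rintro (⟨h, -⟩ | ⟨h, -⟩ | ⟨h, -⟩) <;> revert h <;> decide)
    have x2 := pac.resolve_right (by rintro (⟨h, -⟩ | ⟨h, -⟩ | ⟨h, -⟩) <;> revert h <;> decide)
    have x3 := pbc.resolve_right (by rintro (⟨h, -⟩ | ⟨h, -⟩ | ⟨h, -⟩) <;> revert h <;> decide)
    exact hS.tripX (s := s) (e := s + 1) (by omega) (by omega) (by omega) (by omega) (by omega)
      (by omega) hq1 hq2 hq3 hQ1 (Or.inl rfl) x3 x2 x1
  · rcases pab with ⟨h, -⟩ | ⟨-, x1⟩ | ⟨h, -⟩ | ⟨h, -⟩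
    · exact absurd h (by decide)
    · rcases pac with ⟨h, -⟩ | ⟨-, x2⟩ | ⟨h, -⟩ | ⟨h, -⟩
      · exact absurd h (by decide)
      · rcases pbc with ⟨h, -⟩ | ⟨-, x3⟩ | ⟨h, -⟩ | ⟨h, -⟩
        · exact absurd h (by decide)
        · exact hS.tripX (s := s) (e := s + 1) (by omega) (by omega) (by omega) (by omega)
            (by omega) (by omega) hq1 hq2 hq3 hQ1 (Or.inr rfl) x3 x2 x1
        · exact absurd h (by decide)
        · exact absurd h (by decide)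
      · exact absurd h (by decide)
      · exact absurd h (by decide)
    · exact absurd h (by decide)
    · exact absurd h (by decide)
  · rcases pab with ⟨h, -⟩ | ⟨h, -⟩ | ⟨-, x1⟩ | ⟨h, -⟩
    · exact absurd h (by decide)
    · exact absurd h (by decide)
    · rcases pac with ⟨h, -⟩ | ⟨h, -⟩ | ⟨-, x2⟩ | ⟨h, -⟩
      · exact absurd h (by decide)
      · exact absurd h (by decide)
      · rcases pbc with ⟨h, -⟩ | ⟨h, -⟩ | ⟨-, x3⟩ | ⟨h, -⟩
        · exact absurd h (by decide)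
        · exact absurd h (by decide)
        · exact hS.tripX (s := s) (e := s + 2) (by omega) (by omega) (by omega) (by omega)
            (by omega) (by omega) hq1 hq2 hq3 hQ1 (Or.inl rfl) x3 x2 x1
        · exact absurd h (by decide)
      · exact absurd h (by decide)
    · exact absurd h (by decide)
  · rcases pab with ⟨h, -⟩ | ⟨h, -⟩ | ⟨h, -⟩ | ⟨-, x1⟩
    · exact absurd h (by decide)
    · exact absurd h (by decide)
    · exact absurd h (by decide)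
    · rcases pac with ⟨h, -⟩ | ⟨h, -⟩ | ⟨h, -⟩ | ⟨-, x2⟩
      · exact absurd h (by decide)
      · exact absurd h (by decide)
      · exact absurd h (by decide)
      · rcases pbc with ⟨h, -⟩ | ⟨h, -⟩ | ⟨h, -⟩ | ⟨-, x3⟩
        · exact absurd h (by decide)
        · exact absurd h (by decide)
        · exact absurd h (by decide)
        · exact hS.tripX (s := s) (e := s + 2) (by omega) (by omega) (by omega) (by omega)
            (by omega) (by omega) hq1 hq2 hq3 hQ1 (Or.inr rfl) x3 x2 x1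

end Pool.Agent.Y583.Fkn
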