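import Pool.Agent.Y583.FknA5

/-!
The window argument: a system on `3J+1` with bound `2^J` does not exist for large `J`.
-/

namespace Pool.Agent.Y583.Fkn

variable {A : (ℕ → ℕ) → (ℕ → ℕ) → Prop} {J : ℕ}

theorem Sys.Zeq (hS : Sys (3 * J + 1) A (2 ^ J)) {m : ℕ} (hm : m ≤ J) :
    om (3 * J + 1) A (2 ^ J) (3 * m) = 2 ^ (J - m) := by
  apply le_antisymm
  · have h1 := hS.F2_iter 0 m (by omega)
    rw [Nat.zero_add] at h1
    have h2 := om_zero (3 * J + 1) A (2 ^ J)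
    have h3 : 2 ^ m * om (3 * J + 1) A (2 ^ J) (3 * m) ≤ 2 ^ m * 2 ^ (J - m) := by
      rw [← pow_add, show m + (J - m) = J by omega]
      omega
    exact Nat.le_of_mul_le_mul_left h3 (by positivity)
  · have h1 := hS.F2_iter (3 * m) (J - m) (by omega)
    have h2 := hS.one_le_om (3 * m + 3 * (J - m))
    calc 2 ^ (J - m) = 2 ^ (J - m) * 1 := by ring
      _ ≤ 2 ^ (J - m) * om (3 * J + 1) A (2 ^ J) (3 * m + 3 * (J - m)) :=
        Nat.mul_le_mul_left _ h2
      _ ≤ _ := h1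

/-- exactness propagates -/
theorem Sys.exact (hS : Sys (3 * J + 1) A (2 ^ J)) {e m m' : ℕ} (he : e ≤ 3)
    (h : om (3 * J + 1) A (2 ^ J) (3 * m + e) ≤ 2 ^ (J - m - 1)) (hmm : m ≤ m')
    (hm' : m' + 1 ≤ J) (hlt : 3 * m' + e < 3 * J + 1) :
    om (3 * J + 1) A (2 ^ J) (3 * m' + e) = 2 ^ (J - m' - 1) := by
  apply le_antisymm
  · have h1 := hS.F2_iter (3 * m + e) (m' - m) (by omega)
    rw [show 3 * m + e + 3 * (m' - m) = 3 * m' + e by omega] at h1
    have h3 : 2 ^ (m' - m) * om (3 * J + 1) A (2 ^ J) (3 * m' + e) ≤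
        2 ^ (m' - m) * 2 ^ (J - m' - 1) := by
      rw [← pow_add, show m' - m + (J - m' - 1) = J - m - 1 by omega]
      omega
    exact Nat.le_of_mul_le_mul_left h3 (by positivity)
  · have h1 := hS.Zeq (m := m' + 1) hm'
    have h2 := hS.om_anti (show 3 * m' + e ≤ 3 * (m' + 1) by omega)
    rw [h1] at h2
    rw [show J - m' - 1 = J - (m' + 1) by omega]
    exact h2

theorem Sys.noB (hS : Sys (3 * J + 1) A (2 ^ J)) {D : ℕ} (hR : RP D) {m : ℕ}
    (hm : m + D + 1 ≤ J) (h : om (3 * J + 1) A (2 ^ J) (3 * m + 1) ≤ 2 ^ (J - m - 1)) : False := by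
  have hD : 3 ≤ D := by
    obtain ⟨a, b, c, h1, h2, h3, h4, -⟩ := hR (fun _ _ => 0)
    omega
  have hb : ∀ m', m ≤ m' → m' + 1 ≤ J →
      om (3 * J + 1) A (2 ^ J) (3 * m' + 1) = 2 ^ (J - m' - 1) := fun m' h1 h2 =>
    hS.exact (by omega) h h1 h2 (by omega)
  have h0 := hb m le_rfl (by omega)
  have h1 := hb (m + D) (by omega) (by omega)
  rw [show 3 * (m + D) + 1 = 3 * m + 1 + 3 * D by ring] at h1
  have hpos : 0 < 2 ^ (J - (m + D) - 1) := by positivity
  have e1 : 2 ^ (J - m - 1) = 2 ^ D * 2 ^ (J - (m + D) - 1) := by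
    rw [← pow_add]; congr 1; omega
  refine hS.lemX (s := 3 * m + 1) hR (by omega) ?_ ?_ ?_
  · rw [h0, h1, e1, add_mul, one_mul]
    omega
  · intro l hl
    have h2 := hb (m + l) (by omega) (by omega)
    rw [show 3 * (m + l) + 1 = 3 * m + 1 + 3 * l by ring] at h2
    have h3 := hS.Zeq (m := m + l + 1) (by omega)
    rw [show 3 * (m + l + 1) = 3 * m + 1 + 3 * l + 2 by ring] at h3
    rw [h2, h3, h1, show J - (m + l) - 1 = J - (m + l + 1) by omega]
    have : 0 < 2 ^ (D - l - 1) * 2 ^ (J - (m + D) - 1) := by positivity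
    omega
  · have h2 : 2 ^ (J - m - 1) ≤ om (3 * J + 1) A (2 ^ J) (3 * m + 1 + 1) := by
      have h3 := hS.Zeq (m := m + 1) (by omega)
      have h4 := hS.om_anti (show 3 * m + 1 + 1 ≤ 3 * (m + 1) by omega)
      rw [h3] at h4
      rw [show J - m - 1 = J - (m + 1) by omega]
      exact h4
    rw [h0, h1]
    omega

theorem Sys.noA (hS : Sys (3 * J + 1) A (2 ^ J)) {D : ℕ} (hR : RP D) {m : ℕ}
    (hm : m + 2 * D + 2 ≤ J) (h : om (3 * J + 1) A (2 ^ J) (3 * m + 2) ≤ 2 ^ (J - m - 1)) :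
    False := by
  have ha : ∀ m', m ≤ m' → m' + 1 ≤ J →
      om (3 * J + 1) A (2 ^ J) (3 * m' + 2) = 2 ^ (J - m' - 1) := fun m' h1 h2 =>
    hS.exact (by omega) h h1 h2 (by omega)
  have h0 := ha m le_rfl (by omega)
  have h1 := ha (m + D) (by omega) (by omega)
  rw [show 3 * (m + D) + 2 = 3 * m + 2 + 3 * D by ring] at h1
  have hpos : 0 < 2 ^ (J - (m + D) - 1) := by positivity
  have e1 : 2 ^ (J - m - 1) = 2 ^ D * 2 ^ (J - (m + D) - 1) := by
    rw [← pow_add]; congr 1; omega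
  refine hS.lemX (s := 3 * m + 2) hR (by omega) ?_ ?_ ?_
  · rw [h0, h1, e1, add_mul, one_mul]
    omega
  · intro l hl
    have h2 := ha (m + l) (by omega) (by omega)
    rw [show 3 * (m + l) + 2 = 3 * m + 2 + 3 * l by ring] at h2
    have h3 : 2 ^ (J - (m + l + 1) - 1) < om (3 * J + 1) A (2 ^ J) (3 * (m + l + 1) + 1) := by
      by_contra hcon
      exact hS.noB hR (m := m + l + 1) (by omega) (not_lt.mp hcon)
    rw [show 3 * (m + l + 1) + 1 = 3 * m + 2 + 3 * l + 2 by ring] at h3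
    rw [h2, h1, ← pow_add, show D - l - 1 + (J - (m + D) - 1) = J - (m + l + 1) - 1 by omega]
    have e2 : 2 ^ (J - (m + l) - 1) = 2 ^ (J - (m + l + 1) - 1) + 2 ^ (J - (m + l + 1) - 1) := by
      rw [← two_mul, ← pow_succ']
      congr 1
      omega
    omega
  · have h2 := hS.Zeq (m := m + 1) (by omega)
    rw [show 3 * (m + 1) = 3 * m + 2 + 1 by ring] at h2
    rw [h0, h1, h2, show J - m - 1 = J - (m + 1) by omega]
    omega

theorem Sys.noSys (hS : Sys (3 * J + 1) A (2 ^ J)) {D : ℕ} (hR : RP D)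
    (hJ : (2 ^ (D + 3) + 1) * (D + 1) + 3 * D + 5 ≤ J) : False := by
  have hD : 3 ≤ D := by
    obtain ⟨a, b, c, h1, h2, h3, h4, -⟩ := hR (fun _ _ => 0)
    omega
  set a : ℕ → ℕ := fun m => om (3 * J + 1) A (2 ^ J) (3 * m + 2) with hadef
  set b : ℕ → ℕ := fun m => om (3 * J + 1) A (2 ^ J) (3 * m + 1) with hbdef
  have hapos : ∀ m, m + 2 * D + 2 ≤ J → 2 ^ (J - m - 1) < a m := by
    intro m hm
    by_contra hcon
    exact hS.noA hR hm (not_lt.mp hcon)
  have hbpos : ∀ m, m + 1 ≤ J → 2 ^ (J - m - 1) ≤ b m := by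
    intro m hm
    have h1 := hS.Zeq (m := m + 1) hm
    have h2 := hS.om_anti (show 3 * m + 1 ≤ 3 * (m + 1) by omega)
    rw [h1] at h2
    rw [show J - m - 1 = J - (m + 1) by omega]
    exact h2
  have haZ : ∀ m, m ≤ J → a m ≤ 2 ^ (J - m) := by
    intro m hm
    have h1 := hS.Zeq (m := m) hm
    have h2 := hS.om_anti (show 3 * m ≤ 3 * m + 2 by omega)
    rw [h1] at h2
    exact h2
  have hbZ : ∀ m, m ≤ J → b m ≤ 2 ^ (J - m) := by
    intro m hm
    have h1 := hS.Zeq (m := m) hm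
    have h2 := hS.om_anti (show 3 * m ≤ 3 * m + 1 by omega)
    rw [h1] at h2
    exact h2
  have ha2 : ∀ m, m + 2 ≤ J → 2 * a (m + 1) ≤ a m := by
    intro m hm
    have := hS.F2 (c := 3 * m + 2) (by omega)
    rw [show 3 * m + 2 + 3 = 3 * (m + 1) + 2 by ring] at this
    exact this
  have hb2 : ∀ m, m + 2 ≤ J → 2 * b (m + 1) ≤ b m := by
    intro m hm
    have := hS.F2 (c := 3 * m + 1) (by omega)
    rw [show 3 * m + 1 + 3 = 3 * (m + 1) + 1 by ring] at this
    exact this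
  -- Lemma Y
  have hY : ∀ m, m + 1 + 2 * D + 2 ≤ J → b (m + 1) + a (m + 1) ≤ a m := by
    intro m hm
    by_contra hcon
    have h1 := hS.lemY (c := 3 * m) (by omega) (by
      rw [show 3 * m + 4 = 3 * (m + 1) + 1 by ring, show 3 * m + 5 = 3 * (m + 1) + 2 by ring]
      exact not_le.mp hcon)
    rw [show 3 * m + 5 = 3 * (m + 1) + 2 by ring, hS.Zeq (m := m) (by omega)] at h1
    have h2 := hapos (m + 1) (by omega)
    have e2 : 2 ^ (J - m) = 4 * 2 ^ (J - (m + 1) - 1) := by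
      rw [show (4 : ℕ) = 2 ^ 2 by norm_num, ← pow_add]
      congr 1
      omega
    have h3 : 4 * a (m + 1) ≤ 2 ^ (J - m) := h1
    omega
  -- Lemma X at `3m`
  have hX : ∀ m, m + 3 * D + 2 ≤ J → b m + 2 ^ (J - m - D) ≤ 2 ^ (J - m) := by
    intro m hm
    by_contra hcon
    have h0 := hS.Zeq (m := m) (by omega)
    have h1 := hS.Zeq (m := m + D) (by omega)
    rw [show 3 * (m + D) = 3 * m + 3 * D by ring] at h1
    have hpos : 0 < 2 ^ (J - (m + D)) := by positivity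
    have e1 : 2 ^ (J - m) = 2 ^ D * 2 ^ (J - (m + D)) := by
      rw [← pow_add]; congr 1; omega
    refine hS.lemX (s := 3 * m) hR (by omega) ?_ ?_ ?_
    · rw [h0, h1, e1, add_mul, one_mul]
      omega
    · intro l hl
      have h2 := hS.Zeq (m := m + l) (by omega)
      rw [show 3 * (m + l) = 3 * m + 3 * l by ring] at h2
      have h3 := hapos (m + l) (by omega)
      have h3' : 2 ^ (J - (m + l) - 1) < om (3 * J + 1) A (2 ^ J) (3 * m + 3 * l + 2) := by
        rw [show 3 * m + 3 * l + 2 = 3 * (m + l) + 2 by ring]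
        exact h3
      rw [h2, h1, ← pow_add, show D - l - 1 + (J - (m + D)) = J - (m + l) - 1 by omega]
      have e2 : 2 ^ (J - (m + l)) = 2 ^ (J - (m + l) - 1) + 2 ^ (J - (m + l) - 1) := by
        rw [← two_mul, ← pow_succ']
        congr 1
        omega
      omega
    · rw [h0, h1, show J - (m + D) = J - m - D by omega]
      exact not_le.mp hcon
  -- scaled quantities
  set α : ℕ → ℕ := fun m => a m * 2 ^ m with hα
  set β : ℕ → ℕ := fun m => b m * 2 ^ m with hβ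
  have hαm : ∀ m, m + 2 ≤ J → α (m + 1) ≤ α m := by
    intro m hm
    show a (m + 1) * 2 ^ (m + 1) ≤ a m * 2 ^ m
    calc a (m + 1) * 2 ^ (m + 1) = 2 * a (m + 1) * 2 ^ m := by ring
      _ ≤ a m * 2 ^ m := Nat.mul_le_mul_right _ (ha2 m hm)
  have hβm : ∀ m, m + 2 ≤ J → β (m + 1) ≤ β m := by
    intro m hm
    show b (m + 1) * 2 ^ (m + 1) ≤ b m * 2 ^ m
    calc b (m + 1) * 2 ^ (m + 1) = 2 * b (m + 1) * 2 ^ m := by ring
      _ ≤ b m * 2 ^ m := Nat.mul_le_mul_right _ (hb2 m hm)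
  have hαmono : ∀ m m', m ≤ m' → m' + 1 ≤ J → α m' ≤ α m := by
    intro m m' hmm
    induction hmm with
    | refl => intro _; exact le_rfl
    | @step k hk ih => intro h; exact le_trans (hαm k (by omega)) (ih (by omega))
  have hβmono : ∀ m m', m ≤ m' → m' + 1 ≤ J → β m' ≤ β m := by
    intro m m' hmm
    induction hmm with
    | refl => intro _; exact le_rfl
    | @step k hk ih => intro h; exact le_trans (hβm k (by omega)) (ih (by omega))
  have hpowJ : ∀ m, m ≤ J → 2 ^ (J - m) * 2 ^ m = 2 ^ J := by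
    intro m hm
    rw [← pow_add]; congr 1; omega
  -- the window
  obtain ⟨i, hi, hwin⟩ : ∃ i, i < 2 ^ (D + 3) + 1 ∧
      α (i * (D + 1)) + β (i * (D + 1)) <
        α ((i + 1) * (D + 1)) + β ((i + 1) * (D + 1)) + 2 ^ (J - D - 2) := by
    by_contra hcon
    push Not at hcon
    have hsum : ∀ W, W ≤ 2 ^ (D + 3) + 1 →
        α (W * (D + 1)) + β (W * (D + 1)) + W * 2 ^ (J - D - 2) ≤ α 0 + β 0 := by
      intro W
      induction W with
      | zero => intro _; simp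
      | succ W ih =>
        intro hW
        have h1 := ih (by omega)
        have h2 := hcon W (by omega)
        rw [add_mul W 1 (2 ^ (J - D - 2)), one_mul]
        omega
    have h1 := hsum _ le_rfl
    have h2 : α 0 ≤ 2 ^ J := by
      have := haZ 0 (by omega)
      simpa [hα] using this
    have h3 : β 0 ≤ 2 ^ J := by
      have := hbZ 0 (by omega)
      simpa [hβ] using this
    have h4 : (2 ^ (D + 3) + 1) * 2 ^ (J - D - 2) = 2 ^ J + 2 ^ J + 2 ^ (J - D - 2) := by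
      rw [add_mul, one_mul, ← pow_add, show D + 3 + (J - D - 2) = J + 1 by omega, pow_succ]
      ring
    have h5 : 0 < 2 ^ (J - D - 2) := by positivity
    omega
  have hiJ : (i + 1) * (D + 1) ≤ (2 ^ (D + 3) + 1) * (D + 1) :=
    Nat.mul_le_mul_right _ (by omega)
  have hi1 : (i + 1) * (D + 1) = i * (D + 1) + D + 1 := by ring
  obtain ⟨m, hm⟩ : ∃ m, m = i * (D + 1) := ⟨_, rfl⟩
  rw [hi1, ← hm] at hwin hiJ
  -- now the window is `m, m+1, ..., m+1+D`
  have g1 := hαmono m (m + 1) (by omega) (by omega)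
  have g2 := hαmono (m + 1) (m + D + 1) (by omega) (by omega)
  have g3 := hβmono m (m + 1) (by omega) (by omega)
  have g4 := hβmono (m + 1) (m + D + 1) (by omega) (by omega)
  have y1 := hY m (by omega)
  have x1 := hX (m + 1) (by omega)
  have y2 : β (m + 1) + α (m + 1) ≤ 2 * α m := by
    show b (m + 1) * 2 ^ (m + 1) + a (m + 1) * 2 ^ (m + 1) ≤ 2 * (a m * 2 ^ m)
    calc b (m + 1) * 2 ^ (m + 1) + a (m + 1) * 2 ^ (m + 1) =
        (b (m + 1) + a (m + 1)) * 2 ^ (m + 1) := by ring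
      _ ≤ a m * 2 ^ (m + 1) := Nat.mul_le_mul_right _ y1
      _ = 2 * (a m * 2 ^ m) := by ring
  have x2 : β (m + 1) + 2 ^ (J - D) ≤ 2 ^ J := by
    have h1 : (b (m + 1) + 2 ^ (J - (m + 1) - D)) * 2 ^ (m + 1) ≤
        2 ^ (J - (m + 1)) * 2 ^ (m + 1) := Nat.mul_le_mul_right _ x1
    rw [hpowJ (m + 1) (by omega), add_mul, ← pow_add,
      show J - (m + 1) - D + (m + 1) = J - D by omega] at h1
    exact h1
  have bl : 2 ^ (J - D - 1) ≤ b (m + 1 + D) * 2 ^ (m + 1) := by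
    have h1 := hbpos (m + 1 + D) (by omega)
    calc 2 ^ (J - D - 1) = 2 ^ (J - (m + 1 + D) - 1) * 2 ^ (m + 1) := by
          rw [← pow_add]; congr 1; omega
      _ ≤ _ := Nat.mul_le_mul_right _ h1
  have e3 : 2 ^ (J - D - 1) = 2 ^ (J - D - 2) + 2 ^ (J - D - 2) := by
    rw [← two_mul, ← pow_succ']; congr 1; omega
  have e4 : 2 ^ (J - D) = 2 ^ (J - D - 1) + 2 ^ (J - D - 1) := by
    rw [← two_mul, ← pow_succ']; congr 1; omega
  have hε : 0 < 2 ^ (J - D - 2) := by positivity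
  have hβD : β (m + D + 1) = 2 ^ D * (b (m + 1 + D) * 2 ^ (m + 1)) := by
    show b (m + D + 1) * 2 ^ (m + D + 1) = _
    rw [show m + D + 1 = m + 1 + D by ring, pow_add 2 (m + 1) D]
    ring
  refine hS.lemX (s := 3 * (m + 1) + 1) hR (by omega) ?_ ?_ ?_
  · rw [show 3 * (m + 1) + 1 + 3 * D = 3 * (m + 1 + D) + 1 by ring]
    show b (m + 1) < (2 ^ D + 1) * b (m + 1 + D)
    refine Nat.lt_of_mul_lt_mul_right (a := 2 ^ (m + 1)) ?_
    show β (m + 1) < _
    have e5 : (2 ^ D + 1) * b (m + 1 + D) * 2 ^ (m + 1) =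
        β (m + D + 1) + b (m + 1 + D) * 2 ^ (m + 1) := by
      rw [hβD]; ring
    rw [e5]
    omega
  · intro l hl
    have h2 := hS.Zeq (m := m + 1 + l + 1) (by omega)
    rw [show 3 * (m + 1 + l + 1) = 3 * (m + 1) + 1 + 3 * l + 2 by ring] at h2
    rw [h2, show 3 * (m + 1) + 1 + 3 * D = 3 * (m + 1 + D) + 1 by ring,
      show 3 * (m + 1) + 1 + 3 * l = 3 * (m + 1 + l) + 1 by ring]
    show b (m + 1 + l) < 2 ^ (J - (m + 1 + l + 1)) + 2 ^ (D - l - 1) * b (m + 1 + D)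
    refine Nat.lt_of_mul_lt_mul_right (a := 2 ^ (m + 1 + l + 1)) ?_
    have e6 : b (m + 1 + l) * 2 ^ (m + 1 + l + 1) = 2 * β (m + 1 + l) := by
      show b (m + 1 + l) * 2 ^ (m + 1 + l + 1) = 2 * (b (m + 1 + l) * 2 ^ (m + 1 + l))
      ring
    have e7 : (2 ^ (J - (m + 1 + l + 1)) + 2 ^ (D - l - 1) * b (m + 1 + D)) *
        2 ^ (m + 1 + l + 1) = 2 ^ J + β (m + D + 1) := by
      rw [add_mul, hpowJ _ (by omega), hβD]
      have e8 : 2 ^ D = 2 ^ (D - l - 1) * 2 ^ (l + 1) := by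
        rw [← pow_add]; congr 1; omega
      rw [e8]
      ring
    rw [e6, e7]
    have g5 := hβmono (m + 1) (m + 1 + l) (by omega) (by omega)
    omega
  · rw [show 3 * (m + 1) + 1 + 3 * D = 3 * (m + 1 + D) + 1 by ring]
    show b (m + 1) < a (m + 1) + b (m + 1 + D)
    refine Nat.lt_of_mul_lt_mul_right (a := 2 ^ (m + 1)) ?_
    show β (m + 1) < _
    have e9 : (a (m + 1) + b (m + 1 + D)) * 2 ^ (m + 1) =
        α (m + 1) + b (m + 1 + D) * 2 ^ (m + 1) := by
      show _ = a (m + 1) * 2 ^ (m + 1) + _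
      ring
    rw [e9]
    omega

end Pool.Agent.Y583.Fkn
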