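import Pool.Agent.Y583.FknA6

/-!
`ω^(3J+1) → (ω^4, 2^J+1)²` for a suitable `J`, and supermultiplicativity.
-/

namespace Pool.Agent.Y583.Fkn

theorem ramsey_tri : ∀ q : ℕ, ∃ N : ℕ, ∀ C : Finset (Fin 4), C.card ≤ q → ∀ S : Finset ℕ,
    N ≤ S.card → ∀ col : ℕ → ℕ → Fin 4, (∀ a ∈ S, ∀ b ∈ S, a < b → col a b ∈ C) →
    ∃ a ∈ S, ∃ b ∈ S, ∃ c ∈ S, a < b ∧ b < c ∧ col a b = col a c ∧ col a b = col b c := by
  intro q
  induction q with
  | zero =>
    refine ⟨2, ?_⟩
    intro C hC S hS col hcol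
    exfalso
    obtain ⟨x, hx, y, hy, hxy⟩ := Finset.one_lt_card.mp (show 1 < S.card by omega)
    have hC0 : C = ∅ := Finset.card_eq_zero.mp (by omega)
    subst hC0
    rcases lt_or_gt_of_ne hxy with h | h
    · exact absurd (hcol x hx y hy h) (Finset.notMem_empty _)
    · exact absurd (hcol y hy x hx h) (Finset.notMem_empty _)
  | succ q ih =>
    obtain ⟨N, hN⟩ := ih
    refine ⟨4 * N + 2, ?_⟩
    intro C hC S hS col hcol
    have hne : S.Nonempty := Finset.card_pos.mp (by omega)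
    set v := S.min' hne with hv
    have hvS : v ∈ S := S.min'_mem hne
    have hcard : (S.erase v).card = S.card - 1 := Finset.card_erase_of_mem hvS
    have hvlt : ∀ b ∈ S.erase v, v < b := by
      intro b hb
      rw [Finset.mem_erase] at hb
      exact lt_of_le_of_ne (S.min'_le b hb.2) (Ne.symm hb.1)
    obtain ⟨κ, -, hκ⟩ := Finset.exists_lt_card_fiber_of_mul_lt_card_of_maps_to
      (s := S.erase v) (t := Finset.univ) (f := fun b => col v b) (n := N)
      (fun _ _ => Finset.mem_univ _) (by rw [Finset.card_univ, Fintype.card_fin]; omega)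
    set T := (S.erase v).filter (fun b => col v b = κ) with hT
    have hTS : ∀ b ∈ T, b ∈ S ∧ v < b ∧ col v b = κ := by
      intro b hb
      rw [hT, Finset.mem_filter] at hb
      exact ⟨Finset.mem_of_mem_erase hb.1, hvlt b hb.1, hb.2⟩
    by_cases hex : ∃ a ∈ T, ∃ b ∈ T, a < b ∧ col a b = κ
    · obtain ⟨a, ha, b, hb, hab, hcab⟩ := hex
      obtain ⟨ha1, ha2, ha3⟩ := hTS a ha
      obtain ⟨hb1, hb2, hb3⟩ := hTS b hb
      exact ⟨v, hvS, a, ha1, b, hb1, ha2, hab, by rw [ha3, hb3], by rw [ha3, hcab]⟩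
    · push Not at hex
      have hκC : κ ∈ C := by
        obtain ⟨b, hb⟩ := Finset.card_pos.mp (show 0 < T.card by omega)
        obtain ⟨hb1, hb2, hb3⟩ := hTS b hb
        rw [← hb3]
        exact hcol v hvS b hb1 hb2
      obtain ⟨a, ha, b, hb, c, hc, h1, h2, h3, h4⟩ := hN (C.erase κ)
        (by rw [Finset.card_erase_of_mem hκC]; omega) T (by omega) col (by
          intro a ha b hb hab
          rw [Finset.mem_erase]
          exact ⟨hex a ha b hb hab, hcol a (hTS a ha).1 b (hTS b hb).1 hab⟩)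
      exact ⟨a, (hTS a ha).1, b, (hTS b hb).1, c, (hTS c hc).1, h1, h2, h3, h4⟩

theorem exists_RP : ∃ D, RP D := by
  obtain ⟨N, hN⟩ := ramsey_tri 4
  refine ⟨N, ?_⟩
  intro col
  obtain ⟨a, ha, b, hb, c, hc, h1, h2, h3, h4⟩ := hN Finset.univ (by simp) (Finset.Icc 1 N)
    (by simp) col (fun _ _ _ _ _ => Finset.mem_univ _)
  rw [Finset.mem_Icc] at ha hc
  exact ⟨a, b, c, ha.1, h1, h2, hc.2, h3, h4⟩

/-- the canonical relation of a graph -/
def AG {n : ℕ} (G : SimpleGraph (N n)) (H : ℕ → ℕ) (x y : ℕ → ℕ) : Prop :=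
  G.Adj (tup n (H ∘ x)) (tup n (H ∘ y))

theorem exists_can {n : ℕ} (G : SimpleGraph (N n)) : ∃ H : ℕ → ℕ, StrictMono H ∧
    Can n (AG G H) := by
  obtain ⟨H, hH, hcan⟩ := canonical n (fun x y => G.Adj (tup n x) (tup n y)) (by
    intro x x' y y' hx hy
    rw [tup_congr n x x' hx, tup_congr n y y' hy])
  refine ⟨H, hH, ⟨fun x y h => SimpleGraph.Adj.symm (G := G) h, ?_⟩⟩
  intro x y x' y' hx hy hx' hy' hP
  exact hcan x y x' y' hx hy hx' hy' hP

theorem Md.clique {n : ℕ} {G : SimpleGraph (N n)} {H : ℕ → ℕ} {p v m : ℕ}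
    (h : Md n (AG G H) p v m) : ∃ s : Finset (N n), G.IsNClique m s := by
  classical
  obtain ⟨ι, hι, f, h1, -, -, -, h5⟩ := h
  have hinj : Function.Injective (fun i => tup n (H ∘ f i)) := by
    intro i i' hii
    by_contra hne
    have h6 : G.Adj (tup n (H ∘ f i)) (tup n (H ∘ f i')) := h5 i i' hne
    have h7 : tup n (H ∘ f i) = tup n (H ∘ f i') := hii
    rw [h7] at h6
    exact G.irrefl h6
  obtain ⟨t, ht, htc⟩ := Finset.exists_subset_card_eq
    (show m ≤ (Finset.univ.image (fun i => tup n (H ∘ f i))).card by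
      rw [Finset.card_image_of_injective _ hinj, Finset.card_univ]; exact h1)
  refine ⟨t, ?_, htc⟩
  intro x hx y hy hxy
  obtain ⟨i, -, rfl⟩ := Finset.mem_image.mp (ht (Finset.mem_coe.mp hx))
  obtain ⟨i', -, rfl⟩ := Finset.mem_image.mp (ht (Finset.mem_coe.mp hy))
  exact h5 i i' (fun h => hxy (by rw [h]))

theorem sys_of {n B : ℕ} (G : SimpleGraph (N n))
    (h1 : ¬ ∃ g : N 4 → N n, (∀ a b, R 4 a b → R n (g a) (g b)) ∧ ∀ a b, ¬ G.Adj (g a) (g b))
    (h2 : ¬ ∃ s : Finset (N n), G.IsNClique (B + 1) s) : ∃ A, Sys n A B := by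
  obtain ⟨H, hH, hcan⟩ := exists_can G
  refine ⟨AG G H, hcan, ?_, ?_⟩
  · intro m hm
    by_contra hcon
    exact h2 (hm.mono_m (show B + 1 ≤ m by omega)).clique
  · intro b hb hbn
    by_contra hcon
    apply h1
    have hno : ∀ s s' : ℕ → ℕ, StrictMono s → StrictMono s' → ∀ i < 4, (∀ j < i, s j = s' j) →
        s i < s' i → ¬ AG G H (sg n (vv b (cv s))) (sg n (vv b (cv s'))) :=
      fun s s' hs hs' i hi hag hlt hE => hcon ⟨s, s', hs, hs', i, hi, hag, hlt, hE⟩
    refine ⟨fun a => tup n (H ∘ sg n (vv b (cv (seq 4 a)))), ?_, ?_⟩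
    · intro x y hxy
      obtain ⟨i, hi, hag, hlt⟩ := seq_lex _ _ _ hxy
      have hsx := seq_mono 4 x
      have hsy := seq_mono 4 y
      apply tup_lex
      refine ⟨b ⟨i, hi⟩, hbn _, ?_, ?_⟩
      · intro j hj
        simp only [Function.comp]
        congr 1
        have hp : pc b j ≤ i := by
          by_contra hcon2
          have := (pc_lt_iff hb ⟨i, hi⟩ j).mpr (not_le.mp hcon2)
          omega
        show n * (cv (seq 4 x)).getD (pc b j) 0 + j = n * (cv (seq 4 y)).getD (pc b j) 0 + j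
        rcases Nat.eq_zero_or_pos (pc b j) with h0 | h0
        · rw [h0]; rfl
        · obtain ⟨r, hr⟩ : ∃ r, pc b j = r + 1 := ⟨pc b j - 1, by omega⟩
          rw [hr, cv_succ _ r (by omega), cv_succ _ r (by omega),
            code_congr (s := seq 4 x) (s' := seq 4 y) (fun l hl => hag l (by omega))]
      · simp only [Function.comp]
        apply hH
        have hp : pc b (b ⟨i, hi⟩) = i + 1 := by
          have h3 := (pc_lt_iff hb ⟨i, hi⟩ (b ⟨i, hi⟩)).mp le_rfl
          have h4 : ¬ i + 1 < pc b (b ⟨i, hi⟩) := by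
            intro h5
            have h6 := pc_le b (b ⟨i, hi⟩)
            have h7 := (pc_lt_iff hb ⟨i + 1, by omega⟩ (b ⟨i, hi⟩)).mpr h5
            have h8 := hb (show (⟨i, hi⟩ : Fin 4) < ⟨i + 1, by omega⟩ by
              rw [Fin.lt_def]; exact Nat.lt_succ_self i)
            omega
          have h3' : i < pc b (b ⟨i, hi⟩) := h3
          omega
        show n * (cv (seq 4 x)).getD (pc b (b ⟨i, hi⟩)) 0 + _ <
          n * (cv (seq 4 y)).getD (pc b (b ⟨i, hi⟩)) 0 + _
        rw [hp, cv_succ _ i hi, cv_succ _ i hi]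
        have hc := code_lex hsx hsy (i := i) hag hlt
        have hn : 0 < n := by have := hbn ⟨i, hi⟩; omega
        have := Nat.mul_lt_mul_of_pos_left (show 1 + code (seq 4 x) i < 1 + code (seq 4 y) i by
          omega) hn
        omega
    · intro x y
      rcases R_tri x y with h | h | h
      · obtain ⟨i, hi, hag, hlt⟩ := seq_lex _ _ _ h
        exact hno _ _ (seq_mono _ _) (seq_mono _ _) i hi hag hlt
      · subst h; exact G.irrefl
      · obtain ⟨i, hi, hag, hlt⟩ := seq_lex _ _ _ h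
        intro hE
        exact hno _ _ (seq_mono _ _) (seq_mono _ _) i hi hag hlt (SimpleGraph.Adj.symm (G := G) hE)

/-- **Erdős–Milner is not sharp for `k = 4`.** -/
theorem PArr_better : ∃ J, 1 ≤ J ∧ PArr (3 * J + 1) 4 (2 ^ J + 1) := by
  obtain ⟨D, hD⟩ := exists_RP
  refine ⟨(2 ^ (D + 3) + 1) * (D + 1) + 3 * D + 5, by omega, ?_⟩
  intro G
  by_contra hcon
  push Not at hcon
  obtain ⟨A, hS⟩ := sys_of (B := 2 ^ ((2 ^ (D + 3) + 1) * (D + 1) + 3 * D + 5)) G
    (by
      rintro ⟨g, hg1, hg2⟩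
      obtain ⟨a, b, hab⟩ := hcon.1 g hg1
      exact hg2 a b hab)
    (by
      rintro ⟨s, hs⟩
      exact hcon.2 s hs)
  exact hS.noSys hD le_rfl

end Pool.Agent.Y583.Fkn
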