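import Pool.Agent.Y583.FknA7

/-!
Supermultiplicativity of the arrow relation.
-/

namespace Pool.Agent.Y583.Fkn

theorem PArr_mul {a b k M m : ℕ} (hb : 1 ≤ b) (h1 : PArr (a + 1) k M) (h2 : PArr b k m) :
    PArr (a + b) k (M * m) := by
  classical
  intro G
  obtain ⟨H, hH, hcan⟩ := exists_can G
  -- the block values
  set V : N (a + 1) → ℕ → ℕ := fun t j => code (seq (a + 1) t) (min j a) with hV
  have hVm : ∀ t i j, i ≤ j → V t i ≤ V t j := by
    intro t i j hij
    show code (seq (a + 1) t) (min i a) ≤ code (seq (a + 1) t) (min j a)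
    rcases Nat.lt_or_eq_of_le (show min i a ≤ min j a by omega) with h | h
    · exact le_of_lt (code_lt (seq_mono _ _) h)
    · rw [h]
  let T1 : SimpleGraph (N (a + 1)) := SimpleGraph.comap (fun t => tup (a + b) (H ∘ sg (a + b) (V t))) G
  rcases h1 T1 with ⟨g, hg1, hg2⟩ | ⟨s1, hs1⟩
  · left
    refine ⟨fun x => tup (a + b) (H ∘ sg (a + b) (V (g x))), ?_, fun x y => hg2 x y⟩
    intro x y hxy
    obtain ⟨i, hi, hag, hlt⟩ := seq_lex _ _ _ (hg1 x y hxy)
    apply tup_lex
    refine ⟨i, by omega, ?_, ?_⟩
    · intro j hj
      simp only [Function.comp]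
      congr 1
      show (a + b) * code (seq (a + 1) (g x)) (min j a) + j =
        (a + b) * code (seq (a + 1) (g y)) (min j a) + j
      rw [code_congr (s := seq (a + 1) (g x)) (s' := seq (a + 1) (g y))
        (fun l hl => hag l (by omega))]
    · simp only [Function.comp]
      apply hH
      show (a + b) * code (seq (a + 1) (g x)) (min i a) + i <
        (a + b) * code (seq (a + 1) (g y)) (min i a) + i
      rw [show min i a = i by omega]
      have hc := code_lex (seq_mono (a + 1) (g x)) (seq_mono (a + 1) (g y)) (i := i) hag hlt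
      have := Nat.mul_lt_mul_of_pos_left hc (show 0 < a + b by omega)
      omega
  · let P : N b → ℕ → ℕ := fun t i => if i < a then i else a + seq b t (i - a)
    have hP : ∀ t, Inc (a + b) (P t) := by
      intro t i j hij hj
      simp only [P]
      by_cases h1 : i < a
      · by_cases h2 : j < a
        · rw [if_pos h1, if_pos h2]; exact hij
        · rw [if_pos h1, if_neg h2]; omega
      · rw [if_neg h1, if_neg (by omega)]
        have := seq_mono b t (show i - a < j - a by omega)
        omega
    let T2 : SimpleGraph (N b) := SimpleGraph.comap (fun t => tup (a + b) (H ∘ P t)) G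
    rcases h2 T2 with ⟨g, hg1, hg2⟩ | ⟨s2, hs2⟩
    · left
      refine ⟨fun x => tup (a + b) (H ∘ P (g x)), ?_, fun x y => hg2 x y⟩
      intro x y hxy
      apply tup_lex
      obtain ⟨i, hi, hag, hlt⟩ := seq_lex b _ _ (hg1 x y hxy)
      refine ⟨a + i, by omega, ?_, ?_⟩
      · intro j hj
        simp only [Function.comp, P]
        by_cases h1 : j < a
        · rw [if_pos h1, if_pos h1]
        · rw [if_neg h1, if_neg h1, hag (j - a) (by omega)]
      · simp only [Function.comp, P]
        rw [if_neg (by omega), if_neg (by omega)]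
        apply hH
        rw [Nat.add_sub_cancel_left]
        omega
    · right
      have hMd : Md (a + b) (AG G H) a (a + b) m := by
        refine ⟨{t // t ∈ s2}, inferInstance, fun t => P t.1, ?_, fun t => hP t.1, ?_, ?_, ?_⟩
        · rw [Fintype.card_coe, hs2.card_eq]
        · intro t j hj
          show (if j < a then j else _) = j
          rw [if_pos hj]
        · intro t t' j j' _ h1 h2; omega
        · intro t t' htt
          exact hs2.isClique t.2 t'.2 (fun h => htt (Subtype.ext h))
      have hcomb := combine hcan (κ := {t // t ∈ s1}) (fun t => V t.1) (fun _ => a)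
        (fun _ => a + b) (fun _ => m) 0 (a + b) (fun t i j hij _ => hVm t.1 i j hij)
        (fun _ => hMd) (fun _ => Nat.zero_le _) (fun _ j hj => by omega)
        (fun _ _ j j' _ h1 h2 => by omega) ?_ ?_ ?_
      · rw [Finset.sum_const, Finset.card_univ, Fintype.card_coe, hs1.card_eq, smul_eq_mul] at hcomb
        exact hcomb.clique
      · intro t j j' hjj hj' hlt
        left
        by_contra hcon
        have h3 : code (seq (a + 1) t.1) (min j a) < code (seq (a + 1) t.1) (min j' a) := hlt
        rw [show min j a = a by omega, show min j' a = a by omega] at h3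
        exact lt_irrefl _ h3
      · intro t t' htt j j' hj hj' heq
        have h3 : code (seq (a + 1) t.1) (min j a) = code (seq (a + 1) t'.1) (min j' a) := heq
        obtain ⟨h4, h5⟩ := code_inj (seq_mono _ _) (seq_mono _ _) h3
        have h6 : min j j' < a := by
          by_contra hcon
          rcases R_tri t.1 t'.1 with h | h | h
          · obtain ⟨i, hi, -, hlt⟩ := seq_lex _ _ _ h
            have := h5 i (by omega)
            omega
          · exact htt (Subtype.ext h)
          · obtain ⟨i, hi, -, hlt⟩ := seq_lex _ _ _ h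
            have := h5 i (by omega)
            omega
        exact ⟨h6, h6⟩
      · intro t t' htt
        exact hs1.isClique t.2 t'.2 (fun h => htt (Subtype.ext h))

theorem PArr_pow {J k M : ℕ} (h : PArr (J + 1) k M) : ∀ l, PArr (J * l + 1) k (M ^ l) := by
  intro l
  induction l with
  | zero => simpa using PArr_one k
  | succ l ih =>
    have := PArr_mul (a := J) (b := J * l + 1) (by omega) h ih
    rw [pow_succ', show J * (l + 1) + 1 = J + (J * l + 1) by ring]
    exact this

theorem better_pow : ∃ J, 1 ≤ J ∧ ∀ l, PArr (3 * J * l + 1) 4 ((2 ^ J + 1) ^ l) := by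
  obtain ⟨J, hJ, h⟩ := PArr_better
  exact ⟨J, hJ, fun l => PArr_pow (J := 3 * J) h l⟩

end Pool.Agent.Y583.Fkn
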