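import Pool.Agent.Y583.FknA8

/-!
The growth rate of `f(4,n)`.
-/

namespace Pool.Agent.Y583.Fkn

open Ordinal Filter Topology

theorem arrow_iff {n k m : ℕ} :
    Arrow ((Ordinal.omega0 : Ordinal.{0}) ^ n) (Ordinal.omega0 ^ k) m ↔ PArr n k m := by
  constructor
  · intro h G
    obtain ⟨e⟩ : Nonempty (R n ≃r (fun x y : ((Ordinal.omega0 : Ordinal.{0}) ^ n).ToType => x < y)) := by
      apply Ordinal.type_eq.mp
      rw [type_R]
      exact (Ordinal.type_toType _).symm
    rcases h (SimpleGraph.comap e.symm G) with ⟨H, hH, hind⟩ | ⟨s, hs⟩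
    · left
      obtain ⟨g⟩ : Nonempty (R k ≃r (fun x y : H => x < y)) := by
        apply Ordinal.type_eq.mp
        rw [type_R, hH]
      refine ⟨fun a => e.symm (g a).1, ?_, ?_⟩
      · intro a b hab
        have h1 : (g a).1 < (g b).1 := g.map_rel_iff.mpr hab
        rw [← e.map_rel_iff]
        simpa using h1
      · intro a b hab
        have hab' : G.Adj (e.symm (g a).1) (e.symm (g b).1) := hab
        by_cases hne : (g a).1 = (g b).1
        · rw [hne] at hab'
          exact G.irrefl hab'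
        · exact hind (g a).2 (g b).2 hne hab'
    · right
      refine ⟨s.map e.symm.toEquiv.toEmbedding, ?_, ?_⟩
      · intro a ha b hb hab
        simp only [Finset.coe_map, Set.mem_image] at ha hb
        obtain ⟨a', ha', rfl⟩ := ha
        obtain ⟨b', hb', rfl⟩ := hb
        exact hs.isClique ha' hb' (fun h => hab (by rw [h]))
      · rw [Finset.card_map, hs.card_eq]
  · intro h
    exact h.arrow

theorem not_PArr {j : ℕ} (hj : 1 ≤ j) : ¬ PArr (4 + 2 * j) 4 (2 ^ j + 1) := by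
  intro h
  have := not_arrow (k := 4) (j := j) le_rfl hj
  rw [show 4 + j * (4 - 2) = 4 + 2 * j by omega] at this
  exact this h.arrow

theorem exists_not_PArr (n : ℕ) : ∃ m, ¬ PArr n 4 m := by
  refine ⟨2 ^ (n + 1) + 1, fun h => ?_⟩
  exact not_PArr (j := n + 1) (by omega) (PArr_mono (by omega) h)

/-- the largest `m` with `ω^n → (ω^4, m)²` -/
noncomputable def Fm (n : ℕ) : ℕ := sInf {m : ℕ | ¬ PArr n 4 m} - 1

theorem PArr_zero (n k : ℕ) : PArr n k 0 := fun G =>
  Or.inr ⟨∅, by simp [SimpleGraph.isNClique_iff]⟩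

theorem sInf_eq (n : ℕ) : sInf {m : ℕ | ¬ PArr n 4 m} = Fm n + 1 := by
  have h1 : sInf {m : ℕ | ¬ PArr n 4 m} ∈ {m : ℕ | ¬ PArr n 4 m} :=
    Nat.sInf_mem (exists_not_PArr n)
  have h2 : sInf {m : ℕ | ¬ PArr n 4 m} ≠ 0 := by
    intro h0
    rw [h0] at h1
    exact h1 (PArr_zero n 4)
  unfold Fm
  omega

theorem PArr_iff {n m : ℕ} : PArr n 4 m ↔ m ≤ Fm n := by
  have h0 := sInf_eq n
  constructor
  · intro h
    by_contra hcon
    have h1 : sInf {m : ℕ | ¬ PArr n 4 m} ∈ {m : ℕ | ¬ PArr n 4 m} :=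
      Nat.sInf_mem (exists_not_PArr n)
    exact h1 (PArr_mono_m (by omega) h)
  · intro h
    by_contra hcon
    have := Nat.sInf_le (s := {m : ℕ | ¬ PArr n 4 m}) hcon
    omega

theorem PArr_one' {n : ℕ} (hn : 1 ≤ n) : PArr n 4 1 := PArr_mono hn (PArr_one 4)

theorem Fm_pos {n : ℕ} (hn : 1 ≤ n) : 1 ≤ Fm n := PArr_iff.mp (PArr_one' hn)

theorem Fm_mul (a b : ℕ) : Fm (a + 1) * Fm (b + 1) ≤ Fm (a + b + 1) := by
  apply PArr_iff.mp
  rw [show a + b + 1 = a + (b + 1) by ring]
  exact PArr_mul (by omega) (PArr_iff.mpr le_rfl) (PArr_iff.mpr le_rfl)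

theorem Fm_mono {n n' : ℕ} (h : n ≤ n') : Fm n ≤ Fm n' :=
  PArr_iff.mp (PArr_mono h (PArr_iff.mpr le_rfl))

theorem Fm_le {j : ℕ} (hj : 1 ≤ j) : Fm (4 + 2 * j) ≤ 2 ^ j := by
  by_contra hcon
  exact not_PArr hj (PArr_iff.mpr (by omega))

/-- the growth rate exists -/
theorem growth : ∃ L : ℝ, Tendsto (fun n : ℕ => Real.log (Fm (n + 1)) / n) atTop (𝓝 L) ∧
    (∀ n : ℕ, 1 ≤ n → Real.log (Fm (n + 1)) / n ≤ L) := by
  set u : ℕ → ℝ := fun n => -Real.log (Fm (n + 1)) with hu
  have hpos : ∀ n, (0 : ℝ) < Fm (n + 1) := fun n => by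
    have := Fm_pos (n := n + 1) (by omega)
    exact_mod_cast this
  have hsub : Subadditive u := by
    intro a b
    have h1 : (Fm (a + 1) : ℝ) * Fm (b + 1) ≤ Fm (a + b + 1) := by exact_mod_cast Fm_mul a b
    have h2 := Real.log_le_log (mul_pos (hpos a) (hpos b)) h1
    rw [Real.log_mul (ne_of_gt (hpos a)) (ne_of_gt (hpos b))] at h2
    show -Real.log (Fm (a + b + 1)) ≤ -Real.log (Fm (a + 1)) + -Real.log (Fm (b + 1))
    linarith
  have hbdd : BddBelow (Set.range fun n : ℕ => u n / n) := by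
    refine ⟨-(2 * Real.log 2), ?_⟩
    rintro _ ⟨n, rfl⟩
    show -(2 * Real.log 2) ≤ u n / n
    have hlog2 : 0 < Real.log 2 := Real.log_pos (by norm_num)
    rcases Nat.eq_zero_or_pos n with h0 | h0
    · subst h0
      have h0' : u 0 / ((0 : ℕ) : ℝ) = 0 := by simp
      rw [h0']
      linarith
    · rw [le_div_iff₀ (by exact_mod_cast h0)]
      have h1 : Fm (n + 1) ≤ 2 ^ (n + 1) :=
        le_trans (Fm_mono (by omega)) (Fm_le (j := n + 1) (by omega))
      have h2 : (Fm (n + 1) : ℝ) ≤ 2 ^ (n + 1) := by exact_mod_cast h1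
      have h3 := Real.log_le_log (hpos n) h2
      rw [Real.log_pow] at h3
      have h4 : (1 : ℝ) ≤ n := by exact_mod_cast h0
      show -(2 * Real.log 2) * n ≤ -Real.log (Fm (n + 1))
      push_cast at h3
      nlinarith
  refine ⟨-hsub.lim, ?_, ?_⟩
  · have h := (hsub.tendsto_lim hbdd).neg
    refine h.congr ?_
    intro n
    show -(-Real.log (Fm (n + 1)) / n) = _
    ring
  · intro n hn
    have h := hsub.lim_le_div hbdd (show n ≠ 0 by omega)
    have h2 : u n / n = -(Real.log (Fm (n + 1)) / n) := by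
      show -Real.log (Fm (n + 1)) / n = _
      ring
    rw [h2] at h
    linarith

/-- the strict lower bound for the growth rate -/
theorem growth_gt {L : ℝ} (hL : ∀ n : ℕ, 1 ≤ n → Real.log (Fm (n + 1)) / n ≤ L) :
    Real.log 2 / 3 < L := by
  obtain ⟨J, hJ, h⟩ := PArr_better
  have h1 := PArr_iff.mp h
  have h2 := hL (3 * J) (by omega)
  have h3 : (0 : ℝ) < 2 ^ J := by positivity
  have h4 : ((2 : ℝ) ^ J) < Fm (3 * J + 1) := by
    have : (2 ^ J : ℕ) < Fm (3 * J + 1) := by omega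
    exact_mod_cast this
  have h5 := Real.log_lt_log h3 h4
  rw [Real.log_pow] at h5
  refine lt_of_lt_of_le ?_ h2
  have hJ' : (0 : ℝ) < J := by exact_mod_cast hJ
  rw [div_lt_div_iff₀ (by norm_num) (by push_cast; positivity)]
  push_cast
  nlinarith

/-- an upper bound for the growth rate from infinitely many values -/
theorem growth_le {L : ℝ} (hL : Tendsto (fun n : ℕ => Real.log (Fm (n + 1)) / n) atTop (𝓝 L)) :
    L ≤ Real.log 2 / 2 := by
  -- use `n = 3 + 2j`
  have h1 : Tendsto (fun j : ℕ => 3 + 2 * j) atTop atTop := by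
    apply tendsto_atTop_mono (fun j => (by omega : j ≤ 3 + 2 * j)) tendsto_id
  have h2 := hL.comp h1
  have h3 : Tendsto (fun j : ℕ => (Real.log 2) * (j / (3 + 2 * j : ℝ))) atTop
      (𝓝 (Real.log 2 * (1 / 2))) := by
    apply Tendsto.const_mul
    have h4 : Tendsto (fun j : ℕ => (1 : ℝ) / (3 / j + 2)) atTop (𝓝 (1 / (0 + 2))) := by
      apply Tendsto.div tendsto_const_nhds
      · apply Tendsto.add _ tendsto_const_nhds
        exact tendsto_const_div_atTop_nhds_zero_nat 3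
      · norm_num
    rw [zero_add] at h4
    refine h4.congr' ?_
    filter_upwards [eventually_gt_atTop 0] with j hj
    have hj' : (0 : ℝ) < j := by exact_mod_cast hj
    field_simp
  have h5 : ∀ᶠ j : ℕ in atTop, ((fun n : ℕ => Real.log (Fm (n + 1)) / n) ∘ fun j => 3 + 2 * j) j ≤
      (Real.log 2) * (j / (3 + 2 * j : ℝ)) := by
    filter_upwards [eventually_ge_atTop 1] with j hj
    show Real.log (Fm (3 + 2 * j + 1)) / ((3 + 2 * j : ℕ) : ℝ) ≤ _
    have h6 := Fm_le (j := j) hj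
    rw [show 3 + 2 * j + 1 = 4 + 2 * j by ring]
    have h7 : (0 : ℝ) < Fm (4 + 2 * j) := by
      exact_mod_cast Fm_pos (n := 4 + 2 * j) (by omega)
    have h8 : (Fm (4 + 2 * j) : ℝ) ≤ 2 ^ j := by exact_mod_cast h6
    have h9 := Real.log_le_log h7 h8
    rw [Real.log_pow] at h9
    rw [show (Real.log 2) * (j / (3 + 2 * j : ℝ)) = (j * Real.log 2) / (3 + 2 * j : ℝ) by ring]
    push_cast
    apply div_le_div_of_nonneg_right h9
    positivity
  have := le_of_tendsto_of_tendsto h2 h3 h5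
  linarith

end Pool.Agent.Y583.Fkn
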