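import Mathlib

/-!
Library for the relation `ω^n → (ω^k, m)²` (finite powers of omega).
Basic model: iterated lexicographic powers of `ℕ` and strictly increasing sequences.
-/

namespace Pool.Agent.Y583.Fkn

/-- The iterated power of `ℕ`. -/
def N : ℕ → Type
  | 0 => Unit
  | (n + 1) => ℕ × N n

/-- lexicographic order on `N n`, a well order of type `ω ^ n`. -/
def R : (n : ℕ) → N n → N n → Prop
  | 0 => fun _ _ => False
  | (n + 1) => Prod.Lex (fun a b : ℕ => a < b) (R n)

instance instRWO : ∀ n, IsWellOrder (N n) (R n) := by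
  intro n
  induction n with
  | zero =>
    have : IsWellOrder Unit (emptyRelation) := inferInstance
    exact this
  | succ n ih =>
    have : IsWellOrder (ℕ × N n) (Prod.Lex (fun a b : ℕ => a < b) (R n)) := inferInstance
    exact this

theorem type_R (n : ℕ) : Ordinal.type (R n) = (Ordinal.omega0 : Ordinal.{0}) ^ n := by
  induction n with
  | zero =>
    rw [pow_zero]
    haveI : Unique (N 0) := inferInstanceAs (Unique Unit)
    exact Ordinal.type_eq_one_of_unique _
  | succ n ih =>
    rw [pow_succ, ← ih, ← Ordinal.type_nat_lt]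
    have := Ordinal.type_prod_lex (α := N n) (β := ℕ) (R n) (fun a b : ℕ => a < b)
    rw [← this]
    rfl

theorem R_succ {n : ℕ} {j j' : ℕ} {r r' : N n} :
    R (n + 1) (j, r) (j', r') ↔ j < j' ∨ (j = j' ∧ R n r r') := by
  show Prod.Lex _ _ _ _ ↔ _
  rw [Prod.lex_def]

theorem R_trans {n : ℕ} {a b c : N n} (h : R n a b) (h' : R n b c) : R n a c :=
  _root_.trans h h'

theorem R_irrefl {n : ℕ} (a : N n) : ¬ R n a a := _root_.irrefl a

theorem R_tri {n : ℕ} (a b : N n) : R n a b ∨ a = b ∨ R n b a := trichotomous_of (R n) a b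

/-- weak order -/
def RE (n : ℕ) (a b : N n) : Prop := a = b ∨ R n a b

theorem RE_total {n : ℕ} (a b : N n) : RE n a b ∨ R n b a := by
  rcases R_tri a b with h | h | h
  · exact Or.inl (Or.inr h)
  · exact Or.inl (Or.inl h)
  · exact Or.inr h

/-- Shift map: for `a₀ : N k` a monotone self map of `N k` with values `≥ a₀`. -/
def shift : (k : ℕ) → N k → N k → N k
  | 0 => fun _ a => a
  | (_ + 1) => fun a₀ a => (a.1 + a₀.1 + 1, a.2)

theorem shift_mono {k : ℕ} (a₀ : N k) {a b : N k} (h : R k a b) :
    R k (shift k a₀ a) (shift k a₀ b) := by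
  cases k with
  | zero => exact h
  | succ k =>
    obtain ⟨j, r⟩ := a
    obtain ⟨j', r'⟩ := b
    rw [R_succ] at h
    show R (k + 1) (j + a₀.1 + 1, r) (j' + a₀.1 + 1, r')
    rw [R_succ]
    rcases h with h | ⟨h, h'⟩
    · left; omega
    · right; exact ⟨by omega, h'⟩

theorem shift_ge {k : ℕ} (a₀ a : N k) : RE k a₀ (shift k a₀ a) := by
  cases k with
  | zero => left; rfl
  | succ k =>
    right
    obtain ⟨j, r⟩ := a
    obtain ⟨j', r'⟩ := a₀
    show R (k + 1) (j', r') (j + j' + 1, r)
    rw [R_succ]
    left; omega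

/-- agreement of sequences on the first `d` coordinates -/
def Agree (d : ℕ) (x y : ℕ → ℕ) : Prop := ∀ j, j < d → x j = y j

theorem Agree.refl {d : ℕ} (x : ℕ → ℕ) : Agree d x x := fun _ _ => rfl
theorem Agree.symm {d : ℕ} {x y : ℕ → ℕ} (h : Agree d x y) : Agree d y x :=
  fun j hj => (h j hj).symm
theorem Agree.trans {d : ℕ} {x y z : ℕ → ℕ} (h : Agree d x y) (h' : Agree d y z) : Agree d x z :=
  fun j hj => (h j hj).trans (h' j hj)
theorem Agree.mono {d e : ℕ} {x y : ℕ → ℕ} (h : Agree d x y) (hde : e ≤ d) : Agree e x y :=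
  fun j hj => h j (lt_of_lt_of_le hj hde)

/-- lexicographic order of the first `n` coordinates -/
def LexLt (n : ℕ) (x y : ℕ → ℕ) : Prop := ∃ i, i < n ∧ Agree i x y ∧ x i < y i

/-- `Z` is fully branching at the positions in `B`. -/
def Full (B : Finset ℕ) (Z : Set (ℕ → ℕ)) : Prop :=
  Z.Nonempty ∧ ∀ x ∈ Z, ∀ b ∈ B, ∀ M : ℕ, ∃ y ∈ Z, Agree b x y ∧ M < y b

/-- Structure lemma, inductive form. -/
theorem full_aux (n : ℕ) : ∀ (e d : ℕ), d + e = n → ∀ (k : ℕ) (g : N k → ℕ → ℕ),
    (∀ a b, R k a b → LexLt n (g a) (g b)) → (∀ a b, Agree d (g a) (g b)) →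
    ∃ B : Finset ℕ, B.card = k ∧ (∀ b ∈ B, d ≤ b ∧ b < n) ∧
      ∃ Z ⊆ Set.range g, Full B Z := by
  intro e
  induction e with
  | zero =>
    intro d hd k g hg hag
    cases k with
    | zero =>
      refine ⟨∅, rfl, by simp, Set.range g, subset_rfl, ⟨g (), ⟨_, rfl⟩⟩, by simp⟩
    | succ k =>
      exfalso
      obtain ⟨a⟩ : Nonempty (N k) := by
        clear hg hag g
        induction k with
        | zero => exact ⟨()⟩
        | succ k ih => obtain ⟨a⟩ := ih; exact ⟨(0, a)⟩
      obtain ⟨i, hi, hia, hlt⟩ := hg (0, a) (1, a) (by rw [R_succ]; left; omega)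
      have := hag (0, a) (1, a) i (by omega)
      omega
  | succ e ih =>
    intro d hd k g hg hag
    cases k with
    | zero =>
      refine ⟨∅, rfl, by simp, Set.range g, subset_rfl, ⟨g (), ⟨_, rfl⟩⟩, by simp⟩
    | succ k =>
      -- the d-th coordinate is weakly monotone
      have hmono : ∀ a b, R (k + 1) a b → g a d ≤ g b d := by
        intro a b hab
        obtain ⟨i, hi, hia, hlt⟩ := hg a b hab
        rcases lt_trichotomy i d with h | h | h
        · exact absurd (hag a b i h) (by omega)
        · subst h; exact le_of_lt hlt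
        · exact le_of_eq (hia d h)
      -- general fact: a bounded map on N k' with monotone d-coordinate is eventually constant
      have key : ∀ (k' : ℕ) (g' : N k' → ℕ → ℕ), (∀ a b, R k' a b → LexLt n (g' a) (g' b)) →
          (∀ a b, Agree d (g' a) (g' b)) → (∃ M, ∀ a, g' a d ≤ M) →
          ∃ v, ∃ a₀ : N k', g' a₀ d = v ∧ ∃ B : Finset ℕ, B.card = k' ∧
            (∀ b ∈ B, d + 1 ≤ b ∧ b < n) ∧
            ∃ Z ⊆ Set.range g', (∀ x ∈ Z, x d = v) ∧ Full B Z := by
        intro k' g' hg' hag' hbd
        obtain ⟨M, hM⟩ := hbd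
        have hmono' : ∀ a b, R k' a b → g' a d ≤ g' b d := by
          intro a b hab
          obtain ⟨i, hi, hia, hlt⟩ := hg' a b hab
          rcases lt_trichotomy i d with h | h | h
          · exact absurd (hag' a b i h) (by omega)
          · subst h; exact le_of_lt hlt
          · exact le_of_eq (hia d h)
        -- maximal value
        have hfin : (Set.range fun a => g' a d).Finite :=
          (Set.finite_Iic M).subset (by rintro _ ⟨a, rfl⟩; exact hM a)
        obtain ⟨a'⟩ : Nonempty (N k') := by
          clear hg' hag' hM hmono' hfin g'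
          induction k' with
          | zero => exact ⟨()⟩
          | succ k ih => obtain ⟨a⟩ := ih; exact ⟨(0, a)⟩
        obtain ⟨v, ⟨a₀, ha₀⟩, hv⟩ := hfin.exists_maximal ⟨_, ⟨a', rfl⟩⟩
        have hv' : ∀ a, g' a d ≤ v := by
          intro a
          by_contra hcon
          push Not at hcon
          have := hv (show g' a d ∈ Set.range fun a => g' a d from ⟨a, rfl⟩) (le_of_lt hcon)
          omega
        have hconst : ∀ a, g' (shift k' a₀ a) d = v := by
          intro a
          apply le_antisymm (hv' _)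
          rcases shift_ge a₀ a with h | h
          · rw [← h]; exact le_of_eq ha₀.symm
          · rw [← ha₀]; exact hmono' _ _ h
        obtain ⟨B, hB, hBd, Z, hZ, hfull⟩ := ih (d + 1) (by omega) k'
          (fun a => g' (shift k' a₀ a))
          (fun a b hab => hg' _ _ (shift_mono a₀ hab))
          (by
            intro a b j hj
            rcases Nat.lt_succ_iff_lt_or_eq.mp hj with h | h
            · exact hag' _ _ j h
            · subst h; show g' (shift k' a₀ a) j = g' (shift k' a₀ b) j
              rw [hconst, hconst])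
        refine ⟨v, a₀, ha₀, B, hB, hBd, Z, ?_, ?_, hfull⟩
        · intro x hx
          obtain ⟨a, ha⟩ := hZ hx
          exact ⟨_, ha⟩
        · intro x hx
          obtain ⟨a, ha⟩ := hZ hx
          rw [← ha]; exact hconst a
      by_cases hbd : ∃ M, ∀ a, g a d ≤ M
      · obtain ⟨v, a₀, ha₀, B, hB, hBd, Z, hZ, hv, hfull⟩ := key (k + 1) g hg hag hbd
        exact ⟨B, hB, fun b hb => ⟨by have := (hBd b hb).1; omega, (hBd b hb).2⟩, Z, hZ, hfull⟩
      · push Not at hbd
        -- slices
        have hsl : ∀ j : ℕ, ∃ v, ∃ a₀ : N k, g (j, a₀) d = v ∧ ∃ B : Finset ℕ, B.card = k ∧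
            (∀ b ∈ B, d + 1 ≤ b ∧ b < n) ∧
            ∃ Z ⊆ Set.range (fun r : N k => g (j, r)), (∀ x ∈ Z, x d = v) ∧ Full B Z := by
          intro j
          apply key k (fun r => g (j, r))
          · intro a b hab
            apply hg
            rw [R_succ]; right; exact ⟨rfl, hab⟩
          · intro a b; exact hag _ _
          · obtain ⟨a, ha⟩ := hbd 0
            refine ⟨g (j + 1, a.2) d, fun r => hmono _ _ ?_⟩
            rw [R_succ]; left; omega
        choose v a₀ hv B hBc hBd Z hZ hZv hfull using hsl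
        -- pigeonhole
        have hBmem : ∀ j, B j ∈ (Finset.range n).powerset := by
          intro j
          rw [Finset.mem_powerset]
          intro b hb
          rw [Finset.mem_range]; exact (hBd j b hb).2
        obtain ⟨B', hB'⟩ := Finite.exists_infinite_fiber
          (fun j : ℕ => (⟨B j, hBmem j⟩ : {s // s ∈ (Finset.range n).powerset}))
        have hJ : {j : ℕ | B j = B'.1}.Infinite := by
          have := Set.infinite_coe_iff.mp hB'
          refine this.mono ?_
          intro j hj
          have : (⟨B j, hBmem j⟩ : {s // s ∈ (Finset.range n).powerset}) = B' := hj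
          show B j = B'.1
          rw [← this]
        have hvun : ∀ M, ∃ j₀, ∀ j, j₀ < j → M < v j := by
          intro M
          obtain ⟨a, ha⟩ := hbd M
          refine ⟨a.1, fun j hj => lt_of_lt_of_le ha ?_⟩
          rw [← hv j]
          apply hmono
          obtain ⟨i, r⟩ := a
          rw [R_succ]; left; exact hj
        obtain ⟨j₁, hj₁⟩ := hJ.nonempty
        have hd' : d ∉ B'.1 := by
          intro hcon
          rw [← hj₁] at hcon
          have := (hBd j₁ d hcon).1
          omega
        refine ⟨insert d B'.1, ?_, ?_, ⋃ j ∈ {j : ℕ | B j = B'.1}, Z j, ?_, ?_, ?_⟩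
        · rw [Finset.card_insert_of_notMem hd', ← hj₁, hBc]
        · intro b hb
          rw [Finset.mem_insert] at hb
          rcases hb with h | h
          · subst h; omega
          · rw [← hj₁] at h
            have := hBd j₁ b h
            omega
        · intro x hx
          simp only [Set.mem_iUnion] at hx
          obtain ⟨j, -, hx⟩ := hx
          obtain ⟨r, hr⟩ := hZ j hx
          exact ⟨(j, r), hr⟩
        · obtain ⟨x, hx⟩ := (hfull j₁).1
          exact ⟨x, by simp only [Set.mem_iUnion]; exact ⟨j₁, hj₁, hx⟩⟩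
        · intro x hx b hb M
          simp only [Set.mem_iUnion] at hx
          obtain ⟨j, hj, hx⟩ := hx
          rw [Finset.mem_insert] at hb
          rcases hb with h | h
          · subst h
            obtain ⟨j₀, hj₀⟩ := hvun M
            obtain ⟨j', hj', hlt⟩ := hJ.exists_gt j₀
            obtain ⟨y, hy⟩ := (hfull j').1
            refine ⟨y, by simp only [Set.mem_iUnion]; exact ⟨j', hj', hy⟩, ?_, ?_⟩
            · obtain ⟨r, hr⟩ := hZ j hx
              obtain ⟨r', hr'⟩ := hZ j' hy
              rw [← hr, ← hr']; exact hag _ _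
            · rw [hZv j' y hy]; exact hj₀ j' hlt
          · have hj2 : B j = B'.1 := hj
            rw [← hj2] at h
            obtain ⟨y, hy, h1, h2⟩ := (hfull j).2 x hx b h M
            exact ⟨y, by simp only [Set.mem_iUnion]; exact ⟨j, hj, hy⟩, h1, h2⟩

/-- Structure lemma. -/
theorem exists_full {n k : ℕ} (g : N k → ℕ → ℕ)
    (hg : ∀ a b, R k a b → LexLt n (g a) (g b)) :
    ∃ B : Finset ℕ, B.card = k ∧ (∀ b ∈ B, b < n) ∧ ∃ Z ⊆ Set.range g, Full B Z := by
  obtain ⟨B, h1, h2, h3⟩ := full_aux n n 0 (by omega) k g hg (fun a b j hj => by omega)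
  exact ⟨B, h1, fun b hb => (h2 b hb).2, h3⟩

end Pool.Agent.Y583.Fkn
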