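import Pool.Agent.Y583.FknTri

/-!
Every fully branching set of increasing sequences with `k` branching positions meets the graphs.
-/

namespace Pool.Agent.Y583.Fkn

/-- Realisation of the uniform pattern. -/
theorem realize_EU {B : Finset ℕ} {Z : Set (ℕ → ℕ)} (hZ : Full B Z)
    (hmono : ∀ x ∈ Z, StrictMono x) {n o o' i b₁ e b₃ : ℕ}
    (hi : i ∈ B) (hb₁ : b₁ ∈ B) (he : e ∈ B) (hb₃ : b₃ ∈ B)
    (h1 : i < b₁) (h2 : b₁ < e) (h3 : e < b₃) (h4 : b₃ < n) (h5 : o ≤ i) (h6 : i < o')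
    (h7 : o' ≤ e) : ∃ x ∈ Z, ∃ y ∈ Z, EU n o o' x y := by
  obtain ⟨⟨x0, hx0⟩, hB⟩ := hZ
  obtain ⟨y1, hy1, ay1, ly1⟩ := hB x0 hx0 i hi (x0 (e - 1))
  obtain ⟨x1, hx1, ax1, lx1⟩ := hB x0 hx0 e he (y1 (b₁ - 1))
  obtain ⟨y2, hy2, ay2, ly2⟩ := hB y1 hy1 b₁ hb₁ (x1 (b₃ - 1))
  obtain ⟨x2, hx2, ax2, lx2⟩ := hB x1 hx1 b₃ hb₃ (y2 (e - 1))
  obtain ⟨y3, hy3, ay3, ly3⟩ := hB y2 hy2 e he (x2 (n - 1))
  refine ⟨x2, hx2, y3, hy3, i, e, h5, h6, h7, by omega, ?_, ?_, ?_, ?_, ?_, ly3⟩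
  · -- agree
    intro j hj
    calc x2 j = x1 j := (ax2 j (by omega)).symm
      _ = x0 j := (ax1 j (by omega)).symm
      _ = y1 j := ay1 j hj
      _ = y2 j := ay2 j (by omega)
      _ = y3 j := ay3 j (by omega)
  · calc x2 (e - 1) = x1 (e - 1) := (ax2 _ (by omega)).symm
      _ = x0 (e - 1) := (ax1 _ (by omega)).symm
      _ < y1 i := ly1
      _ = y2 i := ay2 _ (by omega)
      _ = y3 i := ay3 _ (by omega)
  · calc y3 i = y2 i := (ay3 _ (by omega)).symm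
      _ = y1 i := (ay2 _ (by omega)).symm
      _ ≤ y1 (b₁ - 1) := (hmono y1 hy1).monotone (by omega)
      _ < x1 e := lx1
      _ = x2 e := ax2 _ (by omega)
  · calc x2 e = x1 e := (ax2 _ (by omega)).symm
      _ ≤ x1 (b₃ - 1) := (hmono x1 hx1).monotone (by omega)
      _ < y2 b₁ := ly2
      _ ≤ y2 (e - 1) := (hmono y2 hy2).monotone (by omega)
      _ = y3 (e - 1) := ay3 _ (by omega)
  · calc y3 (e - 1) = y2 (e - 1) := (ay3 _ (by omega)).symm
      _ < x2 b₃ := lx2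
      _ ≤ x2 (n - 1) := (hmono x2 hx2).monotone (by omega)

/-- Realisation of N-windows. -/
theorem realize_EN {B : Finset ℕ} {Z : Set (ℕ → ℕ)} (hZ : Full B Z)
    (hmono : ∀ x ∈ Z, StrictMono x) {n o μ s t u : ℕ} (hn : n = o + 2 * μ)
    (hs : o + s ∈ B) (ht : o + t ∈ B) (hu : o + u ∈ B)
    (h1 : 1 ≤ s) (h2 : s < μ) (h3 : s + t + 1 = 2 * μ) (h4 : t < u) (h5 : u < 2 * μ) :
    ∃ x ∈ Z, ∃ y ∈ Z, EN n o μ x y := by
  obtain ⟨⟨x0, hx0⟩, hB⟩ := hZ
  obtain ⟨y1, hy1, ay1, ly1⟩ := hB x0 hx0 _ hs (x0 (o + u - 1))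
  obtain ⟨x1, hx1, ax1, lx1⟩ := hB x0 hx0 _ hu (y1 (o + t - 1))
  obtain ⟨y2, hy2, ay2, ly2⟩ := hB y1 hy1 _ ht (x1 (n - 1))
  refine ⟨x1, hx1, y2, hy2, s, t, u, h1, h2, h3, h4, h5, ?_, ?_, ?_, ly2⟩
  · intro j hj
    calc x1 j = x0 j := (ax1 j (by omega)).symm
      _ = y1 j := ay1 j hj
      _ = y2 j := ay2 j (by omega)
  · calc x1 (o + u - 1) = x0 (o + u - 1) := (ax1 _ (by omega)).symm
      _ < y1 (o + s) := ly1
      _ = y2 (o + s) := ay2 _ (by omega)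
  · calc y2 (o + t - 1) = y1 (o + t - 1) := (ay2 _ (by omega)).symm
      _ < x1 (o + u) := lx1

/-- Realisation of Z-windows. -/
theorem realize_EZ {B : Finset ℕ} {Z : Set (ℕ → ℕ)} (hZ : Full B Z)
    (hmono : ∀ x ∈ Z, StrictMono x) {n o μ t u v : ℕ} (hμ : 3 ≤ μ) (hn : n = o + 2 * μ)
    (hs : o ∈ B) (ht : o + t ∈ B) (hu : o + u ∈ B) (hv : o + v ∈ B)
    (h1 : FF μ t u) (h4 : u < v) (h5 : μ ≤ v) (h6 : v < 2 * μ) :
    ∃ x ∈ Z, ∃ y ∈ Z, EZ n o μ x y := by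
  have htu : 1 ≤ t ∧ t < u := by rcases h1 with h | h | h | h <;> omega
  obtain ⟨⟨x0, hx0⟩, hB⟩ := hZ
  obtain ⟨y1, hy1, ay1, ly1⟩ := hB x0 hx0 _ hs (x0 (o + u - 1))
  obtain ⟨x1, hx1, ax1, lx1⟩ := hB x0 hx0 _ hu (y1 (o + t - 1))
  obtain ⟨y2, hy2, ay2, ly2⟩ := hB y1 hy1 _ ht (x1 (o + v - 1))
  obtain ⟨x2, hx2, ax2, lx2⟩ := hB x1 hx1 _ hv (y2 (o + v - 1))
  obtain ⟨y3, hy3, ay3, ly3⟩ := hB y2 hy2 _ hv (x2 (n - 1))
  refine ⟨x2, hx2, y3, hy3, t, u, v, h1, h4, h5, h6, ?_, ?_, ?_, ?_, ?_, ly3⟩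
  · intro j hj
    calc x2 j = x1 j := (ax2 j (by omega)).symm
      _ = x0 j := (ax1 j (by omega)).symm
      _ = y1 j := ay1 j hj
      _ = y2 j := ay2 j (by omega)
      _ = y3 j := ay3 j (by omega)
  · calc x2 (o + u - 1) = x1 (o + u - 1) := (ax2 _ (by omega)).symm
      _ = x0 (o + u - 1) := (ax1 _ (by omega)).symm
      _ < y1 o := ly1
      _ = y2 o := ay2 _ (by omega)
      _ = y3 o := ay3 _ (by omega)
  · calc y3 (o + t - 1) = y2 (o + t - 1) := (ay3 _ (by omega)).symm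
      _ = y1 (o + t - 1) := (ay2 _ (by omega)).symm
      _ < x1 (o + u) := lx1
      _ = x2 (o + u) := ax2 _ (by omega)
  · calc x2 (o + v - 1) = x1 (o + v - 1) := (ax2 _ (by omega)).symm
      _ < y2 (o + t) := ly2
      _ = y3 (o + t) := ay3 _ (by omega)
  · calc y3 (o + v - 1) = y2 (o + v - 1) := (ay3 _ (by omega)).symm
      _ < x2 (o + v) := lx2

/-- Combinatorial hitting lemma for the base graph: a `(μ+1)`-subset of `[o, o+2μ)`. -/
theorem base_hit {B : Finset ℕ} {o μ : ℕ} (hμ : 3 ≤ μ) (hcard : μ + 1 ≤ B.card)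
    (hB : ∀ b ∈ B, o ≤ b ∧ b < o + 2 * μ) :
    (∃ s t u, 1 ≤ s ∧ s < μ ∧ s + t + 1 = 2 * μ ∧ t < u ∧ u < 2 * μ ∧
      o + s ∈ B ∧ o + t ∈ B ∧ o + u ∈ B) ∨
    (∃ t u v, FF μ t u ∧ u < v ∧ μ ≤ v ∧ v < 2 * μ ∧ o ∈ B ∧ o + t ∈ B ∧ o + u ∈ B ∧
      o + v ∈ B) := by
  by_contra hcon
  push Not at hcon
  obtain ⟨hN, hZ⟩ := hcon
  have hne : B.Nonempty := by
    rw [← Finset.card_pos]; omega
  set m := B.max' hne with hm
  have hmB : m ∈ B := Finset.max'_mem B hne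
  have hmle : ∀ b ∈ B, b ≤ m := fun b hb => Finset.le_max' B b hb
  have hm1 := hB m hmB
  set C := B.erase m with hC
  have hCcard : μ ≤ C.card := by
    rw [hC, Finset.card_erase_of_mem hmB]; omega
  have hCB : ∀ b ∈ C, b ∈ B ∧ b < m := by
    intro b hb
    rw [hC, Finset.mem_erase] at hb
    exact ⟨hb.2, lt_of_le_of_ne (hmle b hb.2) hb.1⟩
  -- the folding map
  let φ : ℕ → ℕ := fun b => min (b - o) (2 * μ - 1 - (b - o))
  have hinj : Set.InjOn φ C := by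
    intro a ha b hb hab
    obtain ⟨ha1, ha2⟩ := hCB a ha
    obtain ⟨hb1, hb2⟩ := hCB b hb
    have ha3 := hB a ha1
    have hb3 := hB b hb1
    by_contra hne'
    -- then {a,b} = {o+s, o+t}
    have key : ∀ p q : ℕ, p ∈ B → q ∈ B → p < m → q < m → p < q →
        φ p = φ q → False := by
      intro p q hp hq hpm hqm hpq hφ
      have hp3 := hB p hp
      have hq3 := hB q hq
      simp only [φ] at hφ
      have hsum : (p - o) + (q - o) + 1 = 2 * μ := by omega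
      have hps : p - o < μ := by omega
      refine hN (p - o) (q - o) (m - o) ?_ hps hsum (by omega) (by omega) ?_ ?_ ?_
      · by_contra h0
        have : q - o = 2 * μ - 1 := by omega
        omega
      · rwa [show o + (p - o) = p by omega]
      · rwa [show o + (q - o) = q by omega]
      · rwa [show o + (m - o) = m by omega]
    rcases lt_or_gt_of_ne hne' with h | h
    · exact key a b ha1 hb1 ha2 hb2 h hab
    · exact key b a hb1 ha1 hb2 ha2 h hab.symm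
  have hmaps : Set.MapsTo φ C (Finset.range μ) := by
    intro a ha
    have := hB a (hCB a ha).1
    simp only [φ, Finset.coe_range, Set.mem_Iio]
    omega
  have hsurj : Set.SurjOn φ C (Finset.range μ) :=
    Finset.surjOn_of_injOn_of_card_le φ hmaps hinj (by rw [Finset.card_range]; exact hCcard)
  have h0 : o ∈ B := by
    obtain ⟨a, ha, haφ⟩ := hsurj (show (0 : ℕ) ∈ ((Finset.range μ : Finset ℕ) : Set ℕ) by
      simp only [Finset.coe_range, Set.mem_Iio]; omega)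
    have h1 := hCB a ha
    have h2 := hB a h1.1
    simp only [φ] at haφ
    have : a = o := by omega
    rw [← this]; exact h1.1
  obtain ⟨a, ha, haφ⟩ := hsurj (show (1 : ℕ) ∈ ((Finset.range μ : Finset ℕ) : Set ℕ) by
      simp only [Finset.coe_range, Set.mem_Iio]; omega)
  obtain ⟨b, hb, hbφ⟩ := hsurj (show (2 : ℕ) ∈ ((Finset.range μ : Finset ℕ) : Set ℕ) by
      simp only [Finset.coe_range, Set.mem_Iio]; omega)
  obtain ⟨ha1, ha2⟩ := hCB a ha
  obtain ⟨hb1, hb2⟩ := hCB b hb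
  have ha3 := hB a ha1
  have hb3 := hB b hb1
  simp only [φ] at haφ hbφ
  -- m ≥ o + μ since card
  have hmμ : μ ≤ m - o := by
    by_contra hlt
    have hsub : B ⊆ Finset.Ico o (o + μ) := by
      intro c hc
      have h1 := hB c hc
      have h2 := hmle c hc
      rw [Finset.mem_Ico]; omega
    have := Finset.card_le_card hsub
    rw [Nat.card_Ico] at this
    omega
  rcases lt_trichotomy a b with hab | hab | hab
  · refine hZ (a - o) (b - o) (m - o) ?_ (by omega) hmμ (by omega) h0 ?_ ?_ ?_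
    · simp only [FF]; omega
    · rwa [show o + (a - o) = a by omega]
    · rwa [show o + (b - o) = b by omega]
    · rwa [show o + (m - o) = m by omega]
  · omega
  · refine hZ (b - o) (a - o) (m - o) ?_ (by omega) hmμ (by omega) h0 ?_ ?_ ?_
    · simp only [FF]; omega
    · rwa [show o + (b - o) = b by omega]
    · rwa [show o + (a - o) = a by omega]
    · rwa [show o + (m - o) = m by omega]

/-- elements of a finset of naturals in order -/
theorem exists_sorted {B : Finset ℕ} {k : ℕ} (hk : 4 ≤ k) (hcard : B.card = k) :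
    ∃ i ∈ B, ∃ b₁ ∈ B, ∃ e ∈ B, ∃ b₃ ∈ B, i < b₁ ∧ b₁ < e ∧ e < b₃ ∧
      i + (k - 2) ≤ e ∧ (∀ b ∈ B, i ≤ b) := by
  let f := B.orderEmbOfFin hcard
  have hf : ∀ a b : Fin k, a < b → f a < f b := fun a b h => f.strictMono h
  have hgrow : ∀ (d : ℕ) (hd : d < k), f ⟨0, by omega⟩ + d ≤ f ⟨d, hd⟩ := by
    intro d
    induction d with
    | zero => intro hd; simp
    | succ d ih =>
      intro hd
      have h1 := ih (by omega)
      have h2 := hf ⟨d, by omega⟩ ⟨d + 1, hd⟩ (by simp [Fin.lt_def])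
      omega
  refine ⟨f ⟨0, by omega⟩, B.orderEmbOfFin_mem hcard _, f ⟨1, by omega⟩,
    B.orderEmbOfFin_mem hcard _, f ⟨k - 2, by omega⟩, B.orderEmbOfFin_mem hcard _,
    f ⟨k - 1, by omega⟩, B.orderEmbOfFin_mem hcard _, ?_, ?_, ?_, hgrow _ _, ?_⟩
  · apply hf; simp [Fin.lt_def]
  · apply hf; simp only [Fin.lt_def]; omega
  · apply hf; simp only [Fin.lt_def]; omega
  · intro b hb
    have : b ∈ Set.range f := by
      rw [Finset.range_orderEmbOfFin]; exact hb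
    obtain ⟨c, hc⟩ := this
    rw [← hc]
    exact f.monotone (by simp [Fin.le_def])

end Pool.Agent.Y583.Fkn
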