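import Pool.Agent.Y583.FknHit

/-!
The negative relation `ω^(k + j(k-2)) ↛ (ω^k, 2^j + 1)²` for `k ≥ 4`, `j ≥ 1`.
-/

namespace Pool.Agent.Y583.Fkn

open Ordinal

/-- `α → (β, m)²`: every graph on `α` has an independent set of type `β` or a clique of
size `m`. -/
def Arrow (α β : Ordinal.{0}) (m : ℕ) : Prop :=
  ∀ G : SimpleGraph α.ToType,
    (∃ H : Set α.ToType, Ordinal.type (fun a b : H => a < b) = β ∧
      H.Pairwise fun a b => ¬ G.Adj a b) ∨
    ∃ s : Finset α.ToType, G.IsNClique m s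

theorem LexLt.trans {n : ℕ} {x y z : ℕ → ℕ} (h : LexLt n x y) (h' : LexLt n y z) :
    LexLt n x z := by
  obtain ⟨i, hi, ha, hl⟩ := h
  obtain ⟨j, hj, ha', hl'⟩ := h'
  rcases lt_trichotomy i j with h | h | h
  · refine ⟨i, hi, fun l hl => (ha l hl).trans (ha' l (by omega)), ?_⟩
    rw [← ha' i h]; exact hl
  · subst h
    exact ⟨i, hi, ha.trans ha', hl.trans hl'⟩
  · refine ⟨j, hj, fun l hl => (ha l (by omega)).trans (ha' l hl), ?_⟩
    rw [ha j h]; exact hl'

theorem LexLt.irrefl {n : ℕ} {x : ℕ → ℕ} (h : LexLt n x x) : False := by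
  obtain ⟨i, hi, ha, hl⟩ := h
  omega

theorem tri_sym {n : ℕ} {E : (ℕ → ℕ) → (ℕ → ℕ) → Prop}
    {x y z : ℕ → ℕ}
    (hE : ∀ a b, a ∈ ({x, y, z} : Set (ℕ → ℕ)) → b ∈ ({x, y, z} : Set (ℕ → ℕ)) → E a b →
      LexLt n a b)
    (htri : ∀ a b c, a ∈ ({x, y, z} : Set (ℕ → ℕ)) → b ∈ ({x, y, z} : Set (ℕ → ℕ)) →
      c ∈ ({x, y, z} : Set (ℕ → ℕ)) → E a b → E b c → E a c → False)
    (h1 : E x y ∨ E y x) (h2 : E y z ∨ E z y) (h3 : E x z ∨ E z x) : False := by
  have mx : x ∈ ({x, y, z} : Set (ℕ → ℕ)) := by simp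
  have my : y ∈ ({x, y, z} : Set (ℕ → ℕ)) := by simp
  have mz : z ∈ ({x, y, z} : Set (ℕ → ℕ)) := by simp
  rcases h1 with h1 | h1 <;> rcases h2 with h2 | h2 <;> rcases h3 with h3 | h3
  · exact htri x y z mx my mz h1 h2 h3
  · exact (((hE _ _ mx my h1).trans (hE _ _ my mz h2)).trans (hE _ _ mz mx h3)).irrefl
  · exact htri x z y mx mz my h3 h2 h1
  · exact htri z x y mz mx my h3 h1 h2
  · exact htri y x z my mx mz h1 h3 h2
  · exact htri y z x my mz mx h2 h3 h1
  · exact (((hE _ _ my mx h1).trans (hE _ _ mx mz h3)).trans (hE _ _ mz my h2)).irrefl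
  · exact htri z y x mz my mx h2 h1 h3

/-- the full graph with `L` uniform levels of length `a` and a base of length `2μ` -/
def EE (n a L μ : ℕ) (x y : ℕ → ℕ) : Prop :=
  (∃ r, r < L ∧ EU n (r * a) ((r + 1) * a) x y) ∨ EB n (L * a) μ x y

theorem EE_split {n a L μ : ℕ} {x y : ℕ → ℕ} (hx : StrictMono x) (hy : StrictMono y)
    (hμ : 3 ≤ μ) (hn : n = L * a + 2 * μ) (h : EE n a L μ x y) : LexLt n x y := by
  rcases h with ⟨r, hr, h⟩ | h | h
  · obtain ⟨i, -, -, h3, h4, h5⟩ := EU_split hx hy h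
    exact ⟨i, h3, h4, h5⟩
  · obtain ⟨i, -, h3, h4, h5⟩ := EN_split hx hy hn h
    exact ⟨i, h3, h4, h5⟩
  · obtain ⟨i, -, h3, h4, h5⟩ := EZ_split hx hy hμ hn h
    exact ⟨i, h3, h4, h5⟩

theorem clique_bound {n a L μ : ℕ} (ha : 0 < a) (hμ : 3 ≤ μ) (hn : n = L * a + 2 * μ) :
    ∀ (c : ℕ), c ≤ L → ∀ K : Finset (ℕ → ℕ), (∀ x ∈ K, StrictMono x) →
      (∀ x ∈ K, ∀ y ∈ K, x ≠ y → EE n a L μ x y ∨ EE n a L μ y x) →
      (∀ x ∈ K, ∀ y ∈ K, Agree ((L - c) * a) x y) → K.card ≤ 2 ^ (c + 1) := by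
  intro c
  induction c with
  | zero =>
    intro _ K hmono hadj hag
    by_contra hcon
    have h3 : 2 < K.card := by simpa using hcon
    obtain ⟨x, y, z, hx, hy, hz, hxy, hxz, hyz⟩ := Finset.two_lt_card_iff.mp h3
    have hEB : ∀ x ∈ K, ∀ y ∈ K, EE n a L μ x y → EB n (L * a) μ x y := by
      intro x hx y hy h
      rcases h with ⟨r, hr, h⟩ | h
      · exfalso
        obtain ⟨i, h1, h2, h3, h4, h5⟩ := EU_split (hmono x hx) (hmono y hy) h
        have h6 := hag x hx y hy i (lt_of_lt_of_le h2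
          (Nat.mul_le_mul_right a (by omega)))
        omega
      · exact h
    have mem : ∀ w ∈ ({x, y, z} : Set (ℕ → ℕ)), w ∈ K := by
      intro w hw
      rcases hw with h | h | h
      · rw [h]; exact hx
      · rw [h]; exact hy
      · rw [h]; exact hz
    refine tri_sym (n := n) (E := EB n (L * a) μ) (x := x) (y := y) (z := z) ?_ ?_ ?_ ?_ ?_
    · intro p q hp hq h
      exact EE_split (hmono p (mem p hp)) (hmono q (mem q hq)) hμ hn (Or.inr h)
    · intro p q w hp hq hw h1 h2 h3
      exact EB_tri (hmono p (mem p hp)) (hmono q (mem q hq)) (hmono w (mem w hw)) hμ hn h1 h2 h3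
    · exact (hadj x hx y hy hxy).imp (hEB x hx y hy) (hEB y hy x hx)
    · exact (hadj y hy z hz hyz).imp (hEB y hy z hz) (hEB z hz y hy)
    · exact (hadj x hx z hz hxz).imp (hEB x hx z hz) (hEB z hz x hx)
  | succ c ih =>
    intro hc K hmono hadj hag
    classical
    set r := L - (c + 1) with hr
    have hr1 : L - c = r + 1 := by omega
    let f : (ℕ → ℕ) → (Fin ((r + 1) * a) → ℕ) := fun x i => x i
    have hfag : ∀ x y, f x = f y → Agree ((r + 1) * a) x y := by
      intro x y h j hj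
      exact congrFun h ⟨j, hj⟩
    have hfib : ∀ w ∈ K.image f, (K.filter (fun x => f x = w)).card ≤ 2 ^ (c + 1) := by
      intro w _
      apply ih (by omega)
      · intro x hx; exact hmono x (Finset.mem_filter.mp hx).1
      · intro x hx y hy hxy
        exact hadj x (Finset.mem_filter.mp hx).1 y (Finset.mem_filter.mp hy).1 hxy
      · intro x hx y hy
        rw [hr1]
        apply hfag
        rw [(Finset.mem_filter.mp hx).2, (Finset.mem_filter.mp hy).2]
    have hEU : ∀ x ∈ K, ∀ y ∈ K, f x ≠ f y → EE n a L μ x y →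
        EU n (r * a) ((r + 1) * a) x y := by
      intro x hx y hy hf h
      have hsplit : ∀ i, Agree i x y → x i < y i → r * a ≤ i ∧ i < (r + 1) * a := by
        intro i hi hlt
        constructor
        · by_contra hcon
          have := hag x hx y hy i (by omega)
          omega
        · by_contra hcon
          apply hf
          funext j
          exact hi j (lt_of_lt_of_le j.2 (by omega))
      rcases h with ⟨r', hr', h⟩ | h
      · obtain ⟨i, h1, h2, h3, h4, h5⟩ := EU_split (hmono x hx) (hmono y hy) h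
        obtain ⟨h6, h7⟩ := hsplit i h4 h5
        have hrr : r' = r := by
          have e1 : r' * a < (r + 1) * a := lt_of_le_of_lt h1 h7
          have e2 : r * a < (r' + 1) * a := lt_of_le_of_lt h6 h2
          have e3 := lt_of_mul_lt_mul_right e1 (Nat.zero_le a)
          have e4 := lt_of_mul_lt_mul_right e2 (Nat.zero_le a)
          omega
        rw [← hrr]; exact h
      · exfalso
        have hLa : (r + 1) * a ≤ L * a := Nat.mul_le_mul_right a (by omega)
        rcases h with h | h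
        · obtain ⟨i, h1, h2, h3, h4⟩ := EN_split (hmono x hx) (hmono y hy) hn h
          have := hsplit i h3 h4
          omega
        · obtain ⟨i, h1, h2, h3, h4⟩ := EZ_split (hmono x hx) (hmono y hy) hμ hn h
          have := hsplit i h3 h4
          omega
    have himg : (K.image f).card ≤ 2 := by
      by_contra hcon
      have h3 : 2 < (K.image f).card := by omega
      obtain ⟨u, v, w, hu, hv, hw, huv, huw, hvw⟩ := Finset.two_lt_card_iff.mp h3
      obtain ⟨x, hx, rfl⟩ := Finset.mem_image.mp hu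
      obtain ⟨y, hy, rfl⟩ := Finset.mem_image.mp hv
      obtain ⟨z, hz, rfl⟩ := Finset.mem_image.mp hw
      have mem : ∀ w ∈ ({x, y, z} : Set (ℕ → ℕ)), w ∈ K := by
        intro w hw
        rcases hw with h | h | h
        · rw [h]; exact hx
        · rw [h]; exact hy
        · rw [h]; exact hz
      refine tri_sym (n := n) (E := EU n (r * a) ((r + 1) * a)) (x := x) (y := y) (z := z)
        ?_ ?_ ?_ ?_ ?_
      · intro p q hp hq h
        obtain ⟨i, -, -, h3, h4, h5⟩ := EU_split (hmono p (mem p hp)) (hmono q (mem q hq)) h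
        exact ⟨i, h3, h4, h5⟩
      · intro p q w hp hq hw h1 h2 h3
        exact EU_tri (hmono p (mem p hp)) (hmono q (mem q hq)) (hmono w (mem w hw)) h1 h2 h3
      · exact (hadj x hx y hy (fun h => huv (by rw [h]))).imp (hEU x hx y hy huv)
          (hEU y hy x hx huv.symm)
      · exact (hadj y hy z hz (fun h => hvw (by rw [h]))).imp (hEU y hy z hz hvw)
          (hEU z hz y hy hvw.symm)
      · exact (hadj x hx z hz (fun h => huw (by rw [h]))).imp (hEU x hx z hz huw)
          (hEU z hz x hx huw.symm)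
    calc K.card ≤ 2 ^ (c + 1) * (K.image f).card := Finset.card_le_mul_card_image K _ hfib
      _ ≤ 2 ^ (c + 1) * 2 := Nat.mul_le_mul_left _ himg
      _ = 2 ^ (c + 1 + 1) := by rw [pow_succ 2 (c + 1)]

/-- every fully branching set with `μ + 1` branching positions contains an edge -/
theorem EE_hit {n a L μ : ℕ} (hμ : 3 ≤ μ) (ha : a + 1 = μ) (hn : n = L * a + 2 * μ)
    {B : Finset ℕ} {Z : Set (ℕ → ℕ)} (hZ : Full B Z) (hmono : ∀ x ∈ Z, StrictMono x)
    (hcard : B.card = μ + 1) (hB : ∀ b ∈ B, b < n) :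
    ∃ x ∈ Z, ∃ y ∈ Z, EE n a L μ x y := by
  obtain ⟨i, hi, b₁, hb₁, e, he, b₃, hb₃, h1, h2, h3, h4, h5⟩ :=
    exists_sorted (k := μ + 1) (by omega) hcard
  rcases lt_or_ge i (L * a) with h | h
  · -- uniform level
    have ha0 : 0 < a := by omega
    have hdiv := Nat.div_mul_le_self i a
    have hdiv2 : i < (i / a + 1) * a := by
      have := Nat.lt_div_mul_add (a := i) ha0
      rw [Nat.add_mul]; omega
    have hrL : i / a < L := by
      rw [Nat.div_lt_iff_lt_mul ha0]; exact h
    have hle : (i / a + 1) * a ≤ e := by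
      rw [Nat.add_mul]; omega
    obtain ⟨x, hx, y, hy, hxy⟩ := realize_EU hZ hmono hi hb₁ he hb₃ h1 h2 h3 (hB _ hb₃)
      hdiv hdiv2 hle
    exact ⟨x, hx, y, hy, Or.inl ⟨i / a, hrL, hxy⟩⟩
  · have hB' : ∀ b ∈ B, L * a ≤ b ∧ b < L * a + 2 * μ := by
      intro b hb
      have := h5 b hb
      have := hB b hb
      omega
    rcases base_hit hμ (by omega) hB' with hh | hh
    · obtain ⟨s, t, u, g1, g2, g3, g4, g5, g6, g7, g8⟩ := hh
      obtain ⟨x, hx, y, hy, hxy⟩ := realize_EN hZ hmono hn g6 g7 g8 g1 g2 g3 g4 g5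
      exact ⟨x, hx, y, hy, Or.inr (Or.inl hxy)⟩
    · obtain ⟨t, u, v, g1, g2, g3, g4, g5, g6, g7, g8⟩ := hh
      obtain ⟨x, hx, y, hy, hxy⟩ := realize_EZ hZ hmono hμ hn g5 g6 g7 g8 g1 g2 g3 g4
      exact ⟨x, hx, y, hy, Or.inr (Or.inr hxy)⟩

/-- the sequence attached to an element of `N n` -/
def seq : (n : ℕ) → N n → ℕ → ℕ
  | 0 => fun _ i => i
  | (n + 1) => fun a i => if i = 0 then a.1 else seq n a.2 (i - 1) + a.1 + 1

theorem seq_mono : ∀ (n : ℕ) (a : N n), StrictMono (seq n a) := by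
  intro n
  induction n with
  | zero => intro a i j h; exact h
  | succ n ih =>
    intro a i j h
    have ha := ih a.2
    by_cases hi : i = 0
    · subst hi
      have hj : j ≠ 0 := by omega
      show (if 0 = 0 then a.1 else seq n a.2 (0 - 1) + a.1 + 1) < (if j = 0 then a.1 else seq n a.2 (j - 1) + a.1 + 1)
      rw [if_pos rfl, if_neg hj]; omega
    · have hj : j ≠ 0 := by omega
      show (if i = 0 then a.1 else seq n a.2 (i - 1) + a.1 + 1) <
        (if j = 0 then a.1 else seq n a.2 (j - 1) + a.1 + 1)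
      rw [if_neg hi, if_neg hj]
      have := ha (show i - 1 < j - 1 by omega)
      omega

theorem seq_lex : ∀ (n : ℕ) (a b : N n), R n a b → LexLt n (seq n a) (seq n b) := by
  intro n
  induction n with
  | zero => intro a b h; exact absurd h (by intro h; exact h)
  | succ n ih =>
    intro a b h
    obtain ⟨j, r⟩ := a
    obtain ⟨j', r'⟩ := b
    rw [R_succ] at h
    rcases h with h | ⟨h, h'⟩
    · refine ⟨0, by omega, fun i hi => by omega, ?_⟩
      show (if 0 = 0 then j else seq n r (0 - 1) + j + 1) <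
        (if 0 = 0 then j' else seq n r' (0 - 1) + j' + 1)
      rw [if_pos rfl, if_pos rfl]; exact h
    · subst h
      obtain ⟨i, hi, hag, hlt⟩ := ih r r' h'
      refine ⟨i + 1, by omega, ?_, ?_⟩
      · intro l hl
        show (if l = 0 then j else seq n r (l - 1) + j + 1) =
          (if l = 0 then j else seq n r' (l - 1) + j + 1)
        by_cases h0 : l = 0
        · rw [if_pos h0, if_pos h0]
        · rw [if_neg h0, if_neg h0, hag (l - 1) (by omega)]
      · show (if i + 1 = 0 then j else seq n r (i + 1 - 1) + j + 1) <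
          (if i + 1 = 0 then j else seq n r' (i + 1 - 1) + j + 1)
        rw [if_neg (by omega), if_neg (by omega)]
        simp only [Nat.add_sub_cancel]
        omega

theorem seq_inj {n : ℕ} {a b : N n} (h : seq n a = seq n b) : a = b := by
  rcases R_tri a b with h' | h' | h'
  · exact absurd (h ▸ seq_lex n a b h') (fun hh => hh.irrefl)
  · exact h'
  · exact absurd (h ▸ seq_lex n b a h') (fun hh => hh.irrefl)

/-- **Negative relation.** -/
theorem not_arrow {k j : ℕ} (hk : 4 ≤ k) (hj : 1 ≤ j) :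
    ¬ Arrow ((Ordinal.omega0 : Ordinal.{0}) ^ (k + j * (k - 2))) (Ordinal.omega0 ^ k)
      (2 ^ j + 1) := by
  intro harr
  obtain ⟨L, rfl⟩ : ∃ L, j = L + 1 := ⟨j - 1, by omega⟩
  obtain ⟨a, rfl⟩ : ∃ a, k = a + 2 := ⟨k - 2, by omega⟩
  set n := a + 2 + (L + 1) * (a + 2 - 2) with hn0
  have hn : n = L * a + 2 * (a + 1) := by
    rw [hn0, Nat.add_sub_cancel, Nat.add_mul]; omega
  -- order isomorphism
  obtain ⟨e⟩ : Nonempty (R n ≃r (fun x y : ((Ordinal.omega0 : Ordinal.{0}) ^ n).ToType => x < y)) := by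
    apply Ordinal.type_eq.mp
    rw [type_R]
    exact (Ordinal.type_toType _).symm
  let S : ((Ordinal.omega0 : Ordinal.{0}) ^ n).ToType → ℕ → ℕ := fun x => seq n (e.symm x)
  have hSmono : ∀ x, StrictMono (S x) := fun x => seq_mono n _
  have hSlex : ∀ x y, x < y → LexLt n (S x) (S y) := by
    intro x y h
    apply seq_lex
    rw [← e.map_rel_iff]
    simpa using h
  have hSinj : Function.Injective S := fun x y h => e.symm.injective (seq_inj h)
  let G : SimpleGraph ((Ordinal.omega0 : Ordinal.{0}) ^ n).ToType :=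
    { Adj := fun x y => EE n a L (a + 1) (S x) (S y) ∨ EE n a L (a + 1) (S y) (S x)
      symm := ⟨fun x y h => Or.symm h⟩
      loopless := ⟨fun x h => by
        have h' : EE n a L (a + 1) (S x) (S x) := by
          rcases h with h | h <;> exact h
        exact (EE_split (hSmono x) (hSmono x) (by omega) hn h').irrefl⟩ }
  rcases harr G with ⟨H, hH, hind⟩ | ⟨s, hs⟩
  · -- independent set
    obtain ⟨g⟩ : Nonempty (R (a + 2) ≃r (fun x y : H => x < y)) := by
      apply Ordinal.type_eq.mp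
      rw [type_R, hH]
    obtain ⟨B, hBc, hBn, Z, hZ, hfull⟩ := exists_full (n := n) (k := a + 2)
      (fun r => S (g r).1) (fun r r' h => hSlex _ _ (g.map_rel_iff.mpr h))
    have hZmono : ∀ x ∈ Z, StrictMono x := by
      intro x hx
      obtain ⟨r, rfl⟩ := hZ hx
      exact hSmono _
    obtain ⟨x, hx, y, hy, hxy⟩ := EE_hit (a := a) (L := L) (μ := a + 1) (by omega) rfl hn hfull
      hZmono (by omega) hBn
    obtain ⟨r, rfl⟩ := hZ hx
    obtain ⟨r', rfl⟩ := hZ hy
    refine hind (g r).2 (g r').2 ?_ (Or.inl hxy)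
    intro heq
    have hxy' : EE n a L (a + 1) (S (g r').1) (S (g r').1) := by
      have := hxy
      simp only [heq] at this
      exact this
    exact (EE_split (hSmono _) (hSmono _) (by omega) hn hxy').irrefl
  · -- clique
    classical
    have hcard : (s.image S).card = 2 ^ (L + 1) + 1 := by
      rw [Finset.card_image_of_injective s hSinj, hs.card_eq]
    have := clique_bound (n := n) (a := a) (L := L) (μ := a + 1) (by omega) (by omega) hn L le_rfl
      (s.image S) ?_ ?_ ?_
    · omega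
    · intro x hx
      obtain ⟨p, -, rfl⟩ := Finset.mem_image.mp hx
      exact hSmono p
    · intro x hx y hy hxy
      obtain ⟨p, hp, rfl⟩ := Finset.mem_image.mp hx
      obtain ⟨q, hq, rfl⟩ := Finset.mem_image.mp hy
      have hpq : p ≠ q := fun h => hxy (by rw [h])
      exact hs.isClique hp hq hpq
    · intro x _ y _ i hi
      simp at hi

end Pool.Agent.Y583.Fkn
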