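import Pool.Agent.Y583.FknRam
import Pool.Agent.Y583.Fkn5b

/-!
The positive relation `ω^(1+μℓ) → (ω^(1+μ), 2^ℓ)²` (Erdős–Milner).
-/

namespace Pool.Agent.Y583.Fkn

open Ordinal

/-- read off the first `n` coordinates (as differences are irrelevant, any lexicographically
monotone coding will do) -/
def tup : (n : ℕ) → (ℕ → ℕ) → N n
  | 0 => fun _ => ()
  | (n + 1) => fun x => (x 0, tup n (fun i => x (i + 1)))

theorem tup_congr : ∀ (n : ℕ) (x y : ℕ → ℕ), (∀ i < n, x i = y i) → tup n x = tup n y := by
  intro n
  induction n with
  | zero => intro x y _; rfl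
  | succ n ih =>
    intro x y h
    show (x 0, tup n (fun i => x (i + 1))) = (y 0, tup n (fun i => y (i + 1)))
    rw [h 0 (by omega), ih (fun i => x (i + 1)) (fun i => y (i + 1))
      (fun i hi => h (i + 1) (by omega))]

theorem tup_lex : ∀ (n : ℕ) (x y : ℕ → ℕ), LexLt n x y → R n (tup n x) (tup n y) := by
  intro n
  induction n with
  | zero => rintro x y ⟨i, hi, -⟩; omega
  | succ n ih =>
    rintro x y ⟨i, hi, hag, hlt⟩
    show R (n + 1) (x 0, tup n (fun i => x (i + 1))) (y 0, tup n (fun i => y (i + 1)))
    rw [R_succ]
    rcases Nat.eq_zero_or_pos i with h | h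
    · subst h; left; exact hlt
    · right
      refine ⟨hag 0 h, ih _ _ ⟨i - 1, by omega, fun j hj => hag (j + 1) (by omega), ?_⟩⟩
      show x (i - 1 + 1) < y (i - 1 + 1)
      rw [show i - 1 + 1 = i by omega]; exact hlt

/-- partition relation on the model -/
def PArr (n k m : ℕ) : Prop :=
  ∀ G : SimpleGraph (N n), (∃ g : N k → N n, (∀ a b, R k a b → R n (g a) (g b)) ∧
    ∀ a b, ¬ G.Adj (g a) (g b)) ∨ ∃ s : Finset (N n), G.IsNClique m s

/-- binary code of an initial segment of a sequence -/
def code (s : ℕ → ℕ) (j : ℕ) : ℕ := ∑ i ∈ (Finset.range (j + 1)).image s, 2 ^ i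

theorem code_inj {s s' : ℕ → ℕ} (hs : StrictMono s) (hs' : StrictMono s') {j j' : ℕ}
    (h : code s j = code s' j') : j = j' ∧ ∀ i ≤ j, s i = s' i := by
  have h1 : (Finset.range (j + 1)).image s = (Finset.range (j' + 1)).image s' :=
    Finset.geomSum_injective (n := 2) le_rfl h
  have hc : j = j' := by
    have := congrArg Finset.card h1
    rw [Finset.card_image_of_injective _ hs.injective,
      Finset.card_image_of_injective _ hs'.injective, Finset.card_range, Finset.card_range] at this
    omega
  subst hc
  refine ⟨rfl, ?_⟩
  intro i
  induction i using Nat.strong_induction_on with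
  | _ i ih =>
    intro hi
    by_contra hne
    have ih' : ∀ i' < i, s i' = s' i' := fun i' hi' => ih i' hi' (by omega)
    rcases lt_or_gt_of_ne hne with hlt | hlt
    · have : s i ∈ (Finset.range (j + 1)).image s' := by
        rw [← h1]; exact Finset.mem_image_of_mem _ (Finset.mem_range.mpr (by omega))
      obtain ⟨a, ha, hae⟩ := Finset.mem_image.mp this
      rcases lt_trichotomy a i with h | h | h
      · have := ih' a h
        have := hs h
        omega
      · subst h; omega
      · have := hs' h
        omega
    · have : s' i ∈ (Finset.range (j + 1)).image s := by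
        rw [h1]; exact Finset.mem_image_of_mem _ (Finset.mem_range.mpr (by omega))
      obtain ⟨a, ha, hae⟩ := Finset.mem_image.mp this
      rcases lt_trichotomy a i with h | h | h
      · have := ih' a h
        have := hs' h
        omega
      · subst h; omega
      · have := hs h
        omega

theorem code_lt {s : ℕ → ℕ} (hs : StrictMono s) {j j' : ℕ} (h : j < j') :
    code s j < code s j' := by
  apply Finset.sum_lt_sum_of_subset
  · exact Finset.image_subset_image (Finset.range_subset_range.mpr (by omega))
  · exact Finset.mem_image_of_mem s (Finset.mem_range.mpr (show j' < j' + 1 by omega))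
  · intro hcon
    obtain ⟨a, ha, hae⟩ := Finset.mem_image.mp hcon
    have := hs.injective hae
    rw [Finset.mem_range] at ha
    omega
  · positivity
  · intro i _ _
    positivity

theorem code_congr {s s' : ℕ → ℕ} {j : ℕ} (h : ∀ i ≤ j, s i = s' i) : code s j = code s' j := by
  unfold code
  congr 1
  apply Finset.image_congr
  intro i hi
  rw [Finset.mem_coe, Finset.mem_range] at hi
  exact h i (by omega)

theorem code_succ {s : ℕ → ℕ} (hs : StrictMono s) (j : ℕ) :
    code s (j + 1) = code s j + 2 ^ s (j + 1) := by
  unfold code
  rw [Finset.range_add_one (n := j + 1), Finset.image_insert, Finset.sum_insert, add_comm]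
  intro hcon
  obtain ⟨a, ha, hae⟩ := Finset.mem_image.mp hcon
  have := hs.injective hae
  rw [Finset.mem_range] at ha
  omega

theorem code_lex {s s' : ℕ → ℕ} (hs : StrictMono s) (hs' : StrictMono s') {i : ℕ}
    (h : ∀ j < i, s j = s' j) (hlt : s i < s' i) : code s i < code s' i := by
  cases i with
  | zero =>
    have e1 : code s 0 = 2 ^ s 0 := by simp [code]
    have e2 : code s' 0 = 2 ^ s' 0 := by simp [code]
    rw [e1, e2]
    exact Nat.pow_lt_pow_right (by omega) hlt
  | succ i =>
    rw [code_succ hs, code_succ hs', code_congr (s := s) (s' := s') (j := i)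
      (fun j hj => h j (by omega))]
    have := Nat.pow_lt_pow_right (a := 2) (by omega) hlt
    omega

theorem PArr_step {n ν μ m : ℕ} (hν : 1 ≤ ν) (hn : n = μ + ν) (h : PArr ν (μ + 1) m) :
    PArr n (μ + 1) (2 * m) := by
  classical
  intro G
  obtain ⟨H, hH, hcan⟩ := canonical n (fun x y => G.Adj (tup n x) (tup n y)) (by
    intro x x' y y' hx hy
    rw [tup_congr n x x' hx, tup_congr n y y' hy])
  by_cases hC : ∃ x y, Inc n x ∧ Inc n y ∧
      (∀ j < n, y j < x μ ∨ x (n - 1) < y j) ∧ (∀ i < n, x i < y μ ∨ y (n - 1) < x i) ∧
      G.Adj (tup n (H ∘ x)) (tup n (H ∘ y))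
  · -- blow-up
    obtain ⟨x, y, hx, hy, hxy, hyx, hadj⟩ := hC
    let P : N ν → ℕ → ℕ := fun t i => if i < μ then i else μ + seq ν t (i - μ)
    have hP : ∀ t, Inc n (P t) := by
      intro t i j hij hj
      simp only [P]
      by_cases h1 : i < μ
      · by_cases h2 : j < μ
        · rw [if_pos h1, if_pos h2]; exact hij
        · rw [if_pos h1, if_neg h2]; omega
      · rw [if_neg h1, if_neg (by omega)]
        have := seq_mono ν t (show i - μ < j - μ by omega)
        omega
    let T : SimpleGraph (N ν) := SimpleGraph.comap (fun t => tup n (H ∘ P t)) G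
    rcases h T with ⟨g, hg1, hg2⟩ | ⟨s, hs⟩
    · left
      refine ⟨fun a => tup n (H ∘ P (g a)), ?_, fun a b => hg2 a b⟩
      intro a b hab
      apply tup_lex
      obtain ⟨i, hi, hag, hlt⟩ := seq_lex ν _ _ (hg1 a b hab)
      refine ⟨μ + i, by omega, ?_, ?_⟩
      · intro j hj
        simp only [Function.comp, P]
        by_cases h1 : j < μ
        · rw [if_pos h1, if_pos h1]
        · rw [if_neg h1, if_neg h1, hag (j - μ) (by omega)]
      · simp only [Function.comp, P]
        rw [if_neg (by omega), if_neg (by omega)]
        apply hH
        rw [Nat.add_sub_cancel_left]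
        omega
    · right
      -- bound on the entries
      obtain ⟨Λ, hΛ⟩ : ∃ Λ, ∀ t ∈ s, ∀ i, i < ν → seq ν t i < Λ := by
        refine ⟨s.sup (fun t => seq ν t ν) + 1, ?_⟩
        intro t ht i hi
        have h1 : seq ν t ν ≤ s.sup (fun t => seq ν t ν) :=
          Finset.le_sup (f := fun t => seq ν t ν) ht
        have h2 := seq_mono ν t hi
        omega
      let X : (ℕ → ℕ) → N ν → ℕ → ℕ := fun z t i =>
        if i < μ then Λ * z i else Λ * z μ + seq ν t (i - μ)
      have hΛpos : s.Nonempty → 0 < Λ := by
        rintro ⟨t, ht⟩
        have := hΛ t ht 0 (by omega)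
        omega
      have hΛmul : ∀ a b : ℕ, a < b → Λ * a + Λ ≤ Λ * b := by
        intro a b hab
        calc Λ * a + Λ = Λ * (a + 1) := by ring
          _ ≤ Λ * b := Nat.mul_le_mul_left Λ hab
      have hX : ∀ z, Inc n z → ∀ t ∈ s, Inc n (X z t) := by
        intro z hz t ht i j hij hj
        have hpos := hΛpos ⟨t, ht⟩
        simp only [X]
        by_cases h1 : i < μ
        · by_cases h2 : j < μ
          · rw [if_pos h1, if_pos h2]
            have := hΛmul _ _ (hz i j hij hj)
            omega
          · rw [if_pos h1, if_neg h2]
            have := hΛmul _ _ (hz i μ h1 (by omega))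
            omega
        · rw [if_neg h1, if_neg (by omega)]
          have := seq_mono ν t (show i - μ < j - μ by omega)
          omega
      -- within one side
      have hside : ∀ z, Inc n z → ∀ t ∈ s, ∀ t' ∈ s, t ≠ t' →
          G.Adj (tup n (H ∘ X z t)) (tup n (H ∘ X z t')) := by
        intro z hz t ht t' ht' htt'
        have h1 : T.Adj t t' := hs.isClique ht ht' htt'
        have h2 : G.Adj (tup n (H ∘ P t)) (tup n (H ∘ P t')) := h1
        refine (hcan _ _ _ _ (hP t) (hP t') (hX z hz t ht) (hX z hz t' ht') ?_).mp h2
        have hpos := hΛpos ⟨t, ht⟩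
        intro i j hi hj
        simp only [P, X]
        by_cases hi1 : i < μ
        · by_cases hj1 : j < μ
          · simp only [if_pos hi1, if_pos hj1]
            constructor
            · constructor
              · intro hij
                have := hΛmul _ _ (hz i j hij hj); omega
              · intro hlt
                by_contra hcon
                rcases Nat.lt_or_eq_of_le (not_lt.mp hcon) with h | h
                · have := hΛmul _ _ (hz j i h hi); omega
                · subst h; omega
            · constructor
              · intro hij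
                have := hΛmul _ _ (hz j i hij hi); omega
              · intro hlt
                by_contra hcon
                rcases Nat.lt_or_eq_of_le (not_lt.mp hcon) with h | h
                · have := hΛmul _ _ (hz i j h hj); omega
                · subst h; omega
          · simp only [if_pos hi1, if_neg hj1]
            have h3 := hΛmul _ _ (hz i μ hi1 (by omega))
            constructor <;> constructor <;> intro <;> omega
        · by_cases hj1 : j < μ
          · simp only [if_neg hi1, if_pos hj1]
            have h3 := hΛmul _ _ (hz j μ hj1 (by omega))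
            constructor <;> constructor <;> intro <;> omega
          · simp only [if_neg hi1, if_neg hj1]
            constructor <;> constructor <;> intro <;> omega
      -- across
      have hacross : ∀ t ∈ s, ∀ t' ∈ s, G.Adj (tup n (H ∘ X x t)) (tup n (H ∘ X y t')) := by
        intro t ht t' ht'
        refine (hcan _ _ _ _ hx hy (hX x hx t ht) (hX y hy t' ht') ?_).mp hadj
        have hpos := hΛpos ⟨t, ht⟩
        have xm : ∀ i, i < n → μ ≤ i → x μ ≤ x i ∧ x i ≤ x (n - 1) := by
          intro i hi hmi
          constructor
          · rcases Nat.lt_or_eq_of_le hmi with h | h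
            · exact le_of_lt (hx _ _ h hi)
            · subst h; rfl
          · rcases Nat.lt_or_eq_of_le (show i ≤ n - 1 by omega) with h | h
            · exact le_of_lt (hx _ _ h (by omega))
            · rw [← h]
        have ym : ∀ i, i < n → μ ≤ i → y μ ≤ y i ∧ y i ≤ y (n - 1) := by
          intro i hi hmi
          constructor
          · rcases Nat.lt_or_eq_of_le hmi with h | h
            · exact le_of_lt (hy _ _ h hi)
            · subst h; rfl
          · rcases Nat.lt_or_eq_of_le (show i ≤ n - 1 by omega) with h | h
            · exact le_of_lt (hy _ _ h (by omega))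
            · rw [← h]
        intro i j hi hj
        simp only [X]
        by_cases hi1 : i < μ
        · by_cases hj1 : j < μ
          · simp only [if_pos hi1, if_pos hj1]
            constructor
            · constructor
              · intro hij
                have := hΛmul _ _ hij; omega
              · intro hlt
                by_contra hcon
                have := Nat.mul_le_mul_left Λ (not_lt.mp hcon); omega
            · constructor
              · intro hij
                have := hΛmul _ _ hij; omega
              · intro hlt
                by_contra hcon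
                have := Nat.mul_le_mul_left Λ (not_lt.mp hcon); omega
          · simp only [if_pos hi1, if_neg hj1]
            have h3 := ym j hj (not_lt.mp hj1)
            have h4 := hΛ t' ht' (j - μ) (by omega)
            rcases hyx i hi with h | h
            · have := hΛmul _ _ h
              constructor <;> constructor <;> intro <;> omega
            · have h5 : y μ < x i := by omega
              have := hΛmul _ _ h5
              constructor <;> constructor <;> intro <;> omega
        · by_cases hj1 : j < μ
          · simp only [if_neg hi1, if_pos hj1]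
            have h3 := xm i hi (not_lt.mp hi1)
            have h4 := hΛ t ht (i - μ) (by omega)
            rcases hxy j hj with h | h
            · have := hΛmul _ _ h
              constructor <;> constructor <;> intro <;> omega
            · have h5 : x μ < y j := by omega
              have := hΛmul _ _ h5
              constructor <;> constructor <;> intro <;> omega
          · simp only [if_neg hi1, if_neg hj1]
            have h3 := xm i hi (not_lt.mp hi1)
            have h4 := hΛ t ht (i - μ) (by omega)
            have h3' := ym j hj (not_lt.mp hj1)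
            have h4' := hΛ t' ht' (j - μ) (by omega)
            rcases hxy j hj with h | h
            · have h6 : y μ < x μ := by omega
              have := hΛmul _ _ h6
              constructor <;> constructor <;> intro <;> omega
            · rcases hyx i hi with h' | h'
              · have h6 : x μ < y μ := by omega
                have := hΛmul _ _ h6
                constructor <;> constructor <;> intro <;> omega
              · omega
      -- the clique
      have hinj : ∀ z, Inc n z → Set.InjOn (fun t => tup n (H ∘ X z t)) s := by
        intro z hz t ht t' ht' heq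
        by_contra hne
        have := hside z hz t ht t' ht' hne
        have heq' : tup n (H ∘ X z t) = tup n (H ∘ X z t') := heq
        rw [heq'] at this
        exact G.irrefl this
      refine ⟨s.image (fun t => tup n (H ∘ X x t)) ∪ s.image (fun t => tup n (H ∘ X y t)), ?_, ?_⟩
      · intro a ha b hb hab
        simp only [Finset.coe_union, Finset.coe_image, Set.mem_union, Set.mem_image] at ha hb
        rcases ha with ⟨t, ht, rfl⟩ | ⟨t, ht, rfl⟩ <;> rcases hb with ⟨t', ht', rfl⟩ | ⟨t', ht', rfl⟩
        · exact hside x hx t ht t' ht' (fun h => hab (by rw [h]))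
        · exact hacross t ht t' ht'
        · exact (hacross t' ht' t ht).symm
        · exact hside y hy t ht t' ht' (fun h => hab (by rw [h]))
      · rw [Finset.card_union_of_disjoint, Finset.card_image_of_injOn (hinj x hx),
          Finset.card_image_of_injOn (hinj y hy), hs.card_eq]
        · ring
        · rw [Finset.disjoint_left]
          intro a ha hb
          obtain ⟨t, ht, rfl⟩ := Finset.mem_image.mp ha
          obtain ⟨t', ht', heq⟩ := Finset.mem_image.mp hb
          have := hacross t ht t' ht'
          rw [heq] at this
          exact G.irrefl this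
  · -- independent set
    left
    push Not at hC
    let Q : (ℕ → ℕ) → ℕ → ℕ := fun s j =>
      if j < μ then ν * code s j else ν * code s μ + (j - μ)
    have hmul : ∀ a b : ℕ, a < b → ν * a + ν ≤ ν * b := by
      intro a b hab
      calc ν * a + ν = ν * (a + 1) := by ring
        _ ≤ ν * b := Nat.mul_le_mul_left ν hab
    have hQ : ∀ s, StrictMono s → Inc n (Q s) := by
      intro s hs i j hij hj
      simp only [Q]
      by_cases h1 : i < μ
      · by_cases h2 : j < μ
        · rw [if_pos h1, if_pos h2]
          have := hmul _ _ (code_lt hs hij); omega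
        · rw [if_pos h1, if_neg h2]
          have := hmul _ _ (code_lt hs h1); omega
      · rw [if_neg h1, if_neg (by omega)]
        omega
    have hcont : ∀ s s', StrictMono s → StrictMono s' → (∃ i ≤ μ, s i ≠ s' i) →
        ∀ j < n, Q s' j < Q s μ ∨ Q s (n - 1) < Q s' j := by
      intro s s' hs hs' hne j hj
      have e1 : Q s μ = ν * code s μ := by simp only [Q]; rw [if_neg (by omega)]; omega
      have e2 : Q s (n - 1) = ν * code s μ + (ν - 1) := by
        simp only [Q]; rw [if_neg (by omega)]; omega
      rw [e1, e2]
      have hcode : ∀ j' ≤ μ, code s' j' < code s μ ∨ code s μ < code s' j' := by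
        intro j' hj'
        rcases lt_trichotomy (code s' j') (code s μ) with h | h | h
        · left; exact h
        · exfalso
          obtain ⟨h1, h2⟩ := code_inj hs' hs h
          obtain ⟨i, hi, hi2⟩ := hne
          exact hi2 (h2 i (by omega)).symm
        · right; exact h
      simp only [Q]
      by_cases h1 : j < μ
      · rw [if_pos h1]
        rcases hcode j (by omega) with h | h
        · left; have := hmul _ _ h; omega
        · right; have := hmul _ _ h; omega
      · rw [if_neg h1]
        rcases hcode μ le_rfl with h | h
        · left; have := hmul _ _ h; omega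
        · right; have := hmul _ _ h; omega
    have hnonadj : ∀ s s', StrictMono s → StrictMono s' → (∃ i ≤ μ, s i ≠ s' i) →
        ¬ G.Adj (tup n (H ∘ Q s)) (tup n (H ∘ Q s')) := by
      intro s s' hs hs' hne
      apply hC _ _ (hQ s hs) (hQ s' hs')
      · exact hcont s s' hs hs' hne
      · obtain ⟨i, hi, hi2⟩ := hne
        exact hcont s' s hs' hs ⟨i, hi, hi2.symm⟩
    refine ⟨fun a => tup n (H ∘ Q (seq (μ + 1) a)), ?_, ?_⟩
    · intro a b hab
      obtain ⟨i, hi, hag, hlt⟩ := seq_lex _ _ _ hab
      apply tup_lex
      have hsa := seq_mono (μ + 1) a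
      have hsb := seq_mono (μ + 1) b
      refine ⟨i, by omega, ?_, ?_⟩
      · intro j hj
        simp only [Function.comp, Q]
        rw [if_pos (by omega), if_pos (by omega),
          code_congr (s := seq (μ + 1) a) (s' := seq (μ + 1) b) (fun l hl => hag l (by omega))]
      · simp only [Function.comp, Q]
        apply hH
        have hc := code_lex hsa hsb (i := i) (fun j hj => hag j hj) hlt
        have := hmul _ _ hc
        by_cases h1 : i < μ
        · rw [if_pos h1, if_pos h1]; omega
        · have : i = μ := by omega
          subst this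
          rw [if_neg h1, if_neg h1]; omega
    · intro a b
      rcases R_tri a b with h | h | h
      · obtain ⟨i, hi, hag, hlt⟩ := seq_lex _ _ _ h
        exact hnonadj _ _ (seq_mono _ _) (seq_mono _ _) ⟨i, by omega, ne_of_lt hlt⟩
      · subst h; exact G.irrefl
      · obtain ⟨i, hi, hag, hlt⟩ := seq_lex _ _ _ h
        exact hnonadj _ _ (seq_mono _ _) (seq_mono _ _) ⟨i, by omega, (ne_of_lt hlt).symm⟩

theorem PArr_one (k : ℕ) : PArr 1 k 1 := by
  intro G
  right
  obtain ⟨x⟩ : Nonempty (N 1) := ⟨(0, ())⟩
  refine ⟨{x}, ?_, Finset.card_singleton _⟩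
  intro a ha b hb hab
  rw [Finset.mem_coe, Finset.mem_singleton] at ha hb
  exact absurd (ha.trans hb.symm) hab

theorem PArr_base (μ l : ℕ) : PArr (1 + μ * l) (μ + 1) (2 ^ l) := by
  induction l with
  | zero => exact PArr_one _
  | succ l ih =>
    have := PArr_step (n := μ + (1 + μ * l)) (μ := μ) (by omega) rfl ih
    rw [pow_succ, mul_comm (2 ^ l) 2]
    rw [show 1 + μ * (l + 1) = μ + (1 + μ * l) by ring]
    exact this

theorem PArr_mono_succ {n k m : ℕ} (h : PArr n k m) : PArr (n + 1) k m := by
  intro G
  let ι : N n → N (n + 1) := fun a => (0, a)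
  have hι : Function.Injective ι := by
    intro a b hab
    exact (Prod.mk.inj hab).2
  rcases h (SimpleGraph.comap ι G) with ⟨g, hg1, hg2⟩ | ⟨s, hs⟩
  · left
    refine ⟨fun a => ι (g a), ?_, fun a b => hg2 a b⟩
    intro a b hab
    show R (n + 1) (0, g a) (0, g b)
    rw [R_succ]
    exact Or.inr ⟨rfl, hg1 a b hab⟩
  · right
    refine ⟨s.map ⟨ι, hι⟩, ?_, ?_⟩
    · intro a ha b hb hab
      simp only [Finset.coe_map, Function.Embedding.coeFn_mk, Set.mem_image] at ha hb
      obtain ⟨a', ha', rfl⟩ := ha
      obtain ⟨b', hb', rfl⟩ := hb
      exact hs.isClique ha' hb' (fun h => hab (by rw [h]))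
    · rw [Finset.card_map, hs.card_eq]

theorem PArr_mono {n n' k m : ℕ} (hnn : n ≤ n') (h : PArr n k m) : PArr n' k m := by
  induction hnn with
  | refl => exact h
  | step _ ih => exact PArr_mono_succ ih

theorem PArr_mono_m {n k m m' : ℕ} (hm : m' ≤ m) (h : PArr n k m) : PArr n k m' := by
  intro G
  rcases h G with h | ⟨s, hs⟩
  · exact Or.inl h
  · right
    obtain ⟨t, ht, htc⟩ := Finset.exists_subset_card_eq (show m' ≤ s.card by rw [hs.card_eq]; exact hm)
    exact ⟨t, hs.isClique.subset (by exact_mod_cast ht), htc⟩

theorem PArr.arrow {n k m : ℕ} (h : PArr n k m) :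
    Arrow ((Ordinal.omega0 : Ordinal.{0}) ^ n) (Ordinal.omega0 ^ k) m := by
  intro G
  obtain ⟨e⟩ : Nonempty (R n ≃r (fun x y : ((Ordinal.omega0 : Ordinal.{0}) ^ n).ToType => x < y)) := by
    apply Ordinal.type_eq.mp
    rw [type_R]
    exact (Ordinal.type_toType _).symm
  rcases h (SimpleGraph.comap e G) with ⟨g, hg1, hg2⟩ | ⟨s, hs⟩
  · left
    refine ⟨Set.range (fun a => e (g a)), ?_, ?_⟩
    · rw [← type_R k]
      symm
      apply Ordinal.type_eq.mpr
      have hmono : ∀ a b, R k a b → e (g a) < e (g b) := fun a b hab => e.map_rel_iff.mpr (hg1 a b hab)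
      have hinj : Function.Injective (fun a => e (g a)) := by
        intro a b hab
        rcases R_tri a b with h | h | h
        · exact absurd hab (ne_of_lt (hmono a b h))
        · exact h
        · exact absurd hab.symm (ne_of_lt (hmono b a h))
      refine ⟨⟨Equiv.ofInjective _ hinj, ?_⟩⟩
      intro a b
      show e (g a) < e (g b) ↔ R k a b
      constructor
      · intro hlt
        rcases R_tri a b with h | h | h
        · exact h
        · subst h; exact absurd hlt (lt_irrefl _)
        · exact absurd (hmono b a h) (not_lt.mpr (le_of_lt hlt))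
      · exact hmono a b
    · rintro _ ⟨a, rfl⟩ _ ⟨b, rfl⟩ _
      exact hg2 a b
  · right
    refine ⟨s.map e.toEquiv.toEmbedding, ?_, ?_⟩
    · intro a ha b hb hab
      simp only [Finset.coe_map, Set.mem_image] at ha hb
      obtain ⟨a', ha', rfl⟩ := ha
      obtain ⟨b', hb', rfl⟩ := hb
      exact hs.isClique ha' hb' (fun h => hab (by rw [h]))
    · rw [Finset.card_map, hs.card_eq]

/-- **Erdős–Milner**, restricted to finite powers. -/
theorem arrow_pos {n k m : ℕ} (hn : 1 ≤ n) (hk : 1 ≤ k) (hm : m ≤ 2 ^ ((n - 1) / (k - 1))) :
    Arrow ((Ordinal.omega0 : Ordinal.{0}) ^ n) (Ordinal.omega0 ^ k) m := by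
  obtain ⟨μ, rfl⟩ : ∃ μ, k = μ + 1 := ⟨k - 1, by omega⟩
  rw [Nat.add_sub_cancel] at hm
  have h1 : 1 + μ * ((n - 1) / μ) ≤ n := by
    have := Nat.mul_div_le (n - 1) μ
    omega
  exact (PArr_mono_m hm (PArr_mono h1 (PArr_base μ ((n - 1) / μ)))).arrow

end Pool.Agent.Y583.Fkn
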