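import Mathlib

/-!
Infinite Ramsey theorem for finite subsets of `ℕ` and its canonical form for relations between
increasing sequences.
-/

namespace Pool.Agent.Y583.Fkn

open Filter

/-- For a finite colouring of `ℕ` some colour class is large. -/
theorem exists_limit {κ : Type} [Finite κ] (g : ℕ → κ) :
    ∃ j, ∀ᶠ a in (hyperfilter ℕ : Filter ℕ), g a = j := by
  obtain ⟨j, hj⟩ := Ultrafilter.eq_pure_of_finite ((hyperfilter ℕ).map g)
  refine ⟨j, ?_⟩
  have h1 : ({j} : Set κ) ∈ (hyperfilter ℕ).map g := by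
    rw [hj]
    exact (Ultrafilter.mem_pure).mpr rfl
  exact h1

/-- limit colour -/
noncomputable def Lc {κ : Type} [Finite κ] (c : Finset ℕ → κ) : ℕ → Finset ℕ → κ
  | 0 => c
  | (s + 1) => fun F => (exists_limit fun a => Lc c s (insert a F)).choose

theorem Lc_succ {κ : Type} [Finite κ] (c : Finset ℕ → κ) (s : ℕ) (F : Finset ℕ) :
    ∀ᶠ a in (hyperfilter ℕ : Filter ℕ), Lc c s (insert a F) = Lc c (s + 1) F :=
  (exists_limit fun a => Lc c s (insert a F)).choose_spec

/-- good finite sets -/
def GoodSet {κ : Type} [Finite κ] (c : Finset ℕ → κ) (r : ℕ) (S : Finset ℕ) : Prop :=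
  ∀ F ⊆ S, F.card ≤ r → Lc c (r - F.card) F = Lc c r ∅

theorem GoodSet_empty {κ : Type} [Finite κ] (c : Finset ℕ → κ) (r : ℕ) : GoodSet c r ∅ := by
  intro F hF _
  have : F = ∅ := Finset.subset_empty.mp hF
  subst this
  simp

theorem GoodSet_step {κ : Type} [Finite κ] (c : Finset ℕ → κ) (r : ℕ) (S : Finset ℕ)
    (hS : GoodSet c r S) (M : ℕ) : ∃ a, M < a ∧ a ∉ S ∧ GoodSet c r (insert a S) := by
  have h1 : ∀ᶠ a in (hyperfilter ℕ : Filter ℕ), ∀ F ∈ S.powerset, F.card < r →
      Lc c (r - F.card - 1) (insert a F) = Lc c (r - F.card) F := by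
    rw [eventually_all_finset]
    intro F hF
    by_cases hFr : F.card < r
    · have h2 := Lc_succ c (r - F.card - 1) F
      rw [show r - F.card - 1 + 1 = r - F.card by omega] at h2
      filter_upwards [h2] with a ha _ using ha
    · filter_upwards with a h using absurd h hFr
  have h2 : ∀ᶠ a in (hyperfilter ℕ : Filter ℕ), max M (S.sup id) < a := by
    have : ∀ᶠ a in (cofinite : Filter ℕ), max M (S.sup id) < a := by
      rw [Nat.cofinite_eq_atTop]
      exact eventually_gt_atTop _
    exact hyperfilter_le_cofinite this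
  obtain ⟨a, ha1, ha2⟩ := (h1.and h2).exists
  have haS : a ∉ S := by
    intro h
    have : a ≤ S.sup id := Finset.le_sup (f := id) h
    omega
  refine ⟨a, by omega, haS, ?_⟩
  intro F hF hcard
  by_cases haF : a ∈ F
  · have hsub : F.erase a ⊆ S := by
      intro b hb
      rw [Finset.mem_erase] at hb
      have := hF hb.2
      rw [Finset.mem_insert] at this
      exact this.resolve_left hb.1
    have hc : (F.erase a).card = F.card - 1 := Finset.card_erase_of_mem haF
    have hpos : 0 < F.card := Finset.card_pos.mpr ⟨a, haF⟩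
    have h3 := ha1 (F.erase a) (Finset.mem_powerset.mpr hsub) (by omega)
    rw [Finset.insert_erase haF, hc] at h3
    rw [show r - F.card = r - (F.card - 1) - 1 by omega, h3, ← hc]
    exact hS _ hsub (by omega)
  · apply hS F _ hcard
    intro b hb
    have := hF hb
    rw [Finset.mem_insert] at this
    rcases this with h | h
    · subst h; exact absurd hb haF
    · exact h

/-- **Infinite Ramsey theorem.** -/
theorem ramsey {κ : Type} [Finite κ] (c : Finset ℕ → κ) (r : ℕ) :
    ∃ h : ℕ → ℕ, StrictMono h ∧ ∃ j, ∀ F : Finset ℕ, F.card = r → c (F.image h) = j := by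
  choose! nx hnx1 hnx2 hnx3 using GoodSet_step c r
  -- states : (last element, set)
  obtain ⟨st, hst0, hst⟩ : ∃ st : ℕ → ℕ × Finset ℕ, st 0 = (0, ∅) ∧
      ∀ k, st (k + 1) = (nx (st k).2 (st k).1, insert (nx (st k).2 (st k).1) (st k).2) :=
    ⟨fun k => Nat.rec (0, ∅) (fun _ p => (nx p.2 p.1, insert (nx p.2 p.1) p.2)) k, rfl,
      fun k => rfl⟩
  have hgood : ∀ k, GoodSet c r (st k).2 := by
    intro k
    induction k with
    | zero => rw [hst0]; exact GoodSet_empty c r
    | succ k ih => rw [hst]; exact hnx3 _ ih _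
  have hlt : ∀ k, (st k).1 < (st (k + 1)).1 := by
    intro k
    rw [hst]
    exact hnx1 _ (hgood k) _
  have hmono : StrictMono (fun k => (st (k + 1)).1) := strictMono_nat_of_lt_succ fun k => hlt (k + 1)
  have hmem : ∀ k i, i < k → (st (i + 1)).1 ∈ (st k).2 := by
    intro k
    induction k with
    | zero => intro i hi; omega
    | succ k ih =>
      intro i hi
      rw [hst k]
      rcases Nat.lt_succ_iff_lt_or_eq.mp hi with h | h
      · exact Finset.mem_insert_of_mem (ih i h)
      · subst h
        rw [hst]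
        exact Finset.mem_insert_self _ _
  refine ⟨fun k => (st (k + 1)).1, hmono, Lc c r ∅, ?_⟩
  intro F hF
  have hsub : F.image (fun k => (st (k + 1)).1) ⊆ (st (F.sup id + 1)).2 := by
    intro b hb
    obtain ⟨i, hi, rfl⟩ := Finset.mem_image.mp hb
    apply hmem
    have : i ≤ F.sup id := Finset.le_sup (f := id) hi
    omega
  have hcard : (F.image (fun k => (st (k + 1)).1)).card = r := by
    rw [Finset.card_image_of_injective _ hmono.injective, hF]
  have := hgood _ _ hsub (le_of_eq hcard)
  rw [hcard, Nat.sub_self] at this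
  exact this

/-- strictly increasing on the first `n` coordinates -/
def Inc (n : ℕ) (x : ℕ → ℕ) : Prop := ∀ i j, i < j → j < n → x i < x j

/-- same relative position -/
def Pat (n : ℕ) (x y x' y' : ℕ → ℕ) : Prop :=
  ∀ i j, i < n → j < n → ((x i < y j ↔ x' i < y' j) ∧ (y j < x i ↔ y' j < x' i))

theorem Pat.symm {n : ℕ} {x y x' y' : ℕ → ℕ} (h : Pat n x y x' y') : Pat n x' y' x y :=
  fun i j hi hj => ⟨(h i j hi hj).1.symm, (h i j hi hj).2.symm⟩

theorem Pat.swap {n : ℕ} {x y x' y' : ℕ → ℕ} (h : Pat n x y x' y') : Pat n y x y' x' :=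
  fun i j hi hj => ⟨(h j i hj hi).2, (h j i hj hi).1⟩

/-- the rank of `x i` in the union of the ranges -/
theorem rank_formula {n : ℕ} {x y : ℕ → ℕ} (hx : Inc n x) (hy : Inc n y) {F E : Finset ℕ}
    (hF : F = (Finset.range n).image x ∪ (Finset.range n).image y ∪ E)
    (hE : ∀ w ∈ E, ∀ i < n, x i < w) (i : ℕ) (hi : i < n) :
    Nat.count (· ∈ F) (x i) =
      i + ((Finset.range n).filter (fun j => y j < x i ∧ ∀ i' < n, y j ≠ x i')).card := by
  classical
  rw [Nat.count_eq_card_filter_range]
  have h1 : (Finset.range (x i)).filter (· ∈ F) =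
      (Finset.range i).image x ∪
        ((Finset.range n).filter (fun j => y j < x i ∧ ∀ i' < n, y j ≠ x i')).image y := by
    ext w
    simp only [Finset.mem_filter, Finset.mem_range, hF, Finset.mem_union, Finset.mem_image]
    constructor
    · rintro ⟨hw, (⟨i', hi', rfl⟩ | ⟨j, hj, rfl⟩) | hw'⟩
      · left
        refine ⟨i', ?_, rfl⟩
        by_contra hcon
        rcases Nat.lt_or_eq_of_le (not_lt.mp hcon) with h | h
        · have := hx i i' h hi'; omega
        · subst h; omega
      · by_cases h : ∃ i' < n, y j = x i'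
        · obtain ⟨i', hi', heq⟩ := h
          left
          refine ⟨i', ?_, heq.symm⟩
          by_contra hcon
          rcases Nat.lt_or_eq_of_le (not_lt.mp hcon) with h | h
          · have := hx i i' h hi'; omega
          · subst h; omega
        · push Not at h
          right
          exact ⟨j, ⟨hj, hw, h⟩, rfl⟩
      · exact absurd (hE w hw' i hi) (by omega)
    · rintro (⟨i', hi', rfl⟩ | ⟨j, ⟨hj, hw, -⟩, rfl⟩)
      · exact ⟨hx i' i hi' hi, Or.inl (Or.inl ⟨i', by omega, rfl⟩)⟩
      · exact ⟨hw, Or.inl (Or.inr ⟨j, hj, rfl⟩)⟩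
  have h2 : Disjoint ((Finset.range i).image x)
      (((Finset.range n).filter (fun j => y j < x i ∧ ∀ i' < n, y j ≠ x i')).image y) := by
    rw [Finset.disjoint_left]
    intro w hw hw'
    simp only [Finset.mem_filter, Finset.mem_range, Finset.mem_image] at hw hw'
    obtain ⟨i', hi', rfl⟩ := hw
    obtain ⟨j, ⟨hj, hw, hne⟩, heq⟩ := hw'
    exact hne i' (by omega) heq
  rw [h1, Finset.card_union_of_disjoint h2, Finset.card_image_of_injOn, Finset.card_image_of_injOn,
    Finset.card_range]
  · intro a ha b hb hab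
    simp only [Finset.coe_filter, Finset.mem_range, Set.mem_ofPred_eq] at ha hb
    by_contra hne
    rcases lt_or_gt_of_ne hne with h | h
    · have := hy a b h hb.1; omega
    · have := hy b a h ha.1; omega
  · intro a ha b hb hab
    simp only [Finset.coe_range, Set.mem_Iio] at ha hb
    by_contra hne
    rcases lt_or_gt_of_ne hne with h | h
    · have := hx a b h (by omega); omega
    · have := hx b a h (by omega); omega

theorem rank_eq {n : ℕ} {x y x' y' : ℕ → ℕ} (hx : Inc n x) (hy : Inc n y) (hx' : Inc n x')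
    (hy' : Inc n y') (hP : Pat n x y x' y') {F E F' E' : Finset ℕ}
    (hF : F = (Finset.range n).image x ∪ (Finset.range n).image y ∪ E)
    (hE : ∀ w ∈ E, ∀ i < n, x i < w)
    (hF' : F' = (Finset.range n).image x' ∪ (Finset.range n).image y' ∪ E')
    (hE' : ∀ w ∈ E', ∀ i < n, x' i < w) (i : ℕ) (hi : i < n) :
    Nat.count (· ∈ F) (x i) = Nat.count (· ∈ F') (x' i) := by
  rw [rank_formula hx hy hF hE i hi, rank_formula hx' hy' hF' hE' i hi]
  congr 2
  apply Finset.filter_congr
  intro j hj
  rw [Finset.mem_range] at hj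
  have h1 := (hP i j hi hj).2
  constructor
  · rintro ⟨h2, h3⟩
    refine ⟨h1.mp h2, fun i' hi' heq => ?_⟩
    have h4 := hP i' j hi' hj
    have h5 := h3 i' hi'
    have h6 : ¬ x i' < y j := fun h => by have := h4.1.mp h; omega
    have h7 : ¬ y j < x i' := fun h => by have := h4.2.mp h; omega
    omega
  · rintro ⟨h2, h3⟩
    refine ⟨h1.mpr h2, fun i' hi' heq => ?_⟩
    have h4 := hP i' j hi' hj
    have h5 := h3 i' hi'
    have h6 : ¬ x' i' < y' j := fun h => by have := h4.1.mpr h; omega
    have h7 : ¬ y' j < x' i' := fun h => by have := h4.2.mpr h; omega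
    omega

/-- a `2n`-set containing both ranges, with the additional elements above -/
theorem exists_F {n : ℕ} (x y : ℕ → ℕ) : ∃ F E : Finset ℕ,
    F = (Finset.range n).image x ∪ (Finset.range n).image y ∪ E ∧ F.card = 2 * n ∧
    (∀ w ∈ E, ∀ i < n, x i < w ∧ y i < w) := by
  classical
  set P := (Finset.range n).image x ∪ (Finset.range n).image y with hP
  set M := P.sup id + 1 with hM
  have hPc : P.card ≤ 2 * n := by
    calc P.card ≤ ((Finset.range n).image x).card + ((Finset.range n).image y).card :=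
          Finset.card_union_le _ _
      _ ≤ (Finset.range n).card + (Finset.range n).card :=
          Nat.add_le_add Finset.card_image_le Finset.card_image_le
      _ = 2 * n := by rw [Finset.card_range]; ring
  have hlt : ∀ w ∈ P, w < M := by
    intro w hw
    have : w ≤ P.sup id := Finset.le_sup (f := id) hw
    omega
  refine ⟨P ∪ Finset.Ico M (M + (2 * n - P.card)), Finset.Ico M (M + (2 * n - P.card)), rfl, ?_, ?_⟩
  · rw [Finset.card_union_of_disjoint, Nat.card_Ico]
    · omega
    · rw [Finset.disjoint_left]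
      intro w hw hw'
      rw [Finset.mem_Ico] at hw'
      have := hlt w hw
      omega
  · intro w hw i hi
    rw [Finset.mem_Ico] at hw
    have h1 := hlt (x i) (Finset.mem_union_left _
      (Finset.mem_image_of_mem _ (Finset.mem_range.mpr hi)))
    have h2 := hlt (y i) (Finset.mem_union_right _
      (Finset.mem_image_of_mem _ (Finset.mem_range.mpr hi)))
    omega

theorem count_image {h : ℕ → ℕ} (hh : StrictMono h) (F : Finset ℕ) (v : ℕ) :
    Nat.count (· ∈ F.image h) (h v) = Nat.count (· ∈ F) v := by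
  classical
  rw [Nat.count_eq_card_filter_range, Nat.count_eq_card_filter_range]
  have : (Finset.range (h v)).filter (· ∈ F.image h) =
      ((Finset.range v).filter (· ∈ F)).image h := by
    ext w
    simp only [Finset.mem_filter, Finset.mem_range, Finset.mem_image]
    constructor
    · rintro ⟨hw, a, ha, rfl⟩
      exact ⟨a, ⟨hh.lt_iff_lt.mp hw, ha⟩, rfl⟩
    · rintro ⟨a, ⟨hw, ha⟩, rfl⟩
      exact ⟨hh hw, a, ha, rfl⟩
  rw [this, Finset.card_image_of_injective _ hh.injective]

/-- **Canonical form.** -/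
theorem canonical (n : ℕ) (A : (ℕ → ℕ) → (ℕ → ℕ) → Prop)
    (hA : ∀ x x' y y', (∀ i < n, x i = x' i) → (∀ i < n, y i = y' i) → (A x y ↔ A x' y')) :
    ∃ h : ℕ → ℕ, StrictMono h ∧ ∀ x y x' y', Inc n x → Inc n y → Inc n x' → Inc n y' →
      Pat n x y x' y' → (A (h ∘ x) (h ∘ y) ↔ A (h ∘ x') (h ∘ y')) := by
  classical
  let ext : (Fin n → Fin (2 * n)) → ℕ → ℕ := fun p i => if hi : i < n then (p ⟨i, hi⟩ : ℕ) else 0
  let c : Finset ℕ → ((Fin n → Fin (2 * n)) → (Fin n → Fin (2 * n)) → Prop) :=
    fun F p q => A (fun i => Nat.nth (· ∈ F) (ext p i)) (fun i => Nat.nth (· ∈ F) (ext q i))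
  obtain ⟨h, hh, j, hj⟩ := ramsey c (2 * n)
  refine ⟨h, hh, ?_⟩
  intro x y x' y' hx hy hx' hy' hP
  obtain ⟨F, E, hF, hFc, hE⟩ := exists_F (n := n) x y
  obtain ⟨F', E', hF', hFc', hE'⟩ := exists_F (n := n) x' y'
  have hrx : ∀ i, i < n → Nat.count (· ∈ F) (x i) = Nat.count (· ∈ F') (x' i) := fun i hi =>
    rank_eq hx hy hx' hy' hP hF (fun w hw i hi => (hE w hw i hi).1) hF'
      (fun w hw i hi => (hE' w hw i hi).1) i hi
  have hry : ∀ i, i < n → Nat.count (· ∈ F) (y i) = Nat.count (· ∈ F') (y' i) := fun i hi =>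
    rank_eq hy hx hy' hx' hP.swap (by rw [hF, Finset.union_comm ((Finset.range n).image x)])
      (fun w hw i hi => (hE w hw i hi).2)
      (by rw [hF', Finset.union_comm ((Finset.range n).image x')])
      (fun w hw i hi => (hE' w hw i hi).2) i hi
  have hlt : ∀ (G : Finset ℕ), G.card = 2 * n → ∀ v ∈ G, Nat.count (· ∈ G) v < 2 * n := by
    intro G hG v hv
    rw [Nat.count_eq_card_filter_range, ← hG]
    apply Finset.card_lt_card
    rw [Finset.ssubset_iff_of_subset]
    · exact ⟨v, hv, by simp⟩
    · intro w hw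
      exact (Finset.mem_filter.mp hw).2
  have hxF : ∀ i, i < n → x i ∈ F := fun i hi => by
    rw [hF]
    exact Finset.mem_union_left _ (Finset.mem_union_left _
      (Finset.mem_image_of_mem _ (Finset.mem_range.mpr hi)))
  have hyF : ∀ i, i < n → y i ∈ F := fun i hi => by
    rw [hF]
    exact Finset.mem_union_left _ (Finset.mem_union_right _
      (Finset.mem_image_of_mem _ (Finset.mem_range.mpr hi)))
  have hxF' : ∀ i, i < n → x' i ∈ F' := fun i hi => by
    rw [hF']
    exact Finset.mem_union_left _ (Finset.mem_union_left _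
      (Finset.mem_image_of_mem _ (Finset.mem_range.mpr hi)))
  have hyF' : ∀ i, i < n → y' i ∈ F' := fun i hi => by
    rw [hF']
    exact Finset.mem_union_left _ (Finset.mem_union_right _
      (Finset.mem_image_of_mem _ (Finset.mem_range.mpr hi)))
  let p : Fin n → Fin (2 * n) := fun i => ⟨Nat.count (· ∈ F) (x i), hlt F hFc _ (hxF i i.2)⟩
  let q : Fin n → Fin (2 * n) := fun i => ⟨Nat.count (· ∈ F) (y i), hlt F hFc _ (hyF i i.2)⟩
  have key : ∀ (G : Finset ℕ) (z : ℕ → ℕ) (s : Fin n → Fin (2 * n)),
      (∀ i, i < n → z i ∈ G) → (∀ i : Fin n, (s i : ℕ) = Nat.count (· ∈ G) (z i)) →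
      ∀ i, i < n → Nat.nth (· ∈ G.image h) (ext s i) = h (z i) := by
    intro G z s hz hs i hi
    have h1 : ext s i = Nat.count (· ∈ G.image h) (h (z i)) := by
      simp only [ext, dif_pos hi]
      rw [hs ⟨i, hi⟩, count_image hh]
    rw [h1]
    exact Nat.nth_count (p := (· ∈ G.image h)) (Finset.mem_image_of_mem h (hz i hi))
  have e1 : c (F.image h) p q ↔ A (h ∘ x) (h ∘ y) := by
    apply hA
    · intro i hi; exact key F x p hxF (fun i => rfl) i hi
    · intro i hi; exact key F y q hyF (fun i => rfl) i hi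
  have e2 : c (F'.image h) p q ↔ A (h ∘ x') (h ∘ y') := by
    apply hA
    · intro i hi; exact key F' x' p hxF' (fun i => hrx i i.2) i hi
    · intro i hi; exact key F' y' q hyF' (fun i => hry i i.2) i hi
  rw [← e1, ← e2, hj F hFc, hj F' hFc']

end Pool.Agent.Y583.Fkn
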