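import Pool.Agent.Y583.FknBase

/-!
Triangle-free graphs on increasing sequences.
-/

namespace Pool.Agent.Y583.Fkn

/-- Uniform level graph. -/
def EU (n o o' : ℕ) (x y : ℕ → ℕ) : Prop :=
  ∃ i e, o ≤ i ∧ i < o' ∧ o' ≤ e ∧ e < n ∧ Agree i x y ∧
    x (e - 1) < y i ∧ y i < x e ∧ x e < y (e - 1) ∧ y (e - 1) < x (n - 1) ∧ x (n - 1) < y e

/-- N-edge at offset `o` -/
def EN (n o μ : ℕ) (x y : ℕ → ℕ) : Prop :=
  ∃ s t u, 1 ≤ s ∧ s < μ ∧ s + t + 1 = 2 * μ ∧ t < u ∧ u < 2 * μ ∧ Agree (o + s) x y ∧
    x (o + u - 1) < y (o + s) ∧ y (o + t - 1) < x (o + u) ∧ x (n - 1) < y (o + t)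

/-- the four special pairs -/
def FF (μ t u : ℕ) : Prop :=
  (t = 1 ∧ u = 2) ∨ (t = 1 ∧ u + 3 = 2 * μ) ∨ (t = 2 ∧ u + 2 = 2 * μ) ∨
    (t + 3 = 2 * μ ∧ u + 2 = 2 * μ)

/-- Z-edge at offset `o` -/
def EZ (n o μ : ℕ) (x y : ℕ → ℕ) : Prop :=
  ∃ t u v, FF μ t u ∧ u < v ∧ μ ≤ v ∧ v < 2 * μ ∧ Agree o x y ∧
    x (o + u - 1) < y o ∧ y (o + t - 1) < x (o + u) ∧ x (o + v - 1) < y (o + t) ∧
    y (o + v - 1) < x (o + v) ∧ x (n - 1) < y (o + v)

theorem EU_split {n o o' : ℕ} {x y : ℕ → ℕ} (hx : StrictMono x) (hy : StrictMono y)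
    (h : EU n o o' x y) : ∃ i, o ≤ i ∧ i < o' ∧ i < n ∧ Agree i x y ∧ x i < y i := by
  obtain ⟨i, e, h1, h2, h3, h4, h5, h6, h7, h8, h9, h10⟩ := h
  refine ⟨i, h1, h2, by omega, h5, lt_of_le_of_lt (hx.monotone (by omega : i ≤ e - 1)) h6⟩

theorem EU_tri {n o o' : ℕ} {x y z : ℕ → ℕ} (hx : StrictMono x) (hy : StrictMono y)
    (hz : StrictMono z) (h1 : EU n o o' x y) (h2 : EU n o o' y z) (h3 : EU n o o' x z) :
    False := by
  obtain ⟨i, e, a1, a2, a3, a4, a5, a6, a7, a8, a9, a10⟩ := h1
  obtain ⟨j, f, b1, b2, b3, b4, b5, b6, b7, b8, b9, b10⟩ := h2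
  obtain ⟨l, g, c1, c2, c3, c4, c5, c6, c7, c8, c9, c10⟩ := h3
  have hxy : x i < y i := lt_of_le_of_lt (hx.monotone (by omega : i ≤ e - 1)) a6
  have hyz : y j < z j := lt_of_le_of_lt (hy.monotone (by omega : j ≤ f - 1)) b6
  have hxz : x l < z l := lt_of_le_of_lt (hx.monotone (by omega : l ≤ g - 1)) c6
  -- g ≤ f
  have hgf : g ≤ f := by
    have : z (g - 1) < z f :=
      calc z (g - 1) < x (n - 1) := c9
        _ < y e := a10
        _ ≤ y (n - 1) := hy.monotone (by omega)
        _ < z f := b10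
    have := hz.lt_iff_lt.mp this
    omega
  have hfe : f ≤ e := by
    by_contra hcon
    have h : z (g - 1) < z j :=
      calc z (g - 1) < x (n - 1) := c9
        _ < y e := a10
        _ ≤ y (f - 1) := hy.monotone (by omega)
        _ < z j := b6
    have := hz.lt_iff_lt.mp h
    omega
  rcases lt_or_ge i j with hij | hij
  · -- i < j
    have hyi : y i = z i := b5 i hij
    have hl : l = i := by
      rcases lt_trichotomy l i with h | h | h
      · have e1 := a5 l h
        have e2 := b5 l (by omega)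
        omega
      · exact h
      · have := c5 i h
        omega
    subst hl
    have h1 : e ≤ g := by
      have : x (e - 1) < x g := by
        calc x (e - 1) < y l := a6
          _ = z l := hyi
          _ < x g := c7
      have := hx.lt_iff_lt.mp this
      omega
    have hfe2 : f = e := by omega
    have hge : g = e := by omega
    subst hfe2
    subst hge
    omega
  · -- j ≤ i
    have hl : l = j := by
      rcases lt_trichotomy l j with h | h | h
      · have e1 := a5 l (by omega)
        have e2 := b5 l h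
        omega
      · exact h
      · have e1 := c5 j h
        rcases Nat.lt_or_eq_of_le hij with h' | h'
        · have := a5 j h'; omega
        · subst h'; omega
    subst hl
    have h1 : e ≤ g := by
      have : x (e - 1) < x g := by
        calc x (e - 1) < y i := a6
          _ ≤ y (f - 1) := hy.monotone (by omega)
          _ < z l := b6
          _ < x g := c7
      have := hx.lt_iff_lt.mp this
      omega
    have hfe2 : f = e := by omega
    have hge : g = e := by omega
    subst hfe2
    subst hge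
    omega

theorem EN_split {n o μ : ℕ} {x y : ℕ → ℕ} (hx : StrictMono x) (hy : StrictMono y)
    (hn : n = o + 2 * μ) (h : EN n o μ x y) :
    ∃ i, o ≤ i ∧ i < n ∧ Agree i x y ∧ x i < y i := by
  obtain ⟨s, t, u, h1, h2, h3, h4, h5, h6, h7, h8, h9⟩ := h
  exact ⟨o + s, by omega, by omega, h6, lt_of_le_of_lt (hx.monotone (by omega)) h7⟩

theorem EZ_split {n o μ : ℕ} {x y : ℕ → ℕ} (hx : StrictMono x) (hy : StrictMono y)
    (hμ : 3 ≤ μ) (hn : n = o + 2 * μ) (h : EZ n o μ x y) :
    ∃ i, o ≤ i ∧ i < n ∧ Agree i x y ∧ x i < y i := by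
  obtain ⟨t, u, v, h1, h2, h3, h4, h5, h6, h7, h8, h9, h10⟩ := h
  refine ⟨o, by omega, by omega, h5, lt_of_le_of_lt (hx.monotone ?_) h6⟩
  rcases h1 with h | h | h | h <;> omega

/-- base graph -/
def EB (n o μ : ℕ) (x y : ℕ → ℕ) : Prop := EN n o μ x y ∨ EZ n o μ x y

theorem EB_NNN {n o μ : ℕ} {x y z : ℕ → ℕ} (hx : StrictMono x) (hy : StrictMono y)
    (hz : StrictMono z) (hn : n = o + 2 * μ) (h1 : EN n o μ x y)
    (h2 : EN n o μ y z) (h3 : EN n o μ x z) : False := by
  obtain ⟨s, t, u, a1, a2, a3, a4, a5, a6, a7, a8, a9⟩ := h1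
  obtain ⟨s', t', u', b1, b2, b3, b4, b5, b6, b7, b8, b9⟩ := h2
  obtain ⟨s'', t'', u'', c1, c2, c3, c4, c5, c6, c7, c8, c9⟩ := h3
  have h1 : t'' ≤ t' := by
    have : z (o + t'' - 1) < z (o + t') :=
      calc z (o + t'' - 1) < x (o + u'') := c8
        _ ≤ x (n - 1) := hx.monotone (by omega)
        _ < y (o + t) := a9
        _ ≤ y (n - 1) := hy.monotone (by omega)
        _ < z (o + t') := b9
    have := hz.lt_iff_lt.mp this
    omega
  have h2 : u' ≤ t := by
    by_contra hcon
    have : z (o + t'' - 1) < z (o + s') :=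
      calc z (o + t'' - 1) < x (o + u'') := c8
        _ ≤ x (n - 1) := hx.monotone (by omega)
        _ < y (o + t) := a9
        _ ≤ y (o + u' - 1) := hy.monotone (by omega)
        _ < z (o + s') := b7
    have := hz.lt_iff_lt.mp this
    omega
  have hss : s < s' := by omega
  have e1 : x (o + s) < y (o + s) := lt_of_le_of_lt (hx.monotone (by omega)) a7
  have e2 := b6 (o + s) (by omega)
  have e3 := c6 (o + s) (by omega)
  omega

theorem EB_ZZZ {n o μ : ℕ} {x y z : ℕ → ℕ} (hx : StrictMono x) (hy : StrictMono y)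
    (hz : StrictMono z) (hμ : 3 ≤ μ) (hn : n = o + 2 * μ) (h1 : EZ n o μ x y)
    (h2 : EZ n o μ y z) (h3 : EZ n o μ x z) : False := by
  obtain ⟨t, u, v, a1, a2, a3, a4, a5, a6, a7, a8, a9, a10⟩ := h1
  obtain ⟨t', u', v', b1, b2, b3, b4, b5, b6, b7, b8, b9, b10⟩ := h2
  obtain ⟨t'', u'', v'', c1, c2, c3, c4, c5, c6, c7, c8, c9, c10⟩ := h3
  have ft : 1 ≤ t ∧ t < u := by rcases a1 with h | h | h | h <;> omega
  have ft' : 1 ≤ t' ∧ t' < u' := by rcases b1 with h | h | h | h <;> omega
  have ft'' : 1 ≤ t'' ∧ t'' < u'' := by rcases c1 with h | h | h | h <;> omega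
  have hxn : x (n - 1) < y (n - 1) :=
    lt_of_lt_of_le a10 (hy.monotone (by omega))
  have hzx : z (o + v'' - 1) < x (n - 1) := lt_of_lt_of_le c9 (hx.monotone (by omega))
  have h1 : v'' ≤ v' := by
    have : z (o + v'' - 1) < z (o + v') := by
      calc z (o + v'' - 1) < x (n - 1) := hzx
        _ < y (n - 1) := hxn
        _ < z (o + v') := b10
    have := hz.lt_iff_lt.mp this
    omega
  have h2 : u' ≤ v := by
    by_contra hcon
    have : z (o + v'' - 1) < z o := by
      calc z (o + v'' - 1) < x (n - 1) := hzx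
        _ < y (o + v) := a10
        _ ≤ y (o + u' - 1) := hy.monotone (by omega)
        _ < z o := b6
    have := hz.lt_iff_lt.mp this
    omega
  -- u ≤ u''
  have h3 : u ≤ u'' := by
    have : x (o + u - 1) < x (o + u'') := by
      calc x (o + u - 1) < y o := a6
        _ ≤ y (o + u' - 1) := hy.monotone (by omega)
        _ < z o := b6
        _ ≤ z (o + t'' - 1) := hz.monotone (by omega)
        _ < x (o + u'') := c7
    have := hx.lt_iff_lt.mp this
    omega
  have h4 : v' ≤ v := by
    by_contra hcon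
    have h5 : v'' ≤ t' := by
      have : z (o + v'' - 1) < z (o + t') := by
        calc z (o + v'' - 1) < x (n - 1) := hzx
          _ < y (o + v) := a10
          _ ≤ y (o + v' - 1) := hy.monotone (by omega)
          _ < z (o + t') := b8
      have := hz.lt_iff_lt.mp this
      omega
    -- if t < u' then v ≤ u''
    rcases lt_or_ge t u' with h6 | h6
    · have : x (o + v - 1) < x (o + u'') := by
        calc x (o + v - 1) < y (o + t) := a8
          _ ≤ y (o + u' - 1) := hy.monotone (by omega)
          _ < z o := b6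
          _ ≤ z (o + t'' - 1) := hz.monotone (by omega)
          _ < x (o + u'') := c7
      have := hx.lt_iff_lt.mp this
      omega
    · omega
  rcases lt_or_ge t u' with h6 | h6
  · have : x (o + v - 1) < x (o + u'') := by
      calc x (o + v - 1) < y (o + t) := a8
        _ ≤ y (o + u' - 1) := hy.monotone (by omega)
        _ < z o := b6
        _ ≤ z (o + t'' - 1) := hz.monotone (by omega)
        _ < x (o + u'') := c7
    have := hx.lt_iff_lt.mp this
    omega
  · have h7 : t < v' := by omega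
    -- t'' ≤ t'
    have h8 : x (o + v - 1) < z (o + t') := by
      calc x (o + v - 1) < y (o + t) := a8
        _ ≤ y (o + v' - 1) := hy.monotone (by omega)
        _ < z (o + t') := b8
    have h9 : v ≤ v'' := by
      rcases le_or_gt v'' t' with h | h
      · omega
      · have : x (o + v - 1) < x (o + v'') := by
          calc x (o + v - 1) < z (o + t') := h8
            _ ≤ z (o + v'' - 1) := hz.monotone (by omega)
            _ < x (o + v'') := c9
        have := hx.lt_iff_lt.mp this
        omega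
    have h10 : t'' ≤ t' := by
      have : z (o + t'' - 1) < z (o + t') := by
        calc z (o + t'' - 1) < x (o + u'') := c7
          _ ≤ x (o + v - 1) := hx.monotone (by omega)
          _ < z (o + t') := h8
      have := hz.lt_iff_lt.mp this
      omega
    rcases a1 with h | h | h | h <;> rcases b1 with h' | h' | h' | h' <;>
      rcases c1 with h'' | h'' | h'' | h'' <;> omega

theorem EB_NZZ {n o μ : ℕ} {x y z : ℕ → ℕ} (hx : StrictMono x) (hy : StrictMono y)
    (hz : StrictMono z) (hμ : 3 ≤ μ) (hn : n = o + 2 * μ) (h1 : EN n o μ x y)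
    (h2 : EZ n o μ y z) (h3 : EZ n o μ x z) : False := by
  obtain ⟨s, t, u, a1, a2, a3, a4, a5, a6, a7, a8, a9⟩ := h1
  obtain ⟨t', u', v', b1, b2, b3, b4, b5, b6, b7, b8, b9, b10⟩ := h2
  obtain ⟨t'', u'', v'', c1, c2, c3, c4, c5, c6, c7, c8, c9, c10⟩ := h3
  have ft' : 1 ≤ t' ∧ t' < u' := by rcases b1 with h | h | h | h <;> omega
  have ft'' : 1 ≤ t'' ∧ t'' < u'' := by rcases c1 with h | h | h | h <;> omega
  have hzx : z (o + v'' - 1) < x (n - 1) := lt_of_lt_of_le c9 (hx.monotone (by omega))
  have h2 : u' ≤ t := by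
    by_contra hcon
    have : z (o + v'' - 1) < z o := by
      calc z (o + v'' - 1) < x (n - 1) := hzx
        _ < y (o + t) := a9
        _ ≤ y (o + u' - 1) := hy.monotone (by omega)
        _ < z o := b6
    have := hz.lt_iff_lt.mp this
    omega
  have h1 : v'' ≤ t' := by
    rcases lt_or_ge t v' with h | h
    · have : z (o + v'' - 1) < z (o + t') := by
        calc z (o + v'' - 1) < x (n - 1) := hzx
          _ < y (o + t) := a9
          _ ≤ y (o + v' - 1) := hy.monotone (by omega)
          _ < z (o + t') := b8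
      have := hz.lt_iff_lt.mp this
      omega
    · have h5 : v'' ≤ v' := by
        have : z (o + v'' - 1) < z (o + v') := by
          calc z (o + v'' - 1) < x (n - 1) := hzx
            _ < y (o + t) := a9
            _ ≤ y (n - 1) := hy.monotone (by omega)
            _ < z (o + v') := b10
        have := hz.lt_iff_lt.mp this
        omega
      have : z (o + v'' - 1) < z (o + t') := by
        calc z (o + v'' - 1) < x (o + v'') := c9
          _ ≤ x (o + u - 1) := hx.monotone (by omega)
          _ < y (o + s) := a7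
          _ ≤ y (o + v' - 1) := hy.monotone (by omega)
          _ < z (o + t') := b8
      have := hz.lt_iff_lt.mp this
      omega
  -- x_{v''} > y_{u'}
  have h3 : y (o + u' - 1) < x (o + u'') := by
    calc y (o + u' - 1) < z o := b6
      _ ≤ z (o + t'' - 1) := hz.monotone (by omega)
      _ < x (o + u'') := c7
  rcases lt_or_ge u'' s with h | h
  · have e1 := a6 (o + u'') (by omega)
    rw [e1] at h3
    have := hy.lt_iff_lt.mp h3
    omega
  · rcases lt_or_ge s u' with h' | h'
    · have : x (o + u - 1) < x (o + u'') := by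
        calc x (o + u - 1) < y (o + s) := a7
          _ ≤ y (o + u' - 1) := hy.monotone (by omega)
          _ < x (o + u'') := h3
      have := hx.lt_iff_lt.mp this
      omega
    · omega

theorem EB_ZNZ {n o μ : ℕ} {x y z : ℕ → ℕ} (hx : StrictMono x) (hy : StrictMono y)
    (hz : StrictMono z) (hμ : 3 ≤ μ) (hn : n = o + 2 * μ) (h1 : EZ n o μ x y)
    (h2 : EN n o μ y z) (h3 : EZ n o μ x z) : False := by
  obtain ⟨t, u, v, a1, a2, a3, a4, a5, a6, a7, a8, a9, a10⟩ := h1
  obtain ⟨s', t', u', b1, b2, b3, b4, b5, b6, b7, b8, b9⟩ := h2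
  obtain ⟨t'', u'', v'', c1, c2, c3, c4, c5, c6, c7, c8, c9, c10⟩ := h3
  have ft : 1 ≤ t ∧ t < u := by rcases a1 with h | h | h | h <;> omega
  have ft'' : 1 ≤ t'' ∧ t'' < u'' := by rcases c1 with h | h | h | h <;> omega
  have hzx : z (o + v'' - 1) < x (n - 1) := lt_of_lt_of_le c9 (hx.monotone (by omega))
  have h1 : v'' ≤ t' := by
    have : z (o + v'' - 1) < z (o + t') := by
      calc z (o + v'' - 1) < x (n - 1) := hzx
        _ < y (o + v) := a10
        _ ≤ y (n - 1) := hy.monotone (by omega)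
        _ < z (o + t') := b9
    have := hz.lt_iff_lt.mp this
    omega
  have h2 : u' ≤ v := by
    by_contra hcon
    have : z (o + v'' - 1) < z (o + s') := by
      calc z (o + v'' - 1) < x (n - 1) := hzx
        _ < y (o + v) := a10
        _ ≤ y (o + u' - 1) := hy.monotone (by omega)
        _ < z (o + s') := b7
    have := hz.lt_iff_lt.mp this
    omega
  have h3 : y (o + u' - 1) < x (o + v'') := by
    calc y (o + u' - 1) < z (o + s') := b7
      _ ≤ z (o + v'' - 1) := hz.monotone (by omega)
      _ < x (o + v'') := c9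
  have h4 : u' ≤ t := by
    by_contra hcon
    have : x (o + v - 1) < x (o + v'') := by
      calc x (o + v - 1) < y (o + t) := a8
        _ ≤ y (o + u' - 1) := hy.monotone (by omega)
        _ < x (o + v'') := h3
    have := hx.lt_iff_lt.mp this
    omega
  have h5 : u ≤ u'' := by
    have e1 := b6 o (by omega)
    have : x (o + u - 1) < x (o + u'') := by
      calc x (o + u - 1) < y o := a6
        _ = z o := e1
        _ ≤ z (o + t'' - 1) := hz.monotone (by omega)
        _ < x (o + u'') := c7
    have := hx.lt_iff_lt.mp this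
    omega
  omega

theorem EB_tri {n o μ : ℕ} {x y z : ℕ → ℕ} (hx : StrictMono x) (hy : StrictMono y)
    (hz : StrictMono z) (hμ : 3 ≤ μ) (hn : n = o + 2 * μ) (h1 : EB n o μ x y)
    (h2 : EB n o μ y z) (h3 : EB n o μ x z) : False := by
  -- first coordinate behaviour
  have hN : ∀ {a b : ℕ → ℕ}, EN n o μ a b → a o = b o := by
    intro a b h
    obtain ⟨s, t, u, a1, a2, a3, a4, a5, a6, -⟩ := h
    exact a6 o (by omega)
  have hZ : ∀ {a b : ℕ → ℕ}, StrictMono a → EZ n o μ a b → a o < b o := by
    intro a b ha h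
    obtain ⟨t, u, v, a1, a2, a3, a4, a5, a6, -⟩ := h
    refine lt_of_le_of_lt (ha.monotone ?_) a6
    rcases a1 with h | h | h | h <;> omega
  rcases h1 with h1 | h1 <;> rcases h2 with h2 | h2 <;> rcases h3 with h3 | h3
  · exact EB_NNN hx hy hz hn h1 h2 h3
  · have := hN h1; have := hN h2; have := hZ hx h3; omega
  · have := hN h1; have := hZ hy h2; have := hN h3; omega
  · exact EB_NZZ hx hy hz hμ hn h1 h2 h3
  · have := hZ hx h1; have := hN h2; have := hN h3; omega
  · exact EB_ZNZ hx hy hz hμ hn h1 h2 h3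
  · have := hZ hx h1; have := hZ hy h2; have := hN h3; omega
  · exact EB_ZZZ hx hy hz hμ hn h1 h2 h3

end Pool.Agent.Y583.Fkn
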