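import Mathlib

set_option autoImplicit false

/-!
Infinitary formulas about modules: syntax, truth, categoricity.
-/

namespace Pool.Agent.Y583.MC

/-- Formulas of `L_{ω₁,ω}` in the language of left `R`-modules, with free variables
`x_0, …, x_{n-1}`. The atomic formulas are the linear equations `∑ r_i x_i = 0`. -/
inductive Fml (R : Type) : ℕ → Type
  | lin {n : ℕ} (r : Fin n → R) : Fml R n
  | neg {n : ℕ} (φ : Fml R n) : Fml R n
  | conj {n : ℕ} (φ : ℕ → Fml R n) : Fml R n
  | ex {n : ℕ} (φ : Fml R (n + 1)) : Fml R n

/-- Satisfaction of the formula `φ` in the module `M` by elements of `M`: `lin r` is the equation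
`∑ r_i x_i = 0`, `neg` is negation, `conj` is the conjunction of a sequence of formulas, and `ex` is
existential quantification (over a new variable `x_0`, the other ones being shifted). -/
def Sat {R : Type} [Ring R] (M : Type) [AddCommGroup M] [Module R M] {n : ℕ} (φ : Fml R n) :
    (Fin n → M) → Prop :=
  Fml.rec (motive := fun n _ => (Fin n → M) → Prop)
    (fun r v => ∑ i, r i • v i = 0)
    (fun _ s v => ¬ s v)
    (fun _ s v => ∀ k, s k v)
    (fun _ s v => ∃ a : M, s (Fin.cons a v)) φ

/-- The sentence `ψ` is true in the module `M`. -/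
def Holds {R : Type} [Ring R] (ψ : Fml R 0) (M : Type) [AddCommGroup M] [Module R M] : Prop :=
  Sat M ψ Fin.elim0

/-- `ψ` is categorical in `μ`: it has a model of cardinality `μ`, and any two such models are
isomorphic. -/
def Categorical {R : Type} [Ring R] (ψ : Fml R 0) (μ : Cardinal.{0}) : Prop :=
  (∃ (M : Type) (_ : AddCommGroup M) (_ : Module R M), Cardinal.mk M = μ ∧ Holds ψ M) ∧
  ∀ (M N : Type) [AddCommGroup M] [Module R M] [AddCommGroup N] [Module R N],
    Cardinal.mk M = μ → Cardinal.mk N = μ → Holds ψ M → Holds ψ N → Nonempty (M ≃ₗ[R] N)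

end Pool.Agent.Y583.MC
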