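import Pool.Agent.Y583.MC1

set_option autoImplicit false

/-!
Direct powers: absorption, modules that are directed unions of direct summands isomorphic to a
fixed module `E ≃ E^(ℕ)`, and the sentences true in them.
-/

namespace Pool.Agent.Y583.MC

variable {R : Type} [Ring R]

section basics

variable {E N A B Z D : Type} [AddCommGroup E] [Module R E] [AddCommGroup N] [Module R N]
  [AddCommGroup A] [Module R A] [AddCommGroup B] [Module R B] [AddCommGroup Z] [Module R Z]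
  [AddCommGroup D] [Module R D]

theorem holds_iso (ψ : Fml R 0) (e : A ≃ₗ[R] B) : Holds ψ A ↔ Holds ψ B := by
  unfold Holds
  have h0 : (fun i : Fin 0 => e (Fin.elim0 i : A)) = (Fin.elim0 : Fin 0 → B) :=
    funext fun i => i.elim0
  rw [sat_iso e ψ, h0]

theorem pow_of_countable (e : E ≃ₗ[R] (ℕ →₀ E)) (X : Type) [Countable X] [Nonempty X] :
    Nonempty ((X →₀ E) ≃ₗ[R] E) := by
  obtain ⟨f⟩ : Nonempty (X × ℕ ≃ ℕ) := nonempty_equiv_of_countable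
  exact ⟨(Finsupp.mapRange.linearEquiv e).trans ((Finsupp.finsuppProdLEquiv R).symm.trans
    ((Finsupp.domLCongr f).trans e.symm))⟩

/-- a retract is a direct summand -/
def splitEquiv (i : A →ₗ[R] B) (p : B →ₗ[R] A) (h : ∀ a, p (i a) = a) :
    B ≃ₗ[R] (A × LinearMap.ker p) where
  toFun b := (p b, ⟨b - i (p b), by simp [LinearMap.mem_ker, h]⟩)
  invFun x := i x.1 + x.2
  left_inv b := by simp
  right_inv x := by
    obtain ⟨a, z, hz⟩ := x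
    have hz' : p z = 0 := hz
    ext <;> simp [h, hz']
  map_add' b b' := by
    ext
    · simp
    · simp; abel
  map_smul' r b := by
    ext
    · simp
    · simp [smul_sub]

/-- powers of a product -/
noncomputable def powProd (X : Type) : (X →₀ (A × B)) ≃ₗ[R] ((X →₀ A) × (X →₀ B)) :=
  LinearEquiv.ofLinear
    ((Finsupp.mapRange.linearMap (LinearMap.fst R A B)).prod
      (Finsupp.mapRange.linearMap (LinearMap.snd R A B)))
    ((Finsupp.mapRange.linearMap (LinearMap.inl R A B)).coprod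
      (Finsupp.mapRange.linearMap (LinearMap.inr R A B)))
    (by
      ext <;> simp)
    (by
      ext x a <;> simp)

theorem absorb_pow (e : E ≃ₗ[R] (ℕ →₀ E)) (θ : (E × Z) ≃ₗ[R] E) :
    Nonempty ((E × (ℕ →₀ Z)) ≃ₗ[R] E) := by
  have h1 : E ≃ₗ[R] ((ℕ →₀ E) × (ℕ →₀ Z)) :=
    e.trans ((Finsupp.mapRange.linearEquiv θ.symm).trans (powProd ℕ))
  exact ⟨(h1.trans (LinearEquiv.prodCongr e.symm (LinearEquiv.refl R _))).symm⟩

theorem pow_succ_equiv (D : Type) [AddCommGroup D] [Module R D] :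
    Nonempty (((ℕ →₀ D) × D) ≃ₗ[R] (ℕ →₀ D)) := by
  obtain ⟨f⟩ : Nonempty (ℕ ⊕ Unit ≃ ℕ) := nonempty_equiv_of_countable
  have h1 : (ℕ ⊕ Unit →₀ D) ≃ₗ[R] ((ℕ →₀ D) × (Unit →₀ D)) :=
    Finsupp.sumFinsuppLEquivProdFinsupp R
  have h2 : (Unit →₀ D) ≃ₗ[R] D := Finsupp.LinearEquiv.finsuppUnique R D Unit
  exact ⟨(LinearEquiv.prodCongr (LinearEquiv.refl R _) h2.symm).trans
    (h1.symm.trans (Finsupp.domLCongr f))⟩

/-- a direct summand of `E ≃ E^(ℕ)` is absorbed by `E` -/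
theorem absorb (e : E ≃ₗ[R] (ℕ →₀ E)) (i : D →ₗ[R] E) (p : E →ₗ[R] D) (h : ∀ d, p (i d) = d) :
    Nonempty ((E × D) ≃ₗ[R] E) := by
  have h1 : E ≃ₗ[R] ((ℕ →₀ D) × (ℕ →₀ LinearMap.ker p)) :=
    e.trans ((Finsupp.mapRange.linearEquiv (splitEquiv i p h)).trans (powProd ℕ))
  obtain ⟨h2⟩ := pow_succ_equiv (R := R) D
  -- (P × Q) × D ≃ (P × D) × Q
  have h3 : (((ℕ →₀ D) × (ℕ →₀ LinearMap.ker p)) × D) ≃ₗ[R]
      (((ℕ →₀ D) × D) × (ℕ →₀ LinearMap.ker p)) :=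
    { toFun := fun x => ((x.1.1, x.2), x.1.2)
      invFun := fun x => ((x.1.1, x.2), x.1.2)
      left_inv := fun x => rfl
      right_inv := fun x => rfl
      map_add' := fun x y => rfl
      map_smul' := fun r x => rfl }
  exact ⟨(LinearEquiv.prodCongr h1 (LinearEquiv.refl R D)).trans (h3.trans
    ((LinearEquiv.prodCongr h2 (LinearEquiv.refl R _)).trans h1.symm))⟩

/-- absorption that fixes finitely many elements -/
theorem absorb_fix (θ : (E × Z) ≃ₗ[R] E) (F : Finset (ℕ →₀ E)) :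
    ∃ ε : ((ℕ →₀ E) × Z) ≃ₗ[R] (ℕ →₀ E), ∀ x ∈ F, ε (x, 0) = x := by
  classical
  obtain ⟨n, hn⟩ : ∃ n : ℕ, ∀ x ∈ F, x n = 0 ∧ True := by
    obtain ⟨n, hn⟩ := Infinite.exists_notMem_finset (F.biUnion fun x => x.support)
    refine ⟨n, fun x hx => ⟨?_, trivial⟩⟩
    by_contra h
    exact hn (Finset.mem_biUnion.2 ⟨x, hx, Finsupp.mem_support_iff.2 h⟩)
  let pn : (ℕ →₀ E) →ₗ[R] E := Finsupp.lapply n
  let sn : E →ₗ[R] (ℕ →₀ E) := Finsupp.lsingle n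
  let f : ((ℕ →₀ E) × Z) →ₗ[R] (ℕ →₀ E) :=
    LinearMap.fst R _ _ + sn ∘ₗ ((θ : (E × Z) →ₗ[R] E) ∘ₗ
      (LinearMap.prodMap pn LinearMap.id) - pn ∘ₗ LinearMap.fst R _ _)
  let g : (ℕ →₀ E) →ₗ[R] ((ℕ →₀ E) × Z) :=
    (LinearMap.id + sn ∘ₗ ((LinearMap.fst R E Z ∘ₗ (θ.symm : E →ₗ[R] (E × Z)) ∘ₗ pn) - pn)).prod
      (LinearMap.snd R E Z ∘ₗ (θ.symm : E →ₗ[R] (E × Z)) ∘ₗ pn)
  have hf : ∀ w z, f (w, z) = w + Finsupp.single n (θ (w n, z) - w n) := fun w z => rfl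
  have hg : ∀ w, g w = (w + Finsupp.single n ((θ.symm (w n)).1 - w n), (θ.symm (w n)).2) :=
    fun w => rfl
  refine ⟨LinearEquiv.ofLinear f g ?_ ?_, fun x hx => ?_⟩
  · refine LinearMap.ext fun w => ?_
    show f (g w) = w
    rw [hg, hf]
    ext j
    by_cases hj : n = j
    · subst hj; simp
    · simp [Finsupp.single_apply, hj]
  · refine LinearMap.ext fun ⟨w, z⟩ => ?_
    show g (f (w, z)) = (w, z)
    rw [hf, hg]
    ext j
    · by_cases hj : n = j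
      · subst hj; simp
      · simp [Finsupp.single_apply, hj]
    · simp
  · show f (x, 0) = x
    rw [hf, (hn x hx).1]
    have : θ (0, 0) = 0 := map_zero θ
    rw [this]
    simp

theorem iso_fix (e : E ≃ₗ[R] (ℕ →₀ E)) (S T : Submodule R N) (hST : S ≤ T) (eS : S ≃ₗ[R] E)
    (eT : T ≃ₗ[R] E) (r : N →ₗ[R] S) (hr : ∀ x : S, r x = x) (F : Finset N)
    (hF : ∀ x ∈ F, x ∈ S) : ∃ ε : T ≃ₗ[R] S, ∀ x : T, (x : N) ∈ F → (ε x : N) = x := by
  classical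
  let i : S →ₗ[R] T := Submodule.inclusion hST
  let p : T →ₗ[R] S := r ∘ₗ T.subtype
  have hp : ∀ s, p (i s) = s := fun s => hr s
  let σ := splitEquiv i p hp
  let Z := LinearMap.ker p
  let θ : (E × Z) ≃ₗ[R] E :=
    (LinearEquiv.prodCongr eS.symm (LinearEquiv.refl R Z)).trans (σ.symm.trans eT)
  let a : S ≃ₗ[R] (ℕ →₀ E) := eS.trans e
  obtain ⟨ε, hε⟩ := absorb_fix θ (F.attach.image fun x : {x // x ∈ F} => a ⟨x.1, hF x.1 x.2⟩)
  refine ⟨σ.trans ((LinearEquiv.prodCongr a (LinearEquiv.refl R Z)).trans (ε.trans a.symm)),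
    fun x hx => ?_⟩
  have hxS := hF x hx
  have hσ : σ x = (⟨x, hxS⟩, 0) := by
    have hx' : x = i ⟨x, hxS⟩ := rfl
    have h1 : p x = ⟨x, hxS⟩ := by
      conv_lhs => rw [hx']
      exact hp _
    show (p x, (⟨x - i (p x), _⟩ : Z)) = _
    refine Prod.ext h1 (Subtype.ext ?_)
    show x - i (p x) = 0
    rw [h1, ← hx', sub_self]
  have h2 : ε (a ⟨x, hxS⟩, 0) = a ⟨x, hxS⟩ :=
    hε _ (Finset.mem_image.2 ⟨⟨x, hx⟩, Finset.mem_attach _ _, rfl⟩)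
  show ((a.symm (ε ((LinearEquiv.prodCongr a (LinearEquiv.refl R Z)) (σ x))) : S) : N) = x
  rw [hσ]
  have h3 : (LinearEquiv.prodCongr a (LinearEquiv.refl R Z)) ((⟨x, hxS⟩ : S), (0 : Z)) =
      (a ⟨x, hxS⟩, 0) := rfl
  rw [h3, h2, LinearEquiv.symm_apply_apply]

end basics

section like

/-- `N` is a directed union of direct summands isomorphic to `E` -/
def Like (R : Type) [Ring R] (E N : Type) [AddCommGroup E] [Module R E] [AddCommGroup N]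
    [Module R N] : Prop :=
  ∃ 𝒮 : Set (Submodule R N), (∀ S ∈ 𝒮, ∀ T ∈ 𝒮, ∃ W ∈ 𝒮, S ≤ W ∧ T ≤ W) ∧
    (∀ x : N, ∃ S ∈ 𝒮, x ∈ S) ∧ (∀ S ∈ 𝒮, Nonempty (S ≃ₗ[R] E)) ∧
    ∀ S ∈ 𝒮, ∃ r : N →ₗ[R] S, ∀ x : S, r x = x

variable {E N A B Z D : Type} [AddCommGroup E] [Module R E] [AddCommGroup N] [Module R N]
  [AddCommGroup A] [Module R A] [AddCommGroup B] [Module R B] [AddCommGroup Z] [Module R Z]
  [AddCommGroup D] [Module R D]

theorem like_holds (e : E ≃ₗ[R] (ℕ →₀ E)) (h : Like R E N) (ψ : Fml R 0) :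
    Holds ψ N ↔ Holds ψ E := by
  obtain ⟨𝒮, h1, h2, h3, h4⟩ := h
  obtain ⟨S, hS, -⟩ := h2 0
  obtain ⟨eS⟩ := h3 S hS
  have := sat_dir 𝒮 h1 h2 (fun S hS T hT hST F hF => by
    obtain ⟨eS⟩ := h3 S hS
    obtain ⟨eT⟩ := h3 T hT
    obtain ⟨r, hr⟩ := h4 S hS
    exact iso_fix e S T hST eS eT r hr F hF) ψ S hS Fin.elim0
  rw [← holds_iso ψ eS]
  unfold Holds
  have h0 : (fun i : Fin 0 => ((Fin.elim0 i : S) : N)) = (Fin.elim0 : Fin 0 → N) :=
    funext fun i => i.elim0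
  rw [this, h0]

theorem Like.congr (h : Like R E N) (f : E ≃ₗ[R] A) : Like R A N := by
  obtain ⟨𝒮, h1, h2, h3, h4⟩ := h
  exact ⟨𝒮, h1, h2, fun S hS => (h3 S hS).map fun g => g.trans f, h4⟩

theorem like_self (E : Type) [AddCommGroup E] [Module R E] : Like R E E := by
  refine ⟨{⊤}, ?_, fun x => ⟨⊤, rfl, trivial⟩, ?_, ?_⟩
  · rintro S rfl T rfl
    exact ⟨⊤, rfl, le_rfl, le_rfl⟩
  · rintro S rfl
    exact ⟨Submodule.topEquiv⟩
  · rintro S rfl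
    exact ⟨(Submodule.topEquiv (R := R) (M := E)).symm, fun x => rfl⟩

theorem Like.prod (h : Like R E N) (h' : Like R A B) : Like R (E × A) (N × B) := by
  obtain ⟨𝒮, h1, h2, h3, h4⟩ := h
  obtain ⟨𝒯, k1, k2, k3, k4⟩ := h'
  refine ⟨{W | ∃ S ∈ 𝒮, ∃ T ∈ 𝒯, W = S.prod T}, ?_, ?_, ?_, ?_⟩
  · rintro _ ⟨S, hS, T, hT, rfl⟩ _ ⟨S', hS', T', hT', rfl⟩
    obtain ⟨U, hU, a, b⟩ := h1 S hS S' hS'
    obtain ⟨V, hV, c, d⟩ := k1 T hT T' hT'
    exact ⟨_, ⟨U, hU, V, hV, rfl⟩, Submodule.prod_mono a c, Submodule.prod_mono b d⟩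
  · rintro ⟨x, y⟩
    obtain ⟨S, hS, hx⟩ := h2 x
    obtain ⟨T, hT, hy⟩ := k2 y
    exact ⟨_, ⟨S, hS, T, hT, rfl⟩, hx, hy⟩
  · rintro _ ⟨S, hS, T, hT, rfl⟩
    obtain ⟨f⟩ := h3 S hS
    obtain ⟨g⟩ := k3 T hT
    have h : (S.prod T : Submodule R (N × B)) ≃ₗ[R] (S × T) :=
      { toFun := fun x => (⟨x.1.1, x.2.1⟩, ⟨x.1.2, x.2.2⟩)
        invFun := fun x => ⟨(x.1, x.2), x.1.2, x.2.2⟩
        left_inv := fun x => rfl
        right_inv := fun x => rfl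
        map_add' := fun x y => rfl
        map_smul' := fun r x => rfl }
    exact ⟨h.trans (LinearEquiv.prodCongr f g)⟩
  · rintro _ ⟨S, hS, T, hT, rfl⟩
    obtain ⟨r, hr⟩ := h4 S hS
    obtain ⟨s, hs⟩ := k4 T hT
    refine ⟨LinearMap.codRestrict _ ((S.subtype ∘ₗ r).prodMap (T.subtype ∘ₗ s))
      (fun x => ⟨(r x.1).2, (s x.2).2⟩), ?_⟩
    rintro ⟨⟨x, y⟩, hx, hy⟩
    apply Subtype.ext
    show ((r x : N), (s y : B)) = (x, y)
    rw [hr ⟨x, hx⟩, hs ⟨y, hy⟩]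

theorem like_pow (N : Type) [AddCommGroup N] [Module R N] (I : Type) [Infinite I] :
    Like R (ℕ →₀ N) (I →₀ N) := by
  classical
  refine ⟨{W | ∃ J : Set I, J.Countable ∧ J.Infinite ∧ W = Finsupp.supported N R J}, ?_, ?_, ?_, ?_⟩
  · rintro _ ⟨J, hJ, hi, rfl⟩ _ ⟨J', hJ', hi', rfl⟩
    exact ⟨_, ⟨J ∪ J', hJ.union hJ', hi.mono Set.subset_union_left, rfl⟩,
      Finsupp.supported_mono Set.subset_union_left, Finsupp.supported_mono Set.subset_union_right⟩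
  · intro x
    obtain ⟨J, hJ1, hJ2⟩ : ∃ J : Set I, J.Infinite ∧ J.Countable := by
      let f : ℕ ↪ I := Infinite.natEmbedding I
      exact ⟨Set.range f, Set.infinite_range_of_injective f.injective, Set.countable_range f⟩
    refine ⟨_, ⟨J ∪ x.support, hJ2.union x.support.countable_toSet,
      hJ1.mono Set.subset_union_left, rfl⟩, ?_⟩
    rw [Finsupp.mem_supported]
    exact Set.subset_union_right
  · rintro _ ⟨J, hJ, hi, rfl⟩
    haveI : Countable J := hJ.to_subtype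
    haveI : Infinite J := hi.to_subtype
    obtain ⟨f⟩ : Nonempty (J ≃ ℕ) := nonempty_equiv_of_countable
    exact ⟨(Finsupp.supportedEquivFinsupp J).trans (Finsupp.domLCongr f)⟩
  · rintro _ ⟨J, hJ, hi, rfl⟩
    refine ⟨Finsupp.restrictDom N R J, fun x => ?_⟩
    exact LinearMap.congr_fun (Finsupp.restrictDom_comp_subtype J) x

end like

end Pool.Agent.Y583.MC
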