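import Pool.Agent.Y583.MC2

set_option autoImplicit false

/-!
Interlacing two decompositions; countable direct summands.
-/

namespace Pool.Agent.Y583.MC

variable {R : Type} [Ring R]

/-- a system of submodules indexed by the subsets of `I`: the sums over the subsets of a
decomposition into countable pieces -/
structure Sys {I N : Type} [AddCommGroup N] [Module R N] (p : Set I → Submodule R N) : Prop where
  mono : ∀ J J', J ⊆ J' → p J ≤ p J'
  fin : ∀ J x, x ∈ p J → ∃ F : Finset I, (↑F : Set I) ⊆ J ∧ x ∈ p F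
  cov : ∀ x, x ∈ p Set.univ
  cnt : ∀ J, J.Countable → (p J : Set N).Countable

theorem interlace {I I' N : Type} [AddCommGroup N] [Module R N] {p : Set I → Submodule R N}
    {q : Set I' → Submodule R N} (hp : Sys p) (hq : Sys q) (A : Set I) (A' : Set I')
    (hA : A.Countable) (hA' : A'.Countable) :
    ∃ J J', A ⊆ J ∧ A' ⊆ J' ∧ J.Countable ∧ J'.Countable ∧ p J = q J' := by
  classical
  choose a _ ha using fun x => hp.fin Set.univ x (hp.cov x)
  choose a' _ ha' using fun x => hq.fin Set.univ x (hq.cov x)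
  let c : Finset (I ⊕ I') → Set (I ⊕ I') := fun F =>
    Sum.inr '' (⋃ x ∈ (p (Sum.inl ⁻¹' (↑F : Set (I ⊕ I'))) : Set N), (↑(a' x) : Set I')) ∪
    Sum.inl '' (⋃ x ∈ (q (Sum.inr ⁻¹' (↑F : Set (I ⊕ I'))) : Set N), (↑(a x) : Set I))
  have hc : ∀ F, (c F).Countable := by
    intro F
    refine Set.Countable.union (Set.Countable.image ?_ _) (Set.Countable.image ?_ _)
    · refine Set.Countable.biUnion (hp.cnt _ ?_) fun x _ => (a' x).countable_toSet
      exact F.countable_toSet.preimage Sum.inl_injective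
    · refine Set.Countable.biUnion (hq.cnt _ ?_) fun x _ => (a x).countable_toSet
      exact F.countable_toSet.preimage Sum.inr_injective
  obtain ⟨W, h1, h2, h3⟩ := exists_closed_countable c hc (Sum.inl '' A ∪ Sum.inr '' A')
    ((hA.image _).union (hA'.image _))
  refine ⟨Sum.inl ⁻¹' W, Sum.inr ⁻¹' W, fun x hx => h1 (Or.inl ⟨x, hx, rfl⟩),
    fun x hx => h1 (Or.inr ⟨x, hx, rfl⟩), h2.preimage Sum.inl_injective,
    h2.preimage Sum.inr_injective, le_antisymm ?_ ?_⟩
  · intro x hx
    obtain ⟨F, hF, hxF⟩ := hp.fin _ x hx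
    have hsub : ((F.map Function.Embedding.inl : Finset (I ⊕ I')) : Set (I ⊕ I')) ⊆ W := by
      intro y hy
      rw [Finset.coe_map] at hy
      obtain ⟨i, hi, rfl⟩ := hy
      exact hF hi
    refine hq.mono _ _ ?_ (ha' x)
    intro j hj
    refine h3 _ hsub (Or.inl ⟨j, Set.mem_iUnion₂.2 ⟨x, ?_, hj⟩, rfl⟩)
    have : (Sum.inl ⁻¹' ((F.map Function.Embedding.inl : Finset (I ⊕ I')) : Set (I ⊕ I'))) = (↑F : Set I) := by
      ext i; simp
    rw [this]
    exact hxF
  · intro x hx
    obtain ⟨F, hF, hxF⟩ := hq.fin _ x hx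
    have hsub : ((F.map Function.Embedding.inr : Finset (I ⊕ I')) : Set (I ⊕ I')) ⊆ W := by
      intro y hy
      rw [Finset.coe_map] at hy
      obtain ⟨i, hi, rfl⟩ := hy
      exact hF hi
    refine hp.mono _ _ ?_ (ha x)
    intro j hj
    refine h3 _ hsub (Or.inr ⟨j, Set.mem_iUnion₂.2 ⟨x, ?_, hj⟩, rfl⟩)
    have : (Sum.inr ⁻¹' ((F.map Function.Embedding.inr : Finset (I ⊕ I')) : Set (I ⊕ I'))) = (↑F : Set I') := by
      ext i; simp
    rw [this]
    exact hxF

theorem sys_supported (I E : Type) [AddCommGroup E] [Module R E] [Countable E] :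
    Sys (fun J : Set I => Finsupp.supported E R J) where
  mono J J' h := Finsupp.supported_mono h
  fin J x hx := ⟨x.support, hx, by rw [Finsupp.mem_supported]⟩
  cov x := by rw [Finsupp.mem_supported]; exact Set.subset_univ _
  cnt J hJ := by
    haveI : Countable J := hJ.to_subtype
    have : Countable (Finsupp.supported E R J) :=
      Function.Injective.countable (Finsupp.supportedEquivFinsupp (R := R) (M := E) J).injective
    exact Set.to_countable _

theorem Sys.comap {I N N' : Type} [AddCommGroup N] [Module R N] [AddCommGroup N'] [Module R N']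
    {q : Set I → Submodule R N'} (hq : Sys q) (Θ : N ≃ₗ[R] N') :
    Sys (fun J => (q J).comap (Θ : N →ₗ[R] N')) where
  mono J J' h := Submodule.comap_mono (hq.mono _ _ h)
  fin J x hx := hq.fin J (Θ x) hx
  cov x := hq.cov (Θ x)
  cnt J hJ := by
    have : ((q J).comap (Θ : N →ₗ[R] N') : Set N) = Θ ⁻¹' (q J : Set N') := rfl
    rw [this]
    exact (hq.cnt J hJ).preimage Θ.injective

theorem sys_prod (E I N : Type) [AddCommGroup E] [Module R E] [Countable E] [AddCommGroup N]
    [Module R N] {p : Set I → Submodule R N} (hp : Sys p) :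
    Sys (fun J : Set I => (⊤ : Submodule R E).prod (p J)) where
  mono J J' h := Submodule.prod_mono le_rfl (hp.mono _ _ h)
  fin J x hx := by
    obtain ⟨F, h1, h2⟩ := hp.fin J x.2 hx.2
    exact ⟨F, h1, trivial, h2⟩
  cov x := ⟨trivial, hp.cov _⟩
  cnt J hJ := by
    have : (((⊤ : Submodule R E).prod (p J) : Submodule R (E × N)) : Set (E × N)) =
      (Set.univ : Set E) ×ˢ (p J : Set N) := by ext x; simp
    rw [this]
    exact Set.Countable.prod (Set.to_countable _) (hp.cnt J hJ)

theorem comap_equiv {N N' : Type} [AddCommGroup N] [Module R N] [AddCommGroup N'] [Module R N']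
    (Θ : N ≃ₗ[R] N') (S : Submodule R N') :
    Nonempty (S.comap (Θ : N →ₗ[R] N') ≃ₗ[R] S) :=
  ⟨{ toFun := fun x => ⟨Θ x, x.2⟩
     invFun := fun y => ⟨Θ.symm y, by simp⟩
     left_inv := fun x => by simp
     right_inv := fun y => by simp
     map_add' := fun x y => by ext; simp
     map_smul' := fun r x => by ext; simp }⟩

theorem power_unique {X X' Z E : Type} [AddCommGroup E] [Module R E] [AddCommGroup Z] [Module R Z]
    [Countable E] [Countable Z] [Infinite X] [Infinite X'] (Θ : (X →₀ Z) ≃ₗ[R] (X' →₀ E)) :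
    Nonempty ((ℕ →₀ Z) ≃ₗ[R] (ℕ →₀ E)) := by
  let f : ℕ ↪ X := Infinite.natEmbedding X
  let f' : ℕ ↪ X' := Infinite.natEmbedding X'
  obtain ⟨J, J', h1, h2, h3, h4, h5⟩ := interlace (sys_supported (R := R) X Z)
    ((sys_supported (R := R) X' E).comap Θ) (Set.range f) (Set.range f') (Set.countable_range _)
    (Set.countable_range _)
  haveI : Countable J := h3.to_subtype
  haveI : Countable J' := h4.to_subtype
  haveI : Infinite J := ((Set.infinite_range_of_injective f.injective).mono h1).to_subtype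
  haveI : Infinite J' := ((Set.infinite_range_of_injective f'.injective).mono h2).to_subtype
  obtain ⟨g⟩ : Nonempty (J ≃ ℕ) := nonempty_equiv_of_countable
  obtain ⟨g'⟩ : Nonempty (J' ≃ ℕ) := nonempty_equiv_of_countable
  obtain ⟨k⟩ := comap_equiv Θ (Finsupp.supported E R J')
  have e1 : (ℕ →₀ Z) ≃ₗ[R] Finsupp.supported Z R J :=
    (Finsupp.domLCongr g).symm.trans (Finsupp.supportedEquivFinsupp J).symm
  have e2 : (ℕ →₀ E) ≃ₗ[R] Finsupp.supported E R J' :=
    (Finsupp.domLCongr g').symm.trans (Finsupp.supportedEquivFinsupp J').symm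
  exact ⟨e1.trans ((LinearEquiv.ofEq _ _ h5).trans (k.trans e2.symm))⟩

theorem isCompl_supported (I E : Type) [AddCommGroup E] [Module R E] (J : Set I) :
    IsCompl (Finsupp.supported E R J) (Finsupp.supported E R Jᶜ) := by
  classical
  constructor
  · rw [Submodule.disjoint_def]
    intro x h1 h2
    rw [Finsupp.mem_supported'] at h1 h2
    ext i
    by_cases hi : i ∈ J
    · exact h2 i (fun h => h hi)
    · exact h1 i hi
  · rw [codisjoint_iff, eq_top_iff]
    intro x _
    rw [Submodule.mem_sup]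
    refine ⟨x.filter (· ∈ J), ?_, x.filter (· ∉ J), ?_, Finsupp.filter_add_filter_not x _⟩
    · rw [Finsupp.mem_supported']
      intro i hi
      simp [Finsupp.filter_apply, hi]
    · rw [Finsupp.mem_supported']
      intro i hi
      have : i ∈ J := not_not.1 hi
      simp [Finsupp.filter_apply, this]

/-- A nonzero countable module `Z` absorbed by `E` has `Z^(ℕ) ≃ E` if `E ⊕ Z^(I) ≃ E^(I)` for some
uncountable `I`. -/
theorem lemmaU {E Z I : Type} [AddCommGroup E] [Module R E] [AddCommGroup Z] [Module R Z]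
    [Countable E] [Countable Z] [Uncountable I] (e : E ≃ₗ[R] (ℕ →₀ E))
    (Θ : (E × (I →₀ Z)) ≃ₗ[R] (I →₀ E)) : Nonempty ((ℕ →₀ Z) ≃ₗ[R] E) := by
  obtain ⟨J, J', -, -, h3, h4, h5⟩ := interlace (sys_prod E I _ (sys_supported (R := R) I Z))
    ((sys_supported (R := R) I E).comap Θ) ∅ ∅ Set.countable_empty Set.countable_empty
  haveI : Infinite (Jᶜ : Set I) := by
    rw [Set.infinite_coe_iff]
    intro hf
    exact Set.not_countable_univ (α := I) (by
      rw [← Set.union_compl_self J]; exact h3.union hf.countable)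
  haveI : Infinite (J'ᶜ : Set I) := by
    rw [Set.infinite_coe_iff]
    intro hf
    exact Set.not_countable_univ (α := I) (by
      rw [← Set.union_compl_self J']; exact h4.union hf.countable)
  have c1 : IsCompl ((⊤ : Submodule R E).prod (Finsupp.supported Z R J))
      ((⊥ : Submodule R E).prod (Finsupp.supported Z R Jᶜ)) := by
    have hJ := isCompl_supported (R := R) I Z J
    constructor
    · rw [Submodule.disjoint_def]
      rintro ⟨x, y⟩ h1 h2
      have hx : x = 0 := h2.1
      have hy : y = 0 := Submodule.disjoint_def.1 hJ.disjoint y h1.2 h2.2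
      rw [hx, hy]; rfl
    · rw [codisjoint_iff, eq_top_iff]
      rintro ⟨x, y⟩ _
      have hy : y ∈ Finsupp.supported Z R J ⊔ Finsupp.supported Z R Jᶜ := by
        rw [codisjoint_iff.1 hJ.codisjoint]; trivial
      obtain ⟨a, ha, b, hb, hab⟩ := Submodule.mem_sup.1 hy
      rw [Submodule.mem_sup]
      exact ⟨(x, a), ⟨trivial, ha⟩, (0, b), ⟨Submodule.zero_mem _, hb⟩, by simp [hab]⟩
  have c2 : IsCompl ((Finsupp.supported E R J').comap (Θ : (E × (I →₀ Z)) →ₗ[R] (I →₀ E)))
      ((Finsupp.supported E R J'ᶜ).comap (Θ : (E × (I →₀ Z)) →ₗ[R] (I →₀ E))) := by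
    have hJ := isCompl_supported (R := R) I E J'
    constructor
    · rw [Submodule.disjoint_def]
      intro x h1 h2
      have := Submodule.disjoint_def.1 hJ.disjoint (Θ x) h1 h2
      simpa using this
    · rw [codisjoint_iff, eq_top_iff]
      intro x _
      have hy : Θ x ∈ Finsupp.supported E R J' ⊔ Finsupp.supported E R J'ᶜ := by
        rw [codisjoint_iff.1 hJ.codisjoint]; trivial
      obtain ⟨a, ha, b, hb, hab⟩ := Submodule.mem_sup.1 hy
      rw [Submodule.mem_sup]
      refine ⟨Θ.symm a, ?_, Θ.symm b, ?_, ?_⟩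
      · rw [Submodule.mem_comap]
        show Θ (Θ.symm a) ∈ Finsupp.supported E R J'
        rw [LinearEquiv.apply_symm_apply]
        exact ha
      · rw [Submodule.mem_comap]
        show Θ (Θ.symm b) ∈ Finsupp.supported E R J'ᶜ
        rw [LinearEquiv.apply_symm_apply]
        exact hb
      · rw [← map_add, hab]; simp
  have h5' : (⊤ : Submodule R E).prod (Finsupp.supported Z R J) =
    (Finsupp.supported E R J').comap (Θ : (E × (I →₀ Z)) →ₗ[R] (I →₀ E)) := h5
  rw [h5'] at c1
  have k1 := (Submodule.quotientEquivOfIsCompl _ _ c1).symm.trans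
    (Submodule.quotientEquivOfIsCompl _ _ c2)
  obtain ⟨k2⟩ := comap_equiv Θ (Finsupp.supported E R J'ᶜ)
  have k3 : ((⊥ : Submodule R E).prod (Finsupp.supported Z R Jᶜ) : Submodule R (E × (I →₀ Z)))
      ≃ₗ[R] Finsupp.supported Z R Jᶜ :=
    { toFun := fun x => ⟨x.1.2, x.2.2⟩
      invFun := fun y => ⟨(0, y), Submodule.zero_mem _, y.2⟩
      left_inv := fun x => by
        obtain ⟨⟨a, b⟩, ha, hb⟩ := x
        have : a = 0 := ha
        subst this
        rfl
      right_inv := fun y => rfl
      map_add' := fun x y => rfl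
      map_smul' := fun r x => rfl }
  have k4 := (Finsupp.supportedEquivFinsupp (R := R) (M := Z) Jᶜ).symm.trans
    (k3.symm.trans (k1.trans (k2.trans (Finsupp.supportedEquivFinsupp (R := R) (M := E) J'ᶜ))))
  obtain ⟨k5⟩ := power_unique k4
  exact ⟨k5.trans e.symm⟩

end Pool.Agent.Y583.MC
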