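import Pool.Agent.Y583.MC3

set_option autoImplicit false

/-!
Tree modules.
-/

namespace Pool.Agent.Y583.MC

open Filter

variable {R : Type} [Ring R]

/-- the node of level `n` on the branch `η` -/
def pre (η : ℕ → Bool) : ℕ → List Bool
  | 0 => []
  | n + 1 => η n :: pre η n

theorem pre_length (η : ℕ → Bool) (n : ℕ) : (pre η n).length = n := by
  induction n with
  | zero => rfl
  | succ n ih => simp [pre, ih]

theorem pre_inj (η : ℕ → Bool) : Function.Injective (pre η) := by
  intro m n h
  have := congrArg List.length h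
  rwa [pre_length, pre_length] at this

theorem pre_eq {η η' : ℕ → Bool} {n : ℕ} (h : pre η n = pre η' n) : ∀ i < n, η i = η' i := by
  induction n with
  | zero => intro i hi; omega
  | succ n ih =>
      intro i hi
      have h' : η n :: pre η n = η' n :: pre η' n := h
      rw [List.cons.injEq] at h'
      rcases Nat.lt_succ_iff_lt_or_eq.1 hi with h1 | h1
      · exact ih h'.2 i h1
      · subst h1; exact h'.1

theorem pre_sep {η η' : ℕ → Bool} (h : η ≠ η') : ∀ᶠ m in atTop, pre η m ≠ pre η' m := by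
  obtain ⟨i, hi⟩ := Function.ne_iff.1 h
  refine eventually_atTop.2 ⟨i + 1, fun m hm hpre => hi (pre_eq hpre i (by omega))⟩

variable {Y : Set (ℕ → Bool)}

/-- nodes of level less than `n` or on one of the branches in `G` -/
def Nd (G : Finset Y) (n : ℕ) : Set (List Bool) :=
  {s | s.length < n ∨ ∃ η ∈ G, s = pre η.1 s.length}

theorem Nd_mono {G G' : Finset Y} {n n' : ℕ} (h : G ⊆ G') (h' : n ≤ n') : Nd G n ⊆ Nd G' n' := by
  rintro s (hs | ⟨η, hη, hs⟩)
  · exact Or.inl (by omega)
  · exact Or.inr ⟨η, h hη, hs⟩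

theorem pre_mem_Nd {G : Finset Y} {η : Y} (h : η ∈ G) (n m : ℕ) : pre η.1 m ∈ Nd G n :=
  Or.inr ⟨η, h, by rw [pre_length]⟩

theorem pre_notMem_Nd {G : Finset Y} {η : Y} (h : η ∉ G) (n : ℕ) :
    ∀ᶠ m in atTop, pre η.1 m ∉ Nd G n := by
  have h1 : ∀ᶠ m in atTop, ∀ η' ∈ G, pre η.1 m ≠ pre η'.1 m := by
    rw [Filter.eventually_all_finset]
    intro η' hη'
    refine pre_sep fun he => h ?_
    have : η = η' := Subtype.ext he
    rwa [this]
  filter_upwards [h1, eventually_ge_atTop n] with m hm hn
  rintro (h2 | ⟨η', hη', h2⟩)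
  · rw [pre_length] at h2; omega
  · rw [pre_length] at h2
    exact hm η' hη' h2

variable {E : Type} [AddCommGroup E] [Module R E]

/-- the tree module -/
def TM (Y : Set (ℕ → Bool)) (f : ℕ → (E →ₗ[R] E)) : Submodule R (List Bool → E) where
  carrier := {g | (∀ η : Y, ∀ᶠ m in atTop, g (pre η.1 (m + 1)) = f m (g (pre η.1 m))) ∧
    ∃ (G : Finset Y) (n : ℕ), ∀ s, g s ≠ 0 → s ∈ Nd G n}
  add_mem' := by
    classical
    rintro g g' ⟨h1, G, n, h2⟩ ⟨h1', G', n', h2'⟩
    refine ⟨fun η => ?_, G ∪ G', max n n', fun s hs => ?_⟩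
    · filter_upwards [h1 η, h1' η] with m hm hm'
      simp [hm, hm']
    · by_cases h : g s = 0
      · have : g' s ≠ 0 := by
          intro h'
          apply hs
          simp [h, h']
        exact Nd_mono Finset.subset_union_right (le_max_right _ _) (h2' s this)
      · exact Nd_mono Finset.subset_union_left (le_max_left _ _) (h2 s h)
  zero_mem' := ⟨fun η => by simp, ∅, 0, fun s hs => absurd rfl hs⟩
  smul_mem' := by
    rintro r g ⟨h1, G, n, h2⟩
    refine ⟨fun η => ?_, G, n, fun s hs => ?_⟩
    · filter_upwards [h1 η] with m hm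
      simp [hm]
    · refine h2 s fun h => hs ?_
      simp [h]

/-- the part of the tree module on `Nd G n` -/
def SG (f : ℕ → (E →ₗ[R] E)) (G : Finset Y) (n : ℕ) : Submodule R (TM Y f) where
  carrier := {g | ∀ s, g.1 s ≠ 0 → s ∈ Nd G n}
  add_mem' := by
    intro g g' h h' s hs
    by_cases h1 : g.1 s = 0
    · refine h' s fun h2 => hs ?_
      show g.1 s + g'.1 s = 0
      rw [h1, h2, add_zero]
    · exact h s h1
  zero_mem' := fun s hs => absurd rfl hs
  smul_mem' := by
    intro r g h s hs
    refine h s fun h1 => hs ?_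
    show r • g.1 s = 0
    rw [h1, smul_zero]

theorem mem_SG {f : ℕ → (E →ₗ[R] E)} {G : Finset Y} {n : ℕ} {g : TM Y f} :
    g ∈ SG f G n ↔ ∀ s, g.1 s ≠ 0 → s ∈ Nd G n := Iff.rfl

theorem SG_mono {f : ℕ → (E →ₗ[R] E)} {G G' : Finset Y} {n n' : ℕ} (h : G ⊆ G') (h' : n ≤ n') :
    SG f G n ≤ SG f G' n' := fun _ hg s hs => Nd_mono h h' (hg s hs)

theorem TM_cov (f : ℕ → (E →ₗ[R] E)) (g : TM Y f) : ∃ G n, g ∈ SG f G n := g.2.2

/-- the restriction to the nodes in `Nd G n` -/
theorem SG_retract (f : ℕ → (E →ₗ[R] E)) (G : Finset Y) (n : ℕ) :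
    ∃ r : TM Y f →ₗ[R] SG f G n, ∀ x : SG f G n, r x = x := by
  classical
  have hmem : ∀ g : TM Y f, (Nd G n).indicator g.1 ∈ TM Y f := by
    intro g
    refine ⟨fun η => ?_, G, n, fun s hs => ?_⟩
    · by_cases hη : η ∈ G
      · filter_upwards [g.2.1 η] with m hm
        rw [Set.indicator_of_mem (pre_mem_Nd hη n _), Set.indicator_of_mem (pre_mem_Nd hη n _), hm]
      · filter_upwards [pre_notMem_Nd hη n, (tendsto_add_atTop_nat 1).eventually
          (pre_notMem_Nd hη n)] with m hm hm'
        rw [Set.indicator_of_notMem hm, Set.indicator_of_notMem hm', map_zero]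
    · by_contra h
      exact hs (Set.indicator_of_notMem h _)
  refine ⟨{ toFun := fun g => ⟨⟨_, hmem g⟩, fun s hs => ?_⟩
            map_add' := fun g g' => ?_
            map_smul' := fun r g => ?_ }, fun x => ?_⟩
  · by_contra h
    exact hs (Set.indicator_of_notMem h _)
  · apply Subtype.ext
    apply Subtype.ext
    exact Set.indicator_add _ _ _
  · apply Subtype.ext
    apply Subtype.ext
    show (Nd G n).indicator (r • g.1) = r • (Nd G n).indicator g.1
    funext s
    by_cases h : s ∈ Nd G n
    · simp [Set.indicator_of_mem h]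
    · simp [Set.indicator_of_notMem h]
  · apply Subtype.ext
    apply Subtype.ext
    show (Nd G n).indicator x.1.1 = x.1.1
    funext s
    by_cases h : s ∈ Nd G n
    · rw [Set.indicator_of_mem h]
    · rw [Set.indicator_of_notMem h]
      by_contra h'
      exact h (x.2 s (Ne.symm h'))

open Classical in
/-- differences along the branches -/
noncomputable def dd (f : ℕ → (E →ₗ[R] E)) (G : Finset Y) (n : ℕ) (g : List Bool → E) :
    List Bool → E
  | [] => g []
  | b :: s => g (b :: s) - (if n ≤ s.length ∧ (b :: s) ∈ Nd G n then f s.length (g s) else 0)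

open Classical in
/-- sums along the branches -/
noncomputable def ss (f : ℕ → (E →ₗ[R] E)) (G : Finset Y) (n : ℕ) (w : List Bool → E) :
    List Bool → E
  | [] => w []
  | b :: s => w (b :: s) + (if n ≤ s.length ∧ (b :: s) ∈ Nd G n then f s.length (ss f G n w s)
      else 0)

theorem dd_finite (f : ℕ → (E →ₗ[R] E)) (G : Finset Y) (n : ℕ) (g : SG f G n) :
    (Function.support fun s : Nd G n => dd f G n g.1.1 s).Finite := by
  have h1 : ∀ᶠ m in atTop, ∀ η ∈ G, g.1.1 (pre η.1 (m + 1)) = f m (g.1.1 (pre η.1 m)) := by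
    rw [Filter.eventually_all_finset]
    exact fun η _ => g.1.2.1 η
  obtain ⟨N, hN⟩ := eventually_atTop.1 h1
  have h2 : {s : List Bool | dd f G n g.1.1 s ≠ 0} ⊆ {s | s.length < max (n + 1) (N + 1)} := by
    intro s hs
    by_contra hlen
    apply hs
    simp only [Set.mem_setOf_eq, not_lt] at hlen
    cases s with
    | nil => simp at hlen
    | cons b t =>
        have hl : n ≤ t.length ∧ N ≤ t.length := by
          simp only [List.length_cons] at hlen
          omega
        by_cases hmem : (b :: t) ∈ Nd G n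
        · show g.1.1 (b :: t) - _ = 0
          rw [if_pos ⟨hl.1, hmem⟩]
          rcases hmem with h | ⟨η, hη, h⟩
          · simp only [List.length_cons] at h; omega
          · have h' : b :: t = η.1 t.length :: pre η.1 t.length := h
            rw [List.cons.injEq] at h'
            have h3 := hN t.length hl.2 η hη
            have h4 : pre η.1 (t.length + 1) = b :: t := h.symm
            rw [h4] at h3
            have h5 : g.1.1 (pre η.1 t.length) = g.1.1 t := by rw [← h'.2]
            rw [h3, h5, sub_self]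
        · show g.1.1 (b :: t) - _ = 0
          rw [if_neg (fun h => hmem h.2), sub_zero]
          by_contra h
          exact hmem (g.2 _ h)
  have h3 : {s : List Bool | dd f G n g.1.1 s ≠ 0}.Finite :=
    (List.finite_length_lt Bool _).subset h2
  have : (Function.support fun s : Nd G n => dd f G n g.1.1 s) =
    Subtype.val ⁻¹' {s : List Bool | dd f G n g.1.1 s ≠ 0} := rfl
  rw [this]
  exact h3.preimage Subtype.val_injective.injOn

/-- the coordinates of the elements of `SG f G n` -/
noncomputable def Lam (f : ℕ → (E →ₗ[R] E)) (G : Finset Y) (n : ℕ) :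
    SG f G n →ₗ[R] (Nd G n →₀ E) where
  toFun g := Finsupp.ofSupportFinite (fun s : Nd G n => dd f G n g.1.1 s) (dd_finite f G n g)
  map_add' g g' := by
    ext ⟨s, hs⟩
    show dd f G n (g.1.1 + g'.1.1) s = dd f G n g.1.1 s + dd f G n g'.1.1 s
    cases s with
    | nil => rfl
    | cons b t =>
        simp only [dd, Pi.add_apply, map_add]
        split_ifs
        · abel
        · abel
  map_smul' r g := by
    ext ⟨s, hs⟩
    show dd f G n (r • g.1.1) s = r • dd f G n g.1.1 s
    cases s with
    | nil => rfl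
    | cons b t =>
        simp only [dd, Pi.smul_apply, map_smul, smul_sub]
        split_ifs
        · rfl
        · simp

theorem Lam_apply (f : ℕ → (E →ₗ[R] E)) (G : Finset Y) (n : ℕ) (g : SG f G n) (s : Nd G n) :
    Lam f G n g s = dd f G n g.1.1 s := rfl

theorem Lam_bij (f : ℕ → (E →ₗ[R] E)) (G : Finset Y) (n : ℕ) :
    Function.Bijective (Lam f G n) := by
  classical
  constructor
  · rw [injective_iff_map_eq_zero]
    intro g hg
    have key : ∀ s : List Bool, g.1.1 s = 0 := by
      intro s
      induction s with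
      | nil =>
          by_cases hs : [] ∈ Nd G n
          · have : dd f G n g.1.1 [] = 0 := by
              rw [← Lam_apply f G n g ⟨[], hs⟩, hg]; rfl
            exact this
          · by_contra h; exact hs (g.2 _ h)
      | cons b t ih =>
          by_cases hs : (b :: t) ∈ Nd G n
          · have h1 : dd f G n g.1.1 (b :: t) = 0 := by
              rw [← Lam_apply f G n g ⟨_, hs⟩, hg]; rfl
            have h2 : g.1.1 (b :: t) - (if n ≤ t.length ∧ (b :: t) ∈ Nd G n then
              f t.length (g.1.1 t) else 0) = 0 := h1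
            rw [ih, map_zero, ite_self, sub_zero] at h2
            exact h2
          · by_contra h; exact hs (g.2 _ h)
    apply Subtype.ext
    apply Subtype.ext
    funext s
    exact key s
  · intro w
    let w' : List Bool → E := fun s => if h : s ∈ Nd G n then w ⟨s, h⟩ else 0
    have hw0 : ∀ s, s ∉ Nd G n → w' s = 0 := fun s hs => dif_neg hs
    have hw1 : ∀ s (h : s ∈ Nd G n), w' s = w ⟨s, h⟩ := fun s hs => dif_pos hs
    have hsupp : ∀ s, s ∉ Nd G n → ss f G n w' s = 0 := by
      intro s hs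
      cases s with
      | nil => exact hw0 _ hs
      | cons b t =>
          show w' (b :: t) + _ = 0
          rw [hw0 _ hs, if_neg (fun h => hs h.2), add_zero]
    have hmem : ss f G n w' ∈ TM Y f := by
      refine ⟨fun η => ?_, G, n, fun s hs => ?_⟩
      · by_cases hη : η ∈ G
        · have hfin : {m : ℕ | w' (pre η.1 m) ≠ 0}.Finite := by
            have : {m : ℕ | w' (pre η.1 m) ≠ 0} ⊆
                (fun m => pre η.1 m) ⁻¹' (Subtype.val '' (↑w.support : Set (Nd G n))) := by
              intro m hm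
              have h1 := pre_mem_Nd hη n m
              refine ⟨⟨_, h1⟩, ?_, rfl⟩
              rw [Finset.mem_coe, Finsupp.mem_support_iff, ← hw1]
              exact hm
            exact ((w.support.finite_toSet.image _).preimage (pre_inj η.1).injOn).subset this
          obtain ⟨N, hN⟩ := hfin.bddAbove
          filter_upwards [eventually_ge_atTop N, eventually_ge_atTop n] with m hm hn
          have h0 : w' (pre η.1 (m + 1)) = 0 := by
            by_contra h
            have := hN h
            omega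
          show w' (pre η.1 (m + 1)) + (if n ≤ (pre η.1 m).length ∧ pre η.1 (m + 1) ∈ Nd G n then
            f (pre η.1 m).length (ss f G n w' (pre η.1 m)) else 0) = _
          rw [if_pos ⟨by rw [pre_length]; exact hn, pre_mem_Nd hη n _⟩, h0, zero_add, pre_length]
        · filter_upwards [pre_notMem_Nd hη n, (tendsto_add_atTop_nat 1).eventually
            (pre_notMem_Nd hη n)] with m hm hm'
          rw [hsupp _ hm, hsupp _ hm', map_zero]
      · by_contra h
        exact hs (hsupp s h)
    refine ⟨⟨⟨_, hmem⟩, fun s hs => ?_⟩, ?_⟩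
    · by_contra h
      exact hs (hsupp s h)
    · ext ⟨s, hs⟩
      rw [Lam_apply]
      show dd f G n (ss f G n w') s = w ⟨s, hs⟩
      rw [← hw1]
      cases s with
      | nil => rfl
      | cons b t =>
          show (w' (b :: t) + _) - _ = w' (b :: t)
          rw [add_sub_cancel_right]

/-- the coordinates of the elements of `SG f G n` -/
noncomputable def LamE (f : ℕ → (E →ₗ[R] E)) (G : Finset Y) (n : ℕ) :
    SG f G n ≃ₗ[R] (Nd G n →₀ E) := LinearEquiv.ofBijective (Lam f G n) (Lam_bij f G n)

theorem SG_equiv (e : E ≃ₗ[R] (ℕ →₀ E)) (f : ℕ → (E →ₗ[R] E)) (G : Finset Y) (n : ℕ)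
    (hn : 1 ≤ n) : Nonempty (SG f G n ≃ₗ[R] E) := by
  haveI : Nonempty (Nd G n) := ⟨⟨[], Or.inl (by simp; omega)⟩⟩
  exact (pow_of_countable e (Nd G n)).map fun k => (LamE f G n).trans k

theorem like_TM (e : E ≃ₗ[R] (ℕ →₀ E)) (f : ℕ → (E →ₗ[R] E)) : Like R E (TM Y f) := by
  classical
  refine ⟨{S | ∃ (G : Finset Y) (n : ℕ), 1 ≤ n ∧ S = SG f G n}, ?_, ?_, ?_, ?_⟩
  · rintro _ ⟨G, n, hn, rfl⟩ _ ⟨G', n', hn', rfl⟩
    exact ⟨_, ⟨G ∪ G', max n n', hn.trans (le_max_left _ _), rfl⟩,
      SG_mono Finset.subset_union_left (le_max_left _ _),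
      SG_mono Finset.subset_union_right (le_max_right _ _)⟩
  · intro g
    obtain ⟨G, n, h⟩ := TM_cov f g
    exact ⟨_, ⟨G, max n 1, le_max_right _ _, rfl⟩, SG_mono subset_rfl (le_max_left _ _) h⟩
  · rintro _ ⟨G, n, hn, rfl⟩
    exact SG_equiv e f G n hn
  · rintro _ ⟨G, n, hn, rfl⟩
    exact SG_retract f G n

theorem SG_countable [Countable E] (e : E ≃ₗ[R] (ℕ →₀ E)) (f : ℕ → (E →ₗ[R] E)) (G : Finset Y)
    (n : ℕ) : (SG f G n : Set (TM Y f)).Countable := by
  obtain ⟨k⟩ := SG_equiv e f G (max n 1) (le_max_right _ _)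
  have h1 : Countable (SG f G (max n 1)) := k.injective.countable
  have h2 : (SG f G (max n 1) : Set (TM Y f)).Countable := Set.to_countable _
  exact h2.mono (SG_mono subset_rfl (le_max_left _ _))

/-- the part of the tree module given by a set of branches -/
def PB (f : ℕ → (E →ₗ[R] E)) (J : Set Y) : Submodule R (TM Y f) where
  carrier := {g | ∃ (G : Finset Y) (n : ℕ), (↑G : Set Y) ⊆ J ∧ g ∈ SG f G n}
  add_mem' := by
    classical
    rintro g g' ⟨G, n, h1, h2⟩ ⟨G', n', h1', h2'⟩
    refine ⟨G ∪ G', max n n', by rw [Finset.coe_union]; exact Set.union_subset h1 h1', ?_⟩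
    exact Submodule.add_mem _ (SG_mono Finset.subset_union_left (le_max_left _ _) h2)
      (SG_mono Finset.subset_union_right (le_max_right _ _) h2')
  zero_mem' := ⟨∅, 0, by simp, Submodule.zero_mem _⟩
  smul_mem' := by
    rintro r g ⟨G, n, h1, h2⟩
    exact ⟨G, n, h1, Submodule.smul_mem _ _ h2⟩

theorem sys_PB [Countable E] (e : E ≃ₗ[R] (ℕ →₀ E)) (f : ℕ → (E →ₗ[R] E)) :
    Sys (fun J : Set Y => PB f J) where
  mono J J' h := by
    rintro g ⟨G, n, h1, h2⟩
    exact ⟨G, n, h1.trans h, h2⟩
  fin J g := by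
    rintro ⟨G, n, h1, h2⟩
    exact ⟨G, h1, G, n, subset_rfl, h2⟩
  cov g := by
    obtain ⟨G, n, h⟩ := TM_cov f g
    exact ⟨G, n, Set.subset_univ _, h⟩
  cnt J hJ := by
    classical
    haveI : Countable J := hJ.to_subtype
    have : (PB f J : Set (TM Y f)) ⊆ ⋃ p : Finset J × ℕ,
        (SG f (p.1.map (Function.Embedding.subtype _)) p.2 : Set (TM Y f)) := by
      rintro g ⟨G, n, h1, h2⟩
      refine Set.mem_iUnion.2 ⟨(G.subtype (· ∈ J), n), ?_⟩
      have : (G.subtype (· ∈ J)).map (Function.Embedding.subtype _) = G := by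
        rw [Finset.subtype_map]
        exact Finset.filter_true_of_mem fun x hx => h1 hx
      show g ∈ SG f _ n
      rw [this]
      exact h2
    exact (Set.countable_iUnion fun p => SG_countable e f _ _).mono this

theorem sys_prod2 {I I' N N' : Type} [AddCommGroup N] [Module R N] [AddCommGroup N'] [Module R N']
    {p : Set I → Submodule R N} {q : Set I' → Submodule R N'} (hp : Sys p) (hq : Sys q) :
    Sys (fun J : Set (I ⊕ I') => (p (Sum.inl ⁻¹' J)).prod (q (Sum.inr ⁻¹' J))) where
  mono J J' h := Submodule.prod_mono (hp.mono _ _ fun x hx => h hx) (hq.mono _ _ fun x hx => h hx)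
  fin J x hx := by
    classical
    obtain ⟨F, h1, h2⟩ := hp.fin _ x.1 hx.1
    obtain ⟨F', h1', h2'⟩ := hq.fin _ x.2 hx.2
    refine ⟨F.disjSum F', ?_, ?_, ?_⟩
    · intro y hy
      rw [Finset.mem_coe, Finset.mem_disjSum] at hy
      rcases hy with ⟨i, hi, rfl⟩ | ⟨i, hi, rfl⟩
      · exact h1 hi
      · exact h1' hi
    · have : Sum.inl ⁻¹' (↑(F.disjSum F') : Set (I ⊕ I')) = (↑F : Set I) := by ext i; simp
      show x.1 ∈ p _
      rw [this]; exact h2
    · have : Sum.inr ⁻¹' (↑(F.disjSum F') : Set (I ⊕ I')) = (↑F' : Set I') := by ext i; simp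
      show x.2 ∈ q _
      rw [this]; exact h2'
  cov x := ⟨hp.cov x.1, hq.cov x.2⟩
  cnt J hJ := by
    have : (((p (Sum.inl ⁻¹' J)).prod (q (Sum.inr ⁻¹' J)) : Submodule R (N × N')) : Set (N × N')) =
      (p (Sum.inl ⁻¹' J) : Set N) ×ˢ (q (Sum.inr ⁻¹' J) : Set N') := by ext x; simp
    rw [this]
    exact Set.Countable.prod (hp.cnt _ (hJ.preimage Sum.inl_injective))
      (hq.cnt _ (hJ.preimage Sum.inr_injective))

end Pool.Agent.Y583.MC
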