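import Pool.Agent.Y583.MC4

set_option autoImplicit false

/-!
The splitting property `TP` and its derivation from the tree modules.
-/

namespace Pool.Agent.Y583.MC

open Filter

variable {R : Type} [Ring R]

/-- For every sequence `f` of endomorphisms the map `x ↦ (single n x - single (n+1) (f n x))` has a
left inverse. -/
def TP (R E : Type) [Ring R] [AddCommGroup E] [Module R E] : Prop :=
  ∀ f : ℕ → (E →ₗ[R] E), ∃ h : ℕ → (E →ₗ[R] (ℕ →₀ E)),
    ∀ n x, h n x - h (n + 1) (f n x) = Finsupp.single n x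

variable {E : Type} [AddCommGroup E] [Module R E] {Y : Set (ℕ → Bool)}

theorem tree_TP [Countable E] (e : E ≃ₗ[R] (ℕ →₀ E)) (f : ℕ → (E →ₗ[R] E)) (hY : ¬ Y.Countable)
    {I : Type} (Θ : (TM Y f × (I →₀ E)) ≃ₗ[R] (I →₀ E)) :
    ∃ h : ℕ → (E →ₗ[R] (ℕ →₀ E)), ∀ n x, h n x - h (n + 1) (f n x) = Finsupp.single n x := by
  classical
  obtain ⟨J, J', -, -, h3, -, h5⟩ := interlace
    (sys_prod2 (sys_PB e f) (sys_supported (R := R) I E))
    ((sys_supported (R := R) I E).comap Θ) ∅ ∅ Set.countable_empty Set.countable_empty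
  obtain ⟨η, hη⟩ : ∃ η : Y, η ∉ (Sum.inl ⁻¹' J : Set Y) := by
    by_contra hcon
    push Not at hcon
    apply hY
    have h6 : (Set.univ : Set Y).Countable :=
      (h3.preimage Sum.inl_injective).mono fun η _ => hcon η
    exact Set.countable_coe_iff.1 (Set.countable_univ_iff.1 h6)
  let J₁ : Set Y := Sum.inl ⁻¹' J
  -- restriction to the branch `η`
  have hfin : ∀ g : PB f J₁, (Function.support fun m => g.1.1 (pre η.1 m)).Finite := by
    rintro ⟨g, G, n, h1, h2⟩
    have h4 := pre_notMem_Nd (G := G) (η := η) (fun h => hη (h1 h)) n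
    obtain ⟨N, hN⟩ := eventually_atTop.1 h4
    refine (Set.finite_lt_nat N).subset fun m hm => ?_
    by_contra hlt
    exact hN m (not_lt.1 hlt) (h2 _ hm)
  let ρ : PB f J₁ →ₗ[R] (ℕ →₀ E) :=
    { toFun := fun g => Finsupp.ofSupportFinite (fun m => g.1.1 (pre η.1 m)) (hfin g)
      map_add' := fun g g' => by ext m; rfl
      map_smul' := fun r g => by ext m; rfl }
  have hρ : ∀ g m, ρ g m = g.1.1 (pre η.1 m) := fun g m => rfl
  -- the retraction
  have h5' : ((PB f J₁).prod (Finsupp.supported E R (Sum.inr ⁻¹' J : Set I))) =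
      (Finsupp.supported E R J').comap (Θ : (TM Y f × (I →₀ E)) →ₗ[R] (I →₀ E)) := h5
  let R₁ : (TM Y f × (I →₀ E)) →ₗ[R] (TM Y f × (I →₀ E)) :=
    (Θ.symm : (I →₀ E) →ₗ[R] (TM Y f × (I →₀ E))) ∘ₗ
      ((Finsupp.supported E R J').subtype ∘ₗ Finsupp.restrictDom E R J') ∘ₗ
      (Θ : (TM Y f × (I →₀ E)) →ₗ[R] (I →₀ E))
  have hR1 : ∀ x, R₁ x ∈ (PB f J₁).prod (Finsupp.supported E R (Sum.inr ⁻¹' J : Set I)) := by
    intro x
    rw [h5', Submodule.mem_comap]
    show Θ (Θ.symm (Finsupp.restrictDom E R J' (Θ x) : I →₀ E)) ∈ _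
    rw [LinearEquiv.apply_symm_apply]
    exact (Finsupp.restrictDom E R J' (Θ x)).2
  have hR2 : ∀ x ∈ (PB f J₁).prod (Finsupp.supported E R (Sum.inr ⁻¹' J : Set I)), R₁ x = x := by
    intro x hx
    rw [h5', Submodule.mem_comap] at hx
    show Θ.symm (Finsupp.restrictDom E R J' (Θ x) : I →₀ E) = x
    have : (Finsupp.restrictDom E R J' (Θ x) : I →₀ E) = Θ x := by
      have h7 := LinearMap.congr_fun (Finsupp.restrictDom_comp_subtype (R := R) (M := E) J')
        ⟨Θ x, hx⟩
      exact congrArg Subtype.val h7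
    rw [this, LinearEquiv.symm_apply_apply]
  let R₂ : TM Y f →ₗ[R] PB f J₁ := LinearMap.codRestrict _
    (LinearMap.fst R _ _ ∘ₗ R₁ ∘ₗ LinearMap.inl R (TM Y f) (I →₀ E)) (fun x => (hR1 _).1)
  have hR3 : ∀ x : PB f J₁, R₂ x = x := by
    intro x
    apply Subtype.ext
    show (R₁ (x.1, 0)).1 = x.1
    rw [hR2 (x.1, 0) ⟨x.2, Submodule.zero_mem _⟩]
  -- the elements on the branch
  have hσ : ∀ (n : ℕ) (x : E), (Pi.single (pre η.1 n) x : List Bool → E) ∈ TM Y f := by
    intro n x
    refine ⟨fun η' => ?_, ∅, n + 1, fun s hs => Or.inl ?_⟩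
    · filter_upwards [eventually_ge_atTop (n + 1)] with m hm
      rw [Pi.single_eq_of_ne, Pi.single_eq_of_ne, map_zero]
      · intro h
        have := congrArg List.length h
        rw [pre_length, pre_length] at this
        omega
      · intro h
        have := congrArg List.length h
        rw [pre_length, pre_length] at this
        omega
    · by_contra hlt
      apply hs
      rw [Pi.single_eq_of_ne]
      intro h
      rw [h, pre_length] at hlt
      omega
  have hσ2 : ∀ (n : ℕ) (x : E), (⟨_, hσ n x⟩ : TM Y f) ∈ SG f {η} 0 := by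
    intro n x s hs
    have : s = pre η.1 n := by
      by_contra h
      apply hs
      show (Pi.single (pre η.1 n) x : List Bool → E) s = 0
      rw [Pi.single_apply, if_neg h]
    rw [this]
    exact pre_mem_Nd (Finset.mem_singleton_self η) 0 n
  have hσ3 : ∀ (n : ℕ) (x : E), (⟨_, hσ n x⟩ : TM Y f) ∈ PB f J₁ := by
    intro n x
    refine ⟨∅, n + 1, by simp, fun s hs => Or.inl ?_⟩
    have : s = pre η.1 n := by
      by_contra h
      apply hs
      show (Pi.single (pre η.1 n) x : List Bool → E) s = 0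
      rw [Pi.single_apply, if_neg h]
    rw [this, pre_length]
    exact Nat.lt_succ_self n
  let nd : ℕ → Nd ({η} : Finset Y) 0 := fun n =>
    ⟨pre η.1 n, pre_mem_Nd (Finset.mem_singleton_self η) 0 n⟩
  let yv : ℕ → (E →ₗ[R] SG f {η} 0) := fun n =>
    ((LamE f {η} 0).symm : (Nd ({η} : Finset Y) 0 →₀ E) →ₗ[R] SG f {η} 0) ∘ₗ
      Finsupp.lsingle (nd n)
  have hrel : ∀ n x, yv n x = ⟨⟨_, hσ n x⟩, hσ2 n x⟩ + yv (n + 1) (f n x) := by
    intro n x
    apply (LamE f {η} 0).injective
    refine Eq.trans ?_ ((LamE f {η} 0).map_add _ _).symm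
    show (LamE f {η} 0) ((LamE f {η} 0).symm (Finsupp.single (nd n) x)) = _ +
      (LamE f {η} 0) ((LamE f {η} 0).symm (Finsupp.single (nd (n + 1)) (f n x)))
    rw [LinearEquiv.apply_symm_apply, LinearEquiv.apply_symm_apply, ← sub_eq_iff_eq_add]
    ext ⟨s, hs⟩
    rw [Finsupp.sub_apply]
    show _ = dd f {η} 0 (Pi.single (pre η.1 n) x) s
    obtain ⟨m, rfl⟩ : ∃ m, s = pre η.1 m := by
      rcases hs with h | ⟨η', h1, h2⟩
      · exact absurd h (Nat.not_lt_zero _)
      · rw [Finset.mem_singleton] at h1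
        subst h1
        exact ⟨_, h2⟩
    have hnd : ∀ k, (nd k = ⟨pre η.1 m, hs⟩) ↔ k = m := by
      intro k
      constructor
      · intro h
        exact pre_inj η.1 (congrArg Subtype.val h)
      · rintro rfl; rfl
    rw [Finsupp.single_apply, Finsupp.single_apply]
    simp only [hnd]
    have hp : ∀ k, (Pi.single (pre η.1 n) x : List Bool → E) (pre η.1 k) =
        if n = k then x else 0 := by
      intro k
      rw [Pi.single_apply]
      have : (pre η.1 k = pre η.1 n) ↔ n = k := by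
        constructor
        · intro h; exact (pre_inj η.1 h).symm
        · rintro rfl; rfl
      simp only [this]
    cases m with
    | zero =>
        show _ = (Pi.single (pre η.1 n) x : List Bool → E) (pre η.1 0)
        rw [hp 0, if_neg (Nat.succ_ne_zero n), sub_zero]
    | succ m =>
        have hif : (if 0 ≤ (pre η.1 m).length ∧ pre η.1 (m + 1) ∈ Nd ({η} : Finset Y) 0 then
            f (pre η.1 m).length ((Pi.single (pre η.1 n) x : List Bool → E) (pre η.1 m)) else 0) =
            f m (if n = m then x else 0) := by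
          rw [if_pos ⟨Nat.zero_le _, hs⟩, hp, pre_length]
        show _ = (Pi.single (pre η.1 n) x : List Bool → E) (pre η.1 (m + 1)) -
          (if 0 ≤ (pre η.1 m).length ∧ pre η.1 (m + 1) ∈ Nd ({η} : Finset Y) 0 then
            f (pre η.1 m).length ((Pi.single (pre η.1 n) x : List Bool → E) (pre η.1 m)) else 0)
        rw [hif, hp]
        congr 1
        by_cases h : n = m
        · subst h; simp
        · rw [if_neg h, if_neg (fun h' => h (Nat.succ.inj h')), map_zero]
  refine ⟨fun n => ρ ∘ₗ R₂ ∘ₗ (SG f {η} 0).subtype ∘ₗ yv n, fun n x => ?_⟩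
  show ρ (R₂ (yv n x).1) - ρ (R₂ (yv (n + 1) (f n x)).1) = _
  have h8 : (yv n x).1 = ⟨_, hσ n x⟩ + (yv (n + 1) (f n x)).1 :=
    congrArg Subtype.val (hrel n x)
  have h9 : ρ (R₂ (yv n x).1) = ρ (R₂ ⟨_, hσ n x⟩) + ρ (R₂ (yv (n + 1) (f n x)).1) := by
    rw [h8, R₂.map_add, ρ.map_add]
  rw [h9, add_sub_cancel_right, hR3 ⟨_, hσ3 n x⟩]
  ext m
  rw [hρ]
  show (Pi.single (pre η.1 n) x : List Bool → E) (pre η.1 m) = _
  rw [Pi.single_apply, Finsupp.single_apply]
  have : (pre η.1 m = pre η.1 n) ↔ n = m := by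
    constructor
    · intro h; exact (pre_inj η.1 h).symm
    · rintro rfl; rfl
  simp only [this]

/-- `TP` passes to retracts -/
theorem TP.retract {B : Type} [AddCommGroup B] [Module R B] (h : TP R E) (i : B →ₗ[R] E)
    (p : E →ₗ[R] B) (hp : ∀ b, p (i b) = b) : TP R B := by
  intro f
  obtain ⟨k, hk⟩ := h fun n => i ∘ₗ f n ∘ₗ p
  refine ⟨fun n => Finsupp.mapRange.linearMap p ∘ₗ k n ∘ₗ i, fun n x => ?_⟩
  have h1 := hk n (i x)
  have h2 : (i ∘ₗ f n ∘ₗ p) (i x) = i (f n x) := by
    show i (f n (p (i x))) = _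
    rw [hp]
  rw [h2] at h1
  show Finsupp.mapRange.linearMap p (k n (i x)) -
    Finsupp.mapRange.linearMap p (k (n + 1) (i (f n x))) = _
  rw [← map_sub, h1]
  ext m
  simp [Finsupp.single_apply, apply_ite p, hp]

end Pool.Agent.Y583.MC
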