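import Pool.Agent.Y583.MC5

set_option autoImplicit false

/-!
Consequences of the splitting property: locally split maps split; descending chains; a direct
summand with local endomorphism ring.
-/

namespace Pool.Agent.Y583.MC

variable {R : Type} [Ring R] {E : Type} [AddCommGroup E] [Module R E]

/-- `f (a + k - 1) ∘ ⋯ ∘ f a` -/
def it (f : ℕ → (E →ₗ[R] E)) (a : ℕ) : ℕ → (E →ₗ[R] E)
  | 0 => LinearMap.id
  | k + 1 => f (a + k) ∘ₗ it f a k

theorem tele {f : ℕ → (E →ₗ[R] E)} {h : ℕ → (E →ₗ[R] (ℕ →₀ E))}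
    (hh : ∀ n x, h n x - h (n + 1) (f n x) = Finsupp.single n x) (a K : ℕ) (x : E) :
    h a x = ∑ k ∈ Finset.range K, Finsupp.single (a + k) (it f a k x) + h (a + K) (it f a K x) := by
  induction K with
  | zero => simp [it]
  | succ K ih =>
      rw [Finset.sum_range_succ, ih]
      have := hh (a + K) (it f a K x)
      rw [← this]
      show _ = _ + (h (a + K) (it f a K x) - h (a + K + 1) (it f a (K + 1) x)) +
        h (a + (K + 1)) (it f a (K + 1) x)
      rw [← add_assoc a K 1]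
      abel

theorem dcc (hT : TP R E) (f : ℕ → (E →ₗ[R] E)) (W : Finset E) :
    ∃ (i : ℕ) (s : E →ₗ[R] E), ∀ x ∈ W, s (it f 0 (i + 1) x) = it f 0 i x := by
  classical
  obtain ⟨h, hh⟩ := hT f
  obtain ⟨i, hi⟩ := Infinite.exists_notMem_finset (W.biUnion fun x => (h 0 x).support)
  refine ⟨i, -(Finsupp.lapply i ∘ₗ h (i + 1)), fun x hx => ?_⟩
  have h1 : (h 0 x) i = 0 := by
    by_contra hne
    exact hi (Finset.mem_biUnion.2 ⟨x, hx, Finsupp.mem_support_iff.2 hne⟩)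
  rw [tele hh 0 (i + 1) x, Finset.sum_range_succ, Finsupp.add_apply, Finsupp.add_apply,
    Finsupp.finset_sum_apply] at h1
  have h2 : ∑ k ∈ Finset.range i, (Finsupp.single (0 + k) (it f 0 k x) : ℕ →₀ E) i = 0 := by
    refine Finset.sum_eq_zero fun k hk => ?_
    rw [Finset.mem_range] at hk
    rw [Finsupp.single_apply, if_neg (by omega)]
  rw [h2, zero_add, zero_add, zero_add, Finsupp.single_eq_same] at h1
  show -(h (i + 1) (it f 0 (i + 1) x)) i = it f 0 i x
  rw [neg_eq_iff_add_eq_zero, add_comm]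
  exact h1

theorem exists_simple [Nontrivial E] (hT : TP R E) :
    ∃ x : E, x ≠ 0 ∧ ∀ f : E →ₗ[R] E, f x ≠ 0 → ∃ g : E →ₗ[R] E, g (f x) = x := by
  classical
  by_contra hcon
  push Not at hcon
  have hcon' : ∀ x : {x : E // x ≠ 0}, ∃ f : E →ₗ[R] E, f x ≠ 0 ∧ ∀ g : E →ₗ[R] E, g (f x) ≠ x :=
    fun x => hcon x.1 x.2
  choose φ h1 h2 using hcon'
  obtain ⟨x0, hx0⟩ := exists_ne (0 : E)
  let st : {x : E // x ≠ 0} → {x : E // x ≠ 0} := fun x => ⟨φ x x, h1 x⟩
  let xs : ℕ → {x : E // x ≠ 0} := fun n => st^[n] ⟨x0, hx0⟩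
  let f : ℕ → (E →ₗ[R] E) := fun n => φ (xs n)
  have hxs : ∀ n, it f 0 n x0 = (xs n).1 := by
    intro n
    induction n with
    | zero => rfl
    | succ n ih =>
        show f (0 + n) (it f 0 n x0) = (st^[n + 1] ⟨x0, hx0⟩ : {x : E // x ≠ 0}).1
        rw [ih, Function.iterate_succ_apply', zero_add]
  obtain ⟨i, s, hs⟩ := dcc hT f {x0}
  have := hs x0 (Finset.mem_singleton_self _)
  rw [hxs, hxs] at this
  refine h2 (xs i) s ?_
  have h3 : (xs (i + 1)).1 = φ (xs i) (xs i) := by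
    show (st^[i + 1] ⟨x0, hx0⟩ : {x : E // x ≠ 0}).1 = _
    rw [Function.iterate_succ_apply']
  rw [← h3]
  exact this

/-- `K` makes the set `F` good: an endomorphism that fixes `x` can be reversed on `K F` -/
def Good (x : E) (K : E →ₗ[R] E) (F : Finset E) : Prop :=
  ∀ k : E →ₗ[R] E, k x = x → ∃ s : E →ₗ[R] E, ∀ w ∈ F, s (k (K w)) = K w

theorem exists_good (hT : TP R E) (x : E) (F : Finset E) :
    ∃ K : E →ₗ[R] E, K x = x ∧ Good x K F := by
  classical
  by_contra hcon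
  push Not at hcon
  have hcon' : ∀ K : {K : E →ₗ[R] E // K x = x}, ∃ k : E →ₗ[R] E, k x = x ∧
      ∀ s : E →ₗ[R] E, ∃ w ∈ F, s (k (K.1 w)) ≠ K.1 w := by
    intro K
    have := hcon K.1 K.2
    unfold Good at this
    push Not at this
    exact this
  choose φ h1 h2 using hcon'
  let st : {K : E →ₗ[R] E // K x = x} → {K : E →ₗ[R] E // K x = x} := fun K =>
    ⟨φ K ∘ₗ K.1, by rw [LinearMap.comp_apply, K.2, h1]⟩
  let Ks : ℕ → {K : E →ₗ[R] E // K x = x} := fun n => st^[n] ⟨LinearMap.id, rfl⟩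
  let f : ℕ → (E →ₗ[R] E) := fun n => φ (Ks n)
  have hKs : ∀ n, Ks (n + 1) = st (Ks n) := fun n => Function.iterate_succ_apply' _ _ _
  have hit : ∀ n, it f 0 n = (Ks n).1 := by
    intro n
    induction n with
    | zero => rfl
    | succ n ih =>
        show f (0 + n) ∘ₗ it f 0 n = (Ks (n + 1)).1
        rw [ih, hKs, zero_add]
  obtain ⟨i, s, hs⟩ := dcc hT f F
  obtain ⟨w, hw, hne⟩ := h2 (Ks i) s
  apply hne
  have := hs w hw
  rw [hit, hit, hKs] at this
  exact this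

theorem exists_seq [Countable E] (hT : TP R E) (x : E) :
    ∃ f : ℕ → (E →ₗ[R] E), (∀ n, f n x = x) ∧ ∀ (m : ℕ) (F : Finset E), ∃ n, m ≤ n ∧
      ∀ k : E →ₗ[R] E, k x = x → ∃ s : E →ₗ[R] E, ∀ w ∈ F,
        s (k (it f m (n - m) w)) = it f m (n - m) w := by
  classical
  choose κ h1 h2 using exists_good hT x
  haveI : Nonempty E := ⟨x⟩
  obtain ⟨en, hen⟩ := exists_surjective_nat E
  let Fn : ℕ → Finset E := fun n => (Finset.range (n + 1)).image en
  let Wn : ℕ → Finset (E →ₗ[R] E) → Finset E := fun n 𝒦 => 𝒦.biUnion fun K => (Fn n).image K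
  let 𝒦 : ℕ → Finset (E →ₗ[R] E) := fun n => Nat.rec {LinearMap.id}
    (fun n 𝒦 => insert LinearMap.id (𝒦.image fun K => κ (Wn n 𝒦) ∘ₗ K)) n
  have h𝒦 : ∀ n, 𝒦 (n + 1) = insert LinearMap.id ((𝒦 n).image fun K => κ (Wn n (𝒦 n)) ∘ₗ K) :=
    fun n => rfl
  have hid : ∀ n, LinearMap.id ∈ 𝒦 n := by
    intro n
    cases n with
    | zero => exact Finset.mem_singleton_self _
    | succ n => rw [h𝒦]; exact Finset.mem_insert_self _ _
  let f : ℕ → (E →ₗ[R] E) := fun n => κ (Wn n (𝒦 n))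
  have hit : ∀ m k, it f m k ∈ 𝒦 (m + k) := by
    intro m k
    induction k with
    | zero => exact hid m
    | succ k ih =>
        show f (m + k) ∘ₗ it f m k ∈ 𝒦 (m + k + 1)
        rw [h𝒦]
        exact Finset.mem_insert_of_mem (Finset.mem_image.2 ⟨_, ih, rfl⟩)
  refine ⟨f, fun n => h1 _, fun m F => ?_⟩
  obtain ⟨N, hN⟩ : ∃ N, F ⊆ Fn N := by
    induction F using Finset.induction_on with
    | empty => exact ⟨0, Finset.empty_subset _⟩
    | insert a F _ ih =>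
        obtain ⟨N, hN⟩ := ih
        obtain ⟨j, hj⟩ := hen a
        refine ⟨max N j, ?_⟩
        have hmono : Fn N ⊆ Fn (max N j) := Finset.image_subset_image
          (Finset.range_mono (by omega))
        refine Finset.insert_subset ?_ (hN.trans hmono)
        exact Finset.mem_image.2 ⟨j, Finset.mem_range.2 (by omega), hj⟩
  obtain ⟨k, hk⟩ : ∃ k, N ≤ m + k := ⟨N, by omega⟩
  refine ⟨m + k + 1, by omega, fun t ht => ?_⟩
  obtain ⟨s, hs⟩ := h2 (Wn (m + k) (𝒦 (m + k))) t ht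
  refine ⟨s, fun w hw => ?_⟩
  have hsub : m + k + 1 - m = k + 1 := by omega
  rw [hsub]
  refine hs (it f m k w) ?_
  refine Finset.mem_biUnion.2 ⟨_, hit m k, Finset.mem_image.2 ⟨w, ?_, rfl⟩⟩
  have hmono : Fn N ⊆ Fn (m + k) := Finset.image_subset_image (Finset.range_mono (by omega))
  exact hmono (hN hw)

/-- A locally split map from a countable module to a module with the splitting property splits. -/
theorem split_of_local {A B : Type} [AddCommGroup A] [Module R A] [AddCommGroup B] [Module R B]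
    [Countable A] (hB : TP R B) (φ : A →ₗ[R] B)
    (h : ∀ F : Finset A, ∃ ψ : B →ₗ[R] A, ∀ a ∈ F, ψ (φ a) = a) :
    ∃ ψ : B →ₗ[R] A, ∀ a, ψ (φ a) = a := by
  classical
  choose Ψ hΨ using h
  obtain ⟨en, hen⟩ := exists_surjective_nat A
  let S : ℕ → (A →ₗ[R] A) → Finset A := fun n P => (Finset.range (n + 1)).image fun j => P (en j)
  let P : ℕ → (A →ₗ[R] A) := fun n => Nat.rec LinearMap.id
    (fun n P => (LinearMap.id - Ψ (S n P) ∘ₗ φ) ∘ₗ P) n
  let ψ : ℕ → (B →ₗ[R] A) := fun n => Ψ (S n (P n))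
  have hP : ∀ n, P (n + 1) = (LinearMap.id - ψ n ∘ₗ φ) ∘ₗ P n := fun n => rfl
  have hP1 : ∀ n a, P (n + 1) a = P n a - ψ n (φ (P n a)) := fun n a => by
    rw [hP]; rfl
  have hP0 : ∀ j, P (j + 1) (en j) = 0 := by
    intro j
    rw [hP1, hΨ (S j (P j)) (P j (en j))
      (Finset.mem_image.2 ⟨j, Finset.mem_range.2 (Nat.lt_succ_self j), rfl⟩), sub_self]
  let f : ℕ → (B →ₗ[R] B) := fun n => LinearMap.id - φ ∘ₗ ψ n
  have hf : ∀ n a, it f 0 n (φ a) = φ (P n a) := by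
    intro n a
    induction n with
    | zero => rfl
    | succ n ih =>
        show f (0 + n) (it f 0 n (φ a)) = _
        rw [ih, zero_add, hP1, map_sub]
        rfl
  obtain ⟨h, hh⟩ := hB f
  refine ⟨Finsupp.lsum ℕ ψ ∘ₗ h 0, fun a => ?_⟩
  obtain ⟨j, rfl⟩ := hen a
  rw [LinearMap.comp_apply, tele hh 0 (j + 1) (φ (en j)), hf (j + 1), hP0, map_zero, map_zero,
    add_zero, map_sum]
  have : ∀ k ∈ Finset.range (j + 1), Finsupp.lsum ℕ ψ
      (Finsupp.single (0 + k) (it f 0 k (φ (en j)))) = P k (en j) - P (k + 1) (en j) := by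
    intro k _
    rw [hf, zero_add, Finsupp.lsum_single, hP1]
    abel
  rw [Finset.sum_congr rfl this, Finset.sum_range_sub', hP0, sub_zero]
  rfl

/-- `End D` is local, the units being the endomorphisms that do not kill `z` -/
def Loc (R D : Type) [Ring R] [AddCommGroup D] [Module R D] (z : D) : Prop :=
  z ≠ 0 ∧ ∀ φ : D →ₗ[R] D, φ z ≠ 0 → ∃ ψ : D →ₗ[R] D, (∀ d, ψ (φ d) = d) ∧ ∀ d, φ (ψ d) = d

theorem exists_local [Countable E] [Nontrivial E] (e : E ≃ₗ[R] (ℕ →₀ E)) (hT : TP R E) :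
    ∃ (D : Submodule R (ℕ →₀ E)) (z : D) (p : (ℕ →₀ E) →ₗ[R] D),
      (∀ d : D, p d = d) ∧ Loc R D z := by
  classical
  obtain ⟨x, hx0, hx⟩ := exists_simple hT
  obtain ⟨f, hf1, hf2⟩ := exists_seq hT x
  obtain ⟨h, hh⟩ := hT f
  let Φ' : (ℕ →₀ E) →ₗ[R] (ℕ →₀ E) := Finsupp.lsum ℕ fun n => Finsupp.lsingle (n + 1) ∘ₗ f n
  let Φ : (ℕ →₀ E) →ₗ[R] (ℕ →₀ E) := LinearMap.id - Φ'
  let r : (ℕ →₀ E) →ₗ[R] (ℕ →₀ E) := Finsupp.lsum ℕ h
  have hΦ : ∀ n y, Φ (Finsupp.single n y) = Finsupp.single n y - Finsupp.single (n + 1) (f n y) := by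
    intro n y
    show Finsupp.single n y - Finsupp.lsum ℕ _ (Finsupp.single n y) = _
    rw [Finsupp.lsum_single]
    rfl
  have hr : ∀ n y, r (Finsupp.single n y) = h n y := fun n y => Finsupp.lsum_single _ _ _ _
  have hrΦ : ∀ u, r (Φ u) = u := by
    intro u
    have : r ∘ₗ Φ = LinearMap.id := by
      refine Finsupp.lhom_ext fun n y => ?_
      rw [LinearMap.comp_apply, hΦ, map_sub, hr, hr, hh]
      rfl
    exact LinearMap.congr_fun this u
  let D : Submodule R (ℕ →₀ E) := LinearMap.ker r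
  let q : (ℕ →₀ E) →ₗ[R] D := LinearMap.codRestrict D (LinearMap.id - Φ ∘ₗ r) (fun u => by
    rw [LinearMap.mem_ker, LinearMap.sub_apply, map_sub]
    show r u - r (Φ (r u)) = 0
    rw [hrΦ, sub_self])
  have hq : ∀ u, (q u : ℕ →₀ E) = u - Φ (r u) := fun u => rfl
  have hqD : ∀ d : D, q d = d := by
    intro d
    apply Subtype.ext
    have hd : r d = 0 := d.2
    rw [hq, hd, map_zero, sub_zero]
  have hqΦ : ∀ u, q (Φ u) = 0 := by
    intro u
    apply Subtype.ext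
    rw [hq, hrΦ, sub_self]; rfl
  let c : ℕ → (E →ₗ[R] D) := fun n => q ∘ₗ Finsupp.lsingle n
  have hc1 : ∀ n y, c n y = c (n + 1) (f n y) := by
    intro n y
    have h1 := hqΦ (Finsupp.single n y)
    rw [hΦ, map_sub, sub_eq_zero] at h1
    exact h1
  have hc2 : ∀ n k y, c n y = c (n + k) (it f n k y) := by
    intro n k y
    induction k with
    | zero => rfl
    | succ k ih => rw [ih, hc1]; rfl
  have hrep : ∀ u : ℕ →₀ E, ∃ N, ∀ n ≥ N, ∃ y, q u = c n y := by
    intro u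
    induction u using Finsupp.induction_linear with
    | zero => exact ⟨0, fun n _ => ⟨0, by rw [map_zero, map_zero]⟩⟩
    | add u v hu hv =>
        obtain ⟨N, hN⟩ := hu
        obtain ⟨N', hN'⟩ := hv
        refine ⟨max N N', fun n hn => ?_⟩
        obtain ⟨y, hy⟩ := hN n (le_trans (le_max_left _ _) hn)
        obtain ⟨y', hy'⟩ := hN' n (le_trans (le_max_right _ _) hn)
        exact ⟨y + y', by rw [map_add, map_add, hy, hy']⟩
    | single i y =>
        refine ⟨i, fun n hn => ?_⟩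
        obtain ⟨k, rfl⟩ := Nat.exists_eq_add_of_le hn
        exact ⟨_, hc2 i k y⟩
  have hrepF : ∀ W : Finset D, ∃ n, ∀ b ∈ W, ∃ y, b = c n y := by
    intro W
    have h1 : ∀ b : D, ∃ N, ∀ n ≥ N, ∃ y, b = c n y := by
      intro b
      obtain ⟨N, hN⟩ := hrep b
      exact ⟨N, fun n hn => by obtain ⟨y, hy⟩ := hN n hn; exact ⟨y, by rw [← hy, hqD]⟩⟩
    choose N hN using h1
    refine ⟨W.sup N, fun b hb => hN b _ (Finset.le_sup hb)⟩
  have hΦc : ∀ u n, (Φ u) (n + 1) = u (n + 1) - f n (u n) := by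
    intro u n
    have h1 : Finsupp.lapply (n + 1) ∘ₗ Φ' = f n ∘ₗ Finsupp.lapply n := by
      refine Finsupp.lhom_ext fun i y => ?_
      rw [LinearMap.comp_apply, LinearMap.comp_apply]
      show (Finsupp.lsum ℕ (fun n => Finsupp.lsingle (n + 1) ∘ₗ f n) (Finsupp.single i y)) (n + 1) =
        f n ((Finsupp.single i y) n)
      rw [Finsupp.lsum_single]
      show (Finsupp.single (i + 1) (f i y)) (n + 1) = _
      rw [Finsupp.single_apply, Finsupp.single_apply]
      by_cases hin : i = n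
      · subst hin; simp
      · rw [if_neg (fun h => hin (Nat.succ.inj h)), if_neg hin, map_zero]
    have h2 : (Φ' u) (n + 1) = f n (u n) := LinearMap.congr_fun h1 u
    show u (n + 1) - (Φ' u) (n + 1) = _
    rw [h2]
  have hΦ0 : ∀ u, (Φ u) 0 = u 0 := by
    intro u
    have h1 : Finsupp.lapply 0 ∘ₗ Φ' = (0 : (ℕ →₀ E) →ₗ[R] E) := by
      refine Finsupp.lhom_ext fun i y => ?_
      rw [LinearMap.comp_apply]
      show (Finsupp.lsum ℕ (fun n => Finsupp.lsingle (n + 1) ∘ₗ f n) (Finsupp.single i y)) 0 = 0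
      rw [Finsupp.lsum_single]
      show (Finsupp.single (i + 1) (f i y)) 0 = _
      rw [Finsupp.single_apply, if_neg (Nat.succ_ne_zero i)]
    have h2 : (Φ' u) 0 = 0 := LinearMap.congr_fun h1 u
    show u 0 - (Φ' u) 0 = _
    rw [h2, sub_zero]
  let z : D := c 0 x
  have hz : z ≠ 0 := by
    intro hz
    have h1 : Finsupp.single 0 x = Φ (r (Finsupp.single 0 x)) := by
      have : (q (Finsupp.single 0 x) : ℕ →₀ E) = 0 := congrArg Subtype.val hz
      rw [hq, sub_eq_zero] at this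
      exact this
    let u := r (Finsupp.single 0 x)
    have h2 : ∀ n, u n = x := by
      intro n
      induction n with
      | zero =>
          have := hΦ0 u
          rw [← h1, Finsupp.single_eq_same] at this
          exact this.symm
      | succ n ih =>
          have := hΦc u n
          rw [← h1, ih, hf1, Finsupp.single_apply, if_neg (Nat.succ_ne_zero n).symm] at this
          exact (sub_eq_zero.1 this.symm)
    obtain ⟨n, hn⟩ := Infinite.exists_notMem_finset u.support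
    rw [Finsupp.notMem_support_iff, h2] at hn
    exact hx0 hn
  have hcz : ∀ n, c n x = z := by
    intro n
    induction n with
    | zero => rfl
    | succ n ih => rw [← ih, hc1 n x, hf1]
  -- a map that does not kill `z` can be reversed
  have hrev : ∀ φ : D →ₗ[R] D, φ z ≠ 0 → ∃ g : D →ₗ[R] E, g (φ z) = x := by
    intro φ hφ
    obtain ⟨j, hj⟩ : ∃ j, (φ z : ℕ →₀ E) j ≠ 0 := by
      by_contra hcon
      push Not at hcon
      exact hφ (Subtype.ext (Finsupp.ext hcon))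
    obtain ⟨g, hg⟩ := hx (Finsupp.lapply j ∘ₗ D.subtype ∘ₗ φ ∘ₗ c 0) hj
    exact ⟨g ∘ₗ Finsupp.lapply j ∘ₗ D.subtype, hg⟩
  obtain ⟨β, hβ⟩ := hrev LinearMap.id hz
  have hβ' : β z = x := hβ
  have hTD : TP R D := hT.retract (e.symm ∘ₗ D.subtype) (q ∘ₗ (e : E →ₗ[R] (ℕ →₀ E)))
    (fun b => by
      show q (e (e.symm b)) = b
      rw [LinearEquiv.apply_symm_apply, hqD])
  haveI : Countable D := Subtype.countable
  have hG : ∀ φ : D →ₗ[R] D, φ z = z → ∃ ψ : D →ₗ[R] D, ∀ d, ψ (φ d) = d := by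
    intro φ hφ
    refine split_of_local hTD φ fun W => ?_
    obtain ⟨m, hm⟩ := hrepF W
    have hm' : ∀ b : D, ∃ y, b ∈ W → b = c m y := by
      intro b
      by_cases hb : b ∈ W
      · obtain ⟨y, hy⟩ := hm b hb
        exact ⟨y, fun _ => hy⟩
      · exact ⟨0, fun h => absurd h hb⟩
    choose y hy using hm'
    obtain ⟨n, hmn, hn⟩ := hf2 m (W.image y)
    obtain ⟨s, hs⟩ := hn (β ∘ₗ φ ∘ₗ c n) (by
      show β (φ (c n x)) = x
      rw [hcz, hφ, hβ'])
    refine ⟨c n ∘ₗ s ∘ₗ β, fun b hb => ?_⟩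
    have h1 : b = c n (it f m (n - m) (y b)) := by
      have h2 := hc2 m (n - m) (y b)
      rw [Nat.add_sub_cancel' hmn] at h2
      rw [← h2]
      exact hy b hb
    have h3 := hs (y b) (Finset.mem_image.2 ⟨b, hb, rfl⟩)
    show c n (s (β (φ b))) = b
    conv_rhs => rw [h1]
    rw [← h3]
    show _ = c n (s (β (φ (c n (it f m (n - m) (y b))))))
    rw [← h1]
  have hidem : ∀ φ : D →ₗ[R] D, (∀ d, φ (φ d) = φ d) → φ z ≠ 0 → ∀ d, φ d = d := by
    intro φ hφ hne d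
    obtain ⟨g, hg⟩ := hrev φ hne
    obtain ⟨ψ, hψ⟩ := hG (c 0 ∘ₗ g ∘ₗ φ) (by
      show c 0 (g (φ z)) = z
      rw [hg])
    have hinj : ∀ a, φ a = 0 → a = 0 := by
      intro a ha
      rw [← hψ a]
      show ψ (c 0 (g (φ a))) = 0
      rw [ha, map_zero, map_zero, map_zero]
    have h1 : φ (φ d - d) = 0 := by rw [map_sub, hφ, sub_self]
    exact sub_eq_zero.1 (hinj _ h1)
  refine ⟨D, z, q, hqD, hz, fun φ hφ => ?_⟩
  obtain ⟨g, hg⟩ := hrev φ hφ
  obtain ⟨ψ₀, hψ₀⟩ := hG (c 0 ∘ₗ g ∘ₗ φ) (by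
    show c 0 (g (φ z)) = z
    rw [hg])
  let ψ : D →ₗ[R] D := ψ₀ ∘ₗ c 0 ∘ₗ g
  have hψ : ∀ d, ψ (φ d) = d := hψ₀
  refine ⟨ψ, hψ, fun d => ?_⟩
  by_cases h1 : φ (ψ z) = 0
  · -- then `1 - φ ψ` is the identity
    have h2 := hidem (LinearMap.id - φ ∘ₗ ψ) (fun a => by
      show (a - φ (ψ a)) - φ (ψ (a - φ (ψ a))) = a - φ (ψ a)
      rw [map_sub ψ, hψ, sub_self, map_zero, sub_zero]) (by
      show z - φ (ψ z) ≠ 0
      rw [h1, sub_zero]
      exact hz) (φ z)
    have h3 : φ z - φ (ψ (φ z)) = φ z := h2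
    rw [hψ, sub_self] at h3
    exact absurd h3.symm hφ
  · exact hidem (φ ∘ₗ ψ) (fun a => by
      show φ (ψ (φ (ψ a))) = φ (ψ a)
      rw [hψ]) h1 d

end Pool.Agent.Y583.MC
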