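import Pool.Agent.Y583.MC6

set_option autoImplicit false

/-!
Bases: modules that are locally direct summands of `D^(ℕ)` are direct powers of `D`.
-/

namespace Pool.Agent.Y583.MC

variable {R : Type} [Ring R] {D : Type} [AddCommGroup D] [Module R D]

/-- maps `D → N` that do not kill `z` split -/
def LS (R D : Type) [Ring R] [AddCommGroup D] [Module R D] (z : D) (N : Type) [AddCommGroup N]
    [Module R N] : Prop :=
  ∀ u : D →ₗ[R] N, u z ≠ 0 → ∃ t : N →ₗ[R] D, ∀ d, t (u d) = d

theorem LS_pow {z : D} (hz : Loc R D z) (K : Type) : LS R D z (K →₀ D) := by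
  intro u hu
  obtain ⟨k, hk⟩ : ∃ k, (u z) k ≠ 0 := by
    by_contra hcon
    push Not at hcon
    exact hu (Finsupp.ext hcon)
  obtain ⟨ψ, h1, -⟩ := hz.2 (Finsupp.lapply k ∘ₗ u) hk
  exact ⟨ψ ∘ₗ Finsupp.lapply k, h1⟩

theorem LS.retract {z : D} {N N' : Type} [AddCommGroup N] [Module R N] [AddCommGroup N']
    [Module R N'] (h : LS R D z N') (i : N →ₗ[R] N') (p : N' →ₗ[R] N) (hp : ∀ x, p (i x) = x) :
    LS R D z N := by
  intro u hu
  obtain ⟨t, ht⟩ := h (i ∘ₗ u) (by
    show i (u z) ≠ 0
    intro h0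
    apply hu
    rw [← hp (u z), h0, map_zero])
  exact ⟨t ∘ₗ i, ht⟩

/-- all coordinates are of the form `δ z` -/
def Hz (z : D) {ι : Type} (w : ι →₀ D) : Prop := ∀ u, ∃ δ : D →ₗ[R] D, w u = δ z

theorem split_finite {z : D} (hz : Loc R D z) {N ι : Type} [AddCommGroup N] [Module R N]
    (hN : LS R D z N) (U : (ι →₀ D) →ₗ[R] N) (G : Finset ι)
    (hU : ∀ w ∈ Finsupp.supported D R (↑G : Set ι), Hz (R := R) z w → U w = 0 → w = 0) :
    ∃ ψ : N →ₗ[R] (ι →₀ D), (∀ y, ψ y ∈ Finsupp.supported D R (↑G : Set ι)) ∧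
      ∀ w ∈ Finsupp.supported D R (↑G : Set ι), ψ (U w) = w := by
  classical
  induction G using Finset.induction_on with
  | empty =>
      refine ⟨0, fun y => Submodule.zero_mem _, fun w hw => ?_⟩
      rw [Finset.coe_empty, Finsupp.supported_empty, Submodule.mem_bot] at hw
      rw [hw]; rfl
  | insert g G hg ih =>
      have hmono : Finsupp.supported D R (↑G : Set ι) ≤
          Finsupp.supported D R (↑(insert g G) : Set ι) :=
        Finsupp.supported_mono (by rw [Finset.coe_insert]; exact Set.subset_insert _ _)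
      obtain ⟨ψ', h1, h2⟩ := ih fun w hw => hU w (hmono hw)
      let u : D →ₗ[R] N := U ∘ₗ Finsupp.lsingle g
      have hu : ∀ d, u d = U (Finsupp.single g d) := fun d => rfl
      have hψg : ∀ y, (ψ' y) g = 0 := fun y =>
        (Finsupp.mem_supported' R _).1 (h1 y) g (by simpa using hg)
      let u' : D →ₗ[R] N := u - U ∘ₗ ψ' ∘ₗ u
      have hu' : ∀ d, u' d = u d - U (ψ' (u d)) := fun d => rfl
      have hsing : ∀ d, Finsupp.single g d ∈ Finsupp.supported D R (↑(insert g G) : Set ι) :=
        fun d => Finsupp.single_mem_supported R d (by simp)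
      have hne : u' z ≠ 0 := by
        intro h0
        have hw : Finsupp.single g z - ψ' (u z) = 0 := by
          refine hU _ (Submodule.sub_mem _ (hsing z) (hmono (h1 _))) ?_ ?_
          · intro i
            by_cases hi : i = g
            · subst hi
              refine ⟨LinearMap.id, ?_⟩
              rw [Finsupp.sub_apply, Finsupp.single_eq_same, hψg, sub_zero]
              rfl
            · refine ⟨-(Finsupp.lapply i ∘ₗ ψ' ∘ₗ u), ?_⟩
              rw [Finsupp.sub_apply, Finsupp.single_apply, if_neg (Ne.symm hi), zero_sub]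
              rfl
          · rw [map_sub, ← hu, ← hu']
            exact h0
        have h3 := DFunLike.congr_fun hw g
        rw [Finsupp.sub_apply, Finsupp.single_eq_same, hψg, sub_zero] at h3
        exact hz.1 h3
      obtain ⟨t, ht⟩ := hN u' hne
      let t' : N →ₗ[R] D := t ∘ₗ (LinearMap.id - U ∘ₗ ψ')
      have ht1 : ∀ w ∈ Finsupp.supported D R (↑G : Set ι), t' (U w) = 0 := by
        intro w hw
        show t (U w - U (ψ' (U w))) = 0
        rw [h2 w hw, sub_self, map_zero]
      have ht2 : ∀ d, t' (u d) = d := ht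
      refine ⟨ψ' - ψ' ∘ₗ u ∘ₗ t' + Finsupp.lsingle g ∘ₗ t', fun y => ?_, fun w hw => ?_⟩
      · exact Submodule.add_mem _ (Submodule.sub_mem _ (hmono (h1 _)) (hmono (h1 _))) (hsing _)
      · have hdec : w = w.erase g + Finsupp.single g (w g) := (Finsupp.erase_add_single g w).symm
        have hw0 : w.erase g ∈ Finsupp.supported D R (↑G : Set ι) := by
          rw [Finsupp.mem_supported']
          intro i hi
          by_cases hig : i = g
          · subst hig; exact Finsupp.erase_same
          · rw [Finsupp.erase_ne hig]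
            refine (Finsupp.mem_supported' R _).1 hw i ?_
            rw [Finset.coe_insert]
            rintro (h | h)
            · exact hig h
            · exact hi h
        have e1 : (ψ' - ψ' ∘ₗ u ∘ₗ t' + Finsupp.lsingle g ∘ₗ t') (U (w.erase g)) =
            w.erase g := by
          show ψ' (U (w.erase g)) - ψ' (u (t' (U (w.erase g)))) +
            Finsupp.single g (t' (U (w.erase g))) = _
          rw [h2 _ hw0, ht1 _ hw0, map_zero, map_zero, sub_zero, Finsupp.single_zero, add_zero]
        have e2 : (ψ' - ψ' ∘ₗ u ∘ₗ t' + Finsupp.lsingle g ∘ₗ t') (U (Finsupp.single g (w g))) =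
            Finsupp.single g (w g) := by
          show ψ' (u (w g)) - ψ' (u (t' (u (w g)))) + Finsupp.single g (t' (u (w g))) = _
          rw [ht2, sub_self, zero_add]
        conv_lhs => rw [hdec]
        rw [map_add, map_add, e1, e2]
        exact hdec.symm

theorem split_countable {z : D} (hz : Loc R D z) {N ι : Type} [AddCommGroup N] [Module R N]
    (hN : LS R D z N) (hT : TP R N) (U : (ι →₀ D) →ₗ[R] N) (𝓘 : Set ι)
    [Countable (Finsupp.supported D R 𝓘)]
    (hU : ∀ w ∈ Finsupp.supported D R 𝓘, Hz (R := R) z w → U w = 0 → w = 0) :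
    ∃ ψ : N →ₗ[R] Finsupp.supported D R 𝓘, ∀ w : Finsupp.supported D R 𝓘, ψ (U w) = w := by
  classical
  refine split_of_local hT (U ∘ₗ (Finsupp.supported D R 𝓘).subtype) fun F => ?_
  let G : Finset ι := F.biUnion fun w => w.1.support
  have hG : (↑G : Set ι) ⊆ 𝓘 := by
    intro i hi
    rw [Finset.mem_coe, Finset.mem_biUnion] at hi
    obtain ⟨w, -, hw⟩ := hi
    exact (Finsupp.mem_supported R _).1 w.2 hw
  have hmono := Finsupp.supported_mono (M := D) (R := R) hG
  obtain ⟨ψ, h1, h2⟩ := split_finite hz hN U G fun w hw => hU w (hmono hw)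
  refine ⟨LinearMap.codRestrict _ ψ fun y => hmono (h1 y), fun w hw => ?_⟩
  apply Subtype.ext
  refine h2 w.1 ?_
  rw [Finsupp.mem_supported]
  intro i hi
  exact Finset.mem_coe.2 (Finset.mem_biUnion.2 ⟨w, hw, hi⟩)

/-- countable direct summands of `D^(ℕ)` -/
def Nice (R D : Type) [Ring R] [AddCommGroup D] [Module R D] (S : Type) [AddCommGroup S]
    [Module R S] : Prop :=
  ∃ (i : S →ₗ[R] (ℕ →₀ D)) (p : (ℕ →₀ D) →ₗ[R] S), ∀ s, p (i s) = s

/-- every countable set is contained in a nice submodule closed under a prescribed function -/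
def Cl (R D : Type) [Ring R] [AddCommGroup D] [Module R D] (N : Type) [AddCommGroup N]
    [Module R N] : Prop :=
  ∀ c : N → Set N, (∀ x, (c x).Countable) → ∀ A : Set N, A.Countable →
    ∃ S : Submodule R N, A ⊆ S ∧ (∀ x ∈ S, c x ⊆ S) ∧ Nice R D S

theorem basis [Countable D] {z : D} (hz : Loc R D z) (hT : TP R (ℕ →₀ D))
    (hss : ∀ (Z : Type) [AddCommGroup Z] [Module R Z], Nice R D Z → Nontrivial Z →
      ∃ t : D →ₗ[R] Z, t z ≠ 0)
    {N : Type} [AddCommGroup N] [Module R N] (hN : Cl R D N) :
    ∃ ι : Type, Nonempty (N ≃ₗ[R] (ι →₀ D)) := by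
  classical
  have hLS : ∀ (S : Type) [AddCommGroup S] [Module R S], Nice R D S → LS R D z S := by
    intro S _ _ ⟨i, p, hp⟩
    exact (LS_pow hz ℕ).retract i p hp
  have hTP : ∀ (S : Type) [AddCommGroup S] [Module R S], Nice R D S → TP R S := by
    intro S _ _ ⟨i, p, hp⟩
    exact hT.retract i p hp
  let U : ((D →ₗ[R] N) →₀ D) →ₗ[R] N := Finsupp.lsum ℕ fun u => u
  have hUs : ∀ u d, U (Finsupp.single u d) = u d := fun u d => Finsupp.lsum_single _ _ _ _
  have hUsum : ∀ w, U w = ∑ u ∈ w.support, u (w u) := fun w => rfl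
  let Indep : Set (D →ₗ[R] N) → Prop := fun 𝓘 =>
    ∀ w ∈ Finsupp.supported D R 𝓘, Hz (R := R) z w → U w = 0 → w = 0
  obtain ⟨𝓘, h𝓘⟩ : ∃ 𝓘, Maximal (· ∈ {𝓘 | Indep 𝓘}) 𝓘 := by
    refine zorn_subset _ fun c hc hchain => ?_
    rcases c.eq_empty_or_nonempty with rfl | hne
    · refine ⟨∅, ?_, fun s hs => absurd hs (Set.notMem_empty s)⟩
      intro w hw _ _
      rw [Finsupp.supported_empty, Submodule.mem_bot] at hw
      exact hw
    · refine ⟨⋃₀ c, ?_, fun s hs => Set.subset_sUnion_of_mem hs⟩
      intro w hw hHz hUw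
      rw [Finsupp.mem_supported] at hw
      obtain ⟨s, hs, hsub⟩ : ∃ s ∈ c, (↑w.support : Set (D →ₗ[R] N)) ⊆ s := by
        generalize w.support = G at hw
        induction G using Finset.induction_on with
        | empty => exact ⟨_, hne.some_mem, by simp⟩
        | insert a G _ ih =>
            rw [Finset.coe_insert, Set.insert_subset_iff] at hw
            obtain ⟨s, hs, h1⟩ := ih hw.2
            obtain ⟨s', hs', h2⟩ := hw.1
            rcases hchain.total hs hs' with h | h
            · exact ⟨s', hs', by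
                rw [Finset.coe_insert]; exact Set.insert_subset h2 (h1.trans h)⟩
            · exact ⟨s, hs, by
                rw [Finset.coe_insert]; exact Set.insert_subset (h h2) h1⟩
      exact hc hs w ((Finsupp.mem_supported R _).2 hsub) hHz hUw
  have hind : Indep 𝓘 := h𝓘.prop
  -- restriction of the codomain to a submodule
  let US : ∀ S : Submodule R N, ((D →ₗ[R] N) →₀ D) →ₗ[R] S := fun S =>
    Finsupp.lsum ℕ fun u => if h : ∀ d, u d ∈ S then LinearMap.codRestrict S u h else 0
  have hUS : ∀ (S : Submodule R N) (w : (D →ₗ[R] N) →₀ D), (∀ u ∈ w.support, ∀ d, u d ∈ S) →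
      (US S w : N) = U w := by
    intro S w hw
    have h1 : US S w = ∑ u ∈ w.support, (if h : ∀ d, u d ∈ S then
      LinearMap.codRestrict S u h else 0) (w u) := rfl
    rw [h1, hUsum, AddSubmonoidClass.coe_finsetSum]
    refine Finset.sum_congr rfl fun u hu => ?_
    rw [dif_pos (hw u hu)]
    rfl
  -- injectivity
  have hinj : ∀ w ∈ Finsupp.supported D R 𝓘, U w = 0 → w = 0 := by
    intro w hw hUw
    obtain ⟨S, hS1, -, hS3⟩ := hN (fun _ => ∅) (fun _ => Set.countable_empty)
      (⋃ u ∈ w.support, Set.range u)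
      (Set.Countable.biUnion w.support.countable_toSet fun u _ => Set.countable_range _)
    have hrange : ∀ u ∈ w.support, ∀ d, u d ∈ S := fun u hu d =>
      hS1 (Set.mem_biUnion hu ⟨d, rfl⟩)
    have hsub : ∀ w' ∈ Finsupp.supported D R (↑w.support : Set (D →ₗ[R] N)),
        ∀ u ∈ w'.support, ∀ d, u d ∈ S := fun w' hw' u hu d =>
      hrange u ((Finsupp.mem_supported R _).1 hw' hu) d
    obtain ⟨ψ, -, h2⟩ := split_finite hz (hLS S hS3) (US S) w.support (fun w' hw' hHz hU' => by
      refine hind w' (Finsupp.supported_mono ((Finsupp.mem_supported R _).1 hw) hw') hHz ?_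
      rw [← hUS S w' (hsub w' hw'), hU']; rfl)
    have h3 := h2 w ((Finsupp.mem_supported R _).2 subset_rfl)
    have h4 : US S w = 0 := Subtype.ext (by rw [hUS S w hrange, hUw]; rfl)
    rw [← h3, h4, map_zero]
  -- surjectivity
  have hsurj : ∀ v : N, ∃ w ∈ Finsupp.supported D R 𝓘, U w = v := by
    intro v
    by_contra hv
    have hch : ∀ x : N, ∃ w, (∃ w' ∈ Finsupp.supported D R 𝓘, U w' = x) →
        w ∈ Finsupp.supported D R 𝓘 ∧ U w = x := by
      intro x
      by_cases h : ∃ w' ∈ Finsupp.supported D R 𝓘, U w' = x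
      · obtain ⟨w', h1, h2⟩ := h
        exact ⟨w', fun _ => ⟨h1, h2⟩⟩
      · exact ⟨0, fun h' => absurd h' h⟩
    choose W hW using hch
    obtain ⟨S, hS1, hS2, hS3⟩ := hN (fun x => ⋃ u ∈ (W x).support, Set.range u)
      (fun x => Set.Countable.biUnion (W x).support.countable_toSet
        fun u _ => Set.countable_range _) {v} (Set.countable_singleton v)
    have hvS : v ∈ S := hS1 rfl
    let 𝓙 : Set (D →ₗ[R] N) := {u | u ∈ 𝓘 ∧ ∀ d, u d ∈ S}
    have hW1 : ∀ x ∈ S, (∃ w' ∈ Finsupp.supported D R 𝓘, U w' = x) →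
        W x ∈ Finsupp.supported D R 𝓙 ∧ U (W x) = x := by
      intro x hx hex
      obtain ⟨h1, h2⟩ := hW x hex
      refine ⟨?_, h2⟩
      rw [Finsupp.mem_supported]
      intro u hu
      exact ⟨(Finsupp.mem_supported R _).1 h1 hu, fun d => hS2 x hx (Set.mem_biUnion hu ⟨d, rfl⟩)⟩
    have hmono : Finsupp.supported D R 𝓙 ≤ Finsupp.supported D R 𝓘 :=
      Finsupp.supported_mono fun u hu => hu.1
    obtain ⟨i, p, hp⟩ := id hS3
    haveI hSc : Countable S := by
      have : Function.Injective i := fun a b h => by rw [← hp a, h, hp]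
      exact this.countable
    haveI : Countable 𝓙 := by
      have hinj' : Function.Injective fun u : 𝓙 => (⟨u.1 z, u.2.2 z⟩ : S) := by
        intro u u' h
        have h1 : u.1 z = u'.1 z := congrArg Subtype.val h
        by_contra hne
        have hne' : u.1 ≠ u'.1 := fun h => hne (Subtype.ext h)
        have h2 : Finsupp.single u.1 z - Finsupp.single u'.1 z = 0 := by
          refine hind _ (Submodule.sub_mem _ (Finsupp.single_mem_supported R z u.2.1)
            (Finsupp.single_mem_supported R z u'.2.1)) (fun a => ?_) ?_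
          · rw [Finsupp.sub_apply, Finsupp.single_apply, Finsupp.single_apply]
            split_ifs with h3 h4 h4
            · exact absurd (h3.trans h4.symm) hne'
            · exact ⟨LinearMap.id, by simp⟩
            · exact ⟨-LinearMap.id, by simp⟩
            · exact ⟨0, by simp⟩
          · rw [map_sub, hUs, hUs, h1, sub_self]
        have h3 := DFunLike.congr_fun h2 u.1
        rw [Finsupp.sub_apply, Finsupp.single_eq_same, Finsupp.single_apply,
          if_neg (Ne.symm hne'), sub_zero] at h3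
        exact hz.1 h3
      exact hinj'.countable
    haveI : Countable (Finsupp.supported D R 𝓙) :=
      (Finsupp.supportedEquivFinsupp (R := R) (M := D) 𝓙).injective.countable
    have hUS' : ∀ w ∈ Finsupp.supported D R 𝓙, (US S w : N) = U w := fun w hw =>
      hUS S w fun u hu d => ((Finsupp.mem_supported R _).1 hw hu).2 d
    obtain ⟨ψ, hψ⟩ := split_countable hz (hLS S hS3) (hTP S hS3) (US S) 𝓙
      (fun w hw hHz hU' => hind w (hmono hw) hHz (by rw [← hUS' w hw, hU']; rfl))
    let Z : Submodule R S := LinearMap.ker ψ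
    -- the projection to `Z`
    let π : S →ₗ[R] Z := LinearMap.codRestrict Z
      (LinearMap.id - US S ∘ₗ (Finsupp.supported D R 𝓙).subtype ∘ₗ ψ) (fun s => by
        rw [LinearMap.mem_ker]
        show ψ (s - US S (ψ s : (D →ₗ[R] N) →₀ D)) = 0
        rw [map_sub, hψ, sub_self])
    have hπ : ∀ a : Z, π a = a := by
      intro a
      apply Subtype.ext
      show (a : S) - US S (ψ a : (D →ₗ[R] N) →₀ D) = a
      have : ψ a = 0 := a.2
      rw [this]
      simp
    have hnZ : Nice R D Z := ⟨i ∘ₗ Z.subtype, π ∘ₗ p, fun a => by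
      show π (p (i a)) = a
      rw [hp, hπ]⟩
    have hZ : Nontrivial Z := by
      refine ⟨⟨π ⟨v, hvS⟩, 0, fun h => hv ⟨ψ ⟨v, hvS⟩, hmono (ψ ⟨v, hvS⟩).2, ?_⟩⟩⟩
      have h1 : (⟨v, hvS⟩ : S) - US S (ψ ⟨v, hvS⟩ : (D →ₗ[R] N) →₀ D) = 0 := congrArg Subtype.val h
      rw [sub_eq_zero] at h1
      rw [← hUS' _ (ψ ⟨v, hvS⟩).2, ← h1]
    obtain ⟨t, ht⟩ := hss Z hnZ hZ
    obtain ⟨t', ht'⟩ := hLS Z hnZ t ht
    let us : D →ₗ[R] N := S.subtype ∘ₗ Z.subtype ∘ₗ t
    have hus : ∀ d, us d = ((t d : S) : N) := fun d => rfl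
    -- an element of `Z` in the image of `U` is zero
    have hzero : ∀ a : Z, (∃ w' ∈ Finsupp.supported D R 𝓘, U w' = ((a : S) : N)) → a = 0 := by
      intro a hex
      obtain ⟨h1, h2⟩ := hW1 _ (a : S).2 hex
      have h3 : US S (W ((a : S) : N)) = a := Subtype.ext (by rw [hUS' _ h1, h2])
      have h4 := hψ ⟨_, h1⟩
      have h5 : ψ (a : S) = 0 := a.2
      have h6 : (⟨W ((a : S) : N), h1⟩ : Finsupp.supported D R 𝓙) = 0 := by
        rw [← h4]
        show ψ (US S (W ((a : S) : N))) = 0
        rw [h3, h5]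
      have h7 : W ((a : S) : N) = 0 := congrArg Subtype.val h6
      apply Subtype.ext
      rw [← h3, h7, map_zero]; rfl
    have hnot : us ∉ 𝓘 := by
      intro hmem
      apply ht
      refine hzero (t z) ⟨Finsupp.single us z, Finsupp.single_mem_supported R z hmem, ?_⟩
      rw [hUs]
      rfl
    have hnew : Indep (insert us 𝓘) := by
      intro w hw hHz hUw
      obtain ⟨δ, hδ⟩ := hHz us
      have hdec : w = w.erase us + Finsupp.single us (w us) := (Finsupp.erase_add_single us w).symm
      have hw0 : w.erase us ∈ Finsupp.supported D R 𝓘 := by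
        rw [Finsupp.mem_supported']
        intro a ha
        by_cases hau : a = us
        · subst hau; exact Finsupp.erase_same
        · rw [Finsupp.erase_ne hau]
          refine (Finsupp.mem_supported' R _).1 hw a ?_
          rintro (h | h)
          · exact hau h
          · exact ha h
      have h1 : U (-(w.erase us)) = ((t (δ z) : S) : N) := by
        rw [hdec, map_add, hUs, hδ, hus] at hUw
        rw [map_neg, neg_eq_iff_add_eq_zero]
        exact hUw
      have h2 : t (δ z) = 0 := hzero _ ⟨_, Submodule.neg_mem _ hw0, h1⟩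
      have h3 : δ z = 0 := by rw [← ht' (δ z), h2, map_zero]
      have h4 : w = w.erase us := by
        ext a
        by_cases ha : a = us
        · rw [ha, Finsupp.erase_same, hδ, h3]
        · rw [Finsupp.erase_ne ha]
      refine hind w (by rw [h4]; exact hw0) hHz hUw
    have := h𝓘.le_of_ge hnew (Set.subset_insert us 𝓘)
    exact hnot (this (Set.mem_insert us 𝓘))
  let V : Finsupp.supported D R 𝓘 →ₗ[R] N := U ∘ₗ (Finsupp.supported D R 𝓘).subtype
  have hV : Function.Bijective V := by
    constructor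
    · rw [injective_iff_map_eq_zero]
      intro w hw
      exact Subtype.ext (hinj w.1 w.2 hw)
    · intro v
      obtain ⟨w, hw, h⟩ := hsurj v
      exact ⟨⟨w, hw⟩, h⟩
  exact ⟨𝓘, ⟨(LinearEquiv.ofBijective V hV).symm.trans (Finsupp.supportedEquivFinsupp 𝓘)⟩⟩

end Pool.Agent.Y583.MC
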