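import Pool.Agent.Y583.MC8

set_option autoImplicit false

/-!
The structure of the uncountable models.
-/

namespace Pool.Agent.Y583.MC

open Cardinal

variable {R : Type} [Ring R]

/-- The main construction: from categoricity in `μ` one gets the module `D`. -/
theorem exists_D_aux [Countable R] (ψ : Fml R 0)
    (hψ : ∀ (N : Type) [AddCommGroup N] [Module R N], Holds ψ N → Holds ψ (ℕ →₀ N))
    (μ : Cardinal.{0}) (hμ : ℵ₀ < μ) (huniq : ∀ (M N : Type) [AddCommGroup M] [Module R M]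
      [AddCommGroup N] [Module R N], #M = μ → #N = μ → Holds ψ M → Holds ψ N →
      Nonempty (M ≃ₗ[R] N)) (E : Type) [AddCommGroup E] [Module R E] [Countable E] [Nontrivial E]
    (e : E ≃ₗ[R] (ℕ →₀ E)) (hE : Holds ψ E) :
    ∃ (D : Type) (_ : AddCommGroup D) (_ : Module R D) (z : D), Countable D ∧ Loc R D z ∧
      TP R D ∧ Holds ψ (ℕ →₀ D) ∧
      ∀ (N : Type) [AddCommGroup N] [Module R N], Holds ψ N → ℵ₀ < #N →
        ∃ ι : Type, Nonempty (N ≃ₗ[R] (ι →₀ D)) := by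
  classical
  -- an index set of cardinality `μ`
  let I : Type := μ.out
  have hI : #I = μ := mk_out μ
  haveI : Infinite I := infinite_iff.2 (by rw [hI]; exact hμ.le)
  haveI : Uncountable I := by rw [← aleph0_lt_mk_iff, hI]; exact hμ
  have hEI : #(I →₀ E) = μ := by
    rw [mk_pow I E ((mk_le_aleph0).trans (by rw [hI]; exact hμ.le)), hI]
  have hlike : Like R E (I →₀ E) := (like_pow E I).congr e.symm
  have hEψ : Holds ψ (I →₀ E) := (like_holds e hlike ψ).2 hE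
  have key : ∀ (N : Type) [AddCommGroup N] [Module R N], Like R E N → #N = μ →
      Nonempty (N ≃ₗ[R] (I →₀ E)) := fun N _ _ hN hc =>
    huniq N (I →₀ E) hc hEI ((like_holds e hN ψ).2 hE) hEψ
  -- countable modules absorbed by `E`
  have hU : ∀ (Z : Type) [AddCommGroup Z] [Module R Z], Countable Z → Nontrivial Z →
      Nonempty ((E × Z) ≃ₗ[R] E) → Nonempty ((ℕ →₀ Z) ≃ₗ[R] E) := by
    intro Z _ _ hZ1 hZ2 ⟨θ⟩
    obtain ⟨a⟩ := absorb_pow e θ
    have hl : Like R E (E × (I →₀ Z)) := ((like_self E).prod (like_pow Z I)).congr a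
    have hc : #(E × (I →₀ Z)) = μ := by
      rw [mk_prod, lift_id, lift_id, mk_pow I Z ((mk_le_aleph0).trans (by rw [hI]; exact hμ.le)),
        hI]
      exact mul_eq_right hμ.le ((mk_le_aleph0).trans hμ.le) (mk_ne_zero E)
    obtain ⟨Θ⟩ := key _ hl hc
    exact lemmaU e Θ
  -- the splitting property
  have hT : TP R E := by
    intro f
    obtain ⟨Y, hY⟩ : ∃ Y : Set (ℕ → Bool), #Y = ℵ₁ := by
      refine le_mk_iff_exists_set.1 ?_
      have : #(ℕ → Bool) = 𝔠 := by simp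
      rw [this]
      exact aleph_one_le_continuum
    have hYc : ¬ Y.Countable := by
      rw [← le_aleph0_iff_set_countable, hY, not_le]
      exact aleph0_lt_aleph_one
    haveI : Infinite Y := infinite_iff.2 (by rw [hY]; exact aleph0_le_aleph 1)
    obtain ⟨a⟩ : Nonempty ((E × E) ≃ₗ[R] E) := absorb e LinearMap.id LinearMap.id fun _ => rfl
    have hl : Like R E (TM Y f × (I →₀ E)) := ((like_TM e f).prod hlike).congr a
    have hc : #(TM Y f × (I →₀ E)) = μ := by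
      rw [mk_prod, lift_id, lift_id, hEI]
      refine mul_eq_right hμ.le ?_ (mk_ne_zero _)
      refine (mk_TM_le e Y f).trans ?_
      rw [hY, ← succ_aleph0]
      exact Order.succ_le_of_lt hμ
    obtain ⟨Θ⟩ := key _ hl hc
    exact tree_TP e f hYc Θ
  obtain ⟨D, z, p, hp, hloc⟩ := exists_local e hT
  haveI : Countable D := Subtype.countable
  have hDE : ∃ (i : D →ₗ[R] E) (q : E →ₗ[R] D), ∀ d, q (i d) = d :=
    ⟨e.symm ∘ₗ D.subtype, p ∘ₗ (e : E →ₗ[R] (ℕ →₀ E)), fun b => by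
      show p (e (e.symm b)) = b
      rw [LinearEquiv.apply_symm_apply, hp]⟩
  obtain ⟨i, q, hiq⟩ := hDE
  have hDnt : Nontrivial D := ⟨⟨z, 0, hloc.1⟩⟩
  obtain ⟨ε⟩ := hU D inferInstance hDnt (absorb e i q hiq)
  have hTD : TP R D := hT.retract i q hiq
  have hTD' : TP R (ℕ →₀ D) := hT.retract (ε : (ℕ →₀ D) →ₗ[R] E)
    (ε.symm : E →ₗ[R] (ℕ →₀ D)) (fun b => by simp)
  have hss : ∀ (Z : Type) [AddCommGroup Z] [Module R Z], Nice R D Z → Nontrivial Z →
      ∃ t : D →ₗ[R] Z, t z ≠ 0 := by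
    intro Z _ _ ⟨i', p', hp'⟩ hZ
    haveI : Countable Z := by
      have : Function.Injective i' := fun a b h => by rw [← hp' a, h, hp']
      exact this.countable
    obtain ⟨a⟩ := hU Z inferInstance hZ (absorb e (ε.toLinearMap ∘ₗ i')
      (p' ∘ₗ ε.symm.toLinearMap) (fun d => by simp [hp']))
    let g : (ℕ →₀ D) ≃ₗ[R] (ℕ →₀ Z) := ε.trans a.symm
    have hne : g (Finsupp.single 0 z) ≠ 0 := by
      rw [Ne, LinearEquiv.map_eq_zero_iff, Finsupp.single_eq_zero]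
      exact hloc.1
    obtain ⟨j, hj⟩ : ∃ j, (g (Finsupp.single 0 z)) j ≠ 0 := by
      by_contra hcon
      push Not at hcon
      exact hne (Finsupp.ext hcon)
    exact ⟨Finsupp.lapply j ∘ₗ (g : (ℕ →₀ D) →ₗ[R] (ℕ →₀ Z)) ∘ₗ Finsupp.lsingle 0, hj⟩
  -- retracts of `I →₀ E`
  obtain ⟨b⟩ : Nonempty ((I →₀ E) ≃ₗ[R] (I × ℕ →₀ D)) :=
    ⟨(Finsupp.mapRange.linearEquiv ε.symm).trans (Finsupp.finsuppProdLEquiv R).symm⟩
  have hret : ∀ (N : Type) [AddCommGroup N] [Module R N] (i' : N →ₗ[R] (I →₀ E))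
      (p' : (I →₀ E) →ₗ[R] N), (∀ x, p' (i' x) = x) → Cl R D N := by
    intro N _ _ i' p' hp'
    exact cl_retract (D := D) (b.toLinearMap ∘ₗ i') (p' ∘ₗ b.symm.toLinearMap)
      (fun x => by simp [hp'])
  refine ⟨D, inferInstance, inferInstance, z, inferInstance, hloc, hTD, (holds_iso ψ ε).2 hE, ?_⟩
  intro N _ _ hN hNc
  refine basis hloc hTD' hss ?_
  rcases le_total #N μ with hle | hle
  · -- small models: `N^(I)`
    obtain ⟨eN⟩ := pow_pow (R := R) N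
    haveI : Nontrivial N := by
      rw [← one_lt_iff_nontrivial]; exact one_lt_aleph0.trans hNc
    have h5 : Holds ψ (I →₀ N) := (like_holds eN (like_pow N I) ψ).2 (hψ N hN)
    have h6 : #(I →₀ N) = μ := by rw [mk_pow I N (by rw [hI]; exact hle), hI]
    obtain ⟨Θ⟩ := huniq (I →₀ N) (I →₀ E) h6 hEI h5 hEψ
    obtain ⟨i0⟩ : Nonempty I := inferInstance
    exact hret N (Θ.toLinearMap ∘ₗ Finsupp.lsingle i0)
      (Finsupp.lapply i0 ∘ₗ Θ.symm.toLinearMap) (fun x => by simp)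
  · -- large models
    intro c hc A hA
    obtain ⟨X, hX⟩ := le_mk_iff_exists_set.1 hle
    obtain ⟨S, h5, h6, h7, h8⟩ := lowenheim ψ hN (fun F => ⋃ x ∈ F, c x)
      (fun F => Set.Countable.biUnion F.countable_toSet fun x _ => hc x) μ hμ.le (A ∪ X) (by
        refine (mk_union_le _ _).trans (add_le_of_le hμ.le ?_ hX.le)
        exact (le_aleph0_iff_set_countable.2 hA).trans hμ.le)
    have h9 : #S = μ := by
      refine le_antisymm h6 ?_
      rw [← hX]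
      exact mk_le_mk_of_subset (Set.subset_union_right.trans h5)
    obtain ⟨Θ⟩ := huniq S (I →₀ E) h9 hEI h8 hEψ
    have hcl : Cl R D S := hret S Θ.toLinearMap Θ.symm.toLinearMap (fun x => by simp)
    obtain ⟨T, k1, k2, i', p', k3⟩ := hcl (fun s => Subtype.val ⁻¹' (c s))
      (fun s => (hc s).preimage Subtype.val_injective) (Subtype.val ⁻¹' A)
      (hA.preimage Subtype.val_injective)
    let w : T ≃ₗ[R] T.map S.subtype := Submodule.equivMapOfInjective _ S.injective_subtype T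
    refine ⟨T.map S.subtype, fun a ha => ?_, ?_, i' ∘ₗ w.symm.toLinearMap, w.toLinearMap ∘ₗ p',
      fun s => by simp [k3]⟩
    · exact ⟨⟨a, h5 (Or.inl ha)⟩, k1 ha, rfl⟩
    · rintro _ ⟨s, hs, rfl⟩ y hy
      have hyS : y ∈ S := h7 {(s : N)} (by simp) (by simpa using hy)
      exact ⟨⟨y, hyS⟩, k2 s hs hy, rfl⟩

theorem exists_D [Countable R] (ψ : Fml R 0)
    (hψ : ∀ (N : Type) [AddCommGroup N] [Module R N], Holds ψ N → Holds ψ (ℕ →₀ N))
    (μ : Cardinal.{0}) (hμ : ℵ₀ < μ) (hcat : Categorical ψ μ) :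
    ∃ (D : Type) (_ : AddCommGroup D) (_ : Module R D) (z : D), Countable D ∧ Loc R D z ∧
      TP R D ∧ Holds ψ (ℕ →₀ D) ∧
      ∀ (N : Type) [AddCommGroup N] [Module R N], Holds ψ N → ℵ₀ < #N →
        ∃ ι : Type, Nonempty (N ≃ₗ[R] (ι →₀ D)) := by
  obtain ⟨⟨M, iM1, iM2, hM, hMψ⟩, huniq⟩ := hcat
  haveI : Nontrivial M := by
    rw [← one_lt_iff_nontrivial, hM]
    exact (one_lt_aleph0).trans hμ
  obtain ⟨x0, hx0⟩ := exists_ne (0 : M)
  -- a countable model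
  obtain ⟨N₀, h1, h2, -, h4⟩ := lowenheim ψ hMψ (fun _ => ∅) (fun _ => Set.countable_empty) ℵ₀
    le_rfl {x0} (by simp)
  haveI : Countable N₀ := mk_le_aleph0_iff.1 h2
  haveI : Nontrivial N₀ := ⟨⟨⟨x0, h1 rfl⟩, 0, fun h => hx0 (congrArg Subtype.val h)⟩⟩
  obtain ⟨e⟩ := pow_pow (R := R) N₀
  exact exists_D_aux ψ hψ μ hμ huniq (ℕ →₀ N₀) e (hψ N₀ h4)

theorem categorical_all [Countable R] (ψ : Fml R 0) {D : Type} [AddCommGroup D] [Module R D]
    {z : D} (hz : Loc R D z) [Countable D] (hD : Holds ψ (ℕ →₀ D))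
    (h : ∀ (N : Type) [AddCommGroup N] [Module R N], Holds ψ N → ℵ₀ < #N →
        ∃ ι : Type, Nonempty (N ≃ₗ[R] (ι →₀ D))) :
    (∀ (ι : Type) [Infinite ι], Holds ψ (ι →₀ D)) ∧
    ∀ μ : Cardinal.{0}, ℵ₀ < μ → Categorical ψ μ := by
  haveI : Nontrivial D := ⟨⟨z, 0, hz.1⟩⟩
  obtain ⟨e⟩ := pow_pow (R := R) D
  have h1 : ∀ (ι : Type) [Infinite ι], Holds ψ (ι →₀ D) := fun ι _ =>
    (like_holds e (like_pow D ι) ψ).2 hD
  refine ⟨h1, fun μ hμ => ⟨?_, ?_⟩⟩
  · haveI : Infinite μ.out := infinite_iff.2 (by rw [mk_out]; exact hμ.le)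
    refine ⟨μ.out →₀ D, inferInstance, inferInstance, ?_, h1 _⟩
    rw [mk_pow _ _ ((mk_le_aleph0).trans (by rw [mk_out]; exact hμ.le)), mk_out]
  · intro M N _ _ _ _ hM hN hMψ hNψ
    obtain ⟨ι, ⟨a⟩⟩ := h M hMψ (by rw [hM]; exact hμ)
    obtain ⟨κ, ⟨b⟩⟩ := h N hNψ (by rw [hN]; exact hμ)
    have h2 : #(ι →₀ D) = μ := by rw [← mk_congr a.toEquiv, hM]
    have h3 : #(κ →₀ D) = μ := by rw [← mk_congr b.toEquiv, hN]
    have h4 : #ι = #κ := by
      rw [← mk_pow_unc ι D (by rw [h2]; exact hμ), ← mk_pow_unc κ D (by rw [h3]; exact hμ), h2, h3]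
    obtain ⟨g⟩ := Cardinal.eq.1 h4
    exact ⟨a.trans ((Finsupp.domLCongr g).trans b.symm)⟩

end Pool.Agent.Y583.MC
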