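import Pool.Agent.Y583.MC9

set_option autoImplicit false

/-!
Directed unions of isomorphic submodules with isomorphisms that fix finitely many elements.
-/

namespace Pool.Agent.Y583.MC

variable {R : Type} [Ring R]

section
variable {N A B Z E N' : Type} [AddCommGroup N] [Module R N] [AddCommGroup A] [Module R A]
  [AddCommGroup B] [Module R B] [AddCommGroup Z] [Module R Z] [AddCommGroup E] [Module R E]
  [AddCommGroup N'] [Module R N']

/-- for finitely many elements of `S` there is an isomorphism `T ≃ S` that fixes them -/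
def IsoFix (S T : Submodule R N) : Prop :=
  ∀ F : Finset N, (∀ x ∈ F, x ∈ S) → ∃ e : T ≃ₗ[R] S, ∀ x : T, (x : N) ∈ F → (e x : N) = x

theorem IsoFix.refl (S : Submodule R N) : IsoFix S S := fun _ _ =>
  ⟨LinearEquiv.refl R S, fun _ _ => rfl⟩

theorem IsoFix.trans {S T U : Submodule R N} (hST : S ≤ T) (h : IsoFix S T) (h' : IsoFix T U) :
    IsoFix S U := by
  intro F hF
  obtain ⟨e, he⟩ := h F hF
  obtain ⟨e', he'⟩ := h' F fun x hx => hST (hF x hx)
  refine ⟨e'.trans e, fun x hx => ?_⟩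
  show ((e (e' x) : S) : N) = x
  have h1 := he' x hx
  rw [he (e' x) (by rw [h1]; exact hx), h1]

/-- `N` is a directed union of submodules isomorphic to `A`, with isomorphisms between them that
fix finitely many elements -/
def Sim (R : Type) [Ring R] (A N : Type) [AddCommGroup A] [Module R A] [AddCommGroup N]
    [Module R N] : Prop :=
  ∃ 𝒮 : Set (Submodule R N), (∀ S ∈ 𝒮, ∀ T ∈ 𝒮, ∃ W ∈ 𝒮, S ≤ W ∧ T ≤ W) ∧
    (∀ x : N, ∃ S ∈ 𝒮, x ∈ S) ∧ (∀ S ∈ 𝒮, Nonempty (S ≃ₗ[R] A)) ∧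
    ∀ S ∈ 𝒮, ∀ T ∈ 𝒮, S ≤ T → IsoFix S T

theorem sim_holds (h : Sim R A N) (ψ : Fml R 0) : Holds ψ N ↔ Holds ψ A := by
  obtain ⟨𝒮, h1, h2, h3, h4⟩ := h
  obtain ⟨S, hS, -⟩ := h2 0
  obtain ⟨eS⟩ := h3 S hS
  have := sat_dir 𝒮 h1 h2 (fun S hS T hT hST F hF => h4 S hS T hT hST F hF) ψ S hS Fin.elim0
  rw [← holds_iso ψ eS]
  unfold Holds
  have h0 : (fun i : Fin 0 => ((Fin.elim0 i : S) : N)) = (Fin.elim0 : Fin 0 → N) :=
    funext fun i => i.elim0
  rw [this, h0]

theorem Sim.congr (h : Sim R A N) (f : A ≃ₗ[R] B) : Sim R B N := by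
  obtain ⟨𝒮, h1, h2, h3, h4⟩ := h
  exact ⟨𝒮, h1, h2, fun S hS => (h3 S hS).map fun g => g.trans f, h4⟩

theorem sim_self (A : Type) [AddCommGroup A] [Module R A] : Sim R A A := by
  refine ⟨{⊤}, ?_, fun x => ⟨⊤, rfl, trivial⟩, ?_, ?_⟩
  · rintro S rfl T rfl
    exact ⟨⊤, rfl, le_rfl, le_rfl⟩
  · rintro S rfl
    exact ⟨Submodule.topEquiv⟩
  · rintro S rfl T rfl _
    exact IsoFix.refl _

theorem like_sim (e : A ≃ₗ[R] (ℕ →₀ A)) (h : Like R A N) : Sim R A N := by
  obtain ⟨𝒮, h1, h2, h3, h4⟩ := h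
  refine ⟨𝒮, h1, h2, h3, fun S hS T hT hST F hF => ?_⟩
  obtain ⟨eS⟩ := h3 S hS
  obtain ⟨eT⟩ := h3 T hT
  obtain ⟨r, hr⟩ := h4 S hS
  exact iso_fix e S T hST eS eT r hr F hF

/-- the product of two submodules -/
def prodSub (S : Submodule R N) (T : Submodule R N') :
    (S.prod T : Submodule R (N × N')) ≃ₗ[R] (S × T) where
  toFun x := (⟨x.1.1, x.2.1⟩, ⟨x.1.2, x.2.2⟩)
  invFun x := ⟨(x.1, x.2), x.1.2, x.2.2⟩
  left_inv _ := rfl
  right_inv _ := rfl
  map_add' _ _ := rfl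
  map_smul' _ _ := rfl

theorem IsoFix.prod {S T : Submodule R N} {S' T' : Submodule R N'} (h : IsoFix S T)
    (h' : IsoFix S' T') : IsoFix (S.prod S') (T.prod T') := by
  classical
  intro F hF
  obtain ⟨e, he⟩ := h (F.image Prod.fst) (by
    intro x hx
    obtain ⟨y, hy, rfl⟩ := Finset.mem_image.1 hx
    exact (hF y hy).1)
  obtain ⟨e', he'⟩ := h' (F.image Prod.snd) (by
    intro x hx
    obtain ⟨y, hy, rfl⟩ := Finset.mem_image.1 hx
    exact (hF y hy).2)
  refine ⟨(prodSub T T').trans ((LinearEquiv.prodCongr e e').trans (prodSub S S').symm),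
    fun x hx => ?_⟩
  show ((e ⟨x.1.1, x.2.1⟩ : N), (e' ⟨x.1.2, x.2.2⟩ : N')) = x.1
  refine Prod.ext ?_ ?_
  · exact he ⟨x.1.1, x.2.1⟩ (Finset.mem_image.2 ⟨x.1, hx, rfl⟩)
  · exact he' ⟨x.1.2, x.2.2⟩ (Finset.mem_image.2 ⟨x.1, hx, rfl⟩)

theorem Sim.prod (h : Sim R A N) (h' : Sim R B N') : Sim R (A × B) (N × N') := by
  obtain ⟨𝒮, h1, h2, h3, h4⟩ := h
  obtain ⟨𝒯, k1, k2, k3, k4⟩ := h'
  refine ⟨{W | ∃ S ∈ 𝒮, ∃ T ∈ 𝒯, W = S.prod T}, ?_, ?_, ?_, ?_⟩
  · rintro _ ⟨S, hS, T, hT, rfl⟩ _ ⟨S', hS', T', hT', rfl⟩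
    obtain ⟨U, hU, a, b⟩ := h1 S hS S' hS'
    obtain ⟨V, hV, c, d⟩ := k1 T hT T' hT'
    exact ⟨_, ⟨U, hU, V, hV, rfl⟩, Submodule.prod_mono a c, Submodule.prod_mono b d⟩
  · rintro ⟨x, y⟩
    obtain ⟨S, hS, hx⟩ := h2 x
    obtain ⟨T, hT, hy⟩ := k2 y
    exact ⟨_, ⟨S, hS, T, hT, rfl⟩, hx, hy⟩
  · rintro _ ⟨S, hS, T, hT, rfl⟩
    obtain ⟨f⟩ := h3 S hS
    obtain ⟨g⟩ := k3 T hT
    exact ⟨(prodSub S T).trans (LinearEquiv.prodCongr f g)⟩
  · rintro _ ⟨S, hS, T, hT, rfl⟩ _ ⟨S', hS', T', hT', rfl⟩ hle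
    have hSS : S ≤ S' := fun x hx => (hle (show (x, (0 : N')) ∈ S.prod T from
      ⟨hx, T.zero_mem⟩)).1
    have hTT : T ≤ T' := fun x hx => (hle (show ((0 : N), x) ∈ S.prod T from
      ⟨S.zero_mem, hx⟩)).2
    exact (h4 S hS S' hS' hSS).prod (k4 T hT T' hT' hTT)

/-- `E` absorbs `Z`, fixing finitely many elements -/
def Ab (R : Type) [Ring R] (E Z : Type) [AddCommGroup E] [Module R E] [AddCommGroup Z]
    [Module R Z] : Prop :=
  ∀ F : Finset E, ∃ ε : (E × Z) ≃ₗ[R] E, ∀ x ∈ F, ε (x, 0) = x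

theorem ab_step (h : Ab R E Z) {I : Type} [DecidableEq I] (F : Finset I) (a : I) :
    IsoFix ((⊤ : Submodule R E).prod (Finsupp.supported Z R (↑F : Set I)))
      ((⊤ : Submodule R E).prod (Finsupp.supported Z R (↑(insert a F) : Set I))) := by
  classical
  by_cases ha : a ∈ F
  · rw [Finset.insert_eq_of_mem ha]; exact IsoFix.refl _
  intro Φ hΦ
  obtain ⟨ε, hε⟩ := h (Φ.image Prod.fst)
  let S := (⊤ : Submodule R E).prod (Finsupp.supported Z R (↑F : Set I))
  let T := (⊤ : Submodule R E).prod (Finsupp.supported Z R (↑(insert a F) : Set I))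
  have hS : ∀ x : E × (I →₀ Z), x ∈ S ↔ ∀ i, i ∉ F → x.2 i = 0 := by
    intro x
    constructor
    · intro hx i hi
      exact (Finsupp.mem_supported' R _).1 hx.2 i (by simpa using hi)
    · intro hx
      exact ⟨trivial, (Finsupp.mem_supported' R _).2 fun i hi => hx i (by simpa using hi)⟩
  have hT : ∀ x : E × (I →₀ Z), x ∈ T ↔ ∀ i, i ∉ F → i ≠ a → x.2 i = 0 := by
    intro x
    constructor
    · intro hx i hi hia
      refine (Finsupp.mem_supported' R _).1 hx.2 i ?_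
      rw [Finset.mem_coe, Finset.mem_insert]
      rintro (h | h)
      · exact hia h
      · exact hi h
    · intro hx
      refine ⟨trivial, (Finsupp.mem_supported' R _).2 fun i hi => ?_⟩
      rw [Finset.mem_coe, Finset.mem_insert, not_or] at hi
      exact hx i hi.2 hi.1
  let la : (I →₀ Z) →ₗ[R] Z := Finsupp.lapply a
  let sa : Z →ₗ[R] (I →₀ Z) := Finsupp.lsingle a
  let f : (E × (I →₀ Z)) →ₗ[R] (E × (I →₀ Z)) :=
    ((ε : (E × Z) →ₗ[R] E) ∘ₗ (LinearMap.prodMap LinearMap.id la)).prod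
      ((LinearMap.id - sa ∘ₗ la) ∘ₗ LinearMap.snd R _ _)
  let g : (E × (I →₀ Z)) →ₗ[R] (E × (I →₀ Z)) :=
    (LinearMap.fst R _ _ ∘ₗ (ε.symm : E →ₗ[R] (E × Z)) ∘ₗ LinearMap.fst R _ _).prod
      (LinearMap.snd R _ _ + sa ∘ₗ LinearMap.snd R _ _ ∘ₗ (ε.symm : E →ₗ[R] (E × Z)) ∘ₗ
        LinearMap.fst R _ _)
  have hf : ∀ x w, f (x, w) = (ε (x, w a), w - Finsupp.single a (w a)) := fun x w => rfl
  have hg : ∀ x w, g (x, w) = ((ε.symm x).1, w + Finsupp.single a (ε.symm x).2) :=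
    fun x w => rfl
  have hfT : ∀ x ∈ T, f x ∈ S := by
    rintro ⟨x, w⟩ hx
    rw [hf, hS]
    intro i hi
    show (w - Finsupp.single a (w a)) i = 0
    rw [Finsupp.sub_apply]
    by_cases hia : i = a
    · subst hia; simp
    · rw [Finsupp.single_apply, if_neg (Ne.symm hia), sub_zero]
      exact (hT _).1 hx i hi hia
  have hgS : ∀ x ∈ S, g x ∈ T := by
    rintro ⟨x, w⟩ hx
    rw [hg, hT]
    intro i hi hia
    show (w + Finsupp.single a (ε.symm x).2) i = 0
    rw [Finsupp.add_apply, Finsupp.single_apply, if_neg (Ne.symm hia), add_zero]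
    exact (hS _).1 hx i hi
  have hgf : ∀ x, g (f x) = x := by
    rintro ⟨x, w⟩
    rw [hf, hg]
    simp
  have hfg : ∀ x ∈ S, f (g x) = x := by
    rintro ⟨x, w⟩ hx
    have hwa : w a = 0 := (hS _).1 hx a ha
    rw [hg, hf]
    simp [hwa]
  let f' : T →ₗ[R] S := f.restrict hfT
  let g' : S →ₗ[R] T := g.restrict hgS
  refine ⟨LinearEquiv.ofLinear f' g' ?_ ?_, fun x hx => ?_⟩
  · refine LinearMap.ext fun x => Subtype.ext ?_
    exact hfg x.1 x.2
  · refine LinearMap.ext fun x => Subtype.ext ?_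
    exact hgf x.1
  · show f x.1 = x.1
    obtain ⟨⟨x, w⟩, hxT⟩ := x
    have hxS : w a = 0 := (hS _).1 (hΦ _ hx) a ha
    show f (x, w) = (x, w)
    rw [hf, hxS, hε x (Finset.mem_image.2 ⟨_, hx, rfl⟩)]
    simp

theorem ab_sim (h : Ab R E Z) (I : Type) : Sim R E (E × (I →₀ Z)) := by
  classical
  have hiso : ∀ (F G : Finset I), IsoFix
      ((⊤ : Submodule R E).prod (Finsupp.supported Z R (↑F : Set I)))
      ((⊤ : Submodule R E).prod (Finsupp.supported Z R (↑(G ∪ F) : Set I))) := by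
    intro F G
    induction G using Finset.induction_on with
    | empty => rw [Finset.empty_union]; exact IsoFix.refl _
    | insert a G _ ih =>
        rw [Finset.insert_union]
        exact ih.trans (Submodule.prod_mono le_rfl (Finsupp.supported_mono
          (Finset.coe_subset.2 Finset.subset_union_right))) (ab_step h _ a)
  refine ⟨{S | ∃ F : Finset I, S = (⊤ : Submodule R E).prod
    (Finsupp.supported Z R (↑F : Set I))}, ?_, ?_, ?_, ?_⟩
  · rintro _ ⟨F, rfl⟩ _ ⟨G, rfl⟩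
    exact ⟨_, ⟨F ∪ G, rfl⟩, Submodule.prod_mono le_rfl (Finsupp.supported_mono
      (Finset.coe_subset.2 Finset.subset_union_left)), Submodule.prod_mono le_rfl
      (Finsupp.supported_mono (Finset.coe_subset.2 Finset.subset_union_right))⟩
  · intro x
    exact ⟨_, ⟨x.2.support, rfl⟩, trivial, (Finsupp.mem_supported R _).2 subset_rfl⟩
  · rintro _ ⟨F, rfl⟩
    have h1 := hiso ∅ F
    rw [Finset.union_empty] at h1
    obtain ⟨e, -⟩ := h1 ∅ (by simp)
    let k : ((⊤ : Submodule R E) × Finsupp.supported Z R (↑(∅ : Finset I) : Set I)) ≃ₗ[R] E :=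
      { toFun := fun x => x.1
        invFun := fun x => (⟨x, trivial⟩, 0)
        left_inv := fun x => by
          refine Prod.ext rfl (Subtype.ext ?_)
          refine (Finsupp.ext fun i => ?_ : (x.2 : I →₀ Z) = 0).symm
          exact (Finsupp.mem_supported' R _).1 x.2.2 i (by simp)
        right_inv := fun x => rfl
        map_add' := fun x y => rfl
        map_smul' := fun r x => rfl }
    exact ⟨e.trans ((prodSub _ _).trans k)⟩
  · rintro _ ⟨F, rfl⟩ _ ⟨G, rfl⟩ hle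
    have h1 : F ∪ G = G ∨ Subsingleton Z := by
      by_cases hZ : Subsingleton Z
      · exact Or.inr hZ
      · left
        rw [not_subsingleton_iff_nontrivial] at hZ
        obtain ⟨z, hz⟩ := exists_ne (0 : Z)
        refine Finset.union_eq_right.2 fun i hi => ?_
        have h2 := (hle (show ((0 : E), Finsupp.single i z) ∈ _ from
          ⟨trivial, Finsupp.single_mem_supported R z (by simpa using hi)⟩)).2
        by_contra hiG
        have h3 := (Finsupp.mem_supported' R _).1 h2 i (by simpa using hiG)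
        have h4 : (Finsupp.single i z) i = 0 := h3
        rw [Finsupp.single_eq_same] at h4
        exact hz h4
    rcases h1 with h1 | h1
    · have h2 := hiso F G
      have h3 : G ∪ F = G := by rw [Finset.union_comm]; exact h1
      rw [h3] at h2
      exact h2
    · have h2 : (⊤ : Submodule R E).prod (Finsupp.supported Z R (↑F : Set I)) =
          (⊤ : Submodule R E).prod (Finsupp.supported Z R (↑G : Set I)) := by
        refine le_antisymm hle fun x _ => ⟨trivial, ?_⟩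
        exact (Finsupp.mem_supported' R _).2 fun i _ => Subsingleton.elim _ _
      rw [← h2]
      exact IsoFix.refl _

theorem like_pow' (e : A ≃ₗ[R] (ℕ →₀ A)) (I : Type) [Infinite I] : Sim R A (I →₀ A) :=
  like_sim e ((like_pow A I).congr e.symm)

end

end Pool.Agent.Y583.MC
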