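import Pool.Agent.Y583.MD0

set_option autoImplicit false

/-!
Relative versions of `lemmaU` and `tree_TP`.
-/

namespace Pool.Agent.Y583.MC

open Filter

variable {R : Type} [Ring R]

theorem isCompl_prodSupported (E₁ I Z : Type) [AddCommGroup E₁] [Module R E₁] [AddCommGroup Z]
    [Module R Z] (J : Set I) : IsCompl ((⊤ : Submodule R E₁).prod (Finsupp.supported Z R J))
      ((⊥ : Submodule R E₁).prod (Finsupp.supported Z R Jᶜ)) := by
  have hJ := isCompl_supported (R := R) I Z J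
  constructor
  · rw [Submodule.disjoint_def]
    rintro ⟨x, y⟩ h1 h2
    have hx : x = 0 := h2.1
    have hy : y = 0 := Submodule.disjoint_def.1 hJ.disjoint y h1.2 h2.2
    rw [hx, hy]; rfl
  · rw [codisjoint_iff, eq_top_iff]
    rintro ⟨x, y⟩ _
    have hy : y ∈ Finsupp.supported Z R J ⊔ Finsupp.supported Z R Jᶜ := by
      rw [codisjoint_iff.1 hJ.codisjoint]; trivial
    obtain ⟨a, ha, b, hb, hab⟩ := Submodule.mem_sup.1 hy
    rw [Submodule.mem_sup]
    exact ⟨(x, a), ⟨trivial, ha⟩, (0, b), ⟨Submodule.zero_mem _, hb⟩, by simp [hab]⟩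

theorem isCompl_comap {N N' : Type} [AddCommGroup N] [Module R N] [AddCommGroup N'] [Module R N']
    (Θ : N ≃ₗ[R] N') {A B : Submodule R N'} (h : IsCompl A B) :
    IsCompl (A.comap (Θ : N →ₗ[R] N')) (B.comap (Θ : N →ₗ[R] N')) := by
  constructor
  · rw [Submodule.disjoint_def]
    intro x h1 h2
    have := Submodule.disjoint_def.1 h.disjoint (Θ x) h1 h2
    simpa using this
  · rw [codisjoint_iff, eq_top_iff]
    intro x _
    have hy : Θ x ∈ A ⊔ B := by
      rw [codisjoint_iff.1 h.codisjoint]; trivial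
    obtain ⟨a, ha, b, hb, hab⟩ := Submodule.mem_sup.1 hy
    rw [Submodule.mem_sup]
    refine ⟨Θ.symm a, ?_, Θ.symm b, ?_, ?_⟩
    · rw [Submodule.mem_comap]
      show Θ (Θ.symm a) ∈ A
      rw [LinearEquiv.apply_symm_apply]
      exact ha
    · rw [Submodule.mem_comap]
      show Θ (Θ.symm b) ∈ B
      rw [LinearEquiv.apply_symm_apply]
      exact hb
    · rw [← map_add, hab]; simp

/-- the product with the zero submodule -/
def botProd (E₁ : Type) [AddCommGroup E₁] [Module R E₁] {N : Type} [AddCommGroup N] [Module R N]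
    (S : Submodule R N) : ((⊥ : Submodule R E₁).prod S : Submodule R (E₁ × N)) ≃ₗ[R] S where
  toFun x := ⟨x.1.2, x.2.2⟩
  invFun y := ⟨(0, y), Submodule.zero_mem _, y.2⟩
  left_inv x := by
    obtain ⟨⟨a, b⟩, ha, hb⟩ := x
    have : a = 0 := ha
    subst this
    rfl
  right_inv y := rfl
  map_add' _ _ := rfl
  map_smul' _ _ := rfl

theorem lemmaU' {E₁ E₂ E Z I : Type} [AddCommGroup E₁] [Module R E₁] [AddCommGroup E₂]
    [Module R E₂] [AddCommGroup E] [Module R E] [AddCommGroup Z] [Module R Z]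
    [Countable E₁] [Countable E₂] [Countable E] [Countable Z] [Uncountable I]
    (Θ : (E₁ × (I →₀ Z)) ≃ₗ[R] (E₂ × (I →₀ E))) :
    Nonempty ((ℕ →₀ Z) ≃ₗ[R] (ℕ →₀ E)) := by
  obtain ⟨J, J', -, -, h3, h4, h5⟩ := interlace (sys_prod E₁ I _ (sys_supported (R := R) I Z))
    ((sys_prod E₂ I _ (sys_supported (R := R) I E)).comap Θ) ∅ ∅ Set.countable_empty
    Set.countable_empty
  haveI : Infinite (Jᶜ : Set I) := by
    rw [Set.infinite_coe_iff]
    intro hf
    exact Set.not_countable_univ (α := I) (by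
      rw [← Set.union_compl_self J]; exact h3.union hf.countable)
  haveI : Infinite (J'ᶜ : Set I) := by
    rw [Set.infinite_coe_iff]
    intro hf
    exact Set.not_countable_univ (α := I) (by
      rw [← Set.union_compl_self J']; exact h4.union hf.countable)
  have c1 := isCompl_prodSupported (R := R) E₁ I Z J
  have c2 := isCompl_comap Θ (isCompl_prodSupported (R := R) E₂ I E J')
  have h5' : (⊤ : Submodule R E₁).prod (Finsupp.supported Z R J) =
    ((⊤ : Submodule R E₂).prod (Finsupp.supported E R J')).comap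
      (Θ : (E₁ × (I →₀ Z)) →ₗ[R] (E₂ × (I →₀ E))) := h5
  rw [h5'] at c1
  have k1 := (Submodule.quotientEquivOfIsCompl _ _ c1).symm.trans
    (Submodule.quotientEquivOfIsCompl _ _ c2)
  obtain ⟨k2⟩ := comap_equiv Θ ((⊥ : Submodule R E₂).prod (Finsupp.supported E R J'ᶜ))
  have k4 := (Finsupp.supportedEquivFinsupp (R := R) (M := Z) Jᶜ).symm.trans
    ((botProd E₁ _).symm.trans (k1.trans (k2.trans ((botProd E₂ _).trans
      (Finsupp.supportedEquivFinsupp (R := R) (M := E) J'ᶜ)))))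
  exact power_unique k4

variable {E : Type} [AddCommGroup E] [Module R E] {Y : Set (ℕ → Bool)}

theorem tree_TP' [Countable E] (e : E ≃ₗ[R] (ℕ →₀ E)) (f : ℕ → (E →ₗ[R] E)) (hY : ¬ Y.Countable)
    {I₁ I₂ W N' : Type} [AddCommGroup W] [Module R W] [AddCommGroup N'] [Module R N']
    {pW : Set I₁ → Submodule R W} (hpW : Sys pW) {qN : Set I₂ → Submodule R N'} (hqN : Sys qN)
    (hret : ∀ J, ∃ r : N' →ₗ[R] N', (∀ x, r x ∈ qN J) ∧ ∀ x ∈ qN J, r x = x)
    (Θ : (TM Y f × W) ≃ₗ[R] N') :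
    ∃ h : ℕ → (E →ₗ[R] (ℕ →₀ E)), ∀ n x, h n x - h (n + 1) (f n x) = Finsupp.single n x := by
  classical
  obtain ⟨J, J', -, -, h3, -, h5⟩ := interlace
    (sys_prod2 (sys_PB e f) hpW)
    (hqN.comap Θ) ∅ ∅ Set.countable_empty Set.countable_empty
  obtain ⟨η, hη⟩ : ∃ η : Y, η ∉ (Sum.inl ⁻¹' J : Set Y) := by
    by_contra hcon
    push Not at hcon
    apply hY
    have h6 : (Set.univ : Set Y).Countable :=
      (h3.preimage Sum.inl_injective).mono fun η _ => hcon η
    exact Set.countable_coe_iff.1 (Set.countable_univ_iff.1 h6)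
  let J₁ : Set Y := Sum.inl ⁻¹' J
  -- restriction to the branch `η`
  have hfin : ∀ g : PB f J₁, (Function.support fun m => g.1.1 (pre η.1 m)).Finite := by
    rintro ⟨g, G, n, h1, h2⟩
    have h4 := pre_notMem_Nd (G := G) (η := η) (fun h => hη (h1 h)) n
    obtain ⟨N, hN⟩ := eventually_atTop.1 h4
    refine (Set.finite_lt_nat N).subset fun m hm => ?_
    by_contra hlt
    exact hN m (not_lt.1 hlt) (h2 _ hm)
  let ρ : PB f J₁ →ₗ[R] (ℕ →₀ E) :=
    { toFun := fun g => Finsupp.ofSupportFinite (fun m => g.1.1 (pre η.1 m)) (hfin g)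
      map_add' := fun g g' => by ext m; rfl
      map_smul' := fun r g => by ext m; rfl }
  have hρ : ∀ g m, ρ g m = g.1.1 (pre η.1 m) := fun g m => rfl
  -- the retraction
  obtain ⟨r₀, hr₀, hr₀'⟩ := hret J'
  have h5' : ((PB f J₁).prod (pW (Sum.inr ⁻¹' J : Set I₁))) =
      (qN J').comap (Θ : (TM Y f × W) →ₗ[R] N') := h5
  let R₁ : (TM Y f × W) →ₗ[R] (TM Y f × W) :=
    (Θ.symm : N' →ₗ[R] (TM Y f × W)) ∘ₗ r₀ ∘ₗ (Θ : (TM Y f × W) →ₗ[R] N')
  have hR1 : ∀ x, R₁ x ∈ (PB f J₁).prod (pW (Sum.inr ⁻¹' J : Set I₁)) := by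
    intro x
    rw [h5', Submodule.mem_comap]
    show Θ (Θ.symm (r₀ (Θ x))) ∈ _
    rw [LinearEquiv.apply_symm_apply]
    exact hr₀ _
  have hR2 : ∀ x ∈ (PB f J₁).prod (pW (Sum.inr ⁻¹' J : Set I₁)), R₁ x = x := by
    intro x hx
    rw [h5', Submodule.mem_comap] at hx
    show Θ.symm (r₀ (Θ x)) = x
    have h9 : r₀ (Θ x) = Θ x := hr₀' _ hx
    rw [h9, LinearEquiv.symm_apply_apply]
  let R₂ : TM Y f →ₗ[R] PB f J₁ := LinearMap.codRestrict _
    (LinearMap.fst R _ _ ∘ₗ R₁ ∘ₗ LinearMap.inl R (TM Y f) W) (fun x => (hR1 _).1)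
  have hR3 : ∀ x : PB f J₁, R₂ x = x := by
    intro x
    apply Subtype.ext
    show (R₁ (x.1, 0)).1 = x.1
    rw [hR2 (x.1, 0) ⟨x.2, Submodule.zero_mem _⟩]
  -- the elements on the branch
  have hσ : ∀ (n : ℕ) (x : E), (Pi.single (pre η.1 n) x : List Bool → E) ∈ TM Y f := by
    intro n x
    refine ⟨fun η' => ?_, ∅, n + 1, fun s hs => Or.inl ?_⟩
    · filter_upwards [eventually_ge_atTop (n + 1)] with m hm
      rw [Pi.single_eq_of_ne, Pi.single_eq_of_ne, map_zero]
      · intro h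
        have := congrArg List.length h
        rw [pre_length, pre_length] at this
        omega
      · intro h
        have := congrArg List.length h
        rw [pre_length, pre_length] at this
        omega
    · by_contra hlt
      apply hs
      rw [Pi.single_eq_of_ne]
      intro h
      rw [h, pre_length] at hlt
      omega
  have hσ2 : ∀ (n : ℕ) (x : E), (⟨_, hσ n x⟩ : TM Y f) ∈ SG f {η} 0 := by
    intro n x s hs
    have : s = pre η.1 n := by
      by_contra h
      apply hs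
      show (Pi.single (pre η.1 n) x : List Bool → E) s = 0
      rw [Pi.single_apply, if_neg h]
    rw [this]
    exact pre_mem_Nd (Finset.mem_singleton_self η) 0 n
  have hσ3 : ∀ (n : ℕ) (x : E), (⟨_, hσ n x⟩ : TM Y f) ∈ PB f J₁ := by
    intro n x
    refine ⟨∅, n + 1, by simp, fun s hs => Or.inl ?_⟩
    have : s = pre η.1 n := by
      by_contra h
      apply hs
      show (Pi.single (pre η.1 n) x : List Bool → E) s = 0
      rw [Pi.single_apply, if_neg h]
    rw [this, pre_length]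
    exact Nat.lt_succ_self n
  let nd : ℕ → Nd ({η} : Finset Y) 0 := fun n =>
    ⟨pre η.1 n, pre_mem_Nd (Finset.mem_singleton_self η) 0 n⟩
  let yv : ℕ → (E →ₗ[R] SG f {η} 0) := fun n =>
    ((LamE f {η} 0).symm : (Nd ({η} : Finset Y) 0 →₀ E) →ₗ[R] SG f {η} 0) ∘ₗ
      Finsupp.lsingle (nd n)
  have hrel : ∀ n x, yv n x = ⟨⟨_, hσ n x⟩, hσ2 n x⟩ + yv (n + 1) (f n x) := by
    intro n x
    apply (LamE f {η} 0).injective
    refine Eq.trans ?_ ((LamE f {η} 0).map_add _ _).symm
    show (LamE f {η} 0) ((LamE f {η} 0).symm (Finsupp.single (nd n) x)) = _ +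
      (LamE f {η} 0) ((LamE f {η} 0).symm (Finsupp.single (nd (n + 1)) (f n x)))
    rw [LinearEquiv.apply_symm_apply, LinearEquiv.apply_symm_apply, ← sub_eq_iff_eq_add]
    ext ⟨s, hs⟩
    rw [Finsupp.sub_apply]
    show _ = dd f {η} 0 (Pi.single (pre η.1 n) x) s
    obtain ⟨m, rfl⟩ : ∃ m, s = pre η.1 m := by
      rcases hs with h | ⟨η', h1, h2⟩
      · exact absurd h (Nat.not_lt_zero _)
      · rw [Finset.mem_singleton] at h1
        subst h1
        exact ⟨_, h2⟩
    have hnd : ∀ k, (nd k = ⟨pre η.1 m, hs⟩) ↔ k = m := by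
      intro k
      constructor
      · intro h
        exact pre_inj η.1 (congrArg Subtype.val h)
      · rintro rfl; rfl
    rw [Finsupp.single_apply, Finsupp.single_apply]
    simp only [hnd]
    have hp : ∀ k, (Pi.single (pre η.1 n) x : List Bool → E) (pre η.1 k) =
        if n = k then x else 0 := by
      intro k
      rw [Pi.single_apply]
      have : (pre η.1 k = pre η.1 n) ↔ n = k := by
        constructor
        · intro h; exact (pre_inj η.1 h).symm
        · rintro rfl; rfl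
      simp only [this]
    cases m with
    | zero =>
        show _ = (Pi.single (pre η.1 n) x : List Bool → E) (pre η.1 0)
        rw [hp 0, if_neg (Nat.succ_ne_zero n), sub_zero]
    | succ m =>
        have hif : (if 0 ≤ (pre η.1 m).length ∧ pre η.1 (m + 1) ∈ Nd ({η} : Finset Y) 0 then
            f (pre η.1 m).length ((Pi.single (pre η.1 n) x : List Bool → E) (pre η.1 m)) else 0) =
            f m (if n = m then x else 0) := by
          rw [if_pos ⟨Nat.zero_le _, hs⟩, hp, pre_length]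
        show _ = (Pi.single (pre η.1 n) x : List Bool → E) (pre η.1 (m + 1)) -
          (if 0 ≤ (pre η.1 m).length ∧ pre η.1 (m + 1) ∈ Nd ({η} : Finset Y) 0 then
            f (pre η.1 m).length ((Pi.single (pre η.1 n) x : List Bool → E) (pre η.1 m)) else 0)
        rw [hif, hp]
        congr 1
        by_cases h : n = m
        · subst h; simp
        · rw [if_neg h, if_neg (fun h' => h (Nat.succ.inj h')), map_zero]
  refine ⟨fun n => ρ ∘ₗ R₂ ∘ₗ (SG f {η} 0).subtype ∘ₗ yv n, fun n x => ?_⟩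
  show ρ (R₂ (yv n x).1) - ρ (R₂ (yv (n + 1) (f n x)).1) = _
  have h8 : (yv n x).1 = ⟨_, hσ n x⟩ + (yv (n + 1) (f n x)).1 :=
    congrArg Subtype.val (hrel n x)
  have h9 : ρ (R₂ (yv n x).1) = ρ (R₂ ⟨_, hσ n x⟩) + ρ (R₂ (yv (n + 1) (f n x)).1) := by
    rw [h8, R₂.map_add, ρ.map_add]
  rw [h9, add_sub_cancel_right, hR3 ⟨_, hσ3 n x⟩]
  ext m
  rw [hρ]
  show (Pi.single (pre η.1 n) x : List Bool → E) (pre η.1 m) = _
  rw [Pi.single_apply, Finsupp.single_apply]
  have : (pre η.1 m = pre η.1 n) ↔ n = m := by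
    constructor
    · intro h; exact (pre_inj η.1 h).symm
    · rintro rfl; rfl
  simp only [this]


/-- the retractions of `D₀ × (I →₀ E)` -/
theorem ret_prodSupported (E₁ I Z : Type) [AddCommGroup E₁] [Module R E₁] [AddCommGroup Z]
    [Module R Z] (J : Set I) : ∃ r : (E₁ × (I →₀ Z)) →ₗ[R] (E₁ × (I →₀ Z)),
      (∀ x, r x ∈ (⊤ : Submodule R E₁).prod (Finsupp.supported Z R J)) ∧
      ∀ x ∈ (⊤ : Submodule R E₁).prod (Finsupp.supported Z R J), r x = x := by
  classical
  refine ⟨LinearMap.prodMap LinearMap.id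
    ((Finsupp.supported Z R J).subtype ∘ₗ Finsupp.restrictDom Z R J), fun x => ⟨trivial, ?_⟩,
    fun x hx => Prod.ext rfl ?_⟩
  · exact (Finsupp.restrictDom Z R J x.2).2
  · have h7 := LinearMap.congr_fun (Finsupp.restrictDom_comp_subtype (R := R) (M := Z) J)
      ⟨x.2, hx.2⟩
    exact congrArg Subtype.val h7

end Pool.Agent.Y583.MC
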