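import Pool.Agent.Y583.MD1

set_option autoImplicit false

/-!
The module `D` for a sentence categorical in `μ` with a model `D₀ × C^(μ)`.
-/

namespace Pool.Agent.Y583.MC

open Cardinal

variable {R : Type} [Ring R]

theorem ab_of {C Z : Type} [AddCommGroup C] [Module R C] [AddCommGroup Z] [Module R Z]
    (e : C ≃ₗ[R] (ℕ →₀ C)) (θ : (C × Z) ≃ₗ[R] C) : Ab R C Z := by
  classical
  intro F
  obtain ⟨ε, hε⟩ := absorb_fix θ (F.image e)
  refine ⟨(LinearEquiv.prodCongr e (LinearEquiv.refl R Z)).trans (ε.trans e.symm),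
    fun x hx => ?_⟩
  show e.symm (ε (e x, 0)) = x
  rw [hε _ (Finset.mem_image_of_mem _ hx), LinearEquiv.symm_apply_apply]

theorem Ab.prod {D₀ C Z : Type} [AddCommGroup D₀] [Module R D₀] [AddCommGroup C] [Module R C]
    [AddCommGroup Z] [Module R Z] (h : Ab R C Z) : Ab R (D₀ × C) Z := by
  classical
  intro F
  obtain ⟨ε, hε⟩ := h (F.image Prod.snd)
  refine ⟨
    { toFun := fun x => (x.1.1, ε (x.1.2, x.2))
      invFun := fun y => ((y.1, (ε.symm y.2).1), (ε.symm y.2).2)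
      left_inv := fun x => by simp
      right_inv := fun y => by simp
      map_add' := fun x y => by
        refine Prod.ext rfl ?_
        show ε (x.1.2 + y.1.2, x.2 + y.2) = ε (x.1.2, x.2) + ε (y.1.2, y.2)
        rw [← map_add]; rfl
      map_smul' := fun r x => by
        refine Prod.ext rfl ?_
        show ε (r • x.1.2, r • x.2) = r • ε (x.1.2, x.2)
        rw [← map_smul]; rfl }, fun x hx => ?_⟩
  show (x.1, ε (x.2, 0)) = x
  rw [hε x.2 (Finset.mem_image_of_mem _ hx)]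

theorem Ab.congr {A B Z : Type} [AddCommGroup A] [Module R A] [AddCommGroup B] [Module R B]
    [AddCommGroup Z] [Module R Z] (h : Ab R A Z) (f : A ≃ₗ[R] B) : Ab R B Z := by
  classical
  intro F
  obtain ⟨ε, hε⟩ := h (F.image f.symm)
  refine ⟨(LinearEquiv.prodCongr f.symm (LinearEquiv.refl R Z)).trans (ε.trans f),
    fun x hx => ?_⟩
  show f (ε (f.symm x, 0)) = x
  rw [hε _ (Finset.mem_image_of_mem _ hx), LinearEquiv.apply_symm_apply]

/-- uniqueness of the model of cardinality `μ` -/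
def Uniq (ψ : Fml R 0) (μ : Cardinal.{0}) : Prop :=
  ∀ (M N : Type) [AddCommGroup M] [Module R M] [AddCommGroup N] [Module R N],
    #M = μ → #N = μ → Holds ψ M → Holds ψ N → Nonempty (M ≃ₗ[R] N)

section
variable {ψ : Fml R 0} {μ : Cardinal.{0}} {D₀ C I : Type} [AddCommGroup D₀] [Module R D₀]
  [AddCommGroup C] [Module R C]

theorem mk_pow' {X E : Type} [AddCommGroup E] [Nontrivial E] [Countable E] [Infinite X] :
    #(X →₀ E) = #X :=
  mk_pow X E ((mk_le_aleph0).trans (infinite_iff.1 inferInstance))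

theorem mk_prod_count {X E : Type} [Countable E] [Nonempty E] [Infinite X] : #(E × X) = #X := by
  rw [mk_prod, lift_id, lift_id]
  exact mul_eq_right (infinite_iff.1 inferInstance)
    ((mk_le_aleph0).trans (infinite_iff.1 inferInstance)) (mk_ne_zero E)

theorem model_I [Countable D₀] [Countable C] [Nontrivial C] (e : C ≃ₗ[R] (ℕ →₀ C))
    (hE : Holds ψ (D₀ × C)) [Infinite I] :
    Holds ψ (D₀ × (I →₀ C)) ∧ #(D₀ × (I →₀ C)) = #I := by
  constructor
  · exact (sim_holds ((sim_self D₀).prod (like_pow' e I)) ψ).2 hE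
  · haveI : Infinite (I →₀ C) := by
      rw [infinite_iff, mk_pow']; exact infinite_iff.1 inferInstance
    rw [mk_prod_count, mk_pow']

/-- countable modules absorbed by `D₀ × C` -/
theorem absorbed [Countable D₀] [Countable C] [Nontrivial C] (hμ : ℵ₀ < μ) (huniq : Uniq ψ μ)
    (e : C ≃ₗ[R] (ℕ →₀ C)) (hE : Holds ψ (D₀ × C)) (Z : Type) [AddCommGroup Z] [Module R Z]
    [Countable Z] [Nontrivial Z] (h : Ab R (D₀ × C) Z) : Nonempty ((ℕ →₀ Z) ≃ₗ[R] C) := by
  let I : Type := μ.out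
  have hI : #I = μ := mk_out μ
  haveI : Infinite I := infinite_iff.2 (by rw [hI]; exact hμ.le)
  haveI : Uncountable I := by rw [← aleph0_lt_mk_iff, hI]; exact hμ
  obtain ⟨h1, h2⟩ := model_I (I := I) e hE
  have h3 : Holds ψ ((D₀ × C) × (I →₀ Z)) := (sim_holds (ab_sim h I) ψ).2 hE
  haveI : Infinite (I →₀ Z) := by
    rw [infinite_iff, mk_pow']; exact infinite_iff.1 inferInstance
  have h4 : #((D₀ × C) × (I →₀ Z)) = #I := by
    rw [mk_prod_count, mk_pow']
  obtain ⟨Θ⟩ := huniq _ _ (h4.trans hI) (h2.trans hI) h3 h1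
  obtain ⟨k⟩ := lemmaU' Θ
  exact ⟨k.trans e.symm⟩

theorem tp_C [Countable D₀] [Countable C] [Nontrivial C] (hμ : ℵ₀ < μ) (huniq : Uniq ψ μ)
    (e : C ≃ₗ[R] (ℕ →₀ C)) (hE : Holds ψ (D₀ × C)) : TP R C := by
  classical
  intro f
  let I : Type := μ.out
  have hI : #I = μ := mk_out μ
  haveI : Infinite I := infinite_iff.2 (by rw [hI]; exact hμ.le)
  obtain ⟨h1, h2⟩ := model_I (I := I) e hE
  obtain ⟨Y, hY⟩ : ∃ Y : Set (ℕ → Bool), #Y = ℵ₁ := by
    refine le_mk_iff_exists_set.1 ?_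
    have : #(ℕ → Bool) = 𝔠 := by simp
    rw [this]
    exact aleph_one_le_continuum
  have hYc : ¬ Y.Countable := by
    rw [← le_aleph0_iff_set_countable, hY, not_le]
    exact aleph0_lt_aleph_one
  haveI : Infinite Y := infinite_iff.2 (by rw [hY]; exact aleph0_le_aleph 1)
  obtain ⟨a⟩ : Nonempty ((C × C) ≃ₗ[R] C) := absorb e LinearMap.id LinearMap.id fun _ => rfl
  let b : (C × (D₀ × C)) ≃ₗ[R] (D₀ × C) :=
    { toFun := fun x => (x.2.1, a (x.1, x.2.2))
      invFun := fun y => ((a.symm y.2).1, (y.1, (a.symm y.2).2))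
      left_inv := fun x => by simp
      right_inv := fun y => by simp
      map_add' := fun x y => by
        refine Prod.ext rfl ?_
        show a (x.1 + y.1, x.2.2 + y.2.2) = a (x.1, x.2.2) + a (y.1, y.2.2)
        rw [← map_add]; rfl
      map_smul' := fun r x => by
        refine Prod.ext rfl ?_
        show a (r • x.1, r • x.2.2) = r • a (x.1, x.2.2)
        rw [← map_smul]; rfl }
  have h3 : Holds ψ (TM Y f × (D₀ × (I →₀ C))) :=
    (sim_holds (((like_sim e (like_TM e f)).prod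
      ((sim_self D₀).prod (like_pow' e I))).congr b) ψ).2 hE
  have h4 : #(TM Y f × (D₀ × (I →₀ C))) = μ := by
    rw [mk_prod, lift_id, lift_id, h2, hI]
    refine mul_eq_right hμ.le ?_ (mk_ne_zero _)
    refine (mk_TM_le e Y f).trans ?_
    rw [hY, ← succ_aleph0]
    exact Order.succ_le_of_lt hμ
  obtain ⟨Θ⟩ := huniq _ _ h4 (h2.trans hI) h3 h1
  exact tree_TP' e f hYc (sys_prod D₀ I _ (sys_supported (R := R) I C))
    (sys_prod D₀ I _ (sys_supported (R := R) I C)) (ret_prodSupported D₀ I C) Θ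

/-- The module `D`. -/
theorem exists_D' [Countable D₀] [Countable C] [Nontrivial C] (hμ : ℵ₀ < μ) (huniq : Uniq ψ μ)
    (e : C ≃ₗ[R] (ℕ →₀ C)) (hE : Holds ψ (D₀ × C)) :
    ∃ (D : Type) (_ : AddCommGroup D) (_ : Module R D) (z : D), Countable D ∧ Loc R D z ∧
      TP R D ∧ TP R (ℕ →₀ D) ∧ Nonempty ((ℕ →₀ D) ≃ₗ[R] C) ∧
      ∀ (Z : Type) [AddCommGroup Z] [Module R Z], Nice R D Z → Nontrivial Z →
        ∃ t : D →ₗ[R] Z, t z ≠ 0 := by
  classical
  have hU : ∀ (Z : Type) [AddCommGroup Z] [Module R Z], Countable Z → Nontrivial Z →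
      Nonempty ((C × Z) ≃ₗ[R] C) → Nonempty ((ℕ →₀ Z) ≃ₗ[R] C) := by
    intro Z _ _ hZ1 hZ2 ⟨θ⟩
    exact absorbed hμ huniq e hE Z (ab_of e θ).prod
  have hT : TP R C := tp_C hμ huniq e hE
  obtain ⟨D, z, p, hp, hloc⟩ := exists_local e hT
  haveI : Countable D := Subtype.countable
  have hDE : ∃ (i : D →ₗ[R] C) (q : C →ₗ[R] D), ∀ d, q (i d) = d :=
    ⟨e.symm ∘ₗ D.subtype, p ∘ₗ (e : C →ₗ[R] (ℕ →₀ C)), fun b => by
      show p (e (e.symm b)) = b
      rw [LinearEquiv.apply_symm_apply, hp]⟩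
  obtain ⟨i, q, hiq⟩ := hDE
  have hDnt : Nontrivial D := ⟨⟨z, 0, hloc.1⟩⟩
  obtain ⟨ε⟩ := hU D inferInstance hDnt (absorb e i q hiq)
  have hTD : TP R D := hT.retract i q hiq
  have hTD' : TP R (ℕ →₀ D) := hT.retract (ε : (ℕ →₀ D) →ₗ[R] C)
    (ε.symm : C →ₗ[R] (ℕ →₀ D)) (fun b => by simp)
  refine ⟨D, inferInstance, inferInstance, z, inferInstance, hloc, hTD, hTD', ⟨ε⟩, ?_⟩
  intro Z _ _ ⟨i', p', hp'⟩ hZ
  haveI : Countable Z := by
    have : Function.Injective i' := fun a b h => by rw [← hp' a, h, hp']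
    exact this.countable
  obtain ⟨a⟩ := hU Z inferInstance hZ (absorb e (ε.toLinearMap ∘ₗ i')
    (p' ∘ₗ ε.symm.toLinearMap) (fun d => by simp [hp']))
  let g : (ℕ →₀ D) ≃ₗ[R] (ℕ →₀ Z) := ε.trans a.symm
  have hne : g (Finsupp.single 0 z) ≠ 0 := by
    rw [Ne, LinearEquiv.map_eq_zero_iff, Finsupp.single_eq_zero]
    exact hloc.1
  obtain ⟨j, hj⟩ : ∃ j, (g (Finsupp.single 0 z)) j ≠ 0 := by
    by_contra hcon
    push Not at hcon
    exact hne (Finsupp.ext hcon)
  exact ⟨Finsupp.lapply j ∘ₗ (g : (ℕ →₀ D) →ₗ[R] (ℕ →₀ Z)) ∘ₗ Finsupp.lsingle 0, hj⟩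

end

end Pool.Agent.Y583.MC
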