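import Pool.Agent.Y583.MD2

set_option autoImplicit false

/-!
Scott sentences and the back-and-forth method for modules.
-/

namespace Pool.Agent.Y583.MC

variable {R : Type} [Ring R]

section formulas

/-- conjunction of two formulas -/
def and2 {n : ℕ} (φ θ : Fml R n) : Fml R n := .conj fun k => if k = 0 then φ else θ

/-- implication -/
def imp {n : ℕ} (φ θ : Fml R n) : Fml R n := .neg (and2 φ (.neg θ))

/-- universal quantification -/
def all {n : ℕ} (φ : Fml R (n + 1)) : Fml R n := .neg (.ex (.neg φ))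

variable {M : Type} [AddCommGroup M] [Module R M]

theorem sat_neg {n : ℕ} (φ : Fml R n) (v : Fin n → M) : Sat M (.neg φ) v ↔ ¬ Sat M φ v := Iff.rfl

theorem sat_conj {n : ℕ} (φ : ℕ → Fml R n) (v : Fin n → M) :
    Sat M (.conj φ) v ↔ ∀ k, Sat M (φ k) v := Iff.rfl

theorem sat_ex {n : ℕ} (φ : Fml R (n + 1)) (v : Fin n → M) :
    Sat M (.ex φ) v ↔ ∃ a : M, Sat M φ (Fin.cons a v) := Iff.rfl

theorem sat_lin {n : ℕ} (r : Fin n → R) (v : Fin n → M) :
    Sat M (.lin r) v ↔ ∑ i, r i • v i = 0 := Iff.rfl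

theorem sat_and2 {n : ℕ} (φ θ : Fml R n) (v : Fin n → M) :
    Sat M (and2 φ θ) v ↔ Sat M φ v ∧ Sat M θ v := by
  unfold and2
  rw [sat_conj]
  constructor
  · intro h
    have h0 := h 0
    have h1 := h 1
    rw [if_pos rfl] at h0
    rw [if_neg one_ne_zero] at h1
    exact ⟨h0, h1⟩
  · rintro ⟨h0, h1⟩ k
    split_ifs
    · exact h0
    · exact h1

theorem sat_imp {n : ℕ} (φ θ : Fml R n) (v : Fin n → M) :
    Sat M (imp φ θ) v ↔ (Sat M φ v → Sat M θ v) := by
  unfold imp
  rw [sat_neg, sat_and2, sat_neg]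
  tauto

theorem sat_all {n : ℕ} (φ : Fml R (n + 1)) (v : Fin n → M) :
    Sat M (all φ) v ↔ ∀ a : M, Sat M φ (Fin.cons a v) := by
  unfold all
  rw [sat_neg, sat_ex]
  simp only [sat_neg, not_exists, not_not]

/-- universal closure -/
def clo : (n : ℕ) → Fml R n → Fml R 0
  | 0, φ => φ
  | n + 1, φ => clo n (all φ)

theorem sat_clo {n : ℕ} (φ : Fml R n) : Holds (clo n φ) M ↔ ∀ v : Fin n → M, Sat M φ v := by
  induction n with
  | zero =>
      constructor
      · intro h v
        have : v = Fin.elim0 := funext fun i => i.elim0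
        rw [this]; exact h
      · intro h; exact h _
  | succ n ih =>
      show Holds (clo n (all φ)) M ↔ _
      rw [ih]
      constructor
      · intro h v
        have h1 := (sat_all φ _).1 (h (Fin.tail v)) (v 0)
        rw [Fin.cons_self_tail] at h1
        exact h1
      · intro h v
        rw [sat_all]
        exact fun a => h _

/-- a countable family of universal closures as one sentence -/
theorem exists_sentence (Q : Type) [Countable Q] [Nonempty Q] (n : Q → ℕ)
    (χ : ∀ q, Fml R (n q)) : ∃ σ : Fml R 0, ∀ (M : Type) [AddCommGroup M] [Module R M],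
      Holds σ M ↔ ∀ q (v : Fin (n q) → M), Sat M (χ q) v := by
  obtain ⟨en, hen⟩ := exists_surjective_nat Q
  refine ⟨.conj fun k => clo _ (χ (en k)), fun M _ _ => ?_⟩
  constructor
  · intro h q
    obtain ⟨k, rfl⟩ := hen q
    exact sat_clo _ |>.1 (h k)
  · intro h k
    exact (sat_clo _).2 (h (en k))

end formulas

section scott

variable {E : Type} [AddCommGroup E] [Module R E]

theorem exists_phi (E : Type) [AddCommGroup E] [Module R E] [Countable E] :
    ∃ φ : ∀ n, (Fin n → E) → Fml R n, (∀ n b, Sat E (φ n b) b) ∧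
      ∀ n b b', Sat E (φ n b) b' → ∀ θ : Fml R n, Sat E θ b ↔ Sat E θ b' := by
  classical
  have h1 : ∀ (n : ℕ) (b b' : Fin n → E), ∃ θ : Fml R n, Sat E θ b ∧
      (Sat E θ b' → ∀ θ' : Fml R n, Sat E θ' b ↔ Sat E θ' b') := by
    intro n b b'
    by_cases h : ∀ θ' : Fml R n, Sat E θ' b ↔ Sat E θ' b'
    · refine ⟨.lin fun _ => 0, ?_, fun _ => h⟩
      rw [sat_lin]; simp
    · push Not at h
      obtain ⟨θ, hθ⟩ := h
      rcases hθ with ⟨h1, h2⟩ | ⟨h1, h2⟩
      · exact ⟨θ, h1, fun h => absurd h h2⟩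
      · exact ⟨.neg θ, h1, fun h => absurd h2 h⟩
  choose θ hθ1 hθ2 using h1
  have h2 : ∀ n : ℕ, ∃ en : ℕ → (Fin n → E), Function.Surjective en := fun n =>
    exists_surjective_nat _
  choose en hen using h2
  refine ⟨fun n b => .conj fun k => θ n b (en n k), fun n b => ?_, fun n b b' h => ?_⟩
  · rw [sat_conj]
    exact fun k => hθ1 n b _
  · obtain ⟨k, hk⟩ := hen n b'
    have h3 := (sat_conj _ _).1 h k
    rw [hk] at h3
    exact hθ2 n b b' h3

/-- the properties expressed by the Scott sentence of `E` -/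
structure ScottGood (φ : ∀ n, (Fin n → E) → Fml R n) (N : Type) [AddCommGroup N] [Module R N] :
    Prop where
  base : Sat N (φ 0 Fin.elim0) Fin.elim0
  atom : ∀ n b (c : Fin n → N), Sat N (φ n b) c → ∀ r : Fin n → R,
    (∑ i, r i • b i = 0 ↔ ∑ i, r i • c i = 0)
  forth : ∀ n b (c : Fin n → N), Sat N (φ n b) c → ∀ a, ∃ d,
    Sat N (φ (n + 1) (Fin.cons a b)) (Fin.cons d c)
  back : ∀ n b (c : Fin n → N), Sat N (φ n b) c → ∀ d, ∃ a,
    Sat N (φ (n + 1) (Fin.cons a b)) (Fin.cons d c)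

theorem exists_scott (E : Type) [AddCommGroup E] [Module R E] [Countable E] [Countable R] :
    ∃ (σ : Fml R 0) (φ : ∀ n, (Fin n → E) → Fml R n), Holds σ E ∧
      ∀ (N : Type) [AddCommGroup N] [Module R N], Holds σ N → ScottGood φ N := by
  classical
  obtain ⟨φ, h1, h2⟩ := exists_phi (R := R) E
  obtain ⟨en, hen⟩ := exists_surjective_nat E
  let Q : Type := Option (Σ n, (Fin n → E) × ((Fin n → R) ⊕ E ⊕ Unit))
  let nn : Q → ℕ := fun q => match q with
    | none => 0
    | some ⟨n, _⟩ => n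
  let χ : ∀ q : Q, Fml R (nn q) := fun q => match q with
    | none => φ 0 Fin.elim0
    | some ⟨n, b, Sum.inl r⟩ => imp (φ n b)
        (if Sat E (Fml.lin r) b then Fml.lin r else Fml.neg (Fml.lin r))
    | some ⟨n, b, Sum.inr (Sum.inl a)⟩ => imp (φ n b) (Fml.ex (φ (n + 1) (Fin.cons a b)))
    | some ⟨n, b, Sum.inr (Sum.inr _)⟩ => imp (φ n b)
        (Fml.neg (Fml.ex (Fml.conj fun k => Fml.neg (φ (n + 1) (Fin.cons (en k) b)))))
  obtain ⟨σ, hσ⟩ := exists_sentence Q nn χ
  refine ⟨σ, φ, (hσ E).2 ?_, fun N _ _ hN => ?_⟩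
  · intro q v
    match q, v with
    | none, v =>
        have : v = Fin.elim0 := funext fun i => i.elim0
        rw [this]
        exact h1 0 _
    | some ⟨n, b, Sum.inl r⟩, v =>
        show Sat E (imp (φ n b) _) v
        rw [sat_imp]
        intro h
        have h3 := h2 n b v h (.lin r)
        split_ifs with h4
        · exact h3.1 h4
        · exact fun h5 => h4 (h3.2 h5)
    | some ⟨n, b, Sum.inr (Sum.inl a)⟩, v =>
        show Sat E (imp (φ n b) _) v
        rw [sat_imp]
        intro h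
        exact (h2 n b v h _).1 ⟨a, h1 _ _⟩
    | some ⟨n, b, Sum.inr (Sum.inr _)⟩, v =>
        show Sat E (imp (φ n b) _) v
        rw [sat_imp]
        intro h
        rw [sat_neg, sat_ex]
        rintro ⟨d, hd⟩
        -- `(v, d)` realizes `φ (cons d v)`
        have h3 : Sat E (.ex (φ (n + 1) (Fin.cons d v))) v := ⟨d, h1 _ _⟩
        obtain ⟨a, ha⟩ := (h2 n b v h _).2 h3
        have h4 := h2 _ _ _ ha (φ (n + 1) (Fin.cons a b))
        obtain ⟨k, hk⟩ := hen a
        refine hd k ?_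
        rw [hk]
        exact h4.2 (h1 _ _)
  · have h := (hσ N).1 hN
    constructor
    · exact h none Fin.elim0
    · intro n b c hc r
      have h3 : Sat N (imp (φ n b) (if Sat E (Fml.lin r) b then Fml.lin r
        else Fml.neg (Fml.lin r))) c := h (some ⟨n, b, Sum.inl r⟩) c
      rw [sat_imp] at h3
      have h4 := h3 hc
      show Sat E (Fml.lin r) b ↔ Sat N (Fml.lin r) c
      split_ifs at h4 with h5
      · exact ⟨fun _ => h4, fun _ => h5⟩
      · exact ⟨fun h6 => absurd h6 h5, fun h6 => absurd h6 h4⟩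
    · intro n b c hc a
      have h3 : Sat N (imp (φ n b) (Fml.ex (φ (n + 1) (Fin.cons a b)))) c :=
        h (some ⟨n, b, Sum.inr (Sum.inl a)⟩) c
      rw [sat_imp] at h3
      exact h3 hc
    · intro n b c hc d
      have h3 : Sat N (imp (φ n b) (Fml.neg (Fml.ex (Fml.conj fun k =>
        Fml.neg (φ (n + 1) (Fin.cons (en k) b)))))) c := h (some ⟨n, b, Sum.inr (Sum.inr ())⟩) c
      rw [sat_imp] at h3
      have h4 := h3 hc
      rw [sat_neg, sat_ex] at h4
      by_contra hcon
      push Not at hcon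
      exact h4 ⟨d, fun k => hcon _⟩

end scott

section backforth

variable {A B : Type} [AddCommGroup A] [Module R A] [AddCommGroup B] [Module R B]

theorem sum_single_smul {n : ℕ} (i : Fin n) (c : R) (v : Fin n → A) :
    ∑ m, (Pi.single i c : Fin n → R) m • v m = c • v i := by
  classical
  rw [Finset.sum_eq_single i]
  · rw [Pi.single_eq_same]
  · intro m _ hm
    rw [Pi.single_eq_of_ne hm, zero_smul]
  · intro h
    exact absurd (Finset.mem_univ _) h

/-- The back-and-forth method. -/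
theorem back_forth [Countable A] [Countable B] (P : ∀ n, (Fin n → A) → (Fin n → B) → Prop)
    (h1 : ∀ n v w, P n v w → ∀ r : Fin n → R, (∑ i, r i • v i = 0 ↔ ∑ i, r i • w i = 0))
    (h2 : ∀ n v w, P n v w → ∀ a, ∃ b, P (n + 1) (Fin.cons a v) (Fin.cons b w))
    (h3 : ∀ n v w, P n v w → ∀ b, ∃ a, P (n + 1) (Fin.cons a v) (Fin.cons b w))
    (n : ℕ) (v : Fin n → A) (w : Fin n → B) (h : P n v w) :
    ∃ e : A ≃ₗ[R] B, ∀ i, e (v i) = w i := by
  classical
  obtain ⟨ea, hea⟩ := exists_surjective_nat A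
  obtain ⟨eb, heb⟩ := exists_surjective_nat B
  let St : Type := Σ n, {p : (Fin n → A) × (Fin n → B) // P n p.1 p.2}
  let G : St → Set (A × B) := fun s => Set.range fun i : Fin s.1 => (s.2.1.1 i, s.2.1.2 i)
  have hext : ∀ (s : St) (a : A) (b : B), ∃ s' : St, G s ⊆ G s' ∧ (∃ y, (a, y) ∈ G s') ∧
      ∃ x, (x, b) ∈ G s' := by
    rintro ⟨m, ⟨p, q⟩, hp⟩ a b
    obtain ⟨b', hb'⟩ := h2 m p q hp a
    obtain ⟨a', ha'⟩ := h3 _ _ _ hb' b
    refine ⟨⟨m + 1 + 1, (Fin.cons a' (Fin.cons a p), Fin.cons b (Fin.cons b' q)), ha'⟩, ?_,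
      ⟨b', 1, rfl⟩, ⟨a', 0, rfl⟩⟩
    rintro _ ⟨i, rfl⟩
    exact ⟨i.succ.succ, rfl⟩
  choose st hst1 hst2 hst3 using hext
  let s0 : St := ⟨n, (v, w), h⟩
  let sq : ℕ → St := fun k => Nat.rec s0 (fun k s => st s (ea k) (eb k)) k
  have hsq : ∀ k, sq (k + 1) = st (sq k) (ea k) (eb k) := fun k => rfl
  have hmono : Monotone fun k => G (sq k) := by
    refine monotone_nat_of_le_succ fun k => ?_
    rw [hsq]; exact hst1 _ _ _
  have hlin : ∀ k (i j l : Fin (sq k).1) (r : R),
      ((sq k).2.1.1 i + r • (sq k).2.1.1 j = (sq k).2.1.1 l ↔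
        (sq k).2.1.2 i + r • (sq k).2.1.2 j = (sq k).2.1.2 l) := by
    intro k i j l r
    have h4 := h1 _ _ _ (sq k).2.2 (Pi.single i 1 + Pi.single j r - Pi.single l 1)
    have h5 : ∀ {X : Type} [AddCommGroup X] [Module R X] (u : Fin (sq k).1 → X),
        ∑ m, (Pi.single i 1 + Pi.single j r - Pi.single l 1 : Fin (sq k).1 → R) m • u m =
          u i + r • u j - u l := by
      intro X _ _ u
      simp only [Pi.sub_apply, Pi.add_apply, sub_smul, add_smul, Finset.sum_sub_distrib,
        Finset.sum_add_distrib]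
      rw [sum_single_smul, sum_single_smul, sum_single_smul, one_smul, one_smul]
    rw [h5, h5, sub_eq_zero, sub_eq_zero] at h4
    exact h4
  let U : Set (A × B) := ⋃ k, G (sq k)
  have hU : ∀ x ∈ U, ∀ y ∈ U, ∀ z ∈ U, ∀ r : R, (x.1 + r • y.1 = z.1 ↔ x.2 + r • y.2 = z.2) := by
    intro x hx y hy z hz r
    obtain ⟨k1, hk1⟩ := Set.mem_iUnion.1 hx
    obtain ⟨k2, hk2⟩ := Set.mem_iUnion.1 hy
    obtain ⟨k3, hk3⟩ := Set.mem_iUnion.1 hz
    let k := max k1 (max k2 k3)
    obtain ⟨i, rfl⟩ := hmono (le_max_left _ _ : k1 ≤ k) hk1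
    obtain ⟨j, rfl⟩ := hmono ((le_max_left _ _).trans (le_max_right _ _) : k2 ≤ k) hk2
    obtain ⟨l, rfl⟩ := hmono ((le_max_right _ _).trans (le_max_right _ _) : k3 ≤ k) hk3
    exact hlin k i j l r
  have hf : ∀ a : A, ∃ b, (a, b) ∈ U := by
    intro a
    obtain ⟨k, rfl⟩ := hea a
    obtain ⟨y, hy⟩ := hst2 (sq k) (ea k) (eb k)
    exact ⟨y, Set.mem_iUnion.2 ⟨k + 1, hy⟩⟩
  have hg : ∀ b : B, ∃ a, (a, b) ∈ U := by
    intro b
    obtain ⟨k, rfl⟩ := heb b
    obtain ⟨y, hy⟩ := hst3 (sq k) (ea k) (eb k)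
    exact ⟨y, Set.mem_iUnion.2 ⟨k + 1, hy⟩⟩
  choose f hf using hf
  have huniq : ∀ a b, (a, b) ∈ U → f a = b := by
    intro a b hab
    have := (hU _ (hf a) _ (hf a) _ hab 0).1 (by simp)
    simpa using this
  let F : A →ₗ[R] B :=
    { toFun := f
      map_add' := fun x y => by
        have := (hU _ (hf x) _ (hf y) _ (hf (x + y)) 1).1 (by simp)
        rw [one_smul] at this
        exact this.symm
      map_smul' := fun r x => by
        have h0 : f 0 = 0 := by
          have := (hU _ (hf 0) _ (hf 0) _ (hf 0) 1).1 (by simp)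
          simpa using this
        have := (hU _ (hf 0) _ (hf x) _ (hf (r • x)) r).1 (by simp)
        rw [h0, zero_add] at this
        exact this.symm }
  have hF : Function.Bijective F := by
    constructor
    · rw [injective_iff_map_eq_zero]
      intro x hx
      have hx' : f x = 0 := hx
      have h0 : f 0 = 0 := F.map_zero
      have := (hU _ (hf x) _ (hf 0) _ (hf 0) 1).2 (by
        show f x + (1 : R) • f 0 = f 0
        rw [hx', h0]; simp)
      simpa using this
    · intro b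
      obtain ⟨a, ha⟩ := hg b
      exact ⟨a, huniq a b ha⟩
  refine ⟨LinearEquiv.ofBijective F hF, fun i => huniq _ _ ?_⟩
  exact Set.mem_iUnion.2 ⟨0, i, rfl⟩

variable {E : Type} [AddCommGroup E] [Module R E]

theorem ScottGood.iso {φ : ∀ n, (Fin n → E) → Fml R n} [Countable E] [Countable A] (h : ScottGood φ A)
    {n : ℕ} (b : Fin n → E) (c : Fin n → A) (hc : Sat A (φ n b) c) :
    ∃ e : E ≃ₗ[R] A, ∀ i, e (b i) = c i :=
  back_forth (fun n b c => Sat A (φ n b) c) h.atom h.forth h.back n b c hc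

theorem ScottGood.exists {φ : ∀ n, (Fin n → E) → Fml R n} (h : ScottGood φ A) {n : ℕ} :
    ∀ c : Fin n → A, ∃ b, Sat A (φ n b) c := by
  induction n with
  | zero =>
      intro c
      refine ⟨Fin.elim0, ?_⟩
      have : c = Fin.elim0 := funext fun i => i.elim0
      rw [this]
      exact h.base
  | succ n ih =>
      intro c
      obtain ⟨b, hb⟩ := ih (Fin.tail c)
      obtain ⟨a, ha⟩ := h.back n b _ hb (c 0)
      rw [Fin.cons_self_tail] at ha
      exact ⟨_, ha⟩

/-- closure functions for a model of the Scott sentence -/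
theorem exists_scott_closure (E : Type) [AddCommGroup E] [Module R E] [Countable E] [Countable R]
    (σ : Fml R 0) (φ : ∀ n, (Fin n → E) → Fml R n)
    (hσ : ∀ (N : Type) [AddCommGroup N] [Module R N], Holds σ N → ScottGood φ N)
    (N : Type) [AddCommGroup N] [Module R N] (hN : Holds σ N) :
    ∃ c : Finset N → Set N, (∀ F, (c F).Countable) ∧
      (∀ S : Submodule R N, (S : Set N).Countable → Closed c (S : Set N) →
        Nonempty (S ≃ₗ[R] E)) ∧
      ∀ S T : Submodule R N, (S : Set N).Countable → Closed c (S : Set N) →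
        (T : Set N).Countable → Closed c (T : Set N) → S ≤ T → IsoFix S T := by
  classical
  obtain ⟨c₀, hc₀, h₀⟩ := skolem (N := N) σ
  have h1 : ∀ (p : Σ n, (Fin n → E)), ∃ c : Finset N → Set N, (∀ F, (c F).Countable) ∧
      ∀ S : Submodule R N, Closed c (S : Set N) →
      ∀ v : Fin p.1 → S, Sat S (φ p.1 p.2) v ↔ Sat N (φ p.1 p.2) (fun i => (v i : N)) :=
    fun p => skolem (φ p.1 p.2)
  choose c₁ hc₁ h₁ using h1
  let c : Finset N → Set N := fun F => c₀ F ∪ ⋃ p, c₁ p F
  have hgood : ∀ S : Submodule R N, Closed c (S : Set N) → ScottGood φ S := by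
    intro S hS
    refine hσ S ((h₀ S (fun F hF => Set.subset_union_left.trans (hS F hF)) _).2 ?_)
    have h0 : (fun i : Fin 0 => ((Fin.elim0 i : S) : N)) = (Fin.elim0 : Fin 0 → N) :=
      funext fun i => i.elim0
    rw [h0]
    exact hN
  have habs : ∀ S : Submodule R N, Closed c (S : Set N) → ∀ n (b : Fin n → E) (v : Fin n → S),
      Sat S (φ n b) v ↔ Sat N (φ n b) (fun i => (v i : N)) := by
    intro S hS n b v
    refine h₁ ⟨n, b⟩ S (fun F hF => ?_) v
    exact ((Set.subset_iUnion (fun p => c₁ p F) ⟨n, b⟩).trans Set.subset_union_right).trans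
      (hS F hF)
  refine ⟨c, fun F => (hc₀ F).union (Set.countable_iUnion fun p => hc₁ p F), ?_, ?_⟩
  · intro S hSc hS
    haveI : Countable S := hSc.to_subtype
    obtain ⟨e, -⟩ := (hgood S hS).iso Fin.elim0 Fin.elim0 (hgood S hS).base
    exact ⟨e.symm⟩
  · intro S T hSc hS hTc hT hST F hF
    haveI : Countable S := hSc.to_subtype
    haveI : Countable T := hTc.to_subtype
    -- enumerate `F`
    let en := F.equivFin
    let v : Fin F.card → S := fun i => ⟨(en.symm i : N), hF _ (en.symm i).2⟩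
    obtain ⟨b, hb⟩ := (hgood S hS).exists v
    obtain ⟨eS, heS⟩ := (hgood S hS).iso b v hb
    let w : Fin F.card → T := fun i => ⟨v i, hST (v i).2⟩
    have hb' : Sat T (φ _ b) w := (habs T hT _ b w).2 ((habs S hS _ b v).1 hb)
    obtain ⟨eT, heT⟩ := (hgood T hT).iso b w hb'
    refine ⟨eT.symm.trans eS, fun x hx => ?_⟩
    let i := en ⟨x, hx⟩
    have hi : ((en.symm i : {x // x ∈ F}) : N) = x := by
      show ((en.symm (en ⟨x, hx⟩) : {x // x ∈ F}) : N) = x
      rw [Equiv.symm_apply_apply]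
    have hw : w i = x := Subtype.ext hi
    show ((eS (eT.symm x) : S) : N) = x
    rw [← hw, ← heT i, LinearEquiv.symm_apply_apply, heS i, heT i]

end backforth

end Pool.Agent.Y583.MC
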