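import Pool.Agent.Y583.MD3

set_option autoImplicit false

/-!
Chains of length `ω₁` of countable submodules with nonsplit steps contradict categoricity.
-/

namespace Pool.Agent.Y583.MC

open Cardinal Ordinal

variable {R : Type} [Ring R]

section
variable {N N' : Type} [AddCommGroup N] [Module R N] [AddCommGroup N'] [Module R N']

theorem exists_sub [Countable R] (c : Finset N → Set N) (hc : ∀ F, (c F).Countable) (A : Set N)
    (hA : A.Countable) : ∃ S : Submodule R N, A ⊆ S ∧ (S : Set N).Countable ∧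
      Closed c (S : Set N) := by
  obtain ⟨S, h1, h2, h3, -⟩ := lowenheim (R := R) (N := N) (.lin fun _ => 0) (by
    show (∑ i : Fin 0, _) = _
    simp) c hc ℵ₀ le_rfl A (le_aleph0_iff_set_countable.2 hA)
  exact ⟨S, h1, le_aleph0_iff_set_countable.1 h2, h3⟩

/-- `S` is a direct summand of `T` (for `S ≤ T`) -/
def Summ (S T : Submodule R N) : Prop :=
  ∃ r : T →ₗ[R] N, (∀ x, r x ∈ S) ∧ ∀ x : T, (x : N) ∈ S → r x = x

/-- countable closed submodules -/
def Cb (c : Finset N → Set N) (S : Submodule R N) : Prop :=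
  (S : Set N).Countable ∧ Closed c (S : Set N)

theorem finset_directed {ι : Type} [Nonempty ι] {q : ι → Submodule R N}
    (hq : Directed (· ≤ ·) q) (F : Finset N) (hF : ∀ x ∈ F, x ∈ iSup q) :
    ∃ i, ∀ x ∈ F, x ∈ q i := by
  classical
  induction F using Finset.induction_on with
  | empty => exact ⟨Classical.arbitrary ι, by simp⟩
  | insert a F _ ih =>
      obtain ⟨i, hi⟩ := ih fun x hx => hF x (Finset.mem_insert_of_mem hx)
      obtain ⟨j, hj⟩ := (Submodule.mem_iSup_of_directed q hq).1 (hF a (Finset.mem_insert_self _ _))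
      obtain ⟨k, h1, h2⟩ := hq i j
      refine ⟨k, fun x hx => ?_⟩
      rcases Finset.mem_insert.1 hx with rfl | hx
      · exact h2 hj
      · exact h1 (hi x hx)

theorem cb_iSup {c : Finset N → Set N} {ι : Type} [Nonempty ι] [Countable ι]
    {q : ι → Submodule R N} (hq : Directed (· ≤ ·) q) (h : ∀ i, Cb c (q i)) : Cb c (iSup q) := by
  constructor
  · have : (↑(iSup q) : Set N) = ⋃ i, (q i : Set N) := by
      ext x
      rw [Set.mem_iUnion]
      exact Submodule.mem_iSup_of_directed q hq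
    rw [this]
    exact Set.countable_iUnion fun i => (h i).1
  · intro F hF
    obtain ⟨i, hi⟩ := finset_directed hq F fun x hx => hF hx
    exact ((h i).2 F fun x hx => hi x hx).trans (le_iSup q i)

theorem isoFix_comap {N₁ S T : Submodule R N} (hS : S ≤ N₁) (hT : T ≤ N₁) (h : IsoFix S T) :
    IsoFix (S.comap N₁.subtype) (T.comap N₁.subtype) := by
  classical
  intro F hF
  obtain ⟨e, he⟩ := h (F.image Subtype.val) (by
    intro x hx
    obtain ⟨y, hy, rfl⟩ := Finset.mem_image.1 hx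
    exact hF y hy)
  refine ⟨(Submodule.comapSubtypeEquivOfLe hT).trans (e.trans
    (Submodule.comapSubtypeEquivOfLe hS).symm), fun x hx => ?_⟩
  apply Subtype.ext
  have h1 : (e (Submodule.comapSubtypeEquivOfLe hT x) : N) = (x : N₁) := by
    refine he _ ?_
    exact Finset.mem_image.2 ⟨x, hx, rfl⟩
  rw [← h1]
  show (((Submodule.comapSubtypeEquivOfLe hS).symm
    (e (Submodule.comapSubtypeEquivOfLe hT x)) : N₁) : N) = _
  conv_rhs => rw [← LinearEquiv.apply_symm_apply (Submodule.comapSubtypeEquivOfLe hS)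
    (e (Submodule.comapSubtypeEquivOfLe hT x))]
  rfl

/-- the order type `ω₁` -/
abbrev WW : Type := (ℵ₁ : Cardinal.{0}).ord.ToType

theorem WW_Iio (a : WW) : (Set.Iio a).Countable := by
  have h := Cardinal.mk_Iio_ord_toType a
  rw [← le_aleph0_iff_set_countable, ← Order.lt_succ_iff, succ_aleph0]
  exact h

theorem mk_WW : #WW = ℵ₁ := by rw [mk_ord_toType]

theorem WW_bound (J : Set WW) (hJ : J.Countable) : ∃ a : WW, ∀ b ∈ J, b < a := by
  by_contra hcon
  push Not at hcon
  have h1 : (Set.univ : Set WW) ⊆ ⋃ b ∈ J, (Set.Iio b ∪ {b}) := by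
    intro a _
    obtain ⟨b, hb, hab⟩ := hcon a
    refine Set.mem_iUnion₂.2 ⟨b, hb, ?_⟩
    rcases lt_or_eq_of_le hab with h | h
    · exact Or.inl h
    · exact Or.inr h
  have h2 : (Set.univ : Set WW).Countable := (Set.Countable.biUnion hJ fun b _ =>
    (WW_Iio b).union (Set.countable_singleton b)).mono h1
  rw [Set.countable_univ_iff, ← mk_le_aleph0_iff, mk_WW] at h2
  exact absurd aleph0_lt_aleph_one (not_lt.2 h2)

end

section
variable {ψ : Fml R 0} {μ : Cardinal.{0}} {D₀ C : Type} [AddCommGroup D₀] [Module R D₀]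
  [AddCommGroup C] [Module R C]

theorem no_chain [Countable R] [Countable D₀] [Countable C] [Nontrivial C] (hμ : ℵ₀ < μ)
    (huniq : Uniq ψ μ) (e : C ≃ₗ[R] (ℕ →₀ C)) (hE : Holds ψ (D₀ × C))
    {N : Type} [AddCommGroup N] [Module R N] (c : Finset N → Set N) (hc : ∀ F, (c F).Countable)
    (hcE : ∀ S : Submodule R N, Cb c S → Nonempty (S ≃ₗ[R] (D₀ × C)))
    (hiso : ∀ S T : Submodule R N, Cb c S → Cb c T → S ≤ T → IsoFix S T) :
    ∃ S : Submodule R N, Cb c S ∧ ∀ T : Submodule R N, Cb c T → S ≤ T → Summ S T := by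
  classical
  by_contra hcon
  push Not at hcon
  choose! g hg1 hg2 hg3 using hcon
  obtain ⟨S₀, -, h01, h02⟩ := exists_sub (R := R) c hc ∅ Set.countable_empty
  have h0 : Cb c S₀ := ⟨h01, h02⟩
  -- the chain
  let S : WW → Submodule R N := WellFounded.fix (wellFounded_lt (α := WW))
    fun a ih => S₀ ⊔ ⨆ b : {b // b < a}, g (ih b.1 b.2)
  have hS : ∀ a, S a = S₀ ⊔ ⨆ b : {b // b < a}, g (S b.1) := fun a =>
    WellFounded.fix_eq _ _ _
  let q : Option WW → Submodule R N := fun o => Option.rec S₀ (fun b => g (S b)) o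
  let p : Set WW → Submodule R N := fun J => ⨆ o : Option J, q (o.map Subtype.val)
  have hSp : ∀ a, S a = p (Set.Iio a) := by
    intro a
    rw [hS]
    apply le_antisymm
    · refine sup_le ?_ (iSup_le fun b => ?_)
      · exact le_iSup (fun o : Option (Set.Iio a) => q (o.map Subtype.val)) none
      · exact le_iSup (fun o : Option (Set.Iio a) => q (o.map Subtype.val)) (some ⟨b.1, b.2⟩)
    · refine iSup_le fun o => ?_
      rcases o with _ | b
      · exact le_sup_left
      · exact (le_iSup (fun b : {b // b < a} => g (S b.1)) ⟨b.1, b.2⟩).trans le_sup_right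
  have hgS : ∀ a b, b < a → g (S b) ≤ S a := by
    intro a b hb
    rw [hS a]
    exact (le_iSup (fun b : {b // b < a} => g (S b.1)) ⟨b, hb⟩).trans le_sup_right
  have hS0 : ∀ a, S₀ ≤ S a := by
    intro a
    rw [hS a]
    exact le_sup_left
  -- monotonicity of `q`, on a set of indices whose members are in `Cb`
  have hdir : ∀ J : Set WW, (∀ b ∈ J, Cb c (S b)) →
      Directed (· ≤ ·) fun o : Option J => q (o.map Subtype.val) := by
    intro J hJ o o'
    rcases o with _ | b
    · refine ⟨o', ?_, le_rfl⟩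
      rcases o' with _ | b'
      · exact le_rfl
      · exact (hS0 _).trans (hg2 _ (hJ b'.1 b'.2))
    · rcases o' with _ | b'
      · exact ⟨some b, le_rfl, (hS0 _).trans (hg2 _ (hJ b.1 b.2))⟩
      · rcases lt_trichotomy b.1 b'.1 with h | h | h
        · exact ⟨some b', (hgS _ _ h).trans (hg2 _ (hJ b'.1 b'.2)), le_rfl⟩
        · refine ⟨some b, le_rfl, ?_⟩
          have : b = b' := Subtype.ext h
          rw [this]
        · exact ⟨some b, le_rfl, (hgS _ _ h).trans (hg2 _ (hJ b.1 b.2))⟩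
  have hCp : ∀ J : Set WW, J.Countable → (∀ b ∈ J, Cb c (S b)) → Cb c (p J) := by
    intro J hJc hJ
    haveI : Countable J := hJc.to_subtype
    refine cb_iSup (hdir J hJ) fun o => ?_
    rcases o with _ | b
    · exact h0
    · exact hg1 _ (hJ b.1 b.2)
  have hCb : ∀ a, Cb c (S a) := by
    intro a
    induction a using WellFoundedLT.induction with
    | ind a ih =>
      rw [hSp]
      exact hCp _ (WW_Iio a) ih
  have hgg : ∀ b b', b ≤ b' → g (S b) ≤ g (S b') := by
    intro b b' h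
    rcases lt_or_eq_of_le h with h | rfl
    · exact (hgS _ _ h).trans (hg2 _ (hCb _))
    · exact le_rfl
  have hmem : ∀ (J : Set WW) (x : N), x ∈ p J ↔ ∃ o : Option J, x ∈ q (o.map Subtype.val) :=
    fun J x => Submodule.mem_iSup_of_directed _ (hdir J fun b _ => hCb b)
  have hpmono : ∀ J J' : Set WW, J ⊆ J' → p J ≤ p J' := by
    intro J J' h
    refine iSup_le fun o => ?_
    rcases o with _ | b
    · exact le_iSup (fun o : Option J' => q (o.map Subtype.val)) none
    · exact le_iSup (fun o : Option J' => q (o.map Subtype.val)) (some ⟨b.1, h b.2⟩)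
  have hpS : ∀ J : Set WW, J.Countable → ∃ a, p J = S a := by
    intro J hJ
    obtain ⟨a, ha⟩ := exists_minimal_of_wellFoundedLT (fun a : WW => ∀ b ∈ J, b < a) (WW_bound J hJ)
    refine ⟨a, ?_⟩
    rw [hSp]
    refine le_antisymm (hpmono _ _ fun b hb => ha.prop b hb) (iSup_le fun o => ?_)
    rcases o with _ | b
    · exact le_iSup (fun o : Option J => q (o.map Subtype.val)) none
    · have h1 : ¬ ∀ b' ∈ J, b' < b.1 := by
        intro h
        exact absurd (ha.le_of_le h (le_of_lt b.2)) (not_le.2 b.2)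
      push Not at h1
      obtain ⟨b', hb', hle⟩ := h1
      exact (hgg _ _ hle).trans
        (le_iSup (fun o : Option J => q (o.map Subtype.val)) (some ⟨b', hb'⟩))
  have hnext : ∀ b : WW, ∃ a, b < a := by
    intro b
    obtain ⟨a, ha⟩ := WW_bound {b} (Set.countable_singleton b)
    exact ⟨a, ha b rfl⟩
  -- the union
  let N₁ : Submodule R N := p Set.univ
  have hSN : ∀ a, S a ≤ N₁ := by
    intro a
    rw [hSp]
    exact hpmono _ _ (Set.subset_univ _)
  have hgN : ∀ a, g (S a) ≤ N₁ := by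
    intro a
    exact le_iSup (fun o : Option (Set.univ : Set WW) => q (o.map Subtype.val))
      (some ⟨a, trivial⟩)
  have hcov : ∀ x ∈ N₁, ∃ a, x ∈ S a := by
    intro x hx
    obtain ⟨o, ho⟩ := (hmem _ _).1 hx
    rcases o with _ | b
    · obtain ⟨a, -⟩ := WW_bound ∅ Set.countable_empty
      exact ⟨a, hS0 a ho⟩
    · obtain ⟨a, ha⟩ := hnext b.1
      exact ⟨a, hgS _ _ ha ho⟩
  have hSmono : ∀ a b, a ≤ b → S a ≤ S b := by
    intro a b h
    rw [hSp, hSp]
    exact hpmono _ _ fun x hx => lt_of_lt_of_le hx h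
  have hsim : Sim R (D₀ × C) N₁ := by
    refine ⟨{T | ∃ a, T = (S a).comap N₁.subtype}, ?_, ?_, ?_, ?_⟩
    · rintro _ ⟨a, rfl⟩ _ ⟨b, rfl⟩
      exact ⟨_, ⟨max a b, rfl⟩, Submodule.comap_mono (hSmono _ _ (le_max_left _ _)),
        Submodule.comap_mono (hSmono _ _ (le_max_right _ _))⟩
    · intro x
      obtain ⟨a, ha⟩ := hcov x.1 x.2
      exact ⟨_, ⟨a, rfl⟩, ha⟩
    · rintro _ ⟨a, rfl⟩
      obtain ⟨k⟩ := hcE (S a) (hCb a)
      exact ⟨(Submodule.comapSubtypeEquivOfLe (hSN a)).trans k⟩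
    · rintro _ ⟨a, rfl⟩ _ ⟨b, rfl⟩ hle
      refine isoFix_comap (hSN a) (hSN b) (hiso _ _ (hCb a) (hCb b) fun x hx => ?_)
      exact hle (show (⟨x, hSN a hx⟩ : N₁) ∈ (S a).comap N₁.subtype from hx)
  let P : Set WW → Submodule R N₁ := fun J => (p J).comap N₁.subtype
  have hsys : Sys P := by
    constructor
    · intro J J' h
      exact Submodule.comap_mono (hpmono _ _ h)
    · intro J x hx
      obtain ⟨o, ho⟩ := (hmem _ _).1 hx
      rcases o with _ | b
      · exact ⟨∅, by simp, le_iSup (fun o : Option ((↑(∅ : Finset WW)) : Set WW) =>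
          q (o.map Subtype.val)) none ho⟩
      · refine ⟨{b.1}, by simp, ?_⟩
        exact le_iSup (fun o : Option ((↑({b.1} : Finset WW)) : Set WW) =>
          q (o.map Subtype.val)) (some ⟨b.1, by simp⟩) ho
    · intro x
      exact x.2
    · intro J hJ
      have h1 := (hCp J hJ fun b _ => hCb b).1
      exact h1.preimage Subtype.val_injective
  -- the model
  let I : Type := μ.out
  have hI : #I = μ := mk_out μ
  haveI : Infinite I := infinite_iff.2 (by rw [hI]; exact hμ.le)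
  obtain ⟨h1, h2⟩ := model_I (I := I) e hE
  obtain ⟨a⟩ : Nonempty ((C × C) ≃ₗ[R] C) := absorb e LinearMap.id LinearMap.id fun _ => rfl
  let b : ((D₀ × C) × C) ≃ₗ[R] (D₀ × C) :=
    { toFun := fun x => (x.1.1, a (x.1.2, x.2))
      invFun := fun y => ((y.1, (a.symm y.2).1), (a.symm y.2).2)
      left_inv := fun x => by simp
      right_inv := fun y => by simp
      map_add' := fun x y => by
        refine Prod.ext rfl ?_
        show a (x.1.2 + y.1.2, x.2 + y.2) = a (x.1.2, x.2) + a (y.1.2, y.2)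
        rw [← map_add]; rfl
      map_smul' := fun r x => by
        refine Prod.ext rfl ?_
        show a (r • x.1.2, r • x.2) = r • a (x.1.2, x.2)
        rw [← map_smul]; rfl }
  have h3 : Holds ψ (N₁ × (I →₀ C)) :=
    (sim_holds ((hsim.prod (like_pow' e I)).congr b) ψ).2 hE
  have h5 : #N₁ ≤ ℵ₁ := by
    have : (Set.univ : Set N₁) ⊆ ⋃ a : WW, ((S a).comap N₁.subtype : Set N₁) := by
      intro x _
      obtain ⟨a, ha⟩ := hcov x.1 x.2
      exact Set.mem_iUnion.2 ⟨a, ha⟩
    rw [← mk_univ]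
    refine (mk_le_mk_of_subset this).trans ((mk_iUnion_le _).trans ?_)
    have h6 : (⨆ a : WW, #(((S a).comap N₁.subtype : Submodule R N₁) : Set N₁)) ≤ ℵ₀ :=
      ciSup_le' fun a => le_aleph0_iff_set_countable.2
        ((hCb a).1.preimage Subtype.val_injective)
    refine (mul_le_mul' le_rfl h6).trans ?_
    rw [mk_WW]
    exact (mul_eq_left (aleph0_le_aleph 1) (aleph0_le_aleph 1) aleph0_ne_zero).le
  have h4 : #(N₁ × (I →₀ C)) = μ := by
    rw [mk_prod, Cardinal.lift_id, Cardinal.lift_id, mk_pow', hI]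
    refine mul_eq_right hμ.le (h5.trans ?_) (mk_ne_zero _)
    rw [← succ_aleph0]
    exact Order.succ_le_of_lt hμ
  obtain ⟨Θ⟩ := huniq _ _ h4 (h2.trans hI) h3 h1
  obtain ⟨J, J', -, -, k3, -, k5⟩ := interlace
    (sys_prod2 hsys (sys_supported (R := R) I C))
    ((sys_prod D₀ I _ (sys_supported (R := R) I C)).comap Θ) ∅ ∅ Set.countable_empty
    Set.countable_empty
  obtain ⟨r₀, hr₀, hr₀'⟩ := ret_prodSupported (R := R) D₀ I C J'
  let J₁ : Set WW := Sum.inl ⁻¹' J
  have k5' : ((P J₁).prod (Finsupp.supported C R (Sum.inr ⁻¹' J : Set I))) =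
      ((⊤ : Submodule R D₀).prod (Finsupp.supported C R J')).comap
        (Θ : (N₁ × (I →₀ C)) →ₗ[R] (D₀ × (I →₀ C))) := k5
  let R₁ : (N₁ × (I →₀ C)) →ₗ[R] (N₁ × (I →₀ C)) :=
    (Θ.symm : (D₀ × (I →₀ C)) →ₗ[R] (N₁ × (I →₀ C))) ∘ₗ r₀ ∘ₗ
      (Θ : (N₁ × (I →₀ C)) →ₗ[R] (D₀ × (I →₀ C)))
  have hR1 : ∀ x, R₁ x ∈ (P J₁).prod (Finsupp.supported C R (Sum.inr ⁻¹' J : Set I)) := by
    intro x
    rw [k5', Submodule.mem_comap]
    show Θ (Θ.symm (r₀ (Θ x))) ∈ _
    rw [LinearEquiv.apply_symm_apply]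
    exact hr₀ _
  have hR2 : ∀ x ∈ (P J₁).prod (Finsupp.supported C R (Sum.inr ⁻¹' J : Set I)), R₁ x = x := by
    intro x hx
    rw [k5', Submodule.mem_comap] at hx
    show Θ.symm (r₀ (Θ x)) = x
    have h9 : r₀ (Θ x) = Θ x := hr₀' _ hx
    rw [h9, LinearEquiv.symm_apply_apply]
  obtain ⟨α, hα⟩ := hpS J₁ (k3.preimage Sum.inl_injective)
  refine hg3 (S α) (hCb α) ⟨N₁.subtype ∘ₗ LinearMap.fst R _ _ ∘ₗ R₁ ∘ₗ
    LinearMap.inl R N₁ (I →₀ C) ∘ₗ Submodule.inclusion (hgN α), fun x => ?_, fun x hx => ?_⟩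
  · have h6 : ((R₁ (Submodule.inclusion (hgN α) x, 0)).1 : N) ∈ p J₁ := (hR1 _).1
    rw [hα] at h6
    exact h6
  · show ((R₁ (Submodule.inclusion (hgN α) x, 0)).1 : N) = x
    rw [hR2]
    · rfl
    · refine ⟨?_, Submodule.zero_mem _⟩
      show (x : N) ∈ p J₁
      rw [hα]
      exact hx

end

end Pool.Agent.Y583.MC
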