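import Pool.Agent.Y583.MD4

set_option autoImplicit false

/-!
The structure of all models of the Scott sentence.
-/

namespace Pool.Agent.Y583.MC

open Cardinal

variable {R : Type} [Ring R]

theorem Nice.congr {D S T : Type} [AddCommGroup D] [Module R D] [AddCommGroup S] [Module R S]
    [AddCommGroup T] [Module R T] (h : Nice R D S) (f : S ≃ₗ[R] T) : Nice R D T := by
  obtain ⟨i, p, hp⟩ := h
  exact ⟨i ∘ₗ f.symm.toLinearMap, f.toLinearMap ∘ₗ p, fun s => by simp [hp]⟩

section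
variable {N : Type} [AddCommGroup N] [Module R N]

/-- the image of `T` in `N ⧸ S` as a complement of `S` in `T` -/
theorem exists_compl {S T : Submodule R N} (hST : S ≤ T) (r : T →ₗ[R] N) (hr : ∀ x, r x ∈ S)
    (hr' : ∀ x : T, (x : N) ∈ S → r x = x) :
    ∃ (p : T →ₗ[R] S) (k : LinearMap.ker p ≃ₗ[R] T.map S.mkQ),
      (∀ s : S, p (Submodule.inclusion hST s) = s) ∧
      ∀ z : LinearMap.ker p, (k z : N ⧸ S) = S.mkQ ((z : T) : N) := by
  let p : T →ₗ[R] S := LinearMap.codRestrict S r hr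
  have hp : ∀ s : S, p (Submodule.inclusion hST s) = s := by
    intro s
    apply Subtype.ext
    exact hr' _ s.2
  let k₀ : LinearMap.ker p →ₗ[R] T.map S.mkQ :=
    LinearMap.codRestrict _ (S.mkQ ∘ₗ T.subtype ∘ₗ (LinearMap.ker p).subtype)
      (fun z => ⟨z.1.1, z.1.2, rfl⟩)
  have hk : Function.Bijective k₀ := by
    constructor
    · rw [injective_iff_map_eq_zero]
      intro z hz
      have h1 : S.mkQ ((z : T) : N) = 0 := congrArg Subtype.val hz
      rw [Submodule.mkQ_apply, Submodule.Quotient.mk_eq_zero] at h1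
      have h2 : r z = ((z : T) : N) := hr' z.1 h1
      have h3 : p z = 0 := z.2
      have h4 : r z = 0 := congrArg Subtype.val h3
      apply Subtype.ext
      apply Subtype.ext
      rw [← h2, h4]; rfl
    · rintro ⟨_, t, ht, rfl⟩
      let t' : T := ⟨t, ht⟩
      refine ⟨⟨t' - Submodule.inclusion hST (p t'), ?_⟩, ?_⟩
      · rw [LinearMap.mem_ker, map_sub, hp, sub_self]
      · apply Subtype.ext
        show S.mkQ (t - (p t' : N)) = S.mkQ t
        rw [map_sub, sub_eq_self, Submodule.mkQ_apply, Submodule.Quotient.mk_eq_zero]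
        exact (p t').2
  exact ⟨p, LinearEquiv.ofBijective k₀ hk, hp, fun z => rfl⟩

end

section
variable {ψ : Fml R 0} {μ : Cardinal.{0}} {D₀ C : Type} [AddCommGroup D₀] [Module R D₀]
  [AddCommGroup C] [Module R C]

theorem structure_of_scott [Countable R] [Countable D₀] [Countable C] [Nontrivial C] (hμ : ℵ₀ < μ)
    (huniq : Uniq ψ μ) (e : C ≃ₗ[R] (ℕ →₀ C)) (hE : Holds ψ (D₀ × C))
    {D : Type} [AddCommGroup D] [Module R D] {z : D} [Countable D] (hloc : Loc R D z)
    (hTD : TP R (ℕ →₀ D)) (ε : (ℕ →₀ D) ≃ₗ[R] C)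
    (hss : ∀ (Z : Type) [AddCommGroup Z] [Module R Z], Nice R D Z → Nontrivial Z →
        ∃ t : D →ₗ[R] Z, t z ≠ 0)
    {N : Type} [AddCommGroup N] [Module R N] (c : Finset N → Set N) (hc : ∀ F, (c F).Countable)
    (hcE : ∀ S : Submodule R N, Cb c S → Nonempty (S ≃ₗ[R] (D₀ × C)))
    (hiso : ∀ S T : Submodule R N, Cb c S → Cb c T → S ≤ T → IsoFix S T) :
    ∃ κ : Type, Infinite κ ∧ Nonempty (N ≃ₗ[R] (D₀ × (κ →₀ D))) := by
  classical
  obtain ⟨S, hS, hsum⟩ := no_chain hμ huniq e hE c hc hcE hiso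
  obtain ⟨kS⟩ := hcE S hS
  let π : N →ₗ[R] (N ⧸ S) := S.mkQ
  have hπ : Function.Surjective π := Submodule.mkQ_surjective S
  let s : (N ⧸ S) → N := Function.surjInv hπ
  have hs : ∀ x, π (s x) = x := Function.surjInv_eq hπ
  -- closed submodules above `S`
  have hT : ∀ T : Submodule R N, Cb c T → S ≤ T → Nice R D (T.map π) := by
    intro T hT hST
    obtain ⟨r, hr, hr'⟩ := hsum T hT hST
    obtain ⟨p, k, hp, -⟩ := exists_compl hST r hr hr'
    refine Nice.congr ?_ k
    by_cases hZ : Nontrivial (LinearMap.ker p)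
    · haveI : Countable T := hT.1.to_subtype
      haveI : Countable (LinearMap.ker p) := Subtype.countable
      have hab : Ab R S (LinearMap.ker p) := by
        intro F
        obtain ⟨ε', hε'⟩ := hiso S T hS hT hST (F.image Subtype.val) (by
          intro x hx
          obtain ⟨y, -, rfl⟩ := Finset.mem_image.1 hx
          exact y.2)
        refine ⟨(splitEquiv (Submodule.inclusion hST) p hp).symm.trans ε', fun x hx => ?_⟩
        apply Subtype.ext
        have h1 : (splitEquiv (Submodule.inclusion hST) p hp).symm (x, 0) =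
            Submodule.inclusion hST x := by
          show Submodule.inclusion hST x + ((0 : LinearMap.ker p) : T) = _
          simp
        show ((ε' ((splitEquiv (Submodule.inclusion hST) p hp).symm (x, 0)) : S) : N) = x
        rw [h1]
        exact hε' _ (Finset.mem_image_of_mem _ hx)
      obtain ⟨a⟩ := absorbed hμ huniq e hE (LinearMap.ker p) (hab.congr kS)
      let b : (ℕ →₀ LinearMap.ker p) ≃ₗ[R] (ℕ →₀ D) := a.trans ε.symm
      exact ⟨b.toLinearMap ∘ₗ Finsupp.lsingle 0, Finsupp.lapply 0 ∘ₗ b.symm.toLinearMap,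
        fun z => by simp⟩
    · rw [not_nontrivial_iff_subsingleton] at hZ
      exact ⟨0, 0, fun s => Subsingleton.elim _ _⟩
  have hex : ∀ A : Set N, A.Countable → ∀ c' : Finset N → Set N, (∀ F, (c' F).Countable) →
      ∃ T : Submodule R N, Cb c T ∧ S ≤ T ∧ A ⊆ T ∧ Closed c' (T : Set N) := by
    intro A hA c' hc'
    obtain ⟨T, h1, h2, h3⟩ := exists_sub (R := R) (fun F => c F ∪ c' F)
      (fun F => (hc F).union (hc' F)) (A ∪ S) (hA.union hS.1)
    exact ⟨T, ⟨h2, fun F hF => Set.subset_union_left.trans (h3 F hF)⟩,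
      Set.subset_union_right.trans h1, Set.subset_union_left.trans h1,
      fun F hF => Set.subset_union_right.trans (h3 F hF)⟩
  have hCl : Cl R D (N ⧸ S) := by
    intro c' hc' A hA
    obtain ⟨T, h1, h2, h3, h4⟩ := hex (s '' A) (hA.image _) (fun F => ⋃ x ∈ F, s '' (c' (π x)))
      (fun F => Set.Countable.biUnion F.countable_toSet fun x _ => (hc' _).image _)
    refine ⟨T.map π, fun a ha => ?_, ?_, hT T h1 h2⟩
    · exact ⟨s a, h3 ⟨a, ha, rfl⟩, hs a⟩
    · rintro _ ⟨t, ht, rfl⟩ y hy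
      refine ⟨s y, h4 {t} (by simpa using ht) ?_, hs y⟩
      simp only [Finset.mem_singleton, Set.iUnion_iUnion_eq_left]
      exact ⟨y, hy, rfl⟩
  obtain ⟨ι, ⟨b⟩⟩ := basis hloc hTD hss hCl
  -- the splitting
  have hv : ∀ i : ι, ∃ v : D →ₗ[R] N, ∀ d, π (v d) = b.symm (Finsupp.single i d) := by
    intro i
    obtain ⟨T, h1, h2, h3, -⟩ := hex (Set.range fun d : D => s (b.symm (Finsupp.single i d)))
      (Set.countable_range _) (fun _ => ∅) (fun _ => Set.countable_empty)
    obtain ⟨r, hr, hr'⟩ := hsum T h1 h2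
    obtain ⟨p, k, hp, hk⟩ := exists_compl h2 r hr hr'
    let u : D →ₗ[R] T.map π := LinearMap.codRestrict _ (b.symm.toLinearMap ∘ₗ Finsupp.lsingle i)
      (fun d => ⟨s (b.symm (Finsupp.single i d)), h3 ⟨d, rfl⟩, hs _⟩)
    refine ⟨T.subtype ∘ₗ (LinearMap.ker p).subtype ∘ₗ k.symm.toLinearMap ∘ₗ u, fun d => ?_⟩
    have h5 := hk (k.symm (u d))
    rw [LinearEquiv.apply_symm_apply] at h5
    exact h5.symm
  choose v hv using hv
  let L : (ι →₀ D) →ₗ[R] N := Finsupp.lsum ℕ v
  have hL : ∀ w, π (L w) = b.symm w := by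
    intro w
    have : π ∘ₗ L = b.symm.toLinearMap := by
      refine Finsupp.lhom_ext fun i d => ?_
      rw [LinearMap.comp_apply]
      show π (Finsupp.lsum ℕ v (Finsupp.single i d)) = _
      rw [Finsupp.lsum_single, hv]
      rfl
    exact LinearMap.congr_fun this w
  let σ : (N ⧸ S) →ₗ[R] N := L ∘ₗ b.toLinearMap
  have hσ : ∀ x, π (σ x) = x := by
    intro x
    show π (L (b x)) = x
    rw [hL, LinearEquiv.symm_apply_apply]
  let k1 := splitEquiv σ π hσ
  let k2 : LinearMap.ker π ≃ₗ[R] S := LinearEquiv.ofEq _ _ (Submodule.ker_mkQ S)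
  let k3 : (ℕ ⊕ ι →₀ D) ≃ₗ[R] ((ℕ →₀ D) × (ι →₀ D)) := Finsupp.sumFinsuppLEquivProdFinsupp R
  let k4 : ((ι →₀ D) × (D₀ × (ℕ →₀ D))) ≃ₗ[R] (D₀ × ((ℕ →₀ D) × (ι →₀ D))) :=
    { toFun := fun x => (x.2.1, (x.2.2, x.1))
      invFun := fun x => (x.2.2, (x.1, x.2.1))
      left_inv := fun x => rfl
      right_inv := fun x => rfl
      map_add' := fun x y => rfl
      map_smul' := fun r x => rfl }
  refine ⟨ℕ ⊕ ι, inferInstance, ⟨k1.trans ((LinearEquiv.prodCongr b (k2.trans (kS.trans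
    (LinearEquiv.prodCongr (LinearEquiv.refl R D₀) ε.symm)))).trans (k4.trans
    (LinearEquiv.prodCongr (LinearEquiv.refl R D₀) k3.symm)))⟩⟩

end

end Pool.Agent.Y583.MC
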