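import Pool.Agent.W879.SC.ER
import Pool.Agent.Y583.MD5

set_option autoImplicit false

/-!
Indiscernible sequences for countably many colourings with finite supports.
-/

namespace Pool.Agent.Y583.MC

open Cardinal Ordinal Filter

theorem template {N : Type} (hN : ℶ_ (ω_ 1) ≤ #N) (Q : Type) [Countable Q] [Nonempty Q]
    (J : Type) [LinearOrder J] (χ : Q → (J → N) → ℕ) (supp : Q → Finset J)
    (hs : ∀ q (x y : J → N), (∀ j ∈ supp q, x j = y j) → χ q x = χ q y) :
    ∃ (𝒰 : Ultrafilter (Finset J × ℕ)) (e : Finset J × ℕ → J → N) (Φ : Q → ℕ),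
      (∀ q (s : J → J), StrictMono s →
        ∀ᶠ D in (𝒰 : Filter (Finset J × ℕ)), χ q (e D ∘ s) = Φ q) ∧
      ∀ j j', j ≠ j' → ∀ᶠ D in (𝒰 : Filter (Finset J × ℕ)), e D j ≠ e D j' := by
  classical
  letI : LinearOrder N := linearOrderOfSTO WellOrderingRel
  have hNne : Nonempty N := by
    rw [← Cardinal.mk_ne_zero_iff]
    intro h
    rw [h, le_zero_iff] at hN
    exact (Cardinal.aleph0_pos.trans_le (aleph0_le_beth _)).ne' hN
  obtain ⟨n0⟩ := hNne
  obtain ⟨en, hen⟩ := exists_surjective_nat Q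
  -- the index of an element of the support
  have hpos : ∀ (F : Finset J) (s : Finset N) (h : s.card = F.card),
      ∃ x : J → N, ∀ i : Fin F.card, x (F.orderEmbOfFin rfl i) = s.orderEmbOfFin h i := by
    intro F s h
    refine ⟨fun j => if hj : j ∈ F then
      s.orderEmbOfFin h ((F.orderIsoOfFin rfl).symm ⟨j, hj⟩) else n0, fun i => ?_⟩
    have hj : F.orderEmbOfFin rfl i ∈ F := Finset.orderEmbOfFin_mem _ _ _
    show (if hj : F.orderEmbOfFin rfl i ∈ F then _ else _) = _
    rw [dif_pos hj]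
    congr 1
    rw [OrderIso.symm_apply_eq]
    apply Subtype.ext
    rfl
  choose xx hxx using hpos
  let c : ∀ _ : Ordinal.{0}, ℕ → Finset N → ℕ := fun _ n s =>
    if h : s.card = (supp (en n)).card then χ (en n) (xx _ s h) else 0
  obtain ⟨Φ, hΦ⟩ := Pool.Agent.W879.SC.exists_template (fun _ => N) (fun α hα =>
    (beth_mono hα.le).trans hN) (fun n => (supp (en n)).card) c
  have hch : ∀ D : Finset J × ℕ, ∃ e : J → N,
      StrictMonoOn e D.1 ∧ ∀ n, n < D.2 → ∀ s : J → J, StrictMono s →
        (∀ j ∈ supp (en n), s j ∈ D.1) → χ (en n) (e ∘ s) = Φ n := by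
    rintro ⟨F, m⟩
    obtain ⟨α, hα, H, hH, hHc⟩ := hΦ m 0 (Ordinal.omega_pos 1)
    rw [beth_zero] at hH
    have hinf : H.Infinite := by
      rw [← Set.infinite_coe_iff, Cardinal.infinite_iff]
      exact hH
    obtain ⟨t, htH, ht⟩ := hinf.exists_subset_card_eq F.card
    let e : J → N := fun j => if h : j ∈ F then
      t.orderEmbOfFin ht ((F.orderIsoOfFin rfl).symm ⟨j, h⟩) else n0
    have he : ∀ j (h : j ∈ F), e j = t.orderEmbOfFin ht ((F.orderIsoOfFin rfl).symm ⟨j, h⟩) :=
      fun j h => dif_pos h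
    have hmono : StrictMonoOn e F := by
      intro j hj j' hj' hjj
      rw [he j hj, he j' hj']
      exact (t.orderEmbOfFin ht).strictMono ((F.orderIsoOfFin rfl).symm.strictMono hjj)
    refine ⟨e, hmono, fun n hn s hsm hsF => ?_⟩
    let G := supp (en n)
    let u : Fin G.card → N := fun i => e (s (G.orderEmbOfFin rfl i))
    have humono : StrictMono u := by
      intro i i' hii
      exact hmono (hsF _ (Finset.orderEmbOfFin_mem _ _ _)) (hsF _ (Finset.orderEmbOfFin_mem _ _ _))
        (hsm ((G.orderEmbOfFin rfl).strictMono hii))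
    let t' : Finset N := Finset.univ.image u
    have ht' : t'.card = G.card := by
      rw [Finset.card_image_of_injective _ humono.injective, Finset.card_univ, Fintype.card_fin]
    have h1 := hHc n hn t' (by
      intro y hy
      obtain ⟨i, -, rfl⟩ := Finset.mem_image.1 hy
      refine htH ?_
      show e (s (G.orderEmbOfFin rfl i)) ∈ t
      rw [he _ (hsF _ (Finset.orderEmbOfFin_mem _ _ _))]
      exact Finset.orderEmbOfFin_mem _ _ _) ht'
    have h2 : u = t'.orderEmbOfFin ht' :=
      Finset.orderEmbOfFin_unique ht' (fun i => Finset.mem_image_of_mem u (Finset.mem_univ i))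
        humono
    have h3 : c α n t' = χ (en n) (xx _ t' ht') := dif_pos ht'
    rw [← h1, h3]
    refine hs _ _ _ fun j hj => ?_
    obtain ⟨i, rfl⟩ : ∃ i, G.orderEmbOfFin rfl i = j := by
      have : j ∈ Set.range (G.orderEmbOfFin rfl) := by
        rw [Finset.range_orderEmbOfFin]; exact hj
      exact this
    have h4 := hxx G t' ht' i
    refine Eq.trans ?_ h4.symm
    rw [← h2]
    rfl
  choose e he1 he2 using hch
  let 𝒰 : Ultrafilter (Finset J × ℕ) := Ultrafilter.of atTop
  have h𝒰 : (𝒰 : Filter (Finset J × ℕ)) ≤ atTop := Ultrafilter.of_le _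
  have hev : ∀ D0 : Finset J × ℕ, ∀ᶠ D in (𝒰 : Filter (Finset J × ℕ)), D0 ≤ D := fun D0 =>
    h𝒰 (eventually_ge_atTop D0)
  choose nn hnn using hen
  refine ⟨𝒰, e, fun q => Φ (nn q), fun q s hsm => ?_, fun j j' hjj => ?_⟩
  · refine (hev ((supp q).image s, nn q + 1)).mono fun D hD => ?_
    have h5 := he2 D (nn q) (Nat.lt_of_succ_le hD.2) s hsm (fun j hj => by
      rw [hnn q] at hj
      exact hD.1 (Finset.mem_image_of_mem s hj))
    rw [hnn q] at h5
    exact h5
  · refine (hev ({j, j'}, 0)).mono fun D hD => ?_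
    intro h
    exact hjj ((he1 D).injOn (hD.1 (by simp)) (hD.1 (by simp)) h)

end Pool.Agent.Y583.MC
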