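import Pool.Agent.Y583.ME1

set_option autoImplicit false

/-!
Functions of finitely many variables generated by countably many operations; the module of germs
along an ultrafilter and the truth of formulas in it.
-/

namespace Pool.Agent.Y583.MC

open Filter

variable {R : Type} [Ring R]

section gen

variable {J N : Type}

/-- the functions generated by the operations in `𝓕` -/
inductive Gen (𝓕 : Set (Σ k : ℕ, (Fin k → N) → N)) : ((J → N) → N) → Prop
  | proj (j : J) : Gen 𝓕 (fun x => x j)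
  | app (f : Σ k : ℕ, (Fin k → N) → N) (hf : f ∈ 𝓕) (g : Fin f.1 → ((J → N) → N))
      (hg : ∀ i, Gen 𝓕 (g i)) : Gen 𝓕 (fun x => f.2 fun i => g i x)

theorem Gen.rename {𝓕 : Set (Σ k : ℕ, (Fin k → N) → N)} {t : (J → N) → N} (h : Gen 𝓕 t)
    (ρ : J → J) : Gen 𝓕 (fun x : J → N => t (x ∘ ρ)) := by
  induction h with
  | proj j => exact Gen.proj (ρ j)
  | app f hf g _ ih => exact Gen.app f hf (fun i x => g i (x ∘ ρ)) ih

theorem Gen.supp {𝓕 : Set (Σ k : ℕ, (Fin k → N) → N)} {t : (J → N) → N} (h : Gen 𝓕 t) :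
    ∃ F : Finset J, ∀ x y : J → N, (∀ j ∈ F, x j = y j) → t x = t y := by
  classical
  induction h with
  | proj j => exact ⟨{j}, fun x y h => h j (Finset.mem_singleton_self j)⟩
  | app f hf g _ ih =>
      choose F hF using ih
      refine ⟨Finset.univ.biUnion F, fun x y h => ?_⟩
      have h1 : (fun i => g i x) = fun i => g i y := funext fun i =>
        hF i x y fun j hj => h j (Finset.mem_biUnion.2 ⟨i, Finset.mem_univ _, hj⟩)
      show f.2 (fun i => g i x) = f.2 (fun i => g i y)
      rw [h1]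

theorem gen_countable [Countable J] (𝓕 : Set (Σ k : ℕ, (Fin k → N) → N)) (h𝓕 : 𝓕.Countable) :
    {t : (J → N) → N | Gen 𝓕 t}.Countable := by
  classical
  let c : Finset ((J → N) → N) → Set ((J → N) → N) := fun G =>
    ⋃ f ∈ 𝓕, (fun (g : Fin f.1 → ((J → N) → N)) => fun x => f.2 fun i => g i x) ''
      {g | ∀ i, g i ∈ G}
  have hc : ∀ G, (c G).Countable := by
    intro G
    refine Set.Countable.biUnion h𝓕 fun f _ => Set.Countable.image ?_ _
    have : {g : Fin f.1 → ((J → N) → N) | ∀ i, g i ∈ G} =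
        Set.pi Set.univ fun _ => (↑G : Set ((J → N) → N)) := by
      ext g; simp
    rw [this]
    exact (Set.Finite.pi fun _ => G.finite_toSet).countable
  obtain ⟨W, h1, h2, h3⟩ := exists_closed_countable c hc (Set.range fun (j : J) (x : J → N) => x j)
    (Set.countable_range _)
  refine h2.mono fun t ht => ?_
  have ht' : Gen 𝓕 t := ht
  induction ht' with
  | proj j => exact h1 ⟨j, rfl⟩
  | app f hf g hg ih =>
      refine h3 (Finset.univ.image g) ?_ (Set.mem_biUnion hf ⟨g, fun i =>
        Finset.mem_image_of_mem g (Finset.mem_univ i), rfl⟩)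
      intro y hy
      simp only [Finset.coe_image, Finset.coe_univ, Set.image_univ, Set.mem_range] at hy
      obtain ⟨i, rfl⟩ := hy
      exact ih i (hg i)

end gen

section los

variable {I J N : Type} [AddCommGroup N] [Module R N]

/-- the functions that vanish almost everywhere -/
def Zs (𝒰 : Ultrafilter I) (e : I → J → N) (T : Submodule R ((J → N) → N)) : Submodule R T where
  carrier := {t | ∀ᶠ D in (𝒰 : Filter I), t.1 (e D) = 0}
  add_mem' := by
    intro s t hs ht
    filter_upwards [hs, ht] with D h1 h2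
    show s.1 (e D) + t.1 (e D) = 0
    rw [h1, h2, add_zero]
  zero_mem' := Eventually.of_forall fun D => rfl
  smul_mem' := by
    intro r t ht
    filter_upwards [ht] with D h
    show r • t.1 (e D) = 0
    rw [h, smul_zero]

theorem mem_Zs {𝒰 : Ultrafilter I} {e : I → J → N} {T : Submodule R ((J → N) → N)} {t : T} :
    t ∈ Zs 𝒰 e T ↔ ∀ᶠ D in (𝒰 : Filter I), t.1 (e D) = 0 := Iff.rfl

theorem los (N : Type) [AddCommGroup N] [Module R N] {n : ℕ} (φ : Fml R n) :
    ∃ (𝓕 : Set (Σ k : ℕ, (Fin k → N) → N)) (𝒞 : Set (Σ k : ℕ, (Fin k → N) → ℕ)), 𝓕.Countable ∧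
      𝒞.Countable ∧ ∀ (I J : Type) (𝒰 : Ultrafilter I) (e : I → J → N)
      (T : Submodule R ((J → N) → N)),
      (∀ f ∈ 𝓕, ∀ g : Fin f.1 → T, (fun x => f.2 fun i => (g i).1 x) ∈ T) →
      (∀ χ ∈ 𝒞, ∀ g : Fin χ.1 → T, ∃ z, ∀ᶠ D in (𝒰 : Filter I),
        χ.2 (fun i => (g i).1 (e D)) = z) →
      ∀ v : Fin n → T, Sat (T ⧸ Zs 𝒰 e T) φ (fun i => Submodule.Quotient.mk (v i)) ↔
        ∀ᶠ D in (𝒰 : Filter I), Sat N φ (fun i => (v i).1 (e D)) := by
  classical
  induction φ with
  | @lin n r =>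
      refine ⟨∅, ∅, Set.countable_empty, Set.countable_empty, fun I J 𝒰 e T _ _ v => ?_⟩
      show (∑ i, r i • (Submodule.Quotient.mk (v i) : T ⧸ Zs 𝒰 e T) = 0) ↔
        ∀ᶠ D in (𝒰 : Filter I), ∑ i, r i • (v i).1 (e D) = 0
      have h1 : ∑ i, r i • (Submodule.Quotient.mk (v i) : T ⧸ Zs 𝒰 e T) =
          (Zs 𝒰 e T).mkQ (∑ i, r i • v i) := by
        rw [map_sum]
        refine Finset.sum_congr rfl fun i _ => ?_
        rw [map_smul]; rfl
      rw [h1, Submodule.mkQ_apply, Submodule.Quotient.mk_eq_zero, mem_Zs]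
      have h2 : ∀ D, (∑ i, r i • v i : T).1 (e D) = ∑ i, r i • (v i).1 (e D) := by
        intro D
        rw [AddSubmonoidClass.coe_finsetSum, Finset.sum_apply]
        rfl
      simp only [h2]
  | neg φ ih =>
      obtain ⟨𝓕, 𝒞, h1, h2, h⟩ := ih
      refine ⟨𝓕, 𝒞, h1, h2, fun I J 𝒰 e T hF hC v => ?_⟩
      rw [sat_neg, h I J 𝒰 e T hF hC v, ← Ultrafilter.eventually_not]
      rfl
  | @conj n φ ih =>
      choose 𝓕 𝒞 h1 h2 h using ih
      let χ : (Fin n → N) → ℕ := fun u => if hu : ∃ k, ¬ Sat N (φ k) u then Nat.find hu + 1 else 0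
      refine ⟨⋃ k, 𝓕 k, (⋃ k, 𝒞 k) ∪ {⟨n, χ⟩}, Set.countable_iUnion h1,
        (Set.countable_iUnion h2).union (Set.countable_singleton _),
        fun I J 𝒰 e T hF hC v => ?_⟩
      have hk : ∀ k, Sat (T ⧸ Zs 𝒰 e T) (φ k) (fun i => Submodule.Quotient.mk (v i)) ↔
        ∀ᶠ D in (𝒰 : Filter I), Sat N (φ k) (fun i => (v i).1 (e D)) := fun k =>
        h k I J 𝒰 e T (fun f hf => hF f (Set.mem_iUnion.2 ⟨k, hf⟩))
          (fun χ hχ => hC χ (Or.inl (Set.mem_iUnion.2 ⟨k, hχ⟩))) v
      rw [sat_conj]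
      simp only [hk]
      constructor
      · intro hall
        obtain ⟨z, hz⟩ := hC ⟨n, χ⟩ (Or.inr rfl) v
        rcases z with _ | k
        · refine hz.mono fun D hD => ?_
          show ∀ k, Sat N (φ k) _
          by_contra hcon
          push Not at hcon
          have h3 : χ (fun i => (v i).1 (e D)) = Nat.find hcon + 1 := dif_pos hcon
          have h4 : χ (fun i => (v i).1 (e D)) = 0 := hD
          rw [h3] at h4
          exact absurd h4 (Nat.succ_ne_zero _)
        · exfalso
          obtain ⟨D, hD, hD'⟩ := (hz.and (hall k)).exists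
          have hD1 : χ (fun i => (v i).1 (e D)) = k + 1 := hD
          by_cases hu : ∃ k, ¬ Sat N (φ k) (fun i => (v i).1 (e D))
          · have h3 : χ (fun i => (v i).1 (e D)) = Nat.find hu + 1 := dif_pos hu
            rw [h3] at hD1
            have h4 : Nat.find hu = k := Nat.succ.inj hD1
            have h5 := Nat.find_spec hu
            rw [h4] at h5
            exact h5 hD'
          · have h3 : χ (fun i => (v i).1 (e D)) = 0 := dif_neg hu
            rw [h3] at hD1
            exact absurd hD1.symm (Nat.succ_ne_zero _)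
      · intro hall k
        exact hall.mono fun D hD => hD k
  | @ex n φ ih =>
      obtain ⟨𝓕, 𝒞, h1, h2, h⟩ := ih
      let g : (Fin n → N) → N := fun v =>
        if hv : ∃ a, Sat N φ (Fin.cons a v) then hv.choose else 0
      have hg : ∀ v, (∃ a, Sat N φ (Fin.cons a v)) → Sat N φ (Fin.cons (g v) v) := by
        intro v hv
        simp only [g, dif_pos hv]
        exact hv.choose_spec
      refine ⟨𝓕 ∪ {⟨n, g⟩}, 𝒞, h1.union (Set.countable_singleton _), h2,
        fun I J 𝒰 e T hF hC v => ?_⟩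
      have hh := h I J 𝒰 e T (fun f hf => hF f (Or.inl hf)) hC
      constructor
      · rintro ⟨a, ha⟩
        obtain ⟨a, rfl⟩ := Submodule.Quotient.mk_surjective _ a
        have h3 := (hh (Fin.cons a v)).1 (by
          rw [cons_comp (fun t : T => (Submodule.Quotient.mk t : T ⧸ Zs 𝒰 e T)) a v]
          exact ha)
        refine h3.mono fun D hD => ⟨a.1 (e D), ?_⟩
        rw [cons_comp (fun t : T => t.1 (e D)) a v] at hD
        exact hD
      · intro hex
        let a : T := ⟨_, hF ⟨n, g⟩ (Or.inr rfl) v⟩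
        refine ⟨Submodule.Quotient.mk a, ?_⟩
        have h3 := (hh (Fin.cons a v)).2 (hex.mono fun D hD => by
          rw [cons_comp (fun t : T => t.1 (e D)) a v]
          exact hg _ hD)
        rw [cons_comp (fun t : T => (Submodule.Quotient.mk t : T ⧸ Zs 𝒰 e T)) a v] at h3
        exact h3

end los

end Pool.Agent.Y583.MC
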