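import Pool.Agent.Y583.ME2

set_option autoImplicit false

/-!
A countable model that absorbs a nonzero countable module, from a large model.
-/

namespace Pool.Agent.Y583.MC

open Filter Cardinal

open scoped Ordinal

variable {R : Type} [Ring R]

/-- a locally split epimorphism onto a countable module splits -/
theorem split_epi {B X : Type} [AddCommGroup B] [Module R B] [AddCommGroup X] [Module R X]
    [Countable X] (π : B →ₗ[R] X)
    (h : ∀ F : Finset X, ∃ σ : X →ₗ[R] B, ∀ x ∈ F, π (σ x) = x) :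
    ∃ σ : X →ₗ[R] B, ∀ x, π (σ x) = x := by
  classical
  choose Ψ hΨ using h
  obtain ⟨en, hen⟩ := exists_surjective_nat X
  let S : ℕ → (X →ₗ[R] X) → Finset X := fun n P => (Finset.range (n + 1)).image fun j => P (en j)
  let P : ℕ → (X →ₗ[R] X) := fun n => Nat.rec LinearMap.id
    (fun n P => (LinearMap.id - π ∘ₗ Ψ (S n P)) ∘ₗ P) n
  let σ : ℕ → (X →ₗ[R] B) := fun n => Ψ (S n (P n))
  have hP1 : ∀ n a, P (n + 1) a = P n a - π (σ n (P n a)) := fun n a => rfl
  have hP0 : ∀ j, P (j + 1) (en j) = 0 := by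
    intro j
    rw [hP1, hΨ (S j (P j)) (P j (en j))
      (Finset.mem_image.2 ⟨j, Finset.mem_range.2 (Nat.lt_succ_self j), rfl⟩), sub_self]
  have hP2 : ∀ j n, j < n → P n (en j) = 0 := by
    intro j n hn
    induction n with
    | zero => exact absurd hn (Nat.not_lt_zero j)
    | succ n ih =>
        rcases Nat.lt_succ_iff_lt_or_eq.1 hn with h | rfl
        · rw [hP1, ih h, map_zero, map_zero, sub_zero]
        · exact hP0 j
  have hfin : ∀ x, (Function.support fun n => P n x).Finite := by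
    intro x
    obtain ⟨j, rfl⟩ := hen x
    refine (Set.finite_le_nat j).subset fun n hn => ?_
    by_contra hlt
    exact hn (hP2 j n (not_le.1 hlt))
  let T : X →ₗ[R] (ℕ →₀ X) :=
    { toFun := fun x => Finsupp.ofSupportFinite (fun n => P n x) (hfin x)
      map_add' := fun x y => by
        ext n
        exact (P n).map_add x y
      map_smul' := fun r x => by
        ext n
        exact (P n).map_smul r x }
  have hT : ∀ x n, T x n = P n x := fun x n => rfl
  refine ⟨Finsupp.lsum ℕ σ ∘ₗ T, fun x => ?_⟩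
  obtain ⟨j, rfl⟩ := hen x
  have h1 : T (en j) = ∑ k ∈ Finset.range (j + 1), Finsupp.single k (P k (en j)) := by
    ext n
    rw [Finsupp.finset_sum_apply]
    simp only [Finsupp.single_apply, Finset.sum_ite_eq', Finset.mem_range]
    rw [hT]
    split_ifs with h
    · rfl
    · exact hP2 j n (by omega)
  rw [LinearMap.comp_apply, h1, map_sum, map_sum]
  have : ∀ k ∈ Finset.range (j + 1), π (Finsupp.lsum ℕ σ
      (Finsupp.single k (P k (en j)))) = P k (en j) - P (k + 1) (en j) := by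
    intro k _
    rw [Finsupp.lsum_single, hP1]
    abel
  rw [Finset.sum_congr rfl this, Finset.sum_range_sub', hP0, sub_zero]
  rfl

theorem exists_maps (F : Finset ℚ) : ∃ s s' : ℚ → ℚ, StrictMono s ∧ StrictMono s' ∧
    (∀ j, ¬ (0 ≤ j ∧ j < 1) → s j = s' j) ∧ (∀ j ∈ F, s j = j) ∧
    ∀ j, ¬ (0 ≤ s' j ∧ s' j < 1) := by
  classical
  obtain ⟨f, hf, hF⟩ : ∃ f : ℚ, f < 0 ∧ ∀ j ∈ F, j < 0 → j ≤ f := by
    induction F using Finset.induction_on with
    | empty => exact ⟨-1, by norm_num, by simp⟩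
    | insert a F _ ih =>
        obtain ⟨f, h1, h2⟩ := ih
        by_cases ha : a < 0
        · refine ⟨max a f, max_lt ha h1, fun j hj hj0 => ?_⟩
          rcases Finset.mem_insert.1 hj with rfl | hj
          · exact le_max_left _ _
          · exact (h2 j hj hj0).trans (le_max_right _ _)
        · refine ⟨f, h1, fun j hj hj0 => ?_⟩
          rcases Finset.mem_insert.1 hj with rfl | hj
          · exact absurd hj0 ha
          · exact h2 j hj hj0
  let s : ℚ → ℚ := fun x => if f < x ∧ x < 0 then (x + f) / 2 else x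
  let s' : ℚ → ℚ := fun x => if 0 ≤ x ∧ x < 1 then f * (1 - x) / 2 else s x
  have s1 : ∀ x, f < x → x < 0 → s x = (x + f) / 2 := fun x h1 h2 => if_pos ⟨h1, h2⟩
  have s2 : ∀ x, x ≤ f → s x = x := fun x h => if_neg fun h' => absurd h'.1 (not_lt.2 h)
  have s3 : ∀ x, 0 ≤ x → s x = x := fun x h => if_neg fun h' => absurd h'.2 (not_lt.2 h)
  have t1 : ∀ x, 0 ≤ x → x < 1 → s' x = f * (1 - x) / 2 := fun x h1 h2 => if_pos ⟨h1, h2⟩
  have t2 : ∀ x, ¬ (0 ≤ x ∧ x < 1) → s' x = s x := fun x h => if_neg h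
  have hs : StrictMono s := by
    intro a b hab
    rcases le_or_gt a f with ha | ha
    · rw [s2 a ha]
      rcases le_or_gt b f with hb | hb
      · rw [s2 b hb]; exact hab
      · rcases lt_or_ge b 0 with hb0 | hb0
        · rw [s1 b hb hb0]; linarith
        · rw [s3 b hb0]; exact hab
    · rcases lt_or_ge a 0 with ha0 | ha0
      · rw [s1 a ha ha0]
        rcases lt_or_ge b 0 with hb0 | hb0
        · rw [s1 b (ha.trans hab) hb0]; linarith
        · rw [s3 b hb0]; linarith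
      · rw [s3 a ha0, s3 b (ha0.trans hab.le)]; exact hab
  have hsneg : ∀ x, x < 0 → s x < f / 2 := by
    intro x hx
    rcases le_or_gt x f with h | h
    · rw [s2 x h]; linarith
    · rw [s1 x h hx]; linarith
  refine ⟨s, s', hs, ?_, fun j hj => (t2 j hj).symm, ?_, ?_⟩
  · intro a b hab
    rcases lt_or_ge a 0 with ha | ha
    · rw [t2 a (fun h => absurd h.1 (not_le.2 ha))]
      rcases lt_or_ge b 0 with hb | hb
      · rw [t2 b (fun h => absurd h.1 (not_le.2 hb))]
        exact hs hab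
      · rcases lt_or_ge b 1 with hb1 | hb1
        · rw [t1 b hb hb1]
          refine lt_of_lt_of_le (hsneg a ha) ?_
          nlinarith
        · rw [t2 b (fun h => absurd h.2 (not_lt.2 hb1))]
          exact hs hab
    · rcases lt_or_ge a 1 with ha1 | ha1
      · rw [t1 a ha ha1]
        rcases lt_or_ge b 1 with hb1 | hb1
        · rw [t1 b (ha.trans hab.le) hb1]
          nlinarith
        · rw [t2 b (fun h => absurd h.2 (not_lt.2 hb1)), s3 b (by linarith)]
          have : f * (1 - a) ≤ 0 := mul_nonpos_of_nonpos_of_nonneg hf.le (by linarith)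
          linarith
      · rw [t2 a (fun h => absurd h.2 (not_lt.2 ha1)),
          t2 b (fun h => absurd h.2 (not_lt.2 (ha1.trans hab.le)))]
        exact hs hab
  · intro j hj
    rcases lt_or_ge j 0 with h | h
    · exact s2 j (hF j hj h)
    · exact s3 j h
  · intro j hj
    rcases lt_or_ge j 0 with h | h
    · rw [t2 j (fun h' => absurd h'.1 (not_le.2 h))] at hj
      have := hsneg j h
      linarith [hj.1]
    · rcases lt_or_ge j 1 with h1 | h1
      · rw [t1 j h h1] at hj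
        have : f * (1 - j) < 0 := mul_neg_of_neg_of_pos hf (by linarith)
        linarith [hj.1]
      · rw [t2 j (fun h' => absurd h'.2 (not_lt.2 h1)), s3 j h] at hj
        linarith [hj.2]

/-- **A model that absorbs a nonzero module.** -/
theorem em [Countable R] {N : Type} [AddCommGroup N] [Module R N] (ψ : Fml R 0) (hψ : Holds ψ N)
    (hN : ℶ_ (ω_ 1) ≤ #N) :
    ∃ (E : Type) (_ : AddCommGroup E) (_ : Module R E) (X : Type) (_ : AddCommGroup X)
      (_ : Module R X), Countable E ∧ Countable X ∧ Nontrivial X ∧ Holds ψ E ∧ Ab R E X := by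
  classical
  obtain ⟨𝓕₀, 𝒞₀, h𝓕₀, h𝒞₀, hlos⟩ := los N ψ
  let 𝓕 : Set (Σ k : ℕ, (Fin k → N) → N) := 𝓕₀ ∪ ({⟨2, fun v => v 0 + v 1⟩} ∪ {⟨0, fun _ => 0⟩} ∪
    Set.range fun r : R => ⟨1, fun v => r • v 0⟩)
  have h𝓕 : 𝓕.Countable := h𝓕₀.union (((Set.countable_singleton _).union
    (Set.countable_singleton _)).union (Set.countable_range _))
  let T : Submodule R ((ℚ → N) → N) :=
    { carrier := {t | Gen 𝓕 t}
      add_mem' := by
        intro s t hs ht
        have := Gen.app (J := ℚ) (𝓕 := 𝓕) ⟨2, fun v => v 0 + v 1⟩ (Or.inr (Or.inl (Or.inl rfl)))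
          ![s, t] (by
            intro i
            fin_cases i
            · exact hs
            · exact ht)
        exact this
      zero_mem' := by
        have := Gen.app (J := ℚ) (𝓕 := 𝓕) ⟨0, fun _ => 0⟩ (Or.inr (Or.inl (Or.inr rfl)))
          Fin.elim0 (fun i => i.elim0)
        exact this
      smul_mem' := by
        intro r t ht
        have := Gen.app (J := ℚ) (𝓕 := 𝓕) ⟨1, fun v => r • v 0⟩ (Or.inr (Or.inr ⟨r, rfl⟩))
          (fun _ => t) (fun _ => ht)
        exact this }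
  have hTc : Countable T := (gen_countable (J := ℚ) 𝓕 h𝓕).to_subtype
  have hTF : ∀ f ∈ 𝓕₀, ∀ g : Fin f.1 → T, (fun x => f.2 fun i => (g i).1 x) ∈ T := by
    intro f hf g
    exact Gen.app f (Or.inl hf) (fun i => (g i).1) (fun i => (g i).2)
  have hsupp : ∀ t : T, ∃ F : Finset ℚ, ∀ x y : ℚ → N, (∀ j ∈ F, x j = y j) → t.1 x = t.1 y :=
    fun t => t.2.supp
  choose sp hsp using hsupp
  -- the colourings
  haveI : Countable 𝒞₀ := h𝒞₀.to_subtype
  let Q : Type := (Σ χ : 𝒞₀, (Fin χ.1.1 → T)) ⊕ T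
  haveI : Nonempty Q := ⟨Sum.inr 0⟩
  let χ : Q → (ℚ → N) → ℕ := fun q x => Sum.elim (fun p : Σ χ : 𝒞₀, (Fin χ.1.1 → T) =>
    p.1.1.2 fun i => (p.2 i).1 x) (fun t : T => if t.1 x = 0 then 0 else 1) q
  let su : Q → Finset ℚ := fun q => Sum.elim (fun p : Σ χ : 𝒞₀, (Fin χ.1.1 → T) =>
    Finset.univ.biUnion fun i => sp (p.2 i)) (fun t : T => sp t) q
  obtain ⟨𝒰, e, Φ, hΦ, hne⟩ := template hN Q ℚ χ su (by
    rintro (p | t) x y h
    · have h1 : (fun i => (p.2 i).1 x) = fun i => (p.2 i).1 y := funext fun i =>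
        hsp (p.2 i) x y fun j hj => h j (Finset.mem_biUnion.2 ⟨i, Finset.mem_univ _, hj⟩)
      show (p.1.1.2 fun i => (p.2 i).1 x) = p.1.1.2 fun i => (p.2 i).1 y
      rw [h1]
    · show (if t.1 x = 0 then 0 else 1) = (if t.1 y = 0 then 0 else 1)
      rw [hsp t x y h])
  let Z : Submodule R T := Zs 𝒰 e T
  let E : Type := T ⧸ Z
  have hmem : ∀ (t : T) (s : ℚ → ℚ), StrictMono s →
      ((∀ᶠ D in (𝒰 : Filter (Finset ℚ × ℕ)), t.1 (e D ∘ s) = 0) ↔ Φ (Sum.inr t) = 0) := by
    intro t s hs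
    have h1 := hΦ (Sum.inr t) s hs
    constructor
    · intro h
      obtain ⟨D, h2, h3⟩ := (h1.and h).exists
      rw [← h2]
      exact if_pos h3
    · intro h
      refine h1.mono fun D hD => ?_
      rw [h] at hD
      by_contra hne
      have h4 : χ (Sum.inr t) (e D ∘ s) = 1 := if_neg hne
      rw [h4] at hD
      exact absurd hD one_ne_zero
  -- the action
  let act : (ℚ → ℚ) → (T →ₗ[R] T) := fun ρ =>
    { toFun := fun t => ⟨fun x => t.1 (x ∘ ρ), t.2.rename ρ⟩
      map_add' := fun s t => rfl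
      map_smul' := fun r t => rfl }
  have hact : ∀ ρ t x, (act ρ t).1 x = t.1 (x ∘ ρ) := fun ρ t x => rfl
  have hactZ : ∀ s, StrictMono s → ∀ t, act s t ∈ Z ↔ t ∈ Z := by
    intro s hs t
    have h1 : t ∈ Z ↔ Φ (Sum.inr t) = 0 := hmem t id strictMono_id
    have h2 : act s t ∈ Z ↔ Φ (Sum.inr t) = 0 := hmem t s hs
    rw [h1, h2]
  let mk : T →ₗ[R] E := Z.mkQ
  have hmk : Function.Surjective mk := Submodule.mkQ_surjective Z
  have hmk0 : ∀ t, mk t = 0 ↔ t ∈ Z := fun t => by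
    show Z.mkQ t = 0 ↔ _
    rw [Submodule.mkQ_apply, Submodule.Quotient.mk_eq_zero]
  let Fn : {s : ℚ → ℚ // StrictMono s} → (E →ₗ[R] E) := fun s =>
    Z.mapQ Z (act s.1) (fun t ht => (hactZ s.1 s.2 t).2 ht)
  have hFn : ∀ s t, Fn s (mk t) = mk (act s.1 t) := fun s t => rfl
  haveI : Countable E := hmk.countable
  -- the part off `[0, 1)`
  let TK : Submodule R T :=
    { carrier := {t | ∀ x y : ℚ → N, (∀ j, ¬ (0 ≤ j ∧ j < 1) → x j = y j) → t.1 x = t.1 y}
      add_mem' := by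
        intro s t hs ht x y h
        show s.1 x + t.1 x = s.1 y + t.1 y
        rw [hs x y h, ht x y h]
      zero_mem' := fun x y h => rfl
      smul_mem' := by
        intro r t ht x y h
        show r • t.1 x = r • t.1 y
        rw [ht x y h] }
  let A : Submodule R E := TK.map mk
  let X : Type := E ⧸ A
  let π : E →ₗ[R] X := A.mkQ
  have hπ : ∀ a ∈ A, π a = 0 := fun a ha => by
    show A.mkQ a = 0
    rw [Submodule.mkQ_apply, Submodule.Quotient.mk_eq_zero]
    exact ha
  haveI : Countable X := (Submodule.mkQ_surjective A).countable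
  -- the differences
  have hδ : ∀ (s s' : {s : ℚ → ℚ // StrictMono s}), (∀ j, ¬ (0 ≤ j ∧ j < 1) → s.1 j = s'.1 j) →
      ∀ a ∈ A, Fn s a = Fn s' a := by
    rintro s s' h _ ⟨t, ht, rfl⟩
    rw [hFn, hFn]
    congr 1
    apply Subtype.ext
    funext x
    rw [hact, hact]
    refine ht _ _ fun j hj => ?_
    show x (s.1 j) = x (s'.1 j)
    rw [h j hj]
  have hA' : ∀ (s' : {s : ℚ → ℚ // StrictMono s}), (∀ j, ¬ (0 ≤ s'.1 j ∧ s'.1 j < 1)) →
      ∀ a, Fn s' a ∈ A := by
    intro s' h a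
    obtain ⟨t, rfl⟩ := hmk a
    rw [hFn]
    refine ⟨_, fun x y hxy => ?_, rfl⟩
    rw [hact, hact]
    exact congrArg t.1 (funext fun j => hxy _ (h j))
  have hfix : ∀ (s : {s : ℚ → ℚ // StrictMono s}) (t : T), (∀ j ∈ sp t, s.1 j = j) →
      Fn s (mk t) = mk t := by
    intro s t h
    rw [hFn]
    congr 1
    apply Subtype.ext
    funext x
    rw [hact]
    refine hsp t _ _ fun j hj => ?_
    show x (s.1 j) = x j
    rw [h j hj]
  -- the splitting
  obtain ⟨σ, hσ⟩ := split_epi π (by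
    intro G
    choose t ht using hmk
    have hl : ∀ x : X, ∃ y : E, π y = x := Submodule.mkQ_surjective A
    choose l hl using hl
    obtain ⟨s, s', h1, h2, h3, h4, h5⟩ := exists_maps (G.biUnion fun x => sp (t (l x)))
    let δ : E →ₗ[R] E := Fn ⟨s, h1⟩ - Fn ⟨s', h2⟩
    refine ⟨A.liftQ δ (fun a ha => ?_), fun x hx => ?_⟩
    · rw [LinearMap.mem_ker]
      show Fn ⟨s, h1⟩ a - Fn ⟨s', h2⟩ a = 0
      rw [hδ ⟨s, h1⟩ ⟨s', h2⟩ h3 a ha, sub_self]
    · have h6 : x = π (mk (t (l x))) := by rw [ht, hl]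
      conv_lhs => rw [h6]
      show π (δ (mk (t (l x)))) = x
      show π (Fn ⟨s, h1⟩ (mk (t (l x))) - Fn ⟨s', h2⟩ (mk (t (l x)))) = x
      rw [hfix ⟨s, h1⟩ (t (l x)) (fun j hj => h4 j (Finset.mem_biUnion.2 ⟨x, hx, hj⟩)), map_sub,
        hπ _ (hA' ⟨s', h2⟩ h5 _), sub_zero, ← h6])
  -- `X` is not zero
  have hXne : Nontrivial X := by
    let p0 : T := ⟨fun x => x 0, Gen.proj 0⟩
    refine ⟨⟨π (mk p0), 0, fun h => ?_⟩⟩
    have h0 : mk p0 ∈ A := by
      have h' : A.mkQ (mk p0) = 0 := h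
      rwa [Submodule.mkQ_apply, Submodule.Quotient.mk_eq_zero] at h'
    obtain ⟨s, s', h1, h2, h3, h4, h5⟩ := exists_maps {0}
    have h6 := hδ ⟨s, h1⟩ ⟨s', h2⟩ h3 _ h0
    rw [hFn, hFn, ← sub_eq_zero, ← map_sub, hmk0] at h6
    have h7 : s' 0 ≠ s 0 := by
      rw [h4 0 (Finset.mem_singleton_self 0)]
      intro h8
      exact h5 0 ⟨by rw [h8], by rw [h8]; norm_num⟩
    obtain ⟨D, h9, h10⟩ := (h6.and (hne (s 0) (s' 0) h7.symm)).exists
    refine h10 ?_
    have h11 : e D (s 0) - e D (s' 0) = 0 := h9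
    exact sub_eq_zero.1 h11
  -- `E ≃ A`
  let θ : ℚ → ℚ := fun x => if x < 0 then x else x + 1
  have θ1 : ∀ x, x < 0 → θ x = x := fun x h => if_pos h
  have θ2 : ∀ x, 0 ≤ x → θ x = x + 1 := fun x h => if_neg (not_lt.2 h)
  have hθ : StrictMono θ := by
    intro a b hab
    rcases lt_or_ge a 0 with ha | ha
    · rw [θ1 a ha]
      rcases lt_or_ge b 0 with hb | hb
      · rw [θ1 b hb]; exact hab
      · rw [θ2 b hb]; linarith
    · rw [θ2 a ha, θ2 b (ha.trans hab.le)]; linarith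
  have hθK : ∀ j, ¬ (0 ≤ θ j ∧ θ j < 1) := by
    intro j hj
    rcases lt_or_ge j 0 with h | h
    · rw [θ1 j h] at hj; linarith [hj.1]
    · rw [θ2 j h] at hj; linarith [hj.2]
  let ρ : ℚ → ℚ := fun x => if x < 0 then x else x - 1
  have hθρ : ∀ j, ¬ (0 ≤ j ∧ j < 1) → θ (ρ j) = j := by
    intro j hj
    rcases lt_or_ge j 0 with h | h
    · have : ρ j = j := if_pos h
      rw [this, θ1 j h]
    · have h1 : 1 ≤ j := by
        by_contra h2
        exact hj ⟨h, not_le.1 h2⟩
      have : ρ j = j - 1 := if_neg (not_lt.2 h)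
      rw [this, θ2 _ (by linarith)]
      ring
  let a₀ : E →ₗ[R] A := LinearMap.codRestrict A (Fn ⟨θ, hθ⟩) (hA' ⟨θ, hθ⟩ hθK)
  have ha₀ : Function.Bijective a₀ := by
    constructor
    · rw [injective_iff_map_eq_zero]
      intro y hy
      obtain ⟨t, rfl⟩ := hmk y
      have h1 : Fn ⟨θ, hθ⟩ (mk t) = 0 := congrArg Subtype.val hy
      rw [hFn, hmk0] at h1
      rw [hmk0]
      exact (hactZ θ hθ t).1 h1
    · rintro ⟨_, t, ht, rfl⟩
      refine ⟨mk (act ρ t), Subtype.ext ?_⟩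
      show Fn ⟨θ, hθ⟩ (mk (act ρ t)) = mk t
      rw [hFn]
      congr 1
      apply Subtype.ext
      funext x
      rw [hact, hact]
      refine ht _ _ fun j hj => ?_
      show x (θ (ρ j)) = x j
      rw [hθρ j hj]
  let a₁ : E ≃ₗ[R] A := LinearEquiv.ofBijective a₀ ha₀
  let a₂ : A ≃ₗ[R] LinearMap.ker π := LinearEquiv.ofEq _ _ (Submodule.ker_mkQ A).symm
  let e₀ : (E × X) ≃ₗ[R] E := (LinearEquiv.prodComm R E X).trans
    ((LinearEquiv.prodCongr (LinearEquiv.refl R X) (a₁.trans a₂)).trans (splitEquiv σ π hσ).symm)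
  have he₀ : ∀ y, e₀ (y, 0) = Fn ⟨θ, hθ⟩ y := by
    intro y
    show σ 0 + Fn ⟨θ, hθ⟩ y = _
    rw [map_zero, zero_add]
  -- shifts
  have hsh : ∀ n : ℚ, StrictMono fun x : ℚ => x + n := fun n a b hab => by
    show a + n < b + n
    linarith
  let sh : ℚ → (E ≃ₗ[R] E) := fun n => LinearEquiv.ofLinear (Fn ⟨_, hsh n⟩) (Fn ⟨_, hsh (-n)⟩)
    (by
      refine LinearMap.ext fun y => ?_
      obtain ⟨t, rfl⟩ := hmk y
      show Fn ⟨_, hsh n⟩ (Fn ⟨_, hsh (-n)⟩ (mk t)) = mk t
      rw [hFn, hFn]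
      congr 1
      apply Subtype.ext
      funext x
      rw [hact, hact]
      refine congrArg t.1 (funext fun j => ?_)
      show x (j + -n + n) = x j
      rw [neg_add_cancel_right])
    (by
      refine LinearMap.ext fun y => ?_
      obtain ⟨t, rfl⟩ := hmk y
      show Fn ⟨_, hsh (-n)⟩ (Fn ⟨_, hsh n⟩ (mk t)) = mk t
      rw [hFn, hFn]
      congr 1
      apply Subtype.ext
      funext x
      rw [hact, hact]
      refine congrArg t.1 (funext fun j => ?_)
      show x (j + n + -n) = x j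
      rw [add_neg_cancel_right])
  refine ⟨E, inferInstance, inferInstance, X, inferInstance, inferInstance, inferInstance,
    inferInstance, hXne, ?_, ?_⟩
  · -- the model
    have h1 := (hlos (Finset ℚ × ℕ) ℚ 𝒰 e T hTF (fun χ₀ hχ g =>
      ⟨Φ (Sum.inl ⟨⟨χ₀, hχ⟩, g⟩), hΦ (Sum.inl ⟨⟨χ₀, hχ⟩, g⟩) id strictMono_id⟩) Fin.elim0).2
      (Eventually.of_forall fun D => by
        have h0 : (fun i : Fin 0 => (Fin.elim0 i : T).1 (e D)) = (Fin.elim0 : Fin 0 → N) :=
          funext fun i => i.elim0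
        rw [h0]
        exact hψ)
    have h0 : (fun i : Fin 0 => (Submodule.Quotient.mk (Fin.elim0 i : T) : T ⧸ Zs 𝒰 e T)) =
        (Fin.elim0 : Fin 0 → T ⧸ Zs 𝒰 e T) := funext fun i => i.elim0
    rw [h0] at h1
    exact h1
  · -- the absorption
    intro G
    have hmk' : ∀ y, ∃ t, mk t = y := hmk
    choose t ht using hmk'
    obtain ⟨n, hn⟩ : ∃ n : ℚ, ∀ j ∈ G.biUnion (fun y => sp (t y)), j < n := by
      generalize G.biUnion (fun y => sp (t y)) = G'
      induction G' using Finset.induction_on with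
      | empty => exact ⟨0, by simp⟩
      | insert a G' _ ih =>
          obtain ⟨n, hn⟩ := ih
          refine ⟨max n (a + 1), fun j hj => ?_⟩
          rcases Finset.mem_insert.1 hj with rfl | hj
          · exact lt_of_lt_of_le (by linarith) (le_max_right _ _)
          · exact (hn j hj).trans_le (le_max_left _ _)
    refine ⟨(LinearEquiv.prodCongr (sh n).symm (LinearEquiv.refl R X)).trans (e₀.trans (sh n)),
      fun y hy => ?_⟩
    show sh n (e₀ ((sh n).symm y, 0)) = y
    rw [he₀]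
    show Fn ⟨_, hsh n⟩ (Fn ⟨θ, hθ⟩ (Fn ⟨_, hsh (-n)⟩ y)) = y
    rw [← ht y, hFn, hFn, hFn]
    congr 1
    apply Subtype.ext
    funext x
    rw [hact, hact, hact]
    refine hsp (t y) _ _ fun j hj => ?_
    show x (θ (j + -n) + n) = x j
    have hjn := hn j (Finset.mem_biUnion.2 ⟨y, hy, hj⟩)
    rw [θ1 _ (by linarith), neg_add_cancel_right]

end Pool.Agent.Y583.MC
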