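import Pool.Agent.Y583.MD5

set_option autoImplicit false

/-!
Abstract elementary classes of modules with Löwenheim–Skolem number `ℵ₀` (internal form).
-/

namespace Pool.Agent.Y583.MC

open Cardinal

variable {R : Type} [Ring R]

/-- abstract elementary classes of `R`-modules -/
structure KK (R : Type) [Ring R] where
  mem : ∀ (M : Type) [AddCommGroup M] [Module R M], Prop
  emb : ∀ {M N : Type} [AddCommGroup M] [Module R M] [AddCommGroup N] [Module R N],
    (M →ₗ[R] N) → Prop
  inj : ∀ {M N : Type} [AddCommGroup M] [Module R M] [AddCommGroup N] [Module R N]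
    (f : M →ₗ[R] N), emb f → Function.Injective f
  emb_mem : ∀ {M N : Type} [AddCommGroup M] [Module R M] [AddCommGroup N] [Module R N]
    (f : M →ₗ[R] N), emb f → mem M ∧ mem N
  emb_equiv : ∀ {M N : Type} [AddCommGroup M] [Module R M] [AddCommGroup N] [Module R N]
    (e : M ≃ₗ[R] N), mem M → emb (e : M →ₗ[R] N)
  comp : ∀ {M N P : Type} [AddCommGroup M] [Module R M] [AddCommGroup N] [Module R N]
    [AddCommGroup P] [Module R P] (g : N →ₗ[R] P) (f : M →ₗ[R] N), emb g → emb f → emb (g ∘ₗ f)
  coh : ∀ {M N P : Type} [AddCommGroup M] [Module R M] [AddCommGroup N] [Module R N]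
    [AddCommGroup P] [Module R P] (g : N →ₗ[R] P) (f : M →ₗ[R] N), emb g → emb (g ∘ₗ f) → emb f
  union : ∀ {N : Type} [AddCommGroup N] [Module R N] {ι : Type} [Nonempty ι]
    (A : ι → Submodule R N), Directed (· ≤ ·) A →
    (∀ i j (h : A i ≤ A j), emb (Submodule.inclusion h)) →
    ∀ i, emb (Submodule.inclusion (le_iSup A i))
  bound : ∀ {N : Type} [AddCommGroup N] [Module R N] {ι : Type} [Nonempty ι]
    (A : ι → Submodule R N), Directed (· ≤ ·) A → (∀ i, emb (A i).subtype) →
    emb (⨆ i, A i).subtype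
  ls : ∀ {N : Type} [AddCommGroup N] [Module R N], mem N → ∀ X : Set N, X.Countable →
    ∃ S : Submodule R N, X ⊆ S ∧ (S : Set N).Countable ∧ emb S.subtype

namespace KK

variable (K : KK R)
variable {M M' N N' P : Type} [AddCommGroup M] [Module R M] [AddCommGroup M'] [Module R M']
  [AddCommGroup N] [Module R N] [AddCommGroup N'] [Module R N'] [AddCommGroup P] [Module R P]

theorem mem_iso (e : M ≃ₗ[R] N) (h : K.mem M) : K.mem N := (K.emb_mem _ (K.emb_equiv e h)).2

theorem emb_congr (e₁ : M ≃ₗ[R] M') (e₂ : N ≃ₗ[R] N') (f : M →ₗ[R] N) (f' : M' →ₗ[R] N')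
    (h : ∀ x, f' (e₁ x) = e₂ (f x)) (hf : K.emb f) : K.emb f' := by
  have h1 := K.emb_mem _ hf
  have h2 : f' = (e₂ : N →ₗ[R] N') ∘ₗ (f ∘ₗ (e₁.symm : M' →ₗ[R] M)) := by
    ext x
    obtain ⟨y, rfl⟩ := e₁.surjective x
    rw [h]
    simp
  rw [h2]
  exact K.comp _ _ (K.emb_equiv _ h1.2) (K.comp _ _ hf (K.emb_equiv _ (K.mem_iso e₁ h1.1)))

/-- strong submodules of submodules -/
def le (S T : Submodule R N) : Prop := ∃ h : S ≤ T, K.emb (Submodule.inclusion h)

variable {K}

theorem le.le {S T : Submodule R N} (h : K.le S T) : S ≤ T := h.1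

theorem le.mem_left {S T : Submodule R N} (h : K.le S T) : K.mem S := (K.emb_mem _ h.2).1

theorem le.mem_right {S T : Submodule R N} (h : K.le S T) : K.mem T := (K.emb_mem _ h.2).2

theorem le_refl {S : Submodule R N} (h : K.mem S) : K.le S S :=
  ⟨le_rfl, K.emb_equiv (LinearEquiv.refl R S) h⟩

theorem le.trans {S T U : Submodule R N} (h : K.le S T) (h' : K.le T U) : K.le S U :=
  ⟨h.1.trans h'.1, K.comp _ _ h'.2 h.2⟩

theorem le.coh {S T U : Submodule R N} (h : K.le S U) (h' : K.le T U) (hST : S ≤ T) : K.le S T :=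
  ⟨hST, K.coh (Submodule.inclusion h'.1) _ h'.2 h.2⟩

theorem le_map {S T : Submodule R N} (f : N →ₗ[R] P) (hf : Function.Injective f) (h : K.le S T) :
    K.le (S.map f) (T.map f) := by
  refine ⟨Submodule.map_mono h.1, K.emb_congr (Submodule.equivMapOfInjective f hf S)
    (Submodule.equivMapOfInjective f hf T) _ _ (fun x => ?_) h.2⟩
  rfl

theorem le_of_map {S T : Submodule R N} (f : N →ₗ[R] P) (hf : Function.Injective f)
    (h : K.le (S.map f) (T.map f)) : K.le S T := by
  have hST : S ≤ T := by
    have := h.1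
    rwa [Submodule.map_le_map_iff_of_injective hf] at this
  refine ⟨hST, K.emb_congr (Submodule.equivMapOfInjective f hf S).symm
    (Submodule.equivMapOfInjective f hf T).symm _ _ (fun x => ?_) h.2⟩
  obtain ⟨y, rfl⟩ := (Submodule.equivMapOfInjective f hf S).surjective x
  rw [LinearEquiv.symm_apply_apply]
  apply (Submodule.equivMapOfInjective f hf T).injective
  rw [LinearEquiv.apply_symm_apply]
  rfl

theorem emb_iff {f : M →ₗ[R] N} (hf : Function.Injective f) :
    K.emb f ↔ K.le (LinearMap.range f) ⊤ := by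
  constructor
  · intro h
    exact ⟨le_top, K.emb_congr (LinearEquiv.ofInjective f hf) Submodule.topEquiv.symm f _
      (fun x => rfl) h⟩
  · rintro ⟨_, h⟩
    refine K.emb_congr (LinearEquiv.ofInjective f hf).symm Submodule.topEquiv _ _ (fun x => ?_) h
    obtain ⟨y, rfl⟩ := (LinearEquiv.ofInjective f hf).surjective x
    rw [LinearEquiv.symm_apply_apply]
    rfl

theorem subtype_iff {S : Submodule R N} : K.emb S.subtype ↔ K.le S ⊤ := by
  rw [emb_iff (Submodule.subtype_injective S), Submodule.range_subtype]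

theorem inclusion_iff {S T : Submodule R N} (h : S ≤ T) :
    K.emb (Submodule.inclusion h) ↔ K.le S T := ⟨fun h' => ⟨h, h'⟩, fun h' => h'.2⟩

/-- a linear map that is injective on `T` -/
theorem le_of_local {S T : Submodule R N} (hST : S ≤ T) (k : T →ₗ[R] P)
    (hk : Function.Injective k)
    (h : K.le ((S.comap T.subtype).map k) (LinearMap.range k)) : K.le S T := by
  have h1 : LinearMap.range k = (⊤ : Submodule R T).map k := (Submodule.map_top k).symm
  rw [h1] at h
  have h2 := le_map T.subtype (Submodule.subtype_injective T) (le_of_map k hk h)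
  rw [Submodule.map_subtype_top, Submodule.map_comap_subtype, inf_eq_right.2 hST] at h2
  exact h2

theorem le_comap {S T : Submodule R N} (h : K.le S T) :
    K.le (S.comap T.subtype) (⊤ : Submodule R T) := by
  apply le_of_map T.subtype (Submodule.subtype_injective T)
  rw [Submodule.map_subtype_top, Submodule.map_comap_subtype, inf_eq_right.2 h.1]
  exact h

theorem of_le_comap {S T : Submodule R N} (hST : S ≤ T)
    (h : K.le (S.comap T.subtype) (⊤ : Submodule R T)) : K.le S T := by
  have h2 := le_map T.subtype (Submodule.subtype_injective T) h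
  rw [Submodule.map_subtype_top, Submodule.map_comap_subtype, inf_eq_right.2 hST] at h2
  exact h2

theorem le_iSup {ι : Type} [Nonempty ι] (A : ι → Submodule R N) (hA : Directed (· ≤ ·) A)
    (h : ∀ i j, A i ≤ A j → K.le (A i) (A j)) (i : ι) : K.le (A i) (⨆ i, A i) :=
  ⟨_, K.union A hA (fun i j hij => (h i j hij).2) i⟩

theorem iSup_le {ι : Type} [Nonempty ι] (A : ι → Submodule R N) (hA : Directed (· ≤ ·) A)
    {T : Submodule R N} (h : ∀ i, K.le (A i) T) : K.le (⨆ i, A i) T := by
  have hle : ⨆ i, A i ≤ T := _root_.iSup_le fun i => (h i).1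
  refine of_le_comap hle ?_
  have h1 : (⨆ i, A i).comap T.subtype = ⨆ i, (A i).comap T.subtype := by
    apply le_antisymm
    · rintro ⟨x, hx⟩ hx'
      obtain ⟨i, hi⟩ := (Submodule.mem_iSup_of_directed A hA).1 hx'
      exact (_root_.le_iSup (fun i => (A i).comap T.subtype) i)
        (show (⟨x, hx⟩ : T) ∈ (A i).comap T.subtype from hi)
    · exact _root_.iSup_le fun i => Submodule.comap_mono (_root_.le_iSup A i)
  rw [h1, ← subtype_iff]
  refine K.bound _ (fun i j => ?_) fun i => subtype_iff.2 (le_comap (h i))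
  obtain ⟨k, h2, h3⟩ := hA i j
  exact ⟨k, Submodule.comap_mono h2, Submodule.comap_mono h3⟩

theorem top_iff : K.mem N ↔ K.mem (⊤ : Submodule R N) :=
  ⟨K.mem_iso Submodule.topEquiv.symm, K.mem_iso Submodule.topEquiv⟩

/-- the closure functions whose closed sets are strong submodules -/
theorem exists_strong (hN : K.mem N) : ∃ c : Finset N → Set N, (∀ F, (c F).Countable) ∧
    ∀ S : Submodule R N, Closed c (S : Set N) → K.le S ⊤ := by
  classical
  have hls := fun X : {X : Set N // X.Countable} => K.ls hN X.1 X.2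
  choose pick hp1 hp2 hp3 using hls
  let step : ∀ F : Finset N, (∀ G : Finset N, G < F → {S : Submodule R N // (S : Set N).Countable}) →
      {S : Submodule R N // (S : Set N).Countable} := fun F ih =>
    ⟨pick ⟨↑F ∪ ⋃ G : {G : Finset N // G < F}, ((ih G.1 G.2).1 : Set N), by
      refine F.countable_toSet.union ?_
      have : Countable {G : Finset N // G < F} := by
        have : Finite {G : Finset N // G < F} :=
          Set.Finite.to_subtype ((Finset.finite_toSet F.powerset).subset fun G hG => by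
            have h : G < F := hG
            simpa using h.le)
        infer_instance
      exact Set.countable_iUnion fun G => (ih G.1 G.2).2⟩, hp2 _⟩
  let m : Finset N → {S : Submodule R N // (S : Set N).Countable} :=
    WellFounded.fix (wellFounded_lt (α := Finset N)) step
  have hm : ∀ F, m F = step F fun G _ => m G := fun F => WellFounded.fix_eq _ _ _
  have h1 : ∀ F : Finset N, (↑F : Set N) ⊆ (m F).1 := by
    intro F x hx
    rw [hm]
    exact hp1 _ (Or.inl hx)
  have h2 : ∀ F G : Finset N, G ≤ F → (m G).1 ≤ (m F).1 := by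
    intro F G hGF
    rcases eq_or_lt_of_le hGF with rfl | h
    · exact le_rfl
    · intro x hx
      rw [hm F]
      exact hp1 _ (Or.inr (Set.mem_iUnion.2 ⟨⟨G, h⟩, hx⟩))
  have h3 : ∀ F, K.le (m F).1 ⊤ := by
    intro F
    rw [hm, ← subtype_iff]
    exact hp3 _
  refine ⟨fun F => (m F).1, fun F => (m F).2, fun S hS => ?_⟩
  have hdir : Directed (· ≤ ·) fun F : {F : Finset N // (↑F : Set N) ⊆ S} => (m F.1).1 := by
    rintro ⟨F, hF⟩ ⟨G, hG⟩
    exact ⟨⟨F ∪ G, by rw [Finset.coe_union]; exact Set.union_subset hF hG⟩,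
      h2 _ _ Finset.subset_union_left, h2 _ _ Finset.subset_union_right⟩
  haveI : Nonempty {F : Finset N // (↑F : Set N) ⊆ S} := ⟨⟨∅, by simp⟩⟩
  have h4 : (⨆ F : {F : Finset N // (↑F : Set N) ⊆ S}, (m F.1).1) = S := by
    apply le_antisymm
    · exact _root_.iSup_le fun F => hS F.1 F.2
    · intro x hx
      exact (_root_.le_iSup (fun F : {F : Finset N // (↑F : Set N) ⊆ S} => (m F.1).1)
        ⟨{x}, by simpa using hx⟩) (h1 {x} (by simp))
  rw [← h4]
  exact iSup_le _ hdir fun F => h3 F.1

end KK

end Pool.Agent.Y583.MC
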