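import Pool.Agent.Y583.MF0

set_option autoImplicit false

/-!
Direct powers in abstract elementary classes of modules.
-/

namespace Pool.Agent.Y583.MC

open Cardinal

variable {R : Type} [Ring R]

section
variable {I : Type} {E X E₁ X₁ E₂ X₂ : Type} [AddCommGroup E] [Module R E] [AddCommGroup X]
  [Module R X] [AddCommGroup E₁] [Module R E₁] [AddCommGroup X₁]
  [Module R X₁] [AddCommGroup E₂] [Module R E₂] [AddCommGroup X₂]
  [Module R X₂]

/-- the part of `E × (I →₀ X)` supported on `J` -/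
noncomputable def Pw (R : Type) [Ring R] {I : Type} (E X : Type) [AddCommGroup E] [Module R E] [AddCommGroup X]
    [Module R X] (J : Set I) : Submodule R (E × (I →₀ X)) :=
  (⊤ : Submodule R E).prod (Finsupp.supported X R J)

theorem mem_Pw {J : Set I} {x : E × (I →₀ X)} : x ∈ Pw R E X J ↔ ∀ i, i ∉ J → x.2 i = 0 := by
  constructor
  · intro h i hi
    exact (Finsupp.mem_supported' R _).1 h.2 i hi
  · intro h
    exact ⟨trivial, (Finsupp.mem_supported' R _).2 fun i hi => h i hi⟩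

theorem Pw_mono {J J' : Set I} (h : J ⊆ J') : Pw R E X J ≤ Pw R E X J' := fun _ hx =>
  mem_Pw.2 fun i hi => mem_Pw.1 hx i fun h' => hi (h h')

theorem Pw_univ : Pw R E X (Set.univ : Set I) = ⊤ := by
  rw [eq_top_iff]
  intro x _
  exact mem_Pw.2 fun i hi => absurd trivial hi

/-- no coordinates -/
noncomputable def Pw_empty : Pw R E X (∅ : Set I) ≃ₗ[R] E where
  toFun x := x.1.1
  invFun e := ⟨(e, 0), mem_Pw.2 fun i _ => rfl⟩
  left_inv x := by
    apply Subtype.ext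
    refine Prod.ext rfl ?_
    ext i
    exact (mem_Pw.1 x.2 i (by simp)).symm
  right_inv e := rfl
  map_add' x y := rfl
  map_smul' r x := rfl

open Classical in
/-- one more coordinate -/
noncomputable def stp (F : Set I) (a : I) (ha : a ∉ F) :
    Pw R E X (insert a F) ≃ₗ[R] (Pw R E X F × X) where
  toFun x := (⟨(x.1.1, x.1.2 - Finsupp.single a (x.1.2 a)), mem_Pw.2 fun i hi => by
    show x.1.2 i - (Finsupp.single a (x.1.2 a)) i = 0
    by_cases hia : i = a
    · subst hia; simp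
    · rw [Finsupp.single_apply, if_neg (Ne.symm hia), sub_zero]
      exact mem_Pw.1 x.2 i fun h => (Set.mem_insert_iff.1 h).elim hia hi⟩, x.1.2 a)
  invFun y := ⟨(y.1.1.1, y.1.1.2 + Finsupp.single a y.2), mem_Pw.2 fun i hi => by
    rw [Set.mem_insert_iff, not_or] at hi
    show y.1.1.2 i + (Finsupp.single a y.2) i = 0
    rw [Finsupp.single_apply, if_neg (Ne.symm hi.1), add_zero]
    exact mem_Pw.1 y.1.2 i hi.2⟩
  left_inv x := by
    apply Subtype.ext
    refine Prod.ext rfl ?_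
    show x.1.2 - Finsupp.single a (x.1.2 a) + Finsupp.single a (x.1.2 a) = _
    rw [sub_add_cancel]
  right_inv y := by
    obtain ⟨⟨⟨e, w⟩, hw⟩, x⟩ := y
    have h0 : w a = 0 := mem_Pw.1 hw a ha
    have h1 : (w + Finsupp.single a x) a = x := by
      rw [Finsupp.add_apply, h0, Finsupp.single_eq_same, zero_add]
    refine Prod.ext (Subtype.ext (Prod.ext rfl ?_)) h1
    show w + Finsupp.single a x - Finsupp.single a ((w + Finsupp.single a x) a) = w
    rw [h1, add_sub_cancel_right]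
  map_add' x y := by
    refine Prod.ext (Subtype.ext (Prod.ext rfl ?_)) ?_
    · show (x.1.2 + y.1.2) - Finsupp.single a ((x.1.2 + y.1.2) a) =
        (x.1.2 - Finsupp.single a (x.1.2 a)) + (y.1.2 - Finsupp.single a (y.1.2 a))
      rw [Finsupp.add_apply, Finsupp.single_add]
      abel
    · rfl
  map_smul' r x := by
    refine Prod.ext (Subtype.ext (Prod.ext rfl ?_)) ?_
    · show r • x.1.2 - Finsupp.single a ((r • x.1.2) a) =
        r • (x.1.2 - Finsupp.single a (x.1.2 a))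
      rw [Finsupp.smul_apply, smul_sub, Finsupp.smul_single]
    · rfl

/-- the map of direct powers -/
noncomputable def phi (I : Type) (i : E₁ →ₗ[R] E₂) (j : X₁ →ₗ[R] X₂) :
    (E₁ × (I →₀ X₁)) →ₗ[R] (E₂ × (I →₀ X₂)) := i.prodMap (Finsupp.mapRange.linearMap j)

theorem phi_inj (i : E₁ →ₗ[R] E₂) (j : X₁ →ₗ[R] X₂) (hi : Function.Injective i)
    (hj : Function.Injective j) : Function.Injective (phi I i j) := by
  rintro ⟨x, w⟩ ⟨y, w'⟩ h
  have h1 : i x = i y := congrArg Prod.fst h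
  have h2 : Finsupp.mapRange.linearMap j w = Finsupp.mapRange.linearMap j w' :=
    congrArg Prod.snd h
  refine Prod.ext (hi h1) (Finsupp.ext fun a => hj ?_)
  have := DFunLike.congr_fun h2 a
  simpa using this

theorem phi_mem {i : E₁ →ₗ[R] E₂} {j : X₁ →ₗ[R] X₂} {J : Set I} {x : E₁ × (I →₀ X₁)}
    (hx : x ∈ Pw R E₁ X₁ J) : phi I i j x ∈ Pw R E₂ X₂ J := by
  rw [mem_Pw] at hx ⊢
  intro a ha
  show (Finsupp.mapRange.linearMap j x.2) a = 0
  rw [Finsupp.mapRange.linearMap_apply, Finsupp.mapRange_apply, hx a ha, map_zero]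

variable (K : KK R)

/-- a pair of members and absorbed modules -/
structure PairD (i : E₁ →ₗ[R] E₂) (j : X₁ →ₗ[R] X₂) : Prop where
  hi : K.emb i
  hj : Function.Injective j
  h1 : K.emb (LinearMap.inl R E₁ X₁)
  h2 : K.emb (LinearMap.inl R E₂ X₂)
  iso : ∃ (ε₁ : (E₁ × X₁) ≃ₗ[R] E₁) (ε₂ : (E₂ × X₂) ≃ₗ[R] E₂), ∀ x y, ε₂ (i x, j y) = i (ε₁ (x, y))

/-- `E` absorbs `X` in the class `K` -/
def Abs (K : KK R) (E X : Type) [AddCommGroup E] [Module R E] [AddCommGroup X]
    [Module R X] : Prop :=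
  K.emb (LinearMap.inl R E X) ∧ Nonempty ((E × X) ≃ₗ[R] E)

variable {K}

theorem k_exists (i : E₁ →ₗ[R] E₂) (j : X₁ →ₗ[R] X₂) (ε₁ : (E₁ × X₁) ≃ₗ[R] E₁)
    (ε₂ : (E₂ × X₂) ≃ₗ[R] E₂) (h : ∀ x y, ε₂ (i x, j y) = i (ε₁ (x, y))) (F : Finset I) :
    ∃ (k₁ : Pw R E₁ X₁ (↑F : Set I) ≃ₗ[R] E₁) (k₂ : Pw R E₂ X₂ (↑F : Set I) ≃ₗ[R] E₂),
      ∀ x (hx : x ∈ Pw R E₁ X₁ (↑F : Set I)), k₂ ⟨phi I i j x, phi_mem hx⟩ = i (k₁ ⟨x, hx⟩) := by
  classical
  induction F using Finset.induction_on with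
  | empty =>
      rw [Finset.coe_empty]
      exact ⟨Pw_empty, Pw_empty, fun x hx => rfl⟩
  | insert a F ha ih =>
      obtain ⟨k₁, k₂, hk⟩ := ih
      rw [Finset.coe_insert]
      have ha' : a ∉ (↑F : Set I) := by simpa using ha
      refine ⟨(stp _ a ha').trans ((LinearEquiv.prodCongr k₁ (LinearEquiv.refl R X₁)).trans ε₁),
        (stp _ a ha').trans ((LinearEquiv.prodCongr k₂ (LinearEquiv.refl R X₂)).trans ε₂),
        fun x hx => ?_⟩
      show ε₂ (k₂ (stp _ a ha' ⟨phi I i j x, phi_mem hx⟩).1,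
        (stp _ a ha' ⟨phi I i j x, phi_mem hx⟩).2) =
        i (ε₁ (k₁ (stp _ a ha' ⟨x, hx⟩).1, (stp _ a ha' ⟨x, hx⟩).2))
      rw [← h]
      congr 1
      refine Prod.ext ?_ ?_
      · have h1 := hk (stp _ a ha' ⟨x, hx⟩).1.1 (stp _ a ha' ⟨x, hx⟩).1.2
        refine Eq.trans ?_ h1
        show k₂ _ = k₂ _
        congr 1
        apply Subtype.ext
        refine Prod.ext rfl ?_
        show (phi I i j x).2 - Finsupp.single a ((phi I i j x).2 a) =
          Finsupp.mapRange.linearMap j (x.2 - Finsupp.single a (x.2 a))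
        rw [map_sub]
        congr 1
        rw [Finsupp.mapRange.linearMap_apply, Finsupp.mapRange_single]
        rfl
      · rfl

theorem pow_step (ε : (E × X) ≃ₗ[R] E) (h : K.emb (LinearMap.inl R E X)) (F : Finset I) (a : I) :
    K.le (Pw R E X (↑F : Set I)) (Pw R E X (insert a (↑F : Set I))) := by
  classical
  obtain ⟨k, -, -⟩ := k_exists (I := I) (LinearMap.id : E →ₗ[R] E) (LinearMap.id : X →ₗ[R] X) ε ε
    (fun x y => rfl) F
  by_cases ha : a ∈ F
  · rw [Set.insert_eq_of_mem (by simpa using ha)]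
    exact KK.le_refl (K.mem_iso k.symm (K.emb_mem _ h).1)
  have ha' : a ∉ (↑F : Set I) := by simpa using ha
  refine ⟨Pw_mono (Set.subset_insert _ _), K.emb_congr k.symm
    ((LinearEquiv.prodCongr k (LinearEquiv.refl R X)).symm.trans (stp _ a ha').symm)
    _ _ (fun x => ?_) h⟩
  apply Subtype.ext
  show (k.symm x).1 = ((k.symm x).1.1, (k.symm x).1.2 + Finsupp.single a 0)
  rw [Finsupp.single_zero, add_zero]

theorem pow_fin (ε : (E × X) ≃ₗ[R] E) (h : K.emb (LinearMap.inl R E X)) (F G : Finset I)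
    (hFG : F ⊆ G) : K.le (Pw R E X (↑F : Set I)) (Pw R E X (↑G : Set I)) := by
  classical
  have key : ∀ G : Finset I, K.le (Pw R E X (↑F : Set I)) (Pw R E X (↑(G ∪ F) : Set I)) := by
    intro G
    induction G using Finset.induction_on with
    | empty =>
        rw [Finset.empty_union]
        obtain ⟨k, -, -⟩ := k_exists (I := I) (LinearMap.id : E →ₗ[R] E)
          (LinearMap.id : X →ₗ[R] X) ε ε (fun x y => rfl) F
        exact KK.le_refl (K.mem_iso k.symm (K.emb_mem _ h).1)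
    | insert a G _ ih =>
        rw [Finset.insert_union, Finset.coe_insert]
        exact ih.trans (pow_step ε h _ a)
  have := key G
  rwa [Finset.union_eq_left.2 hFG] at this

theorem Pw_iSup (J : Set I) : (⨆ F : {F : Finset I // (↑F : Set I) ⊆ J}, Pw R E X (↑F.1 : Set I)) =
    Pw R E X J := by
  apply le_antisymm
  · exact iSup_le fun F => Pw_mono F.2
  · intro x hx
    have h1 : (↑x.2.support : Set I) ⊆ J := by
      intro i hi
      by_contra hcon
      exact (Finsupp.mem_support_iff.1 hi) (mem_Pw.1 hx i hcon)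
    refine (le_iSup (fun F : {F : Finset I // (↑F : Set I) ⊆ J} => Pw R E X (↑F.1 : Set I))
      ⟨x.2.support, h1⟩) (mem_Pw.2 fun i hi => ?_)
    by_contra hcon
    exact hi (by simpa using hcon)

theorem Pw_dir (J : Set I) : Directed (· ≤ ·)
    fun F : {F : Finset I // (↑F : Set I) ⊆ J} => Pw R E X (↑F.1 : Set I) := by
  classical
  rintro ⟨F, hF⟩ ⟨G, hG⟩
  exact ⟨⟨F ∪ G, by rw [Finset.coe_union]; exact Set.union_subset hF hG⟩,
    Pw_mono (by rw [Finset.coe_union]; exact Set.subset_union_left),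
    Pw_mono (by rw [Finset.coe_union]; exact Set.subset_union_right)⟩

theorem pow_top (ε : (E × X) ≃ₗ[R] E) (h : K.emb (LinearMap.inl R E X)) (F : Finset I) :
    K.le (Pw R E X (↑F : Set I)) ⊤ := by
  classical
  by_cases hX : Subsingleton X
  · have h1 : ∀ J : Set I, Pw R E X J = ⊤ := by
      intro J
      rw [eq_top_iff]
      intro x _
      exact mem_Pw.2 fun i _ => Subsingleton.elim _ _
    have h2 := pow_fin (I := I) ε h F F subset_rfl
    rw [h1] at h2 ⊢
    exact h2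
  have hX' : Nontrivial X := not_subsingleton_iff_nontrivial.1 hX
  obtain ⟨z, hz⟩ := exists_ne (0 : X)
  have e1 : (⨆ F : {F : Finset I // (↑F : Set I) ⊆ Set.univ}, Pw R E X (↑F.1 : Set I)) = ⊤ :=
    (Pw_iSup _).trans Pw_univ
  rw [← e1]
  haveI : Nonempty {F : Finset I // (↑F : Set I) ⊆ Set.univ} := ⟨⟨∅, by simp⟩⟩
  refine KK.le_iSup (fun F : {F : Finset I // (↑F : Set I) ⊆ Set.univ} =>
    Pw R E X (↑F.1 : Set I)) (Pw_dir _) (fun F G hFG => ?_) ⟨F, Set.subset_univ _⟩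
  refine pow_fin ε h F.1 G.1 fun i hi => ?_
  have h1 : ((0 : E), Finsupp.single i z) ∈ Pw R E X (↑G.1 : Set I) := by
    refine hFG (mem_Pw.2 fun i' hi' => ?_)
    show (Finsupp.single i z) i' = 0
    rw [Finsupp.single_apply, if_neg]
    rintro rfl
    exact hi' (by simpa using hi)
  by_contra hcon
  have h2 := mem_Pw.1 h1 i (by simpa using hcon)
  have h3 : (Finsupp.single i z) i = 0 := h2
  rw [Finsupp.single_eq_same] at h3
  exact hz h3

/-- direct powers of an absorbed module -/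
theorem pow_single (h : Abs K E X) (J : Set I) : K.le (Pw R E X J) ⊤ := by
  obtain ⟨h1, ⟨ε⟩⟩ := h
  rw [← Pw_iSup]
  haveI : Nonempty {F : Finset I // (↑F : Set I) ⊆ J} := ⟨⟨∅, by simp⟩⟩
  exact KK.iSup_le _ (Pw_dir _) fun F => pow_top ε h1 F.1

theorem pow_mem (h : Abs K E X) (I : Type) : K.mem (E × (I →₀ X)) := by
  have := (pow_single (I := I) h ∅).mem_right
  exact KK.top_iff.2 this

theorem PairD.abs1 {i : E₁ →ₗ[R] E₂} {j : X₁ →ₗ[R] X₂} (h : PairD K i j) : Abs K E₁ X₁ := by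
  obtain ⟨ε₁, ε₂, -⟩ := h.iso
  exact ⟨h.h1, ⟨ε₁⟩⟩

theorem PairD.abs2 {i : E₁ →ₗ[R] E₂} {j : X₁ →ₗ[R] X₂} (h : PairD K i j) : Abs K E₂ X₂ := by
  obtain ⟨ε₁, ε₂, -⟩ := h.iso
  exact ⟨h.h2, ⟨ε₂⟩⟩

theorem pow_pair {i : E₁ →ₗ[R] E₂} {j : X₁ →ₗ[R] X₂} (h : PairD K i j) (I : Type) :
    K.emb (phi I i j) := by
  obtain ⟨ε₁, ε₂, hε⟩ := h.iso
  have hφ := phi_inj (I := I) i j (K.inj _ h.hi) h.hj
  rw [KK.emb_iff hφ]
  have h1 : ∀ F : Finset I, K.le ((Pw R E₁ X₁ (↑F : Set I)).map (phi I i j))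
      (Pw R E₂ X₂ (↑F : Set I)) := by
    intro F
    obtain ⟨k₁, k₂, hk⟩ := k_exists i j ε₁ ε₂ hε F
    let f : Pw R E₁ X₁ (↑F : Set I) →ₗ[R] Pw R E₂ X₂ (↑F : Set I) :=
      (phi I i j).restrict fun x hx => phi_mem hx
    have hf : K.emb f := by
      refine K.emb_congr k₁.symm k₂.symm i f (fun x => ?_) h.hi
      obtain ⟨y, rfl⟩ := k₁.surjective x
      rw [LinearEquiv.symm_apply_apply]
      apply k₂.injective
      rw [LinearEquiv.apply_symm_apply]
      exact hk y.1 y.2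
    have hfi : Function.Injective f := K.inj _ hf
    have h2 := KK.le_map (Pw R E₂ X₂ (↑F : Set I)).subtype (Submodule.subtype_injective _)
      ((KK.emb_iff hfi).1 hf)
    rw [Submodule.map_subtype_top] at h2
    have h3 : (LinearMap.range f).map (Pw R E₂ X₂ (↑F : Set I)).subtype =
        (Pw R E₁ X₁ (↑F : Set I)).map (phi I i j) := by
      ext y
      constructor
      · rintro ⟨_, ⟨x, rfl⟩, rfl⟩
        exact ⟨x.1, x.2, rfl⟩
      · rintro ⟨x, hx, rfl⟩
        exact ⟨_, ⟨⟨x, hx⟩, rfl⟩, rfl⟩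
    rwa [h3] at h2
  have h4 : LinearMap.range (phi I i j) =
      ⨆ F : {F : Finset I // (↑F : Set I) ⊆ Set.univ}, (Pw R E₁ X₁ (↑F.1 : Set I)).map (phi I i j) := by
    rw [← Submodule.map_iSup, Pw_iSup, Pw_univ, Submodule.map_top]
  rw [h4]
  haveI : Nonempty {F : Finset I // (↑F : Set I) ⊆ Set.univ} := ⟨⟨∅, by simp⟩⟩
  refine KK.iSup_le _ (fun F G => ?_) fun F => (h1 F.1).trans (pow_single h.abs2 _)
  obtain ⟨W, h5, h6⟩ := Pw_dir (R := R) (E := E₁) (X := X₁) (Set.univ : Set I) F G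
  exact ⟨W, Submodule.map_mono h5, Submodule.map_mono h6⟩

end

end Pool.Agent.Y583.MC
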