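import Pool.Agent.Y583.MF9

set_option autoImplicit false

/-!
The structure over a tame submodule.
-/

namespace Pool.Agent.Y583.MC

open Cardinal

variable {R : Type} [Ring R]

section
variable {N : Type} [AddCommGroup N] [Module R N]

/-- the image of `T` in `N ⧸ S` as a complement of `T ⊓ S` in `T` -/
theorem exists_compl2 {S T : Submodule R N} (r : T →ₗ[R] N) (hr : ∀ x, r x ∈ S)
    (hrT : ∀ x, r x ∈ T) (hr' : ∀ x : T, (x : N) ∈ S → r x = x) :
    ∃ (p : T →ₗ[R] (T ⊓ S : Submodule R N)) (k : LinearMap.ker p ≃ₗ[R] T.map S.mkQ),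
      (∀ s : (T ⊓ S : Submodule R N), p (Submodule.inclusion inf_le_left s) = s) ∧
      ∀ z : LinearMap.ker p, (k z : N ⧸ S) = S.mkQ ((z : T) : N) := by
  let p : T →ₗ[R] (T ⊓ S : Submodule R N) :=
    LinearMap.codRestrict (T ⊓ S) r fun x => ⟨hrT x, hr x⟩
  have hp : ∀ s : (T ⊓ S : Submodule R N), p (Submodule.inclusion inf_le_left s) = s := by
    intro s
    apply Subtype.ext
    exact hr' _ s.2.2
  let k₀ : LinearMap.ker p →ₗ[R] T.map S.mkQ :=
    LinearMap.codRestrict _ (S.mkQ ∘ₗ T.subtype ∘ₗ (LinearMap.ker p).subtype)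
      (fun z => ⟨z.1.1, z.1.2, rfl⟩)
  have hk : Function.Bijective k₀ := by
    constructor
    · rw [injective_iff_map_eq_zero]
      intro z hz
      have h1 : S.mkQ ((z : T) : N) = 0 := congrArg Subtype.val hz
      rw [Submodule.mkQ_apply, Submodule.Quotient.mk_eq_zero] at h1
      have h2 : r z = ((z : T) : N) := hr' z.1 h1
      have h3 : p z = 0 := z.2
      have h4 : r z = 0 := congrArg Subtype.val h3
      apply Subtype.ext
      apply Subtype.ext
      rw [← h2, h4]; rfl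
    · rintro ⟨_, t, ht, rfl⟩
      let t' : T := ⟨t, ht⟩
      refine ⟨⟨t' - Submodule.inclusion inf_le_left (p t'), ?_⟩, ?_⟩
      · rw [LinearMap.mem_ker, map_sub, hp, sub_self]
      · apply Subtype.ext
        show S.mkQ (t - (p t' : N)) = S.mkQ t
        rw [map_sub, sub_eq_self, Submodule.mkQ_apply, Submodule.Quotient.mk_eq_zero]
        exact (p t').2.2
  exact ⟨p, LinearEquiv.ofBijective k₀ hk, hp, fun z => rfl⟩

end

theorem structure_tame [Countable R] {K : KK R} {μ : Cardinal.{0}} (hμ : ℵ₀ < μ)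
    (huniq : UniqK K μ) {E C : Type} [AddCommGroup E] [Module R E] [AddCommGroup C] [Module R C]
    [Countable E] [Countable C] [Nontrivial C] (e : C ≃ₗ[R] (ℕ →₀ C)) (hE : Abs K E C)
    {D : Type} [AddCommGroup D] [Module R D] {z : D} [Countable D] (hloc : Loc R D z)
    (hTD : TP R (ℕ →₀ D)) (ε : (ℕ →₀ D) ≃ₗ[R] C)
    (hss : ∀ (Z : Type) [AddCommGroup Z] [Module R Z], Nice R D Z → Nontrivial Z →
        ∃ t : D →ₗ[R] Z, t z ≠ 0)
    {N : Type} [AddCommGroup N] [Module R N] (c : Finset N → Set N) (hc : ∀ F, (c F).Countable)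
    (hcE : ∀ S : Submodule R N, Cb c S → Nonempty (S ≃ₗ[R] E))
    (hiso : ∀ S T : Submodule R N, Cb c S → Cb c T → S ≤ T → IsoFix S T)
    (hstr : ∀ S : Submodule R N, Closed c (S : Set N) → K.le S ⊤)
    {S : Submodule R N} (hS : Closed c (S : Set N)) (htame : Tame c S) :
    ∃ ι : Type, Nonempty (N ≃ₗ[R] (S × (ι →₀ D))) := by
  classical
  obtain ⟨c₁, hc₁, hret⟩ := exists_ret hc hiso htame
  let π : N →ₗ[R] (N ⧸ S) := S.mkQ
  have hπ : Function.Surjective π := Submodule.mkQ_surjective S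
  let s : (N ⧸ S) → N := Function.surjInv hπ
  have hs : ∀ x, π (s x) = x := Function.surjInv_eq hπ
  have hT : ∀ T : Submodule R N, Cb c T → Closed c₁ (T : Set N) → Nice R D (T.map π) := by
    intro T hT hT₁
    obtain ⟨r, h1, h2, h3⟩ := hret T hT.1 hT₁
    obtain ⟨p, k, hp, -⟩ := exists_compl2 r h1 h2 h3
    refine Nice.congr ?_ k
    by_cases hZ : Nontrivial (LinearMap.ker p)
    · haveI : Countable T := hT.1.to_subtype
      haveI : Countable (LinearMap.ker p) := Subtype.countable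
      have hTS : Cb c (T ⊓ S) := ⟨hT.1.mono fun x hx => hx.1, closed_inf hT.2 hS⟩
      obtain ⟨u₁⟩ := hcE T hT
      obtain ⟨u₂⟩ := hcE _ hTS
      have hle : K.le (T ⊓ S) T := (hstr _ hTS.2).coh (hstr _ hT.2) inf_le_left
      let σ : T ≃ₗ[R] ((T ⊓ S : Submodule R N) × LinearMap.ker p) :=
        splitEquiv (Submodule.inclusion inf_le_left) p hp
      have habs : Abs K (T ⊓ S : Submodule R N) (LinearMap.ker p) := by
        refine ⟨K.emb_congr (LinearEquiv.refl R _) σ (Submodule.inclusion hle.1) _ (fun x => ?_)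
          hle.2, ⟨σ.symm.trans (u₁.trans u₂.symm)⟩⟩
        rw [← LinearEquiv.symm_apply_eq]
        show Submodule.inclusion inf_le_left x + ((0 : LinearMap.ker p) : T) = _
        simp
      obtain ⟨a⟩ := absorbedK hμ huniq e hE (LinearMap.ker p) (habs.congr u₂)
      let b : (ℕ →₀ LinearMap.ker p) ≃ₗ[R] (ℕ →₀ D) := a.trans ε.symm
      exact ⟨b.toLinearMap ∘ₗ Finsupp.lsingle 0, Finsupp.lapply 0 ∘ₗ b.symm.toLinearMap,
        fun z => by simp⟩
    · rw [not_nontrivial_iff_subsingleton] at hZ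
      exact ⟨0, 0, fun s => Subsingleton.elim _ _⟩
  have hex : ∀ A : Set N, A.Countable → ∀ c' : Finset N → Set N, (∀ F, (c' F).Countable) →
      ∃ T : Submodule R N, Cb c T ∧ Closed c₁ (T : Set N) ∧ A ⊆ T ∧ Closed c' (T : Set N) := by
    intro A hA c' hc'
    obtain ⟨T, h1, h2, h3⟩ := exists_sub (R := R) (fun F => c F ∪ c₁ F ∪ c' F)
      (fun F => ((hc F).union (hc₁ F)).union (hc' F)) A hA
    exact ⟨T, ⟨h2, fun F hF x hx => h3 F hF (Or.inl (Or.inl hx))⟩,
      fun F hF x hx => h3 F hF (Or.inl (Or.inr hx)), h1, fun F hF x hx => h3 F hF (Or.inr hx)⟩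
  have hCl : Cl R D (N ⧸ S) := by
    intro c' hc' A hA
    obtain ⟨T, h1, h2, h3, h4⟩ := hex (s '' A) (hA.image _) (fun F => ⋃ x ∈ F, s '' (c' (π x)))
      (fun F => Set.Countable.biUnion F.countable_toSet fun x _ => (hc' _).image _)
    refine ⟨T.map π, fun a ha => ?_, ?_, hT T h1 h2⟩
    · exact ⟨s a, h3 ⟨a, ha, rfl⟩, hs a⟩
    · rintro _ ⟨t, ht, rfl⟩ y hy
      refine ⟨s y, h4 {t} (by simpa using ht) ?_, hs y⟩
      simp only [Finset.mem_singleton, Set.iUnion_iUnion_eq_left]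
      exact ⟨y, hy, rfl⟩
  obtain ⟨ι, ⟨b⟩⟩ := basis hloc hTD hss hCl
  have hv : ∀ i : ι, ∃ v : D →ₗ[R] N, ∀ d, π (v d) = b.symm (Finsupp.single i d) := by
    intro i
    obtain ⟨T, h1, h2, h3, -⟩ := hex (Set.range fun d : D => s (b.symm (Finsupp.single i d)))
      (Set.countable_range _) (fun _ => ∅) (fun _ => Set.countable_empty)
    obtain ⟨r, hr1, hr2, hr3⟩ := hret T h1.1 h2
    obtain ⟨p, k, hp, hk⟩ := exists_compl2 r hr1 hr2 hr3
    let u : D →ₗ[R] T.map π := LinearMap.codRestrict _ (b.symm.toLinearMap ∘ₗ Finsupp.lsingle i)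
      (fun d => ⟨s (b.symm (Finsupp.single i d)), h3 ⟨d, rfl⟩, hs _⟩)
    refine ⟨T.subtype ∘ₗ (LinearMap.ker p).subtype ∘ₗ k.symm.toLinearMap ∘ₗ u, fun d => ?_⟩
    have h5 := hk (k.symm (u d))
    rw [LinearEquiv.apply_symm_apply] at h5
    exact h5.symm
  choose v hv using hv
  let L : (ι →₀ D) →ₗ[R] N := Finsupp.lsum ℕ v
  have hL : ∀ w, π (L w) = b.symm w := by
    intro w
    have : π ∘ₗ L = b.symm.toLinearMap := by
      refine Finsupp.lhom_ext fun i d => ?_
      rw [LinearMap.comp_apply]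
      show π (Finsupp.lsum ℕ v (Finsupp.single i d)) = _
      rw [Finsupp.lsum_single, hv]
      rfl
    exact LinearMap.congr_fun this w
  let σ : (N ⧸ S) →ₗ[R] N := L ∘ₗ b.toLinearMap
  have hσ : ∀ x, π (σ x) = x := by
    intro x
    show π (L (b x)) = x
    rw [hL, LinearEquiv.symm_apply_apply]
  let k1 := splitEquiv σ π hσ
  let k2 : LinearMap.ker π ≃ₗ[R] S := LinearEquiv.ofEq _ _ (Submodule.ker_mkQ S)
  exact ⟨ι, ⟨k1.trans ((LinearEquiv.prodCongr b k2).trans (LinearEquiv.prodComm R _ _))⟩⟩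

end Pool.Agent.Y583.MC
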