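import Pool.Agent.Y583.MF10

set_option autoImplicit false

/-!
Symmetry and interlacing at larger cardinals.
-/

namespace Pool.Agent.Y583.MC

open Cardinal

variable {R : Type} [Ring R]

theorem exists_closed_card {X : Type} (c : Finset X → Set X) (κ : Cardinal.{0}) (hκ : ℵ₀ ≤ κ)
    (hc : ∀ F, #(c F) ≤ κ) (A : Set X) (hA : #A ≤ κ) :
    ∃ W : Set X, A ⊆ W ∧ #W ≤ κ ∧ Closed c W := by
  classical
  let nxt : Set X → Set X := fun W => W ∪ ⋃ F : {F : Finset X // (↑F : Set X) ⊆ W}, c F.1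
  let W : ℕ → Set X := fun n => nxt^[n] A
  have hW : ∀ n, #(W n) ≤ κ := by
    intro n
    induction n with
    | zero => exact hA
    | succ n ih =>
        show #(nxt^[n + 1] A : Set X) ≤ κ
        rw [Function.iterate_succ_apply']
        refine (mk_union_le _ _).trans ?_
        refine add_le_of_le hκ ih ?_
        refine (mk_iUnion_le _).trans ?_
        have h1 : #{F : Finset X // (↑F : Set X) ⊆ W n} ≤ κ := by
          have : #{F : Finset X // (↑F : Set X) ⊆ W n} ≤ #(Finset (W n)) := by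
            refine mk_le_of_injective (f := fun F => F.1.subtype (· ∈ W n)) ?_
            rintro ⟨F, hF⟩ ⟨G, hG⟩ h
            apply Subtype.ext
            ext x
            constructor
            · intro hx
              have hx' : (⟨x, hF hx⟩ : W n) ∈ F.subtype (· ∈ W n) := by simpa using hx
              have h' : F.subtype (· ∈ W n) = G.subtype (· ∈ W n) := h
              rw [h'] at hx'
              simpa using hx'
            · intro hx
              have hx' : (⟨x, hG hx⟩ : W n) ∈ G.subtype (· ∈ W n) := by simpa using hx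
              have h' : F.subtype (· ∈ W n) = G.subtype (· ∈ W n) := h
              rw [← h'] at hx'
              simpa using hx'
          refine this.trans ?_
          rcases finite_or_infinite (W n) with hf | hi
          · exact (Cardinal.lt_aleph0_of_finite _).le.trans hκ
          · rw [mk_finset_of_infinite]; exact ih
        have h2 : (⨆ F : {F : Finset X // (↑F : Set X) ⊆ W n}, #(c F.1)) ≤ κ :=
          ciSup_le' fun F => hc F.1
        exact (mul_le_mul' h1 h2).trans (mul_eq_self hκ).le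
  have hmono : ∀ n, W n ⊆ W (n + 1) := by
    intro n
    show W n ⊆ nxt^[n + 1] A
    rw [Function.iterate_succ_apply']
    exact Set.subset_union_left
  have hmono' : Monotone W := monotone_nat_of_le_succ hmono
  refine ⟨⋃ n, W n, fun x hx => Set.mem_iUnion.2 ⟨0, hx⟩, ?_, ?_⟩
  · refine (mk_iUnion_le _).trans ?_
    have h2 : (⨆ n, #(W n)) ≤ κ := ciSup_le' fun n => hW n
    refine (mul_le_mul' (mk_le_aleph0 (α := ℕ)) h2).trans ?_
    exact (mul_le_mul' hκ le_rfl).trans (mul_eq_self hκ).le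
  · intro F hF x hx
    have key : ∀ G : Finset X, (↑G : Set X) ⊆ ⋃ n, W n → ∃ n, (↑G : Set X) ⊆ W n := by
      intro G
      induction G using Finset.induction_on with
      | empty => intro _; exact ⟨0, by simp⟩
      | insert b G _ ih =>
          intro hG
          rw [Finset.coe_insert, Set.insert_subset_iff] at hG
          obtain ⟨n, hn⟩ := ih hG.2
          obtain ⟨m, hm⟩ := Set.mem_iUnion.1 hG.1
          refine ⟨max n m, ?_⟩
          rw [Finset.coe_insert, Set.insert_subset_iff]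
          exact ⟨hmono' (le_max_right _ _) hm, hn.trans (hmono' (le_max_left _ _))⟩
    obtain ⟨n, hn⟩ := key F hF
    refine Set.mem_iUnion.2 ⟨n + 1, ?_⟩
    show x ∈ nxt^[n + 1] A
    rw [Function.iterate_succ_apply']
    exact Or.inr (Set.mem_iUnion.2 ⟨⟨F, hn⟩, hx⟩)

section
variable {E D : Type} [AddCommGroup E] [Module R E] [AddCommGroup D] [Module R D]
variable {ν : Cardinal.{0}} {κ I : Type}

theorem card_Pw_fin (hν : ℵ₀ ≤ ν) (hE : #E ≤ ν) (hD : #D ≤ ν) (F : Finset κ) :
    #(Pw R E D (↑F : Set κ)) ≤ ν := by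
  have h1 : #(Pw R E D (↑F : Set κ)) ≤ #(E × (Fin F.card → D)) := by
    refine mk_le_of_injective (f := fun x => (x.1.1, fun i => x.1.2 (F.equivFin.symm i : κ))) ?_
    rintro ⟨⟨a, w⟩, hw⟩ ⟨⟨b, w'⟩, hw'⟩ h
    have h2 : a = b := congrArg Prod.fst h
    have h3 : (fun i => w (F.equivFin.symm i : κ)) = fun i => w' (F.equivFin.symm i : κ) :=
      congrArg Prod.snd h
    apply Subtype.ext
    refine Prod.ext h2 (Finsupp.ext fun i => ?_)
    by_cases hi : i ∈ F
    · have := congrFun h3 (F.equivFin ⟨i, hi⟩)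
      simpa using this
    · exact (mem_Pw.1 hw i (by simpa using hi)).trans (mem_Pw.1 hw' i (by simpa using hi)).symm
  refine h1.trans ?_
  rw [mk_prod, Cardinal.lift_id, Cardinal.lift_id]
  have h2 : #(Fin F.card → D) ≤ ν := by
    rw [mk_pi, Cardinal.prod_const]
    simp only [Cardinal.lift_id, mk_fin, Cardinal.lift_natCast]
    have : #D ^ ((F.card : ℕ) : Cardinal.{0}) ≤ ν ^ ((F.card : ℕ) : Cardinal.{0}) :=
      Cardinal.power_le_power_right hD
    refine this.trans ?_
    rw [Cardinal.power_natCast]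
    exact power_nat_le hν
  exact (mul_le_mul' hE h2).trans (mul_eq_self hν).le

theorem Pw_fin {J : Set I} {x : E × (I →₀ D)} (hx : x ∈ Pw R E D J) :
    (↑x.2.support : Set I) ⊆ J ∧ x ∈ Pw R E D (↑x.2.support : Set I) := by
  constructor
  · intro i hi
    by_contra hcon
    exact (Finsupp.mem_support_iff.1 hi) (mem_Pw.1 hx i hcon)
  · refine mem_Pw.2 fun i hi => ?_
    by_contra hcon
    exact hi (by simpa using hcon)

theorem pow_closed (hν : ℵ₀ ≤ ν) (hE : #E ≤ ν) (hD : #D ≤ ν)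
    (c : Finset (E × (κ →₀ D)) → Set (E × (κ →₀ D))) (hc : ∀ F, (c F).Countable) (A : Set κ)
    (hA : #A ≤ ν) :
    ∃ J : Set κ, A ⊆ J ∧ #J ≤ ν ∧ Closed c ((Pw R E D J : Submodule R (E × (κ →₀ D))) :
      Set (E × (κ →₀ D))) := by
  classical
  let inl' : (E × (κ →₀ D)) → (E × (κ →₀ D)) ⊕ κ := Sum.inl
  let inr' : κ → (E × (κ →₀ D)) ⊕ κ := Sum.inr
  let c' : Finset ((E × (κ →₀ D)) ⊕ κ) → Set ((E × (κ →₀ D)) ⊕ κ) := fun F =>
    inl' '' c F.toLeft ∪ inr' '' (⋃ x ∈ F.toLeft, (↑x.2.support : Set κ)) ∪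
      inl' '' ((Pw R E D (↑F.toRight : Set κ) : Submodule R (E × (κ →₀ D))) :
        Set (E × (κ →₀ D)))
  have hc' : ∀ F, #(c' F) ≤ ν := by
    intro F
    refine (mk_union_le _ _).trans (add_le_of_le hν ((mk_union_le _ _).trans
      (add_le_of_le hν ?_ ?_)) ?_)
    · exact (le_aleph0_iff_set_countable.2 ((hc _).image _)).trans hν
    · refine (le_aleph0_iff_set_countable.2 (Set.Countable.image ?_ _)).trans hν
      exact Set.Countable.biUnion F.toLeft.countable_toSet fun x _ => x.2.support.countable_toSet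
    · exact mk_image_le.trans (card_Pw_fin hν hE hD _)
  obtain ⟨W, h1, h2, h3⟩ := exists_closed_card c' ν hν hc' (inr' '' A) (mk_image_le.trans hA)
  have hsup : ∀ x, inl' x ∈ W → (↑x.2.support : Set κ) ⊆ inr' ⁻¹' W := by
    intro x hx i hi
    refine h3 {inl' x} (by simpa using hx) (Or.inl (Or.inr ⟨i, ?_, rfl⟩))
    refine Set.mem_iUnion₂.2 ⟨x, ?_, hi⟩
    simp [inl']
  refine ⟨inr' ⁻¹' W, fun a ha => h1 ⟨a, ha, rfl⟩, ?_, fun F hF x hx => ?_⟩
  · refine (mk_preimage_of_injective _ _ Sum.inr_injective).trans h2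
  · have h4 : ∀ y ∈ F, inl' y ∈ W := by
      intro y hy
      obtain ⟨h5, h6⟩ := Pw_fin (hF hy)
      refine h3 (y.2.support.map Function.Embedding.inr) ?_ (Or.inr ⟨y, ?_, rfl⟩)
      · intro z hz
        rw [Finset.coe_map] at hz
        obtain ⟨i, hi, rfl⟩ := hz
        exact h5 hi
      · have : (y.2.support.map Function.Embedding.inr :
            Finset ((E × (κ →₀ D)) ⊕ κ)).toRight = y.2.support := by
          ext i; simp
        rw [this]
        exact h6
    have h7 : inl' x ∈ W := by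
      refine h3 (F.map Function.Embedding.inl) ?_ (Or.inl (Or.inl ⟨x, ?_, rfl⟩))
      · intro z hz
        rw [Finset.coe_map] at hz
        obtain ⟨i, hi, rfl⟩ := hz
        exact h4 i hi
      · have : (F.map Function.Embedding.inl :
            Finset ((E × (κ →₀ D)) ⊕ κ)).toLeft = F := by
          ext i; simp
        rw [this]
        exact hx
    refine mem_Pw.2 fun i hi => ?_
    by_contra hcon
    exact hi (hsup x h7 (by simpa using hcon))

theorem map_mp {A B : Type} (f : A → B) (J : Set A) :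
    (Pw R E D J).map (mp (R := R) E D f) = Pw R E D (f '' J) := by
  ext y
  constructor
  · rintro ⟨x, hx, rfl⟩
    refine ⟨trivial, ?_⟩
    rw [← Finsupp.lmapDomain_supported]
    exact ⟨x.2, hx.2, rfl⟩
  · rintro ⟨-, hy⟩
    rw [← Finsupp.lmapDomain_supported] at hy
    obtain ⟨w, hw, hw'⟩ := hy
    exact ⟨(y.1, w), ⟨trivial, hw⟩, Prod.ext rfl hw'⟩

theorem Pw_sub [Nontrivial D] {A B : Set I} (h : Pw R E D A ≤ Pw R E D B) : A ⊆ B := by
  classical
  intro i hi
  obtain ⟨z, hz⟩ := exists_ne (0 : D)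
  by_contra hcon
  have h1 : ((0 : E), Finsupp.single i z) ∈ Pw R E D B := by
    refine h (mem_Pw.2 fun i' hi' => ?_)
    show (Finsupp.single i z) i' = 0
    rw [Finsupp.single_apply, if_neg]
    rintro rfl
    exact hi' hi
  have h3 : (Finsupp.single i z) i = 0 := mem_Pw.1 h1 i hcon
  rw [Finsupp.single_eq_same] at h3
  exact hz h3

/-- If `E × D^(κ)` is a member with `κ` large, then so is `E × D^(I)` for all `I`. -/
theorem perm_pow {K : KK R} [Nontrivial D] (hν : ℵ₀ ≤ ν) (hE : #E ≤ ν) (hD : #D ≤ ν)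
    (hκ : ν < #κ) (hK : K.mem (E × (κ →₀ D))) (hI : ν ≤ #I) : K.mem (E × (I →₀ D)) := by
  classical
  haveI : Infinite κ := infinite_iff.2 (hν.trans hκ.le)
  haveI : Nonempty κ := inferInstance
  obtain ⟨c, hc, hstr⟩ := KK.exists_strong hK
  obtain ⟨A₀, hA₀⟩ := le_mk_iff_exists_set.1 hκ.le
  obtain ⟨J, j1, j2, j3⟩ := pow_closed (R := R) hν hE hD c hc A₀ hA₀.le
  have hJ : #J = ν := le_antisymm j2 (hA₀ ▸ mk_le_mk_of_subset j1)
  have hJK : K.le (Pw R E D J) ⊤ := hstr _ j3
  -- all subsets of cardinality `ν`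
  have hall : ∀ J₂ : Set κ, #J₂ = ν → K.le (Pw R E D J₂) ⊤ := by
    intro J₂ hJ₂
    obtain ⟨u⟩ : Nonempty (J ≃ J₂) := Cardinal.eq.1 (hJ.trans hJ₂.symm)
    let f : J ↪ κ := u.toEmbedding.trans (Function.Embedding.subtype _)
    obtain ⟨g, hg⟩ := extend_function_of_lt f (by rw [hJ]; exact hκ) ⟨Equiv.refl κ⟩
    have h1 : g '' J = J₂ := by
      ext i
      constructor
      · rintro ⟨a, ha, rfl⟩
        rw [hg ⟨a, ha⟩]
        exact (u ⟨a, ha⟩).2
      · intro hi
        refine ⟨u.symm ⟨i, hi⟩, (u.symm ⟨i, hi⟩).2, ?_⟩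
        rw [hg (u.symm ⟨i, hi⟩)]
        show ((u (u.symm ⟨i, hi⟩) : J₂) : κ) = i
        rw [Equiv.apply_symm_apply]
    have h2 := KK.le_map (mp (R := R) E D g) (mp_inj g.injective) hJK
    rw [map_mp, h1, Submodule.map_top, range_mp g.injective, g.surjective.range_eq, Pw_univ] at h2
    exact h2
  -- the directed family
  let ι : Type := {A : Set I // #A = ν}
  obtain ⟨B₀, hB₀⟩ := le_mk_iff_exists_set.1 hI
  haveI : Nonempty ι := ⟨⟨B₀, hB₀⟩⟩
  have hun : ∀ A B : Set I, #A = ν → #B ≤ ν → #(A ∪ B : Set I) = ν := by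
    intro A B hA hB
    refine le_antisymm ((mk_union_le _ _).trans (add_le_of_le hν hA.le hB)) ?_
    rw [← hA]
    exact mk_le_mk_of_subset Set.subset_union_left
  have hdir : Directed (· ≤ ·) fun A : ι => Pw R E D A.1 := by
    intro A B
    exact ⟨⟨A.1 ∪ B.1, hun _ _ A.2 B.2.le⟩, Pw_mono Set.subset_union_left,
      Pw_mono Set.subset_union_right⟩
  have hle : ∀ A B : ι, Pw R E D A.1 ≤ Pw R E D B.1 → K.le (Pw R E D A.1) (Pw R E D B.1) := by
    intro A B hAB
    have hAB' : A.1 ⊆ B.1 := Pw_sub hAB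
    obtain ⟨v⟩ : Nonempty (B.1 ↪ κ) := by
      rw [← Cardinal.le_def, B.2]
      exact hκ.le
    let h' : I → κ := fun i => if hi : i ∈ B.1 then v ⟨i, hi⟩ else Classical.arbitrary κ
    have hh' : Set.InjOn h' B.1 := by
      intro i hi j hj hij
      have h3 : v ⟨i, hi⟩ = v ⟨j, hj⟩ := by
        have e1 : h' i = v ⟨i, hi⟩ := dif_pos hi
        have e2 : h' j = v ⟨j, hj⟩ := dif_pos hj
        rw [← e1, ← e2, hij]
      exact congrArg Subtype.val (v.injective h3)
    let k : Pw R E D B.1 →ₗ[R] (E × (κ →₀ D)) := mp (R := R) E D h' ∘ₗ (Pw R E D B.1).subtype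
    have hk : Function.Injective k := by
      rintro ⟨⟨a, w⟩, hw⟩ ⟨⟨b, w'⟩, hw'⟩ h
      have h4 : (a, Finsupp.mapDomain h' w) = (b, Finsupp.mapDomain h' w') := h
      rw [Prod.mk.injEq] at h4
      apply Subtype.ext
      refine Prod.ext h4.1 ?_
      exact Finsupp.mapDomain_injOn B.1 hh' (Pw_fin hw).1 (Pw_fin hw').1 h4.2
    refine KK.le_of_local hAB k hk ?_
    have e1 : ((Pw R E D A.1).comap (Pw R E D B.1).subtype).map k = Pw R E D (h' '' A.1) := by
      rw [← map_mp]
      show Submodule.map (mp (R := R) E D h' ∘ₗ (Pw R E D B.1).subtype) _ = _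
      rw [Submodule.map_comp, Submodule.map_comap_subtype, inf_eq_right.2 hAB]
    have e2 : LinearMap.range k = Pw R E D (h' '' B.1) := by
      rw [← map_mp, LinearMap.range_comp, Submodule.range_subtype]
    rw [e1, e2]
    have c1 : #(h' '' A.1) = ν := by
      rw [mk_image_eq_of_injOn _ _ (hh'.mono hAB'), A.2]
    have c2 : #(h' '' B.1) = ν := by
      rw [mk_image_eq_of_injOn _ _ hh', B.2]
    exact (hall _ c1).coh (hall _ c2) (Pw_mono (Set.image_mono hAB'))
  have h5 := KK.le_iSup (fun A : ι => Pw R E D A.1) hdir hle ⟨B₀, hB₀⟩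
  have h6 : (⨆ A : ι, Pw R E D A.1) = ⊤ := by
    rw [eq_top_iff]
    intro x _
    refine (le_iSup (fun A : ι => Pw R E D A.1) ⟨B₀ ∪ ↑x.2.support, hun _ _ hB₀ ?_⟩) ?_
    · exact (le_aleph0_iff_set_countable.2 x.2.support.countable_toSet).trans hν
    · refine Pw_mono Set.subset_union_right (mem_Pw.2 fun i hi => ?_)
      by_contra hcon
      exact hi (by simpa using hcon)
  rw [h6] at h5
  exact KK.top_iff.2 h5.mem_right

/-- the part supported on `J` as a direct power -/
noncomputable def Pw_equiv (J : Set I) : Pw R E D J ≃ₗ[R] (E × (J →₀ D)) :=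
  (prodSub (⊤ : Submodule R E) (Finsupp.supported D R J)).trans
    (LinearEquiv.prodCongr Submodule.topEquiv (Finsupp.supportedEquivFinsupp J))

theorem interlace_card {E' : Type} [AddCommGroup E'] [Module R E'] (hν : ℵ₀ ≤ ν) (hE : #E ≤ ν)
    (hE' : #E' ≤ ν) (hD : #D ≤ ν) (hI : ν ≤ #I)
    (Θ : (E × (I →₀ D)) ≃ₗ[R] (E' × (I →₀ D))) :
    ∃ J : Type, #J = ν ∧ Nonempty ((E × (J →₀ D)) ≃ₗ[R] (E' × (J →₀ D))) := by
  classical
  let inl' : I → I ⊕ I := Sum.inl
  let inr' : I → I ⊕ I := Sum.inr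
  let c : Finset (I ⊕ I) → Set (I ⊕ I) := fun F =>
    inr' '' (⋃ x ∈ ((Pw R E D (↑F.toLeft : Set I) : Submodule R (E × (I →₀ D))) :
      Set (E × (I →₀ D))), (↑(Θ x).2.support : Set I)) ∪
    inl' '' (⋃ x ∈ ((Pw R E' D (↑F.toRight : Set I) : Submodule R (E' × (I →₀ D))) :
      Set (E' × (I →₀ D))), (↑(Θ.symm x).2.support : Set I))
  have hc : ∀ F, #(c F) ≤ ν := by
    intro F
    refine (mk_union_le _ _).trans (add_le_of_le hν (mk_image_le.trans ?_)
      (mk_image_le.trans ?_))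
    · refine (mk_biUnion_le _ _).trans ?_
      refine (mul_le_mul' (card_Pw_fin (R := R) hν hE hD _) (ciSup_le' fun x => ?_)).trans
        (mul_eq_self hν).le
      exact (le_aleph0_iff_set_countable.2 (Finset.countable_toSet _)).trans hν
    · refine (mk_biUnion_le _ _).trans ?_
      refine (mul_le_mul' (card_Pw_fin (R := R) hν hE' hD _) (ciSup_le' fun x => ?_)).trans
        (mul_eq_self hν).le
      exact (le_aleph0_iff_set_countable.2 (Finset.countable_toSet _)).trans hν
  obtain ⟨B₀, hB₀⟩ := le_mk_iff_exists_set.1 hI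
  obtain ⟨W, h1, h2, h3⟩ := exists_closed_card c ν hν hc (inl' '' B₀ ∪ inr' '' B₀)
    ((mk_union_le _ _).trans (add_le_of_le hν (mk_image_le.trans hB₀.le)
      (mk_image_le.trans hB₀.le)))
  let J : Set I := inl' ⁻¹' W
  let J' : Set I := inr' ⁻¹' W
  have hJ : #J = ν := by
    refine le_antisymm ((mk_preimage_of_injective _ _ Sum.inl_injective).trans h2) ?_
    rw [← hB₀]
    exact mk_le_mk_of_subset fun x hx => h1 (Or.inl ⟨x, hx, rfl⟩)
  have hJ' : #J' = ν := by
    refine le_antisymm ((mk_preimage_of_injective _ _ Sum.inr_injective).trans h2) ?_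
    rw [← hB₀]
    exact mk_le_mk_of_subset fun x hx => h1 (Or.inr ⟨x, hx, rfl⟩)
  have k1 : ∀ x ∈ Pw R E D J, Θ x ∈ Pw R E' D J' := by
    intro x hx
    obtain ⟨h5, h6⟩ := Pw_fin hx
    refine mem_Pw.2 fun i hi => ?_
    by_contra hcon
    refine hi (h3 (x.2.support.map Function.Embedding.inl) ?_ (Or.inl ⟨i, ?_, rfl⟩))
    · intro z hz
      rw [Finset.coe_map] at hz
      obtain ⟨i, hi, rfl⟩ := hz
      exact h5 hi
    · refine Set.mem_iUnion₂.2 ⟨x, ?_, by simpa using hcon⟩
      have : (x.2.support.map Function.Embedding.inl : Finset (I ⊕ I)).toLeft = x.2.support := by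
        ext i; simp
      rw [this]
      exact h6
  have k2 : ∀ x ∈ Pw R E' D J', Θ.symm x ∈ Pw R E D J := by
    intro x hx
    obtain ⟨h5, h6⟩ := Pw_fin hx
    refine mem_Pw.2 fun i hi => ?_
    by_contra hcon
    refine hi (h3 (x.2.support.map Function.Embedding.inr) ?_ (Or.inr ⟨i, ?_, rfl⟩))
    · intro z hz
      rw [Finset.coe_map] at hz
      obtain ⟨i, hi, rfl⟩ := hz
      exact h5 hi
    · refine Set.mem_iUnion₂.2 ⟨x, ?_, by simpa using hcon⟩
      have : (x.2.support.map Function.Embedding.inr : Finset (I ⊕ I)).toRight = x.2.support := by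
        ext i; simp
      rw [this]
      exact h6
  let g : Pw R E D J ≃ₗ[R] Pw R E' D J' :=
    LinearEquiv.ofLinear ((Θ : (E × (I →₀ D)) →ₗ[R] (E' × (I →₀ D))).restrict k1)
      ((Θ.symm : (E' × (I →₀ D)) →ₗ[R] (E × (I →₀ D))).restrict k2)
      (LinearMap.ext fun x => Subtype.ext (Θ.apply_symm_apply x.1))
      (LinearMap.ext fun x => Subtype.ext (Θ.symm_apply_apply x.1))
  obtain ⟨u⟩ : Nonempty (J' ≃ J) := Cardinal.eq.1 (hJ'.trans hJ.symm)
  exact ⟨J, hJ, ⟨(Pw_equiv J).symm.trans (g.trans ((Pw_equiv J').trans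
    (LinearEquiv.prodCongr (LinearEquiv.refl R E') (Finsupp.domLCongr u))))⟩⟩

theorem absorb_card {E' J : Type} [AddCommGroup E'] [Module R E']
    (hJκ : #J ≤ #κ) [Infinite κ]
    (Θ : (E × (J →₀ D)) ≃ₗ[R] (E' × (J →₀ D))) :
    Nonempty ((E × (κ →₀ D)) ≃ₗ[R] (E' × (κ →₀ D))) := by
  obtain ⟨u⟩ : Nonempty (κ ≃ J ⊕ κ) := by
    rw [← Cardinal.eq, mk_sum, Cardinal.lift_id, Cardinal.lift_id]
    exact (add_eq_right (infinite_iff.1 inferInstance) hJκ).symm
  let a : (κ →₀ D) ≃ₗ[R] ((J →₀ D) × (κ →₀ D)) :=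
    (Finsupp.domLCongr u).trans (Finsupp.sumFinsuppLEquivProdFinsupp R)
  let b : ∀ (F : Type) [AddCommGroup F] [Module R F], (F × (κ →₀ D)) ≃ₗ[R]
      ((F × (J →₀ D)) × (κ →₀ D)) := fun F _ _ =>
    (LinearEquiv.prodCongr (LinearEquiv.refl R F) a).trans
      { toFun := fun x => ((x.1, x.2.1), x.2.2)
        invFun := fun x => (x.1.1, (x.1.2, x.2))
        left_inv := fun x => rfl
        right_inv := fun x => rfl
        map_add' := fun x y => rfl
        map_smul' := fun r x => rfl }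
  exact ⟨(b E).trans ((LinearEquiv.prodCongr Θ (LinearEquiv.refl R _)).trans (b E').symm)⟩

end

end Pool.Agent.Y583.MC
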