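import Pool.Agent.Y583.MF11

set_option autoImplicit false

/-!
The main theorem about abstract elementary classes of modules over a countable ring.
-/

namespace Pool.Agent.Y583.MC

open Cardinal Pool.Agent.W879.AE
open Pool.Agent.H288R4.LS (bethFrom hanf bethFrom_succ bethFrom_zero bethFrom_le_limit)

variable {R : Type} [Ring R]

section
variable {E X D C : Type} [AddCommGroup E] [Module R E] [AddCommGroup X] [Module R X]
  [AddCommGroup D] [Module R D] [AddCommGroup C] [Module R C]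

theorem Abs.pows {K : KK R} (h : Abs K E X) : Abs K (E × (ℕ →₀ X)) (ℕ →₀ X) := by
  let u : ((E × (ℕ →₀ X)) × (ℕ →₀ X)) ≃ₗ[R] (E × (ℕ ⊕ ℕ →₀ X)) :=
    LinearEquiv.trans
      { toFun := fun x => (x.1.1, (x.1.2, x.2))
        invFun := fun x => ((x.1, x.2.1), x.2.2)
        left_inv := fun x => rfl
        right_inv := fun x => rfl
        map_add' := fun x y => rfl
        map_smul' := fun r x => rfl }
      (LinearEquiv.prodCongr (LinearEquiv.refl R E) (Finsupp.sumFinsuppLEquivProdFinsupp R).symm)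
  have hu : ∀ x, u (x, 0) = mp (R := R) E X Sum.inl x := by
    rintro ⟨a, w⟩
    refine Prod.ext rfl (Finsupp.ext fun i => ?_)
    show ((Finsupp.sumFinsuppLEquivProdFinsupp R).symm (w, 0)) i = (Finsupp.mapDomain Sum.inl w) i
    rcases i with i | i
    · rw [Finsupp.sumFinsuppLEquivProdFinsupp_symm_inl, Finsupp.mapDomain_apply Sum.inl_injective]
    · rw [Finsupp.sumFinsuppLEquivProdFinsupp_symm_inr,
        Finsupp.mapDomain_notin_range _ _ (by simp)]
      rfl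
  refine ⟨K.emb_congr (LinearEquiv.refl R _) u.symm (mp E X Sum.inl) _ (fun x => ?_)
    (emb_mp h Sum.inl_injective), ⟨u.trans (LinearEquiv.prodCongr (LinearEquiv.refl R E)
      (Finsupp.domLCongr Equiv.natSumNatEquivNat))⟩⟩
  rw [← hu]
  simp

theorem pow_CD (ε : (ℕ →₀ D) ≃ₗ[R] C) (κ : Type) [Infinite κ] :
    Nonempty ((κ →₀ C) ≃ₗ[R] (κ →₀ D)) := by
  obtain ⟨f⟩ : Nonempty (κ × ℕ ≃ κ) := by
    rw [← Cardinal.eq, mk_prod, Cardinal.lift_id, Cardinal.lift_id, mk_nat]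
    exact mul_eq_left (infinite_iff.1 inferInstance) (infinite_iff.1 inferInstance)
      aleph0_ne_zero
  exact ⟨(Finsupp.mapRange.linearEquiv ε.symm).trans
    ((Finsupp.curryLinearEquiv R).symm.trans (Finsupp.domLCongr f))⟩

theorem mk_finsupp_le {ι : Type} {ν : Cardinal.{0}} (hν : ℵ₀ ≤ ν) (hι : #ι ≤ ν) (hD : #D ≤ ν) :
    #(ι →₀ D) ≤ ν := by
  classical
  have h1 : #(ι →₀ D) ≤ #(Finset (ι × D)) := mk_le_of_injective (Finsupp.graph_injective ι D)
  have h2 : #(ι × D) ≤ ν := by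
    rw [mk_prod, Cardinal.lift_id, Cardinal.lift_id]
    exact (mul_le_mul' hι hD).trans (mul_eq_self hν).le
  refine h1.trans ?_
  rcases finite_or_infinite (ι × D) with hf | hi
  · exact (Cardinal.lt_aleph0_of_finite _).le.trans hν
  · rw [mk_finset_of_infinite]; exact h2

end

theorem main_KK [Countable R] (K : KK R) (μ : Cardinal.{0}) (hμH : hanf ℵ₀ ≤ μ)
    (huniq : UniqK K μ)
    (hex : ∃ (M : Type) (_ : AddCommGroup M) (_ : Module R M), #M = μ ∧ K.mem M) :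
    ∃ (E : Type) (_ : AddCommGroup E) (_ : Module R E) (D : Type) (_ : AddCommGroup D)
      (_ : Module R D) (z : D), Countable E ∧ Countable D ∧ Loc R D z ∧ TP R D ∧
      (∀ κ : Type, Infinite κ → K.mem (E × (κ →₀ D))) ∧
      ∀ (N : Type) [AddCommGroup N] [Module R N], K.mem N → hanf ℵ₀ ≤ #N →
        ∃ κ : Type, #κ = #N ∧ Nonempty (N ≃ₗ[R] (E × (κ →₀ D))) := by
  classical
  have hlim := del_lim (lam := ℵ₀) le_rfl
  have hbf : ∀ α : Ordinal.{0}, α < del ℵ₀ → bethFrom ℵ₀ α < hanf ℵ₀ := by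
    intro α hα
    have h1 : bethFrom ℵ₀ (α + 1) ≤ hanf ℵ₀ := by
      refine bethFrom_le_limit ℵ₀ hlim ?_
      rw [← Order.succ_eq_add_one]
      exact hlim.succ_lt hα
    rw [bethFrom_succ] at h1
    exact (Cardinal.cantor _).trans_le h1
  have hμ : ℵ₀ < μ := (bethFrom_zero ℵ₀ ▸ hbf 0 hlim.bot_lt).trans_le hμH
  obtain ⟨M, iM1, iM2, hMc, hM⟩ := hex
  obtain ⟨E, iE1, iE2, X, iX1, iX2, hEc, hXc, hXn, -, hab, habs⟩ := em_K hM
    (fun α hα => (hbf α hα).le.trans (hμH.trans_eq hMc.symm)) (.lin fun _ => 0) (by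
      show (∑ i : Fin 0, _) = _
      simp)
  let C : Type := ℕ →₀ X
  haveI : Countable C := inferInstanceAs (Countable (ℕ →₀ X))
  obtain ⟨x0, hx0⟩ := exists_ne (0 : X)
  haveI : Nontrivial C := ⟨⟨Finsupp.single 0 x0, 0, fun h => hx0 (Finsupp.single_eq_zero.1 h)⟩⟩
  obtain ⟨e⟩ : Nonempty (C ≃ₗ[R] (ℕ →₀ C)) := pow_pow (R := R) X
  have hE : Abs K (E × C) C := habs.pows
  obtain ⟨D, iD1, iD2, z, hDc, hloc, hTP, hTP', ⟨ε⟩, hss⟩ := exists_DK hμ huniq e hE
  haveI : Nontrivial D := ⟨⟨z, 0, hloc.1⟩⟩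
  obtain ⟨σ, φ, hσ1, hσ2⟩ := exists_scott (R := R) (E × C)
  -- an index set of cardinality `μ`
  let I : Type := μ.out
  have hI : #I = μ := mk_out μ
  haveI : Infinite I := infinite_iff.2 (by rw [hI]; exact hμ.le)
  obtain ⟨h1, h2⟩ := model_K (I := I) hE
  obtain ⟨θ⟩ : Nonempty ((C × C) ≃ₗ[R] C) := absorb e LinearMap.id LinearMap.id fun _ => rfl
  have habE : Ab R (E × C) C := (ab_of e θ).prod
  have h1σ : Holds σ ((E × C) × (I →₀ C)) := (sim_holds (ab_sim habE I) σ).2 hσ1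
  have hscott : ∀ (N : Type) [AddCommGroup N] [Module R N], K.mem N → hanf ℵ₀ ≤ #N →
      Holds σ N := by
    intro N _ _ hN hc
    by_contra hcon
    obtain ⟨E', iE1', iE2', X', iX1', iX2', hEc', hXc', hXn', hEψ', hab', habs'⟩ :=
      em_K hN (fun α hα => (hbf α hα).le.trans hc) (.neg σ) hcon
    haveI : Infinite (I →₀ X') := by
      rw [infinite_iff, mk_pow']; exact infinite_iff.1 inferInstance
    have h3 : #(E' × (I →₀ X')) = μ := by rw [mk_prod_count, mk_pow', hI]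
    obtain ⟨Θ⟩ := huniq _ _ h3 (h2.trans hI) (pow_mem habs' I) h1
    have h4 : ¬ Holds σ (E' × (I →₀ X')) := (sim_holds (ab_sim hab' I) (.neg σ)).2 hEψ'
    exact h4 ((holds_iso σ Θ).2 h1σ)
  refine ⟨E × C, inferInstance, inferInstance, D, iD1, iD2, z, inferInstance, hDc, hloc, hTP,
    fun κ hκ => ?_, fun N _ _ hN hc => ?_⟩
  · obtain ⟨f⟩ := pow_CD ε κ
    exact K.mem_iso (LinearEquiv.prodCongr (LinearEquiv.refl R _) f) (pow_mem hE κ)
  · obtain ⟨cs, hcs1, hcs2, hcs3⟩ := exists_scott_closure (E × C) σ φ hσ2 N (hscott N hN hc)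
    obtain ⟨ck, hck1, hck2⟩ := KK.exists_strong hN
    let c : Finset N → Set N := fun F => cs F ∪ ck F
    have hcc : ∀ F, (c F).Countable := fun F => (hcs1 F).union (hck1 F)
    have hcS : ∀ S : Submodule R N, Closed c (S : Set N) → Closed cs (S : Set N) :=
      fun S hS F hF x hx => hS F hF (Or.inl hx)
    have hcK : ∀ S : Submodule R N, Closed c (S : Set N) → Closed ck (S : Set N) :=
      fun S hS F hF x hx => hS F hF (Or.inr hx)
    have hstr : ∀ S : Submodule R N, Closed c (S : Set N) → K.le S ⊤ :=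
      fun S hS => hck2 S (hcK S hS)
    have hcE : ∀ S : Submodule R N, Cb c S → Nonempty (S ≃ₗ[R] (E × C)) :=
      fun S hS => hcs2 S hS.1 (hcS S hS.2)
    have hiso : ∀ S T : Submodule R N, Cb c S → Cb c T → S ≤ T → IsoFix S T :=
      fun S T hS hT hST => hcs3 S T hS.1 (hcS S hS.2) hT.1 (hcS T hT.2) hST
    obtain ⟨α, hα, htame⟩ : ∃ α : Ordinal.{0}, α < del ℵ₀ ∧ ∀ N' : Submodule R N,
        Closed c (N' : Set N) → bethFrom ℵ₀ α ≤ #N' → Tame c N' := by
      by_contra hcon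
      push Not at hcon
      obtain ⟨E₁, X₁, E₂, X₂, i1, i2, i3, i4, i5, i6, i7, i8, i, j, h⟩ :=
        wild_pair (K := K) c hcc hstr hiso (fun α hα => by
          obtain ⟨N', h3, h4, h5⟩ := hcon α hα
          exact ⟨N', h3, h5, h4⟩)
      exact wild_contra hμ huniq h
    have hν : ℵ₀ ≤ bethFrom ℵ₀ α := le_bethFrom _ _
    have hνN : bethFrom ℵ₀ α < #N := (hbf α hα).trans_le hc
    obtain ⟨Y, hY⟩ := le_mk_iff_exists_set.1 hνN.le
    obtain ⟨N', h5, h6, h7, -⟩ := lowenheim (R := R) (N := N) (.lin fun _ => 0) (by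
      show (∑ i : Fin 0, _) = _
      simp) c hcc (bethFrom ℵ₀ α) hν Y hY.le
    have hN' : #N' = bethFrom ℵ₀ α := le_antisymm h6 (hY ▸ mk_le_mk_of_subset h5)
    obtain ⟨ι, ⟨f⟩⟩ := structure_tame hμ huniq e hE hloc hTP' ε hss c hcc hcE hiso hstr h7
      (htame N' h7 hN'.ge)
    have hDν : #D ≤ bethFrom ℵ₀ α := (mk_le_aleph0).trans hν
    have hι : bethFrom ℵ₀ α < #ι := by
      by_contra hcon
      rw [not_lt] at hcon
      have h8 : #N ≤ bethFrom ℵ₀ α := by
        rw [mk_congr f.toEquiv, mk_prod, Cardinal.lift_id, Cardinal.lift_id, hN']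
        exact (mul_le_mul' le_rfl (mk_finsupp_le hν hcon hDν)).trans (mul_eq_self hν).le
      exact absurd hνN (not_lt.2 h8)
    haveI : Infinite ι := infinite_iff.2 (hν.trans hι.le)
    have hιN : #ι = #N := by
      rw [mk_congr f.toEquiv, mk_prod, Cardinal.lift_id, Cardinal.lift_id, hN',
        mk_pow ι D ((mk_le_aleph0).trans (infinite_iff.1 inferInstance))]
      exact (mul_eq_right (hν.trans hι.le) hι.le (aleph0_pos.trans_le hν).ne').symm
    have hνμ : bethFrom ℵ₀ α ≤ μ := (hbf α hα).le.trans hμH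
    have h9 : K.mem (N' × (I →₀ D)) := perm_pow hν hN'.le hDν hι (K.mem_iso f hN)
      (by rw [hI]; exact hνμ)
    have h10 : #(N' × (I →₀ D)) = μ := by
      rw [mk_prod, Cardinal.lift_id, Cardinal.lift_id, hN',
        mk_pow I D ((mk_le_aleph0).trans (infinite_iff.1 inferInstance)), hI]
      exact mul_eq_right hμ.le hνμ (aleph0_pos.trans_le hν).ne'
    obtain ⟨Θ⟩ := huniq _ _ h10 (h2.trans hI) h9 h1
    obtain ⟨g⟩ := pow_CD ε I
    obtain ⟨J, hJ, ⟨Θ₁⟩⟩ := interlace_card (ν := bethFrom ℵ₀ α) hν hN'.le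
      ((mk_le_aleph0 (α := E × C)).trans hν) hDν (by rw [hI]; exact hνμ)
      (Θ.trans (LinearEquiv.prodCongr (LinearEquiv.refl R _) g))
    obtain ⟨Θ₂⟩ := absorb_card (κ := ι) (by rw [hJ]; exact hι.le) Θ₁
    exact ⟨ι, hιN, ⟨f.trans Θ₂⟩⟩

end Pool.Agent.Y583.MC
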