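import Pool.Agent.Y583.MF12
import Pool.Agent.TH767.DS.AecFinal

set_option autoImplicit false

/-!
Abstract elementary classes of modules in the language of modules.
-/

namespace Pool.Agent.Y583.MC

open Cardinal FirstOrder Pool.Agent.TH767.DS
open Pool.Agent.H288R4.LS (hanf)

attribute [local instance] modStr

variable {R : Type} [Ring R]

section
variable {N : Type} [AddCommGroup N] [Module R N]

/-- submodules are substructures -/
def toSub : Submodule R N ≃o (Lmod R).Substructure N where
  toFun S :=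
    { carrier := S
      fun_mem := fun {n} g x hx => by
        change ModFun R n at g
        cases g with
        | zero => exact S.zero_mem
        | neg => exact S.neg_mem (hx 0)
        | smul r => exact S.smul_mem r (hx 0)
        | add => exact S.add_mem (hx 0) (hx 1) }
  invFun A :=
    { carrier := A
      add_mem' := fun {a b} ha hb => A.fun_mem (ModFun.add : ModFun R 2) ![a, b] (by
        intro i
        fin_cases i
        · exact ha
        · exact hb)
      zero_mem' := A.fun_mem (ModFun.zero : ModFun R 0) ![] (fun i => i.elim0)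
      smul_mem' := fun r {a} ha => A.fun_mem (ModFun.smul r : ModFun R 1) ![a] (by
        intro i
        fin_cases i
        exact ha) }
  left_inv S := rfl
  right_inv A := rfl
  map_rel_iff' := Iff.rfl

/-- a submodule, as a substructure -/
def subE (S : Submodule R N) : S ≃[Lmod R] (toSub S : (Lmod R).Substructure N) where
  toFun x := ⟨x.1, x.2⟩
  invFun x := ⟨x.1, x.2⟩
  left_inv x := rfl
  right_inv x := rfl
  map_fun' := by
    intro n g a
    change ModFun R n at g
    cases g with
    | zero => rfl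
    | neg => rfl
    | smul r => rfl
    | add => rfl
  map_rel' := fun r _ => PEmpty.elim r

end

theorem aec_emb_congr {L : FirstOrder.Language.{0, 0}} (K : AEC L) {M M' N N' : Type}
    [L.Structure M] [L.Structure M'] [L.Structure N] [L.Structure N'] (e₁ : M ≃[L] M')
    (e₂ : N ≃[L] N') (f : M ↪[L] N) (f' : M' ↪[L] N') (h : ∀ x, f' (e₁ x) = e₂ (f x))
    (hf : K.emb f) : K.emb f' := by
  have h1 := K.emb_mem _ hf
  have h2 : f' = e₂.toEmbedding.comp (f.comp e₁.symm.toEmbedding) := by
    ext x
    obtain ⟨y, rfl⟩ := e₁.surjective x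
    rw [h]
    show e₂ (f y) = e₂ (f (e₁.symm (e₁ y)))
    rw [FirstOrder.Language.Equiv.symm_apply_apply]
  rw [h2]
  exact K.emb_comp _ _ (K.emb_equiv _ h1.2) (K.emb_comp _ _ hf
    (K.emb_equiv _ (AEC.mem_congr e₁ h1.1)))

/-- the internal form of an abstract elementary class of modules -/
def KKof (K : AEC (Lmod R)) (hLS : K.LSat ℵ₀) : KK R where
  mem M _ _ := K.mem M
  emb f := ∃ hf : Function.Injective f, K.emb (linEmb f hf)
  inj f h := h.1
  emb_mem f h := K.emb_mem _ h.2
  emb_equiv e h := ⟨e.injective, K.emb_equiv (linIso e) h⟩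
  comp g f hg hf := ⟨hg.1.comp hf.1, K.emb_comp _ _ hg.2 hf.2⟩
  coh g f hg hgf := by
    have hf : Function.Injective f := Function.Injective.of_comp (f := g) hgf.1
    exact ⟨hf, K.coherence (linEmb g hg.1) (linEmb f hf) hg.2 hgf.2⟩
  union {N} _ _ {ι} _ A hA h i := by
    letI : Preorder ι := Preorder.lift A
    haveI : IsDirected ι (· ≤ ·) := ⟨fun i j => by
      obtain ⟨k, h1, h2⟩ := hA i j
      exact ⟨k, h1, h2⟩⟩
    have h1 := K.dir_union (fun i => (toSub (A i) : (Lmod R).Substructure N))
      (fun i j hij => hij) (fun i j hij => by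
        refine aec_emb_congr K (subE (A i)) (subE (A j)) _ _ (fun x => ?_) (h i j hij).2
        rfl) i
    refine ⟨Submodule.inclusion_injective _, ?_⟩
    have h2 : (⨆ i, (toSub (A i) : (Lmod R).Substructure N)) = toSub (⨆ i, A i) :=
      (toSub.map_iSup A).symm
    have key : ∀ (B : (Lmod R).Substructure N) (hB : (toSub (A i) : (Lmod R).Substructure N) ≤ B),
        B = toSub (⨆ i, A i) → K.emb (FirstOrder.Language.Substructure.inclusion hB) →
        K.emb (linEmb (Submodule.inclusion (le_iSup A i)) (Submodule.inclusion_injective _)) := by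
      rintro B hB rfl h3
      refine aec_emb_congr K (subE (A i)).symm (subE (⨆ i, A i)).symm _ _ (fun x => ?_) h3
      rfl
    exact key _ _ h2 h1
  bound {N} _ _ {ι} _ A hA h := by
    letI : Preorder ι := Preorder.lift A
    haveI : IsDirected ι (· ≤ ·) := ⟨fun i j => by
      obtain ⟨k, h1, h2⟩ := hA i j
      exact ⟨k, h1, h2⟩⟩
    have h1 := K.dir_bound (fun i => (toSub (A i) : (Lmod R).Substructure N))
      (fun i j hij => hij) (fun i => by
        refine aec_emb_congr K (subE (A i)) (FirstOrder.Language.Equiv.refl (Lmod R) N) _ _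
          (fun x => ?_) (h i).2
        rfl)
    refine ⟨Submodule.subtype_injective _, ?_⟩
    have h2 : (⨆ i, (toSub (A i) : (Lmod R).Substructure N)) = toSub (⨆ i, A i) :=
      (toSub.map_iSup A).symm
    have key : ∀ (B : (Lmod R).Substructure N), B = toSub (⨆ i, A i) → K.emb B.subtype →
        K.emb (linEmb (⨆ i, A i).subtype (Submodule.subtype_injective _)) := by
      rintro B rfl h3
      refine aec_emb_congr K (subE (⨆ i, A i)).symm (FirstOrder.Language.Equiv.refl (Lmod R) N)
        _ _ (fun x => ?_) h3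
      rfl
    exact key _ h2 h1
  ls {N} _ _ hN X hX := by
    obtain ⟨A, h1, h2, h3⟩ := hLS.2.2 N hN X
    obtain ⟨S, rfl⟩ := (toSub (R := R) (N := N)).surjective A
    refine ⟨S, h1, ?_, Submodule.subtype_injective _, ?_⟩
    · have h4 : #(S : Set N) ≤ ℵ₀ := h3.trans (add_le_of_le le_rfl
        (le_aleph0_iff_set_countable.2 hX) le_rfl)
      exact le_aleph0_iff_set_countable.1 h4
    · refine aec_emb_congr K (subE S).symm (FirstOrder.Language.Equiv.refl (Lmod R) N)
        _ _ (fun x => ?_) h2
      rfl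

theorem main_AEC [Countable R] (K : AEC (Lmod R)) (hLS : K.LSat ℵ₀)
    (hmod : ∀ (N : Type) (S : (Lmod R).Structure N), @AEC.mem _ K N S → IsMod R N S)
    (μ : Cardinal.{0}) (hμ : hanf ℵ₀ ≤ μ) (hcat : K.Categorical μ) :
    ∃ (E : Type) (_ : AddCommGroup E) (_ : Module R E) (D : Type) (_ : AddCommGroup D)
      (_ : Module R D) (z : D), Countable E ∧ Countable D ∧ Loc R D z ∧ TP R D ∧
      (∀ κ : Type, Infinite κ → @AEC.mem _ K (E × (κ →₀ D)) (modStr R _)) ∧
      ∀ (N : Type) (S : (Lmod R).Structure N), @AEC.mem _ K N S → hanf ℵ₀ ≤ #N →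
        ∃ κ : Type, #κ = #N ∧ Nonempty
          (@FirstOrder.Language.Equiv (Lmod R) N (E × (κ →₀ D)) S (modStr R _)) := by
  have huniq : UniqK (KKof K hLS) μ := by
    intro M N _ _ _ _ hM hN h h'
    obtain ⟨e⟩ := hcat.2 M N h h' hM hN
    exact ⟨isoLin e⟩
  have hex : ∃ (M : Type) (_ : AddCommGroup M) (_ : Module R M), #M = μ ∧ (KKof K hLS).mem M := by
    obtain ⟨M, S, hM, hMc⟩ := hcat.1
    obtain ⟨i1, i2, rfl⟩ := hmod M S hM
    exact ⟨M, i1, i2, hMc, hM⟩
  obtain ⟨E, i1, i2, D, i3, i4, z, h1, h2, h3, h4, h5, h6⟩ := main_KK (KKof K hLS) μ hμ huniq hex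
  refine ⟨E, i1, i2, D, i3, i4, z, h1, h2, h3, h4, h5, fun N S hN hc => ?_⟩
  obtain ⟨j1, j2, rfl⟩ := hmod N S hN
  obtain ⟨κ, hκ, ⟨e⟩⟩ := h6 N hN hc
  exact ⟨κ, hκ, ⟨linIso e⟩⟩

end Pool.Agent.Y583.MC
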