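import Pool.Agent.Y583.MF1

set_option autoImplicit false

/-!
The module `D` for an abstract elementary class categorical in `μ`.
-/

namespace Pool.Agent.Y583.MC

open Cardinal

variable {R : Type} [Ring R] {K : KK R}

section maps
variable {A B : Type} {E X : Type} [AddCommGroup E] [Module R E] [AddCommGroup X] [Module R X]

/-- change of the index set -/
noncomputable def mp (E X : Type) [AddCommGroup E] [Module R E] [AddCommGroup X] [Module R X]
    (f : A → B) : (E × (A →₀ X)) →ₗ[R] (E × (B →₀ X)) :=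
  LinearMap.id.prodMap (Finsupp.lmapDomain X R f)

theorem mp_apply (f : A → B) (x : E × (A →₀ X)) : mp (R := R) E X f x =
    (x.1, Finsupp.mapDomain f x.2) := rfl

theorem mp_inj {f : A → B} (hf : Function.Injective f) : Function.Injective (mp (R := R) E X f) := by
  rintro ⟨x, w⟩ ⟨y, w'⟩ h
  have h1 : (x, Finsupp.mapDomain f w) = (y, Finsupp.mapDomain f w') := h
  rw [Prod.mk.injEq] at h1
  exact Prod.ext h1.1 (Finsupp.mapDomain_injective hf h1.2)

theorem range_mp {f : A → B} (hf : Function.Injective f) :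
    LinearMap.range (mp (R := R) E X f) = Pw R E X (Set.range f) := by
  ext y
  constructor
  · rintro ⟨x, rfl⟩
    exact mem_Pw.2 fun i hi => Finsupp.mapDomain_notin_range _ _ hi
  · intro hy
    refine ⟨(y.1, Finsupp.comapDomain f y.2 hf.injOn), ?_⟩
    rw [mp_apply]
    refine Prod.ext rfl ?_
    refine Finsupp.mapDomain_comapDomain f hf y.2 fun i hi => ?_
    by_contra hcon
    exact (Finsupp.mem_support_iff.1 hi) (mem_Pw.1 hy i hcon)

theorem mp_comp {A' : Type} (f : A → B) (g : A' → A) (x : E × (A' →₀ X)) :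
    mp (R := R) E X f (mp (R := R) E X g x) = mp (R := R) E X (f ∘ g) x := by
  rw [mp_apply, mp_apply, mp_apply, Finsupp.mapDomain_comp]

theorem emb_mp (h : Abs K E X) {f : A → B} (hf : Function.Injective f) :
    K.emb (mp (R := R) E X f) := by
  rw [KK.emb_iff (mp_inj hf), range_mp hf]
  exact pow_single h _

theorem pow_add_bij (I E X : Type) [AddCommGroup E] [Module R E] [AddCommGroup X] [Module R X] :
    ∃ g : ((E × (I →₀ X)) × X) ≃ₗ[R] (E × (I ⊕ Unit →₀ X)),
      ∀ x, g (x, 0) = mp (R := R) E X Sum.inl x := by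
  classical
  let g : ((E × (I →₀ X)) × X) →ₗ[R] (E × (I ⊕ Unit →₀ X)) :=
    (mp (R := R) E X Sum.inl).coprod (LinearMap.inr R E _ ∘ₗ Finsupp.lsingle (Sum.inr ()))
  have hg : ∀ e w c, g ((e, w), c) = (e + 0, Finsupp.mapDomain Sum.inl w +
      Finsupp.single (Sum.inr ()) c) := fun e w c => rfl
  have hbij : Function.Bijective g := by
    constructor
    · rw [injective_iff_map_eq_zero]
      rintro ⟨⟨e, w⟩, c⟩ h
      rw [hg] at h
      have h1 : e = 0 := by simpa using congrArg Prod.fst h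
      have h2 : Finsupp.mapDomain Sum.inl w + Finsupp.single (Sum.inr ()) c = 0 :=
        congrArg Prod.snd h
      have h3 : w = 0 := by
        ext i
        have := DFunLike.congr_fun h2 (Sum.inl i)
        rw [Finsupp.add_apply, Finsupp.mapDomain_apply Sum.inl_injective,
          Finsupp.single_apply, if_neg (by simp), add_zero] at this
        exact this
      have h4 : c = 0 := by
        have := DFunLike.congr_fun h2 (Sum.inr ())
        rw [Finsupp.add_apply, Finsupp.mapDomain_notin_range _ _ (by simp),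
          Finsupp.single_eq_same, zero_add] at this
        exact this
      rw [h1, h3, h4]; rfl
    · rintro ⟨e, v⟩
      refine ⟨((e, Finsupp.comapDomain Sum.inl v Sum.inl_injective.injOn), v (Sum.inr ())), ?_⟩
      rw [hg, add_zero]
      refine Prod.ext rfl ?_
      ext i
      rcases i with i | i
      · rw [Finsupp.add_apply, Finsupp.mapDomain_apply Sum.inl_injective,
          Finsupp.single_apply, if_neg (by simp), add_zero]
        rfl
      · rw [Finsupp.add_apply, Finsupp.mapDomain_notin_range _ _ (by simp),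
          Finsupp.single_eq_same, zero_add]
  refine ⟨LinearEquiv.ofBijective g hbij, fun x => ?_⟩
  show g (x, 0) = _
  rw [hg, mp_apply, Finsupp.single_zero, add_zero, add_zero]

end maps

section
variable {E C Z : Type} [AddCommGroup E] [Module R E] [AddCommGroup C] [Module R C]
  [AddCommGroup Z] [Module R Z]

/-- uniqueness of the member of cardinality `μ` -/
def UniqK (K : KK R) (μ : Cardinal.{0}) : Prop :=
  ∀ (M N : Type) [AddCommGroup M] [Module R M] [AddCommGroup N] [Module R N],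
    #M = μ → #N = μ → K.mem M → K.mem N → Nonempty (M ≃ₗ[R] N)

theorem Abs.pow (h : Abs K E C) (I : Type) : Abs K (E × (I →₀ C)) C := by
  obtain ⟨g, hg⟩ := pow_add_bij (R := R) I E C
  constructor
  · refine K.emb_congr (LinearEquiv.refl R _) g.symm (mp E C Sum.inl) _ (fun x => ?_)
      (emb_mp h Sum.inl_injective)
    rw [← hg]
    simp
  · obtain ⟨ε⟩ := h.2
    exact ⟨
      { toFun := fun x => (ε (x.1.1, x.2), x.1.2)
        invFun := fun y => (((ε.symm y.1).1, y.2), (ε.symm y.1).2)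
        left_inv := fun x => by simp
        right_inv := fun y => by simp
        map_add' := fun x y => by
          refine Prod.ext ?_ rfl
          show ε (x.1.1 + y.1.1, x.2 + y.2) = ε (x.1.1, x.2) + ε (y.1.1, y.2)
          rw [← map_add]; rfl
        map_smul' := fun r x => by
          refine Prod.ext ?_ rfl
          show ε (r • x.1.1, r • x.2) = r • ε (x.1.1, x.2)
          rw [← map_smul]; rfl }⟩

/-- modules absorbed by `C` are absorbed by `E` -/
theorem swindle (h : Abs K E C) (θ : (C × Z) ≃ₗ[R] C) : Abs K E Z := by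
  obtain ⟨h1, ⟨ε⟩⟩ := h
  let a : (E × C) ≃ₗ[R] ((E × Z) × C) :=
    { toFun := fun x => ((x.1, (θ.symm x.2).2), (θ.symm x.2).1)
      invFun := fun y => (y.1.1, θ (y.2, y.1.2))
      left_inv := fun x => by simp
      right_inv := fun y => by simp
      map_add' := fun x y => by
        show ((x.1 + y.1, (θ.symm (x.2 + y.2)).2), (θ.symm (x.2 + y.2)).1) = _
        rw [map_add]; rfl
      map_smul' := fun r x => by
        show ((r • x.1, (θ.symm (r • x.2)).2), (θ.symm (r • x.2)).1) = _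
        rw [map_smul]; rfl }
  let b : ((E × C) × Z) ≃ₗ[R] (E × C) :=
    { toFun := fun x => (x.1.1, θ (x.1.2, x.2))
      invFun := fun y => ((y.1, (θ.symm y.2).1), (θ.symm y.2).2)
      left_inv := fun x => by simp
      right_inv := fun y => by simp
      map_add' := fun x y => by
        refine Prod.ext rfl ?_
        show θ (x.1.2 + y.1.2, x.2 + y.2) = θ (x.1.2, x.2) + θ (y.1.2, y.2)
        rw [← map_add]; rfl
      map_smul' := fun r x => by
        refine Prod.ext rfl ?_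
        show θ (r • x.1.2, r • x.2) = r • θ (x.1.2, x.2)
        rw [← map_smul]; rfl }
  let g : (E × Z) ≃ₗ[R] E :=
    (LinearEquiv.prodCongr ε.symm (LinearEquiv.refl R Z)).trans (b.trans ε)
  refine ⟨K.coh (LinearMap.inl R (E × Z) C) (LinearMap.inl R E Z) ?_ ?_, ⟨g⟩⟩
  · refine K.emb_congr g.symm (LinearEquiv.prodCongr g.symm (LinearEquiv.refl R C))
      (LinearMap.inl R E C) _ (fun x => ?_) h1
    rfl
  · refine K.emb_congr (LinearEquiv.refl R E) a (LinearMap.inl R E C) _ (fun x => ?_) h1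
    show ((x, (0 : Z)), (0 : C)) = ((x, (θ.symm 0).2), (θ.symm 0).1)
    rw [map_zero]; rfl

theorem Abs.congr {E' : Type} [AddCommGroup E'] [Module R E'] (h : Abs K E C) (f : E ≃ₗ[R] E') :
    Abs K E' C := by
  obtain ⟨h1, ⟨ε⟩⟩ := h
  refine ⟨K.emb_congr f (LinearEquiv.prodCongr f (LinearEquiv.refl R C)) _ _ (fun x => rfl) h1,
    ⟨(LinearEquiv.prodCongr f.symm (LinearEquiv.refl R C)).trans (ε.trans f)⟩⟩

/-- the member of cardinality `#I` -/
theorem model_K {I : Type} [Countable E] [Countable C] [Nontrivial C] [Infinite I]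
    (hE : Abs K E C) : K.mem (E × (I →₀ C)) ∧ #(E × (I →₀ C)) = #I := by
  refine ⟨pow_mem hE I, ?_⟩
  haveI : Infinite (I →₀ C) := by
    rw [infinite_iff, mk_pow']; exact infinite_iff.1 inferInstance
  rw [mk_prod_count, mk_pow']

variable {μ : Cardinal.{0}}

theorem absorbedK' {E' : Type} [AddCommGroup E'] [Module R E'] [Countable E] [Countable E']
    [Countable C] [Nontrivial C] (hμ : ℵ₀ < μ)
    (huniq : UniqK K μ) (hE : Abs K E C) (Z : Type) [AddCommGroup Z]
    [Module R Z] [Countable Z] [Nontrivial Z] (h : ∀ I : Type, K.mem (E' × (I →₀ Z))) :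
    Nonempty ((ℕ →₀ Z) ≃ₗ[R] (ℕ →₀ C)) := by
  let I : Type := μ.out
  have hI : #I = μ := mk_out μ
  haveI : Infinite I := infinite_iff.2 (by rw [hI]; exact hμ.le)
  haveI : Uncountable I := by rw [← aleph0_lt_mk_iff, hI]; exact hμ
  obtain ⟨h1, h2⟩ := model_K (I := I) hE
  haveI : Infinite (I →₀ Z) := by
    rw [infinite_iff, mk_pow']; exact infinite_iff.1 inferInstance
  have h4 : #(E' × (I →₀ Z)) = #I := by
    rw [mk_prod_count, mk_pow']
  obtain ⟨Θ⟩ := huniq _ _ (h4.trans hI) (h2.trans hI) (h I) h1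
  exact lemmaU' Θ

theorem absorbedK [Countable E] [Countable C] [Nontrivial C] (hμ : ℵ₀ < μ) (huniq : UniqK K μ)
    (e : C ≃ₗ[R] (ℕ →₀ C)) (hE : Abs K E C) (Z : Type) [AddCommGroup Z] [Module R Z]
    [Countable Z] [Nontrivial Z] (h : Abs K E Z) : Nonempty ((ℕ →₀ Z) ≃ₗ[R] C) := by
  obtain ⟨k⟩ := absorbedK' hμ huniq hE Z (pow_mem h)
  exact ⟨k.trans e.symm⟩

/-- products with directed unions of direct summands isomorphic to `C` -/
theorem like_mem {W N : Type} [AddCommGroup W] [Module R W] [AddCommGroup N] [Module R N]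
    (e : C ≃ₗ[R] (ℕ →₀ C)) (hW : Abs K W C) (h : Like R C N) : K.mem (N × W) := by
  obtain ⟨𝒮, h1, h2, h3, h4⟩ := h
  obtain ⟨S₀, hS₀, -⟩ := h2 0
  haveI : Nonempty 𝒮 := ⟨⟨S₀, hS₀⟩⟩
  let A : 𝒮 → Submodule R (N × W) := fun S => S.1.prod ⊤
  have hle : ∀ S T : 𝒮, A S ≤ A T → S.1 ≤ T.1 := by
    intro S T h x hx
    exact (h (show (x, (0 : W)) ∈ A S from ⟨hx, trivial⟩)).1
  have hstr : ∀ S T : 𝒮, A S ≤ A T → K.le (A S) (A T) := by
    intro S T hST
    have hST' := hle S T hST
    obtain ⟨eS⟩ := h3 S.1 S.2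
    obtain ⟨eT⟩ := h3 T.1 T.2
    obtain ⟨r, hr⟩ := h4 S.1 S.2
    let p : T.1 →ₗ[R] S.1 := r ∘ₗ T.1.subtype
    have hp : ∀ s : S.1, p (Submodule.inclusion hST' s) = s := fun s => hr s
    let Z := LinearMap.ker p
    let σ : T.1 ≃ₗ[R] (S.1 × Z) := splitEquiv (Submodule.inclusion hST') p hp
    obtain ⟨θ⟩ : Nonempty ((C × Z) ≃ₗ[R] C) := absorb e (eT.toLinearMap ∘ₗ Z.subtype)
      (LinearMap.snd R _ _ ∘ₗ σ.toLinearMap ∘ₗ eT.symm.toLinearMap) (fun d => by
        have hd : p d.1 = 0 := d.2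
        show (σ (eT.symm (eT d.1))).2 = d
        rw [LinearEquiv.symm_apply_apply]
        apply Subtype.ext
        show (d : T.1) - Submodule.inclusion hST' (p d.1) = d
        rw [hd, map_zero, sub_zero])
    obtain ⟨ε⟩ := hW.2
    let q : (S.1 × W) ≃ₗ[R] W := (LinearEquiv.prodComm R _ _).trans
      ((LinearEquiv.prodCongr (LinearEquiv.refl R W) eS).trans ε)
    have h5 : K.emb (LinearMap.inl R (S.1 × W) Z) :=
      ((swindle hW θ).congr q.symm).1
    let τ : ((S.1 × W) × Z) ≃ₗ[R] (A T) :=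
      { toFun := fun x => ⟨((σ.symm (x.1.1, x.2) : T.1), x.1.2), (σ.symm (x.1.1, x.2)).2, trivial⟩
        invFun := fun y => (((σ ⟨y.1.1, y.2.1⟩).1, y.1.2), (σ ⟨y.1.1, y.2.1⟩).2)
        left_inv := fun x => by simp
        right_inv := fun y => by simp
        map_add' := fun x y => by
          apply Subtype.ext
          refine Prod.ext ?_ rfl
          show ((σ.symm (x.1.1 + y.1.1, x.2 + y.2) : T.1) : N) =
            (σ.symm (x.1.1, x.2) : T.1) + (σ.symm (y.1.1, y.2) : T.1)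
          rw [← Submodule.coe_add, ← map_add]; rfl
        map_smul' := fun r x => by
          apply Subtype.ext
          refine Prod.ext ?_ rfl
          show ((σ.symm (r • x.1.1, r • x.2) : T.1) : N) = r • (σ.symm (x.1.1, x.2) : T.1)
          rw [← Submodule.coe_smul, ← map_smul]; rfl }
    let τ' : (S.1 × W) ≃ₗ[R] (A S) :=
      { toFun := fun x => ⟨(x.1.1, x.2), x.1.2, trivial⟩
        invFun := fun y => (⟨y.1.1, y.2.1⟩, y.1.2)
        left_inv := fun x => rfl
        right_inv := fun y => rfl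
        map_add' := fun x y => rfl
        map_smul' := fun r x => rfl }
    refine ⟨hST, K.emb_congr τ' τ _ _ (fun x => ?_) h5⟩
    apply Subtype.ext
    refine Prod.ext ?_ rfl
    show (x.1 : N) = ((σ.symm (x.1, 0) : T.1) : N)
    have : σ.symm (x.1, 0) = Submodule.inclusion hST' x.1 := by
      show Submodule.inclusion hST' x.1 + ((0 : Z) : T.1) = _
      simp
    rw [this]; rfl
  have h6 : (⨆ S, A S) = ⊤ := by
    rw [eq_top_iff]
    rintro ⟨x, w⟩ _
    obtain ⟨S, hS, hx⟩ := h2 x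
    exact (le_iSup A ⟨S, hS⟩) ⟨hx, trivial⟩
  have h7 := KK.le_iSup A (fun S T => by
    obtain ⟨W', hW', h8, h9⟩ := h1 S.1 S.2 T.1 T.2
    exact ⟨⟨W', hW'⟩, Submodule.prod_mono h8 le_rfl, Submodule.prod_mono h9 le_rfl⟩)
    hstr ⟨S₀, hS₀⟩
  rw [h6] at h7
  exact KK.top_iff.2 h7.mem_right

theorem tp_CK [Countable E] [Countable C] [Nontrivial C] (hμ : ℵ₀ < μ) (huniq : UniqK K μ)
    (e : C ≃ₗ[R] (ℕ →₀ C)) (hE : Abs K E C) : TP R C := by
  classical
  intro f
  let I : Type := μ.out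
  have hI : #I = μ := mk_out μ
  haveI : Infinite I := infinite_iff.2 (by rw [hI]; exact hμ.le)
  obtain ⟨h1, h2⟩ := model_K (I := I) hE
  obtain ⟨Y, hY⟩ : ∃ Y : Set (ℕ → Bool), #Y = ℵ₁ := by
    refine le_mk_iff_exists_set.1 ?_
    have : #(ℕ → Bool) = 𝔠 := by simp
    rw [this]
    exact aleph_one_le_continuum
  have hYc : ¬ Y.Countable := by
    rw [← le_aleph0_iff_set_countable, hY, not_le]
    exact aleph0_lt_aleph_one
  haveI : Infinite Y := infinite_iff.2 (by rw [hY]; exact aleph0_le_aleph 1)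
  have h3 : K.mem (TM Y f × (E × (I →₀ C))) := like_mem e (hE.pow I) (like_TM e f)
  have h4 : #(TM Y f × (E × (I →₀ C))) = μ := by
    rw [mk_prod, lift_id, lift_id, h2, hI]
    refine mul_eq_right hμ.le ?_ (mk_ne_zero _)
    refine (mk_TM_le e Y f).trans ?_
    rw [hY, ← succ_aleph0]
    exact Order.succ_le_of_lt hμ
  obtain ⟨Θ⟩ := huniq _ _ h4 (h2.trans hI) h3 h1
  exact tree_TP' e f hYc (sys_prod E I _ (sys_supported (R := R) I C))
    (sys_prod E I _ (sys_supported (R := R) I C)) (ret_prodSupported E I C) Θ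

/-- The module `D`. -/
theorem exists_DK [Countable E] [Countable C] [Nontrivial C] (hμ : ℵ₀ < μ)
    (huniq : UniqK K μ) (e : C ≃ₗ[R] (ℕ →₀ C)) (hE : Abs K E C) :
    ∃ (D : Type) (_ : AddCommGroup D) (_ : Module R D) (z : D), Countable D ∧ Loc R D z ∧
      TP R D ∧ TP R (ℕ →₀ D) ∧ Nonempty ((ℕ →₀ D) ≃ₗ[R] C) ∧
      ∀ (Z : Type) [AddCommGroup Z] [Module R Z], Nice R D Z → Nontrivial Z →
        ∃ t : D →ₗ[R] Z, t z ≠ 0 := by
  classical
  have hU : ∀ (Z : Type) [AddCommGroup Z] [Module R Z], Countable Z → Nontrivial Z →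
      Nonempty ((C × Z) ≃ₗ[R] C) → Nonempty ((ℕ →₀ Z) ≃ₗ[R] C) := by
    intro Z _ _ hZ1 hZ2 ⟨θ⟩
    exact absorbedK hμ huniq e hE Z (swindle hE θ)
  have hT : TP R C := tp_CK hμ huniq e hE
  obtain ⟨D, z, p, hp, hloc⟩ := exists_local e hT
  haveI : Countable D := Subtype.countable
  have hDE : ∃ (i : D →ₗ[R] C) (q : C →ₗ[R] D), ∀ d, q (i d) = d :=
    ⟨e.symm ∘ₗ D.subtype, p ∘ₗ (e : C →ₗ[R] (ℕ →₀ C)), fun b => by
      show p (e (e.symm b)) = b
      rw [LinearEquiv.apply_symm_apply, hp]⟩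
  obtain ⟨i, q, hiq⟩ := hDE
  have hDnt : Nontrivial D := ⟨⟨z, 0, hloc.1⟩⟩
  obtain ⟨ε⟩ := hU D inferInstance hDnt (absorb e i q hiq)
  have hTD : TP R D := hT.retract i q hiq
  have hTD' : TP R (ℕ →₀ D) := hT.retract (ε : (ℕ →₀ D) →ₗ[R] C)
    (ε.symm : C →ₗ[R] (ℕ →₀ D)) (fun b => by simp)
  refine ⟨D, inferInstance, inferInstance, z, inferInstance, hloc, hTD, hTD', ⟨ε⟩, ?_⟩
  intro Z _ _ ⟨i', p', hp'⟩ hZ
  haveI : Countable Z := by
    have : Function.Injective i' := fun a b h => by rw [← hp' a, h, hp']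
    exact this.countable
  obtain ⟨a⟩ := hU Z inferInstance hZ (absorb e (ε.toLinearMap ∘ₗ i')
    (p' ∘ₗ ε.symm.toLinearMap) (fun d => by simp [hp']))
  let g : (ℕ →₀ D) ≃ₗ[R] (ℕ →₀ Z) := ε.trans a.symm
  have hne : g (Finsupp.single 0 z) ≠ 0 := by
    rw [Ne, LinearEquiv.map_eq_zero_iff, Finsupp.single_eq_zero]
    exact hloc.1
  obtain ⟨j, hj⟩ : ∃ j, (g (Finsupp.single 0 z)) j ≠ 0 := by
    by_contra hcon
    push Not at hcon
    exact hne (Finsupp.ext hcon)
  exact ⟨Finsupp.lapply j ∘ₗ (g : (ℕ →₀ D) →ₗ[R] (ℕ →₀ Z)) ∘ₗ Finsupp.lsingle 0, hj⟩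

end

end Pool.Agent.Y583.MC
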