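import Pool.Agent.W879.AE.ERC
import Pool.Agent.Y583.MF2

set_option autoImplicit false

/-!
Indiscernible sequences for countably many colourings with finite supports, in a family of
structures, all colours being decided on finite sets.
-/

namespace Pool.Agent.Y583.MC

open Cardinal Pool.Agent.W879.AE
open Pool.Agent.H288R4.LS (bethFrom bethFrom_zero)

theorem template2 {N Ω : Type} (ω : Ordinal.{0} → Ω) (U : Ω → Set N)
    (hU : ∀ α : Ordinal.{0}, α < del ℵ₀ → bethFrom ℵ₀ α ≤ #(U (ω α)))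
    (Q : Type) [Countable Q] (J : Type) [LinearOrder J]
    (χ : Q → Ω → (J → N) → ℕ) (supp : Q → Finset J)
    (hs : ∀ q w (x y : J → N), (∀ j ∈ supp q, x j = y j) → χ q w x = χ q w y) :
    ∃ (w : Finset J → Ω) (e : Finset J → J → N) (Φ : Q → ℕ),
      (∀ D : Finset J, Set.InjOn (e D) D) ∧ (∀ D : Finset J, ∀ j ∈ D, e D j ∈ U (w D)) ∧
      ∀ (D : Finset J) q (s : J → J), StrictMono s → (∀ j ∈ supp q, s j ∈ D) →
        χ q (w D) (e D ∘ s) = Φ q := by
  classical
  letI : LinearOrder N := linearOrderOfSTO WellOrderingRel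
  have hinf : ∀ α : Ordinal.{0}, α < del ℵ₀ → (U (ω α)).Nonempty := by
    intro α hα
    rw [← Set.nonempty_coe_sort, ← Cardinal.mk_ne_zero_iff]
    intro h
    have h1 := hU α hα
    rw [h, le_zero_iff] at h1
    exact (Cardinal.aleph0_pos.trans_le (le_bethFrom ℵ₀ α)).ne' h1
  have h0 : (0 : Ordinal.{0}) < del ℵ₀ := (del_lim le_rfl).bot_lt
  obtain ⟨n0, -⟩ := hinf 0 h0
  have hpos : ∀ (α : Ordinal.{0}) (F : Finset J) (s : Finset (U (ω α))) (h : s.card = F.card),
      ∃ x : J → N, ∀ i : Fin F.card, x (F.orderEmbOfFin rfl i) = (s.orderEmbOfFin h i : N) := by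
    intro α F s h
    refine ⟨fun j => if hj : j ∈ F then
      (s.orderEmbOfFin h ((F.orderIsoOfFin rfl).symm ⟨j, hj⟩) : N) else n0, fun i => ?_⟩
    have hj : F.orderEmbOfFin rfl i ∈ F := Finset.orderEmbOfFin_mem _ _ _
    show (if hj : F.orderEmbOfFin rfl i ∈ F then _ else _) = _
    rw [dif_pos hj]
    congr 2
    rw [OrderIso.symm_apply_eq]
    apply Subtype.ext
    rfl
  choose xx hxx using hpos
  let c : ∀ α : Ordinal.{0}, ℕ → Finset (U (ω α)) → (Q → ℕ) := fun α _ s q =>
    if h : s.card = (supp q).card then χ q (ω α) (xx α _ s h) else 0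
  have hC : #(Q → ℕ) ≤ 2 ^ ℵ₀ := by
    rw [← Cardinal.power_def, Cardinal.mk_nat, Cardinal.two_power_aleph0,
      ← Cardinal.aleph0_power_aleph0]
    exact Cardinal.power_le_power_left Cardinal.aleph0_ne_zero Cardinal.mk_le_aleph0
  obtain ⟨Φ, hΦ⟩ := exists_templateC le_rfl hC (fun _ => 0) (fun α => U (ω α)) hU c
  have hch : ∀ D : Finset J, ∃ (w : Ω) (e : J → N), Set.InjOn e D ∧ (∀ j ∈ D, e j ∈ U w) ∧
      ∀ q (s : J → J), StrictMono s → (∀ j ∈ supp q, s j ∈ D) →
        χ q w (e ∘ s) = Φ (supp q).card q := by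
    intro D
    obtain ⟨α, hα, H, hH, hHc⟩ := hΦ (D.card + 1) 0 h0
    rw [bethFrom_zero] at hH
    have hHi : H.Infinite := by
      rw [← Set.infinite_coe_iff, Cardinal.infinite_iff]
      exact hH
    obtain ⟨t, htH, ht⟩ := hHi.exists_subset_card_eq D.card
    obtain ⟨u0, hu0⟩ := hinf α hα
    let e : J → U (ω α) := fun j => if h : j ∈ D then
      t.orderEmbOfFin ht ((D.orderIsoOfFin rfl).symm ⟨j, h⟩) else ⟨u0, hu0⟩
    have he : ∀ j (h : j ∈ D), e j = t.orderEmbOfFin ht ((D.orderIsoOfFin rfl).symm ⟨j, h⟩) :=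
      fun j h => dif_pos h
    have hmono : StrictMonoOn e D := by
      intro j hj j' hj' hjj
      rw [he j hj, he j' hj']
      exact (t.orderEmbOfFin ht).strictMono ((D.orderIsoOfFin rfl).symm.strictMono hjj)
    refine ⟨ω α, fun j => e j, fun j hj j' hj' h => hmono.injOn hj hj' (Subtype.ext h),
      fun j _ => (e j).2, fun q s hsm hsF => ?_⟩
    let G := supp q
    let u : Fin G.card → U (ω α) := fun i => e (s (G.orderEmbOfFin rfl i))
    have humono : StrictMono u := by
      intro i i' hii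
      exact hmono (hsF _ (Finset.orderEmbOfFin_mem _ _ _)) (hsF _ (Finset.orderEmbOfFin_mem _ _ _))
        (hsm ((G.orderEmbOfFin rfl).strictMono hii))
    let t' : Finset (U (ω α)) := Finset.univ.image u
    have ht' : t'.card = G.card := by
      rw [Finset.card_image_of_injective _ humono.injective, Finset.card_univ, Fintype.card_fin]
    have hGD : G.card ≤ D.card := Finset.card_le_card_of_injOn s hsF
      fun i _ j _ h => hsm.injective h
    have h1 := hHc G.card (Nat.lt_succ_of_le hGD) t' (by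
      intro y hy
      obtain ⟨i, -, rfl⟩ := Finset.mem_image.1 hy
      refine htH ?_
      show e (s (G.orderEmbOfFin rfl i)) ∈ t
      rw [he _ (hsF _ (Finset.orderEmbOfFin_mem _ _ _))]
      exact Finset.orderEmbOfFin_mem _ _ _) ht'
    have h2 : u = t'.orderEmbOfFin ht' :=
      Finset.orderEmbOfFin_unique ht' (fun i => Finset.mem_image_of_mem u (Finset.mem_univ i))
        humono
    have h3 : c α G.card t' q = χ q (ω α) (xx α _ t' ht') := dif_pos ht'
    rw [h1] at h3
    rw [show Φ (supp q).card q = _ from h3]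
    refine hs _ _ _ _ fun j hj => ?_
    obtain ⟨i, rfl⟩ : ∃ i, G.orderEmbOfFin rfl i = j := by
      have : j ∈ Set.range (G.orderEmbOfFin rfl) := by
        rw [Finset.range_orderEmbOfFin]; exact hj
      exact this
    have h4 := hxx α G t' ht' i
    refine Eq.trans ?_ h4.symm
    rw [← h2]
    rfl
  choose w e h1 h2 h3 using hch
  exact ⟨w, e, fun q => Φ (supp q).card q, h1, h2, h3⟩

end Pool.Agent.Y583.MC
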