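import Pool.Agent.Y583.ME3
import Pool.Agent.Y583.MF3

set_option autoImplicit false

/-!
Ehrenfeucht–Mostowski modules with a distinguished submodule, all finite parts of which are
isomorphic to closed submodules of the given modules.
-/

namespace Pool.Agent.Y583.MC

open Cardinal Pool.Agent.W879.AE
open Pool.Agent.H288R4.LS (bethFrom)

variable {R : Type} [Ring R]

/-- a locally split epimorphism onto a countable module splits; version with submodules -/
theorem split_epi' {B X : Type} [AddCommGroup B] [Module R B] [AddCommGroup X] [Module R X]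
    [Countable X] (π : B →ₗ[R] X) (B' : Submodule R B) (X' : Submodule R X)
    (hπ : ∀ b ∈ B', π b ∈ X')
    (h : ∀ F : Finset X, ∃ σ : X →ₗ[R] B, (∀ x ∈ F, π (σ x) = x) ∧ ∀ x ∈ X', σ x ∈ B') :
    ∃ σ : X →ₗ[R] B, (∀ x, π (σ x) = x) ∧ ∀ x ∈ X', σ x ∈ B' := by
  classical
  choose Ψ hΨ hΨ' using h
  obtain ⟨en, hen⟩ := exists_surjective_nat X
  let S : ℕ → (X →ₗ[R] X) → Finset X := fun n P => (Finset.range (n + 1)).image fun j => P (en j)
  let P : ℕ → (X →ₗ[R] X) := fun n => Nat.rec LinearMap.id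
    (fun n P => (LinearMap.id - π ∘ₗ Ψ (S n P)) ∘ₗ P) n
  let σ : ℕ → (X →ₗ[R] B) := fun n => Ψ (S n (P n))
  have hP1 : ∀ n a, P (n + 1) a = P n a - π (σ n (P n a)) := fun n a => rfl
  have hP3 : ∀ n, ∀ a ∈ X', P n a ∈ X' := by
    intro n
    induction n with
    | zero => exact fun a ha => ha
    | succ n ih =>
        intro a ha
        rw [hP1]
        exact X'.sub_mem (ih a ha) (hπ _ (hΨ' _ _ (ih a ha)))
  have hP0 : ∀ j, P (j + 1) (en j) = 0 := by
    intro j
    rw [hP1, hΨ (S j (P j)) (P j (en j))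
      (Finset.mem_image.2 ⟨j, Finset.mem_range.2 (Nat.lt_succ_self j), rfl⟩), sub_self]
  have hP2 : ∀ j n, j < n → P n (en j) = 0 := by
    intro j n hn
    induction n with
    | zero => exact absurd hn (Nat.not_lt_zero j)
    | succ n ih =>
        rcases Nat.lt_succ_iff_lt_or_eq.1 hn with h | rfl
        · rw [hP1, ih h, map_zero, map_zero, sub_zero]
        · exact hP0 j
  have hfin : ∀ x, (Function.support fun n => P n x).Finite := by
    intro x
    obtain ⟨j, rfl⟩ := hen x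
    refine (Set.finite_le_nat j).subset fun n hn => ?_
    by_contra hlt
    exact hn (hP2 j n (not_le.1 hlt))
  let T : X →ₗ[R] (ℕ →₀ X) :=
    { toFun := fun x => Finsupp.ofSupportFinite (fun n => P n x) (hfin x)
      map_add' := fun x y => by
        ext n
        exact (P n).map_add x y
      map_smul' := fun r x => by
        ext n
        exact (P n).map_smul r x }
  have hT : ∀ x n, T x n = P n x := fun x n => rfl
  refine ⟨Finsupp.lsum ℕ σ ∘ₗ T, fun x => ?_, fun x hx => ?_⟩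
  · obtain ⟨j, rfl⟩ := hen x
    have h1 : T (en j) = ∑ k ∈ Finset.range (j + 1), Finsupp.single k (P k (en j)) := by
      ext n
      rw [Finsupp.finset_sum_apply]
      simp only [Finsupp.single_apply, Finset.sum_ite_eq', Finset.mem_range]
      rw [hT]
      split_ifs with h
      · rfl
      · exact hP2 j n (by omega)
    rw [LinearMap.comp_apply, h1, map_sum, map_sum]
    have : ∀ k ∈ Finset.range (j + 1), π (Finsupp.lsum ℕ σ
        (Finsupp.single k (P k (en j)))) = P k (en j) - P (k + 1) (en j) := by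
      intro k _
      rw [Finsupp.lsum_single, hP1]
      abel
    rw [Finset.sum_congr rfl this, Finset.sum_range_sub', hP0, sub_zero]
    rfl
  · show (T x).sum (fun n y => σ n y) ∈ B'
    refine Submodule.sum_mem _ fun n _ => hΨ' _ _ ?_
    rw [hT]
    exact hP3 n x hx

section gen2

variable {Ω N : Type}

/-- terms -/
inductive Gen2 (𝓕 : Set (Σ k : ℕ, Ω → (Fin k → N) → N)) : (Ω → (ℚ → N) → N) → Prop
  | proj (j : ℚ) : Gen2 𝓕 (fun _ x => x j)
  | app (f : Σ k : ℕ, Ω → (Fin k → N) → N) (hf : f ∈ 𝓕) (g : Fin f.1 → (Ω → (ℚ → N) → N))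
      (hg : ∀ i, Gen2 𝓕 (g i)) : Gen2 𝓕 (fun w x => f.2 w fun i => g i w x)

/-- dependence on the coordinates in `D` only -/
def Dep (D : Set ℚ) (t : Ω → (ℚ → N) → N) : Prop :=
  ∀ w x y, (∀ j ∈ D, x j = y j) → t w x = t w y

theorem Gen2.rename {𝓕 : Set (Σ k : ℕ, Ω → (Fin k → N) → N)} {t : Ω → (ℚ → N) → N}
    (h : Gen2 𝓕 t) (ρ : ℚ → ℚ) : Gen2 𝓕 (fun w (x : ℚ → N) => t w (x ∘ ρ)) := by
  induction h with
  | proj j => exact Gen2.proj (ρ j)
  | app f hf g _ ih => exact Gen2.app f hf (fun i w x => g i w (x ∘ ρ)) ih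

theorem Gen2.supp {𝓕 : Set (Σ k : ℕ, Ω → (Fin k → N) → N)} {t : Ω → (ℚ → N) → N}
    (h : Gen2 𝓕 t) : ∃ F : Finset ℚ, Dep (↑F : Set ℚ) t := by
  classical
  induction h with
  | proj j => exact ⟨{j}, fun w x y h => h j (by simp)⟩
  | app f hf g _ ih =>
      choose F hF using ih
      refine ⟨Finset.univ.biUnion F, fun w x y h => ?_⟩
      have h1 : (fun i => g i w x) = fun i => g i w y := funext fun i =>
        hF i w x y fun j hj => h j (by
          rw [Finset.mem_coe, Finset.mem_biUnion]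
          exact ⟨i, Finset.mem_univ _, hj⟩)
      show f.2 w (fun i => g i w x) = f.2 w (fun i => g i w y)
      rw [h1]

theorem gen2_countable (𝓕 : Set (Σ k : ℕ, Ω → (Fin k → N) → N)) (h𝓕 : 𝓕.Countable) :
    {t : Ω → (ℚ → N) → N | Gen2 𝓕 t}.Countable := by
  classical
  let c : Finset (Ω → (ℚ → N) → N) → Set (Ω → (ℚ → N) → N) := fun G =>
    ⋃ f ∈ 𝓕, (fun (g : Fin f.1 → (Ω → (ℚ → N) → N)) => fun w x => f.2 w fun i => g i w x) ''
      {g | ∀ i, g i ∈ G}
  have hc : ∀ G, (c G).Countable := by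
    intro G
    refine Set.Countable.biUnion h𝓕 fun f _ => Set.Countable.image ?_ _
    have : {g : Fin f.1 → (Ω → (ℚ → N) → N) | ∀ i, g i ∈ G} =
        Set.pi Set.univ fun _ => (↑G : Set (Ω → (ℚ → N) → N)) := by
      ext g; simp
    rw [this]
    exact (Set.Finite.pi fun _ => G.finite_toSet).countable
  obtain ⟨W, h1, h2, h3⟩ := exists_closed_countable c hc
    (Set.range fun (j : ℚ) (_ : Ω) (x : ℚ → N) => x j) (Set.countable_range _)
  refine h2.mono fun t ht => ?_
  have ht' : Gen2 𝓕 t := ht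
  induction ht' with
  | proj j => exact h1 ⟨j, rfl⟩
  | app f hf g hg ih =>
      refine h3 (Finset.univ.image g) ?_ (Set.mem_biUnion hf ⟨g, fun i =>
        Finset.mem_image_of_mem g (Finset.mem_univ i), rfl⟩)
      intro y hy
      simp only [Finset.coe_image, Finset.coe_univ, Set.image_univ, Set.mem_range] at hy
      obtain ⟨i, rfl⟩ := hy
      exact ih i (hg i)

end gen2

/-- no element in `[0, 1)` -/
def Off (D : Finset ℚ) : Prop := ∀ j ∈ D, ¬ (0 ≤ j ∧ j < 1)

/-- the properties of the Ehrenfeucht–Mostowski module -/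
structure EMOut {Ω N : Type} [AddCommGroup N] [Module R N] (c : Ω → Finset N → Set N)
    (N' : Ω → Submodule R N) (cst : Ω → ℕ → N) (col : Ω → ℕ) {E : Type} [AddCommGroup E]
    [Module R E] (E' A : Submodule R E) (𝓔 : Finset ℚ → Submodule R E) (cc : ℕ → E)
    (n₀ : ℕ) : Prop where
  cntb : Countable E
  mono : ∀ D D', D ⊆ D' → 𝓔 D ≤ 𝓔 D'
  cov : ∀ x, ∃ D, x ∈ 𝓔 D
  A1 : ∀ x ∈ A, ∃ D, Off D ∧ x ∈ 𝓔 D
  A2 : ∀ D, Off D → 𝓔 D ≤ A
  cstm : ∀ i D, cc i ∈ 𝓔 D
  loc : ∀ D, ∃ (w : Ω) (k : 𝓔 D →ₗ[R] N), Function.Injective k ∧ col w = n₀ ∧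
    (∀ D', D' ⊆ D → Closed (c w) (((𝓔 D').comap (𝓔 D).subtype).map k : Set N)) ∧
    (∀ x : 𝓔 D, (x : E) ∈ E' ↔ k x ∈ N' w) ∧ ∀ i (x : 𝓔 D), (x : E) = cc i → k x = cst w i
  spl : ∃ e₀ : (E × (E ⧸ A)) ≃ₗ[R] E, (∀ z, z ∈ A ↔ ∃ y, e₀ (y, 0) = z) ∧
    ∀ y x, e₀ (y, x) ∈ E' ↔ y ∈ E' ∧ x ∈ E'.map A.mkQ
  ab : Ab R E (E ⧸ A)
  nt : ∃ x ∈ E', x ∉ A

theorem em2 [Countable R] {Ω N : Type} [AddCommGroup N] [Module R N] (ω : Ordinal.{0} → Ω)
    (c : Ω → Finset N → Set N) (hc : ∀ w F, (c w F).Countable)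
    (N' : Ω → Submodule R N) (cst : Ω → ℕ → N) (col : Ω → ℕ)
    (hbig : ∀ α : Ordinal.{0}, α < del ℵ₀ → bethFrom ℵ₀ α ≤ #(N' (ω α))) :
    ∃ (E : Type) (_ : AddCommGroup E) (_ : Module R E) (E' A : Submodule R E)
      (𝓔 : Finset ℚ → Submodule R E) (cc : ℕ → E) (n₀ : ℕ), EMOut c N' cst col E' A 𝓔 cc n₀ := by
  classical
  -- the functions
  have hen : ∀ w F, ∃ en : ℕ → N, c w F ⊆ Set.range en := by
    intro w F
    obtain ⟨en, h⟩ := Set.Countable.exists_eq_range ((hc w F).insert 0) ⟨0, Or.inl rfl⟩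
    exact ⟨en, fun x hx => by rw [← h]; exact Or.inr hx⟩
  choose en hen using hen
  let fc : ℕ × ℕ → (Σ k : ℕ, Ω → (Fin k → N) → N) := fun p =>
    ⟨p.1, fun w v => en w (Finset.univ.image v) p.2⟩
  let 𝓕 : Set (Σ k : ℕ, Ω → (Fin k → N) → N) := Set.range fc ∪
    (Set.range (fun i : ℕ => (⟨0, fun w _ => cst w i⟩ : Σ k : ℕ, Ω → (Fin k → N) → N)) ∪
    ({⟨2, fun _ v => v 0 + v 1⟩} ∪ {⟨0, fun _ _ => 0⟩} ∪
    Set.range fun r : R => ⟨1, fun _ v => r • v 0⟩))
  have h𝓕 : 𝓕.Countable := (Set.countable_range _).union ((Set.countable_range _).union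
    (((Set.countable_singleton _).union (Set.countable_singleton _)).union
    (Set.countable_range _)))
  let T : Submodule R (Ω → (ℚ → N) → N) :=
    { carrier := {t | Gen2 𝓕 t}
      add_mem' := by
        intro s t hs ht
        have := Gen2.app (𝓕 := 𝓕) ⟨2, fun _ v => v 0 + v 1⟩
          (Or.inr (Or.inr (Or.inl (Or.inl rfl)))) ![s, t] (by
            intro i
            fin_cases i
            · exact hs
            · exact ht)
        exact this
      zero_mem' := by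
        have := Gen2.app (𝓕 := 𝓕) ⟨0, fun _ _ => 0⟩ (Or.inr (Or.inr (Or.inl (Or.inr rfl))))
          Fin.elim0 (fun i => i.elim0)
        exact this
      smul_mem' := by
        intro r t ht
        have := Gen2.app (𝓕 := 𝓕) ⟨1, fun _ v => r • v 0⟩
          (Or.inr (Or.inr (Or.inr ⟨r, rfl⟩))) (fun _ => t) (fun _ => ht)
        exact this }
  have hTc : Countable T := (gen2_countable 𝓕 h𝓕).to_subtype
  have hsupp : ∀ t : T, ∃ F : Finset ℚ, Dep (↑F : Set ℚ) t.1 := fun t => t.2.supp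
  -- the colourings
  let Q : Type := (Bool × {p : T × Finset ℚ // Dep (↑p.2 : Set ℚ) p.1.1}) ⊕ Unit
  let χ : Q → Ω → (ℚ → N) → ℕ := fun q w x => Sum.elim
    (fun p : Bool × {p : T × Finset ℚ // Dep (↑p.2 : Set ℚ) p.1.1} =>
      if p.1 then (if p.2.1.1.1 w x ∈ N' w then 0 else 1)
      else (if p.2.1.1.1 w x = 0 then 0 else 1)) (fun _ => col w) q
  let su : Q → Finset ℚ := fun q => Sum.elim
    (fun p : Bool × {p : T × Finset ℚ // Dep (↑p.2 : Set ℚ) p.1.1} => p.2.1.2) (fun _ => ∅) q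
  obtain ⟨w, e, Φ, he1, he2, hΦ⟩ := template2 ω (fun w => (N' w : Set N)) hbig Q ℚ χ su (by
    rintro (⟨b, ⟨t, D⟩, hD⟩ | u) w x y h
    · have h1 : t.1 w x = t.1 w y := hD w x y h
      show (if b then (if t.1 w x ∈ N' w then 0 else 1) else (if t.1 w x = 0 then 0 else 1)) =
        (if b then (if t.1 w y ∈ N' w then 0 else 1) else (if t.1 w y = 0 then 0 else 1))
      rw [h1]
    · rfl)
  have hz : ∀ (t : T) (D : Finset ℚ) (hD : Dep (↑D : Set ℚ) t.1) (D' : Finset ℚ) (s : ℚ → ℚ),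
      StrictMono s → (∀ j ∈ D, s j ∈ D') →
      (t.1 (w D') (e D' ∘ s) = 0 ↔ Φ (Sum.inl (false, ⟨(t, D), hD⟩)) = 0) := by
    intro t D hD D' s hs hsD
    have h1 := hΦ D' (Sum.inl (false, ⟨(t, D), hD⟩)) s hs hsD
    rw [← h1]
    show _ ↔ (if t.1 (w D') (e D' ∘ s) = 0 then 0 else 1) = 0
    split_ifs with h
    · exact ⟨fun _ => rfl, fun _ => h⟩
    · exact ⟨fun h' => absurd h' h, fun h' => h'.elim⟩
  have hm : ∀ (t : T) (D : Finset ℚ) (hD : Dep (↑D : Set ℚ) t.1) (D' : Finset ℚ) (s : ℚ → ℚ),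
      StrictMono s → (∀ j ∈ D, s j ∈ D') →
      (t.1 (w D') (e D' ∘ s) ∈ N' (w D') ↔ Φ (Sum.inl (true, ⟨(t, D), hD⟩)) = 0) := by
    intro t D hD D' s hs hsD
    have h1 := hΦ D' (Sum.inl (true, ⟨(t, D), hD⟩)) s hs hsD
    rw [← h1]
    show _ ↔ (if t.1 (w D') (e D' ∘ s) ∈ N' (w D') then 0 else 1) = 0
    split_ifs with h
    · exact ⟨fun _ => rfl, fun _ => h⟩
    · exact ⟨fun h' => absurd h' h, fun h' => h'.elim⟩
  have hcol : ∀ D, col (w D) = Φ (Sum.inr ()) := fun D =>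
    hΦ D (Sum.inr ()) id strictMono_id (by intro j hj; exact absurd hj (Finset.notMem_empty j))
  -- zero terms
  have hz2 : ∀ (t : T) (D D' : Finset ℚ), Dep (↑D : Set ℚ) t.1 → Dep (↑D' : Set ℚ) t.1 →
      (t.1 (w D) (e D) = 0 ↔ t.1 (w D') (e D') = 0) := by
    intro t D D' h h'
    have a1 := hz t D h D id strictMono_id (fun j hj => hj)
    have a2 := hz t D h (D ∪ D') id strictMono_id (fun j hj => Finset.mem_union_left _ hj)
    have a3 := hz t D' h' (D ∪ D') id strictMono_id (fun j hj => Finset.mem_union_right _ hj)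
    have a4 := hz t D' h' D' id strictMono_id (fun j hj => hj)
    exact a1.trans (a2.symm.trans (a3.trans a4.symm))
  have hm2 : ∀ (t : T) (D D' : Finset ℚ), Dep (↑D : Set ℚ) t.1 → Dep (↑D' : Set ℚ) t.1 →
      (t.1 (w D) (e D) ∈ N' (w D) ↔ t.1 (w D') (e D') ∈ N' (w D')) := by
    intro t D D' h h'
    have a1 := hm t D h D id strictMono_id (fun j hj => hj)
    have a2 := hm t D h (D ∪ D') id strictMono_id (fun j hj => Finset.mem_union_left _ hj)
    have a3 := hm t D' h' (D ∪ D') id strictMono_id (fun j hj => Finset.mem_union_right _ hj)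
    have a4 := hm t D' h' D' id strictMono_id (fun j hj => hj)
    exact a1.trans (a2.symm.trans (a3.trans a4.symm))
  have dmono : ∀ (t : Ω → (ℚ → N) → N) (D D' : Finset ℚ), D ⊆ D' → Dep (↑D : Set ℚ) t →
      Dep (↑D' : Set ℚ) t := fun t D D' h hD w x y hxy => hD w x y fun j hj => hxy j (h hj)
  choose sp hsp using hsupp
  let Z : Submodule R T :=
    { carrier := {t | ∀ D : Finset ℚ, Dep (↑D : Set ℚ) t.1 → t.1 (w D) (e D) = 0}
      add_mem' := by
        intro s t hs ht D hD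
        let D' := D ∪ (sp s ∪ sp t)
        refine (hz2 (s + t) D D' hD (dmono _ _ _ Finset.subset_union_left hD)).2 ?_
        show s.1 (w D') (e D') + t.1 (w D') (e D') = 0
        rw [hs D' (dmono _ _ _ (Finset.subset_union_left.trans Finset.subset_union_right) (hsp s)),
          ht D' (dmono _ _ _ (Finset.subset_union_right.trans Finset.subset_union_right) (hsp t)),
          add_zero]
      zero_mem' := fun D _ => rfl
      smul_mem' := by
        intro r t ht D hD
        let D' := D ∪ sp t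
        refine (hz2 (r • t) D D' hD (dmono _ _ _ Finset.subset_union_left hD)).2 ?_
        show r • t.1 (w D') (e D') = 0
        rw [ht D' (dmono _ _ _ Finset.subset_union_right (hsp t)), smul_zero] }
  have hZ : ∀ (t : T) (D : Finset ℚ), Dep (↑D : Set ℚ) t.1 → (t ∈ Z ↔ t.1 (w D) (e D) = 0) :=
    fun t D hD => ⟨fun h => h D hD, fun h D' hD' => (hz2 t D D' hD hD').1 h⟩
  let MM : Submodule R T :=
    { carrier := {t | ∀ D : Finset ℚ, Dep (↑D : Set ℚ) t.1 → t.1 (w D) (e D) ∈ N' (w D)}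
      add_mem' := by
        intro s t hs ht D hD
        let D' := D ∪ (sp s ∪ sp t)
        refine (hm2 (s + t) D D' hD (dmono _ _ _ Finset.subset_union_left hD)).2 ?_
        exact (N' (w D')).add_mem
          (hs D' (dmono _ _ _ (Finset.subset_union_left.trans Finset.subset_union_right) (hsp s)))
          (ht D' (dmono _ _ _ (Finset.subset_union_right.trans Finset.subset_union_right) (hsp t)))
      zero_mem' := fun D _ => (N' (w D)).zero_mem
      smul_mem' := by
        intro r t ht D hD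
        let D' := D ∪ sp t
        refine (hm2 (r • t) D D' hD (dmono _ _ _ Finset.subset_union_left hD)).2 ?_
        exact (N' (w D')).smul_mem r
          (ht D' (dmono _ _ _ Finset.subset_union_right (hsp t))) }
  have hMM : ∀ (t : T) (D : Finset ℚ), Dep (↑D : Set ℚ) t.1 →
      (t ∈ MM ↔ t.1 (w D) (e D) ∈ N' (w D)) :=
    fun t D hD => ⟨fun h => h D hD, fun h D' hD' => (hm2 t D D' hD hD').1 h⟩
  let E : Type := T ⧸ Z
  let mk : T →ₗ[R] E := Z.mkQ
  have hmk : Function.Surjective mk := Submodule.mkQ_surjective Z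
  have hmk0 : ∀ t, mk t = 0 ↔ t ∈ Z := fun t => by
    show Z.mkQ t = 0 ↔ _
    rw [Submodule.mkQ_apply, Submodule.Quotient.mk_eq_zero]
  haveI : Countable E := hmk.countable
  have heq : ∀ (s t : T) (D : Finset ℚ), Dep (↑D : Set ℚ) s.1 → Dep (↑D : Set ℚ) t.1 →
      mk s = mk t → s.1 (w D) (e D) = t.1 (w D) (e D) := by
    intro s t D hs ht h
    rw [← sub_eq_zero, ← map_sub, hmk0] at h
    have hD : Dep (↑D : Set ℚ) (s - t).1 := by
      intro w x y hxy
      show s.1 w x - t.1 w x = s.1 w y - t.1 w y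
      rw [hs w x y hxy, ht w x y hxy]
    have h1 := (hZ _ D hD).1 h
    exact sub_eq_zero.1 h1
  let E' : Submodule R E := MM.map mk
  have hE' : ∀ t, mk t ∈ E' ↔ t ∈ MM := by
    intro t
    constructor
    · rintro ⟨s, hs, hst⟩
      let D := sp s ∪ sp t
      have d1 := dmono _ _ D Finset.subset_union_left (hsp s)
      have d2 := dmono _ _ D Finset.subset_union_right (hsp t)
      rw [hMM t D d2, ← heq s t D d1 d2 hst]
      exact (hMM s D d1).1 hs
    · exact fun h => ⟨t, h, rfl⟩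
  -- the action
  let act : (ℚ → ℚ) → (T →ₗ[R] T) := fun ρ =>
    { toFun := fun t => ⟨fun w x => t.1 w (x ∘ ρ), t.2.rename ρ⟩
      map_add' := fun s t => rfl
      map_smul' := fun r t => rfl }
  have hact : ∀ ρ t w x, (act ρ t).1 w x = t.1 w (x ∘ ρ) := fun ρ t w x => rfl
  have dact : ∀ (ρ : ℚ → ℚ) (t : T) (D : Finset ℚ), Dep (↑D : Set ℚ) t.1 →
      Dep (↑(D.image ρ) : Set ℚ) (act ρ t).1 := by
    intro ρ t D hD w x y hxy
    rw [hact, hact]
    refine hD _ _ _ fun j hj => ?_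
    exact hxy (ρ j) (by
      rw [Finset.mem_coe]
      exact Finset.mem_image_of_mem ρ hj)
  have hactZ : ∀ s, StrictMono s → ∀ t, act s t ∈ Z ↔ t ∈ Z := by
    intro s hs t
    rw [hZ _ _ (dact s t _ (hsp t)), hZ _ _ (hsp t), hact,
      hz t (sp t) (hsp t) _ s hs (fun j hj => Finset.mem_image_of_mem s hj)]
    exact (hz t (sp t) (hsp t) (sp t) id strictMono_id (fun j hj => hj)).symm
  have hactM : ∀ s, StrictMono s → ∀ t, act s t ∈ MM ↔ t ∈ MM := by
    intro s hs t
    rw [hMM _ _ (dact s t _ (hsp t)), hMM _ _ (hsp t), hact,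
      hm t (sp t) (hsp t) _ s hs (fun j hj => Finset.mem_image_of_mem s hj)]
    exact (hm t (sp t) (hsp t) (sp t) id strictMono_id (fun j hj => hj)).symm
  let Fn : {s : ℚ → ℚ // StrictMono s} → (E →ₗ[R] E) := fun s =>
    Z.mapQ Z (act s.1) (fun t ht => (hactZ s.1 s.2 t).2 ht)
  have hFn : ∀ s t, Fn s (mk t) = mk (act s.1 t) := fun s t => rfl
  have hFnE : ∀ s x, Fn s x ∈ E' ↔ x ∈ E' := by
    intro s x
    obtain ⟨t, rfl⟩ := hmk x
    rw [hFn, hE', hE', hactM s.1 s.2]
  -- the finite parts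
  let TD : Finset ℚ → Submodule R T := fun D =>
    { carrier := {t | Dep (↑D : Set ℚ) t.1}
      add_mem' := by
        intro s t hs ht w x y h
        show s.1 w x + t.1 w x = s.1 w y + t.1 w y
        rw [hs w x y h, ht w x y h]
      zero_mem' := fun w x y h => rfl
      smul_mem' := by
        intro r t ht w x y h
        show r • t.1 w x = r • t.1 w y
        rw [ht w x y h] }
  let 𝓔 : Finset ℚ → Submodule R E := fun D => (TD D).map mk
  -- the part off `[0, 1)`
  let TK : Submodule R T :=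
    { carrier := {t | Dep {j | ¬ (0 ≤ j ∧ j < 1)} t.1}
      add_mem' := by
        intro s t hs ht w x y h
        show s.1 w x + t.1 w x = s.1 w y + t.1 w y
        rw [hs w x y h, ht w x y h]
      zero_mem' := fun w x y h => rfl
      smul_mem' := by
        intro r t ht w x y h
        show r • t.1 w x = r • t.1 w y
        rw [ht w x y h] }
  let A : Submodule R E := TK.map mk
  let X : Type := E ⧸ A
  let π : E →ₗ[R] X := A.mkQ
  have hπ : ∀ a ∈ A, π a = 0 := fun a ha => by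
    show A.mkQ a = 0
    rw [Submodule.mkQ_apply, Submodule.Quotient.mk_eq_zero]
    exact ha
  haveI : Countable X := (Submodule.mkQ_surjective A).countable
  let X' : Submodule R X := E'.map π
  -- the differences
  have hδ : ∀ (s s' : {s : ℚ → ℚ // StrictMono s}), (∀ j, ¬ (0 ≤ j ∧ j < 1) → s.1 j = s'.1 j) →
      ∀ a ∈ A, Fn s a = Fn s' a := by
    rintro s s' h _ ⟨t, ht, rfl⟩
    rw [hFn, hFn]
    congr 1
    apply Subtype.ext
    funext w x
    rw [hact, hact]
    refine ht _ _ _ fun j hj => ?_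
    show x (s.1 j) = x (s'.1 j)
    rw [h j hj]
  have hA' : ∀ (s' : {s : ℚ → ℚ // StrictMono s}), (∀ j, ¬ (0 ≤ s'.1 j ∧ s'.1 j < 1)) →
      ∀ a, Fn s' a ∈ A := by
    intro s' h a
    obtain ⟨t, rfl⟩ := hmk a
    rw [hFn]
    refine ⟨_, fun w x y hxy => ?_, rfl⟩
    rw [hact, hact]
    exact congrArg (t.1 w) (funext fun j => hxy _ (h j))
  have hfix : ∀ (s : {s : ℚ → ℚ // StrictMono s}) (t : T), (∀ j ∈ sp t, s.1 j = j) →
      Fn s (mk t) = mk t := by
    intro s t h
    rw [hFn]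
    congr 1
    apply Subtype.ext
    funext w x
    rw [hact]
    refine hsp t _ _ _ fun j hj => ?_
    show x (s.1 j) = x j
    rw [h j hj]
  -- the splitting
  obtain ⟨σ, hσ, hσ'⟩ := split_epi' π E' X' (fun b hb => ⟨b, hb, rfl⟩) (by
    intro G
    choose t ht using hmk
    have hl : ∀ x : X, ∃ y : E, π y = x := Submodule.mkQ_surjective A
    choose l hl using hl
    obtain ⟨s, s', h1, h2, h3, h4, h5⟩ := exists_maps (G.biUnion fun x => sp (t (l x)))
    let δ : E →ₗ[R] E := Fn ⟨s, h1⟩ - Fn ⟨s', h2⟩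
    have hδE : ∀ y ∈ E', δ y ∈ E' := fun y hy =>
      E'.sub_mem ((hFnE _ _).2 hy) ((hFnE _ _).2 hy)
    refine ⟨A.liftQ δ (fun a ha => ?_), fun x hx => ?_, ?_⟩
    · rw [LinearMap.mem_ker]
      show Fn ⟨s, h1⟩ a - Fn ⟨s', h2⟩ a = 0
      rw [hδ ⟨s, h1⟩ ⟨s', h2⟩ h3 a ha, sub_self]
    · have h6 : x = π (mk (t (l x))) := by rw [ht, hl]
      conv_lhs => rw [h6]
      show π (δ (mk (t (l x)))) = x
      show π (Fn ⟨s, h1⟩ (mk (t (l x))) - Fn ⟨s', h2⟩ (mk (t (l x)))) = x
      rw [hfix ⟨s, h1⟩ (t (l x)) (fun j hj => h4 j (Finset.mem_biUnion.2 ⟨x, hx, hj⟩)), map_sub,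
        hπ _ (hA' ⟨s', h2⟩ h5 _), sub_zero, ← h6]
    · rintro _ ⟨y, hy, rfl⟩
      exact hδE y hy)
  -- `E ≃ A`
  let θ : ℚ → ℚ := fun x => if x < 0 then x else x + 1
  have θ1 : ∀ x, x < 0 → θ x = x := fun x h => if_pos h
  have θ2 : ∀ x, 0 ≤ x → θ x = x + 1 := fun x h => if_neg (not_lt.2 h)
  have hθ : StrictMono θ := by
    intro a b hab
    rcases lt_or_ge a 0 with ha | ha
    · rw [θ1 a ha]
      rcases lt_or_ge b 0 with hb | hb
      · rw [θ1 b hb]; exact hab
      · rw [θ2 b hb]; linarith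
    · rw [θ2 a ha, θ2 b (ha.trans hab.le)]; linarith
  have hθK : ∀ j, ¬ (0 ≤ θ j ∧ θ j < 1) := by
    intro j hj
    rcases lt_or_ge j 0 with h | h
    · rw [θ1 j h] at hj; linarith [hj.1]
    · rw [θ2 j h] at hj; linarith [hj.2]
  let ρ : ℚ → ℚ := fun x => if x < 0 then x else x - 1
  have hθρ : ∀ j, ¬ (0 ≤ j ∧ j < 1) → θ (ρ j) = j := by
    intro j hj
    rcases lt_or_ge j 0 with h | h
    · have : ρ j = j := if_pos h
      rw [this, θ1 j h]
    · have h1 : 1 ≤ j := by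
        by_contra h2
        exact hj ⟨h, not_le.1 h2⟩
      have : ρ j = j - 1 := if_neg (not_lt.2 h)
      rw [this, θ2 _ (by linarith)]
      ring
  let a₀ : E →ₗ[R] A := LinearMap.codRestrict A (Fn ⟨θ, hθ⟩) (hA' ⟨θ, hθ⟩ hθK)
  have ha₀ : Function.Bijective a₀ := by
    constructor
    · rw [injective_iff_map_eq_zero]
      intro y hy
      obtain ⟨t, rfl⟩ := hmk y
      have h1 : Fn ⟨θ, hθ⟩ (mk t) = 0 := congrArg Subtype.val hy
      rw [hFn, hmk0] at h1
      rw [hmk0]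
      exact (hactZ θ hθ t).1 h1
    · rintro ⟨_, t, ht, rfl⟩
      refine ⟨mk (act ρ t), Subtype.ext ?_⟩
      show Fn ⟨θ, hθ⟩ (mk (act ρ t)) = mk t
      rw [hFn]
      congr 1
      apply Subtype.ext
      funext w x
      rw [hact, hact]
      refine ht _ _ _ fun j hj => ?_
      show x (θ (ρ j)) = x j
      rw [hθρ j hj]
  let a₁ : E ≃ₗ[R] A := LinearEquiv.ofBijective a₀ ha₀
  let a₂ : A ≃ₗ[R] LinearMap.ker π := LinearEquiv.ofEq _ _ (Submodule.ker_mkQ A).symm
  let e₀ : (E × X) ≃ₗ[R] E := (LinearEquiv.prodComm R E X).trans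
    ((LinearEquiv.prodCongr (LinearEquiv.refl R X) (a₁.trans a₂)).trans (splitEquiv σ π hσ).symm)
  have he₀' : ∀ y x, e₀ (y, x) = σ x + Fn ⟨θ, hθ⟩ y := fun y x => rfl
  have he₀ : ∀ y, e₀ (y, 0) = Fn ⟨θ, hθ⟩ y := by
    intro y
    rw [he₀', map_zero, zero_add]
  -- shifts
  have hsh : ∀ n : ℚ, StrictMono fun x : ℚ => x + n := fun n a b hab => by
    show a + n < b + n
    linarith
  let sh : ℚ → (E ≃ₗ[R] E) := fun n => LinearEquiv.ofLinear (Fn ⟨_, hsh n⟩) (Fn ⟨_, hsh (-n)⟩)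
    (by
      refine LinearMap.ext fun y => ?_
      obtain ⟨t, rfl⟩ := hmk y
      show Fn ⟨_, hsh n⟩ (Fn ⟨_, hsh (-n)⟩ (mk t)) = mk t
      rw [hFn, hFn]
      congr 1
      apply Subtype.ext
      funext w x
      rw [hact, hact]
      refine congrArg (t.1 w) (funext fun j => ?_)
      show x (j + -n + n) = x j
      rw [neg_add_cancel_right])
    (by
      refine LinearMap.ext fun y => ?_
      obtain ⟨t, rfl⟩ := hmk y
      show Fn ⟨_, hsh (-n)⟩ (Fn ⟨_, hsh n⟩ (mk t)) = mk t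
      rw [hFn, hFn]
      congr 1
      apply Subtype.ext
      funext w x
      rw [hact, hact]
      refine congrArg (t.1 w) (funext fun j => ?_)
      show x (j + n + -n) = x j
      rw [add_neg_cancel_right])
  -- constants
  let ct : ℕ → T := fun i => ⟨fun w _ => cst w i, by
    have := Gen2.app (𝓕 := 𝓕) ⟨0, fun w _ => cst w i⟩ (Or.inr (Or.inl ⟨i, rfl⟩))
      Fin.elim0 (fun i => i.elim0)
    exact this⟩
  have hct : ∀ i (D : Finset ℚ), Dep (↑D : Set ℚ) (ct i).1 := fun i D w x y _ => rfl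
  -- the local isomorphisms
  have hrep : ∀ (D : Finset ℚ) (x : 𝓔 D), ∃ t : T, Dep (↑D : Set ℚ) t.1 ∧ mk t = x := by
    rintro D ⟨_, t, ht, rfl⟩
    exact ⟨t, ht, rfl⟩
  choose rep hrep1 hrep2 using hrep
  let k₀ : ∀ D, 𝓔 D → N := fun D x => (rep D x).1 (w D) (e D)
  have hk₀ : ∀ D (x : 𝓔 D) (t : T), Dep (↑D : Set ℚ) t.1 → mk t = x →
      k₀ D x = t.1 (w D) (e D) := fun D x t ht hx =>
    heq _ _ D (hrep1 D x) ht ((hrep2 D x).trans hx.symm)
  let k : ∀ D, 𝓔 D →ₗ[R] N := fun D =>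
    { toFun := k₀ D
      map_add' := fun x y => by
        have h1 : Dep (↑D : Set ℚ) (rep D x + rep D y).1 := by
          intro w x' y' h
          show (rep D x).1 w x' + (rep D y).1 w x' = (rep D x).1 w y' + (rep D y).1 w y'
          rw [hrep1 D x w x' y' h, hrep1 D y w x' y' h]
        exact hk₀ D (x + y) (rep D x + rep D y) h1 (by
          rw [map_add, hrep2, hrep2]; rfl)
      map_smul' := fun r x => by
        have h1 : Dep (↑D : Set ℚ) (r • rep D x).1 := by
          intro w x' y' h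
          show r • (rep D x).1 w x' = r • (rep D x).1 w y'
          rw [hrep1 D x w x' y' h]
        exact hk₀ D (r • x) (r • rep D x) h1 (by
          rw [map_smul, hrep2]; rfl) }
  have hk : ∀ D (x : 𝓔 D) (t : T), Dep (↑D : Set ℚ) t.1 → mk t = x →
      k D x = t.1 (w D) (e D) := hk₀
  have himg : ∀ (D D' : Finset ℚ), D' ⊆ D → ∀ y, y ∈ ((𝓔 D').comap (𝓔 D).subtype).map (k D) ↔
      ∃ t : T, Dep (↑D' : Set ℚ) t.1 ∧ t.1 (w D) (e D) = y := by
    intro D D' hDD y
    constructor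
    · rintro ⟨x, ⟨t, ht, htx⟩, rfl⟩
      exact ⟨t, ht, (hk D x t (dmono _ _ _ hDD ht) htx).symm⟩
    · rintro ⟨t, ht, rfl⟩
      exact ⟨⟨mk t, t, dmono _ _ _ hDD ht, rfl⟩, ⟨t, ht, rfl⟩,
        hk D _ t (dmono _ _ _ hDD ht) rfl⟩
  refine ⟨E, inferInstance, inferInstance, E', A, 𝓔, fun i => mk (ct i), Φ (Sum.inr ()), ?_⟩
  constructor
  · infer_instance
  · intro D D' h
    exact Submodule.map_mono fun t ht => dmono _ _ _ h ht
  · intro x
    obtain ⟨t, rfl⟩ := hmk x
    exact ⟨sp t, t, hsp t, rfl⟩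
  · rintro _ ⟨t, ht, rfl⟩
    refine ⟨(sp t).filter fun j => ¬ (0 ≤ j ∧ j < 1), fun j hj => (Finset.mem_filter.1 hj).2,
      t, fun w x y hxy => ?_, rfl⟩
    let z : ℚ → N := fun j => if (0 ≤ j ∧ j < 1) then y j else x j
    have h1 : t.1 w x = t.1 w z := ht w x z fun j hj => (if_neg hj).symm
    rw [h1]
    refine hsp t w z y fun j hj => ?_
    show (if (0 ≤ j ∧ j < 1) then y j else x j) = y j
    split_ifs with h
    · rfl
    · exact hxy j (by
        rw [Finset.mem_coe, Finset.mem_filter]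
        exact ⟨hj, h⟩)
  · intro D hD
    exact Submodule.map_mono fun t ht w x y hxy => ht w x y fun j hj => hxy j (hD j hj)
  · intro i D
    exact ⟨ct i, hct i D, rfl⟩
  · intro D
    refine ⟨w D, k D, ?_, hcol D, fun D' hDD F hF => ?_, fun x => ?_, fun i x hx => ?_⟩
    · rw [injective_iff_map_eq_zero]
      intro x hx
      apply Subtype.ext
      show (x : E) = 0
      rw [← hrep2 D x, hmk0, hZ _ D (hrep1 D x)]
      exact hx
    · intro y hy
      have hF' : ∀ z : {z // z ∈ F}, ∃ t : T, Dep (↑D' : Set ℚ) t.1 ∧ t.1 (w D) (e D) = z :=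
        fun z => (himg D D' hDD z).1 (hF z.2)
      choose t ht1 ht2 using hF'
      obtain ⟨n, hn⟩ := hen (w D) F hy
      let v : Fin F.card → N := fun i => (F.equivFin.symm i : N)
      have hv : Finset.univ.image v = F := by
        ext z
        rw [Finset.mem_image]
        constructor
        · rintro ⟨i, -, rfl⟩
          exact (F.equivFin.symm i).2
        · intro hz
          exact ⟨F.equivFin ⟨z, hz⟩, Finset.mem_univ _, by
            show ((F.equivFin.symm (F.equivFin ⟨z, hz⟩) : {z // z ∈ F}) : N) = z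
            rw [Equiv.symm_apply_apply]⟩
      let g : Fin F.card → (Ω → (ℚ → N) → N) := fun i => (t (F.equivFin.symm i)).1
      have hg : Gen2 𝓕 (fun w x => en w (Finset.univ.image fun i => g i w x) n) :=
        Gen2.app (𝓕 := 𝓕) (fc (F.card, n)) (Or.inl ⟨_, rfl⟩) g
          (fun i => (t (F.equivFin.symm i)).2)
      refine (himg D D' hDD y).2 ⟨⟨_, hg⟩, fun w' x x' h => ?_, ?_⟩
      · show en w' (Finset.univ.image fun i => g i w' x) n =
          en w' (Finset.univ.image fun i => g i w' x') n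
        have : (fun i => g i w' x) = fun i => g i w' x' := funext fun i => ht1 _ w' x x' h
        rw [this]
      · show en (w D) (Finset.univ.image fun i => g i (w D) (e D)) n = y
        have : (fun i => g i (w D) (e D)) = v := funext fun i => ht2 _
        rw [this, hv, hn]
    · have h1 := hk D x (rep D x) (hrep1 D x) (hrep2 D x)
      rw [h1, ← hMM _ D (hrep1 D x), ← hE', hrep2]
    · exact hk D x (ct i) (hct i D) hx.symm
  · refine ⟨e₀, fun z => ⟨fun hz => ?_, ?_⟩, fun y x => ⟨fun h => ?_, ?_⟩⟩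
    · obtain ⟨y, hy⟩ := ha₀.2 ⟨z, hz⟩
      exact ⟨y, (he₀ y).trans (congrArg Subtype.val hy)⟩
    · rintro ⟨y, rfl⟩
      rw [he₀]
      exact hA' ⟨θ, hθ⟩ hθK y
    · rw [he₀'] at h
      have h1 : π (σ x + Fn ⟨θ, hθ⟩ y) = x := by
        rw [map_add, hσ, hπ _ (hA' ⟨θ, hθ⟩ hθK y), add_zero]
      have h2 : x ∈ X' := ⟨_, h, h1⟩
      have h3 : Fn ⟨θ, hθ⟩ y ∈ E' := by
        have := E'.sub_mem h (hσ' x h2)
        rwa [add_sub_cancel_left] at this
      exact ⟨(hFnE _ _).1 h3, h2⟩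
    · rintro ⟨h1, h2⟩
      rw [he₀']
      exact E'.add_mem (hσ' x h2) ((hFnE _ _).2 h1)
  · intro G
    have hmk' : ∀ y, ∃ t, mk t = y := hmk
    choose t ht using hmk'
    obtain ⟨n, hn⟩ : ∃ n : ℚ, ∀ j ∈ G.biUnion (fun y => sp (t y)), j < n := by
      generalize G.biUnion (fun y => sp (t y)) = G'
      induction G' using Finset.induction_on with
      | empty => exact ⟨0, by simp⟩
      | insert a G' _ ih =>
          obtain ⟨n, hn⟩ := ih
          refine ⟨max n (a + 1), fun j hj => ?_⟩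
          rcases Finset.mem_insert.1 hj with rfl | hj
          · exact lt_of_lt_of_le (by linarith) (le_max_right _ _)
          · exact (hn j hj).trans_le (le_max_left _ _)
    refine ⟨(LinearEquiv.prodCongr (sh n).symm (LinearEquiv.refl R X)).trans (e₀.trans (sh n)),
      fun y hy => ?_⟩
    show sh n (e₀ ((sh n).symm y, 0)) = y
    rw [he₀]
    show Fn ⟨_, hsh n⟩ (Fn ⟨θ, hθ⟩ (Fn ⟨_, hsh (-n)⟩ y)) = y
    rw [← ht y, hFn, hFn, hFn]
    congr 1
    apply Subtype.ext
    funext w x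
    rw [hact, hact, hact]
    refine hsp (t y) _ _ _ fun j hj => ?_
    show x (θ (j + -n) + n) = x j
    have hjn := hn j (Finset.mem_biUnion.2 ⟨y, hy, hj⟩)
    rw [θ1 _ (by linarith), neg_add_cancel_right]
  · let p0 : T := ⟨fun _ x => x 0, Gen2.proj 0⟩
    have hp0 : ∀ D : Finset ℚ, (0 : ℚ) ∈ D → Dep (↑D : Set ℚ) p0.1 := fun D hD w x y h => h 0 hD
    refine ⟨mk p0, (hE' _).2 ?_, fun h0 => ?_⟩
    · rw [hMM p0 {0} (hp0 _ (Finset.mem_singleton_self 0))]
      exact he2 {0} 0 (Finset.mem_singleton_self 0)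
    · obtain ⟨s, s', h1, h2, h3, h4, h5⟩ := exists_maps {0}
      have h6 := hδ ⟨s, h1⟩ ⟨s', h2⟩ h3 _ h0
      rw [hFn, hFn] at h6
      have h7 : s' 0 ≠ s 0 := by
        rw [h4 0 (Finset.mem_singleton_self 0)]
        intro h8
        exact h5 0 ⟨by rw [h8], by rw [h8]; norm_num⟩
      let D : Finset ℚ := {s 0, s' 0}
      have d1 : Dep (↑D : Set ℚ) (act s p0).1 := fun w x y h => h (s 0) (by simp [D])
      have d2 : Dep (↑D : Set ℚ) (act s' p0).1 := fun w x y h => h (s' 0) (by simp [D])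
      have h8 : e D (s 0) = e D (s' 0) := heq _ _ D d1 d2 h6
      exact h7 (he1 D (by simp [D]) (by simp [D]) h8).symm

end Pool.Agent.Y583.MC
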