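import Pool.Agent.Y583.MF4

set_option autoImplicit false

/-!
Formulas and strong submodules in the Ehrenfeucht–Mostowski module.
-/

namespace Pool.Agent.Y583.MC

open Cardinal Pool.Agent.W879.AE
open Pool.Agent.H288R4.LS (bethFrom)

variable {R : Type} [Ring R]

/-- the image of a submodule under a map that is injective on a larger one -/
noncomputable def locEquiv {E N : Type} [AddCommGroup E] [Module R E] [AddCommGroup N] [Module R N]
    {S T : Submodule R E} (hST : S ≤ T) (k : T →ₗ[R] N) (hk : Function.Injective k) :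
    S ≃ₗ[R] ((S.comap T.subtype).map k) :=
  (Submodule.comapSubtypeEquivOfLe hST).symm.trans (Submodule.equivMapOfInjective k hk _)

theorem locEquiv_apply {E N : Type} [AddCommGroup E] [Module R E] [AddCommGroup N] [Module R N]
    {S T : Submodule R E} (hST : S ≤ T) (k : T →ₗ[R] N) (hk : Function.Injective k) (x : S) :
    (locEquiv hST k hk x : N) = k (Submodule.inclusion hST x) := rfl

theorem sat_local {E N : Type} [AddCommGroup E] [Module R E] [AddCommGroup N] [Module R N]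
    {n : ℕ} (θ : Fml R n) (c : Finset N → Set N)
    (hc : ∀ S : Submodule R N, Closed c (S : Set N) →
      ∀ v : Fin n → S, Sat S θ v ↔ Sat N θ (fun i => (v i : N)))
    {S T : Submodule R E} (hST : S ≤ T) (k : T →ₗ[R] N) (hk : Function.Injective k)
    (h1 : Closed c (((S.comap T.subtype).map k : Submodule R N) : Set N))
    (h2 : Closed c (((T.comap T.subtype).map k : Submodule R N) : Set N)) (v : Fin n → S) :
    Sat S θ v ↔ Sat T θ (fun i => Submodule.inclusion hST (v i)) := by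
  rw [sat_iso (locEquiv hST k hk) θ v, hc _ h1, sat_iso (locEquiv le_rfl k hk) θ, hc _ h2]
  rfl

theorem los3 {N : Type} [AddCommGroup N] [Module R N] {n : ℕ} (φ : Fml R n) :
    ∃ c : Finset N → Set N, (∀ F, (c F).Countable) ∧
      ∀ (E : Type) [AddCommGroup E] [Module R E] (ι : Type) (𝓔 : ι → Submodule R E),
        Directed (· ≤ ·) 𝓔 → (∀ x, ∃ i, x ∈ 𝓔 i) →
        (∀ i j, 𝓔 i ≤ 𝓔 j → ∃ k : 𝓔 j →ₗ[R] N, Function.Injective k ∧
          Closed c ((((𝓔 i).comap (𝓔 j).subtype).map k : Submodule R N) : Set N) ∧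
          Closed c ((((𝓔 j).comap (𝓔 j).subtype).map k : Submodule R N) : Set N)) →
        ∀ i (v : Fin n → 𝓔 i), Sat E φ (fun m => (v m : E)) ↔ Sat (𝓔 i) φ v := by
  classical
  induction φ with
  | lin r =>
      refine ⟨fun _ => ∅, fun _ => Set.countable_empty, fun E _ _ ι 𝓔 _ _ _ i v => ?_⟩
      show (∑ i, r i • (v i : E) = 0) ↔ (∑ i, r i • v i = 0)
      rw [← Subtype.coe_inj]
      simp
  | neg φ ih =>
      obtain ⟨c, hc, h⟩ := ih
      exact ⟨c, hc, fun E _ _ ι 𝓔 h1 h2 h3 i v => not_congr (h E ι 𝓔 h1 h2 h3 i v)⟩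
  | conj φ ih =>
      choose c hc h using ih
      refine ⟨fun F => ⋃ k, c k F, fun F => Set.countable_iUnion fun k => hc k F,
        fun E _ _ ι 𝓔 h1 h2 h3 i v => forall_congr' fun m => h m E ι 𝓔 h1 h2 (fun i j hij => ?_) i v⟩
      obtain ⟨k, h4, h5, h6⟩ := h3 i j hij
      exact ⟨k, h4, fun F hF => (Set.subset_iUnion (fun k => c k F) m).trans (h5 F hF),
        fun F hF => (Set.subset_iUnion (fun k => c k F) m).trans (h6 F hF)⟩
  | @ex n φ ih =>
      obtain ⟨c, hc, h⟩ := ih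
      obtain ⟨c', hc', h'⟩ := skolem (N := N) (.ex φ)
      refine ⟨fun F => c F ∪ c' F, fun F => (hc F).union (hc' F),
        fun E _ _ ι 𝓔 h1 h2 h3 i v => ?_⟩
      have ih' := h E ι 𝓔 h1 h2 (fun i j hij => by
        obtain ⟨k, h4, h5, h6⟩ := h3 i j hij
        exact ⟨k, h4, fun F hF => Set.subset_union_left.trans (h5 F hF),
          fun F hF => Set.subset_union_left.trans (h6 F hF)⟩)
      constructor
      · rintro ⟨b, hb⟩
        obtain ⟨j₀, hj₀⟩ := h2 b
        obtain ⟨j, hij, hj⟩ := h1 i j₀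
        obtain ⟨k, h4, h5, h6⟩ := h3 i j hij
        let w : Fin n → 𝓔 j := fun m => Submodule.inclusion hij (v m)
        have h7 : Sat (𝓔 j) φ (Fin.cons ⟨b, hj hj₀⟩ w) := by
          refine (ih' j _).1 ?_
          rw [cons_comp (fun x : 𝓔 j => (x : E)) _ w]
          exact hb
        have h8 : Sat (𝓔 j) (.ex φ) w := ⟨_, h7⟩
        exact (sat_local (.ex φ) c' h' hij k h4
          (fun F hF => Set.subset_union_right.trans (h5 F hF))
          (fun F hF => Set.subset_union_right.trans (h6 F hF)) v).2 h8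
      · rintro ⟨a, ha⟩
        refine ⟨a, ?_⟩
        have := (ih' i _).2 ha
        rw [cons_comp (fun x : 𝓔 i => (x : E)) a v] at this
        exact this

section
variable {K : KK R} {Ω N : Type} [AddCommGroup N] [Module R N] {c : Ω → Finset N → Set N}
    {N' : Ω → Submodule R N} {cst : Ω → ℕ → N} {col : Ω → ℕ} {E : Type} [AddCommGroup E]
    [Module R E] {E' A : Submodule R E} {𝓔 : Finset ℚ → Submodule R E} {cc : ℕ → E}
    {n₀ : ℕ} {c₀ : Finset N → Set N}

theorem closed_inf {S T : Submodule R N} (hS : Closed c₀ (S : Set N)) (hT : Closed c₀ (T : Set N)) :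
    Closed c₀ ((S ⊓ T : Submodule R N) : Set N) := fun F hF x hx =>
  ⟨hS F (fun y hy => (hF hy).1) hx, hT F (fun y hy => (hF hy).2) hx⟩

namespace EMOut

variable (h : EMOut c N' cst col E' A 𝓔 cc n₀)

include h

theorem dir : Directed (· ≤ ·) 𝓔 := fun D D' =>
  ⟨D ∪ D', h.mono _ _ Finset.subset_union_left, h.mono _ _ Finset.subset_union_right⟩

theorem dir' : Directed (· ≤ ·) fun D => 𝓔 D ⊓ E' := fun D D' =>
  ⟨D ∪ D', inf_le_inf_right _ (h.mono _ _ Finset.subset_union_left),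
    inf_le_inf_right _ (h.mono _ _ Finset.subset_union_right)⟩

theorem sup : (⨆ D, 𝓔 D) = ⊤ := by
  rw [eq_top_iff]
  intro x _
  obtain ⟨D, hD⟩ := h.cov x
  exact (le_iSup 𝓔 D) hD

theorem sup' : (⨆ D, 𝓔 D ⊓ E') = E' := by
  apply le_antisymm
  · exact iSup_le fun D => inf_le_right
  · intro x hx
    obtain ⟨D, hD⟩ := h.cov x
    exact (le_iSup (fun D => 𝓔 D ⊓ E') D) ⟨hD, hx⟩

/-- the image of the distinguished part -/
theorem map_inf {D D' : Finset ℚ} {w : Ω} {k : 𝓔 D' →ₗ[R] N}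
    (h2 : ∀ x : 𝓔 D', (x : E) ∈ E' ↔ k x ∈ N' w) :
    (((𝓔 D ⊓ E').comap (𝓔 D').subtype).map k : Submodule R N) =
      ((𝓔 D).comap (𝓔 D').subtype).map k ⊓ N' w := by
  ext y
  constructor
  · rintro ⟨x, hx, rfl⟩
    exact ⟨⟨x, hx.1, rfl⟩, (h2 x).1 hx.2⟩
  · rintro ⟨⟨x, hx, rfl⟩, h3⟩
    exact ⟨x, ⟨hx, (h2 x).2 h3⟩, rfl⟩

variable (hcc : ∀ w F, c₀ F ⊆ c w F) (hN' : ∀ w, Closed c₀ (N' w : Set N))

include hcc hN' in
/-- local maps with closed images -/
theorem loc' (D D' : Finset ℚ) (hD : D ⊆ D') : ∃ k : 𝓔 D' →ₗ[R] N, Function.Injective k ∧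
    Closed c₀ ((((𝓔 D).comap (𝓔 D').subtype).map k : Submodule R N) : Set N) ∧
    Closed c₀ ((((𝓔 D ⊓ E').comap (𝓔 D').subtype).map k : Submodule R N) : Set N) ∧
    Closed c₀ ((((𝓔 D').comap (𝓔 D').subtype).map k : Submodule R N) : Set N) ∧
    Closed c₀ ((((𝓔 D' ⊓ E').comap (𝓔 D').subtype).map k : Submodule R N) : Set N) := by
  obtain ⟨w, k, h1, -, h3, h4, -⟩ := h.loc D'
  have hD1 : Closed c₀ ((((𝓔 D).comap (𝓔 D').subtype).map k : Submodule R N) : Set N) :=
    fun F hF => (hcc w F).trans (h3 D hD F hF)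
  have hD2 : Closed c₀ ((((𝓔 D').comap (𝓔 D').subtype).map k : Submodule R N) : Set N) :=
    fun F hF => (hcc w F).trans (h3 D' subset_rfl F hF)
  refine ⟨k, h1, hD1, ?_, hD2, ?_⟩
  · rw [h.map_inf h4]
    exact closed_inf hD1 (hN' w)
  · rw [h.map_inf h4]
    exact closed_inf hD2 (hN' w)

variable (hstr : ∀ S : Submodule R N, Closed c₀ (S : Set N) → K.le S ⊤)

include hcc hN' hstr

theorem str_aux {S : Submodule R E} {D' : Finset ℚ} (hS : S ≤ 𝓔 D') (k : 𝓔 D' →ₗ[R] N)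
    (hk : Function.Injective k)
    (h1 : Closed c₀ (((S.comap (𝓔 D').subtype).map k : Submodule R N) : Set N))
    (h2 : Closed c₀ ((((𝓔 D').comap (𝓔 D').subtype).map k : Submodule R N) : Set N)) :
    K.le S (𝓔 D') := by
  refine KK.le_of_local hS k hk ?_
  have h3 : LinearMap.range k = ((𝓔 D').comap (𝓔 D').subtype).map k := by
    rw [Submodule.comap_subtype_self, Submodule.map_top]
  rw [h3]
  refine (hstr _ h1).coh (hstr _ h2) (Submodule.map_mono fun x hx => x.2)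

theorem str1 (D D' : Finset ℚ) (hD : D ⊆ D') : K.le (𝓔 D) (𝓔 D') := by
  obtain ⟨k, h1, h2, -, h3, -⟩ := h.loc' hcc hN' D D' hD
  exact h.str_aux hcc hN' hstr (h.mono _ _ hD) k h1 h2 h3

theorem str2 (D D' : Finset ℚ) (hD : D ⊆ D') : K.le (𝓔 D ⊓ E') (𝓔 D') := by
  obtain ⟨k, h1, -, h2, h3, -⟩ := h.loc' hcc hN' D D' hD
  exact h.str_aux hcc hN' hstr (inf_le_left.trans (h.mono _ _ hD)) k h1 h2 h3

theorem str3 (D : Finset ℚ) : K.le (𝓔 D) ⊤ := by
  have h1 := KK.le_iSup (K := K) 𝓔 h.dir (fun D D' hDD => by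
    have h2 := h.str1 hcc hN' hstr D (D ∪ D') Finset.subset_union_left
    have h3 := h.str1 hcc hN' hstr D' (D ∪ D') Finset.subset_union_right
    exact h2.coh h3 hDD) D
  rwa [h.sup] at h1

theorem str4 (D : Finset ℚ) : K.le (𝓔 D ⊓ E') ⊤ :=
  (h.str2 hcc hN' hstr D D subset_rfl).trans (h.str3 hcc hN' hstr D)

theorem str5 : K.le E' ⊤ := by
  have := KK.iSup_le (K := K) (fun D => 𝓔 D ⊓ E') h.dir' (T := ⊤) fun D =>
    h.str4 hcc hN' hstr D
  rwa [h.sup'] at this

theorem str6 : K.le A ⊤ := by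
  classical
  haveI : Nonempty {D : Finset ℚ // Off D} := ⟨⟨∅, fun j hj => absurd hj (Finset.notMem_empty j)⟩⟩
  have h1 : (⨆ D : {D : Finset ℚ // Off D}, 𝓔 D.1) = A := by
    apply le_antisymm
    · exact iSup_le fun D => h.A2 D.1 D.2
    · intro x hx
      obtain ⟨D, hD, hxD⟩ := h.A1 x hx
      exact (le_iSup (fun D : {D : Finset ℚ // Off D} => 𝓔 D.1) ⟨D, hD⟩) hxD
  rw [← h1]
  refine KK.iSup_le _ (fun D D' => ⟨⟨D.1 ∪ D'.1, fun j hj => ?_⟩,
    h.mono _ _ Finset.subset_union_left, h.mono _ _ Finset.subset_union_right⟩)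
    fun D => h.str3 hcc hN' hstr D.1
  rcases Finset.mem_union.1 hj with h | h
  · exact D.2 j h
  · exact D'.2 j h

theorem str7 : K.le (A ⊓ E') ⊤ := by
  classical
  haveI : Nonempty {D : Finset ℚ // Off D} := ⟨⟨∅, fun j hj => absurd hj (Finset.notMem_empty j)⟩⟩
  have h1 : (⨆ D : {D : Finset ℚ // Off D}, 𝓔 D.1 ⊓ E') = A ⊓ E' := by
    apply le_antisymm
    · exact iSup_le fun D => inf_le_inf_right _ (h.A2 D.1 D.2)
    · rintro x ⟨hx, hx'⟩
      obtain ⟨D, hD, hxD⟩ := h.A1 x hx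
      exact (le_iSup (fun D : {D : Finset ℚ // Off D} => 𝓔 D.1 ⊓ E') ⟨D, hD⟩) ⟨hxD, hx'⟩
  rw [← h1]
  refine KK.iSup_le _ (fun D D' => ⟨⟨D.1 ∪ D'.1, fun j hj => ?_⟩,
    inf_le_inf_right _ (h.mono _ _ Finset.subset_union_left),
    inf_le_inf_right _ (h.mono _ _ Finset.subset_union_right)⟩)
    fun D => h.str4 hcc hN' hstr D.1
  rcases Finset.mem_union.1 hj with h | h
  · exact D.2 j h
  · exact D'.2 j h

/-- the pair -/
theorem pair : PairD K E'.subtype (E'.map A.mkQ).subtype := by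
  obtain ⟨e₀, he1, he2⟩ := h.spl
  have h1 : ∀ x : E' × E'.map A.mkQ, e₀ (x.1, x.2) ∈ E' := fun x =>
    (he2 _ _).2 ⟨x.1.2, x.2.2⟩
  let ε₁' : (E' × E'.map A.mkQ) →ₗ[R] E' :=
    LinearMap.codRestrict E' ((e₀ : (E × (E ⧸ A)) →ₗ[R] E) ∘ₗ
      (E'.subtype.prodMap (E'.map A.mkQ).subtype)) h1
  have hb : Function.Bijective ε₁' := by
    constructor
    · intro x y hxy
      have h2 : e₀ ((x.1 : E), (x.2 : E ⧸ A)) = e₀ ((y.1 : E), (y.2 : E ⧸ A)) :=
        congrArg Subtype.val hxy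
      have h3 := e₀.injective h2
      rw [Prod.mk.injEq] at h3
      exact Prod.ext (Subtype.ext h3.1) (Subtype.ext h3.2)
    · intro z
      obtain ⟨⟨y, x⟩, hyx⟩ := e₀.surjective z
      have h2 := (he2 y x).1 (by rw [hyx]; exact z.2)
      exact ⟨(⟨y, h2.1⟩, ⟨x, h2.2⟩), Subtype.ext hyx⟩
  let ε₁ : (E' × E'.map A.mkQ) ≃ₗ[R] E' := LinearEquiv.ofBijective ε₁' hb
  refine ⟨KK.subtype_iff.2 (h.str5 hcc hN' hstr), Submodule.subtype_injective _, ?_, ?_,
    ⟨ε₁, e₀, fun x y => rfl⟩⟩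
  · -- the first absorption
    let f : E' →ₗ[R] E' := (ε₁ : (E' × E'.map A.mkQ) →ₗ[R] E') ∘ₗ LinearMap.inl R _ _
    have hfi : Function.Injective f := ε₁.injective.comp LinearMap.inl_injective
    have hf : K.emb f := by
      rw [KK.emb_iff hfi]
      have h2 := KK.le_comap ((h.str7 hcc hN' hstr).coh (h.str5 hcc hN' hstr) inf_le_right)
      have h3 : LinearMap.range f = (A ⊓ E').comap E'.subtype := by
        ext z
        constructor
        · rintro ⟨y, rfl⟩
          exact ⟨(he1 _).2 ⟨(y : E), rfl⟩, (f y).2⟩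
        · rintro ⟨hz, -⟩
          obtain ⟨y, hy⟩ := (he1 _).1 hz
          have hy' := ((he2 y 0).1 (by rw [hy]; exact z.2)).1
          exact ⟨⟨y, hy'⟩, Subtype.ext hy⟩
      rw [h3]
      exact h2
    exact K.emb_congr (LinearEquiv.refl R E') ε₁.symm f _ (fun x => by
      show ((x, 0) : E' × E'.map A.mkQ) = ε₁.symm (ε₁ (x, 0))
      rw [LinearEquiv.symm_apply_apply]) hf
  · let f : E →ₗ[R] E := (e₀ : (E × (E ⧸ A)) →ₗ[R] E) ∘ₗ LinearMap.inl R _ _
    have hfi : Function.Injective f := e₀.injective.comp LinearMap.inl_injective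
    have hf : K.emb f := by
      rw [KK.emb_iff hfi]
      have h3 : LinearMap.range f = A := by
        ext z
        exact (he1 z).symm
      rw [h3]
      exact h.str6 hcc hN' hstr
    exact K.emb_congr (LinearEquiv.refl R E) e₀.symm f _ (fun x => by
      show ((x, 0) : E × (E ⧸ A)) = e₀.symm (e₀ (x, 0))
      rw [LinearEquiv.symm_apply_apply]) hf

end EMOut

/-- a member that absorbs a nonzero module, and satisfies a given sentence -/
theorem em_K [Countable R] {K : KK R} {N : Type} [AddCommGroup N] [Module R N] (hN : K.mem N)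
    (hbig : ∀ α : Ordinal.{0}, α < del ℵ₀ → bethFrom ℵ₀ α ≤ #N) (ψ : Fml R 0) (hψ : Holds ψ N) :
    ∃ (E : Type) (_ : AddCommGroup E) (_ : Module R E) (X : Type) (_ : AddCommGroup X)
      (_ : Module R X), Countable E ∧ Countable X ∧ Nontrivial X ∧ Holds ψ E ∧ Ab R E X ∧
      Abs K E X := by
  classical
  obtain ⟨c₀, hc₀, hstr⟩ := KK.exists_strong hN
  obtain ⟨c₁, hc₁, hl⟩ := los3 (N := N) ψ
  obtain ⟨c₂, hc₂, hl₂⟩ := skolem (N := N) ψ
  obtain ⟨E, iE1, iE2, E', A, 𝓔, cc, n₀, h⟩ := em2 (Ω := Unit) (R := R) (N := N) (fun _ => ())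
    (fun _ F => (c₀ F ∪ c₁ F) ∪ c₂ F) (fun _ F => ((hc₀ F).union (hc₁ F)).union (hc₂ F))
    (fun _ => ⊤) (fun _ _ => 0) (fun _ => 0) (fun α hα => by
      refine (hbig α hα).trans_eq ?_
      exact (Cardinal.mk_congr (Submodule.topEquiv (R := R) (M := N)).toEquiv).symm)
  have hcc : ∀ (w : Unit) F, c₀ F ⊆ (fun (_ : Unit) F => (c₀ F ∪ c₁ F) ∪ c₂ F) w F := fun _ F =>
    Set.subset_union_left.trans Set.subset_union_left
  have hN' : ∀ w : Unit, Closed c₀ (((fun (_ : Unit) => (⊤ : Submodule R N)) w : Submodule R N) : Set N) :=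
    fun _ F _ x _ => trivial
  haveI := h.cntb
  have hp := h.pair hcc hN' hstr
  obtain ⟨x, -, hx⟩ := h.nt
  refine ⟨E, iE1, iE2, E ⧸ A, inferInstance, inferInstance, h.cntb,
    (Submodule.mkQ_surjective A).countable, ?_, ?_, h.ab, hp.abs2⟩
  · refine ⟨⟨A.mkQ x, 0, fun h0 => hx ?_⟩⟩
    rwa [Submodule.mkQ_apply, Submodule.Quotient.mk_eq_zero] at h0
  · have h1 := hl E (Finset ℚ) 𝓔 h.dir h.cov (fun D D' hDD => by
      obtain ⟨w, k, k1, -, k3, -, -⟩ := h.loc (D ∪ D')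
      have hle := h.mono D' (D ∪ D') Finset.subset_union_right
      let k' : 𝓔 D' →ₗ[R] N := k ∘ₗ Submodule.inclusion hle
      have hk' : Function.Injective k' := k1.comp (Submodule.inclusion_injective hle)
      have e1 : ∀ S : Submodule R E, S ≤ 𝓔 D' → (S.comap (𝓔 D').subtype).map k' =
          (S.comap (𝓔 (D ∪ D')).subtype).map k := by
        intro S hS
        ext y
        constructor
        · rintro ⟨x, hx, rfl⟩
          exact ⟨Submodule.inclusion hle x, hx, rfl⟩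
        · rintro ⟨x, hx, rfl⟩
          exact ⟨⟨x.1, hS hx⟩, hx, rfl⟩
      refine ⟨k', hk', ?_, ?_⟩
      · rw [e1 _ hDD]
        exact fun F hF => (Set.subset_union_right.trans Set.subset_union_left).trans
          (k3 D Finset.subset_union_left F hF)
      · rw [e1 _ le_rfl]
        exact fun F hF => (Set.subset_union_right.trans Set.subset_union_left).trans
          (k3 D' Finset.subset_union_right F hF)) ∅ Fin.elim0
    have h0 : (fun i : Fin 0 => ((Fin.elim0 i : 𝓔 ∅) : E)) = (Fin.elim0 : Fin 0 → E) :=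
      funext fun i => i.elim0
    rw [h0] at h1
    show Sat E ψ Fin.elim0
    rw [h1]
    obtain ⟨w, k, k1, -, k3, -, -⟩ := h.loc ∅
    rw [sat_iso (locEquiv le_rfl k k1) ψ, hl₂ _ (fun F hF =>
      Set.subset_union_right.trans (k3 ∅ subset_rfl F hF))]
    have h2 : (fun i : Fin 0 => ((locEquiv (le_refl (𝓔 ∅)) k k1 (Fin.elim0 i : 𝓔 ∅) :
      (((𝓔 ∅).comap (𝓔 ∅).subtype).map k : Submodule R N)) : N)) = (Fin.elim0 : Fin 0 → N) :=
      funext fun i => i.elim0
    rw [h2]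
    exact hψ

end

end Pool.Agent.Y583.MC
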