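import Pool.Agent.Y583.MF5

set_option autoImplicit false

/-!
Tame and wild tuples; wild tuples over large submodules give a nonsplit pair.
-/

namespace Pool.Agent.Y583.MC

open Cardinal Pool.Agent.W879.AE
open Pool.Agent.H288R4.LS (bethFrom)

variable {R : Type} [Ring R]

theorem isoFix_union {E : Type} [AddCommGroup E] [Module R E] {ι : Type}
    (𝓢 : ι → Submodule R E) (hdir : Directed (· ≤ ·) 𝓢)
    (hc : Countable (⨆ i, 𝓢 i : Submodule R E))
    (hiso : ∀ i j, 𝓢 i ≤ 𝓢 j → IsoFix (𝓢 i) (𝓢 j)) (i : ι) : IsoFix (𝓢 i) (⨆ i, 𝓢 i) := by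
  classical
  haveI : Nonempty ι := ⟨i⟩
  intro F hF
  let U : Submodule R E := ⨆ i, 𝓢 i
  haveI : Countable U := hc
  haveI : Countable (𝓢 i) := (Submodule.inclusion_injective (le_iSup 𝓢 i)).countable
  let P : ∀ n, (Fin n → 𝓢 i) → (Fin n → U) → Prop := fun n v w =>
    ∃ (j : ι) (e : 𝓢 j ≃ₗ[R] 𝓢 i) (w' : Fin n → 𝓢 j), (∀ m, (w' m : E) = w m) ∧
      ∀ m, e (w' m) = v m
  let en := F.equivFin
  let v : Fin F.card → 𝓢 i := fun m => ⟨(en.symm m : E), hF _ (en.symm m).2⟩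
  let w : Fin F.card → U := fun m => ⟨v m, (le_iSup 𝓢 i) (v m).2⟩
  have b1 : ∀ n v w, P n v w → ∀ r : Fin n → R, (∑ i, r i • v i = 0 ↔ ∑ i, r i • w i = 0) := by
    rintro n v w ⟨j, e, w', h1, h2⟩ r
    have h3 : ∑ m, r m • v m = e (∑ m, r m • w' m) := by
      rw [map_sum]
      exact Finset.sum_congr rfl fun m _ => by rw [map_smul, h2]
    have h4 : ((∑ m, r m • w m : U) : E) = ((∑ m, r m • w' m : 𝓢 j) : E) := by
      rw [AddSubmonoidClass.coe_finsetSum, AddSubmonoidClass.coe_finsetSum]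
      exact Finset.sum_congr rfl fun m _ => by
        rw [Submodule.coe_smul, Submodule.coe_smul, h1]
    rw [h3, LinearEquiv.map_eq_zero_iff]
    constructor
    · intro h
      apply Subtype.ext
      rw [h4, h]; rfl
    · intro h
      apply Subtype.ext
      rw [← h4, h]; rfl
  have b2 : ∀ n v w, P n v w → ∀ a, ∃ b, P (n + 1) (Fin.cons a v) (Fin.cons b w) := by
    rintro n v w ⟨j, e, w', h1, h2⟩ a
    refine ⟨⟨e.symm a, (le_iSup 𝓢 j) (e.symm a).2⟩, j, e, Fin.cons (e.symm a) w',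
      fun m => ?_, fun m => ?_⟩
    · refine Fin.cases ?_ (fun m => ?_) m
      · rfl
      · exact h1 m
    · refine Fin.cases ?_ (fun m => ?_) m
      · show e (e.symm a) = a
        rw [LinearEquiv.apply_symm_apply]
      · exact h2 m
  have b3 : ∀ n v w, P n v w → ∀ b, ∃ a, P (n + 1) (Fin.cons a v) (Fin.cons b w) := by
    rintro n v w ⟨j, e, w', h1, h2⟩ ⟨b, hb⟩
    obtain ⟨j₂, hj₂⟩ := (Submodule.mem_iSup_of_directed 𝓢 hdir).1 hb
    obtain ⟨j₃, h3, h4⟩ := hdir j j₂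
    obtain ⟨f, hf⟩ := hiso j j₃ h3 (Finset.univ.image fun m => (w' m : E)) (by
      intro x hx
      obtain ⟨m, -, rfl⟩ := Finset.mem_image.1 hx
      exact (w' m).2)
    refine ⟨e (f ⟨b, h4 hj₂⟩), j₃, f.trans e,
      Fin.cons ⟨b, h4 hj₂⟩ (fun m => Submodule.inclusion h3 (w' m)), fun m => ?_, fun m => ?_⟩
    · refine Fin.cases ?_ (fun m => ?_) m
      · rfl
      · exact h1 m
    · refine Fin.cases ?_ (fun m => ?_) m
      · rfl
      · show e (f (Submodule.inclusion h3 (w' m))) = v m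
        have h5 : f (Submodule.inclusion h3 (w' m)) = w' m := Subtype.ext
          (hf _ (Finset.mem_image_of_mem (fun m => (w' m : E)) (Finset.mem_univ m)))
        rw [h5, h2]
  obtain ⟨e, he⟩ := back_forth (R := R) P b1 b2 b3 F.card v w
    ⟨i, LinearEquiv.refl R _, v, fun m => rfl, fun m => rfl⟩
  refine ⟨e.symm, fun x hx => ?_⟩
  let m := en ⟨x, hx⟩
  have hm : ((en.symm m : {x // x ∈ F}) : E) = x := by
    show ((en.symm (en ⟨x, hx⟩) : {x // x ∈ F}) : E) = x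
    rw [Equiv.symm_apply_apply]
  have hw : w m = x := Subtype.ext hm
  rw [← hw, ← he m, LinearEquiv.symm_apply_apply]
  show ((v m : 𝓢 i) : E) = ((e (v m) : U) : E)
  rw [he m]

theorem isoFix_local {E N : Type} [AddCommGroup E] [Module R E] [AddCommGroup N] [Module R N]
    {S T T₀ : Submodule R E} (hST : S ≤ T) (hT : T ≤ T₀) (k : T₀ →ₗ[R] N)
    (hk : Function.Injective k)
    (h : IsoFix ((S.comap T₀.subtype).map k) ((T.comap T₀.subtype).map k)) : IsoFix S T := by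
  classical
  intro F hF
  have hF' : ∀ x : {x // x ∈ F}, (x : E) ∈ T₀ := fun x => hT (hST (hF x.1 x.2))
  obtain ⟨e', he'⟩ := h (F.attach.image fun x : {x // x ∈ F} => k ⟨x.1, hF' x⟩) (by
    intro y hy
    obtain ⟨x, -, rfl⟩ := Finset.mem_image.1 hy
    exact ⟨⟨x.1, hF' x⟩, hF x.1 x.2, rfl⟩)
  refine ⟨(locEquiv hT k hk).trans (e'.trans (locEquiv (hST.trans hT) k hk).symm),
    fun x hx => ?_⟩
  have h1 : (locEquiv hT k hk x : N) ∈ (F.attach.image fun x : {x // x ∈ F} => k ⟨x.1, hF' x⟩) :=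
    Finset.mem_image.2 ⟨⟨x, hx⟩, Finset.mem_attach _ _, rfl⟩
  have h2 := he' _ h1
  obtain ⟨z, hz⟩ := (locEquiv (hST.trans hT) k hk).surjective (e' (locEquiv hT k hk x))
  show (((locEquiv (hST.trans hT) k hk).symm (e' (locEquiv hT k hk x)) : S) : E) = x
  rw [← hz, LinearEquiv.symm_apply_apply]
  rw [← hz, locEquiv_apply, locEquiv_apply] at h2
  exact congrArg Subtype.val (hk h2)

section
variable {N : Type} [AddCommGroup N] [Module R N]

/-- The finite set `P` of pairs is a part of a retraction to `N'`, locally. -/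
def GoodP (c : Finset N → Set N) (N' : Submodule R N) (P : List (N × N)) : Prop :=
  ∀ G : Finset N, (∀ x ∈ G, x ∈ N') → ∃ T : Submodule R N, Cb c T ∧ (∀ p ∈ P, p.1 ∈ T) ∧
    (∀ x ∈ G, x ∈ T) ∧ ∃ k : T →ₗ[R] N, (∀ x, k x ∈ N') ∧
      (∀ x : T, ∀ p ∈ P, p.1 = (x : N) → k x = p.2) ∧ ∀ x : T, (x : N) ∈ G → k x = x

/-- there are no wild tuples over `N'` -/
def Tame (c : Finset N → Set N) (N' : Submodule R N) : Prop :=
  ∀ (n : ℕ) (a : Fin n → N), ∃ b : Fin n → N, GoodP c N' (List.ofFn fun i => (a i, b i))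

end

/-- a nonsplit pair that is stable under adding direct powers -/
structure PairOut (K : KK R) {E₁ X₁ E₂ X₂ : Type} [AddCommGroup E₁] [Module R E₁]
    [AddCommGroup X₁] [Module R X₁] [AddCommGroup E₂] [Module R E₂] [AddCommGroup X₂]
    [Module R X₂] (i : E₁ →ₗ[R] E₂) (j : X₁ →ₗ[R] X₂) : Prop where
  pair : PairD K i j
  c1 : Countable E₁
  c2 : Countable E₂
  c3 : Countable X₁
  c4 : Countable X₂
  nt : Nontrivial X₁
  fix : ∀ F : Finset E₁, ∃ e : E₂ ≃ₗ[R] E₁, ∀ x ∈ F, e (i x) = x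
  ns : ¬ ∃ r : E₂ →ₗ[R] E₁, ∀ x, r (i x) = x

theorem wild_pair [Countable R] {K : KK R} {N : Type} [AddCommGroup N] [Module R N]
    (c₀ : Finset N → Set N)
    (hc₀ : ∀ F, (c₀ F).Countable) (hstr : ∀ S : Submodule R N, Closed c₀ (S : Set N) → K.le S ⊤)
    (hiso : ∀ S T : Submodule R N, Cb c₀ S → Cb c₀ T → S ≤ T → IsoFix S T)
    (hwild : ∀ α : Ordinal.{0}, α < del ℵ₀ → ∃ N' : Submodule R N, Closed c₀ (N' : Set N) ∧
      ¬ Tame c₀ N' ∧ bethFrom ℵ₀ α ≤ #N') :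
    ∃ (E₁ X₁ E₂ X₂ : Type) (_ : AddCommGroup E₁) (_ : Module R E₁)
      (_ : AddCommGroup X₁) (_ : Module R X₁) (_ : AddCommGroup E₂) (_ : Module R E₂)
      (_ : AddCommGroup X₂) (_ : Module R X₂) (i : E₁ →ₗ[R] E₂) (j : X₁ →ₗ[R] X₂),
      PairOut K i j := by
  classical
  let Ω : Type := {N' : Submodule R N // Closed c₀ (N' : Set N) ∧ ¬ Tame c₀ N'}
  obtain ⟨M0, m1, m2, -⟩ := hwild 0 (del_lim le_rfl).bot_lt
  have hω : ∀ α : Ordinal.{0}, ∃ w : Ω, α < del ℵ₀ → bethFrom ℵ₀ α ≤ #w.1 := by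
    intro α
    by_cases hα : α < del ℵ₀
    · obtain ⟨N', h1, h2, h3⟩ := hwild α hα
      exact ⟨⟨N', h1, h2⟩, fun _ => h3⟩
    · exact ⟨⟨M0, m1, m2⟩, fun h => absurd h hα⟩
  choose ω hω using hω
  have hdata : ∀ w : Ω, ∃ (n : ℕ) (a : Fin n → N), ∀ b : Fin n → N,
      ¬ GoodP c₀ w.1 (List.ofFn fun i => (a i, b i)) := by
    intro w
    have := w.2.2
    unfold Tame at this
    push Not at this
    exact this
  choose nn aa hno using hdata
  have hG : ∀ (w : Ω) (b : Fin (nn w) → N), ∃ G : Finset N, (∀ x ∈ G, x ∈ w.1) ∧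
      ¬ ∃ T : Submodule R N, Cb c₀ T ∧ (∀ p ∈ List.ofFn fun i => (aa w i, b i), p.1 ∈ T) ∧
        (∀ x ∈ G, x ∈ T) ∧ ∃ k : T →ₗ[R] N, (∀ x, k x ∈ w.1) ∧
        (∀ x : T, ∀ p ∈ List.ofFn fun i => (aa w i, b i), p.1 = (x : N) → k x = p.2) ∧
        ∀ x : T, (x : N) ∈ G → k x = x := by
    intro w b
    have := hno w b
    unfold GoodP at this
    push Not at this
    obtain ⟨G, h1, h2⟩ := this
    refine ⟨G, h1, ?_⟩
    rintro ⟨T, h3, h4, h5, k, h6, h7, h8⟩
    obtain ⟨x, h9, h10⟩ := h2 T h3 h4 h5 k h6 h7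
    exact h10 (h8 x h9)
  choose GG hGG hGG2 using hG
  let c : Ω → Finset N → Set N := fun w F => c₀ F ∪ ⋃ b ∈ {b : Fin (nn w) → N | ∀ i, b i ∈ F},
    (↑(GG w b) : Set N)
  have hc : ∀ w F, (c w F).Countable := by
    intro w F
    refine (hc₀ F).union (Set.Countable.biUnion ?_ fun b _ => (GG w b).countable_toSet)
    have : {b : Fin (nn w) → N | ∀ i, b i ∈ F} = Set.pi Set.univ fun _ => (↑F : Set N) := by
      ext v; simp
    rw [this]
    exact (Set.Finite.pi fun _ => F.finite_toSet).countable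
  let cst : Ω → ℕ → N := fun w i => if h : i < nn w then aa w ⟨i, h⟩ else 0
  obtain ⟨E, iE1, iE2, E', A, 𝓔, cc, n₀, h⟩ := em2 (R := R) ω c hc (fun w => w.1) cst nn hω
  have hcc : ∀ w F, c₀ F ⊆ c w F := fun _ F => Set.subset_union_left
  have hN' : ∀ w : Ω, Closed c₀ ((w.1 : Submodule R N) : Set N) := fun w => w.2.1
  have hp := h.pair (K := K) hcc hN' hstr
  haveI := h.cntb
  haveI : Countable E' := Subtype.countable
  haveI : Countable (E ⧸ A) := (Submodule.mkQ_surjective A).countable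
  -- elementarity
  have hCb : ∀ {D : Finset ℚ} (k : 𝓔 D →ₗ[R] N) (S : Submodule R E),
      Closed c₀ (((S.comap (𝓔 D).subtype).map k : Submodule R N) : Set N) →
      Cb c₀ ((S.comap (𝓔 D).subtype).map k) := by
    intro D k S hS
    refine ⟨?_, hS⟩
    rw [Submodule.map_coe]
    exact (Set.to_countable _).image _
  have i1 : ∀ D D', D ⊆ D' → IsoFix (𝓔 D) (𝓔 D') := by
    intro D D' hD
    obtain ⟨k, k1, k2, -, k3, -⟩ := h.loc' hcc hN' D D' hD
    exact isoFix_local (h.mono _ _ hD) le_rfl k k1 (hiso _ _ (hCb k _ k2) (hCb k _ k3)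
      (Submodule.map_mono fun x hx => x.2))
  have i2 : ∀ D D', D ⊆ D' → IsoFix (𝓔 D ⊓ E') (𝓔 D' ⊓ E') := by
    intro D D' hD
    obtain ⟨k, k1, -, k2, -, k3⟩ := h.loc' hcc hN' D D' hD
    exact isoFix_local (inf_le_inf_right _ (h.mono _ _ hD)) inf_le_left k k1
      (hiso _ _ (hCb k _ k2) (hCb k _ k3)
      (Submodule.map_mono (Submodule.comap_mono (inf_le_inf_right _ (h.mono _ _ hD)))))
  have i3 : ∀ D, IsoFix (𝓔 D ⊓ E') (𝓔 D) := by
    intro D
    obtain ⟨k, k1, -, k2, k3, -⟩ := h.loc' hcc hN' D D subset_rfl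
    exact isoFix_local inf_le_left le_rfl k k1 (hiso _ _ (hCb k _ k2) (hCb k _ k3)
      (Submodule.map_mono (Submodule.comap_mono inf_le_left)))
  have i4 : ∀ D, IsoFix (𝓔 D) ⊤ := by
    intro D
    have := isoFix_union 𝓔 h.dir (by rw [h.sup]; infer_instance) (fun D D' hDD => by
      intro F hF
      obtain ⟨e₁, he₁⟩ := i1 D (D ∪ D') Finset.subset_union_left F hF
      obtain ⟨e₂, he₂⟩ := i1 D' (D ∪ D') Finset.subset_union_right F fun x hx => hDD (hF x hx)
      refine ⟨e₂.symm.trans e₁, fun x hx => ?_⟩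
      have h1 : e₂.symm x = Submodule.inclusion (h.mono _ _ Finset.subset_union_right) x := by
        rw [LinearEquiv.symm_apply_eq]
        exact Subtype.ext (he₂ (Submodule.inclusion
          (h.mono _ _ Finset.subset_union_right) x) hx).symm
      show ((e₁ (e₂.symm x) : 𝓔 D) : E) = x
      rw [h1]
      exact he₁ _ hx) D
    rwa [h.sup] at this
  have i5 : ∀ D, IsoFix (𝓔 D ⊓ E') E' := by
    intro D
    have := isoFix_union (fun D => 𝓔 D ⊓ E') h.dir' (by rw [h.sup']; infer_instance)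
      (fun D D' hDD => by
      intro F hF
      obtain ⟨e₁, he₁⟩ := i2 D (D ∪ D') Finset.subset_union_left F hF
      obtain ⟨e₂, he₂⟩ := i2 D' (D ∪ D') Finset.subset_union_right F fun x hx => hDD (hF x hx)
      refine ⟨e₂.symm.trans e₁, fun x hx => ?_⟩
      have h1 : e₂.symm x = Submodule.inclusion
          (inf_le_inf_right _ (h.mono _ _ Finset.subset_union_right)) x := by
        rw [LinearEquiv.symm_apply_eq]
        exact Subtype.ext (he₂ (Submodule.inclusion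
          (inf_le_inf_right _ (h.mono _ _ Finset.subset_union_right)) x) hx).symm
      show ((e₁ (e₂.symm x) : (𝓔 D ⊓ E' : Submodule R E)) : E) = x
      rw [h1]
      exact he₁ _ hx) D
    rwa [h.sup'] at this
  refine ⟨E', E'.map A.mkQ, E, E ⧸ A, inferInstance, inferInstance, inferInstance,
    inferInstance, iE1, iE2, inferInstance, inferInstance, E'.subtype, (E'.map A.mkQ).subtype,
    hp, inferInstance, inferInstance, Subtype.countable, inferInstance, ?_, ?_, ?_⟩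
  · obtain ⟨x, hx, hxA⟩ := h.nt
    refine ⟨⟨⟨A.mkQ x, x, hx, rfl⟩, 0, fun h0 => hxA ?_⟩⟩
    have h1 : A.mkQ x = 0 := congrArg Subtype.val h0
    rwa [Submodule.mkQ_apply, Submodule.Quotient.mk_eq_zero] at h1
  · intro F
    obtain ⟨D, hD⟩ := finset_directed h.dir (F.image Subtype.val) (fun x _ => by
      rw [h.sup]; trivial)
    have hF : ∀ x ∈ F.image Subtype.val, x ∈ 𝓔 D ⊓ E' := by
      intro x hx
      refine ⟨hD x hx, ?_⟩
      obtain ⟨y, -, rfl⟩ := Finset.mem_image.1 hx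
      exact y.2
    obtain ⟨e₁, he₁⟩ := i4 D _ fun x hx => (hF x hx).1
    obtain ⟨e₂, he₂⟩ := i3 D _ hF
    obtain ⟨e₃, he₃⟩ := i5 D _ hF
    refine ⟨Submodule.topEquiv.symm.trans (e₁.trans (e₂.trans e₃.symm)), fun x hx => ?_⟩
    have hx' : (x : E) ∈ F.image Subtype.val := Finset.mem_image_of_mem _ hx
    show e₃.symm (e₂ (e₁ ⟨(x : E), trivial⟩)) = x
    rw [LinearEquiv.symm_apply_eq]
    apply Subtype.ext
    have h1 : ((e₁ ⟨(x : E), trivial⟩ : 𝓔 D) : E) = x := he₁ ⟨(x : E), trivial⟩ hx'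
    rw [he₂ _ (by rw [h1]; exact hx'), h1, he₃ x hx']
  · rintro ⟨r, hr⟩
    obtain ⟨D, hD⟩ := finset_directed h.dir ((Finset.range n₀).image fun i => (r (cc i) : E))
      (fun x _ => by rw [h.sup]; trivial)
    obtain ⟨w, k, k1, hn, k3, k4, k5⟩ := h.loc D
    have hrD : ∀ i : Fin (nn w), (r (cc i) : E) ∈ 𝓔 D := fun i =>
      hD _ (Finset.mem_image.2 ⟨i, Finset.mem_range.2 (hn ▸ i.2), rfl⟩)
    let b : Fin (nn w) → N := fun i => k ⟨(r (cc i) : E), hrD i⟩
    let T : Submodule R N := ((𝓔 D).comap (𝓔 D).subtype).map k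
    have hTk : ∀ z : 𝓔 D, k z ∈ T := fun z => ⟨z, z.2, rfl⟩
    have hTc : Closed (c w) (T : Set N) := k3 D subset_rfl
    have hGT : ∀ x ∈ GG w b, x ∈ T := by
      intro x hx
      refine hTc (Finset.univ.image b) ?_ (Or.inr (Set.mem_biUnion (x := b) (fun i =>
        Finset.mem_image_of_mem b (Finset.mem_univ i)) hx))
      intro y hy
      simp only [Finset.coe_image, Finset.coe_univ, Set.image_univ, Set.mem_range] at hy
      obtain ⟨i, rfl⟩ := hy
      exact hTk _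
    have haT : ∀ i : Fin (nn w), aa w i = k ⟨cc i, h.cstm i D⟩ := by
      intro i
      rw [k5 i ⟨cc i, h.cstm i D⟩ rfl]
      show aa w i = if h : (i : ℕ) < nn w then aa w ⟨i, h⟩ else 0
      rw [dif_pos i.2]
    let ℓ : T ≃ₗ[R] 𝓔 D := (locEquiv le_rfl k k1).symm
    have hℓ : ∀ y : T, k (ℓ y) = y := by
      intro y
      obtain ⟨z, rfl⟩ := (locEquiv (le_refl (𝓔 D)) k k1).surjective y
      show k ((locEquiv (le_refl (𝓔 D)) k k1).symm ((locEquiv (le_refl (𝓔 D)) k k1) z)) = _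
      rw [LinearEquiv.symm_apply_apply]
      rfl
    let FF : Finset E := ((GG w b).attach.image fun x => (ℓ ⟨x.1, hGT x.1 x.2⟩ : E)) ∪
      Finset.univ.image fun i : Fin (nn w) => (r (cc i) : E)
    obtain ⟨p, hp⟩ := i5 D FF (by
      intro x hx
      rcases Finset.mem_union.1 hx with hx | hx
      · obtain ⟨y, -, rfl⟩ := Finset.mem_image.1 hx
        refine ⟨(ℓ _).2, (k4 _).2 ?_⟩
        rw [hℓ]
        exact hGG w b _ y.2
      · obtain ⟨i, -, rfl⟩ := Finset.mem_image.1 hx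
        exact ⟨hrD i, (r (cc i)).2⟩)
    let f : T →ₗ[R] N := k ∘ₗ Submodule.inclusion inf_le_left ∘ₗ (p : E' →ₗ[R] (𝓔 D ⊓ E' : Submodule R E)) ∘ₗ
      r ∘ₗ (𝓔 D).subtype ∘ₗ (ℓ : T →ₗ[R] 𝓔 D)
    have hf : ∀ y : T, f y = k (Submodule.inclusion inf_le_left (p (r (ℓ y)))) := fun y => rfl
    refine hGG2 w b ⟨T, ⟨?_, fun F hF => (hcc w F).trans (hTc F hF)⟩, ?_, hGT, f, fun y => ?_,
      fun y q hq hqy => ?_, fun y hy => ?_⟩
    · show ((((𝓔 D).comap (𝓔 D).subtype).map k : Submodule R N) : Set N).Countable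
      rw [Submodule.map_coe]
      exact (Set.to_countable _).image _
    · intro q hq
      obtain ⟨i, rfl⟩ := (List.mem_ofFn' _ _).1 hq
      show aa w i ∈ T
      rw [haT i]
      exact hTk _
    · rw [hf, ← k4]
      exact (p (r (ℓ y))).2.2
    · obtain ⟨i, rfl⟩ := (List.mem_ofFn' _ _).1 hq
      have h1 : ℓ y = ⟨cc i, h.cstm i D⟩ := by
        apply k1
        rw [hℓ, ← hqy]
        exact haT i
      rw [hf, h1]
      show k _ = b i
      show k _ = k ⟨(r (cc i) : E), hrD i⟩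
      congr 1
      apply Subtype.ext
      exact hp (r (cc i)) (Finset.mem_union_right _
        (Finset.mem_image_of_mem _ (Finset.mem_univ i)))
    · have h1 : (ℓ y : E) ∈ E' := by
        rw [k4, hℓ]
        exact hGG w b _ hy
      have h2 : r (ℓ y : E) = ⟨(ℓ y : E), h1⟩ := hr ⟨(ℓ y : E), h1⟩
      have h3 : ((p ⟨(ℓ y : E), h1⟩ : (𝓔 D ⊓ E' : Submodule R E)) : E) = (ℓ y : E) :=
        hp ⟨(ℓ y : E), h1⟩ (Finset.mem_union_left _ (Finset.mem_image.2
          ⟨⟨y, hy⟩, Finset.mem_attach _ _, rfl⟩))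
      rw [hf, h2]
      have h4 : Submodule.inclusion inf_le_left (p ⟨(ℓ y : E), h1⟩) = ℓ y := Subtype.ext h3
      rw [h4, hℓ]

end Pool.Agent.Y583.MC
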