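import Pool.Agent.Y583.MF6

set_option autoImplicit false

/-!
Powers of pairs of submodules; unions of chains of pairs; embeddings into injective modules.
-/

namespace Pool.Agent.Y583.MC

open Cardinal CategoryTheory

variable {R : Type} [Ring R]

theorem exists_inj (V : Type) [AddCommGroup V] [Module R V] :
    ∃ (Q : Type) (_ : AddCommGroup Q) (_ : Module R Q) (v : V →ₗ[R] Q), Function.Injective v ∧
      ∀ (A B : Type) [AddCommGroup A] [Module R A] [AddCommGroup B] [Module R B]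
        (f : A →ₗ[R] B), Function.Injective f → ∀ g : A →ₗ[R] Q, ∃ h : B →ₗ[R] Q,
          ∀ x, h (f x) = g x := by
  have hI : Injective (Injective.under (ModuleCat.of.{0} R V)) := inferInstance
  have hM : Mono (Injective.ι (ModuleCat.of.{0} R V)) := inferInstance
  generalize hQ : Injective.under (ModuleCat.of.{0} R V) = Q at hI
  have : ∃ ι : ModuleCat.of.{0} R V ⟶ Q, Mono ι := by
    subst hQ
    exact ⟨_, hM⟩
  obtain ⟨ι, hι⟩ := this
  refine ⟨Q, inferInstance, inferInstance, ι.hom, ?_, ?_⟩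
  · exact (ModuleCat.mono_iff_injective ι).1 hι
  · intro A B _ _ _ _ f hf g
    have hm : Mono (ModuleCat.ofHom f) := (ModuleCat.mono_iff_injective _).2 hf
    let g' : ModuleCat.of.{0} R A ⟶ Q := ModuleCat.ofHom g
    obtain ⟨h, hh⟩ := hI.factors g' (ModuleCat.ofHom f)
    refine ⟨h.hom, fun x => ?_⟩
    exact congrArg (fun t => t.hom x) hh

/-- one step of the construction in a product of injective modules -/
theorem extend_step {Q : Type} [AddCommGroup Q] [Module R Q]
    (hQ : ∀ (A B : Type) [AddCommGroup A] [Module R A] [AddCommGroup B] [Module R B]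
        (f : A →ₗ[R] B), Function.Injective f → ∀ g : A →ₗ[R] Q, ∃ h : B →ₗ[R] Q,
          ∀ x, h (f x) = g x)
    {T : Type} [AddCommGroup T] [Module R T]
    (hT : ∀ L : Submodule R T, ∃ v : (T ⧸ L) →ₗ[R] Q, Function.Injective v) (α : WW)
    (S : Submodule R (Option WW → Q)) (hS : ∀ f ∈ S, ∀ β, α ≤ β → f (some β) = 0)
    (j : S →ₗ[R] T) (hj : Function.Injective j) :
    ∃ h : T →ₗ[R] (Option WW → Q), Function.Injective h ∧ (∀ s : S, h (j s) = s) ∧
      ∀ t β, α < β → h t (some β) = 0 := by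
  classical
  have hext : ∀ o : Option WW, ∃ e : T →ₗ[R] Q, ∀ s : S, e (j s) = (s : Option WW → Q) o :=
    fun o => hQ S T j hj ((LinearMap.proj o) ∘ₗ S.subtype)
  choose ext hext using hext
  obtain ⟨v, hv⟩ := hT (LinearMap.range j)
  let hc : Option WW → (T →ₗ[R] Q) := fun o => match o with
    | none => ext none
    | some β => if β < α then ext (some β) else if β = α then v ∘ₗ (LinearMap.range j).mkQ else 0
  refine ⟨LinearMap.pi hc, ?_, ?_, ?_⟩
  · have hfix : ∀ s : S, LinearMap.pi hc (j s) = s := by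
      intro s
      funext o
      rcases o with _ | β
      · exact hext none s
      · show (if β < α then ext (some β) else if β = α then v ∘ₗ (LinearMap.range j).mkQ else 0)
          (j s) = _
        split_ifs with h1 h2
        · exact hext _ s
        · show v ((LinearMap.range j).mkQ (j s)) = _
          have h3 : (LinearMap.range j).mkQ (j s) = 0 := by
            rw [Submodule.mkQ_apply, Submodule.Quotient.mk_eq_zero]
            exact ⟨s, rfl⟩
          rw [h3, map_zero, hS s.1 s.2 β h2.ge]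
        · exact (hS s.1 s.2 β (not_lt.1 h1)).symm
    rw [injective_iff_map_eq_zero]
    intro t ht
    have h1 := congrFun ht (some α)
    have h2 : v ((LinearMap.range j).mkQ t) = 0 := by
      have h3 : (if α < α then ext (some α) else if α = α then v ∘ₗ (LinearMap.range j).mkQ else 0)
        t = 0 := h1
      rw [if_neg (lt_irrefl α), if_pos rfl] at h3
      exact h3
    have h3 : (LinearMap.range j).mkQ t = 0 := hv (by rw [h2, map_zero])
    rw [Submodule.mkQ_apply, Submodule.Quotient.mk_eq_zero] at h3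
    obtain ⟨s, rfl⟩ := h3
    rw [hfix] at ht
    have : s = 0 := Subtype.ext ht
    rw [this, map_zero]
  · intro s
    funext o
    rcases o with _ | β
    · exact hext none s
    · show (if β < α then ext (some β) else if β = α then v ∘ₗ (LinearMap.range j).mkQ else 0)
        (j s) = _
      split_ifs with h1 h2
      · exact hext _ s
      · show v ((LinearMap.range j).mkQ (j s)) = _
        have h3 : (LinearMap.range j).mkQ (j s) = 0 := by
          rw [Submodule.mkQ_apply, Submodule.Quotient.mk_eq_zero]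
          exact ⟨s, rfl⟩
        rw [h3, map_zero, hS s.1 s.2 β h2.ge]
      · exact (hS s.1 s.2 β (not_lt.1 h1)).symm
  · intro t β hβ
    show (if β < α then ext (some β) else if β = α then v ∘ₗ (LinearMap.range j).mkQ else 0)
      t = 0
    rw [if_neg (not_lt.2 hβ.le), if_neg hβ.ne']
    rfl

section powers

variable {K : KK R} {S Y S' Y' : Type} [AddCommGroup S] [Module R S] [AddCommGroup Y] [Module R Y]
  [AddCommGroup S'] [Module R S'] [AddCommGroup Y'] [Module R Y']

/-- the direct powers of `Y` over `S` are in the class and strong in each other -/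
def PSt (K : KK R) (S Y : Type) [AddCommGroup S] [Module R S] [AddCommGroup Y] [Module R Y] :
    Prop := ∀ (I : Type) (J : Set I), K.le (Pw R S Y J) ⊤

theorem Abs.pst (h : Abs K S Y) : PSt K S Y := fun _ J => pow_single h J

theorem PSt.mem (h : PSt K S Y) (I : Type) : K.mem (S × (I →₀ Y)) :=
  KK.top_iff.2 (h I ∅).mem_right

theorem phi_map {I : Type} (u : S →ₗ[R] S') (v : Y →ₗ[R] Y') (hu : Function.Surjective u)
    (hv : Function.Bijective v) (J : Set I) :
    (Pw R S Y J).map (phi I u v) = Pw R S' Y' J := by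
  apply le_antisymm
  · rintro _ ⟨x, hx, rfl⟩
    exact phi_mem hx
  · intro y hy
    obtain ⟨s, hs⟩ := hu y.1
    let e := LinearEquiv.ofBijective v hv
    have he : ∀ z, v (e.symm z) = z := fun z => e.apply_symm_apply z
    refine ⟨(s, Finsupp.mapRange.linearMap (e.symm : Y' →ₗ[R] Y) y.2), mem_Pw.2 fun i hi => ?_, ?_⟩
    · show (Finsupp.mapRange.linearMap (e.symm : Y' →ₗ[R] Y) y.2) i = 0
      rw [Finsupp.mapRange.linearMap_apply, Finsupp.mapRange_apply, mem_Pw.1 hy i hi, map_zero]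
    · refine Prod.ext hs ?_
      ext i
      show (Finsupp.mapRange.linearMap v (Finsupp.mapRange.linearMap (e.symm : Y' →ₗ[R] Y) y.2)) i
        = y.2 i
      rw [Finsupp.mapRange.linearMap_apply, Finsupp.mapRange_apply,
        Finsupp.mapRange.linearMap_apply, Finsupp.mapRange_apply]
      exact he _

theorem PSt.congr (h : PSt K S Y) (u : S ≃ₗ[R] S') (v : Y ≃ₗ[R] Y') : PSt K S' Y' := by
  intro I J
  have h1 := KK.le_map (phi I (u : S →ₗ[R] S') (v : Y →ₗ[R] Y'))
    (phi_inj _ _ u.injective v.injective) (h I J)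
  rw [phi_map _ _ u.surjective v.bijective] at h1
  rw [← Pw_univ, phi_map _ _ u.surjective v.bijective, Pw_univ] at h1
  exact h1

/-- currying -/
noncomputable def cur (I : Type) (S X : Type) [AddCommGroup S] [Module R S] [AddCommGroup X]
    [Module R X] : (S × (I × ℕ →₀ X)) ≃ₗ[R] (S × (I →₀ (ℕ →₀ X))) :=
  LinearEquiv.prodCongr (LinearEquiv.refl R S) (Finsupp.finsuppProdLEquiv R)

theorem cur_apply {I X : Type} [AddCommGroup X] [Module R X] (x : S × (I × ℕ →₀ X)) (i : I)
    (n : ℕ) : (cur (R := R) I S X x).2 i n = x.2 (i, n) := rfl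

theorem PSt.curry (h : PSt K S Y) : PSt K S (ℕ →₀ Y) := by
  intro I J
  have h1 := KK.le_map (cur (R := R) I S Y : (S × (I × ℕ →₀ Y)) →ₗ[R] (S × (I →₀ (ℕ →₀ Y))))
    (cur (R := R) I S Y).injective (h (I × ℕ) {p | p.1 ∈ J})
  have h2 : (Pw R S Y {p : I × ℕ | p.1 ∈ J}).map
      (cur (R := R) I S Y : (S × (I × ℕ →₀ Y)) →ₗ[R] (S × (I →₀ (ℕ →₀ Y)))) =
      Pw R S (ℕ →₀ Y) J := by
    apply le_antisymm
    · rintro _ ⟨x, hx, rfl⟩
      refine mem_Pw.2 fun i hi => ?_
      ext n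
      show (cur (R := R) I S Y x).2 i n = 0
      rw [cur_apply]
      exact mem_Pw.1 hx (i, n) hi
    · intro y hy
      obtain ⟨x, rfl⟩ := (cur (R := R) I S Y).surjective y
      refine ⟨x, mem_Pw.2 fun p hp => ?_, rfl⟩
      have := mem_Pw.1 hy p.1 hp
      have h3 := cur_apply (R := R) x p.1 p.2
      rw [this] at h3
      exact h3.symm
  rw [h2, Submodule.map_top, LinearEquiv.range] at h1
  exact h1

theorem phi_cur {I : Type} (u : S →ₗ[R] S') (v : Y →ₗ[R] Y') (x : S × (I × ℕ →₀ Y)) :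
    phi I u (Finsupp.mapRange.linearMap v) (cur (R := R) I S Y x) =
      cur (R := R) I S' Y' (phi (I × ℕ) u v x) := by
  refine Prod.ext rfl ?_
  ext i n
  show v ((cur (R := R) I S Y x).2 i n) = (cur (R := R) I S' Y' (phi (I × ℕ) u v x)).2 i n
  rw [cur_apply, cur_apply]
  rfl

theorem emb_curry {u : S →ₗ[R] S'} {v : Y →ₗ[R] Y'} (h : ∀ I, K.emb (phi I u v)) (I : Type) :
    K.emb (phi I u (Finsupp.mapRange.linearMap v : (ℕ →₀ Y) →ₗ[R] (ℕ →₀ Y'))) :=
  K.emb_congr (cur (R := R) I S Y) (cur (R := R) I S' Y') _ _ (fun x => phi_cur u v x) (h (I × ℕ))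

theorem emb_single (h : PSt K S Y) (I : Type) :
    K.emb (phi I (LinearMap.id : S →ₗ[R] S) (Finsupp.lsingle 0 : Y →ₗ[R] (ℕ →₀ Y))) := by
  classical
  have hinj : Function.Injective fun i : I => (i, (0 : ℕ)) := fun i i' h => congrArg Prod.fst h
  have h1 : K.emb (mp (R := R) S Y fun i : I => (i, (0 : ℕ))) := by
    rw [KK.emb_iff (mp_inj hinj), range_mp hinj]
    exact h _ _
  refine K.emb_congr (LinearEquiv.refl R _) (cur (R := R) I S Y) _ _ (fun x => ?_) h1
  refine Prod.ext rfl ?_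
  ext i n
  rw [cur_apply]
  show (Finsupp.single 0 (x.2 i) : ℕ →₀ Y) n = (Finsupp.mapDomain (fun i : I => (i, (0 : ℕ))) x.2)
    (i, n)
  rcases n with _ | n
  · rw [Finsupp.single_eq_same, Finsupp.mapDomain_apply hinj]
  · rw [Finsupp.single_apply, if_neg (by simp), Finsupp.mapDomain_notin_range]
    rintro ⟨i', hi'⟩
    simp at hi'

theorem emb_iso (u : S ≃ₗ[R] S') (v : Y ≃ₗ[R] Y') {I : Type} (h : K.mem (S × (I →₀ Y))) :
    K.emb (phi I (u : S →ₗ[R] S') (v : Y →ₗ[R] Y')) := by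
  have := K.emb_equiv (LinearEquiv.prodCongr u (Finsupp.mapRange.linearEquiv (α := I) v)) h
  exact this

theorem phi_comp {S'' Y'' : Type} [AddCommGroup S''] [Module R S''] [AddCommGroup Y'']
    [Module R Y''] {I : Type} (u : S →ₗ[R] S') (v : Y →ₗ[R] Y') (u' : S' →ₗ[R] S'')
    (v' : Y' →ₗ[R] Y'') : phi I (u' ∘ₗ u) (v' ∘ₗ v) = phi I u' v' ∘ₗ phi I u v := by
  ext x
  · rfl
  · rfl
  · rfl
  · simp [phi]

end powers

section boxes

variable {K : KK R} {W : Type} [AddCommGroup W] [Module R W]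

/-- the power of `Y` over `S`, inside a fixed module -/
def Bx (I : Type) (S Y : Submodule R W) (J : Set I) : Submodule R (W × (I →₀ W)) where
  carrier := {x | x.1 ∈ S ∧ (∀ i, x.2 i ∈ Y) ∧ ∀ i, i ∉ J → x.2 i = 0}
  add_mem' := by
    rintro x y ⟨h1, h2, h3⟩ ⟨h4, h5, h6⟩
    refine ⟨S.add_mem h1 h4, fun i => Y.add_mem (h2 i) (h5 i), fun i hi => ?_⟩
    show x.2 i + y.2 i = 0
    rw [h3 i hi, h6 i hi, add_zero]
  zero_mem' := ⟨S.zero_mem, fun i => Y.zero_mem, fun i _ => rfl⟩
  smul_mem' := by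
    rintro r x ⟨h1, h2, h3⟩
    refine ⟨S.smul_mem r h1, fun i => Y.smul_mem r (h2 i), fun i hi => ?_⟩
    show r • x.2 i = 0
    rw [h3 i hi, smul_zero]

theorem mem_Bx {I : Type} {S Y : Submodule R W} {J : Set I} {x : W × (I →₀ W)} :
    x ∈ Bx I S Y J ↔ x.1 ∈ S ∧ (∀ i, x.2 i ∈ Y) ∧ ∀ i, i ∉ J → x.2 i = 0 := Iff.rfl

theorem Bx_map {I : Type} (S Y : Submodule R W) (J : Set I) :
    (Pw R S Y J).map (phi I S.subtype Y.subtype) = Bx I S Y J := by
  apply le_antisymm
  · rintro _ ⟨x, hx, rfl⟩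
    refine ⟨x.1.2, fun i => ?_, fun i hi => ?_⟩
    · exact (x.2 i).2
    · have := mem_Pw.1 hx i hi
      show ((x.2 i : Y) : W) = 0
      rw [this]; rfl
  · rintro x ⟨h1, h2, h3⟩
    refine ⟨(⟨x.1, h1⟩, Finsupp.onFinset x.2.support (fun i => ⟨x.2 i, h2 i⟩) fun i hi => ?_),
      mem_Pw.2 fun i hi => Subtype.ext (h3 i hi), ?_⟩
    · rw [Finsupp.mem_support_iff]
      intro h0
      exact hi (Subtype.ext h0)
    · refine Prod.ext rfl ?_
      ext i
      rfl

theorem Bx_mono {I : Type} {S Y S' Y' : Submodule R W} {J J' : Set I} (h1 : S ≤ S') (h2 : Y ≤ Y')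
    (h3 : J ⊆ J') : Bx I S Y J ≤ Bx I S' Y' J' := fun _ hx =>
  ⟨h1 hx.1, fun i => h2 (hx.2.1 i), fun i hi => hx.2.2 i fun h => hi (h3 h)⟩

theorem pst_iff {S Y : Submodule R W} :
    PSt K S Y ↔ ∀ (I : Type) (J : Set I), K.le (Bx I S Y J) (Bx I S Y Set.univ) := by
  constructor
  · intro h I J
    have := KK.le_map (phi I S.subtype Y.subtype) (phi_inj _ _ (Submodule.subtype_injective _)
      (Submodule.subtype_injective _)) (h I J)
    rw [Bx_map, ← Pw_univ, Bx_map] at this
    exact this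
  · intro h I J
    apply KK.le_of_map (phi I S.subtype Y.subtype) (phi_inj _ _ (Submodule.subtype_injective _)
      (Submodule.subtype_injective _))
    rw [Bx_map, ← Pw_univ, Bx_map]
    exact h I J

theorem emb_phi_iff {S Y S' Y' : Submodule R W} (h1 : S ≤ S') (h2 : Y ≤ Y') (I : Type) :
    K.emb (phi I (Submodule.inclusion h1) (Submodule.inclusion h2)) ↔
      K.le (Bx I S Y Set.univ) (Bx I S' Y' Set.univ) := by
  have hinj := phi_inj (I := I) (Submodule.inclusion h1) (Submodule.inclusion h2)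
    (Submodule.inclusion_injective h1) (Submodule.inclusion_injective h2)
  have hinj' := phi_inj (I := I) S'.subtype Y'.subtype (Submodule.subtype_injective _)
      (Submodule.subtype_injective _)
  rw [KK.emb_iff hinj]
  have e1 : (LinearMap.range (phi I (Submodule.inclusion h1) (Submodule.inclusion h2))).map
      (phi I S'.subtype Y'.subtype) = Bx I S Y Set.univ := by
    rw [← LinearMap.range_comp, ← phi_comp, ← Bx_map, Pw_univ, Submodule.map_top]
    rfl
  have e2 : (⊤ : Submodule R (S' × (I →₀ Y'))).map (phi I S'.subtype Y'.subtype) =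
      Bx I S' Y' Set.univ := by
    rw [← Bx_map, Pw_univ]
  constructor
  · intro h
    have := KK.le_map _ hinj' h
    rwa [e1, e2] at this
  · intro h
    apply KK.le_of_map _ hinj'
    rwa [e1, e2]

variable (W) in
/-- pairs of submodules -/
abbrev LL (R W : Type) [Ring R] [AddCommGroup W] [Module R W] : Type :=
  Submodule R W × Submodule R W

theorem fst_sup {ι : Type} (A : ι → LL R W) : (⨆ o, A o).1 = ⨆ o, (A o).1 := Prod.fst_iSup _

theorem snd_sup {ι : Type} (A : ι → LL R W) : (⨆ o, A o).2 = ⨆ o, (A o).2 := Prod.snd_iSup _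

theorem Bx_iSup {I ι : Type} [Nonempty ι] (A : ι → LL R W) (hA : Directed (· ≤ ·) A) (J : Set I) :
    Bx I (⨆ o, A o).1 (⨆ o, A o).2 J = ⨆ o, Bx I (A o).1 (A o).2 J := by
  classical
  apply le_antisymm
  · rintro x ⟨h1, h2, h3⟩
    rw [fst_sup] at h1
    have d1 : Directed (· ≤ ·) fun o => (A o).1 := fun a b => by
      obtain ⟨c, h, h'⟩ := hA a b
      exact ⟨c, h.1, h'.1⟩
    have d2 : Directed (· ≤ ·) fun o => (A o).2 := fun a b => by
      obtain ⟨c, h, h'⟩ := hA a b
      exact ⟨c, h.2, h'.2⟩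
    obtain ⟨o₁, ho₁⟩ := (Submodule.mem_iSup_of_directed _ d1).1 h1
    obtain ⟨o₂, ho₂⟩ := finset_directed d2 (x.2.support.image x.2) (by
      intro y hy
      obtain ⟨i, -, rfl⟩ := Finset.mem_image.1 hy
      rw [← snd_sup]
      exact h2 i)
    obtain ⟨o, h4, h5⟩ := hA o₁ o₂
    refine (le_iSup (fun o => Bx I (A o).1 (A o).2 J) o) ⟨h4.1 ho₁, fun i => ?_, h3⟩
    by_cases hi : x.2 i = 0
    · rw [hi]; exact Submodule.zero_mem _
    · exact h5.2 (ho₂ _ (Finset.mem_image_of_mem _ (Finsupp.mem_support_iff.2 hi)))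
  · exact iSup_le fun o => Bx_mono (le_iSup A o).1 (le_iSup A o).2 subset_rfl

theorem isoFix_of {S T U : Submodule R W} (h1 : S ≤ T) (h2 : T ≤ U) (h : IsoFix S U)
    (h' : IsoFix T U) : IsoFix S T := by
  intro F hF
  obtain ⟨e₁, he₁⟩ := h F hF
  obtain ⟨e₂, he₂⟩ := h' F fun x hx => h1 (hF x hx)
  refine ⟨e₂.symm.trans e₁, fun x hx => ?_⟩
  have h3 : e₂.symm x = Submodule.inclusion h2 x := by
    rw [LinearEquiv.symm_apply_eq]
    exact Subtype.ext (he₂ (Submodule.inclusion h2 x) hx).symm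
  show ((e₁ (e₂.symm x) : S) : W) = x
  rw [h3]
  exact he₁ _ hx

/-- strong elementary extension of pairs -/
def RelK (K : KK R) (A B : LL R W) : Prop :=
  A ≤ B ∧ IsoFix A.1 B.1 ∧ ∀ I : Type, K.le (Bx I A.1 A.2 Set.univ) (Bx I B.1 B.2 Set.univ)

theorem RelK.trans {A B C : LL R W} (h : RelK K A B) (h' : RelK K B C) : RelK K A C :=
  ⟨h.1.trans h'.1, h.2.1.trans h.1.1 h'.2.1, fun I => (h.2.2 I).trans (h'.2.2 I)⟩

theorem relK_sup {ι : Type} [Nonempty ι] (A : ι → LL R W)
    (hA : ∀ a b, ∃ c, RelK K (A a) (A c) ∧ RelK K (A b) (A c)) (a : ι) (I : Type) :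
    K.le (Bx I (A a).1 (A a).2 Set.univ) (Bx I (⨆ o, A o).1 (⨆ o, A o).2 Set.univ) := by
  have hdir : Directed (· ≤ ·) A := fun a b => by
    obtain ⟨c, h, h'⟩ := hA a b
    exact ⟨c, h.1, h'.1⟩
  rw [Bx_iSup A hdir]
  refine KK.le_iSup (fun o => Bx I (A o).1 (A o).2 (Set.univ : Set I)) (fun a b => ?_)
    (fun a b hab => ?_) a
  · obtain ⟨c, h, h'⟩ := hA a b
    exact ⟨c, (h.2.2 I).1, (h'.2.2 I).1⟩
  · obtain ⟨c, h, h'⟩ := hA a b
    exact (h.2.2 I).coh (h'.2.2 I) hab

theorem pst_sup {ι : Type} [Nonempty ι] (A : ι → LL R W)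
    (hA : ∀ a b, ∃ c, RelK K (A a) (A c) ∧ RelK K (A b) (A c))
    (hp : ∀ a, PSt K (A a).1 (A a).2) : PSt K (⨆ o, A o).1 (⨆ o, A o).2 := by
  have hdir : Directed (· ≤ ·) A := fun a b => by
    obtain ⟨c, h, h'⟩ := hA a b
    exact ⟨c, h.1, h'.1⟩
  rw [pst_iff]
  intro I J
  conv => arg 2; rw [Bx_iSup A hdir]
  refine KK.iSup_le _ (fun a b => ?_) fun a =>
    (pst_iff.1 (hp a) I J).trans (relK_sup A hA a I)
  obtain ⟨c, h, h'⟩ := hdir a b
  exact ⟨c, Bx_mono h.1 h.2 subset_rfl, Bx_mono h'.1 h'.2 subset_rfl⟩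

theorem relK_sup' {ι : Type} [Nonempty ι] (A : ι → LL R W)
    (hA : ∀ a b, ∃ c, RelK K (A a) (A c) ∧ RelK K (A b) (A c))
    (hc : Countable (⨆ o, A o).1) (a : ι) : RelK K (A a) (⨆ o, A o) := by
  have hdir : Directed (· ≤ ·) A := fun a b => by
    obtain ⟨c, h, h'⟩ := hA a b
    exact ⟨c, h.1, h'.1⟩
  refine ⟨le_iSup A a, ?_, relK_sup A hA a⟩
  rw [fst_sup] at hc ⊢
  refine isoFix_union (fun o => (A o).1) (fun a b => ?_) hc (fun a b hab => ?_) a
  · obtain ⟨c, h, h'⟩ := hdir a b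
    exact ⟨c, h.1, h'.1⟩
  · obtain ⟨c, h, h'⟩ := hA a b
    exact isoFix_of hab h'.1.1 h.2.1 h'.2.1

end boxes

end Pool.Agent.Y583.MC
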