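import Pool.Agent.Y583.MF7

set_option autoImplicit false

/-!
A nonsplit pair contradicts categoricity.
-/

namespace Pool.Agent.Y583.MC

open Cardinal

variable {R : Type} [Ring R]

section
variable {K : KK R} {Q : Type} [AddCommGroup Q] [Module R Q]

/-- support below `α` -/
def Low (α : WW) (S : Submodule R (Option WW → Q)) : Prop :=
  ∀ f ∈ S, ∀ β, α ≤ β → f (some β) = 0

/-- support up to `α` -/
def Low' (α : WW) (S : Submodule R (Option WW → Q)) : Prop :=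
  ∀ f ∈ S, ∀ β, α < β → f (some β) = 0

/-- the properties of the members of the chain -/
structure Inv (K : KK R) (E₁ : Type) [AddCommGroup E₁] [Module R E₁] (α : WW)
    (A : LL R (Option WW → Q)) : Prop where
  l1 : Low α A.1
  l2 : Low α A.2
  c1 : Countable A.1
  c2 : Countable A.2
  nt : Nontrivial A.2
  iso : Nonempty (A.1 ≃ₗ[R] E₁)
  pst : PSt K A.1 A.2

variable {E₁ X₁ E₂ X₂ : Type} [AddCommGroup E₁] [Module R E₁]
    [AddCommGroup X₁] [Module R X₁] [AddCommGroup E₂] [Module R E₂] [AddCommGroup X₂]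
    [Module R X₂] {i : E₁ →ₗ[R] E₂} {j : X₁ →ₗ[R] X₂}

theorem chain_step {μ : Cardinal.{0}} (hμ : ℵ₀ < μ) (huniq : UniqK K μ) (h : PairOut K i j)
    (hQ : ∀ (A B : Type) [AddCommGroup A] [Module R A] [AddCommGroup B] [Module R B]
        (f : A →ₗ[R] B), Function.Injective f → ∀ g : A →ₗ[R] Q, ∃ h : B →ₗ[R] Q,
          ∀ x, h (f x) = g x)
    (hT1 : ∀ L : Submodule R E₂, ∃ v : (E₂ ⧸ L) →ₗ[R] Q, Function.Injective v)
    (hT2 : ∀ L : Submodule R (ℕ →₀ X₂), ∃ v : ((ℕ →₀ X₂) ⧸ L) →ₗ[R] Q, Function.Injective v)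
    (α : WW) (A : LL R (Option WW → Q)) (hA : Inv K E₁ α A) :
    ∃ B : LL R (Option WW → Q), RelK K A B ∧ Low' α B.1 ∧ Low' α B.2 ∧ Countable B.1 ∧
      Countable B.2 ∧ PSt K B.1 B.2 ∧ ¬ Summ A.1 B.1 := by
  classical
  haveI := h.c1
  haveI := h.c2
  haveI := h.c3
  haveI := h.c4
  haveI := h.nt
  haveI := hA.c1
  haveI := hA.c2
  haveI := hA.nt
  obtain ⟨u⟩ := hA.iso
  obtain ⟨v⟩ : Nonempty ((ℕ →₀ A.2) ≃ₗ[R] (ℕ →₀ X₁)) :=
    absorbedK' hμ huniq h.pair.abs1 A.2 hA.pst.mem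
  have hi := K.inj _ h.pair.hi
  let jm : (ℕ →₀ X₁) →ₗ[R] (ℕ →₀ X₂) := Finsupp.mapRange.linearMap j
  have hjm : Function.Injective jm := by
    intro x y hxy
    ext n
    apply h.pair.hj
    have := DFunLike.congr_fun hxy n
    simpa [jm] using this
  let jS : A.1 →ₗ[R] E₂ := i ∘ₗ (u : A.1 →ₗ[R] E₁)
  have hjS : Function.Injective jS := hi.comp u.injective
  let jY : A.2 →ₗ[R] (ℕ →₀ X₂) := jm ∘ₗ (v : (ℕ →₀ A.2) →ₗ[R] (ℕ →₀ X₁)) ∘ₗ Finsupp.lsingle 0
  have hjY : Function.Injective jY :=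
    hjm.comp (v.injective.comp (Finsupp.single_injective 0))
  obtain ⟨hS, hS1, hS2, hS3⟩ := extend_step hQ hT1 α A.1 hA.l1 jS hjS
  obtain ⟨hY, hY1, hY2, hY3⟩ := extend_step hQ hT2 α A.2 hA.l2 jY hjY
  let B : LL R (Option WW → Q) := (LinearMap.range hS, LinearMap.range hY)
  let uB : E₂ ≃ₗ[R] B.1 := LinearEquiv.ofInjective hS hS1
  let vB : (ℕ →₀ X₂) ≃ₗ[R] B.2 := LinearEquiv.ofInjective hY hY1
  have hle1 : A.1 ≤ B.1 := fun s hs => ⟨jS ⟨s, hs⟩, hS2 ⟨s, hs⟩⟩
  have hle2 : A.2 ≤ B.2 := fun s hs => ⟨jY ⟨s, hs⟩, hY2 ⟨s, hs⟩⟩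
  have hpB : PSt K B.1 B.2 := (h.pair.abs2.pst.curry).congr uB vB
  have hc1 : Countable B.1 := uB.symm.injective.countable
  have hc2 : Countable B.2 := vB.symm.injective.countable
  refine ⟨B, ⟨⟨hle1, hle2⟩, ?_, fun I => ?_⟩, ?_, ?_, hc1, hc2, hpB, ?_⟩
  · intro F hF
    obtain ⟨e, he⟩ := h.fix (F.attach.image fun x : {x // x ∈ F} => u ⟨x.1, hF x.1 x.2⟩)
    refine ⟨uB.symm.trans (e.trans u.symm), fun x hx => ?_⟩
    let s : A.1 := ⟨x, hF _ hx⟩
    have h1 : uB.symm x = i (u s) := by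
      rw [LinearEquiv.symm_apply_eq]
      exact Subtype.ext (hS2 s).symm
    show ((u.symm (e (uB.symm x)) : A.1) : Option WW → Q) = x
    rw [h1, he (u s) (Finset.mem_image.2 ⟨⟨x, hx⟩, Finset.mem_attach _ _, rfl⟩),
      LinearEquiv.symm_apply_apply]
  · rw [← emb_phi_iff hle1 hle2]
    have f1 := emb_single hA.pst I
    have f2 := emb_iso (K := K) u v (I := I) (hA.pst.curry.mem I)
    have f3 := emb_curry (K := K) (pow_pair h.pair) I
    have f4 := emb_iso (K := K) uB vB (I := I) ((h.pair.abs2.pst.curry).mem I)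
    have f5 := K.comp _ _ f4 (K.comp _ _ f3 (K.comp _ _ f2 f1))
    rw [← phi_comp, ← phi_comp, ← phi_comp] at f5
    have e1 : (uB : E₂ →ₗ[R] B.1) ∘ₗ i ∘ₗ (u : A.1 →ₗ[R] E₁) ∘ₗ LinearMap.id =
        Submodule.inclusion hle1 := by
      ext s : 1
      exact Subtype.ext (hS2 s)
    have e2 : (vB : (ℕ →₀ X₂) →ₗ[R] B.2) ∘ₗ Finsupp.mapRange.linearMap j ∘ₗ
        (v : (ℕ →₀ A.2) →ₗ[R] (ℕ →₀ X₁)) ∘ₗ Finsupp.lsingle 0 = Submodule.inclusion hle2 := by
      ext s : 1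
      exact Subtype.ext (hY2 s)
    rw [e1, e2] at f5
    exact f5
  · rintro _ ⟨t, rfl⟩ β hβ
    exact hS3 t β hβ
  · rintro _ ⟨t, rfl⟩ β hβ
    exact hY3 t β hβ
  · rintro ⟨r, hr1, hr2⟩
    refine h.ns ⟨(u : A.1 →ₗ[R] E₁) ∘ₗ (LinearMap.codRestrict A.1 r hr1) ∘ₗ
      (uB : E₂ →ₗ[R] B.1), fun x => ?_⟩
    obtain ⟨s, rfl⟩ := u.surjective x
    show u (LinearMap.codRestrict A.1 r hr1 (uB (i (u s)))) = u s
    congr 1
    apply Subtype.ext
    show r (uB (i (u s))) = s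
    have h1 : uB (i (u s)) = ⟨s, hle1 s.2⟩ := Subtype.ext (hS2 s)
    rw [h1]
    exact hr2 ⟨s, hle1 s.2⟩ s.2

end

theorem countable_sup {W ι : Type} [AddCommGroup W] [Module R W] [Countable ι] [Nonempty ι]
    (q : ι → Submodule R W) (hq : Directed (· ≤ ·) q) (h : ∀ i, Countable (q i)) :
    Countable (⨆ i, q i : Submodule R W) := by
  have : (↑(⨆ i, q i) : Set W) = ⋃ i, (q i : Set W) := by
    ext x
    rw [Set.mem_iUnion]
    exact Submodule.mem_iSup_of_directed q hq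
  have h2 : (↑(⨆ i, q i) : Set W).Countable := by
    rw [this]
    exact Set.countable_iUnion fun i => (h i).to_set
  exact h2.to_subtype

theorem card_sup {W ι : Type} [AddCommGroup W] [Module R W] [Nonempty ι]
    (q : ι → Submodule R W) (hq : Directed (· ≤ ·) q) (h : ∀ i, Countable (q i)) {κ : Cardinal.{0}}
    (hκ : ℵ₀ ≤ κ) (hι : #ι ≤ κ) : #(⨆ i, q i : Submodule R W) ≤ κ := by
  have : (↑(⨆ i, q i) : Set W) = ⋃ i, (q i : Set W) := by
    ext x
    rw [Set.mem_iUnion]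
    exact Submodule.mem_iSup_of_directed q hq
  have h1 : #(⨆ i, q i : Submodule R W) = #(⋃ i, (q i : Set W) : Set W) := by
    rw [← this]; rfl
  rw [h1]
  refine (mk_iUnion_le _).trans ?_
  have h6 : (⨆ i, #((q i : Set W) : Set W)) ≤ ℵ₀ :=
    ciSup_le' fun i => @mk_le_aleph0 _ (h i)
  exact (mul_le_mul' hι (h6.trans hκ)).trans (mul_eq_self hκ).le

theorem wild_contra [Countable R] {K : KK R} {μ : Cardinal.{0}} (hμ : ℵ₀ < μ)
    (huniq : UniqK K μ) {E₁ X₁ E₂ X₂ : Type} [AddCommGroup E₁] [Module R E₁]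
    [AddCommGroup X₁] [Module R X₁] [AddCommGroup E₂] [Module R E₂] [AddCommGroup X₂]
    [Module R X₂] {i : E₁ →ₗ[R] E₂} {j : X₁ →ₗ[R] X₂} (h : PairOut K i j) : False := by
  classical
  haveI := h.c1
  haveI := h.c2
  haveI := h.c3
  haveI := h.c4
  haveI := h.nt
  have hi := K.inj _ h.pair.hi
  -- the injective module
  let V : Type := (∀ L : Submodule R E₂, E₂ ⧸ L) × (∀ L : Submodule R (ℕ →₀ X₂), (ℕ →₀ X₂) ⧸ L)
  obtain ⟨Q, iQ1, iQ2, ν, hν, hQ⟩ := exists_inj (R := R) V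
  have hT1 : ∀ L : Submodule R E₂, ∃ v : (E₂ ⧸ L) →ₗ[R] Q, Function.Injective v := by
    intro L
    refine ⟨ν ∘ₗ LinearMap.inl R _ _ ∘ₗ LinearMap.single R (fun L : Submodule R E₂ => E₂ ⧸ L) L, ?_⟩
    exact hν.comp (LinearMap.inl_injective.comp
      (Pi.single_injective (M := fun L : Submodule R E₂ => E₂ ⧸ L) L))
  have hT2 : ∀ L : Submodule R (ℕ →₀ X₂), ∃ v : ((ℕ →₀ X₂) ⧸ L) →ₗ[R] Q,
      Function.Injective v := by
    intro L
    refine ⟨ν ∘ₗ LinearMap.inr R _ _ ∘ₗ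
      LinearMap.single R (fun L : Submodule R (ℕ →₀ X₂) => (ℕ →₀ X₂) ⧸ L) L, ?_⟩
    exact hν.comp (LinearMap.inr_injective.comp
      (Pi.single_injective (M := fun L : Submodule R (ℕ →₀ X₂) => (ℕ →₀ X₂) ⧸ L) L))
  let W : Type := Option WW → Q
  -- the first pair
  obtain ⟨e1, he1⟩ : ∃ e1 : E₁ →ₗ[R] Q, Function.Injective e1 := by
    obtain ⟨v, hv⟩ := hT1 ⊥
    have hq : Function.Injective (⊥ : Submodule R E₂).mkQ := by
      rw [← LinearMap.ker_eq_bot, Submodule.ker_mkQ]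
    refine ⟨v ∘ₗ (⊥ : Submodule R E₂).mkQ ∘ₗ i, ?_⟩
    intro x y hxy
    exact hi (hq (hv hxy))
  obtain ⟨e2, he2⟩ : ∃ e2 : X₁ →ₗ[R] Q, Function.Injective e2 := by
    obtain ⟨v, hv⟩ := hT2 ⊥
    have hq : Function.Injective (⊥ : Submodule R (ℕ →₀ X₂)).mkQ := by
      rw [← LinearMap.ker_eq_bot, Submodule.ker_mkQ]
    refine ⟨v ∘ₗ (⊥ : Submodule R (ℕ →₀ X₂)).mkQ ∘ₗ Finsupp.lsingle 0 ∘ₗ j, ?_⟩
    intro x y hxy
    exact h.pair.hj (Finsupp.single_injective 0 (hq (hv hxy)))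
  let s1 : Q →ₗ[R] W := LinearMap.single R (fun _ : Option WW => Q) none
  have hs1 : Function.Injective s1 := by
    intro x y hxy
    have h1 := congrFun (show (Pi.single none x : Option WW → Q) = Pi.single none y from hxy) none
    simpa using h1
  let q₀ : LL R W := (LinearMap.range (s1 ∘ₗ e1), LinearMap.range (s1 ∘ₗ e2))
  let u₀ : E₁ ≃ₗ[R] q₀.1 := LinearEquiv.ofInjective _ (hs1.comp he1)
  let v₀ : X₁ ≃ₗ[R] q₀.2 := LinearEquiv.ofInjective _ (hs1.comp he2)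
  have hq₀ : ∀ a, Inv K E₁ a q₀ := by
    intro a
    refine ⟨?_, ?_, u₀.symm.injective.countable, v₀.symm.injective.countable,
      v₀.injective.nontrivial, ⟨u₀.symm⟩, h.pair.abs1.pst.congr u₀ v₀⟩
    · rintro _ ⟨x, rfl⟩ β _
      show (Pi.single none (e1 x) : Option WW → Q) (some β) = 0
      rw [Pi.single_eq_of_ne (by simp)]
    · rintro _ ⟨x, rfl⟩ β _
      show (Pi.single none (e2 x) : Option WW → Q) (some β) = 0
      rw [Pi.single_eq_of_ne (by simp)]
  -- the step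
  have hstep : ∀ (a : WW) (A : LL R W), ∃ B : LL R W, Inv K E₁ a A → (RelK K A B ∧ Low' a B.1 ∧
      Low' a B.2 ∧ Countable B.1 ∧ Countable B.2 ∧ PSt K B.1 B.2 ∧ ¬ Summ A.1 B.1) := by
    intro a A
    by_cases hA : Inv K E₁ a A
    · obtain ⟨B, hB⟩ := chain_step hμ huniq h hQ hT1 hT2 a A hA
      exact ⟨B, fun _ => hB⟩
    · exact ⟨A, fun h => absurd h hA⟩
  choose g hg using hstep
  let St : WW → LL R W := WellFounded.fix (wellFounded_lt (α := WW))
    fun a ih => ⨆ o : Option (Set.Iio a), Option.rec q₀ (fun b => g b.1 (ih b.1 b.2)) o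
  let q : Option WW → LL R W := fun o => Option.rec q₀ (fun b => g b (St b)) o
  let p : Set WW → LL R W := fun J => ⨆ o : Option J, q (o.map Subtype.val)
  have hSt : ∀ a, St a = p (Set.Iio a) := by
    intro a
    have h1 : St a = ⨆ o : Option (Set.Iio a), Option.rec q₀ (fun b => g b.1 (St b.1)) o :=
      WellFounded.fix_eq _ _ _
    rw [h1]
    refine iSup_congr fun o => ?_
    rcases o with _ | b <;> rfl
  have hrefl : ∀ A : LL R W, PSt K A.1 A.2 → RelK K A A := fun A hA =>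
    ⟨le_rfl, IsoFix.refl _, fun I => KK.le_refl (pst_iff.1 hA I Set.univ).mem_left⟩
  -- the family below a set of indices that satisfy the invariant
  have hfam : ∀ J : Set WW, (∀ b ∈ J, Inv K E₁ b (St b) ∧ ∀ o : Option (Set.Iio b),
      RelK K (q (o.map Subtype.val)) (St b)) →
      (∀ o o' : Option J, ∃ o'' : Option J, RelK K (q (o.map Subtype.val)) (q (o''.map Subtype.val)) ∧
        RelK K (q (o'.map Subtype.val)) (q (o''.map Subtype.val))) ∧
      (∀ o : Option J, PSt K (q (o.map Subtype.val)).1 (q (o.map Subtype.val)).2) ∧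
      (∀ o : Option J, Countable (q (o.map Subtype.val)).1 ∧
        Countable (q (o.map Subtype.val)).2) := by
    intro J hJ
    have hp1 : ∀ o : Option J, PSt K (q (o.map Subtype.val)).1 (q (o.map Subtype.val)).2 := by
      intro o
      rcases o with _ | b
      · obtain ⟨a, -⟩ := WW_bound ∅ Set.countable_empty
        exact (hq₀ a).pst
      · exact (hg b.1 (St b.1) (hJ b.1 b.2).1).2.2.2.2.2.1
    have hr1 : ∀ b : J, RelK K q₀ (q (some b.1)) := fun b =>
      ((hJ b.1 b.2).2 none).trans (hg b.1 (St b.1) (hJ b.1 b.2).1).1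
    have hr2 : ∀ b b' : J, b.1 < b'.1 → RelK K (q (some b.1)) (q (some b'.1)) := fun b b' hbb =>
      ((hJ b'.1 b'.2).2 (some ⟨b.1, hbb⟩)).trans (hg b'.1 (St b'.1) (hJ b'.1 b'.2).1).1
    refine ⟨fun o o' => ?_, hp1, fun o => ?_⟩
    · rcases o with _ | b <;> rcases o' with _ | b'
      · exact ⟨none, hrefl _ (hp1 none), hrefl _ (hp1 none)⟩
      · exact ⟨some b', hr1 b', hrefl _ (hp1 (some b'))⟩
      · exact ⟨some b, hrefl _ (hp1 (some b)), hr1 b⟩
      · rcases lt_trichotomy b.1 b'.1 with hlt | heq | hlt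
        · exact ⟨some b', hr2 b b' hlt, hrefl _ (hp1 (some b'))⟩
        · have : b = b' := Subtype.ext heq
          subst this
          exact ⟨some b, hrefl _ (hp1 (some b)), hrefl _ (hp1 (some b))⟩
        · exact ⟨some b, hrefl _ (hp1 (some b)), hr2 b' b hlt⟩
    · rcases o with _ | b
      · obtain ⟨a, -⟩ := WW_bound ∅ Set.countable_empty
        exact ⟨(hq₀ a).c1, (hq₀ a).c2⟩
      · have := hg b.1 (St b.1) (hJ b.1 b.2).1
        exact ⟨this.2.2.2.1, this.2.2.2.2.1⟩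
  have hdir1 : ∀ {ι : Type} (A : ι → LL R W),
      (∀ a b, ∃ c, RelK K (A a) (A c) ∧ RelK K (A b) (A c)) →
      Directed (· ≤ ·) fun o => (A o).1 := fun A hA a b => by
    obtain ⟨c, h, h'⟩ := hA a b
    exact ⟨c, h.1.1, h'.1.1⟩
  have hdir2 : ∀ {ι : Type} (A : ι → LL R W),
      (∀ a b, ∃ c, RelK K (A a) (A c) ∧ RelK K (A b) (A c)) →
      Directed (· ≤ ·) fun o => (A o).2 := fun A hA a b => by
    obtain ⟨c, h, h'⟩ := hA a b
    exact ⟨c, h.1.2, h'.1.2⟩
  have hmain : ∀ a, Inv K E₁ a (St a) ∧ ∀ o : Option (Set.Iio a),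
      RelK K (q (o.map Subtype.val)) (St a) := by
    intro a
    induction a using WellFoundedLT.induction with
    | ind a ih =>
      obtain ⟨f1, f2, f3⟩ := hfam (Set.Iio a) ih
      haveI : Countable (Set.Iio a) := (WW_Iio a).to_subtype
      have hcs1 : Countable (p (Set.Iio a)).1 := by
        show Countable (⨆ o : Option (Set.Iio a), q (o.map Subtype.val)).1
        rw [fst_sup]
        exact countable_sup _ (hdir1 _ f1) fun o => (f3 o).1
      have hcs2 : Countable (p (Set.Iio a)).2 := by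
        show Countable (⨆ o : Option (Set.Iio a), q (o.map Subtype.val)).2
        rw [snd_sup]
        exact countable_sup _ (hdir2 _ f1) fun o => (f3 o).2
      have hrel : ∀ o : Option (Set.Iio a), RelK K (q (o.map Subtype.val)) (p (Set.Iio a)) :=
        relK_sup' _ f1 hcs1
      rw [hSt]
      refine ⟨⟨?_, ?_, hcs1, hcs2, ?_, ?_, pst_sup _ f1 f2⟩, hrel⟩
      · intro f hf β hβ
        have hf' : f ∈ (⨆ o : Option (Set.Iio a), q (o.map Subtype.val)).1 := hf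
        rw [fst_sup] at hf'
        obtain ⟨o, ho⟩ := (Submodule.mem_iSup_of_directed _ (hdir1 _ f1)).1 hf'
        rcases o with _ | b
        · exact (hq₀ a).l1 f ho β hβ
        · exact (hg b.1 (St b.1) (ih b.1 b.2).1).2.1 f ho β (lt_of_lt_of_le b.2 hβ)
      · intro f hf β hβ
        have hf' : f ∈ (⨆ o : Option (Set.Iio a), q (o.map Subtype.val)).2 := hf
        rw [snd_sup] at hf'
        obtain ⟨o, ho⟩ := (Submodule.mem_iSup_of_directed _ (hdir2 _ f1)).1 hf'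
        rcases o with _ | b
        · exact (hq₀ a).l2 f ho β hβ
        · exact (hg b.1 (St b.1) (ih b.1 b.2).1).2.2.1 f ho β (lt_of_lt_of_le b.2 hβ)
      · haveI := (hq₀ a).nt
        exact (Submodule.inclusion_injective (show q₀.2 ≤ (p (Set.Iio a)).2 from
          (hrel none).1.2)).nontrivial
      · obtain ⟨e, -⟩ := (hrel none).2.1 ∅ (by simp)
        exact ⟨e.trans u₀.symm⟩
  obtain ⟨f1, f2, f3⟩ := hfam Set.univ fun b _ => hmain b
  have hqmono : ∀ b b' : WW, b ≤ b' → q (some b) ≤ q (some b') := by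
    intro b b' hbb
    rcases lt_or_eq_of_le hbb with hlt | rfl
    · exact (((hmain b').2 (some ⟨b, hlt⟩)).trans (hg b' (St b') (hmain b').1).1).1
    · exact le_rfl
  have hq0 : ∀ b : WW, q₀ ≤ q (some b) := fun b =>
    (((hmain b).2 none).trans (hg b (St b) (hmain b).1).1).1
  have hpmono : ∀ J J' : Set WW, J ⊆ J' → p J ≤ p J' := by
    intro J J' h
    refine iSup_le fun o => ?_
    rcases o with _ | b
    · exact le_iSup (fun o : Option J' => q (o.map Subtype.val)) none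
    · exact le_iSup (fun o : Option J' => q (o.map Subtype.val)) (some ⟨b.1, h b.2⟩)
  have hpS : ∀ J : Set WW, J.Countable → ∃ a, p J = St a := by
    intro J hJ
    obtain ⟨a, ha⟩ := exists_minimal_of_wellFoundedLT (fun a : WW => ∀ b ∈ J, b < a) (WW_bound J hJ)
    refine ⟨a, ?_⟩
    rw [hSt]
    refine le_antisymm (hpmono _ _ fun b hb => ha.prop b hb) (iSup_le fun o => ?_)
    rcases o with _ | b
    · exact le_iSup (fun o : Option J => q (o.map Subtype.val)) none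
    · have h1 : ¬ ∀ b' ∈ J, b' < b.1 := by
        intro h
        exact absurd (ha.le_of_le h (le_of_lt b.2)) (not_le.2 b.2)
      push Not at h1
      obtain ⟨b', hb', hle⟩ := h1
      exact (hqmono _ _ hle).trans
        (le_iSup (fun o : Option J => q (o.map Subtype.val)) (some ⟨b', hb'⟩))
  -- the union
  let N₁ : LL R W := p Set.univ
  have hN₁ : PSt K N₁.1 N₁.2 := pst_sup _ f1 f2
  let I : Type := μ.out
  have hI : #I = μ := mk_out μ
  haveI : Infinite I := infinite_iff.2 (by rw [hI]; exact hμ.le)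
  have hω : ℵ₁ ≤ μ := by
    rw [← succ_aleph0]
    exact Order.succ_le_of_lt hμ
  have hι : #(Option (Set.univ : Set WW)) ≤ ℵ₁ := by
    rw [mk_option, mk_univ, mk_WW]
    exact (add_one_eq (aleph0_le_aleph 1)).le
  have hcard1 : #N₁.1 ≤ ℵ₁ := by
    show #(⨆ o : Option (Set.univ : Set WW), q (o.map Subtype.val)).1 ≤ ℵ₁
    rw [fst_sup]
    exact card_sup _ (hdir1 _ f1) (fun o => (f3 o).1) (aleph0_le_aleph 1) hι
  have hcard2 : #N₁.2 ≤ ℵ₁ := by
    show #(⨆ o : Option (Set.univ : Set WW), q (o.map Subtype.val)).2 ≤ ℵ₁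
    rw [snd_sup]
    exact card_sup _ (hdir2 _ f1) (fun o => (f3 o).2) (aleph0_le_aleph 1) hι
  haveI : Nontrivial N₁.2 := by
    obtain ⟨a, -⟩ := WW_bound ∅ Set.countable_empty
    haveI := (hq₀ a).nt
    have h1 : q₀ ≤ N₁ := le_iSup (fun o : Option (Set.univ : Set WW) => q (o.map Subtype.val)) none
    exact (Submodule.inclusion_injective h1.2).nontrivial
  have hcard : #(N₁.1 × (I →₀ N₁.2)) = μ := by
    rw [mk_prod, Cardinal.lift_id, Cardinal.lift_id, mk_pow I N₁.2 (hcard2.trans (hI ▸ hω)), hI]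
    exact mul_eq_right hμ.le (hcard1.trans hω) (mk_ne_zero _)
  obtain ⟨m1, m2⟩ := model_K (I := I) h.pair.abs1
  obtain ⟨Θ⟩ := huniq _ _ hcard (m2.trans hI) (hN₁.mem I) m1
  -- the systems
  let φ : (N₁.1 × (I →₀ N₁.2)) →ₗ[R] (W × (I →₀ W)) := phi I N₁.1.subtype N₁.2.subtype
  have hφ : Function.Injective φ := phi_inj _ _ (Submodule.subtype_injective _)
    (Submodule.subtype_injective _)
  let P : Set (WW ⊕ I) → Submodule R (N₁.1 × (I →₀ N₁.2)) := fun J =>
    (Bx I (p (Sum.inl ⁻¹' J)).1 (p (Sum.inl ⁻¹' J)).2 (Sum.inr ⁻¹' J)).comap φ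
  have hsys : Sys (R := R) (I := WW ⊕ I) (N := N₁.1 × (I →₀ N₁.2)) P := by
    constructor
    · intro J J' hJ
      exact Submodule.comap_mono (Bx_mono (hpmono _ _ (Set.preimage_mono hJ)).1
        (hpmono _ _ (Set.preimage_mono hJ)).2 (Set.preimage_mono hJ))
    · rintro J x ⟨h1, h2, h3⟩
      obtain ⟨k1, -, -⟩ := hfam (Sum.inl ⁻¹' J) fun b _ => hmain b
      have h1' : (φ x).1 ∈ (⨆ o : Option (Sum.inl ⁻¹' J : Set WW), q (o.map Subtype.val)).1 := h1
      rw [fst_sup] at h1'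
      obtain ⟨o₁, ho₁⟩ := (Submodule.mem_iSup_of_directed _ (hdir1 _ k1)).1 h1'
      obtain ⟨o₂, ho₂⟩ := finset_directed (hdir2 _ k1) ((φ x).2.support.image (φ x).2) (by
        intro y hy
        obtain ⟨i, -, rfl⟩ := Finset.mem_image.1 hy
        rw [← snd_sup]
        exact h2 i)
      obtain ⟨o, h4, h5⟩ := k1 o₁ o₂
      obtain ⟨F₁, hF₁⟩ : ∃ F₁ : Finset (WW ⊕ I), (∀ y ∈ F₁, y ∈ J) ∧
          q (o.map Subtype.val) ≤ p {b : WW | Sum.inl b ∈ F₁} := by
        rcases o with _ | b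
        · exact ⟨∅, by simp, le_iSup
            (fun o : Option ({b : WW | Sum.inl b ∈ (∅ : Finset (WW ⊕ I))} : Set WW) =>
              q (o.map Subtype.val)) none⟩
        · refine ⟨{Sum.inl b.1}, ?_, le_iSup
            (fun o : Option ({c : WW | Sum.inl c ∈ ({Sum.inl b.1} : Finset (WW ⊕ I))} : Set WW) =>
              q (o.map Subtype.val)) (some ⟨b.1, ?_⟩)⟩
          · intro y hy
            rw [Finset.mem_singleton] at hy
            rw [hy]
            exact b.2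
          · simp
      let F₂ : Finset (WW ⊕ I) := (φ x).2.support.map Function.Embedding.inr
      have hF₂ : (↑F₂ : Set (WW ⊕ I)) ⊆ J := by
        intro y hy
        rw [Finset.coe_map] at hy
        obtain ⟨i, hi, rfl⟩ := hy
        by_contra hcon
        exact (Finsupp.mem_support_iff.1 hi) (h3 i hcon)
      refine ⟨F₁ ∪ F₂, ?_, ?_, fun i => ?_, fun i hi => ?_⟩
      · rw [Finset.coe_union]
        exact Set.union_subset (fun y hy => hF₁.1 y (Finset.mem_coe.1 hy)) hF₂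
      · refine (hpmono {b : WW | Sum.inl b ∈ F₁} _ fun b hb => ?_).1 (hF₁.2.1 (h4.1.1 ho₁))
        exact Finset.mem_coe.2 (Finset.mem_union_left _ hb)
      · refine (hpmono {b : WW | Sum.inl b ∈ F₁} _ fun b hb => ?_).2 ?_
        · exact Finset.mem_coe.2 (Finset.mem_union_left _ hb)
        · by_cases h0 : (φ x).2 i = 0
          · rw [h0]; exact Submodule.zero_mem _
          · exact hF₁.2.2 (h5.1.2 (ho₂ _
              (Finset.mem_image_of_mem _ (Finsupp.mem_support_iff.2 h0))))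
      · by_contra hcon
        refine hi ?_
        rw [Finset.coe_union]
        exact Or.inr (by
          rw [Finset.coe_map]
          exact ⟨i, Finsupp.mem_support_iff.2 hcon, rfl⟩)
    · intro x
      exact ⟨x.1.2, fun i => (x.2 i).2, fun i hi => absurd trivial hi⟩
    · intro J hJ
      obtain ⟨k1, -, k3⟩ := hfam (Sum.inl ⁻¹' J) fun b _ => hmain b
      have hJ1 : Countable (Sum.inl ⁻¹' J : Set WW) := (hJ.preimage Sum.inl_injective).to_subtype
      have hcs1 : Countable (p (Sum.inl ⁻¹' J)).1 := by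
        show Countable (⨆ o : Option (Sum.inl ⁻¹' J : Set WW), q (o.map Subtype.val)).1
        rw [fst_sup]
        exact countable_sup _ (hdir1 _ k1) fun o => (k3 o).1
      have hcs2 : Countable (p (Sum.inl ⁻¹' J)).2 := by
        show Countable (⨆ o : Option (Sum.inl ⁻¹' J : Set WW), q (o.map Subtype.val)).2
        rw [snd_sup]
        exact countable_sup _ (hdir2 _ k1) fun o => (k3 o).2
      have h1 : ((Bx I (p (Sum.inl ⁻¹' J)).1 (p (Sum.inl ⁻¹' J)).2 (Sum.inr ⁻¹' J) :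
          Submodule R (W × (I →₀ W))) : Set (W × (I →₀ W))).Countable := by
        rw [← Bx_map, Submodule.map_coe]
        exact ((sys_prod (p (Sum.inl ⁻¹' J)).1 I _ (sys_supported (R := R) I
          (p (Sum.inl ⁻¹' J)).2)).cnt _ (hJ.preimage Sum.inr_injective)).image _
      exact h1.preimage hφ
  obtain ⟨J, J', -, -, k3, -, k5⟩ := interlace hsys
    ((sys_prod E₁ I _ (sys_supported (R := R) I X₁)).comap Θ) ∅ ∅ Set.countable_empty
    Set.countable_empty
  obtain ⟨r₀, hr₀, hr₀'⟩ := ret_prodSupported (R := R) E₁ I X₁ J'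
  have k5' : P J = ((⊤ : Submodule R E₁).prod (Finsupp.supported X₁ R J')).comap
        (Θ : (N₁.1 × (I →₀ N₁.2)) →ₗ[R] (E₁ × (I →₀ X₁))) := k5
  let R₁ : (N₁.1 × (I →₀ N₁.2)) →ₗ[R] (N₁.1 × (I →₀ N₁.2)) :=
    (Θ.symm : (E₁ × (I →₀ X₁)) →ₗ[R] (N₁.1 × (I →₀ N₁.2))) ∘ₗ r₀ ∘ₗ
      (Θ : (N₁.1 × (I →₀ N₁.2)) →ₗ[R] (E₁ × (I →₀ X₁)))
  have hR1 : ∀ x, R₁ x ∈ P J := by
    intro x
    rw [k5', Submodule.mem_comap]
    show Θ (Θ.symm (r₀ (Θ x))) ∈ _
    rw [LinearEquiv.apply_symm_apply]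
    exact hr₀ _
  have hR2 : ∀ x ∈ P J, R₁ x = x := by
    intro x hx
    rw [k5', Submodule.mem_comap] at hx
    show Θ.symm (r₀ (Θ x)) = x
    have h9 : r₀ (Θ x) = Θ x := hr₀' _ hx
    rw [h9, LinearEquiv.symm_apply_apply]
  obtain ⟨α, hα⟩ := hpS (Sum.inl ⁻¹' J) (k3.preimage Sum.inl_injective)
  have hgN : (g α (St α)).1 ≤ N₁.1 :=
    (le_iSup (fun o : Option (Set.univ : Set WW) => q (o.map Subtype.val)) (some ⟨α, trivial⟩)).1
  refine (hg α (St α) (hmain α).1).2.2.2.2.2.2 ⟨N₁.1.subtype ∘ₗ LinearMap.fst R _ _ ∘ₗ R₁ ∘ₗ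
    LinearMap.inl R N₁.1 (I →₀ N₁.2) ∘ₗ Submodule.inclusion hgN, fun x => ?_, fun x hx => ?_⟩
  · have h6 : ((R₁ (Submodule.inclusion hgN x, 0)).1 : W) ∈ (p (Sum.inl ⁻¹' J)).1 := (hR1 _).1
    rw [hα] at h6
    exact h6
  · show ((R₁ (Submodule.inclusion hgN x, 0)).1 : W) = x
    rw [hR2]
    · rfl
    · refine ⟨?_, fun i => Submodule.zero_mem _, fun i _ => rfl⟩
      show (x : W) ∈ (p (Sum.inl ⁻¹' J)).1
      rw [hα]
      exact hx

end Pool.Agent.Y583.MC
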