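import Pool.Agent.Y583.MF8

set_option autoImplicit false

/-!
Tame submodules: countable closed submodules split over them.
-/

namespace Pool.Agent.Y583.MC

open Cardinal

variable {R : Type} [Ring R]

section
variable {N : Type} [AddCommGroup N] [Module R N] {c : Finset N → Set N} {N' : Submodule R N}

theorem enlarge (hiso : ∀ S T : Submodule R N, Cb c S → Cb c T → S ≤ T → IsoFix S T)
    {T T₁ : Submodule R N} (hT : Cb c T) (hT₁ : Cb c T₁) (h : T ≤ T₁) (k : T →ₗ[R] N)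
    (F : Finset N) (hF : ∀ x ∈ F, x ∈ T) :
    ∃ k' : T₁ →ₗ[R] N, (∀ x, ∃ y : T, k' x = k y) ∧
      ∀ (x : N) (hx : x ∈ F), k' ⟨x, h (hF x hx)⟩ = k ⟨x, hF x hx⟩ := by
  obtain ⟨e, he⟩ := hiso T T₁ hT hT₁ h F hF
  refine ⟨k ∘ₗ (e : T₁ →ₗ[R] T), fun x => ⟨e x, rfl⟩, fun x hx => ?_⟩
  show k (e ⟨x, _⟩) = k ⟨x, _⟩
  congr 1
  exact Subtype.ext (he ⟨x, h (hF x hx)⟩ hx)

theorem GoodP.extend [Countable R] (hc : ∀ F, (c F).Countable)
    (hiso : ∀ S T : Submodule R N, Cb c S → Cb c T → S ≤ T → IsoFix S T)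
    (htame : Tame c N') {P : List (N × N)} (hP : GoodP c N' P) (x : N) :
    ∃ y : N, GoodP c N' ((x, y) :: P) := by
  classical
  let a : Fin (P.length + 1) → N := Fin.cons x fun i => (P.get i).1
  obtain ⟨b, hb⟩ := htame _ a
  have hbN : ∀ i, b i ∈ N' := by
    intro i
    obtain ⟨T, h1, h2, h3, k, h4, h5, -⟩ := hb ∅ (by simp)
    have hi : (a i, b i) ∈ List.ofFn fun i => (a i, b i) := (List.mem_ofFn' _ _).2 ⟨i, rfl⟩
    have h6 : k ⟨a i, h2 _ hi⟩ = b i := h5 ⟨a i, h2 _ hi⟩ _ hi rfl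
    rw [← h6]
    exact h4 _
  let G₀ : Finset N := Finset.univ.image b
  have hbG : ∀ i, b i ∈ G₀ := fun i => Finset.mem_image_of_mem b (Finset.mem_univ i)
  obtain ⟨T₀, t1, t2, t3, h₀, t4, t5, t6⟩ := hP G₀ (by
    intro y hy
    obtain ⟨i, -, rfl⟩ := Finset.mem_image.1 hy
    exact hbN i)
  let F₀ : Finset N := G₀ ∪ (P.map Prod.fst).toFinset
  have hF₀ : ∀ y ∈ F₀, y ∈ T₀ := by
    intro y hy
    rcases Finset.mem_union.1 hy with hy | hy
    · exact t3 y hy
    · rw [List.mem_toFinset, List.mem_map] at hy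
      obtain ⟨p, hp, rfl⟩ := hy
      exact t2 p hp
  obtain ⟨T₀', s1, s2, s3⟩ := exists_sub (R := R) c hc (insert x (T₀ : Set N)) (t1.1.insert x)
  have s1' : T₀ ≤ T₀' := fun y hy => s1 (Or.inr hy)
  have hx : x ∈ T₀' := s1 (Or.inl rfl)
  obtain ⟨h₁, r1, r2⟩ := enlarge hiso t1 ⟨s2, s3⟩ s1' h₀ F₀ hF₀
  have q1 : ∀ y, h₁ y ∈ N' := fun y => by
    obtain ⟨z, hz⟩ := r1 y
    rw [hz]
    exact t4 z
  have q2 : ∀ y (hy : y ∈ G₀), h₁ ⟨y, s1' (t3 y hy)⟩ = y := by
    intro y hy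
    have := r2 y (Finset.mem_union_left _ hy)
    rw [this]
    exact t6 ⟨y, t3 y hy⟩ hy
  have q3 : ∀ p (hp : p ∈ P), h₁ ⟨p.1, s1' (t2 p hp)⟩ = p.2 := by
    intro p hp
    have := r2 p.1 (Finset.mem_union_right _ (by
      rw [List.mem_toFinset]; exact List.mem_map_of_mem hp))
    rw [this]
    exact t5 ⟨p.1, t2 p hp⟩ p hp rfl
  refine ⟨h₁ ⟨x, hx⟩, fun G hG => ?_⟩
  obtain ⟨T, u1, u2, u3, g, u4, u5, u6⟩ := hb G hG
  obtain ⟨T₁, v1, v2, v3⟩ := exists_sub (R := R) c hc ((T : Set N) ∪ T₀' ∪ Set.range g) (by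
    haveI : Countable T := u1.1.to_subtype
    exact (u1.1.union s2).union (Set.countable_range g))
  have w1 : T ≤ T₁ := fun y hy => v1 (Or.inl (Or.inl hy))
  have w2 : T₀' ≤ T₁ := fun y hy => v1 (Or.inl (Or.inr hy))
  have w3 : ∀ y, g y ∈ T₁ := fun y => v1 (Or.inr ⟨y, rfl⟩)
  have haT : ∀ i, a i ∈ T := fun i => u2 (a i, b i) ((List.mem_ofFn' _ _).2 ⟨i, rfl⟩)
  have haT₀ : ∀ i, a i ∈ T₀' := by
    intro i
    refine Fin.cases ?_ (fun i => ?_) i
    · exact hx
    · exact s1' (t2 _ (List.get_mem P i))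
  obtain ⟨g', x1, x2⟩ := enlarge hiso u1 ⟨v2, v3⟩ w1 g (G ∪ Finset.univ.image a) (by
    intro y hy
    rcases Finset.mem_union.1 hy with hy | hy
    · exact u3 y hy
    · obtain ⟨i, -, rfl⟩ := Finset.mem_image.1 hy
      exact haT i)
  obtain ⟨h₂, y1, y2⟩ := enlarge hiso ⟨s2, s3⟩ ⟨v2, v3⟩ w2 h₁ (G₀ ∪ Finset.univ.image a) (by
    intro y hy
    rcases Finset.mem_union.1 hy with hy | hy
    · exact s1' (t3 y hy)
    · obtain ⟨i, -, rfl⟩ := Finset.mem_image.1 hy
      exact haT₀ i)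
  have hg' : ∀ y, g' y ∈ T₁ := fun y => by
    obtain ⟨z, hz⟩ := x1 y
    rw [hz]
    exact w3 z
  let gg : T₁ →ₗ[R] T₁ := LinearMap.codRestrict T₁ g' hg'
  let k : T₁ →ₗ[R] N := g' + h₂ ∘ₗ (LinearMap.id - gg)
  have hk : ∀ y, k y = g' y + (h₂ y - h₂ (gg y)) := fun y => by
    show g' y + h₂ (y - gg y) = _
    rw [map_sub]
  have hgN : ∀ y, g' y ∈ N' := fun y => by
    obtain ⟨z, hz⟩ := x1 y
    rw [hz]
    exact u4 z
  have hhN : ∀ y, h₂ y ∈ N' := fun y => by
    obtain ⟨z, hz⟩ := y1 y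
    rw [hz]
    exact q1 z
  have key : ∀ i, k ⟨a i, w2 (haT₀ i)⟩ = h₁ ⟨a i, haT₀ i⟩ := by
    intro i
    have e1 : g' ⟨a i, w2 (haT₀ i)⟩ = b i := by
      have := x2 (a i) (Finset.mem_union_right _ (Finset.mem_image_of_mem a (Finset.mem_univ i)))
      refine this.trans ?_
      exact u5 ⟨a i, haT i⟩ _ ((List.mem_ofFn' _ _).2 ⟨i, rfl⟩) rfl
    have e2 : h₂ (gg ⟨a i, w2 (haT₀ i)⟩) = b i := by
      have h7 : gg ⟨a i, w2 (haT₀ i)⟩ = ⟨b i, w2 (s1' (t3 _ (hbG i)))⟩ := Subtype.ext e1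
      rw [h7]
      exact (y2 (b i) (Finset.mem_union_left _ (hbG i))).trans (q2 _ (hbG i))
    have e3 := y2 (a i) (Finset.mem_union_right _ (Finset.mem_image_of_mem a (Finset.mem_univ i)))
    rw [hk, e2, e1, ← e3]
    abel
  refine ⟨T₁, ⟨v2, v3⟩, ?_, fun y hy => w1 (u3 y hy), k, ?_, ?_, ?_⟩
  · intro p hp
    rcases List.mem_cons.1 hp with rfl | hp
    · exact w2 hx
    · exact w2 (s1' (t2 p hp))
  · intro y
    rw [hk]
    exact N'.add_mem (hgN _) (N'.sub_mem (hhN _) (hhN _))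
  · intro y p hp hpy
    rcases List.mem_cons.1 hp with rfl | hp
    · have h8 : y = ⟨a 0, w2 (haT₀ 0)⟩ := Subtype.ext hpy.symm
      rw [h8, key 0]
      rfl
    · obtain ⟨i, rfl⟩ := List.mem_iff_get.1 hp
      have h8 : y = ⟨a i.succ, w2 (haT₀ i.succ)⟩ := Subtype.ext hpy.symm
      rw [h8, key i.succ]
      exact q3 _ hp
  · intro y hy
    have e1 : g' y = y := by
      have := x2 y (Finset.mem_union_left _ hy)
      refine this.trans ?_
      exact u6 ⟨y, u3 _ hy⟩ hy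
    have e2 : gg y = y := Subtype.ext e1
    rw [hk, e2, sub_self, add_zero, e1]

theorem exists_ret [Countable R] (hc : ∀ F, (c F).Countable)
    (hiso : ∀ S T : Submodule R N, Cb c S → Cb c T → S ≤ T → IsoFix S T)
    (htame : Tame c N') :
    ∃ c' : Finset N → Set N, (∀ F, (c' F).Countable) ∧
      ∀ T : Submodule R N, (T : Set N).Countable → Closed c' (T : Set N) →
        ∃ r : T →ₗ[R] N, (∀ x, r x ∈ N') ∧ (∀ x, r x ∈ T) ∧
          ∀ x : T, (x : N) ∈ N' → r x = x := by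
  classical
  have hex : ∀ (P : List (N × N)) (x : N), ∃ y : N,
      GoodP c N' P → GoodP c N' ((x, y) :: P) := by
    intro P x
    by_cases hP : GoodP c N' P
    · obtain ⟨y, hy⟩ := hP.extend hc hiso htame x
      exact ⟨y, fun _ => hy⟩
    · exact ⟨0, fun h => absurd h hP⟩
  choose yv hyv using hex
  let Φ : List N → List (N × N) := fun L => L.foldr (fun x P => (x, yv P x) :: P) []
  have hΦ : ∀ L, GoodP c N' (Φ L) := by
    intro L
    induction L with
    | nil =>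
        obtain ⟨b, hb⟩ := htame 0 Fin.elim0
        have h1 : (List.ofFn fun i : Fin 0 => ((Fin.elim0 i : N), b i)) = [] := by simp
        rw [h1] at hb
        exact hb
    | cons x L ih => exact hyv _ _ ih
  let c' : Finset N → Set N := fun F =>
    {y | ∃ L : List N, (∀ x ∈ L, x ∈ F) ∧ ∃ p ∈ Φ L, p.2 = y}
  refine ⟨c', fun F => ?_, fun T hT hcl => ?_⟩
  · have h1 : c' F ⊆ ⋃ L : List {x // x ∈ F},
        (↑((Φ (L.map Subtype.val)).map Prod.snd).toFinset : Set N) := by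
      rintro y ⟨L, hL, p, hp, rfl⟩
      lift L to List {x // x ∈ F} using hL
      refine Set.mem_iUnion.2 ⟨L, ?_⟩
      rw [Finset.mem_coe, List.mem_toFinset]
      exact List.mem_map_of_mem hp
    exact (Set.countable_iUnion fun L => Finset.countable_toSet _).mono h1
  · haveI : Countable T := hT.to_subtype
    obtain ⟨t, ht⟩ := exists_surjective_nat T
    let L : ℕ → List N := fun n => Nat.rec [] (fun n L => (t n : N) :: L) n
    let P : ℕ → List (N × N) := fun n => Φ (L n)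
    let y : ℕ → N := fun n => yv (P n) (t n)
    have hL : ∀ n, ∀ x ∈ L n, x ∈ T := by
      intro n
      induction n with
      | zero => intro x hx; exact absurd hx (List.not_mem_nil)
      | succ n ih =>
          intro x hx
          rcases List.mem_cons.1 (show x ∈ (t n : N) :: L n from hx) with rfl | hx
          · exact (t n).2
          · exact ih x hx
    have hP : ∀ m n, n < m → ((t n : N), y n) ∈ P m := by
      intro m
      induction m with
      | zero => intro n hn; exact absurd hn (Nat.not_lt_zero n)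
      | succ m ih =>
          intro n hn
          show ((t n : N), y n) ∈ ((t m : N), y m) :: P m
          rcases Nat.lt_succ_iff_lt_or_eq.1 hn with hn | rfl
          · exact List.mem_cons_of_mem _ (ih n hn)
          · exact List.mem_cons_self
    have hyT : ∀ n, y n ∈ T := by
      intro n
      refine hcl (L (n + 1)).toFinset (fun x hx => hL (n + 1) x (by
          rw [Finset.mem_coe, List.mem_toFinset] at hx; exact hx))
        ⟨L (n + 1), fun x hx => List.mem_toFinset.2 hx, _, hP (n + 1) n (Nat.lt_succ_self n), rfl⟩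
    have key : ∀ (m : ℕ) (G : Finset N), (∀ x ∈ G, x ∈ N') →
        ∃ (T' : Submodule R N) (k : T' →ₗ[R] N), (∀ x, k x ∈ N') ∧
          (∀ i < m, ∃ h : (t i : N) ∈ T', k ⟨t i, h⟩ = y i) ∧
          ∀ x : T', (x : N) ∈ G → k x = x := by
      intro m G hG
      obtain ⟨T', h1, h2, h3, k, h4, h5, h6⟩ := hΦ (L m) G hG
      exact ⟨T', k, h4, fun i hi => ⟨h2 _ (hP m i hi), h5 ⟨t i, h2 _ (hP m i hi)⟩ _
        (hP m i hi) rfl⟩, h6⟩
    let s : T → ℕ := Function.surjInv ht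
    have hs : ∀ x, t (s x) = x := Function.surjInv_eq ht
    let r : T →ₗ[R] N :=
      { toFun := fun x => y (s x)
        map_add' := fun x x' => by
          obtain ⟨T', k, h1, h2, h3⟩ := key (s x + s x' + s (x + x') + 1) ∅ (by simp)
          obtain ⟨a1, a2⟩ := h2 (s x) (by omega)
          obtain ⟨b1, b2⟩ := h2 (s x') (by omega)
          obtain ⟨d1, d2⟩ := h2 (s (x + x')) (by omega)
          rw [← a2, ← b2, ← d2, ← map_add]
          congr 1
          apply Subtype.ext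
          show (t (s (x + x')) : N) = (t (s x) : N) + (t (s x') : N)
          rw [hs, hs, hs]; rfl
        map_smul' := fun a x => by
          obtain ⟨T', k, h1, h2, h3⟩ := key (s x + s (a • x) + 1) ∅ (by simp)
          obtain ⟨a1, a2⟩ := h2 (s x) (by omega)
          obtain ⟨d1, d2⟩ := h2 (s (a • x)) (by omega)
          rw [RingHom.id_apply, ← a2, ← d2, ← map_smul]
          congr 1
          apply Subtype.ext
          show (t (s (a • x)) : N) = a • (t (s x) : N)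
          rw [hs, hs]; rfl }
    refine ⟨r, fun x => ?_, fun x => hyT _, fun x hx => ?_⟩
    · obtain ⟨T', k, h1, h2, h3⟩ := key (s x + 1) ∅ (by simp)
      obtain ⟨a1, a2⟩ := h2 (s x) (by omega)
      show y (s x) ∈ N'
      rw [← a2]
      exact h1 _
    · obtain ⟨T', k, h1, h2, h3⟩ := key (s x + 1) {(x : N)} (by simpa using hx)
      obtain ⟨a1, a2⟩ := h2 (s x) (by omega)
      show y (s x) = x
      rw [← a2, h3 ⟨t (s x), a1⟩ (by simp [hs])]
      show (t (s x) : N) = x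
      rw [hs]

end

end Pool.Agent.Y583.MC
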