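import Pool.Agent.Y583.MF12

set_option autoImplicit false

/-!
Strong submodules, in a categoricity cardinal, are direct summands.
-/

namespace Pool.Agent.Y583.MC

open Cardinal

variable {R : Type} [Ring R]

/-- the order type `μ⁺` -/
abbrev LA (μ : Cardinal.{0}) : Type := (Order.succ μ).ord.ToType

theorem LA_Iio {μ : Cardinal.{0}} (a : LA μ) : #(Set.Iio a) ≤ μ := by
  have h := Cardinal.mk_Iio_ord_toType a
  rwa [Order.lt_succ_iff] at h

theorem mk_LA (μ : Cardinal.{0}) : #(LA μ) = Order.succ μ := by rw [mk_ord_toType]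

theorem LA_bound {μ : Cardinal.{0}} (hμ : ℵ₀ ≤ μ) (J : Set (LA μ)) (hJ : #J ≤ μ) :
    ∃ a : LA μ, ∀ b ∈ J, b < a := by
  by_contra hcon
  push Not at hcon
  have h1 : (Set.univ : Set (LA μ)) ⊆ ⋃ b ∈ J, (Set.Iio b ∪ {b}) := by
    intro a _
    obtain ⟨b, hb, hab⟩ := hcon a
    refine Set.mem_iUnion₂.2 ⟨b, hb, ?_⟩
    rcases lt_or_eq_of_le hab with h | h
    · exact Or.inl h
    · exact Or.inr h
  have h2 : #(Set.univ : Set (LA μ)) ≤ μ := by
    refine (mk_le_mk_of_subset h1).trans ((mk_biUnion_le _ _).trans ?_)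
    refine (mul_le_mul' hJ (ciSup_le' fun b => ?_)).trans (mul_eq_self hμ).le
    refine (mk_union_le _ _).trans ?_
    rw [mk_singleton]
    exact add_le_of_le hμ (LA_Iio _) (one_le_aleph0.trans hμ)
  rw [mk_univ, mk_LA] at h2
  exact absurd (Order.lt_succ μ) (not_lt.2 h2)

theorem card_supL {W ι : Type} [AddCommGroup W] [Module R W] [Nonempty ι]
    (q : ι → Submodule R W) (hq : Directed (· ≤ ·) q) {κ : Cardinal.{0}} (hκ : ℵ₀ ≤ κ)
    (h : ∀ i, #(q i) ≤ κ) (hι : #ι ≤ κ) : #(⨆ i, q i : Submodule R W) ≤ κ := by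
  have : (↑(⨆ i, q i) : Set W) = ⋃ i, (q i : Set W) := by
    ext x
    rw [Set.mem_iUnion]
    exact Submodule.mem_iSup_of_directed q hq
  have h1 : #(⨆ i, q i : Submodule R W) = #(⋃ i, (q i : Set W) : Set W) := by
    rw [← this]; rfl
  rw [h1]
  refine (mk_iUnion_le _).trans ?_
  have h6 : (⨆ i, #((q i : Set W) : Set W)) ≤ κ := ciSup_le' fun i => h i
  exact (mul_le_mul' hι h6).trans (mul_eq_self hκ).le

section step
variable {Λ : Type} [LinearOrder Λ] {Q : Type} [AddCommGroup Q] [Module R Q]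

theorem extend_stepL
    (hQ : ∀ (A B : Type) [AddCommGroup A] [Module R A] [AddCommGroup B] [Module R B]
        (f : A →ₗ[R] B), Function.Injective f → ∀ g : A →ₗ[R] Q, ∃ h : B →ₗ[R] Q,
          ∀ x, h (f x) = g x)
    {T : Type} [AddCommGroup T] [Module R T]
    (hT : ∀ L : Submodule R T, ∃ v : (T ⧸ L) →ₗ[R] Q, Function.Injective v) (α : Λ)
    (S : Submodule R (Option Λ → Q)) (hS : ∀ f ∈ S, ∀ β, α ≤ β → f (some β) = 0)
    (j : S →ₗ[R] T) (hj : Function.Injective j) :
    ∃ h : T →ₗ[R] (Option Λ → Q), Function.Injective h ∧ (∀ s : S, h (j s) = s) ∧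
      ∀ t β, α < β → h t (some β) = 0 := by
  classical
  have hext : ∀ o : Option Λ, ∃ e : T →ₗ[R] Q, ∀ s : S, e (j s) = (s : Option Λ → Q) o :=
    fun o => hQ S T j hj ((LinearMap.proj o) ∘ₗ S.subtype)
  choose ext hext using hext
  obtain ⟨v, hv⟩ := hT (LinearMap.range j)
  let hc : Option Λ → (T →ₗ[R] Q) := fun o => match o with
    | none => ext none
    | some β => if β < α then ext (some β) else if β = α then v ∘ₗ (LinearMap.range j).mkQ else 0
  refine ⟨LinearMap.pi hc, ?_, ?_, ?_⟩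
  · have hfix : ∀ s : S, LinearMap.pi hc (j s) = s := by
      intro s
      funext o
      rcases o with _ | β
      · exact hext none s
      · show (if β < α then ext (some β) else if β = α then v ∘ₗ (LinearMap.range j).mkQ else 0)
          (j s) = _
        split_ifs with h1 h2
        · exact hext _ s
        · show v ((LinearMap.range j).mkQ (j s)) = _
          have h3 : (LinearMap.range j).mkQ (j s) = 0 := by
            rw [Submodule.mkQ_apply, Submodule.Quotient.mk_eq_zero]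
            exact ⟨s, rfl⟩
          rw [h3, map_zero, hS s.1 s.2 β h2.ge]
        · exact (hS s.1 s.2 β (not_lt.1 h1)).symm
    rw [injective_iff_map_eq_zero]
    intro t ht
    have h1 := congrFun ht (some α)
    have h2 : v ((LinearMap.range j).mkQ t) = 0 := by
      have h3 : (if α < α then ext (some α) else if α = α then v ∘ₗ (LinearMap.range j).mkQ else 0)
        t = 0 := h1
      rw [if_neg (lt_irrefl α), if_pos rfl] at h3
      exact h3
    have h3 : (LinearMap.range j).mkQ t = 0 := hv (by rw [h2, map_zero])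
    rw [Submodule.mkQ_apply, Submodule.Quotient.mk_eq_zero] at h3
    obtain ⟨s, rfl⟩ := h3
    rw [hfix] at ht
    have : s = 0 := Subtype.ext ht
    rw [this, map_zero]
  · intro s
    funext o
    rcases o with _ | β
    · exact hext none s
    · show (if β < α then ext (some β) else if β = α then v ∘ₗ (LinearMap.range j).mkQ else 0)
        (j s) = _
      split_ifs with h1 h2
      · exact hext _ s
      · show v ((LinearMap.range j).mkQ (j s)) = _
        have h3 : (LinearMap.range j).mkQ (j s) = 0 := by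
          rw [Submodule.mkQ_apply, Submodule.Quotient.mk_eq_zero]
          exact ⟨s, rfl⟩
        rw [h3, map_zero, hS s.1 s.2 β h2.ge]
      · exact (hS s.1 s.2 β (not_lt.1 h1)).symm
  · intro t β hβ
    show (if β < α then ext (some β) else if β = α then v ∘ₗ (LinearMap.range j).mkQ else 0)
      t = 0
    rw [if_neg (not_lt.2 hβ.le), if_neg hβ.ne']
    rfl

/-- support below `α` -/
def LowL (α : Λ) (S : Submodule R (Option Λ → Q)) : Prop :=
  ∀ f ∈ S, ∀ β, α ≤ β → f (some β) = 0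

/-- support up to `α` -/
def LowL' (α : Λ) (S : Submodule R (Option Λ → Q)) : Prop :=
  ∀ f ∈ S, ∀ β, α < β → f (some β) = 0

/-- the properties of the members of the chain -/
structure InvL (K : KK R) (μ : Cardinal.{0}) (α : Λ) (A : Submodule R (Option Λ → Q)) :
    Prop where
  l1 : LowL α A
  mem : K.mem A
  card : #A = μ

theorem chain_stepL {K : KK R} {μ : Cardinal.{0}} (huniq : UniqK K μ)
    {M N : Type} [AddCommGroup M] [Module R M] [AddCommGroup N] [Module R N] (hM : #M = μ)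
    (hN : #N = μ) {i : M →ₗ[R] N} (hi : K.emb i) (hns : ¬ ∃ r : N →ₗ[R] M, ∀ x, r (i x) = x)
    (hQ : ∀ (A B : Type) [AddCommGroup A] [Module R A] [AddCommGroup B] [Module R B]
        (f : A →ₗ[R] B), Function.Injective f → ∀ g : A →ₗ[R] Q, ∃ h : B →ₗ[R] Q,
          ∀ x, h (f x) = g x)
    (hT : ∀ L : Submodule R N, ∃ v : (N ⧸ L) →ₗ[R] Q, Function.Injective v)
    (α : Λ) (A : Submodule R (Option Λ → Q)) (hA : InvL K μ α A) :
    ∃ B : Submodule R (Option Λ → Q), K.le A B ∧ LowL' α B ∧ #B = μ ∧ ¬ Summ A B := by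
  classical
  obtain ⟨u⟩ := huniq A M hA.card hM hA.mem (K.emb_mem _ hi).1
  have hinj := K.inj _ hi
  let jS : A →ₗ[R] N := i ∘ₗ (u : A →ₗ[R] M)
  have hjS : Function.Injective jS := hinj.comp u.injective
  obtain ⟨h, h1, h2, h3⟩ := extend_stepL hQ hT α A hA.l1 jS hjS
  let B := LinearMap.range h
  let uB : N ≃ₗ[R] B := LinearEquiv.ofInjective h h1
  have hle : A ≤ B := fun s hs => ⟨jS ⟨s, hs⟩, h2 ⟨s, hs⟩⟩
  refine ⟨B, ⟨hle, ?_⟩, ?_, ?_, ?_⟩
  · refine K.emb_congr u.symm uB i _ (fun x => ?_) hi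
    apply Subtype.ext
    show ((u.symm x : A) : Option Λ → Q) = h (i x)
    rw [← h2 (u.symm x)]
    show h (i (u (u.symm x))) = h (i x)
    rw [LinearEquiv.apply_symm_apply]
  · rintro _ ⟨t, rfl⟩ β hβ
    exact h3 t β hβ
  · rw [← hN]; exact (mk_congr uB.toEquiv).symm
  · rintro ⟨r, hr1, hr2⟩
    refine hns ⟨(u : A →ₗ[R] M) ∘ₗ (LinearMap.codRestrict A r hr1) ∘ₗ (uB : N →ₗ[R] B),
      fun x => ?_⟩
    obtain ⟨s, rfl⟩ := u.surjective x
    show u (LinearMap.codRestrict A r hr1 (uB (i (u s)))) = u s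
    congr 1
    apply Subtype.ext
    show r (uB (i (u s))) = s
    have h1 : uB (i (u s)) = ⟨s, hle s.2⟩ := Subtype.ext (h2 s)
    rw [h1]
    exact hr2 ⟨s, hle s.2⟩ s.2

end step

theorem strong_split {K : KK R} {μ : Cardinal.{0}} (hμ : ℵ₀ ≤ μ) (huniq : UniqK K μ)
    (hsucc : ∀ (L : Type) [AddCommGroup L] [Module R L], K.mem L → #L = Order.succ μ →
      ∃ (E : Type) (_ : AddCommGroup E) (_ : Module R E) (D : Type) (_ : AddCommGroup D)
        (_ : Module R D) (κ : Type), #E ≤ μ ∧ #D ≤ μ ∧ Nonempty (L ≃ₗ[R] (E × (κ →₀ D))))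
    {M N : Type} [AddCommGroup M] [Module R M] [AddCommGroup N] [Module R N] (hM : #M = μ)
    (hN : #N = μ) {i : M →ₗ[R] N} (hi : K.emb i) : ∃ r : N →ₗ[R] M, ∀ x, r (i x) = x := by
  classical
  by_contra hns
  have hinj := K.inj _ hi
  -- the injective module
  let V : Type := ∀ L : Submodule R N, N ⧸ L
  obtain ⟨Q, iQ1, iQ2, ν, hν, hQ⟩ := exists_inj (R := R) V
  have hT : ∀ L : Submodule R N, ∃ v : (N ⧸ L) →ₗ[R] Q, Function.Injective v := by
    intro L
    refine ⟨ν ∘ₗ LinearMap.single R (fun L : Submodule R N => N ⧸ L) L, ?_⟩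
    exact hν.comp (Pi.single_injective (M := fun L : Submodule R N => N ⧸ L) L)
  let Λ : Type := LA μ
  haveI : Nonempty Λ := by
    rw [← mk_ne_zero_iff, mk_LA]
    exact (aleph0_pos.trans_le (hμ.trans (Order.le_succ μ))).ne'
  let a0 : Λ := Classical.arbitrary Λ
  let W : Type := Option Λ → Q
  -- the first module
  obtain ⟨e1, he1⟩ : ∃ e1 : M →ₗ[R] Q, Function.Injective e1 := by
    obtain ⟨v, hv⟩ := hT ⊥
    have hq : Function.Injective (⊥ : Submodule R N).mkQ := by
      rw [← LinearMap.ker_eq_bot, Submodule.ker_mkQ]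
    refine ⟨v ∘ₗ (⊥ : Submodule R N).mkQ ∘ₗ i, ?_⟩
    intro x y hxy
    exact hinj (hq (hv hxy))
  let s1 : Q →ₗ[R] W := LinearMap.single R (fun _ : Option Λ => Q) none
  have hs1 : Function.Injective s1 := by
    intro x y hxy
    have h1 := congrFun (show (Pi.single none x : Option Λ → Q) = Pi.single none y from hxy) none
    simpa using h1
  let q₀ : Submodule R W := LinearMap.range (s1 ∘ₗ e1)
  let u₀ : M ≃ₗ[R] q₀ := LinearEquiv.ofInjective _ (hs1.comp he1)
  have hq₀ : ∀ a : Λ, InvL K μ a q₀ := by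
    intro a
    refine ⟨?_, K.mem_iso u₀ (K.emb_mem _ hi).1, ?_⟩
    · rintro _ ⟨x, rfl⟩ β _
      show (Pi.single none (e1 x) : Option Λ → Q) (some β) = 0
      rw [Pi.single_eq_of_ne (by simp)]
    · rw [← hM]; exact (mk_congr u₀.toEquiv).symm
  -- the step
  have hstep : ∀ (a : Λ) (A : Submodule R W), ∃ B : Submodule R W, InvL K μ a A →
      (K.le A B ∧ LowL' a B ∧ #B = μ ∧ ¬ Summ A B) := by
    intro a A
    by_cases hA : InvL K μ a A
    · obtain ⟨B, hB⟩ := chain_stepL huniq hM hN hi hns hQ hT a A hA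
      exact ⟨B, fun _ => hB⟩
    · exact ⟨A, fun h => absurd h hA⟩
  choose g hg using hstep
  let St : Λ → Submodule R W := WellFounded.fix (wellFounded_lt (α := Λ))
    fun a ih => ⨆ o : Option (Set.Iio a), Option.rec q₀ (fun b => g b.1 (ih b.1 b.2)) o
  let q : Option Λ → Submodule R W := fun o => Option.rec q₀ (fun b => g b (St b)) o
  let p : Set Λ → Submodule R W := fun J => ⨆ o : Option J, q (o.map Subtype.val)
  have hSt : ∀ a, St a = p (Set.Iio a) := by
    intro a
    have h1 : St a = ⨆ o : Option (Set.Iio a), Option.rec q₀ (fun b => g b.1 (St b.1)) o :=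
      WellFounded.fix_eq _ _ _
    rw [h1]
    refine iSup_congr fun o => ?_
    rcases o with _ | b <;> rfl
  -- the family below a set of indices that satisfy the invariant
  have hfam : ∀ J : Set Λ, (∀ b ∈ J, InvL K μ b (St b) ∧ ∀ o : Option (Set.Iio b),
      K.le (q (o.map Subtype.val)) (St b)) →
      (∀ o o' : Option J, ∃ o'' : Option J, K.le (q (o.map Subtype.val)) (q (o''.map Subtype.val)) ∧
        K.le (q (o'.map Subtype.val)) (q (o''.map Subtype.val))) ∧
      (∀ o : Option J, #(↥(q (o.map Subtype.val))) = μ) := by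
    intro J hJ
    have hp1 : ∀ o : Option J, K.le (q (o.map Subtype.val)) (q (o.map Subtype.val)) := by
      intro o
      rcases o with _ | b
      · exact KK.le_refl (hq₀ a0).mem
      · exact KK.le_refl (hg b.1 (St b.1) (hJ b.1 b.2).1).1.mem_right
    have hr1 : ∀ b : J, K.le q₀ (q (some b.1)) := fun b =>
      ((hJ b.1 b.2).2 none).trans (hg b.1 (St b.1) (hJ b.1 b.2).1).1
    have hr2 : ∀ b b' : J, b.1 < b'.1 → K.le (q (some b.1)) (q (some b'.1)) := fun b b' hbb =>
      ((hJ b'.1 b'.2).2 (some ⟨b.1, hbb⟩)).trans (hg b'.1 (St b'.1) (hJ b'.1 b'.2).1).1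
    refine ⟨fun o o' => ?_, fun o => ?_⟩
    · rcases o with _ | b <;> rcases o' with _ | b'
      · exact ⟨none, hp1 none, hp1 none⟩
      · exact ⟨some b', hr1 b', hp1 (some b')⟩
      · exact ⟨some b, hp1 (some b), hr1 b⟩
      · rcases lt_trichotomy b.1 b'.1 with hlt | heq | hlt
        · exact ⟨some b', hr2 b b' hlt, hp1 (some b')⟩
        · have : b = b' := Subtype.ext heq
          subst this
          exact ⟨some b, hp1 (some b), hp1 (some b)⟩
        · exact ⟨some b, hp1 (some b), hr2 b' b hlt⟩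
    · rcases o with _ | b
      · exact (hq₀ a0).card
      · exact (hg b.1 (St b.1) (hJ b.1 b.2).1).2.2.1
  have hdir : ∀ {ι : Type} (A : ι → Submodule R W),
      (∀ a b, ∃ c, K.le (A a) (A c) ∧ K.le (A b) (A c)) → Directed (· ≤ ·) A := fun A hA a b => by
    obtain ⟨c, h, h'⟩ := hA a b
    exact ⟨c, h.1, h'.1⟩
  have hcoh : ∀ {ι : Type} (A : ι → Submodule R W),
      (∀ a b, ∃ c, K.le (A a) (A c) ∧ K.le (A b) (A c)) →
      ∀ a b, A a ≤ A b → K.le (A a) (A b) := fun A hA a b hab => by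
    obtain ⟨c, h, h'⟩ := hA a b
    exact h.coh h' hab
  have hmain : ∀ a, InvL K μ a (St a) ∧ ∀ o : Option (Set.Iio a),
      K.le (q (o.map Subtype.val)) (St a) := by
    intro a
    induction a using WellFoundedLT.induction with
    | ind a ih =>
      obtain ⟨f1, f2⟩ := hfam (Set.Iio a) ih
      have hrel : ∀ o : Option (Set.Iio a), K.le (q (o.map Subtype.val)) (p (Set.Iio a)) :=
        KK.le_iSup (fun o : Option (Set.Iio a) => q (o.map Subtype.val)) (hdir _ f1) (hcoh _ f1)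
      rw [hSt]
      refine ⟨⟨?_, (hrel none).mem_right, le_antisymm ?_ ?_⟩, hrel⟩
      · intro f hf β hβ
        obtain ⟨o, ho⟩ := (Submodule.mem_iSup_of_directed _ (hdir _ f1)).1 hf
        rcases o with _ | b
        · exact (hq₀ a).l1 f ho β hβ
        · exact (hg b.1 (St b.1) (ih b.1 b.2).1).2.1 f ho β (lt_of_lt_of_le b.2 hβ)
      · refine card_supL _ (hdir _ f1) hμ (fun o => (f2 o).le) ?_
        rw [mk_option]
        exact add_le_of_le hμ (LA_Iio a) (one_le_aleph0.trans hμ)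
      · exact (hq₀ a).card.symm.le.trans
          (mk_le_of_injective (Submodule.inclusion_injective (hrel none).1))
  obtain ⟨f1, f2⟩ := hfam Set.univ fun b _ => hmain b
  have hqS : ∀ b b' : Λ, b < b' → q (some b) ≤ St b' := fun b b' hbb =>
    ((hmain b').2 (some ⟨b, hbb⟩)).1
  have hSq : ∀ b : Λ, St b ≤ q (some b) := fun b => (hg b (St b) (hmain b).1).1.1
  have hq0 : ∀ b : Λ, q₀ ≤ St b := fun b => ((hmain b).2 none).1
  -- the union
  let N₁ : Submodule R W := p Set.univ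
  have hN₁q : ∀ o : Option (Set.univ : Set Λ), K.le (q (o.map Subtype.val)) N₁ :=
    KK.le_iSup (fun o : Option (Set.univ : Set Λ) => q (o.map Subtype.val)) (hdir _ f1)
      (hcoh _ f1)
  have hN₁ : K.mem N₁ := (hN₁q none).mem_right
  have hqN : ∀ b : Λ, q (some b) ≤ N₁ := fun b => (hN₁q (some ⟨b, trivial⟩)).1
  have hpr : ∀ b : Λ, ∃ x ∈ q (some b), x ∉ St b := by
    intro b
    by_contra hcon
    push Not at hcon
    exact (hg b (St b) (hmain b).1).2.2.2 ⟨Submodule.subtype _, fun x => hcon x.1 x.2,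
      fun x _ => rfl⟩
  choose xx hxx1 hxx2 using hpr
  have hcard : #N₁ = Order.succ μ := by
    apply le_antisymm
    · refine card_supL _ (hdir _ f1) (hμ.trans (Order.le_succ μ))
        (fun o => (f2 o).le.trans (Order.le_succ μ)) ?_
      rw [mk_option, mk_univ, mk_LA]
      exact (add_one_eq (hμ.trans (Order.le_succ μ))).le
    · rw [← mk_LA]
      refine mk_le_of_injective (f := fun b : Λ => (⟨xx b, hqN b (hxx1 b)⟩ : N₁)) ?_
      intro b b' hbb
      have h1 : xx b = xx b' := congrArg Subtype.val hbb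
      rcases lt_trichotomy b b' with hlt | heq | hlt
      · exact absurd (hqS b b' hlt (h1 ▸ hxx1 b)) (hxx2 b')
      · exact heq
      · exact absurd (hqS b' b hlt (h1.symm ▸ hxx1 b')) (hxx2 b)
  obtain ⟨E, iE1, iE2, D, iD1, iD2, κ, hE, hD, ⟨Θ⟩⟩ := hsucc N₁ hN₁ hcard
  -- closing off
  let F : Set κ → Submodule R N₁ := fun J =>
    ((⊤ : Submodule R E).prod (Finsupp.supported D R J)).comap (Θ : N₁ →ₗ[R] (E × (κ →₀ D)))
  have hFc : ∀ J : Set κ, #J ≤ μ → #(F J) ≤ μ := by
    intro J hJ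
    have h1 : #(F J) ≤ #(E × (J →₀ D)) := by
      refine mk_le_of_injective (f := fun x : F J => ((Θ x.1).1,
        Finsupp.supportedEquivFinsupp J ⟨(Θ x.1).2, x.2.2⟩)) ?_
      intro x y hxy
      have hxy' : ((Θ x.1).1, Finsupp.supportedEquivFinsupp (M := D) (R := R) J
          ⟨(Θ x.1).2, x.2.2⟩) = ((Θ y.1).1, Finsupp.supportedEquivFinsupp (M := D) (R := R) J
          ⟨(Θ y.1).2, y.2.2⟩) := hxy
      rw [Prod.mk.injEq] at hxy'
      have h2 : (Θ x.1).1 = (Θ y.1).1 := hxy'.1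
      have h3 := (Finsupp.supportedEquivFinsupp (M := D) (R := R) J).injective hxy'.2
      have h4 : (Θ x.1).2 = (Θ y.1).2 := congrArg Subtype.val h3
      exact Subtype.ext (Θ.injective (Prod.ext h2 h4))
    refine h1.trans ?_
    rw [mk_prod, Cardinal.lift_id, Cardinal.lift_id]
    exact (mul_le_mul' hE (mk_finsupp_le hμ hJ hD)).trans (mul_eq_self hμ).le
  let JJ : Λ → Set κ := fun a => ⋃ x : {x : N₁ // (x : W) ∈ St a}, (↑(Θ x.1).2.support : Set κ)
  have hJJc : ∀ a, #(JJ a) ≤ μ := by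
    intro a
    refine (mk_iUnion_le _).trans ?_
    refine (mul_le_mul' ?_ (ciSup_le' fun x => ?_)).trans (mul_eq_self hμ).le
    · rw [← (hmain a).1.card]
      exact mk_le_of_injective (f := fun x : {x : N₁ // (x : W) ∈ St a} =>
        (⟨x.1.1, x.2⟩ : St a)) fun x y hxy =>
          Subtype.ext (Subtype.ext (congrArg (fun z : St a => (z : W)) hxy))
    · exact (Finset.countable_toSet _).le_aleph0.trans hμ
  have hJJ : ∀ (a : Λ) (x : N₁), (x : W) ∈ St a → x ∈ F (JJ a) := by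
    intro a x hx
    refine ⟨trivial, ?_⟩
    show (Θ x).2 ∈ Finsupp.supported D R (JJ a)
    rw [Finsupp.mem_supported]
    exact Set.subset_iUnion (fun x : {x : N₁ // (x : W) ∈ St a} =>
      (↑(Θ x.1).2.support : Set κ)) ⟨x, hx⟩
  have hJJm : ∀ a b : Λ, St a ≤ St b → JJ a ⊆ JJ b := by
    intro a b hab
    refine Set.iUnion_subset fun x => ?_
    exact Set.subset_iUnion (fun x : {x : N₁ // (x : W) ∈ St b} =>
      (↑(Θ x.1).2.support : Set κ)) ⟨x.1, hab x.2⟩
  have hbx : ∀ x : N₁, ∃ b : Λ, ∀ b', b < b' → (x : W) ∈ St b' := by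
    intro x
    obtain ⟨o, ho⟩ := (Submodule.mem_iSup_of_directed _ (hdir _ f1)).1 x.2
    rcases o with _ | b
    · exact ⟨a0, fun b' _ => hq0 b' ho⟩
    · exact ⟨b.1, fun b' hb' => hqS _ _ hb' ho⟩
  choose bx hbx using hbx
  have hnxt : ∀ a : Λ, ∃ b : Λ, a < b ∧ ∀ x ∈ F (JJ a), (x : W) ∈ St b := by
    intro a
    obtain ⟨b, hb⟩ := LA_bound hμ (insert a (Set.range fun x : F (JJ a) => bx x.1)) (by
      refine (mk_insert_le).trans ?_
      exact add_le_of_le hμ (mk_range_le.trans (hFc _ (hJJc a))) (one_le_aleph0.trans hμ))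
    exact ⟨b, hb a (Or.inl rfl), fun x hx => hbx x b (hb _ (Or.inr ⟨⟨x, hx⟩, rfl⟩))⟩
  choose nxt hn1 hn2 using hnxt
  let a : ℕ → Λ := fun n => nxt^[n] a0
  have ha1 : ∀ n, a (n + 1) = nxt (a n) := fun n => Function.iterate_succ_apply' nxt n a0
  have halt : ∀ n, a n < a (n + 1) := fun n => by rw [ha1]; exact hn1 _
  have hSmono : ∀ b b' : Λ, b ≤ b' → St b ≤ St b' := by
    intro b b' hbb
    rcases lt_or_eq_of_le hbb with hlt | rfl
    · exact (hSq b).trans (hqS _ _ hlt)
    · exact le_rfl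
  have hamono : Monotone a := monotone_nat_of_le_succ fun n => (halt n).le
  obtain ⟨as, has⟩ := exists_minimal_of_wellFoundedLT (fun b : Λ => ∀ n, a n < b) (by
    obtain ⟨b, hb⟩ := LA_bound hμ (Set.range a) ((Set.countable_range a).le_aleph0.trans hμ)
    exact ⟨b, fun n => hb _ ⟨n, rfl⟩⟩)
  let Js : Set κ := ⋃ n, JJ (a n)
  have hk1 : ∀ x : N₁, (x : W) ∈ St as → x ∈ F Js := by
    intro x hx
    obtain ⟨m, hm⟩ : ∃ m, (x : W) ∈ St (a m) := by
      rw [hSt] at hx
      obtain ⟨k1, -⟩ := hfam (Set.Iio as) fun b _ => hmain b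
      obtain ⟨o, ho⟩ := (Submodule.mem_iSup_of_directed _ (hdir _ k1)).1 hx
      rcases o with _ | b
      · exact ⟨0, hq0 _ ho⟩
      · have h1 : ¬ ∀ n, a n < b.1 := by
          intro h
          exact absurd (has.le_of_le h (le_of_lt b.2)) (not_le.2 b.2)
        push Not at h1
        obtain ⟨n, hn⟩ := h1
        exact ⟨n + 1, hqS _ _ (lt_of_le_of_lt hn (halt n)) ho⟩
    have h2 := (hJJ _ x hm).2
    refine ⟨trivial, ?_⟩
    exact Finsupp.supported_mono (Set.subset_iUnion (fun n => JJ (a n)) m) h2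
  have hk2 : ∀ x ∈ F Js, (x : W) ∈ St as := by
    intro x hx
    have h1 : ∀ G : Finset κ, (↑G : Set κ) ⊆ Js → ∃ n, (↑G : Set κ) ⊆ JJ (a n) := by
      intro G
      induction G using Finset.induction_on with
      | empty => intro _; exact ⟨0, by simp⟩
      | insert y G _ ih =>
          intro hG
          rw [Finset.coe_insert] at hG
          obtain ⟨n, hn⟩ := ih ((Set.subset_insert _ _).trans hG)
          obtain ⟨m, hm⟩ := Set.mem_iUnion.1 (hG (Set.mem_insert _ _))
          refine ⟨max n m, ?_⟩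
          rw [Finset.coe_insert]
          refine Set.insert_subset ?_ ?_
          · exact hJJm _ _ (hSmono _ _ (hamono (le_max_right n m))) hm
          · exact hn.trans (hJJm _ _ (hSmono _ _ (hamono (le_max_left n m))))
    have h2 : (Θ x).2 ∈ Finsupp.supported D R Js := hx.2
    rw [Finsupp.mem_supported] at h2
    obtain ⟨n, hn⟩ := h1 _ h2
    have h3 : x ∈ F (JJ (a n)) := by
      refine ⟨trivial, ?_⟩
      show (Θ x).2 ∈ Finsupp.supported D R (JJ (a n))
      rw [Finsupp.mem_supported]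
      exact hn
    have h4 := hn2 _ x h3
    rw [← ha1] at h4
    exact hSmono _ _ (has.prop (n + 1)).le h4
  obtain ⟨r₀, hr₀, hr₀'⟩ := ret_prodSupported (R := R) E κ D Js
  let R₁ : N₁ →ₗ[R] N₁ :=
    (Θ.symm : (E × (κ →₀ D)) →ₗ[R] N₁) ∘ₗ r₀ ∘ₗ (Θ : N₁ →ₗ[R] (E × (κ →₀ D)))
  have hR1 : ∀ x, R₁ x ∈ F Js := by
    intro x
    have h8 : Θ (R₁ x) = r₀ (Θ x) := by
      show Θ (Θ.symm (r₀ (Θ x))) = _
      rw [LinearEquiv.apply_symm_apply]
    show Θ (R₁ x) ∈ (⊤ : Submodule R E).prod (Finsupp.supported D R Js)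
    rw [h8]
    exact hr₀ _
  have hR2 : ∀ x ∈ F Js, R₁ x = x := by
    intro x hx
    show Θ.symm (r₀ (Θ x)) = x
    have h9 : r₀ (Θ x) = Θ x := hr₀' _ hx
    rw [h9, LinearEquiv.symm_apply_apply]
  refine (hg as (St as) (hmain as).1).2.2.2 ⟨N₁.subtype ∘ₗ R₁ ∘ₗ
    Submodule.inclusion (hqN as), fun x => hk2 _ (hR1 _), fun x hx => ?_⟩
  show ((R₁ (Submodule.inclusion (hqN as) x) : N₁) : W) = x
  rw [hR2 _ (hk1 _ hx)]
  rfl

end Pool.Agent.Y583.MC
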