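import Pool.Agent.Y583.MG1

set_option autoImplicit false

/-!
Amalgamation over modules that are direct summands.
-/

namespace Pool.Agent.Y583.MC

open Cardinal

variable {R : Type} [Ring R]

theorem amalgam {K : KK R} {χ : Cardinal.{0}} (huniq : UniqK K χ)
    (hsplit : ∀ (M N : Type) [AddCommGroup M] [Module R M] [AddCommGroup N] [Module R N]
      (f : M →ₗ[R] N), K.emb f → #M = χ → #N = χ → ∃ r : N →ₗ[R] M, ∀ x, r (f x) = x)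
    {M N₁ N₂ : Type} [AddCommGroup M] [Module R M] [AddCommGroup N₁] [Module R N₁]
    [AddCommGroup N₂] [Module R N₂] (hM : #M = χ) (hN₁ : #N₁ = χ) (hN₂ : #N₂ = χ)
    (f₁ : M →ₗ[R] N₁) (f₂ : M →ₗ[R] N₂) (hf₁ : K.emb f₁) (hf₂ : K.emb f₂) :
    ∃ (P : Type) (_ : AddCommGroup P) (_ : Module R P) (g₁ : N₁ →ₗ[R] P) (g₂ : N₂ →ₗ[R] P),
      K.emb g₁ ∧ K.emb g₂ ∧ (∀ x, g₁ (f₁ x) = g₂ (f₂ x)) ∧
      ∀ y z, g₁ y = g₂ z → ∃ x, f₁ x = y ∧ f₂ x = z := by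
  obtain ⟨r₁, hr₁⟩ := hsplit M N₁ f₁ hf₁ hM hN₁
  obtain ⟨r₂, hr₂⟩ := hsplit M N₂ f₂ hf₂ hM hN₂
  obtain ⟨h₁⟩ := huniq M N₁ hM hN₁ (K.emb_mem _ hf₁).1 (K.emb_mem _ hf₁).2
  obtain ⟨h₂⟩ := huniq M N₂ hM hN₂ (K.emb_mem _ hf₂).1 (K.emb_mem _ hf₂).2
  let σ₁ : N₁ ≃ₗ[R] (M × LinearMap.ker r₁) := splitEquiv f₁ r₁ hr₁
  let σ₂ : N₂ ≃ₗ[R] (M × LinearMap.ker r₂) := splitEquiv f₂ r₂ hr₂
  have hσ₁ : ∀ x, σ₁ (f₁ x) = (x, 0) := by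
    intro x
    rw [← LinearEquiv.eq_symm_apply]
    show f₁ x = f₁ x + ((0 : LinearMap.ker r₁) : N₁)
    simp
  have hσ₂ : ∀ x, σ₂ (f₂ x) = (x, 0) := by
    intro x
    rw [← LinearEquiv.eq_symm_apply]
    show f₂ x = f₂ x + ((0 : LinearMap.ker r₂) : N₂)
    simp
  have hσ₁' : ∀ x, σ₁.symm (x, 0) = f₁ x := fun x => by rw [← hσ₁, LinearEquiv.symm_apply_apply]
  have hσ₂' : ∀ x, σ₂.symm (x, 0) = f₂ x := fun x => by rw [← hσ₂, LinearEquiv.symm_apply_apply]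
  let ρ : ((M × LinearMap.ker r₂) × LinearMap.ker r₁) ≃ₗ[R]
      ((M × LinearMap.ker r₁) × LinearMap.ker r₂) :=
    { toFun := fun x => ((x.1.1, x.2), x.1.2)
      invFun := fun x => ((x.1.1, x.2), x.1.2)
      left_inv := fun x => rfl
      right_inv := fun x => rfl
      map_add' := fun x y => rfl
      map_smul' := fun r x => rfl }
  let τ : (N₂ × LinearMap.ker r₁) ≃ₗ[R] (N₁ × LinearMap.ker r₂) :=
    (LinearEquiv.prodCongr σ₂ (LinearEquiv.refl R _)).trans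
      (ρ.trans (LinearEquiv.prodCongr σ₁.symm (LinearEquiv.refl R _)))
  have hτ : ∀ z, τ (z, 0) = (σ₁.symm ((σ₂ z).1, 0), (σ₂ z).2) := fun z => rfl
  let g₁ : N₁ →ₗ[R] (N₁ × LinearMap.ker r₂) := LinearMap.inl R _ _
  let g₂ : N₂ →ₗ[R] (N₁ × LinearMap.ker r₂) :=
    (τ : (N₂ × LinearMap.ker r₁) →ₗ[R] (N₁ × LinearMap.ker r₂)) ∘ₗ LinearMap.inl R _ _
  have hg₂ : ∀ z, g₂ z = (σ₁.symm ((σ₂ z).1, 0), (σ₂ z).2) := hτ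
  refine ⟨N₁ × LinearMap.ker r₂, inferInstance, inferInstance, g₁, g₂, ?_, ?_, fun x => ?_,
    fun y z hyz => ?_⟩
  · refine K.emb_congr h₁ (σ₂.trans (LinearEquiv.prodCongr h₁ (LinearEquiv.refl R _))) f₂ g₁
      (fun x => ?_) hf₂
    show (h₁ x, 0) = (h₁ (σ₂ (f₂ x)).1, (σ₂ (f₂ x)).2)
    rw [hσ₂]
  · refine K.emb_congr h₂ ((σ₁.trans (LinearEquiv.prodCongr h₂ (LinearEquiv.refl R _))).trans τ)
      f₁ g₂ (fun x => ?_) hf₁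
    show τ (h₂ x, 0) = τ (h₂ (σ₁ (f₁ x)).1, (σ₁ (f₁ x)).2)
    rw [hσ₁]
  · rw [hg₂, hσ₂]
    show (f₁ x, 0) = (σ₁.symm (x, 0), 0)
    rw [hσ₁']
  · rw [hg₂] at hyz
    have h1 : y = σ₁.symm ((σ₂ z).1, 0) := congrArg Prod.fst hyz
    have h2 : 0 = (σ₂ z).2 := congrArg Prod.snd hyz
    refine ⟨(σ₂ z).1, ?_, ?_⟩
    · rw [h1, hσ₁']
    · rw [← hσ₂', LinearEquiv.symm_apply_eq]
      exact Prod.ext rfl h2

end Pool.Agent.Y583.MC
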