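import Pool.Agent.Y583.MG2

set_option autoImplicit false

/-!
The structure of a member over a strong submodule.
-/

namespace Pool.Agent.Y583.MC

open Cardinal Pool.Agent.W879.AE
open Pool.Agent.H288R4.LS (bethFrom hanf bethFrom_succ bethFrom_zero bethFrom_le_limit)

variable {R : Type} [Ring R]

theorem structure_split [Countable R] {K : KK R} {μ : Cardinal.{0}} (hμ : ℵ₀ < μ)
    (huniq : UniqK K μ) {E C : Type} [AddCommGroup E] [Module R E] [AddCommGroup C] [Module R C]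
    [Countable E] [Countable C] [Nontrivial C] (e : C ≃ₗ[R] (ℕ →₀ C)) (hE : Abs K E C)
    {D : Type} [AddCommGroup D] [Module R D] {z : D} [Countable D] (hloc : Loc R D z)
    (hTD : TP R (ℕ →₀ D)) (ε : (ℕ →₀ D) ≃ₗ[R] C)
    (hss : ∀ (Z : Type) [AddCommGroup Z] [Module R Z], Nice R D Z → Nontrivial Z →
        ∃ t : D →ₗ[R] Z, t z ≠ 0)
    {N : Type} [AddCommGroup N] [Module R N] (c : Finset N → Set N) (hc : ∀ F, (c F).Countable)
    {S : Submodule R N} (r₀ : N →ₗ[R] N) (hr1 : ∀ x, r₀ x ∈ S) (hr2 : ∀ x ∈ S, r₀ x = x)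
    (hTS : ∀ T : Submodule R N, Cb c T → K.le (T ⊓ S) T ∧
      Nonempty ((T ⊓ S : Submodule R N) ≃ₗ[R] E) ∧ Nonempty (T ≃ₗ[R] E)) :
    ∃ (ι : Type) (k : N ≃ₗ[R] (S × (ι →₀ D))), ∀ s : S, k s = (s, 0) := by
  classical
  let c₁ : Finset N → Set N := fun F => r₀ '' (↑F : Set N)
  have hc₁ : ∀ F, (c₁ F).Countable := fun F => F.countable_toSet.image _
  have hret : ∀ T : Submodule R N, Closed c₁ (T : Set N) →
        ∃ r : T →ₗ[R] N, (∀ x, r x ∈ S) ∧ (∀ x, r x ∈ T) ∧ ∀ x : T, (x : N) ∈ S → r x = x := by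
    intro T hT
    refine ⟨r₀ ∘ₗ T.subtype, fun x => hr1 _, fun x => ?_, fun x hx => hr2 _ hx⟩
    exact hT {(x : N)} (by simp) ⟨x, by simp, rfl⟩
  let π : N →ₗ[R] (N ⧸ S) := S.mkQ
  have hπ : Function.Surjective π := Submodule.mkQ_surjective S
  let s : (N ⧸ S) → N := Function.surjInv hπ
  have hs : ∀ x, π (s x) = x := Function.surjInv_eq hπ
  have hT : ∀ T : Submodule R N, Cb c T → Closed c₁ (T : Set N) → Nice R D (T.map π) := by
    intro T hT hT₁
    obtain ⟨r, h1, h2, h3⟩ := hret T hT₁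
    obtain ⟨p, k, hp, -⟩ := exists_compl2 r h1 h2 h3
    refine Nice.congr ?_ k
    by_cases hZ : Nontrivial (LinearMap.ker p)
    · haveI : Countable T := hT.1.to_subtype
      haveI : Countable (LinearMap.ker p) := Subtype.countable
      obtain ⟨hle, ⟨u₂⟩, ⟨u₁⟩⟩ := hTS T hT
      let σ : T ≃ₗ[R] ((T ⊓ S : Submodule R N) × LinearMap.ker p) :=
        splitEquiv (Submodule.inclusion inf_le_left) p hp
      have habs : Abs K (T ⊓ S : Submodule R N) (LinearMap.ker p) := by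
        refine ⟨K.emb_congr (LinearEquiv.refl R _) σ (Submodule.inclusion hle.1) _ (fun x => ?_)
          hle.2, ⟨σ.symm.trans (u₁.trans u₂.symm)⟩⟩
        rw [← LinearEquiv.symm_apply_eq]
        show Submodule.inclusion inf_le_left x + ((0 : LinearMap.ker p) : T) = _
        simp
      obtain ⟨a⟩ := absorbedK hμ huniq e hE (LinearMap.ker p) (habs.congr u₂)
      let b : (ℕ →₀ LinearMap.ker p) ≃ₗ[R] (ℕ →₀ D) := a.trans ε.symm
      exact ⟨b.toLinearMap ∘ₗ Finsupp.lsingle 0, Finsupp.lapply 0 ∘ₗ b.symm.toLinearMap,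
        fun z => by simp⟩
    · rw [not_nontrivial_iff_subsingleton] at hZ
      exact ⟨0, 0, fun s => Subsingleton.elim _ _⟩
  have hex : ∀ A : Set N, A.Countable → ∀ c' : Finset N → Set N, (∀ F, (c' F).Countable) →
      ∃ T : Submodule R N, Cb c T ∧ Closed c₁ (T : Set N) ∧ A ⊆ T ∧ Closed c' (T : Set N) := by
    intro A hA c' hc'
    obtain ⟨T, h1, h2, h3⟩ := exists_sub (R := R) (fun F => c F ∪ c₁ F ∪ c' F)
      (fun F => ((hc F).union (hc₁ F)).union (hc' F)) A hA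
    exact ⟨T, ⟨h2, fun F hF x hx => h3 F hF (Or.inl (Or.inl hx))⟩,
      fun F hF x hx => h3 F hF (Or.inl (Or.inr hx)), h1, fun F hF x hx => h3 F hF (Or.inr hx)⟩
  have hCl : Cl R D (N ⧸ S) := by
    intro c' hc' A hA
    obtain ⟨T, h1, h2, h3, h4⟩ := hex (s '' A) (hA.image _) (fun F => ⋃ x ∈ F, s '' (c' (π x)))
      (fun F => Set.Countable.biUnion F.countable_toSet fun x _ => (hc' _).image _)
    refine ⟨T.map π, fun a ha => ?_, ?_, hT T h1 h2⟩
    · exact ⟨s a, h3 ⟨a, ha, rfl⟩, hs a⟩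
    · rintro _ ⟨t, ht, rfl⟩ y hy
      refine ⟨s y, h4 {t} (by simpa using ht) ?_, hs y⟩
      simp only [Finset.mem_singleton, Set.iUnion_iUnion_eq_left]
      exact ⟨y, hy, rfl⟩
  obtain ⟨ι, ⟨b⟩⟩ := basis hloc hTD hss hCl
  have hv : ∀ i : ι, ∃ v : D →ₗ[R] N, ∀ d, π (v d) = b.symm (Finsupp.single i d) := by
    intro i
    obtain ⟨T, h1, h2, h3, -⟩ := hex (Set.range fun d : D => s (b.symm (Finsupp.single i d)))
      (Set.countable_range _) (fun _ => ∅) (fun _ => Set.countable_empty)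
    obtain ⟨r, hr1, hr2, hr3⟩ := hret T h2
    obtain ⟨p, k, hp, hk⟩ := exists_compl2 r hr1 hr2 hr3
    let u : D →ₗ[R] T.map π := LinearMap.codRestrict _ (b.symm.toLinearMap ∘ₗ Finsupp.lsingle i)
      (fun d => ⟨s (b.symm (Finsupp.single i d)), h3 ⟨d, rfl⟩, hs _⟩)
    refine ⟨T.subtype ∘ₗ (LinearMap.ker p).subtype ∘ₗ k.symm.toLinearMap ∘ₗ u, fun d => ?_⟩
    have h5 := hk (k.symm (u d))
    rw [LinearEquiv.apply_symm_apply] at h5
    exact h5.symm
  choose v hv using hv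
  let L : (ι →₀ D) →ₗ[R] N := Finsupp.lsum ℕ v
  have hL : ∀ w, π (L w) = b.symm w := by
    intro w
    have : π ∘ₗ L = b.symm.toLinearMap := by
      refine Finsupp.lhom_ext fun i d => ?_
      rw [LinearMap.comp_apply]
      show π (Finsupp.lsum ℕ v (Finsupp.single i d)) = _
      rw [Finsupp.lsum_single, hv]
      rfl
    exact LinearMap.congr_fun this w
  let σ : (N ⧸ S) →ₗ[R] N := L ∘ₗ b.toLinearMap
  have hσ : ∀ x, π (σ x) = x := by
    intro x
    show π (L (b x)) = x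
    rw [hL, LinearEquiv.symm_apply_apply]
  let k1 := splitEquiv σ π hσ
  let k2 : LinearMap.ker π ≃ₗ[R] S := LinearEquiv.ofEq _ _ (Submodule.ker_mkQ S)
  refine ⟨ι, k1.trans ((LinearEquiv.prodCongr b k2).trans (LinearEquiv.prodComm R _ _)),
    fun s => ?_⟩
  rw [← LinearEquiv.eq_symm_apply]
  show (s : N) = σ (b.symm 0) + ((k2.symm s : LinearMap.ker π) : N)
  rw [map_zero, map_zero, zero_add]
  rfl

/-- closure functions for a member and a strong submodule -/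
theorem exists_rel_closure [Countable R] {K : KK R} {E : Type} [AddCommGroup E] [Module R E]
    [Countable E] (σ : Fml R 0) (φ : ∀ n, (Fin n → E) → Fml R n)
    (hσ : ∀ (N : Type) [AddCommGroup N] [Module R N], Holds σ N → ScottGood φ N)
    {N : Type} [AddCommGroup N] [Module R N] {S : Submodule R N} (hS : K.le S ⊤)
    (hN : Holds σ N) (hSσ : Holds σ S) :
    ∃ c : Finset N → Set N, (∀ F, (c F).Countable) ∧ ∀ T : Submodule R N, Cb c T →
      K.le (T ⊓ S) T ∧ Nonempty ((T ⊓ S : Submodule R N) ≃ₗ[R] E) ∧ Nonempty (T ≃ₗ[R] E) := by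
  classical
  obtain ⟨cs, hcs1, hcs2, -⟩ := exists_scott_closure E σ φ hσ N hN
  obtain ⟨ck, hck1, hck2⟩ := KK.exists_strong (KK.top_iff.2 hS.mem_right)
  obtain ⟨cs', hcs1', hcs2', -⟩ := exists_scott_closure E σ φ hσ S hSσ
  obtain ⟨ck', hck1', hck2'⟩ := KK.exists_strong hS.mem_left
  let c' : Finset N → Set N := fun F => ⋃ F' ∈ (F.subtype (fun x => x ∈ S)).powerset,
    Subtype.val '' (cs' F' ∪ ck' F')
  have hc' : ∀ F, (c' F).Countable := fun F => Set.Countable.biUnion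
    (Finset.countable_toSet _) fun F' _ => ((hcs1' F').union (hck1' F')).image _
  refine ⟨fun F => (cs F ∪ ck F) ∪ c' F, fun F => ((hcs1 F).union (hck1 F)).union (hc' F),
    fun T hT => ?_⟩
  have h1 : Closed cs (T : Set N) := fun F hF x hx => hT.2 F hF (Or.inl (Or.inl hx))
  have h2 : Closed ck (T : Set N) := fun F hF x hx => hT.2 F hF (Or.inl (Or.inr hx))
  have h3 : ∀ F' : Finset S, (↑F' : Set S) ⊆ (T.comap S.subtype : Set S) →
      cs' F' ∪ ck' F' ⊆ (T.comap S.subtype : Set S) := by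
    intro F' hF' x hx
    refine hT.2 (F'.image Subtype.val) ?_ (Or.inr (Set.mem_biUnion (x := F') ?_ ⟨x, hx, rfl⟩))
    · intro y hy
      rw [Finset.coe_image] at hy
      obtain ⟨y', hy', rfl⟩ := hy
      exact hF' hy'
    · rw [Finset.mem_coe, Finset.mem_powerset]
      intro y hy
      rw [Finset.mem_subtype]
      exact Finset.mem_image_of_mem _ hy
  have h4 : Closed cs' (T.comap S.subtype : Set S) := fun F hF x hx => h3 F hF (Or.inl hx)
  have h5 : Closed ck' (T.comap S.subtype : Set S) := fun F hF x hx => h3 F hF (Or.inr hx)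
  have h6 : (T.comap S.subtype : Set S).Countable := hT.1.preimage Subtype.val_injective
  have h7 : (T ⊓ S).comap S.subtype = T.comap S.subtype := by
    ext x
    exact ⟨fun h => h.1, fun h => ⟨h, x.2⟩⟩
  have h8 : K.le (T ⊓ S) S := by
    refine KK.of_le_comap inf_le_right ?_
    rw [h7]
    exact hck2' _ h5
  refine ⟨(h8.trans hS).coh (hck2 _ h2) inf_le_left, ?_, hcs2 T hT.1 h1⟩
  obtain ⟨u⟩ := hcs2' _ h6 h4
  exact ⟨((Submodule.comapSubtypeEquivOfLe (inf_le_right : T ⊓ S ≤ S)).symm.trans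
    (LinearEquiv.ofEq _ _ h7)).trans u⟩

/-- The main theorem about a strong submodule: it is a direct summand and the complement is a
direct sum of copies of `D`. -/
theorem main_over [Countable R] (K : KK R) (μ : Cardinal.{0}) (hμH : hanf ℵ₀ ≤ μ)
    (huniq : UniqK K μ)
    (hex : ∃ (M : Type) (_ : AddCommGroup M) (_ : Module R M), #M = μ ∧ K.mem M) :
    (∀ χ, hanf ℵ₀ ≤ χ → UniqK K χ) ∧
    ∃ (D : Type) (_ : AddCommGroup D) (_ : Module R D), Countable D ∧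
      ∀ (M N : Type) [AddCommGroup M] [Module R M] [AddCommGroup N] [Module R N]
        (f : M →ₗ[R] N), K.emb f → hanf ℵ₀ ≤ #M → #M = #N →
        ∃ (ι : Type) (k : N ≃ₗ[R] (M × (ι →₀ D))), ∀ x, k (f x) = (x, 0) := by
  classical
  have hlim := del_lim (lam := ℵ₀) le_rfl
  have hbf : ∀ α : Ordinal.{0}, α < del ℵ₀ → bethFrom ℵ₀ α < hanf ℵ₀ := by
    intro α hα
    have h1 : bethFrom ℵ₀ (α + 1) ≤ hanf ℵ₀ := by
      refine bethFrom_le_limit ℵ₀ hlim ?_
      rw [← Order.succ_eq_add_one]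
      exact hlim.succ_lt hα
    rw [bethFrom_succ] at h1
    exact (Cardinal.cantor _).trans_le h1
  have hH : ℵ₀ < hanf ℵ₀ := by
    have h0 := hbf 0 hlim.bot_lt
    rwa [bethFrom_zero] at h0
  have hμ : ℵ₀ < μ := hH.trans_le hμH
  -- uniqueness in all cardinals
  obtain ⟨E₀, j1, j2, D₀, j3, j4, z₀, hE₀, hD₀, -, -, -, hst⟩ := main_KK K μ hμH huniq hex
  have hall : ∀ χ, hanf ℵ₀ ≤ χ → UniqK K χ := by
    intro χ hχ M N _ _ _ _ hMc hNc hM hN
    obtain ⟨κ, hκ, ⟨f⟩⟩ := hst M hM (hχ.trans_eq hMc.symm)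
    obtain ⟨κ', hκ', ⟨f'⟩⟩ := hst N hN (hχ.trans_eq hNc.symm)
    obtain ⟨g⟩ : Nonempty (κ ≃ κ') := Cardinal.eq.1 (by rw [hκ, hκ', hMc, hNc])
    exact ⟨f.trans ((LinearEquiv.prodCongr (LinearEquiv.refl R _)
      (Finsupp.domLCongr g)).trans f'.symm)⟩
  refine ⟨hall, ?_⟩
  have hsplit : ∀ (M N : Type) [AddCommGroup M] [Module R M] [AddCommGroup N] [Module R N]
      (f : M →ₗ[R] N), K.emb f → hanf ℵ₀ ≤ #M → #M = #N →
      ∃ r : N →ₗ[R] M, ∀ x, r (f x) = x := by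
    intro M N _ _ _ _ f hf hM hMN
    have hMa : ℵ₀ ≤ #M := hH.le.trans hM
    refine strong_split hMa (hall _ hM) (fun L _ _ hL hLc => ?_) rfl hMN.symm hf
    obtain ⟨κ, -, hf⟩ := hst L hL (by rw [hLc]; exact hM.trans (Order.le_succ _))
    exact ⟨E₀, j1, j2, D₀, j3, j4, κ, mk_le_aleph0.trans hMa, mk_le_aleph0.trans hMa, hf⟩
  -- the Scott sentence
  obtain ⟨M, iM1, iM2, hMc, hM⟩ := hex
  obtain ⟨E, iE1, iE2, X, iX1, iX2, hEc, hXc, hXn, -, hab, habs⟩ := em_K hM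
    (fun α hα => (hbf α hα).le.trans (hμH.trans_eq hMc.symm)) (.lin fun _ => 0) (by
      show (∑ i : Fin 0, _) = _
      simp)
  let C : Type := ℕ →₀ X
  haveI : Countable C := inferInstanceAs (Countable (ℕ →₀ X))
  obtain ⟨x0, hx0⟩ := exists_ne (0 : X)
  haveI : Nontrivial C := ⟨⟨Finsupp.single 0 x0, 0, fun h => hx0 (Finsupp.single_eq_zero.1 h)⟩⟩
  obtain ⟨e⟩ : Nonempty (C ≃ₗ[R] (ℕ →₀ C)) := pow_pow (R := R) X
  have hE : Abs K (E × C) C := habs.pows
  obtain ⟨D, iD1, iD2, z, hDc, hloc, hTP, hTP', ⟨ε⟩, hss⟩ := exists_DK hμ huniq e hE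
  obtain ⟨σ, φ, hσ1, hσ2⟩ := exists_scott (R := R) (E × C)
  let I : Type := μ.out
  have hI : #I = μ := mk_out μ
  haveI : Infinite I := infinite_iff.2 (by rw [hI]; exact hμ.le)
  obtain ⟨h1, h2⟩ := model_K (I := I) hE
  obtain ⟨θ⟩ : Nonempty ((C × C) ≃ₗ[R] C) := absorb e LinearMap.id LinearMap.id fun _ => rfl
  have habE : Ab R (E × C) C := (ab_of e θ).prod
  have h1σ : Holds σ ((E × C) × (I →₀ C)) := (sim_holds (ab_sim habE I) σ).2 hσ1
  have hscott : ∀ (N : Type) [AddCommGroup N] [Module R N], K.mem N → hanf ℵ₀ ≤ #N →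
      Holds σ N := by
    intro N _ _ hN hc
    by_contra hcon
    obtain ⟨E', iE1', iE2', X', iX1', iX2', hEc', hXc', hXn', hEψ', hab', habs'⟩ :=
      em_K hN (fun α hα => (hbf α hα).le.trans hc) (.neg σ) hcon
    haveI : Infinite (I →₀ X') := by
      rw [infinite_iff, mk_pow']; exact infinite_iff.1 inferInstance
    have h3 : #(E' × (I →₀ X')) = μ := by rw [mk_prod_count, mk_pow', hI]
    obtain ⟨Θ⟩ := huniq _ _ h3 (h2.trans hI) (pow_mem habs' I) h1
    have h4 : ¬ Holds σ (E' × (I →₀ X')) := (sim_holds (ab_sim hab' I) (.neg σ)).2 hEψ'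
    exact h4 ((holds_iso σ Θ).2 h1σ)
  refine ⟨D, iD1, iD2, hDc, fun M N _ _ _ _ f hf hM hMN => ?_⟩
  obtain ⟨r, hr⟩ := hsplit M N f hf hM hMN
  have hinj := K.inj _ hf
  let S : Submodule R N := LinearMap.range f
  let u : M ≃ₗ[R] S := LinearEquiv.ofInjective f hinj
  have hS : K.le S ⊤ := (KK.emb_iff hinj).1 hf
  have hSc : hanf ℵ₀ ≤ #S := hM.trans_eq (mk_congr u.toEquiv)
  obtain ⟨c, hc1, hc2⟩ := exists_rel_closure σ φ hσ2 hS
    (hscott N (K.emb_mem _ hf).2 (hM.trans_eq hMN)) (hscott S hS.mem_left hSc)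
  obtain ⟨ι, k, hk⟩ := structure_split hμ huniq e hE hloc hTP' ε hss c hc1 (S := S) (f ∘ₗ r)
    (fun x => ⟨r x, rfl⟩) (by
      rintro _ ⟨x, rfl⟩
      show f (r (f x)) = f x
      rw [hr]) hc2
  refine ⟨ι, k.trans (LinearEquiv.prodCongr u.symm (LinearEquiv.refl R _)), fun x => ?_⟩
  have h5 : k (f x) = (u x, 0) := hk (u x)
  show (u.symm (k (f x)).1, (k (f x)).2) = (x, 0)
  rw [h5]
  show (u.symm (u x), (0 : ι →₀ D)) = (x, 0)
  rw [LinearEquiv.symm_apply_apply]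

end Pool.Agent.Y583.MC
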