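import Pool.Agent.Y583.MG3
import Pool.Agent.Y583.MF13

set_option autoImplicit false

/-!
Abstract elementary classes of modules: embeddings as linear maps.
-/

namespace Pool.Agent.Y583.MC

open Cardinal FirstOrder Pool.Agent.TH767.DS
open Pool.Agent.H288R4.LS (hanf)

attribute [local instance] modStr

variable {R : Type} [Ring R]

section
variable {M N : Type} [AddCommGroup M] [Module R M] [AddCommGroup N] [Module R N]

/-- embeddings of modules are linear -/
def embLin (f : M ↪[Lmod R] N) : M →ₗ[R] N where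
  toFun := f
  map_add' x y := f.map_fun' (n := 2) (ModFun.add : ModFun R 2) ![x, y]
  map_smul' r x := f.map_fun' (n := 1) (ModFun.smul r : ModFun R 1) ![x]

theorem linEmb_embLin (f : M ↪[Lmod R] N) : linEmb (embLin f) f.injective = f := by
  ext x
  rfl

theorem KKof_emb (K : AEC (Lmod R)) (hLS : K.LSat ℵ₀) (f : M ↪[Lmod R] N) (hf : K.emb f) :
    (KKof K hLS).emb (embLin f) := by
  refine ⟨f.injective, ?_⟩
  rw [linEmb_embLin]
  exact hf

end

theorem main_over_AEC [Countable R] (K : AEC (Lmod R)) (hLS : K.LSat ℵ₀)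
    (hmod : ∀ (N : Type) (S : (Lmod R).Structure N), @AEC.mem _ K N S → IsMod R N S)
    (μ : Cardinal.{0}) (hμ : hanf ℵ₀ ≤ μ) (hcat : K.Categorical μ) :
    (∀ χ, hanf ℵ₀ ≤ χ → UniqK (KKof K hLS) χ) ∧
    ∃ (D : Type) (_ : AddCommGroup D) (_ : Module R D), Countable D ∧
      ∀ (M N : Type) [AddCommGroup M] [Module R M] [AddCommGroup N] [Module R N]
        (f : M →ₗ[R] N), (KKof K hLS).emb f → hanf ℵ₀ ≤ #M → #M = #N →
        ∃ (ι : Type) (k : N ≃ₗ[R] (M × (ι →₀ D))), ∀ x, k (f x) = (x, 0) := by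
  have huniq : UniqK (KKof K hLS) μ := by
    intro M N _ _ _ _ hM hN h h'
    obtain ⟨e⟩ := hcat.2 M N h h' hM hN
    exact ⟨isoLin e⟩
  have hex : ∃ (M : Type) (_ : AddCommGroup M) (_ : Module R M), #M = μ ∧ (KKof K hLS).mem M := by
    obtain ⟨M, S, hM, hMc⟩ := hcat.1
    obtain ⟨i1, i2, rfl⟩ := hmod M S hM
    exact ⟨M, i1, i2, hMc, hM⟩
  exact main_over (KKof K hLS) μ hμ huniq hex

end Pool.Agent.Y583.MC
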