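import Pool.Agent.Y583.MG5

set_option autoImplicit false

/-!
Infinite direct sums of copies of `D` are strong complements; extension of strong embeddings.
-/

namespace Pool.Agent.Y583.MC

open Cardinal Pool.Agent.W879.AE
open Pool.Agent.H288R4.LS (bethFrom hanf bethFrom_succ bethFrom_zero bethFrom_le_limit)

variable {R : Type} [Ring R]

/-- joining two direct powers -/
theorem joinE (M ι ι' D : Type) [AddCommGroup M] [Module R M] [AddCommGroup D] [Module R D] :
    ∃ τ : ((M × (ι →₀ D)) × (ι' →₀ D)) ≃ₗ[R] (M × (ι ⊕ ι' →₀ D)),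
      ∀ x : M × (ι →₀ D), τ (x, 0) = (x.1, Finsupp.mapDomain Sum.inl x.2) := by
  classical
  let τ : ((M × (ι →₀ D)) × (ι' →₀ D)) ≃ₗ[R] (M × (ι ⊕ ι' →₀ D)) :=
    LinearEquiv.trans
      { toFun := fun x => (x.1.1, (x.1.2, x.2))
        invFun := fun x => ((x.1, x.2.1), x.2.2)
        left_inv := fun x => rfl
        right_inv := fun x => rfl
        map_add' := fun x y => rfl
        map_smul' := fun r x => rfl }
      (LinearEquiv.prodCongr (LinearEquiv.refl R M) (Finsupp.sumFinsuppLEquivProdFinsupp R).symm)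
  refine ⟨τ, ?_⟩
  rintro ⟨a, w⟩
  refine Prod.ext rfl (Finsupp.ext fun i => ?_)
  show ((Finsupp.sumFinsuppLEquivProdFinsupp R).symm (w, 0)) i = (Finsupp.mapDomain Sum.inl w) i
  rcases i with i | i
  · rw [Finsupp.sumFinsuppLEquivProdFinsupp_symm_inl, Finsupp.mapDomain_apply Sum.inl_injective]
  · rw [Finsupp.sumFinsuppLEquivProdFinsupp_symm_inr,
      Finsupp.mapDomain_notin_range _ _ (by simp)]
    rfl

/-- swapping two factors -/
def swp (A B C : Type) [AddCommGroup A] [Module R A] [AddCommGroup B] [Module R B]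
    [AddCommGroup C] [Module R C] : ((A × B) × C) ≃ₗ[R] ((A × C) × B) where
  toFun x := ((x.1.1, x.2), x.1.2)
  invFun x := ((x.1.1, x.2), x.1.2)
  left_inv x := rfl
  right_inv x := rfl
  map_add' x y := rfl
  map_smul' r x := rfl

section
variable {K : KK R}

/-- infinite powers of `D` are strong complements -/
theorem inl_strong {E C D : Type} [AddCommGroup E] [Module R E] [AddCommGroup C] [Module R C]
    [AddCommGroup D] [Module R D] (hE : Abs K E C) (ε : (ℕ →₀ D) ≃ₗ[R] C)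
    {N : Type} [AddCommGroup N] [Module R N] {κ : Type} (θ : N ≃ₗ[R] (E × (κ →₀ C)))
    (ρ : Type) [Infinite ρ] : K.emb (LinearMap.inl R N (ρ →₀ D)) := by
  obtain ⟨τ, hτ⟩ := joinE (R := R) E κ ρ C
  obtain ⟨f⟩ := pow_CD ε ρ
  have h1 := emb_mp hE (Sum.inl_injective (α := κ) (β := ρ))
  refine K.emb_congr θ.symm (τ.symm.trans (LinearEquiv.prodCongr θ.symm f)) _ _ (fun x => ?_) h1
  show (θ.symm x, (0 : ρ →₀ D)) = (θ.symm (τ.symm (mp E C Sum.inl x)).1,
    f (τ.symm (mp E C Sum.inl x)).2)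
  have h2 : mp (R := R) E C (Sum.inl : κ → κ ⊕ ρ) x = τ (x, 0) := by
    rw [hτ]
    rfl
  rw [h2, LinearEquiv.symm_apply_apply]
  show (θ.symm x, (0 : ρ →₀ D)) = (θ.symm x, f 0)
  rw [map_zero]

/-- extending a strong embedding by a direct summand -/
theorem emb_extend {D : Type} [AddCommGroup D] [Module R D] {B P Z : Type} [AddCommGroup B]
    [Module R B] [AddCommGroup P] [Module R P] [AddCommGroup Z] [Module R Z]
    (g : B →ₗ[R] P) {ρ : Type} (k : P ≃ₗ[R] (B × (ρ →₀ D))) (hk : ∀ x, k (g x) = (x, 0))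
    (hinl : K.emb (LinearMap.inl R (B × Z) (ρ ⊕ ℕ →₀ D))) :
    ∃ h : (B × Z) →ₗ[R] ((P × (ℕ →₀ D)) × Z), K.emb h ∧ ∀ x z, h (x, z) = ((g x, 0), z) := by
  obtain ⟨τ, hτ⟩ := joinE (R := R) B ρ ℕ D
  let h : (B × Z) →ₗ[R] ((P × (ℕ →₀ D)) × Z) :=
    { toFun := fun x => ((g x.1, 0), x.2)
      map_add' := fun x y => by
        show ((g (x.1 + y.1), (0 : ℕ →₀ D)), x.2 + y.2) = ((g x.1 + g y.1, 0 + 0), x.2 + y.2)
        rw [map_add, add_zero]
      map_smul' := fun r x => by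
        show ((g (r • x.1), (0 : ℕ →₀ D)), r • x.2) = ((r • g x.1, r • (0 : ℕ →₀ D)), r • x.2)
        rw [map_smul, smul_zero] }
  let e₂ : ((P × (ℕ →₀ D)) × Z) ≃ₗ[R] ((B × Z) × (ρ ⊕ ℕ →₀ D)) :=
    (LinearEquiv.prodCongr ((LinearEquiv.prodCongr k (LinearEquiv.refl R _)).trans τ)
      (LinearEquiv.refl R Z)).trans (swp B (ρ ⊕ ℕ →₀ D) Z)
  have he : ∀ x : B × Z, e₂ (h x) = (x, 0) := by
    rintro ⟨x, z⟩
    show (((τ (k (g x), 0)).1, z), (τ (k (g x), 0)).2) = ((x, z), 0)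
    rw [hk, hτ]
    show ((x, z), Finsupp.mapDomain Sum.inl (0 : ρ →₀ D)) = ((x, z), 0)
    rw [Finsupp.mapDomain_zero]
  refine ⟨h, K.emb_congr (LinearEquiv.refl R _) e₂.symm _ h (fun x => ?_) hinl, fun x z => rfl⟩
  show h x = e₂.symm (x, 0)
  rw [← he, LinearEquiv.symm_apply_apply]

/-- a small strong submodule containing a given small set -/
theorem small_set [Countable R] {M N : Type} [AddCommGroup M] [Module R M] [AddCommGroup N]
    [Module R N] (f : M →ₗ[R] N) (hf : K.emb f) (X : Set N) (hX : #X ≤ #M) (hM : ℵ₀ ≤ #M) :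
    ∃ S : Submodule R N, #S = #M ∧ X ⊆ S ∧ (∀ x, f x ∈ S) ∧ K.emb S.subtype := by
  classical
  obtain ⟨c, hc1, hc2⟩ := KK.exists_strong (K.emb_mem _ hf).2
  obtain ⟨S, h1, h2, h3, -⟩ := lowenheim (R := R) (N := N) (.lin fun _ => 0) (by
    show (∑ i : Fin 0, _) = _
    simp) c hc1 #M hM (X ∪ Set.range f) (by
      refine (mk_union_le _ _).trans ?_
      exact add_le_of_le hM hX mk_range_le)
  have h4 : ∀ x, f x ∈ S := fun x => h1 (Or.inr ⟨x, rfl⟩)
  have hinj : Function.Injective (fun x => (⟨f x, h4 x⟩ : S)) :=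
    fun x y h => K.inj _ hf (congrArg Subtype.val h)
  exact ⟨S, le_antisymm h2 (mk_le_of_injective hinj), fun x hx => h1 (Or.inl hx), h4,
    KK.subtype_iff.2 (hc2 S h3)⟩

/-- a small direct summand that contains two given elements -/
theorem exists_base {E D : Type} [AddCommGroup E] [Module R E] [AddCommGroup D] [Module R D]
    [Countable E] [Countable D] [Nontrivial D] {M : Type} [AddCommGroup M] [Module R M] {κ : Type}
    (θ : M ≃ₗ[R] (E × (κ →₀ D))) {ν : Cardinal.{0}} (hν : ℵ₀ ≤ ν) (hκ : ν < #κ) (m m' : M) :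
    ∃ (J J' : Type) (nu : ((E × (J →₀ D)) × (J' →₀ D)) ≃ₗ[R] M) (b b' : E × (J →₀ D)),
      Infinite J ∧ Infinite J' ∧ #(E × (J →₀ D)) = ν ∧ nu (b, 0) = m ∧ nu (b', 0) = m' := by
  classical
  obtain ⟨J₀, hJ₀⟩ := le_mk_iff_exists_set.1 hκ.le
  let J : Set κ := J₀ ∪ (↑(θ m).2.support ∪ ↑(θ m').2.support)
  have hJ : #J = ν := by
    apply le_antisymm
    · refine (mk_union_le _ _).trans (add_le_of_le hν hJ₀.le ?_)
      exact (((Finset.countable_toSet _).union (Finset.countable_toSet _)).le_aleph0).trans hν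
    · rw [← hJ₀]
      exact mk_le_mk_of_subset Set.subset_union_left
  have hinfJ : Infinite J := infinite_iff.2 (by rw [hJ]; exact hν)
  have hinfJ' : Infinite (Jᶜ : Set κ) := by
    rw [infinite_iff]
    by_contra hlt
    rw [not_le] at hlt
    have h1 : #κ ≤ ν := by
      rw [← mk_sum_compl J, hJ]
      exact add_le_of_le hν le_rfl (hlt.le.trans hν)
    exact absurd hκ (not_lt.2 h1)
  obtain ⟨τ, hτ⟩ := joinE (R := R) E J (Jᶜ : Set κ) D
  let π : (J ⊕ (Jᶜ : Set κ)) ≃ κ := Equiv.Set.sumCompl J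
  let Θ : (E × (J ⊕ (Jᶜ : Set κ) →₀ D)) ≃ₗ[R] (E × (κ →₀ D)) :=
    LinearEquiv.prodCongr (LinearEquiv.refl R _) (Finsupp.domLCongr π)
  have hΘ : ∀ x, Θ x = (x.1, Finsupp.mapDomain π x.2) := fun x =>
    Prod.ext rfl (Finsupp.equivMapDomain_eq_mapDomain π x.2)
  have key : ∀ x : E × (κ →₀ D), (↑x.2.support : Set κ) ⊆ J →
      ∃ b : E × (J →₀ D), Θ (τ (b, 0)) = x := by
    rintro ⟨a, w⟩ hw
    refine ⟨(a, Finsupp.comapDomain Subtype.val w Subtype.val_injective.injOn), ?_⟩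
    rw [hτ, hΘ]
    refine Prod.ext rfl ?_
    show Finsupp.mapDomain π (Finsupp.mapDomain Sum.inl
      (Finsupp.comapDomain Subtype.val w Subtype.val_injective.injOn)) = w
    rw [← Finsupp.mapDomain_comp]
    have h1 : (π ∘ Sum.inl : J → κ) = Subtype.val := by
      funext j
      exact Equiv.Set.sumCompl_apply_inl J j
    rw [h1]
    refine Finsupp.mapDomain_comapDomain _ Subtype.val_injective w ?_
    intro x hx
    exact ⟨⟨x, hw hx⟩, rfl⟩
  obtain ⟨b, hb⟩ := key (θ m) (Set.subset_union_of_subset_right Set.subset_union_left _)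
  obtain ⟨b', hb'⟩ := key (θ m') (Set.subset_union_of_subset_right Set.subset_union_right _)
  refine ⟨J, (Jᶜ : Set κ), (τ.trans Θ).trans θ.symm, b, b', hinfJ, hinfJ', ?_, ?_, ?_⟩
  · rw [mk_prod, Cardinal.lift_id, Cardinal.lift_id,
      mk_pow J D ((mk_le_aleph0).trans (infinite_iff.1 hinfJ)), hJ]
    have hE0 : #E ≠ 0 := mk_ne_zero _
    exact mul_eq_right hν (mk_le_aleph0.trans hν) hE0
  · show θ.symm (Θ (τ (b, 0))) = m
    rw [hb, LinearEquiv.symm_apply_apply]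
  · show θ.symm (Θ (τ (b', 0))) = m'
    rw [hb', LinearEquiv.symm_apply_apply]

end

end Pool.Agent.Y583.MC
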