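import Pool.Agent.Y583.MG6

set_option autoImplicit false

/-!
Tameness of Galois types, in the internal form.
-/

namespace Pool.Agent.Y583.MC

open Cardinal Pool.Agent.W879.AE
open Pool.Agent.H288R4.LS (bethFrom hanf bethFrom_succ bethFrom_zero bethFrom_le_limit)

variable {R : Type} [Ring R]

/-- the structure of a categorical class, collected -/
structure Coll (K : KK R) (E D : Type) [AddCommGroup E] [Module R E] [AddCommGroup D]
    [Module R D] : Prop where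
  cE : Countable E
  cD : Countable D
  nt : Nontrivial D
  all : ∀ χ, hanf ℵ₀ ≤ χ → UniqK K χ
  ovr : ∀ (M N : Type) [AddCommGroup M] [Module R M] [AddCommGroup N] [Module R N]
        (f : M →ₗ[R] N), K.emb f → hanf ℵ₀ ≤ #M → #M = #N →
        ∃ (ι : Type) (k : N ≃ₗ[R] (M × (ι →₀ D))), ∀ x, k (f x) = (x, 0)
  str : ∀ (N : Type) [AddCommGroup N] [Module R N], K.mem N → hanf ℵ₀ ≤ #N →
    ∃ κ : Type, #κ = #N ∧ Nonempty (N ≃ₗ[R] (E × (κ →₀ D)))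
  mem : ∀ (κ : Type) [Infinite κ], K.mem (E × (κ →₀ D))
  inl : ∀ (N : Type) [AddCommGroup N] [Module R N], K.mem N → hanf ℵ₀ ≤ #N →
    ∀ (ρ : Type) [Infinite ρ], K.emb (LinearMap.inl R N (ρ →₀ D))

theorem main_coll [Countable R] (K : KK R) (μ : Cardinal.{0}) (hμH : hanf ℵ₀ ≤ μ)
    (huniq : UniqK K μ)
    (hex : ∃ (M : Type) (_ : AddCommGroup M) (_ : Module R M), #M = μ ∧ K.mem M) :
    ∃ (E : Type) (_ : AddCommGroup E) (_ : Module R E) (D : Type) (_ : AddCommGroup D)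
      (_ : Module R D), Coll K E D := by
  classical
  have hlim := del_lim (lam := ℵ₀) le_rfl
  have hbf : ∀ α : Ordinal.{0}, α < del ℵ₀ → bethFrom ℵ₀ α < hanf ℵ₀ := by
    intro α hα
    have h1 : bethFrom ℵ₀ (α + 1) ≤ hanf ℵ₀ := by
      refine bethFrom_le_limit ℵ₀ hlim ?_
      rw [← Order.succ_eq_add_one]
      exact hlim.succ_lt hα
    rw [bethFrom_succ] at h1
    exact (Cardinal.cantor _).trans_le h1
  have hH : ℵ₀ < hanf ℵ₀ := by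
    have h0 := hbf 0 hlim.bot_lt
    rwa [bethFrom_zero] at h0
  have hμ : ℵ₀ < μ := hH.trans_le hμH
  -- uniqueness in all cardinals
  obtain ⟨E₀, j1, j2, D₀, j3, j4, z₀, hE₀, hD₀, -, -, -, hst⟩ := main_KK K μ hμH huniq hex
  have hall : ∀ χ, hanf ℵ₀ ≤ χ → UniqK K χ := by
    intro χ hχ M N _ _ _ _ hMc hNc hM hN
    obtain ⟨κ, hκ, ⟨f⟩⟩ := hst M hM (hχ.trans_eq hMc.symm)
    obtain ⟨κ', hκ', ⟨f'⟩⟩ := hst N hN (hχ.trans_eq hNc.symm)
    obtain ⟨g⟩ : Nonempty (κ ≃ κ') := Cardinal.eq.1 (by rw [hκ, hκ', hMc, hNc])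
    exact ⟨f.trans ((LinearEquiv.prodCongr (LinearEquiv.refl R _)
      (Finsupp.domLCongr g)).trans f'.symm)⟩
  have hsplit : ∀ (M N : Type) [AddCommGroup M] [Module R M] [AddCommGroup N] [Module R N]
      (f : M →ₗ[R] N), K.emb f → hanf ℵ₀ ≤ #M → #M = #N →
      ∃ r : N →ₗ[R] M, ∀ x, r (f x) = x := by
    intro M N _ _ _ _ f hf hM hMN
    have hMa : ℵ₀ ≤ #M := hH.le.trans hM
    refine strong_split hMa (hall _ hM) (fun L _ _ hL hLc => ?_) rfl hMN.symm hf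
    obtain ⟨κ, -, hf⟩ := hst L hL (by rw [hLc]; exact hM.trans (Order.le_succ _))
    exact ⟨E₀, j1, j2, D₀, j3, j4, κ, mk_le_aleph0.trans hMa, mk_le_aleph0.trans hMa, hf⟩
  -- the Scott sentence
  obtain ⟨M, iM1, iM2, hMc, hM⟩ := hex
  obtain ⟨E, iE1, iE2, X, iX1, iX2, hEc, hXc, hXn, -, hab, habs⟩ := em_K hM
    (fun α hα => (hbf α hα).le.trans (hμH.trans_eq hMc.symm)) (.lin fun _ => 0) (by
      show (∑ i : Fin 0, _) = _
      simp)
  let C : Type := ℕ →₀ X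
  haveI : Countable C := inferInstanceAs (Countable (ℕ →₀ X))
  obtain ⟨x0, hx0⟩ := exists_ne (0 : X)
  haveI : Nontrivial C := ⟨⟨Finsupp.single 0 x0, 0, fun h => hx0 (Finsupp.single_eq_zero.1 h)⟩⟩
  obtain ⟨e⟩ : Nonempty (C ≃ₗ[R] (ℕ →₀ C)) := pow_pow (R := R) X
  have hE : Abs K (E × C) C := habs.pows
  obtain ⟨D, iD1, iD2, z, hDc, hloc, hTP, hTP', ⟨ε⟩, hss⟩ := exists_DK hμ huniq e hE
  obtain ⟨σ, φ, hσ1, hσ2⟩ := exists_scott (R := R) (E × C)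
  let I : Type := μ.out
  have hI : #I = μ := mk_out μ
  haveI : Infinite I := infinite_iff.2 (by rw [hI]; exact hμ.le)
  obtain ⟨h1, h2⟩ := model_K (I := I) hE
  obtain ⟨θ⟩ : Nonempty ((C × C) ≃ₗ[R] C) := absorb e LinearMap.id LinearMap.id fun _ => rfl
  have habE : Ab R (E × C) C := (ab_of e θ).prod
  have h1σ : Holds σ ((E × C) × (I →₀ C)) := (sim_holds (ab_sim habE I) σ).2 hσ1
  have hscott : ∀ (N : Type) [AddCommGroup N] [Module R N], K.mem N → hanf ℵ₀ ≤ #N →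
      Holds σ N := by
    intro N _ _ hN hc
    by_contra hcon
    obtain ⟨E', iE1', iE2', X', iX1', iX2', hEc', hXc', hXn', hEψ', hab', habs'⟩ :=
      em_K hN (fun α hα => (hbf α hα).le.trans hc) (.neg σ) hcon
    haveI : Infinite (I →₀ X') := by
      rw [infinite_iff, mk_pow']; exact infinite_iff.1 inferInstance
    have h3 : #(E' × (I →₀ X')) = μ := by rw [mk_prod_count, mk_pow', hI]
    obtain ⟨Θ⟩ := huniq _ _ h3 (h2.trans hI) (pow_mem habs' I) h1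
    have h4 : ¬ Holds σ (E' × (I →₀ X')) := (sim_holds (ab_sim hab' I) (.neg σ)).2 hEψ'
    exact h4 ((holds_iso σ Θ).2 h1σ)
  have hC : ∀ (N : Type) [AddCommGroup N] [Module R N], K.mem N → hanf ℵ₀ ≤ #N →
      ∃ κ : Type, Infinite κ ∧ #κ = #N ∧ Nonempty (N ≃ₗ[R] ((E × C) × (κ →₀ C))) := by
    intro N _ _ hN hc
    let κ : Type := (#N).out
    have hκ : #κ = #N := mk_out _
    haveI : Infinite κ := infinite_iff.2 (by rw [hκ]; exact hH.le.trans hc)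
    obtain ⟨m1, m2⟩ := model_K (I := κ) hE
    exact ⟨κ, inferInstance, hκ, hall _ hc N _ rfl (m2.trans hκ) hN m1⟩
  refine ⟨E × C, inferInstance, inferInstance, D, iD1, iD2, inferInstance, hDc,
    ⟨⟨z, 0, hloc.1⟩⟩, hall, fun M N _ _ _ _ f hf hM hMN => ?_, fun N _ _ hN hc => ?_,
    fun κ hκ => ?_, fun N _ _ hN hc ρ hρ => ?_⟩
  · obtain ⟨r, hr⟩ := hsplit M N f hf hM hMN
    have hinj := K.inj _ hf
    let S : Submodule R N := LinearMap.range f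
    let u : M ≃ₗ[R] S := LinearEquiv.ofInjective f hinj
    have hS : K.le S ⊤ := (KK.emb_iff hinj).1 hf
    have hSc : hanf ℵ₀ ≤ #S := hM.trans_eq (mk_congr u.toEquiv)
    obtain ⟨c, hc1, hc2⟩ := exists_rel_closure σ φ hσ2 hS
      (hscott N (K.emb_mem _ hf).2 (hM.trans_eq hMN)) (hscott S hS.mem_left hSc)
    obtain ⟨ι, k, hk⟩ := structure_split hμ huniq e hE hloc hTP' ε hss c hc1 (S := S) (f ∘ₗ r)
      (fun x => ⟨r x, rfl⟩) (by
        rintro _ ⟨x, rfl⟩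
        show f (r (f x)) = f x
        rw [hr]) hc2
    refine ⟨ι, k.trans (LinearEquiv.prodCongr u.symm (LinearEquiv.refl R _)), fun x => ?_⟩
    have h5 : k (f x) = (u x, 0) := hk (u x)
    show (u.symm (k (f x)).1, (k (f x)).2) = (x, 0)
    rw [h5]
    show (u.symm (u x), (0 : ι →₀ D)) = (x, 0)
    rw [LinearEquiv.symm_apply_apply]
  · obtain ⟨κ, hκi, hκ, ⟨t⟩⟩ := hC N hN hc
    obtain ⟨f⟩ := pow_CD ε κ
    exact ⟨κ, hκ, ⟨t.trans (LinearEquiv.prodCongr (LinearEquiv.refl R _) f)⟩⟩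
  · obtain ⟨f⟩ := pow_CD ε κ
    exact K.mem_iso (LinearEquiv.prodCongr (LinearEquiv.refl R _) f) (pow_mem hE κ)
  · obtain ⟨κ, hκi, hκ, ⟨t⟩⟩ := hC N hN hc
    exact inl_strong hE ε t ρ

/-- tameness -/
theorem tame_KK [Countable R] {K : KK R} {E D : Type} [AddCommGroup E] [Module R E]
    [AddCommGroup D] [Module R D] (hc : Coll K E D) {M : Type} [AddCommGroup M] [Module R M]
    (hM : K.mem M) (hMc : hanf ℵ₀ < #M) (m m' : M) (w w' : ℕ →₀ D) :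
    ∃ (B : Type) (_ : AddCommGroup B) (_ : Module R B) (i₀ : B →ₗ[R] M) (b b' : B)
      (j : (B × (ℕ →₀ D)) →ₗ[R] (M × (ℕ →₀ D))), #B = hanf ℵ₀ ∧ K.emb i₀ ∧ i₀ b = m ∧
      i₀ b' = m' ∧ K.emb j ∧ (∀ x y, j (x, y) = (i₀ x, y)) ∧
      K.emb (LinearMap.inl R B (ℕ →₀ D)) ∧
      ∀ (P₀ : Type) [AddCommGroup P₀] [Module R P₀] (g g' : (B × (ℕ →₀ D)) →ₗ[R] P₀),
        K.emb g → K.emb g' → (∀ x, g (x, 0) = g' (x, 0)) → g (b, w) = g' (b', w') →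
        ∃ (P : Type) (_ : AddCommGroup P) (_ : Module R P) (h h' : (M × (ℕ →₀ D)) →ₗ[R] P),
          K.emb h ∧ K.emb h' ∧ (∀ x, h (x, 0) = h' (x, 0)) ∧ h (m, w) = h' (m', w') := by
  classical
  haveI := hc.cE
  haveI := hc.cD
  haveI := hc.nt
  have hH : ℵ₀ ≤ hanf ℵ₀ := (Pool.Agent.H288R4.LS.self_lt_hanf le_rfl).le
  obtain ⟨κ, hκ, ⟨θ⟩⟩ := hc.str M hM hMc.le
  obtain ⟨J, J', nu, b, b', hJ, hJ', hB, hb, hb'⟩ := exists_base θ hH (hMc.trans_eq hκ.symm) m m'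
  let B : Type := E × (J →₀ D)
  let Y : Type := ℕ →₀ D
  let Z : Type := J' →₀ D
  have hBm : K.mem B := hc.mem J
  have hBc : #B = hanf ℵ₀ := hB
  have e1 : K.emb (LinearMap.inl R B Y) := hc.inl B hBm hBc.ge ℕ
  have e2 : K.emb (LinearMap.inl R B Z) := hc.inl B hBm hBc.ge J'
  have hBY : K.mem (B × Y) := (K.emb_mem _ e1).2
  have hBYc : #(B × Y) = hanf ℵ₀ := by
    rw [mk_prod, Cardinal.lift_id, Cardinal.lift_id, hBc]
    exact mul_eq_left hH ((mk_le_aleph0 (α := Y)).trans hH) (mk_ne_zero _)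
  have e3 : K.emb (LinearMap.inl R (B × Y) Z) := hc.inl (B × Y) hBY hBYc.ge J'
  have hT : K.mem ((B × Y) × Z) := (K.emb_mem _ e3).2
  have hTc : hanf ℵ₀ ≤ #((B × Y) × Z) :=
    hBYc.ge.trans (mk_le_of_injective (K.inj _ e3))
  let φ : (M × Y) ≃ₗ[R] ((B × Y) × Z) :=
    (LinearEquiv.prodCongr nu.symm (LinearEquiv.refl R Y)).trans (swp B Z Y)
  let i₀ : B →ₗ[R] M := (nu : (B × Z) →ₗ[R] M) ∘ₗ LinearMap.inl R B Z
  let j : (B × Y) →ₗ[R] (M × Y) :=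
    (φ.symm : ((B × Y) × Z) →ₗ[R] (M × Y)) ∘ₗ LinearMap.inl R (B × Y) Z
  have hMY : K.mem (M × Y) := K.mem_iso φ.symm hT
  refine ⟨B, inferInstance, inferInstance, i₀, b, b', j, hBc,
    K.comp _ _ (K.emb_equiv nu (K.emb_mem _ e2).2) e2, hb, hb',
    K.comp _ _ (K.emb_equiv φ.symm hT) e3, fun x y => rfl, e1, ?_⟩
  intro P₀ _ _ g g' hg hg' hgg hgb
  obtain ⟨S, s1, s2, s3, s4⟩ := small_set g hg (Set.range g') mk_range_le (hH.trans hBYc.ge)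
  let gS : (B × Y) →ₗ[R] S := LinearMap.codRestrict S g s3
  let gS' : (B × Y) →ₗ[R] S := LinearMap.codRestrict S g' fun x => s2 ⟨x, rfl⟩
  have t1 : K.emb gS := K.coh S.subtype gS s4 hg
  have t1' : K.emb gS' := K.coh S.subtype gS' s4 hg'
  obtain ⟨ρ, k, hk⟩ := hc.ovr (B × Y) S gS t1 hBYc.ge s1.symm
  obtain ⟨ρ', k', hk'⟩ := hc.ovr (B × Y) S gS' t1' hBYc.ge s1.symm
  obtain ⟨h₀, u1, u2⟩ := emb_extend (Z := Z) gS k hk (hc.inl _ hT hTc (ρ ⊕ ℕ))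
  obtain ⟨h₀', u1', u2'⟩ := emb_extend (Z := Z) gS' k' hk' (hc.inl _ hT hTc (ρ' ⊕ ℕ))
  have hφ : ∀ x y, φ (x, y) = (((nu.symm x).1, y), (nu.symm x).2) := fun x y => rfl
  have hφb : nu.symm m = (b, 0) := by rw [LinearEquiv.symm_apply_eq, hb]
  have hφb' : nu.symm m' = (b', 0) := by rw [LinearEquiv.symm_apply_eq, hb']
  refine ⟨(S × (ℕ →₀ D)) × Z, inferInstance, inferInstance,
    h₀ ∘ₗ (φ : (M × Y) →ₗ[R] ((B × Y) × Z)), h₀' ∘ₗ (φ : (M × Y) →ₗ[R] ((B × Y) × Z)),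
    K.comp _ _ u1 (K.emb_equiv φ hMY), K.comp _ _ u1' (K.emb_equiv φ hMY), fun x => ?_, ?_⟩
  · show h₀ (φ (x, 0)) = h₀' (φ (x, 0))
    rw [hφ, u2, u2']
    have h1 : gS ((nu.symm x).1, 0) = gS' ((nu.symm x).1, 0) := Subtype.ext (hgg _)
    rw [h1]
  · show h₀ (φ (m, w)) = h₀' (φ (m', w'))
    rw [hφ, hφ, hφb, hφb', u2, u2']
    have h1 : gS (b, w) = gS' (b', w') := Subtype.ext hgb
    rw [h1]

end Pool.Agent.Y583.MC
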