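import Pool.Agent.Y583.MG7
import Pool.Agent.Y583.MG4

set_option autoImplicit false

/-!
Equality of Galois types in one step.
-/

namespace Pool.Agent.Y583.MC

open Cardinal FirstOrder Pool.Agent.TH767.DS
open Pool.Agent.H288R4.LS (hanf)

variable {R : Type} [Ring R]

/-- equality of types over a base, in one step -/
def OneStep (K : KK R) {B N N' : Type} [AddCommGroup B] [Module R B] [AddCommGroup N]
    [Module R N] [AddCommGroup N'] [Module R N'] (f : B →ₗ[R] N) (f' : B →ₗ[R] N') (a : N)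
    (a' : N') : Prop :=
  ∃ (P : Type) (_ : AddCommGroup P) (_ : Module R P) (g : N →ₗ[R] P) (g' : N' →ₗ[R] P),
    K.emb g ∧ K.emb g' ∧ (∀ x, g (f x) = g' (f' x)) ∧ g a = g' a'

theorem OneStep.symm {K : KK R} {B N N' : Type} [AddCommGroup B] [Module R B] [AddCommGroup N]
    [Module R N] [AddCommGroup N'] [Module R N'] {f : B →ₗ[R] N} {f' : B →ₗ[R] N'} {a : N}
    {a' : N'} (h : OneStep K f f' a a') : OneStep K f' f a' a := by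
  obtain ⟨P, i1, i2, g, g', h1, h2, h3, h4⟩ := h
  exact ⟨P, i1, i2, g', g, h2, h1, fun x => (h3 x).symm, h4.symm⟩

theorem OneStep.trans [Countable R] {K : KK R} {E D : Type} [AddCommGroup E] [Module R E]
    [AddCommGroup D] [Module R D] (hc : Coll K E D) {B N₁ N₂ N₃ : Type} [AddCommGroup B]
    [Module R B] [AddCommGroup N₁] [Module R N₁] [AddCommGroup N₂] [Module R N₂]
    [AddCommGroup N₃] [Module R N₃] (f₁ : B →ₗ[R] N₁) (f₂ : B →ₗ[R] N₂) (f₃ : B →ₗ[R] N₃)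
    (a₁ : N₁) (a₂ : N₂) (a₃ : N₃) (hN₁ : #N₁ = #N₂) (hN₃ : #N₃ = #N₂) (hN₂ : hanf ℵ₀ ≤ #N₂)
    (h12 : OneStep K f₁ f₂ a₁ a₂) (h23 : OneStep K f₂ f₃ a₂ a₃) : OneStep K f₁ f₃ a₁ a₃ := by
  classical
  have hH : ℵ₀ ≤ hanf ℵ₀ := (Pool.Agent.H288R4.LS.self_lt_hanf le_rfl).le
  obtain ⟨P, i1, i2, g₁, g₂, hg₁, hg₂, hgf, hga⟩ := h12
  obtain ⟨P', i1', i2', g₂', g₃, hg₂', hg₃, hgf', hga'⟩ := h23
  obtain ⟨S, s1, s2, s3, s4⟩ := small_set g₂ hg₂ (Set.range g₁) (mk_range_le.trans hN₁.le)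
    (hH.trans hN₂)
  obtain ⟨S', s1', s2', s3', s4'⟩ := small_set g₂' hg₂' (Set.range g₃)
    (mk_range_le.trans hN₃.le) (hH.trans hN₂)
  let u₂ : N₂ →ₗ[R] S := LinearMap.codRestrict S g₂ s3
  let u₁ : N₁ →ₗ[R] S := LinearMap.codRestrict S g₁ fun x => s2 ⟨x, rfl⟩
  let u₂' : N₂ →ₗ[R] S' := LinearMap.codRestrict S' g₂' s3'
  let u₃ : N₃ →ₗ[R] S' := LinearMap.codRestrict S' g₃ fun x => s2' ⟨x, rfl⟩
  have t1 : K.emb u₁ := K.coh S.subtype u₁ s4 hg₁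
  have t2 : K.emb u₂ := K.coh S.subtype u₂ s4 hg₂
  have t2' : K.emb u₂' := K.coh S'.subtype u₂' s4' hg₂'
  have t3 : K.emb u₃ := K.coh S'.subtype u₃ s4' hg₃
  obtain ⟨ι, k, hk⟩ := hc.ovr N₂ S u₂ t2 hN₂ s1.symm
  obtain ⟨ι', k', hk'⟩ := hc.ovr N₂ S' u₂' t2' hN₂ s1'.symm
  obtain ⟨Q, q1, q2, h, h', v1, v2, v3, -⟩ := same_of_code (hc.all _ hN₂) rfl s1 s1' u₂ u₂' t2
    t2' k k' hk hk' (n := 0) 0 0 (Function.Embedding.ofIsEmpty : Fin 0 ↪ ι)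
    (Function.Embedding.ofIsEmpty : Fin 0 ↪ ι') 0 0
    (by rw [map_zero, Finsupp.mapDomain_zero]; rfl)
    (by rw [map_zero, Finsupp.mapDomain_zero]; rfl)
  refine ⟨Q, q1, q2, h ∘ₗ u₁, h' ∘ₗ u₃, K.comp _ _ v1 t1, K.comp _ _ v2 t3, fun x => ?_, ?_⟩
  · show h (u₁ (f₁ x)) = h' (u₃ (f₃ x))
    have e1 : u₁ (f₁ x) = u₂ (f₂ x) := Subtype.ext (hgf x)
    have e2 : u₂' (f₂ x) = u₃ (f₃ x) := Subtype.ext (hgf' x)
    rw [e1, v3, e2]
  · show h (u₁ a₁) = h' (u₃ a₃)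
    have e1 : u₁ a₁ = u₂ a₂ := Subtype.ext hga
    have e2 : u₂' a₂ = u₃ a₃ := Subtype.ext hga'
    rw [e1, v3, e2]

attribute [local instance] modStr

theorem main_coll_AEC [Countable R] (K : AEC (Lmod R)) (hLS : K.LSat ℵ₀)
    (hmod : ∀ (N : Type) (S : (Lmod R).Structure N), @AEC.mem _ K N S → IsMod R N S)
    (μ : Cardinal.{0}) (hμ : hanf ℵ₀ ≤ μ) (hcat : K.Categorical μ) :
    ∃ (E : Type) (_ : AddCommGroup E) (_ : Module R E) (D : Type) (_ : AddCommGroup D)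
      (_ : Module R D), Coll (KKof K hLS) E D := by
  have huniq : UniqK (KKof K hLS) μ := by
    intro M N _ _ _ _ hM hN h h'
    obtain ⟨e⟩ := hcat.2 M N h h' hM hN
    exact ⟨isoLin e⟩
  have hex : ∃ (M : Type) (_ : AddCommGroup M) (_ : Module R M), #M = μ ∧ (KKof K hLS).mem M := by
    obtain ⟨M, S, hM, hMc⟩ := hcat.1
    obtain ⟨i1, i2, rfl⟩ := hmod M S hM
    exact ⟨M, i1, i2, hMc, hM⟩
  exact main_coll (KKof K hLS) μ hμ huniq hex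

end Pool.Agent.Y583.MC
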